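import Mathlib
import Pool.Graph.R_seed8.H373R2.T7.Minor

/-! Products of linear forms: roots modulo `D`, and geometric sums over the roots. -/

set_option autoImplicit false

open Finset

namespace Pool.Agent.H76.TB

open Pool.Agent.H807R2.Dav (ee KK dd KK_nonneg KK_le geo_bound norm_ee ee_add)

lemma geo_ap (s t D c : ℕ) (hD : 1 ≤ D) (hst : s ≤ t) (θ : ℝ) :
    ‖∑ n ∈ (Ico s t).filter (fun n => n % D = c), ee ((n : ℝ) * θ)‖ ≤ KK (((t : ℝ) - s) / D + 1) (D * θ) := by
  have hD0 : (0 : ℝ) < D := by exact_mod_cast hD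
  have hst' : (s : ℝ) ≤ t := by exact_mod_cast hst
  have hM0 : 0 ≤ ((t : ℝ) - s) / D + 1 := by
    have : 0 ≤ ((t : ℝ) - s) / D := div_nonneg (by linarith) hD0.le
    linarith
  by_cases hc : c < D
  · set a0 := (s + (D - 1 - c)) / D with ha0
    set a1 := (t + (D - 1 - c)) / D with ha1
    have hset : (Ico s t).filter (fun n => n % D = c) = (Ico a0 a1).image (fun j => D * j + c) := by
      ext n
      rw [mem_filter, mem_Ico, mem_image]
      constructor
      · rintro ⟨⟨h1, h2⟩, h3⟩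
        refine ⟨n / D, ?_, ?_⟩
        · rw [mem_Ico]
          have h4 := Nat.div_add_mod n D
          rw [h3] at h4
          constructor
          · rw [ha0]
            apply Nat.le_of_lt_succ
            rw [Nat.div_lt_iff_lt_mul hD]
            have : (n / D).succ * D = D * (n / D) + D := by rw [Nat.succ_mul, mul_comm]
            rw [this]
            omega
          · rw [ha1]
            rw [Nat.lt_iff_add_one_le, Nat.le_div_iff_mul_le hD]
            have : (n / D + 1) * D = D * (n / D) + D := by rw [add_mul, one_mul, mul_comm]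
            rw [this]
            omega
        · have h4 := Nat.div_add_mod n D
          rw [h3] at h4
          exact h4
      · rintro ⟨j, hj, rfl⟩
        rw [mem_Ico] at hj
        have h1 : a0 * D ≤ j * D := Nat.mul_le_mul_right _ hj.1
        have h2 : (j + 1) * D ≤ a1 * D := Nat.mul_le_mul_right _ hj.2
        have h3 : a1 * D ≤ t + (D - 1 - c) := Nat.div_mul_le_self _ _
        have h4 : s + (D - 1 - c) < (a0 + 1) * D := by
          rw [ha0, mul_comm]
          exact Nat.lt_mul_div_succ _ hD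
        have e1 : (j + 1) * D = D * j + D := by ring
        have e2 : (a0 + 1) * D = a0 * D + D := by ring
        have e3 : j * D = D * j := mul_comm _ _
        refine ⟨⟨by omega, by omega⟩, ?_⟩
        rw [Nat.mul_add_mod, Nat.mod_eq_of_lt hc]
    have ha : a0 ≤ a1 := Nat.div_le_div_right (by omega)
    rw [hset, sum_image (by
      intro x _ y _ h
      simp only at h
      have : D * x = D * y := by omega
      exact Nat.eq_of_mul_eq_mul_left hD this)]
    have e1 : ∀ j ∈ Ico a0 a1, ee (((D * j + c : ℕ) : ℝ) * θ) = ee ((j : ℝ) * (D * θ)) * ee ((c : ℝ) * θ) := by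
      intro j _
      rw [← ee_add]
      congr 1
      push_cast
      ring
    rw [sum_congr rfl e1, ← sum_mul, norm_mul, norm_ee, mul_one]
    apply geo_bound _ _ ha
    have h1 : (a1 : ℝ) * D ≤ t + ((D : ℝ) - 1 - c) := by
      have h3 : a1 * D ≤ t + (D - 1 - c) := Nat.div_mul_le_self _ _
      have h4 : ((a1 * D : ℕ) : ℝ) ≤ ((t + (D - 1 - c) : ℕ) : ℝ) := by exact_mod_cast h3
      rw [Nat.cast_add, Nat.cast_sub (by omega), Nat.cast_sub (by omega)] at h4
      push_cast at h4
      linarith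
    have h2 : (s : ℝ) + ((D : ℝ) - 1 - c) + 1 ≤ (a0 + 1) * D := by
      have h4 : s + (D - 1 - c) < (a0 + 1) * D := by
        rw [ha0, mul_comm]
        exact Nat.lt_mul_div_succ _ hD
      have h5 : ((s + (D - 1 - c) + 1 : ℕ) : ℝ) ≤ (((a0 + 1) * D : ℕ) : ℝ) := by exact_mod_cast h4
      rw [Nat.cast_add, Nat.cast_add, Nat.cast_sub (by omega), Nat.cast_sub (by omega)] at h5
      push_cast at h5
      linarith
    have h3 : ((a1 : ℝ) - a0) * D ≤ (((t : ℝ) - s) / D + 1) * D := by
      have e : (((t : ℝ) - s) / D + 1) * D = (t - s) + D := by field_simp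
      rw [e]
      nlinarith
    exact le_of_mul_le_mul_right h3 hD0
  · rw [filter_false_of_mem, sum_empty, norm_zero]
    · exact KK_nonneg hM0 _
    · intro n _ h
      have := Nat.mod_lt n hD
      omega

variable {k : ℕ}

/-- the product of the forms -/
def Fv (a b : Fin k → ℤ) (n : ℤ) : ℤ := ∏ j, (a j * n + b j)

lemma Fv_modEq (a b : Fin k → ℤ) (D : ℤ) {n n' : ℤ} (h : n ≡ n' [ZMOD D]) : Fv a b n ≡ Fv a b n' [ZMOD D] := by
  unfold Fv
  exact Int.ModEq.prod fun j _ => (h.mul_left _).add_right _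

lemma Fv_dvd_congr (a b : Fin k → ℤ) (D : ℤ) {n n' : ℤ} (h : n ≡ n' [ZMOD D]) : D ∣ Fv a b n ↔ D ∣ Fv a b n' := by
  have h1 : Fv a b n % D = Fv a b n' % D := Fv_modEq a b D h
  rw [Int.dvd_iff_emod_eq_zero, Int.dvd_iff_emod_eq_zero, h1]

/-- `D` is coprime to all constant terms -/
def CB (b : Fin k → ℤ) (D : ℕ) : Prop := ∀ p : ℕ, p.Prime → p ∣ D → ¬ (p : ℤ) ∣ ∏ j, b j

lemma CB.mono {b : Fin k → ℤ} {D E : ℕ} (h : CB b D) (hE : E ∣ D) : CB b E :=
  fun p hp hpE => h p hp (hpE.trans hE)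

lemma prime_dvd_Fv {a b : Fin k → ℤ} {p : ℕ} {n : ℤ} (h1 : (p : ℤ) ∣ Fv a b n) (h2 : (p : ℤ) ∣ n) :
    (p : ℤ) ∣ ∏ j, b j := by
  have h3 : n ≡ 0 [ZMOD p] := (Int.modEq_zero_iff_dvd).2 h2
  have h4 := (Fv_dvd_congr a b p h3).1 h1
  unfold Fv at h4
  simpa using h4

lemma cop_of_dvd {a b : Fin k → ℤ} {D : ℕ} (hD : CB b D) {n : ℕ} (h : (D : ℤ) ∣ Fv a b n) : n.Coprime D := by
  apply Nat.Coprime.symm
  rw [Nat.coprime_iff_gcd_eq_one]
  by_contra hne
  obtain ⟨p, hp, hpd⟩ := Nat.exists_prime_and_dvd hne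
  have h1 : p ∣ D := hpd.trans (Nat.gcd_dvd_left _ _)
  have h2 : p ∣ n := hpd.trans (Nat.gcd_dvd_right _ _)
  exact hD p hp h1 (prime_dvd_Fv ((Int.natCast_dvd_natCast.2 h1).trans h) (Int.natCast_dvd_natCast.2 h2))

/-- roots of `Fv (m *)` modulo `D` -/
def RRm (a b : Fin k → ℤ) (m D : ℕ) : Finset ℕ := (range D).filter (fun c => (D : ℤ) ∣ Fv a b ((m * c : ℕ) : ℤ))

/-- roots of `Fv` modulo `D` -/
def RR (a b : Fin k → ℤ) (D : ℕ) : Finset ℕ := (range D).filter (fun c => (D : ℤ) ∣ Fv a b (c : ℤ))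

lemma card_RR_le (a b : Fin k → ℤ) {D : ℕ} (hsq : Squarefree D) (hD : CB b D) :
    (RR a b D).card ≤ D.divisors.card ^ k := by
  classical
  have hD0 : D ≠ 0 := hsq.ne_zero
  have h1 : D.divisors.card ^ k = (Fintype.piFinset (fun _ : Fin k => D.divisors)).card := by
    rw [Fintype.card_piFinset]; simp
  rw [h1]
  apply card_le_card_of_injOn (fun c : ℕ => fun j : Fin k => Int.gcd (D : ℤ) (a j * c + b j))
  · intro c _
    rw [mem_coe, Fintype.mem_piFinset]
    intro j
    rw [Nat.mem_divisors]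
    refine ⟨?_, hD0⟩
    have := Int.gcd_dvd_left (D : ℤ) (a j * c + b j)
    exact_mod_cast this
  · intro c hc c' hc' h
    rw [mem_coe, RR, mem_filter, mem_range] at hc hc'
    simp only at h
    have hmod : c ≡ c' [MOD D] := by
      have key : ∀ p : ℕ, p.Prime → p ∣ D → (p : ℤ) ∣ ((c' : ℤ) - c) := by
        intro p hp hpD
        have h2 : (p : ℤ) ∣ ∏ j, (a j * (c : ℤ) + b j) := (Int.natCast_dvd_natCast.2 hpD).trans hc.2
        obtain ⟨j, _, hj⟩ := (Prime.dvd_finsetProd_iff (Nat.prime_iff_prime_int.1 hp) _).1 h2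
        have h3 : (p : ℤ) ∣ (Int.gcd (D : ℤ) (a j * c + b j) : ℤ) := Int.dvd_coe_gcd (Int.natCast_dvd_natCast.2 hpD) hj
        have h4 := congrFun h j
        rw [h4] at h3
        have h5 : (p : ℤ) ∣ a j * c' + b j := h3.trans (Int.gcd_dvd_right _ _)
        have h6 : (p : ℤ) ∣ a j * (c' - c) := by
          have e : a j * ((c' : ℤ) - c) = (a j * c' + b j) - (a j * c + b j) := by ring
          rw [e]; exact dvd_sub h5 hj
        rcases (Nat.prime_iff_prime_int.1 hp).dvd_or_dvd h6 with h7 | h7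
        · exfalso
          have h8 : (p : ℤ) ∣ b j := by
            have := dvd_sub hj (h7.mul_right (c : ℤ))
            have e : a j * (c : ℤ) + b j - a j * c = b j := by ring
            rwa [e] at this
          exact hD p hp hpD (h8.trans (dvd_prod_of_mem _ (mem_univ j)))
        · exact h7
      have h9 : (D : ℤ) ∣ (c' : ℤ) - c := by
        rw [Int.natCast_dvd]
        rw [← Nat.prod_primeFactors_of_squarefree hsq]
        apply prod_primes_dvd
        · intro p hp
          exact (Nat.prime_of_mem_primeFactors hp).prime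
        · intro p hp
          rw [← Int.natCast_dvd]
          exact key p (Nat.prime_of_mem_primeFactors hp) (Nat.dvd_of_mem_primeFactors hp)
      exact (Nat.modEq_iff_dvd).2 h9
    have h10 : c % D = c' % D := hmod
    rwa [Nat.mod_eq_of_lt hc.1, Nat.mod_eq_of_lt hc'.1] at h10

lemma card_RRm_le (a b : Fin k → ℤ) {m D : ℕ} (hD : CB b D) : (RRm a b m D).card ≤ (RR a b D).card := by
  classical
  rcases (RRm a b m D).eq_empty_or_nonempty with h | ⟨c0, hc0⟩
  · rw [h]; simp
  · have hD0 : 0 < D := by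
      rw [RRm, mem_filter, mem_range] at hc0
      omega
    have hcop : m.Coprime D := by
      rw [RRm, mem_filter] at hc0
      exact Nat.Coprime.coprime_mul_right (cop_of_dvd hD hc0.2)
    apply card_le_card_of_injOn (fun c => (m * c) % D)
    · intro c hc
      rw [mem_coe, RRm, mem_filter, mem_range] at hc
      rw [mem_coe, RR, mem_filter, mem_range]
      refine ⟨Nat.mod_lt _ hD0, ?_⟩
      apply (Fv_dvd_congr a b D _).1 hc.2
      have : m * c ≡ (m * c) % D [MOD D] := (Nat.mod_modEq _ _).symm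
      exact (Int.natCast_modEq_iff).2 this
    · intro c hc c' hc' h
      rw [mem_coe, RRm, mem_filter, mem_range] at hc hc'
      have h1 : m * c ≡ m * c' [MOD D] := h
      have h2 : c ≡ c' [MOD D] := Nat.ModEq.cancel_left_of_coprime (by rwa [Nat.coprime_comm] at hcop) h1
      have h3 : c % D = c' % D := h2
      rwa [Nat.mod_eq_of_lt hc.1, Nat.mod_eq_of_lt hc'.1] at h3

/-- linear sums over the roots: one modulus -/
lemma geo_root (a b : Fin k → ℤ) {m D : ℕ} (hD1 : 1 ≤ D) (hD : CB b D) (s t : ℕ) (hst : s ≤ t) (θ : ℝ) :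
    ‖∑ n ∈ (Ico s t).filter (fun n => (D : ℤ) ∣ Fv a b ((m * n : ℕ) : ℤ)), ee ((n : ℝ) * θ)‖ ≤
      (RR a b D).card * KK (((t : ℝ) - s) / D + 1) (D * θ) := by
  classical
  have hD0 : (0 : ℝ) < D := by exact_mod_cast hD1
  have hst' : (s : ℝ) ≤ t := by exact_mod_cast hst
  have hM0 : 0 ≤ ((t : ℝ) - s) / D + 1 := by
    have : 0 ≤ ((t : ℝ) - s) / D := div_nonneg (by linarith) hD0.le
    linarith
  have hmaps : ∀ n ∈ (Ico s t).filter (fun n => (D : ℤ) ∣ Fv a b ((m * n : ℕ) : ℤ)), n % D ∈ RRm a b m D := by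
    intro n hn
    rw [mem_filter] at hn
    rw [RRm, mem_filter, mem_range]
    refine ⟨Nat.mod_lt _ hD1, ?_⟩
    apply (Fv_dvd_congr a b D _).1 hn.2
    have : m * n ≡ m * (n % D) [MOD D] := (Nat.mod_modEq n D).symm.mul_left m
    exact (Int.natCast_modEq_iff).2 this
  rw [← sum_fiberwise_of_maps_to hmaps]
  calc ‖∑ c ∈ RRm a b m D, ∑ n ∈ ((Ico s t).filter (fun n => (D : ℤ) ∣ Fv a b ((m * n : ℕ) : ℤ))).filter (fun n => n % D = c),
        ee ((n : ℝ) * θ)‖ ≤ ∑ _c ∈ RRm a b m D, KK (((t : ℝ) - s) / D + 1) (D * θ) := by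
        refine (norm_sum_le _ _).trans (sum_le_sum fun c hc => ?_)
        have e : ((Ico s t).filter (fun n => (D : ℤ) ∣ Fv a b ((m * n : ℕ) : ℤ))).filter (fun n => n % D = c) =
            (Ico s t).filter (fun n => n % D = c) := by
          rw [filter_filter]
          apply filter_congr
          intro n _
          constructor
          · exact fun h => h.2
          · intro h
            refine ⟨?_, h⟩
            rw [RRm, mem_filter] at hc
            apply (Fv_dvd_congr a b D _).2 hc.2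
            have h2 : n ≡ c [MOD D] := by
              rw [← h]; exact (Nat.mod_modEq n D).symm
            exact (Int.natCast_modEq_iff).2 (h2.mul_left m)
        rw [e]
        exact geo_ap s t D c hD1 hst θ
    _ = (RRm a b m D).card * KK (((t : ℝ) - s) / D + 1) (D * θ) := by rw [sum_const, nsmul_eq_mul]
    _ ≤ _ := by
        apply mul_le_mul_of_nonneg_right _ (KK_nonneg hM0 _)
        exact_mod_cast card_RRm_le a b hD

/-- linear sums over the roots: two moduli -/
lemma geo_root2 (a b : Fin k → ℤ) {l l' D D' : ℕ} (hD1 : 1 ≤ D) (hD1' : 1 ≤ D') (hD : CB b D) (hD' : CB b D') (s t : ℕ)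
    (hst : s ≤ t) (θ : ℝ) :
    ‖∑ n ∈ (Ico s t).filter (fun n => (D : ℤ) ∣ Fv a b ((l * n : ℕ) : ℤ) ∧ (D' : ℤ) ∣ Fv a b ((l' * n : ℕ) : ℤ)),
      ee ((n : ℝ) * θ)‖ ≤
      (RR a b D).card * (RR a b D').card * KK (((t : ℝ) - s) / (D.lcm D' : ℕ) + 1) ((D.lcm D' : ℕ) * θ) := by
  classical
  set e := D.lcm D' with he
  have he1 : 1 ≤ e := Nat.lcm_pos hD1 hD1'
  have hDe : D ∣ e := Nat.dvd_lcm_left _ _
  have hDe' : D' ∣ e := Nat.dvd_lcm_right _ _
  have he0 : (0 : ℝ) < e := by exact_mod_cast he1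
  have hst' : (s : ℝ) ≤ t := by exact_mod_cast hst
  have hM0 : 0 ≤ ((t : ℝ) - s) / e + 1 := by
    have : 0 ≤ ((t : ℝ) - s) / e := div_nonneg (by linarith) he0.le
    linarith
  set P : ℕ → Prop := fun n => (D : ℤ) ∣ Fv a b ((l * n : ℕ) : ℤ) ∧ (D' : ℤ) ∣ Fv a b ((l' * n : ℕ) : ℤ) with hP
  have hper : ∀ n n' : ℕ, n ≡ n' [MOD e] → (P n ↔ P n') := by
    intro n n' h
    rw [hP]
    apply and_congr
    · apply Fv_dvd_congr
      exact (Int.natCast_modEq_iff).2 ((h.of_dvd hDe).mul_left l)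
    · apply Fv_dvd_congr
      exact (Int.natCast_modEq_iff).2 ((h.of_dvd hDe').mul_left l')
  set T := (range e).filter P with hT
  have hTcard : T.card ≤ (RR a b D).card * (RR a b D').card := by
    have h1 : T.card ≤ (RRm a b l D ×ˢ RRm a b l' D').card := by
      apply card_le_card_of_injOn (fun c => (c % D, c % D'))
      · intro c hc
        rw [mem_coe, hT, mem_filter, mem_range] at hc
        rw [mem_coe, mem_product, RRm, RRm, mem_filter, mem_filter, mem_range, mem_range]
        refine ⟨⟨Nat.mod_lt _ hD1, ?_⟩, ⟨Nat.mod_lt _ hD1', ?_⟩⟩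
        · apply (Fv_dvd_congr a b D _).1 hc.2.1
          exact (Int.natCast_modEq_iff).2 ((Nat.mod_modEq c D).symm.mul_left l)
        · apply (Fv_dvd_congr a b D' _).1 hc.2.2
          exact (Int.natCast_modEq_iff).2 ((Nat.mod_modEq c D').symm.mul_left l')
      · intro c hc c' hc' h
        rw [mem_coe, hT, mem_filter, mem_range] at hc hc'
        simp only [Prod.mk.injEq] at h
        have h1 : c ≡ c' [MOD e] := by
          have g1 : (D : ℤ) ∣ (c' : ℤ) - c := (Nat.modEq_iff_dvd).1 (show c ≡ c' [MOD D] from h.1)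
          have g2 : (D' : ℤ) ∣ (c' : ℤ) - c := (Nat.modEq_iff_dvd).1 (show c ≡ c' [MOD D'] from h.2)
          apply (Nat.modEq_iff_dvd).2
          rw [Int.natCast_dvd] at g1 g2 ⊢
          exact Nat.lcm_dvd g1 g2
        have h2 : c % e = c' % e := h1
        rwa [Nat.mod_eq_of_lt hc.1, Nat.mod_eq_of_lt hc'.1] at h2
    rw [card_product] at h1
    exact h1.trans (Nat.mul_le_mul (card_RRm_le a b hD) (card_RRm_le a b hD'))
  have hmaps : ∀ n ∈ (Ico s t).filter P, n % e ∈ T := by
    intro n hn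
    rw [mem_filter] at hn
    rw [hT, mem_filter, mem_range]
    exact ⟨Nat.mod_lt _ he1, (hper _ _ (Nat.mod_modEq n e)).2 hn.2⟩
  rw [← sum_fiberwise_of_maps_to hmaps]
  calc ‖∑ c ∈ T, ∑ n ∈ ((Ico s t).filter P).filter (fun n => n % e = c), ee ((n : ℝ) * θ)‖ ≤
        ∑ _c ∈ T, KK (((t : ℝ) - s) / e + 1) (e * θ) := by
        refine (norm_sum_le _ _).trans (sum_le_sum fun c hc => ?_)
        have e1 : ((Ico s t).filter P).filter (fun n => n % e = c) = (Ico s t).filter (fun n => n % e = c) := by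
          rw [filter_filter]
          apply filter_congr
          intro n _
          constructor
          · exact fun h => h.2
          · intro h
            refine ⟨?_, h⟩
            rw [hT, mem_filter] at hc
            apply (hper n c _).2 hc.2
            rw [← h]; exact (Nat.mod_modEq n e).symm
        rw [e1]
        exact geo_ap s t e c he1 hst θ
    _ = T.card * KK (((t : ℝ) - s) / e + 1) (e * θ) := by rw [sum_const, nsmul_eq_mul]
    _ ≤ _ := by
        apply mul_le_mul_of_nonneg_right _ (KK_nonneg hM0 _)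
        exact_mod_cast hTcard

end Pool.Agent.H76.TB
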