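import Mathlib
import Pool.Agent.H76.TB.A1

/-! Divisor moments and weighted linear sums. -/

set_option autoImplicit false

open Finset

namespace Pool.Agent.H76.TB

open Pool.Agent.H807R2.Dav (ee KK dd KK_nonneg KK_le geo_bound norm_ee ee_add)
open Pool.Agent.H373R2.T7 (typeI_lin KK_mono)

/-- number of divisors -/
def tau (l : ℕ) : ℝ := (l.divisors.card : ℝ)

lemma tau_nonneg (l : ℕ) : 0 ≤ tau l := Nat.cast_nonneg _

lemma one_le_tau {l : ℕ} (h : 1 ≤ l) : 1 ≤ tau l := by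
  unfold tau
  have : 0 < l.divisors.card := card_pos.2 ⟨1, Nat.one_mem_divisors.2 (by omega)⟩
  exact_mod_cast this

lemma tau_mono {d l : ℕ} (h : d ∣ l) (hl : l ≠ 0) : tau d ≤ tau l := by
  unfold tau
  exact_mod_cast card_le_card (Nat.divisors_subset_of_dvd hl h)

lemma tau_mul_le (m n : ℕ) : tau (m * n) ≤ tau m * tau n := by
  unfold tau
  rw [Nat.divisors_mul]
  exact_mod_cast card_mul_le

/-- regrouping by products -/
lemma conv_le (V W κ : ℕ) (G : ℕ → ℝ) (hG : ∀ l, 0 ≤ G l) :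
    ∑ m ∈ Icc 1 V, ∑ D ∈ Icc 1 W, tau D ^ κ * G (m * D) ≤ ∑ l ∈ Icc 1 (V * W), tau l ^ (κ + 1) * G l := by
  classical
  rw [← sum_product']
  have hmaps : ∀ x ∈ Icc 1 V ×ˢ Icc 1 W, x.1 * x.2 ∈ Icc 1 (V * W) := by
    intro x hx
    rw [mem_product, mem_Icc, mem_Icc] at hx
    rw [mem_Icc]
    exact ⟨Nat.mul_pos hx.1.1 hx.2.1, Nat.mul_le_mul hx.1.2 hx.2.2⟩
  rw [← sum_fiberwise_of_maps_to hmaps]
  apply sum_le_sum
  intro l hl
  rw [mem_Icc] at hl
  have hl0 : l ≠ 0 := by omega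
  calc ∑ x ∈ (Icc 1 V ×ˢ Icc 1 W).filter (fun x => x.1 * x.2 = l), tau x.2 ^ κ * G (x.1 * x.2) ≤
        ∑ x ∈ (Icc 1 V ×ˢ Icc 1 W).filter (fun x => x.1 * x.2 = l), tau l ^ κ * G l := by
        apply sum_le_sum
        intro x hx
        rw [mem_filter] at hx
        rw [hx.2]
        apply mul_le_mul_of_nonneg_right _ (hG l)
        apply pow_le_pow_left₀ (tau_nonneg _)
        exact tau_mono (hx.2 ▸ dvd_mul_left _ _) hl0
    _ = ((Icc 1 V ×ˢ Icc 1 W).filter (fun x => x.1 * x.2 = l)).card * (tau l ^ κ * G l) := by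
        rw [sum_const, nsmul_eq_mul]
    _ ≤ tau l * (tau l ^ κ * G l) := by
        apply mul_le_mul_of_nonneg_right _ (mul_nonneg (pow_nonneg (tau_nonneg _) _) (hG l))
        unfold tau
        have : ((Icc 1 V ×ˢ Icc 1 W).filter (fun x => x.1 * x.2 = l)).card ≤ l.divisors.card := by
          apply card_le_card_of_injOn (fun x => x.1)
          · intro x hx
            rw [mem_coe, mem_filter] at hx
            rw [mem_coe, Nat.mem_divisors]
            exact ⟨hx.2 ▸ dvd_mul_right _ _, hl0⟩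
          · intro x hx y hy h
            rw [mem_coe, mem_filter, mem_product, mem_Icc, mem_Icc] at hx hy
            simp only at h
            have h2 : x.1 * x.2 = x.1 * y.2 := by rw [hx.2, h, hy.2]
            exact Prod.ext h (Nat.eq_of_mul_eq_mul_left hx.1.1.1 h2)
        exact_mod_cast this
    _ = _ := by rw [pow_succ]; ring

/-- regrouping by least common multiples -/
lemma lcm_le (𝒟 : Finset ℕ) (W κ : ℕ) (h𝒟 : 𝒟 ⊆ Icc 1 W) (G : ℕ → ℝ) (hG : ∀ l, 0 ≤ G l) :
    ∑ D ∈ 𝒟, ∑ D' ∈ 𝒟, tau D ^ κ * tau D' ^ κ * G (D.lcm D') ≤ ∑ e ∈ Icc 1 (W * W), tau e ^ (2 * κ + 2) * G e := by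
  classical
  rw [← sum_product']
  have hmaps : ∀ x ∈ 𝒟 ×ˢ 𝒟, x.1.lcm x.2 ∈ Icc 1 (W * W) := by
    intro x hx
    rw [mem_product] at hx
    have h1 := mem_Icc.1 (h𝒟 hx.1)
    have h2 := mem_Icc.1 (h𝒟 hx.2)
    rw [mem_Icc]
    refine ⟨Nat.lcm_pos h1.1 h2.1, ?_⟩
    exact (Nat.le_of_dvd (Nat.mul_pos h1.1 h2.1) (Nat.lcm_dvd_mul _ _)).trans (Nat.mul_le_mul h1.2 h2.2)
  rw [← sum_fiberwise_of_maps_to hmaps]
  apply sum_le_sum
  intro e he
  rw [mem_Icc] at he
  have he0 : e ≠ 0 := by omega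
  calc ∑ x ∈ (𝒟 ×ˢ 𝒟).filter (fun x => x.1.lcm x.2 = e), tau x.1 ^ κ * tau x.2 ^ κ * G (x.1.lcm x.2) ≤
        ∑ x ∈ (𝒟 ×ˢ 𝒟).filter (fun x => x.1.lcm x.2 = e), tau e ^ κ * tau e ^ κ * G e := by
        apply sum_le_sum
        intro x hx
        rw [mem_filter] at hx
        rw [hx.2]
        apply mul_le_mul_of_nonneg_right _ (hG e)
        apply mul_le_mul
        · exact pow_le_pow_left₀ (tau_nonneg _) (tau_mono (hx.2 ▸ Nat.dvd_lcm_left _ _) he0) _
        · exact pow_le_pow_left₀ (tau_nonneg _) (tau_mono (hx.2 ▸ Nat.dvd_lcm_right _ _) he0) _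
        · exact pow_nonneg (tau_nonneg _) _
        · exact pow_nonneg (tau_nonneg _) _
    _ = ((𝒟 ×ˢ 𝒟).filter (fun x => x.1.lcm x.2 = e)).card * (tau e ^ κ * tau e ^ κ * G e) := by
        rw [sum_const, nsmul_eq_mul]
    _ ≤ (tau e * tau e) * (tau e ^ κ * tau e ^ κ * G e) := by
        have h0 := pow_nonneg (tau_nonneg e) κ
        have h00 := hG e
        apply mul_le_mul_of_nonneg_right _ (by positivity)
        unfold tau
        have : ((𝒟 ×ˢ 𝒟).filter (fun x => x.1.lcm x.2 = e)).card ≤ e.divisors.card * e.divisors.card := by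
          rw [← card_product]
          apply card_le_card
          intro x hx
          rw [mem_filter] at hx
          rw [mem_product, Nat.mem_divisors, Nat.mem_divisors]
          exact ⟨⟨hx.2 ▸ Nat.dvd_lcm_left _ _, he0⟩, ⟨hx.2 ▸ Nat.dvd_lcm_right _ _, he0⟩⟩
        exact_mod_cast this
    _ = _ := by ring

/-- moments of the divisor function -/
lemma tau_moment (κ V : ℕ) : ∑ l ∈ Icc 1 V, tau l ^ κ / l ≤ (1 + Real.log V) ^ (2 ^ κ) := by
  classical
  induction κ with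
  | zero =>
    have h := harmonic_le_one_add_log V
    have e : ((harmonic V : ℚ) : ℝ) = ∑ l ∈ Icc 1 V, tau l ^ 0 / l := by
      rw [harmonic_eq_sum_Icc]
      push_cast
      apply sum_congr rfl; intro l _
      rw [pow_zero, one_div]
    rw [← e]
    simpa using h
  | succ κ ih =>
    have h0 : ∀ l : ℕ, 0 ≤ tau l ^ κ / l := fun l => div_nonneg (pow_nonneg (tau_nonneg _) _) (Nat.cast_nonneg _)
    have h1 : ∑ l ∈ Icc 1 V, tau l ^ (κ + 1) / l ≤ (∑ l ∈ Icc 1 V, tau l ^ κ / l) * ∑ l ∈ Icc 1 V, tau l ^ κ / l := by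
      rw [sum_mul_sum, ← sum_product']
      calc ∑ l ∈ Icc 1 V, tau l ^ (κ + 1) / l ≤
            ∑ l ∈ Icc 1 V, ∑ x ∈ (Icc 1 V ×ˢ Icc 1 V).filter (fun x => x.1 * x.2 = l), tau x.1 ^ κ / x.1 * (tau x.2 ^ κ / x.2) := by
            apply sum_le_sum
            intro l hl
            rw [mem_Icc] at hl
            have hl0 : l ≠ 0 := by omega
            have e1 : (Icc 1 V ×ˢ Icc 1 V).filter (fun x => x.1 * x.2 = l) = l.divisorsAntidiagonal := by
              ext x
              rw [mem_filter, mem_product, mem_Icc, mem_Icc, Nat.mem_divisorsAntidiagonal]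
              constructor
              · rintro ⟨_, h⟩; exact ⟨h, hl0⟩
              · rintro ⟨h, _⟩
                have hx1 : 0 < x.1 := Nat.pos_of_ne_zero (by rintro h3; rw [h3, zero_mul] at h; exact hl0 h.symm)
                have hx2 : 0 < x.2 := Nat.pos_of_ne_zero (by rintro h3; rw [h3, mul_zero] at h; exact hl0 h.symm)
                have h4 : x.1 ≤ l := h ▸ Nat.le_mul_of_pos_right _ hx2
                have h5 : x.2 ≤ l := h ▸ Nat.le_mul_of_pos_left _ hx1
                exact ⟨⟨⟨hx1, by omega⟩, ⟨hx2, by omega⟩⟩, h⟩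
            rw [e1]
            calc tau l ^ (κ + 1) / l = ∑ _x ∈ l.divisorsAntidiagonal, tau l ^ κ / l := by
                  rw [sum_const, nsmul_eq_mul, ← Nat.map_div_right_divisors, card_map, pow_succ]
                  unfold tau
                  ring
              _ ≤ ∑ x ∈ l.divisorsAntidiagonal, tau x.1 ^ κ / x.1 * (tau x.2 ^ κ / x.2) := by
                  apply sum_le_sum
                  intro x hx
                  rw [Nat.mem_divisorsAntidiagonal] at hx
                  rw [← hx.1, div_mul_div_comm, ← mul_pow]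
                  push_cast
                  apply div_le_div_of_nonneg_right _ (by positivity)
                  exact pow_le_pow_left₀ (tau_nonneg _) (tau_mul_le _ _) _
        _ ≤ ∑ x ∈ Icc 1 V ×ˢ Icc 1 V, tau x.1 ^ κ / x.1 * (tau x.2 ^ κ / x.2) := by
            rw [← sum_biUnion]
            · apply sum_le_sum_of_subset_of_nonneg
              · intro x hx
                rw [mem_biUnion] at hx
                obtain ⟨l, _, hx⟩ := hx
                exact (mem_filter.1 hx).1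
              · intro x _ _
                exact mul_nonneg (h0 _) (h0 _)
            · intro l _ l' _ hne
              rw [Function.onFun, disjoint_left]
              intro x hx hx'
              rw [mem_filter] at hx hx'
              exact hne (hx.2.symm.trans hx'.2)
    refine h1.trans ?_
    have h2 : 0 ≤ ∑ l ∈ Icc 1 V, tau l ^ κ / l := sum_nonneg fun l _ => h0 l
    calc _ ≤ (1 + Real.log V) ^ (2 ^ κ) * (1 + Real.log V) ^ (2 ^ κ) := mul_le_mul ih ih h2 (h2.trans ih)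
      _ = _ := by rw [← pow_add]; congr 1; ring

/-- weighted linear sums -/
noncomputable def S1 (κ N V : ℕ) (α : ℝ) : ℝ := ∑ l ∈ Icc 1 V, tau l ^ κ * KK (2 * N / l) (l * α)

lemma S1_nonneg (κ N V : ℕ) (α : ℝ) : 0 ≤ S1 κ N V α :=
  sum_nonneg fun l _ => mul_nonneg (pow_nonneg (tau_nonneg _) _) (KK_nonneg (by positivity) _)

lemma S1_le (κ N V : ℕ) (hN : 1 ≤ N) (hV : 1 ≤ V) {q : ℕ} (hq : 1 ≤ q) {c : ℤ} (hcop : IsCoprime c (q : ℤ)) {α : ℝ}
    (hα : |α - c / q| ≤ 1 / (q : ℝ) ^ 2) :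
    S1 κ N V α ≤ Real.sqrt ((6 * N * (1 + Real.log V) ^ (2 ^ (2 * κ))) *
      (600 * (Nat.log 2 V + 1 : ℝ) * ((N : ℝ) / q + V + q) * (1 + Real.log q))) := by
  apply Real.le_sqrt_of_sq_le
  have hK : ∀ l : ℕ, 0 ≤ KK (2 * N / l) (l * α) := fun l => KK_nonneg (by positivity) _
  have h1 : S1 κ N V α ^ 2 ≤ (∑ l ∈ Icc 1 V, (tau l ^ κ) ^ 2 * KK (2 * N / l) (l * α)) * ∑ l ∈ Icc 1 V, KK (2 * N / l) (l * α) := by
    have h2 := sum_mul_sq_le_sq_mul_sq (Icc 1 V) (fun l => tau l ^ κ * Real.sqrt (KK (2 * N / l) (l * α)))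
      (fun l => Real.sqrt (KK (2 * N / l) (l * α)))
    have e1 : ∀ l : ℕ, tau l ^ κ * Real.sqrt (KK (2 * N / l) (l * α)) * Real.sqrt (KK (2 * N / l) (l * α)) =
        tau l ^ κ * KK (2 * N / l) (l * α) := by
      intro l; rw [mul_assoc, Real.mul_self_sqrt (hK l)]
    have e2 : ∀ l : ℕ, (tau l ^ κ * Real.sqrt (KK (2 * N / l) (l * α))) ^ 2 = (tau l ^ κ) ^ 2 * KK (2 * N / l) (l * α) := by
      intro l; rw [mul_pow, Real.sq_sqrt (hK l)]
    have e3 : ∀ l : ℕ, Real.sqrt (KK (2 * N / l) (l * α)) ^ 2 = KK (2 * N / l) (l * α) := fun l => Real.sq_sqrt (hK l)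
    simp only [e1, e2, e3] at h2
    exact h2
  refine h1.trans ?_
  apply mul_le_mul _ (typeI_lin hq hcop hα N V hN hV) (sum_nonneg fun l _ => hK l)
  · have : 0 ≤ Real.log V := Real.log_natCast_nonneg _
    positivity
  calc ∑ l ∈ Icc 1 V, (tau l ^ κ) ^ 2 * KK (2 * N / l) (l * α) ≤ ∑ l ∈ Icc 1 V, 6 * N * (tau l ^ (2 * κ) / l) := by
        apply sum_le_sum
        intro l hl
        have h3 := KK_le (show (0 : ℝ) ≤ 2 * N / l by positivity) (l * α)
        calc (tau l ^ κ) ^ 2 * KK (2 * N / l) (l * α) ≤ (tau l ^ κ) ^ 2 * (3 * (2 * N / l)) :=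
              mul_le_mul_of_nonneg_left h3 (by positivity)
          _ = _ := by rw [← pow_mul, mul_comm κ 2]; ring
    _ = 6 * N * ∑ l ∈ Icc 1 V, tau l ^ (2 * κ) / l := by rw [mul_sum]
    _ ≤ _ := mul_le_mul_of_nonneg_left (tau_moment _ _) (by positivity)

end Pool.Agent.H76.TB
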