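import Mathlib
import Pool.Agent.H76.TB.A2

/-! Linear and bilinear sums twisted by divisor sums of a product of linear forms. -/

set_option autoImplicit false

open Finset

namespace Pool.Agent.H76.TB

open Pool.Agent.H807R2.Dav (ee KK dd KK_nonneg KK_le KK_neg geo_bound norm_ee ee_add)
open Pool.Agent.H373R2.T7 (typeI_lin KK_mono cs_norm ee_conj')

variable {k : ℕ}

/-- admissible divisor weights -/
structure Adm (b : Fin k → ℤ) (W : ℕ) (𝒟 : Finset ℕ) (C : ℕ → ℝ) : Prop where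
  sub : 𝒟 ⊆ Icc 1 W
  sq : ∀ D ∈ 𝒟, Squarefree D
  cb : ∀ D ∈ 𝒟, CB b D
  bd : ∀ D ∈ 𝒟, |C D| ≤ 1

/-- the divisor sum -/
noncomputable def WW (a b : Fin k → ℤ) (𝒟 : Finset ℕ) (C : ℕ → ℝ) (n : ℕ) : ℝ :=
  ∑ D ∈ 𝒟, if (D : ℤ) ∣ Fv a b (n : ℤ) then C D else 0

lemma card_RR_tau (a : Fin k → ℤ) {b : Fin k → ℤ} {D : ℕ} (hsq : Squarefree D) (hD : CB b D) :
    ((RR a b D).card : ℝ) ≤ tau D ^ k := by
  unfold tau
  exact_mod_cast card_RR_le a b hsq hD

lemma typeI_W (a : Fin k → ℤ) {b : Fin k → ℤ} {W : ℕ} {𝒟 : Finset ℕ} {C : ℕ → ℝ} (h : Adm b W 𝒟 C) (N N' m b' : ℕ)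
    (hm : 1 ≤ m) (hN' : N' ≤ 2 * N) (hmW : m * W ≤ N) (hb' : b' ≤ N' / m) (α : ℝ) :
    ‖∑ l ∈ Ioc (N / m) b', ((WW a b 𝒟 C (m * l) : ℝ) : ℂ) * ee (((m * l : ℕ) : ℝ) * α)‖ ≤
      ∑ D ∈ 𝒟, tau D ^ k * KK (2 * ((2 * N : ℕ) : ℝ) / ((m * D : ℕ) : ℝ)) (((m * D : ℕ) : ℝ) * α) := by
  classical
  have hm0 : (0 : ℝ) < m := by exact_mod_cast hm
  have e1 : ∑ l ∈ Ioc (N / m) b', ((WW a b 𝒟 C (m * l) : ℝ) : ℂ) * ee (((m * l : ℕ) : ℝ) * α) =
      ∑ D ∈ 𝒟, ((C D : ℝ) : ℂ) * ∑ l ∈ (Ico (N / m + 1) (b' + 1)).filter (fun l => (D : ℤ) ∣ Fv a b ((m * l : ℕ) : ℤ)),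
        ee ((l : ℝ) * (m * α)) := by
    have e2 : Ioc (N / m) b' = Ico (N / m + 1) (b' + 1) := by ext x; rw [mem_Ioc, mem_Ico]; omega
    rw [e2]
    have e3 : ∀ l ∈ Ico (N / m + 1) (b' + 1), ((WW a b 𝒟 C (m * l) : ℝ) : ℂ) * ee (((m * l : ℕ) : ℝ) * α) =
        ∑ D ∈ 𝒟, ((C D : ℝ) : ℂ) * (if (D : ℤ) ∣ Fv a b ((m * l : ℕ) : ℤ) then ee ((l : ℝ) * (m * α)) else 0) := by
      intro l _
      unfold WW
      push_cast
      rw [sum_mul]
      apply sum_congr rfl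
      intro D _
      have e4 : (m : ℝ) * l * α = (l : ℝ) * (m * α) := by ring
      rw [e4]
      split_ifs <;> simp
    rw [sum_congr rfl e3, sum_comm]
    apply sum_congr rfl
    intro D _
    rw [← mul_sum, sum_filter]
  rw [e1]
  refine (norm_sum_le _ _).trans (sum_le_sum fun D hD => ?_)
  have hDW := mem_Icc.1 (h.sub hD)
  have hD0 : (0 : ℝ) < D := by exact_mod_cast hDW.1
  have hmD : (0 : ℝ) < ((m * D : ℕ) : ℝ) := by push_cast; positivity
  have hK0 : 0 ≤ KK (2 * ((2 * N : ℕ) : ℝ) / ((m * D : ℕ) : ℝ)) (((m * D : ℕ) : ℝ) * α) := KK_nonneg (by positivity) _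
  rw [norm_mul, Complex.norm_real, Real.norm_eq_abs]
  have hin : ‖∑ l ∈ (Ico (N / m + 1) (b' + 1)).filter (fun l => (D : ℤ) ∣ Fv a b ((m * l : ℕ) : ℤ)), ee ((l : ℝ) * (m * α))‖ ≤
      tau D ^ k * KK (2 * ((2 * N : ℕ) : ℝ) / ((m * D : ℕ) : ℝ)) (((m * D : ℕ) : ℝ) * α) := by
    rcases le_or_gt (N / m + 1) (b' + 1) with hle | hgt
    · refine (geo_root a b hDW.1 (h.cb D hD) _ _ hle _).trans ?_
      have e5 : (D : ℝ) * (m * α) = ((m * D : ℕ) : ℝ) * α := by push_cast; ring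
      rw [e5]
      have hlen : (((b' + 1 : ℕ) : ℝ) - ((N / m + 1 : ℕ) : ℝ)) / D + 1 ≤ 2 * ((2 * N : ℕ) : ℝ) / ((m * D : ℕ) : ℝ) := by
        have h1 : (b' : ℝ) ≤ 2 * N / m := by
          have h2 : (b' : ℝ) ≤ ((N' / m : ℕ) : ℝ) := by exact_mod_cast hb'
          have h3 : ((N' / m : ℕ) : ℝ) ≤ N' / m := Nat.cast_div_le
          have h4 : (N' : ℝ) / m ≤ 2 * N / m := by
            apply div_le_div_of_nonneg_right _ hm0.le
            exact_mod_cast hN'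
          linarith
        have h2 : (0 : ℝ) ≤ ((N / m : ℕ) : ℝ) := Nat.cast_nonneg _
        have h3 : (((b' + 1 : ℕ) : ℝ) - ((N / m + 1 : ℕ) : ℝ)) ≤ 2 * N / m := by push_cast; linarith
        have h4 : ((m * D : ℕ) : ℝ) ≤ N := by
          exact_mod_cast (Nat.mul_le_mul_left m hDW.2).trans hmW
        have h5 : (1 : ℝ) ≤ N / ((m * D : ℕ) : ℝ) := by rw [le_div_iff₀ hmD]; linarith
        have h6 : (((b' + 1 : ℕ) : ℝ) - ((N / m + 1 : ℕ) : ℝ)) / D ≤ 2 * N / m / D := div_le_div_of_nonneg_right h3 hD0.le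
        have e6 : 2 * (N : ℝ) / m / D = 2 * (N / ((m * D : ℕ) : ℝ)) := by push_cast; rw [div_div]; ring
        have e7 : 2 * ((2 * N : ℕ) : ℝ) / ((m * D : ℕ) : ℝ) = 4 * (N / ((m * D : ℕ) : ℝ)) := by push_cast; ring
        rw [e7]
        linarith
      have h0 : 0 ≤ (((b' + 1 : ℕ) : ℝ) - ((N / m + 1 : ℕ) : ℝ)) / D + 1 := by
        have : 0 ≤ (((b' + 1 : ℕ) : ℝ) - ((N / m + 1 : ℕ) : ℝ)) / D := by
          apply div_nonneg _ hD0.le
          rw [sub_nonneg]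
          exact_mod_cast hle
        linarith
      apply mul_le_mul (card_RR_tau a (h.sq D hD) (h.cb D hD)) (KK_mono h0 hlen _) (KK_nonneg h0 _)
        (pow_nonneg (tau_nonneg _) _)
    · rw [Ico_eq_empty_of_le hgt.le, filter_empty, sum_empty, norm_zero]
      exact mul_nonneg (pow_nonneg (tau_nonneg _) _) hK0
  calc |C D| * _ ≤ 1 * (tau D ^ k * KK (2 * ((2 * N : ℕ) : ℝ) / ((m * D : ℕ) : ℝ)) (((m * D : ℕ) : ℝ) * α)) :=
        mul_le_mul (h.bd D hD) hin (norm_nonneg _) (by norm_num)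
    _ = _ := one_mul _

/-- the total of the linear sums -/
lemma typeI_tot (W V N : ℕ) (𝒟 : Finset ℕ) (h𝒟 : 𝒟 ⊆ Icc 1 W) (κ : ℕ) (α : ℝ) :
    ∑ m ∈ Icc 1 V, ∑ D ∈ 𝒟, tau D ^ κ * KK (2 * (N : ℝ) / ((m * D : ℕ) : ℝ)) (((m * D : ℕ) : ℝ) * α) ≤
      S1 (κ + 1) N (V * W) α := by
  refine le_trans ?_ (conv_le V W κ (fun l => KK (2 * N / l) (l * α)) (fun l => KK_nonneg (by positivity) _))
  apply sum_le_sum
  intro m _
  apply sum_le_sum_of_subset_of_nonneg h𝒟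
  intro D _ _
  exact mul_nonneg (pow_nonneg (tau_nonneg _) _) (KK_nonneg (by positivity) _)

/-- bilinear sums -/
lemma typeII_W (a : Fin k → ℤ) {b : Fin k → ℤ} {W : ℕ} {𝒟 : Finset ℕ} {C : ℕ → ℝ} (h : Adm b W 𝒟 C) (N N' M L : ℕ)
    (hM : W * W ≤ M) (u v : ℕ → ℂ) (α : ℝ) :
    ‖∑ m ∈ Ioc M (2 * M), ∑ l ∈ Ioc L (2 * L), u m * v l *
      (if N < m * l ∧ m * l ≤ N' then ((WW a b 𝒟 C (m * l) : ℝ) : ℂ) * ee (((m * l : ℕ) : ℝ) * α) else 0)‖ ^ 2 ≤
      (∑ m ∈ Ioc M (2 * M), ‖u m‖ ^ 2) * ((∑ l ∈ Ioc L (2 * L), ‖v l‖ ^ 2) *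
        (6 * M * (1 + Real.log ((W * W : ℕ) : ℝ)) ^ (2 ^ (2 * k + 2)) + 2 * S1 (2 * k + 3) (M * L) (L * (W * W)) α)) := by
  classical
  set S : ℕ → ℂ := fun m => ∑ l ∈ Ioc L (2 * L), v l *
    (if N < m * l ∧ m * l ≤ N' then ((WW a b 𝒟 C (m * l) : ℝ) : ℂ) * ee (((m * l : ℕ) : ℝ) * α) else 0) with hS
  have e1 : ∑ m ∈ Ioc M (2 * M), ∑ l ∈ Ioc L (2 * L), u m * v l *
      (if N < m * l ∧ m * l ≤ N' then ((WW a b 𝒟 C (m * l) : ℝ) : ℂ) * ee (((m * l : ℕ) : ℝ) * α) else 0) =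
      ∑ m ∈ Ioc M (2 * M), u m * S m := by
    apply sum_congr rfl; intro m _
    rw [hS, mul_sum]
    apply sum_congr rfl; intro l _
    ring
  rw [e1]
  refine (cs_norm _ _ _).trans (mul_le_mul_of_nonneg_left ?_ (by positivity))
  -- expand the square
  set cond : ℕ → ℕ → ℕ → Prop := fun l l' m => (N < m * l ∧ m * l ≤ N') ∧ (N < m * l' ∧ m * l' ≤ N') with hcond
  have h1 : ((∑ m ∈ Ioc M (2 * M), ‖S m‖ ^ 2 : ℝ) : ℂ) =
      ∑ l ∈ Ioc L (2 * L), ∑ l' ∈ Ioc L (2 * L), (v l * (starRingEnd ℂ) (v l')) *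
        ∑ D ∈ 𝒟, ∑ D' ∈ 𝒟, ((C D * C D' : ℝ) : ℂ) *
        ∑ m ∈ ((Ioc M (2 * M)).filter (cond l l')).filter
          (fun m => (D : ℤ) ∣ Fv a b ((l * m : ℕ) : ℤ) ∧ (D' : ℤ) ∣ Fv a b ((l' * m : ℕ) : ℤ)),
          ee ((m : ℝ) * (((l : ℝ) - l') * α)) := by
    push_cast
    have h2 : ∀ m ∈ Ioc M (2 * M), ((‖S m‖ : ℂ)) ^ 2 = ∑ l ∈ Ioc L (2 * L), ∑ l' ∈ Ioc L (2 * L),
        (v l * (starRingEnd ℂ) (v l')) * ∑ D ∈ 𝒟, ∑ D' ∈ 𝒟, ((C D : ℂ) * (C D' : ℂ)) *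
        (if cond l l' m then (if (D : ℤ) ∣ Fv a b ((l * m : ℕ) : ℤ) ∧ (D' : ℤ) ∣ Fv a b ((l' * m : ℕ) : ℤ) then
          ee ((m : ℝ) * (((l : ℝ) - l') * α)) else 0) else 0) := by
      intro m _
      rw [← Complex.mul_conj', hS]
      simp only
      rw [map_sum, sum_mul_sum]
      apply sum_congr rfl; intro l _
      apply sum_congr rfl; intro l' _
      rw [map_mul]
      by_cases g1 : N < m * l ∧ m * l ≤ N'
      · by_cases g2 : N < m * l' ∧ m * l' ≤ N'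
        · rw [if_pos g1, if_pos g2, map_mul, ee_conj', Complex.conj_ofReal]
          have hc : cond l l' m := ⟨g1, g2⟩
          simp only [if_pos hc]
          have e3 : ee ((m : ℝ) * (((l : ℝ) - l') * α)) = ee (((m * l : ℕ) : ℝ) * α) * ee (-(((m * l' : ℕ) : ℝ) * α)) := by
            rw [← ee_add]; congr 1; push_cast; ring
          have e4 : ∑ D ∈ 𝒟, ∑ D' ∈ 𝒟, ((C D : ℂ) * (C D' : ℂ)) *
              (if (D : ℤ) ∣ Fv a b ((l * m : ℕ) : ℤ) ∧ (D' : ℤ) ∣ Fv a b ((l' * m : ℕ) : ℤ) then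
                ee ((m : ℝ) * (((l : ℝ) - l') * α)) else 0) =
              ((WW a b 𝒟 C (m * l) : ℝ) : ℂ) * ((WW a b 𝒟 C (m * l') : ℝ) : ℂ) * ee ((m : ℝ) * (((l : ℝ) - l') * α)) := by
            unfold WW
            push_cast
            rw [sum_mul_sum, sum_mul]
            apply sum_congr rfl; intro D _
            rw [sum_mul]
            apply sum_congr rfl; intro D' _
            rw [mul_comm (l : ℤ) (m : ℤ), mul_comm (l' : ℤ) (m : ℤ)]
            by_cases g3 : (D : ℤ) ∣ Fv a b ((m : ℤ) * l)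
            · by_cases g4 : (D' : ℤ) ∣ Fv a b ((m : ℤ) * l')
              · rw [if_pos ⟨g3, g4⟩, if_pos g3, if_pos g4]
              · rw [if_neg (fun h => g4 h.2), if_neg g4]; simp
            · rw [if_neg (fun h => g3 h.1), if_neg g3]; simp
          rw [e4, e3]; ring
        · have hc : ¬ cond l l' m := fun h => g2 h.2
          simp only [if_neg hc]
          rw [if_neg g2]; simp
      · have hc : ¬ cond l l' m := fun h => g1 h.1
        simp only [if_neg hc]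
        rw [if_neg g1]; simp
    rw [sum_congr rfl h2, sum_comm]
    apply sum_congr rfl; intro l _
    rw [sum_comm]
    apply sum_congr rfl; intro l' _
    rw [← mul_sum]
    congr 1
    rw [sum_comm]
    apply sum_congr rfl; intro D _
    rw [sum_comm]
    apply sum_congr rfl; intro D' _
    rw [← mul_sum, sum_filter, sum_filter]
    simp only [hcond]
    push_cast
    rfl
  have hK : ∀ l ∈ Ioc L (2 * L), ∀ l' ∈ Ioc L (2 * L), ∀ D ∈ 𝒟, ∀ D' ∈ 𝒟,
      ‖∑ m ∈ ((Ioc M (2 * M)).filter (cond l l')).filter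
          (fun m => (D : ℤ) ∣ Fv a b ((l * m : ℕ) : ℤ) ∧ (D' : ℤ) ∣ Fv a b ((l' * m : ℕ) : ℤ)),
          ee ((m : ℝ) * (((l : ℝ) - l') * α))‖ ≤
        tau D ^ k * tau D' ^ k * KK (2 * M / (D.lcm D' : ℕ)) ((D.lcm D' : ℕ) * (((l : ℝ) - l') * α)) := by
    intro l hl l' hl' D hD D' hD'
    have hDW := mem_Icc.1 (h.sub hD)
    have hDW' := mem_Icc.1 (h.sub hD')
    set e := D.lcm D' with he
    have he1 : 1 ≤ e := Nat.lcm_pos hDW.1 hDW'.1
    have he0 : (0 : ℝ) < e := by exact_mod_cast he1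
    have heM : e ≤ M := ((Nat.le_of_dvd (Nat.mul_pos hDW.1 hDW'.1) (Nat.lcm_dvd_mul _ _)).trans
      (Nat.mul_le_mul hDW.2 hDW'.2)).trans hM
    have heM' : (e : ℝ) ≤ M := by exact_mod_cast heM
    rw [mem_Ioc] at hl hl'
    have hl0 : 0 < l := by omega
    have hl0' : 0 < l' := by omega
    set lo := max M (max (N / l) (N / l')) with hlo
    set hi := min (2 * M) (min (N' / l) (N' / l')) with hhi
    have hset : (Ioc M (2 * M)).filter (cond l l') = Ico (lo + 1) (hi + 1) := by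
      ext m
      rw [mem_filter, mem_Ioc, mem_Ico]
      have g1 : N < m * l ↔ N / l < m := (Nat.div_lt_iff_lt_mul hl0).symm
      have g2 : m * l ≤ N' ↔ m ≤ N' / l := (Nat.le_div_iff_mul_le hl0).symm
      have g3 : N < m * l' ↔ N / l' < m := (Nat.div_lt_iff_lt_mul hl0').symm
      have g4 : m * l' ≤ N' ↔ m ≤ N' / l' := (Nat.le_div_iff_mul_le hl0').symm
      rw [hcond]
      simp only
      rw [g1, g2, g3, g4]
      omega
    rw [hset]
    have hKK0 : 0 ≤ KK (2 * M / (e : ℝ)) (e * (((l : ℝ) - l') * α)) := KK_nonneg (by positivity) _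
    rcases le_or_gt (lo + 1) (hi + 1) with hle | hgt
    · refine (geo_root2 a b hDW.1 hDW'.1 (h.cb D hD) (h.cb D' hD') _ _ hle _).trans ?_
      have g1 : M ≤ lo := le_max_left _ _
      have g2 : hi ≤ 2 * M := min_le_left _ _
      have g1r : (M : ℝ) ≤ lo := by exact_mod_cast g1
      have g2r : (hi : ℝ) ≤ 2 * M := by exact_mod_cast g2
      have hlen : (((hi + 1 : ℕ) : ℝ) - ((lo + 1 : ℕ) : ℝ)) / e + 1 ≤ 2 * M / e := by
        rw [div_add_one he0.ne']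
        apply div_le_div_of_nonneg_right _ he0.le
        push_cast; linarith
      have h0 : 0 ≤ (((hi + 1 : ℕ) : ℝ) - ((lo + 1 : ℕ) : ℝ)) / e + 1 := by
        have : 0 ≤ (((hi + 1 : ℕ) : ℝ) - ((lo + 1 : ℕ) : ℝ)) / e := by
          apply div_nonneg _ he0.le
          rw [sub_nonneg]
          exact_mod_cast hle
        linarith
      apply mul_le_mul _ (KK_mono h0 hlen _) (KK_nonneg h0 _)
        (mul_nonneg (pow_nonneg (tau_nonneg _) _) (pow_nonneg (tau_nonneg _) _))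
      exact mul_le_mul (card_RR_tau a (h.sq D hD) (h.cb D hD)) (card_RR_tau a (h.sq D' hD') (h.cb D' hD'))
        (Nat.cast_nonneg _) (pow_nonneg (tau_nonneg _) _)
    · rw [Ico_eq_empty_of_le hgt.le, filter_empty, sum_empty, norm_zero]
      exact mul_nonneg (mul_nonneg (pow_nonneg (tau_nonneg _) _) (pow_nonneg (tau_nonneg _) _)) hKK0
  set Q : ℕ → ℕ → ℝ := fun l l' => ∑ D ∈ 𝒟, ∑ D' ∈ 𝒟, tau D ^ k * tau D' ^ k *
    KK (2 * M / (D.lcm D' : ℕ)) ((D.lcm D' : ℕ) * (((l : ℝ) - l') * α)) with hQ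
  have hQsymm : ∀ l l', Q l l' = Q l' l := by
    intro l l'
    rw [hQ]
    simp only
    apply sum_congr rfl; intro D _
    apply sum_congr rfl; intro D' _
    rw [← KK_neg]
    congr 2
    ring
  have h2 : ∑ m ∈ Ioc M (2 * M), ‖S m‖ ^ 2 ≤
      ∑ l ∈ Ioc L (2 * L), ∑ l' ∈ Ioc L (2 * L), (‖v l‖ ^ 2 + ‖v l'‖ ^ 2) / 2 * Q l l' := by
    have h3 : (∑ m ∈ Ioc M (2 * M), ‖S m‖ ^ 2) = ‖((∑ m ∈ Ioc M (2 * M), ‖S m‖ ^ 2 : ℝ) : ℂ)‖ := by
      rw [Complex.norm_real, Real.norm_of_nonneg (by positivity)]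
    rw [h3, h1]
    refine (norm_sum_le _ _).trans (sum_le_sum fun l hl => ?_)
    refine (norm_sum_le _ _).trans (sum_le_sum fun l' hl' => ?_)
    rw [norm_mul, norm_mul, RCLike.norm_conj]
    apply mul_le_mul _ _ (norm_nonneg _) (by positivity)
    · nlinarith [sq_nonneg (‖v l‖ - ‖v l'‖)]
    · refine (norm_sum_le _ _).trans (sum_le_sum fun D hD => ?_)
      refine (norm_sum_le _ _).trans (sum_le_sum fun D' hD' => ?_)
      rw [norm_mul, Complex.norm_real, Real.norm_eq_abs, abs_mul]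
      have g1 := h.bd D hD
      have g2 := h.bd D' hD'
      have g3 := hK l hl l' hl' D hD D' hD'
      calc |C D| * |C D'| * _ ≤ 1 * 1 * _ := by
            apply mul_le_mul _ g3 (norm_nonneg _) (by norm_num)
            exact mul_le_mul g1 g2 (abs_nonneg _) (by norm_num)
        _ = _ := by ring
  refine h2.trans ?_
  have h4 : ∑ l ∈ Ioc L (2 * L), ∑ l' ∈ Ioc L (2 * L), (‖v l‖ ^ 2 + ‖v l'‖ ^ 2) / 2 * Q l l' =
      ∑ l ∈ Ioc L (2 * L), ‖v l‖ ^ 2 * ∑ l' ∈ Ioc L (2 * L), Q l l' := by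
    have e2 : ∀ l l' : ℕ, (‖v l‖ ^ 2 + ‖v l'‖ ^ 2) / 2 * Q l l' =
        1 / 2 * (‖v l‖ ^ 2 * Q l l') + 1 / 2 * (‖v l'‖ ^ 2 * Q l l') := by
      intro l l'; ring
    simp_rw [e2, sum_add_distrib]
    have e3 : ∑ l ∈ Ioc L (2 * L), ∑ l' ∈ Ioc L (2 * L), 1 / 2 * (‖v l'‖ ^ 2 * Q l l') =
        ∑ l ∈ Ioc L (2 * L), ∑ l' ∈ Ioc L (2 * L), 1 / 2 * (‖v l‖ ^ 2 * Q l l') := by
      rw [sum_comm]
      apply sum_congr rfl; intro l _
      apply sum_congr rfl; intro l' _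
      rw [hQsymm]
    rw [e3, ← sum_add_distrib]
    apply sum_congr rfl; intro l _
    rw [← sum_add_distrib, mul_sum]
    apply sum_congr rfl; intro l' _
    ring
  rw [h4, sum_mul]
  apply sum_le_sum
  intro l hl
  apply mul_le_mul_of_nonneg_left _ (by positivity)
  rw [mem_Ioc] at hl
  -- sum over `l'`
  have h5 : ∑ l' ∈ Ioc L (2 * L), Q l l' ≤
      ∑ e ∈ Icc 1 (W * W), tau e ^ (2 * k + 2) * ∑ l' ∈ Ioc L (2 * L), KK (2 * M / e) (e * (((l : ℝ) - l') * α)) := by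
    have e5 : ∑ l' ∈ Ioc L (2 * L), Q l l' = ∑ D ∈ 𝒟, ∑ D' ∈ 𝒟, tau D ^ k * tau D' ^ k *
        (fun e : ℕ => ∑ l' ∈ Ioc L (2 * L), KK (2 * M / e) (e * (((l : ℝ) - l') * α))) (D.lcm D') := by
      rw [hQ]
      simp only
      rw [sum_comm]
      apply sum_congr rfl; intro D _
      rw [sum_comm]
      apply sum_congr rfl; intro D' _
      rw [mul_sum]
    rw [e5]
    exact lcm_le 𝒟 W k h.sub (fun e : ℕ => ∑ l' ∈ Ioc L (2 * L), KK (2 * M / e) (e * (((l : ℝ) - l') * α)))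
      (fun e => sum_nonneg fun l' _ => KK_nonneg (by positivity) _)
  refine h5.trans ?_
  have h6 : ∀ e ∈ Icc 1 (W * W), ∑ l' ∈ Ioc L (2 * L), KK (2 * M / e) (e * (((l : ℝ) - l') * α)) ≤
      6 * M / e + 2 * ∑ r ∈ Icc 1 L, KK (2 * ((M * L : ℕ) : ℝ) / ((r * e : ℕ) : ℝ)) (((r * e : ℕ) : ℝ) * α) := by
    intro e he
    rw [mem_Icc] at he
    have he0 : (0 : ℝ) < e := by exact_mod_cast he.1
    have hterm : ∀ r ∈ Icc 1 L, KK (2 * M / e) (e * ((r : ℝ) * α)) ≤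
        KK (2 * ((M * L : ℕ) : ℝ) / ((r * e : ℕ) : ℝ)) (((r * e : ℕ) : ℝ) * α) := by
      intro r hr
      rw [mem_Icc] at hr
      have hr0 : (0 : ℝ) < r := by exact_mod_cast hr.1
      have hrL : (r : ℝ) ≤ L := by exact_mod_cast hr.2
      have e6 : (e : ℝ) * ((r : ℝ) * α) = ((r * e : ℕ) : ℝ) * α := by push_cast; ring
      rw [e6]
      apply KK_mono (by positivity)
      push_cast
      rw [div_le_div_iff₀ he0 (by positivity)]
      have : 0 ≤ (M : ℝ) * e := by positivity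
      nlinarith
    have hsplit : Ioc L (2 * L) = insert l ((Ioc L (2 * L)).filter (fun l' => l < l') ∪ (Ioc L (2 * L)).filter (fun l' => l' < l)) := by
      ext x
      simp only [mem_insert, mem_union, mem_filter, mem_Ioc]
      omega
    have hnn : ∀ x : ℕ, 0 ≤ KK (2 * M / e) (e * (((l : ℝ) - x) * α)) := fun x => KK_nonneg (by positivity) _
    have hA : ∑ l' ∈ (Ioc L (2 * L)).filter (fun l' => l < l'), KK (2 * M / e) (e * (((l : ℝ) - l') * α)) ≤
        ∑ r ∈ Icc 1 L, KK (2 * M / e) (e * ((r : ℝ) * α)) := by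
      have e7 : (Ioc L (2 * L)).filter (fun l' => l < l') = (Icc 1 (2 * L - l)).image (fun r => l + r) := by
        ext x
        rw [mem_filter, mem_Ioc, mem_image]
        constructor
        · rintro ⟨g1, g2⟩
          exact ⟨x - l, by rw [mem_Icc]; omega, by omega⟩
        · rintro ⟨r, hr, rfl⟩
          rw [mem_Icc] at hr
          omega
      rw [e7, sum_image (by intro x _ y _ h; simpa using h)]
      calc ∑ r ∈ Icc 1 (2 * L - l), KK (2 * M / e) (e * (((l : ℝ) - ((l + r : ℕ) : ℝ)) * α)) =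
            ∑ r ∈ Icc 1 (2 * L - l), KK (2 * M / e) (e * ((r : ℝ) * α)) := by
            apply sum_congr rfl; intro r _
            rw [← KK_neg]
            congr 1
            push_cast; ring
        _ ≤ _ := by
            apply sum_le_sum_of_subset_of_nonneg
            · intro r hr; rw [mem_Icc] at hr ⊢; omega
            · intro r _ _; exact KK_nonneg (by positivity) _
    have hB : ∑ l' ∈ (Ioc L (2 * L)).filter (fun l' => l' < l), KK (2 * M / e) (e * (((l : ℝ) - l') * α)) ≤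
        ∑ r ∈ Icc 1 L, KK (2 * M / e) (e * ((r : ℝ) * α)) := by
      have e7 : (Ioc L (2 * L)).filter (fun l' => l' < l) = (Icc 1 (l - 1 - L)).image (fun r => l - r) := by
        ext x
        rw [mem_filter, mem_Ioc, mem_image]
        constructor
        · rintro ⟨g1, g2⟩
          exact ⟨l - x, by rw [mem_Icc]; omega, by omega⟩
        · rintro ⟨r, hr, rfl⟩
          rw [mem_Icc] at hr
          omega
      rw [e7, sum_image (by
        intro x hx y hy h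
        rw [mem_coe, mem_Icc] at hx hy
        simp only at h
        omega)]
      calc ∑ r ∈ Icc 1 (l - 1 - L), KK (2 * M / e) (e * (((l : ℝ) - ((l - r : ℕ) : ℝ)) * α)) =
            ∑ r ∈ Icc 1 (l - 1 - L), KK (2 * M / e) (e * ((r : ℝ) * α)) := by
            apply sum_congr rfl; intro r hr
            rw [mem_Icc] at hr
            congr 1
            rw [Nat.cast_sub (by omega)]; ring
        _ ≤ _ := by
            apply sum_le_sum_of_subset_of_nonneg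
            · intro r hr; rw [mem_Icc] at hr ⊢; omega
            · intro r _ _; exact KK_nonneg (by positivity) _
    have hz : KK (2 * M / e) (e * (((l : ℝ) - l) * α)) ≤ 6 * M / e := by
      have := KK_le (show (0 : ℝ) ≤ 2 * M / e by positivity) (e * (((l : ℝ) - l) * α))
      calc _ ≤ 3 * (2 * (M : ℝ) / e) := this
        _ = _ := by ring
    have hR := sum_le_sum hterm
    rw [hsplit]
    calc _ ≤ KK (2 * M / e) (e * (((l : ℝ) - l) * α)) +
          ∑ l' ∈ (Ioc L (2 * L)).filter (fun l' => l < l') ∪ (Ioc L (2 * L)).filter (fun l' => l' < l),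
            KK (2 * M / e) (e * (((l : ℝ) - l') * α)) := by
          rw [sum_insert]
          simp only [mem_union, mem_filter]
          omega
      _ ≤ KK (2 * M / e) (e * (((l : ℝ) - l) * α)) +
          (∑ l' ∈ (Ioc L (2 * L)).filter (fun l' => l < l'), KK (2 * M / e) (e * (((l : ℝ) - l') * α)) +
           ∑ l' ∈ (Ioc L (2 * L)).filter (fun l' => l' < l), KK (2 * M / e) (e * (((l : ℝ) - l') * α))) := by
          apply add_le_add le_rfl
          rw [sum_union]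
          rw [disjoint_left]
          intro x hx hx'
          rw [mem_filter] at hx hx'
          omega
      _ ≤ _ := by linarith
  calc ∑ e ∈ Icc 1 (W * W), tau e ^ (2 * k + 2) * ∑ l' ∈ Ioc L (2 * L), KK (2 * M / e) (e * (((l : ℝ) - l') * α)) ≤
        ∑ e ∈ Icc 1 (W * W), tau e ^ (2 * k + 2) * (6 * M / e +
          2 * ∑ r ∈ Icc 1 L, KK (2 * ((M * L : ℕ) : ℝ) / ((r * e : ℕ) : ℝ)) (((r * e : ℕ) : ℝ) * α)) := by
        apply sum_le_sum; intro e he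
        exact mul_le_mul_of_nonneg_left (h6 e he) (pow_nonneg (tau_nonneg _) _)
    _ = 6 * M * ∑ e ∈ Icc 1 (W * W), tau e ^ (2 * k + 2) / e +
        2 * ∑ r ∈ Icc 1 L, ∑ e ∈ Icc 1 (W * W), tau e ^ (2 * k + 2) *
          KK (2 * ((M * L : ℕ) : ℝ) / ((r * e : ℕ) : ℝ)) (((r * e : ℕ) : ℝ) * α) := by
        rw [sum_comm (s := Icc 1 L), mul_sum, mul_sum, ← sum_add_distrib]
        apply sum_congr rfl; intro e _
        rw [mul_add]
        congr 1
        · ring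
        · rw [← mul_sum]; ring
    _ ≤ 6 * M * (1 + Real.log ((W * W : ℕ) : ℝ)) ^ (2 ^ (2 * k + 2)) + 2 * S1 (2 * k + 3) (M * L) (L * (W * W)) α := by
        apply add_le_add
        · exact mul_le_mul_of_nonneg_left (tau_moment _ _) (by positivity)
        · apply mul_le_mul_of_nonneg_left _ (by norm_num)
          exact typeI_tot (W * W) L (M * L) (Icc 1 (W * W)) subset_rfl (2 * k + 2) α

end Pool.Agent.H76.TB
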