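import Mathlib
import Pool.Agent.H76.TB.A3

/-! Minor arcs: primes twisted by divisor sums of a product of linear forms. -/

set_option autoImplicit false

open Finset

namespace Pool.Agent.H76.TB

open Pool.Agent.H807R2.Dav (ee KK dd KK_nonneg KK_le KK_neg geo_bound norm_ee ee_add)
open Pool.Agent.H373R2.T7 (typeI_lin KK_mono cs_norm ee_conj' vaughan_gen ev_log' ev_L' ev_root)

variable {k : ℕ}

lemma block_W (a : Fin k → ℤ) {b : Fin k → ℤ} {W : ℕ} {𝒟 : Finset ℕ} {C : ℕ → ℝ} (h : Adm b W 𝒟 C) (α : ℝ)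
    (N N' U : ℕ) (hN : 1 ≤ N) (hNN' : N ≤ N') (hN' : N' ≤ 2 * N) (hU : 1 ≤ U) (hUN : U * U ≤ N)
    (hUW : U * U * W ≤ N) (hWU : 2 * (W * W) ≤ U) (Lw T1 T2 R : ℝ) (hR : 0 ≤ R)
    (hLw : (1 + Real.log ((W * W : ℕ) : ℝ)) ^ (2 ^ (2 * k + 2)) ≤ Lw) (hLw0 : 0 ≤ Lw) (hT20 : 0 ≤ T2)
    (hT1 : S1 (k + 1) (2 * N) (U * U * W) α ≤ T1)
    (hT2 : ∀ M L : ℕ, 1 ≤ M → 1 ≤ L → U < 2 * M → U < 2 * L → M * L ≤ N' → S1 (2 * k + 3) (M * L) (L * (W * W)) α ≤ T2)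
    (hR2 : 2 * N * (24 * (N / U) * Lw + 2 * T2) ≤ R ^ 2) :
    ‖∑ n ∈ Ioc N N', ((ArithmeticFunction.vonMangoldt n : ℝ) : ℂ) * (((WW a b 𝒟 C n : ℝ) : ℂ) * ee ((n : ℝ) * α))‖ ≤
      8 * (1 + Real.log (4 * N)) ^ 5 * R + 3 * (1 + Real.log (4 * N)) * T1 := by
  have hN0 : (1 : ℝ) ≤ N := by exact_mod_cast hN
  have hU0 : (0 : ℝ) < U := by exact_mod_cast hU
  have hlog4N : 0 ≤ Real.log (4 * (N : ℝ)) := Real.log_nonneg (by linarith)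
  have key := vaughan_gen (fun n => ((WW a b 𝒟 C n : ℝ) : ℂ) * ee ((n : ℝ) * α)) N N' U hN hNN' hN' hU hUN
    (fun m => ∑ D ∈ 𝒟, tau D ^ k * KK (2 * ((2 * N : ℕ) : ℝ) / ((m * D : ℕ) : ℝ)) (((m * D : ℕ) : ℝ) * α)) R
    hR (fun m => sum_nonneg fun D _ => mul_nonneg (pow_nonneg (tau_nonneg _) _) (KK_nonneg (by positivity) _)) (by
      intro m hm b' hb'
      rw [mem_Icc] at hm
      exact typeI_W a h N N' m b' hm.1 hN' ((Nat.mul_le_mul_right _ hm.2).trans hUW) hb' α) (by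
      intro u v A₂ B₂ hA0 hB0 M L hM hL hM2 hL2 hML hA hB
      have h1 := typeII_W a h N N' M L (by omega) u v α
      refine h1.trans ?_
      have hM0 : (0 : ℝ) < M := by exact_mod_cast hM
      have hL0 : (0 : ℝ) < L := by exact_mod_cast hL
      have hMLr : (M : ℝ) * L ≤ 2 * N := by exact_mod_cast hML.trans hN'
      have hM4 : (M : ℝ) ≤ 4 * (N / U) := by
        rw [mul_div_assoc', le_div_iff₀ hU0]
        have : (U : ℝ) ≤ 2 * L := by exact_mod_cast hL2.le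
        nlinarith
      have hS := hT2 M L hM hL hM2 hL2 hML
      have hS0 := S1_nonneg (2 * k + 3) (M * L) (L * (W * W)) α
      have hlw0 : 0 ≤ (1 + Real.log ((W * W : ℕ) : ℝ)) ^ (2 ^ (2 * k + 2)) := by
        have : 0 ≤ Real.log ((W * W : ℕ) : ℝ) := Real.log_natCast_nonneg _
        positivity
      calc (∑ m ∈ Ioc M (2 * M), ‖u m‖ ^ 2) * ((∑ l ∈ Ioc L (2 * L), ‖v l‖ ^ 2) *
            (6 * M * (1 + Real.log ((W * W : ℕ) : ℝ)) ^ (2 ^ (2 * k + 2)) + 2 * S1 (2 * k + 3) (M * L) (L * (W * W)) α))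
          ≤ (A₂ * M) * ((B₂ * L) * (6 * M * Lw + 2 * T2)) := by
            gcongr
        _ = A₂ * B₂ * ((M * L) * (6 * M * Lw + 2 * T2)) := by ring
        _ ≤ A₂ * B₂ * ((2 * N) * (6 * (4 * (N / U)) * Lw + 2 * T2)) := by
            gcongr
        _ = A₂ * B₂ * (2 * N * (24 * (N / U) * Lw + 2 * T2)) := by ring
        _ ≤ A₂ * B₂ * R ^ 2 := mul_le_mul_of_nonneg_left hR2 (by positivity))
  refine key.trans ?_
  apply add_le_add le_rfl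
  apply mul_le_mul_of_nonneg_left _ (by positivity)
  exact (typeI_tot W (U * U) (2 * N) 𝒟 h.sub k α).trans hT1

/-- the fourth root beats the square of `W` and powers of the logarithm -/
lemma ev_V (B : ℕ) (c : ℝ) (hc : 1 ≤ c) : ∃ x0 : ℕ, ∀ N : ℕ, x0 ≤ N → ∀ W : ℕ, 1 ≤ W → W ^ 16 ≤ N →
    (W : ℝ) ^ 2 * (c * Real.log N ^ B) ≤ (Nat.sqrt (Nat.sqrt N) : ℝ) := by
  obtain ⟨x0, h0⟩ := ev_log' (8 * B) ((2 * c) ^ 8)
  obtain ⟨x1, h1⟩ := ev_L' 1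
  refine ⟨max x0 x1, fun N hN W hW hWN => ?_⟩
  have hA := h0 N (le_trans (le_max_left _ _) hN)
  have hL := h1 N (le_trans (le_max_right _ _) hN)
  set ℓ := Real.log N with hℓ
  have hWr : (1 : ℝ) ≤ W := by exact_mod_cast hW
  have hN1 : (1 : ℝ) ≤ N := by
    have : 1 ≤ N := le_trans (Nat.one_le_pow _ _ hW) hWN
    exact_mod_cast this
  set V := Nat.sqrt (Nat.sqrt N) with hV
  have h2 : Nat.sqrt N < (V + 1) * (V + 1) := Nat.lt_succ_sqrt _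
  have h3 : N < (Nat.sqrt N + 1) * (Nat.sqrt N + 1) := Nat.lt_succ_sqrt N
  have h4 : N < ((V + 1) * (V + 1)) * ((V + 1) * (V + 1)) :=
    lt_of_lt_of_le h3 (Nat.mul_le_mul (by omega) (by omega))
  have h5 : (N : ℝ) ≤ ((V : ℝ) + 1) ^ 4 := by
    have : (N : ℝ) ≤ ((((V + 1) * (V + 1)) * ((V + 1) * (V + 1)) : ℕ) : ℝ) := by exact_mod_cast h4.le
    push_cast at this
    calc (N : ℝ) ≤ _ := this
      _ = _ := by ring
  have h6 : √(N : ℝ) ≤ N := by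
    rw [Real.sqrt_le_left (by positivity)]
    nlinarith
  have hW16 : (W : ℝ) ^ 16 ≤ N := by exact_mod_cast hWN
  have h7 : ((W : ℝ) ^ 2 * (2 * c * ℓ ^ B)) ^ 8 ≤ ((V : ℝ) + 1) ^ 8 := by
    calc ((W : ℝ) ^ 2 * (2 * c * ℓ ^ B)) ^ 8 = (W : ℝ) ^ 16 * ((2 * c) ^ 8 * ℓ ^ (8 * B)) := by
          rw [show 8 * B = B * 8 by ring, pow_mul]; ring
      _ ≤ (N : ℝ) * N := mul_le_mul hW16 (hA.trans h6) (by positivity) (by positivity)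
      _ ≤ ((V : ℝ) + 1) ^ 4 * ((V : ℝ) + 1) ^ 4 := mul_le_mul h5 h5 (by positivity) (by positivity)
      _ = _ := by ring
  have h8 : (W : ℝ) ^ 2 * (2 * c * ℓ ^ B) ≤ (V : ℝ) + 1 := le_of_pow_le_pow_left₀ (by norm_num) (by positivity) h7
  have h9 : 1 ≤ ℓ ^ B := one_le_pow₀ hL
  have h10 : 1 ≤ c * ℓ ^ B := by nlinarith
  have h11 : 1 ≤ (W : ℝ) ^ 2 * (c * ℓ ^ B) := by
    have : 1 ≤ (W : ℝ) ^ 2 := one_le_pow₀ hWr
    nlinarith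
  have e : (W : ℝ) ^ 2 * (2 * c * ℓ ^ B) = 2 * ((W : ℝ) ^ 2 * (c * ℓ ^ B)) := by ring
  rw [e] at h8
  linarith

lemma natlog_le' (V : ℕ) : (Nat.log 2 V : ℝ) ≤ 2 * Real.log V := by
  rcases Nat.eq_zero_or_pos V with h | h
  · subst h; simp
  · have h4 : (2 : ℝ) ^ Nat.log 2 V ≤ V := by exact_mod_cast Nat.pow_log_le_self 2 (by omega : V ≠ 0)
    have h6 := Real.log_le_log (by positivity) h4
    rw [Real.log_pow] at h6
    have := Real.log_two_gt_d9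
    have h7 : (0 : ℝ) ≤ Nat.log 2 V := Nat.cast_nonneg _
    nlinarith

/-- a bound for `S1` in terms of a single parameter -/
lemma S1_est (κ P V : ℕ) (hP : 1 ≤ P) (hV : 1 ≤ V) {q : ℕ} (hq : 1 ≤ q) {c : ℤ} (hcop : IsCoprime c (q : ℤ)) {α : ℝ}
    (hα : |α - c / q| ≤ 1 / (q : ℝ) ^ 2) (N ℓ G : ℝ) (hℓ : 1 ≤ ℓ) (hPN : (P : ℝ) ≤ 2 * N) (hG : 0 ≤ G)
    (hVl : Real.log V ≤ ℓ) (hql : Real.log q ≤ ℓ) (h1 : (P : ℝ) / q ≤ 2 * G) (h2 : (V : ℝ) ≤ 4 * G) (h3 : (q : ℝ) ≤ G) :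
    S1 κ P V α ≤ Real.sqrt (302400 * 2 ^ (2 ^ (2 * κ)) * (N * G * ℓ ^ (2 ^ (2 * κ) + 2))) := by
  refine (S1_le κ P V hP hV hq hcop hα).trans (Real.sqrt_le_sqrt ?_)
  have hV0 : 0 ≤ Real.log V := Real.log_natCast_nonneg _
  have hq0 : 0 ≤ Real.log q := Real.log_natCast_nonneg _
  have hN0 : 0 ≤ N := by
    have : (0 : ℝ) ≤ P := Nat.cast_nonneg _
    linarith
  have h4 := natlog_le' V
  have h5 : (Nat.log 2 V + 1 : ℝ) ≤ 3 * ℓ := by linarith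
  have h6 : 1 + Real.log V ≤ 2 * ℓ := by linarith
  have h7 : 1 + Real.log q ≤ 2 * ℓ := by linarith
  have hPq : 0 ≤ (P : ℝ) / q := by positivity
  calc (6 * (P : ℝ) * (1 + Real.log V) ^ (2 ^ (2 * κ))) *
      (600 * (Nat.log 2 V + 1 : ℝ) * ((P : ℝ) / q + V + q) * (1 + Real.log q)) ≤
      (6 * (2 * N) * (2 * ℓ) ^ (2 ^ (2 * κ))) * (600 * (3 * ℓ) * (2 * G + 4 * G + G) * (2 * ℓ)) := by
        gcongr
    _ = 302400 * 2 ^ (2 ^ (2 * κ)) * (N * G * ℓ ^ (2 ^ (2 * κ) + 2)) := by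
        rw [mul_pow, pow_add]; ring

end Pool.Agent.H76.TB
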