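import Mathlib
import Pool.Agent.H76.TB.A4

/-! Minor arcs: the theorem. -/

set_option autoImplicit false

open Finset

namespace Pool.Agent.H76.TB

open Pool.Agent.H807R2.Dav (ee KK dd KK_nonneg KK_le KK_neg geo_bound norm_ee ee_add)
open Pool.Agent.H373R2.T7 (typeI_lin KK_mono cs_norm ee_conj' vaughan_gen ev_log' ev_L' ev_root)

lemma WW_abs {k : ℕ} (a : Fin k → ℤ) {b : Fin k → ℤ} {W : ℕ} {𝒟 : Finset ℕ} {C : ℕ → ℝ} (h : Adm b W 𝒟 C) (n : ℕ) :
    |WW a b 𝒟 C n| ≤ W := by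
  unfold WW
  calc |∑ D ∈ 𝒟, if (D : ℤ) ∣ Fv a b (n : ℤ) then C D else 0| ≤ ∑ _D ∈ 𝒟, (1 : ℝ) := by
        refine (abs_sum_le_sum_abs _ _).trans (sum_le_sum fun D hD => ?_)
        split_ifs
        · exact h.bd D hD
        · simp
    _ = 𝒟.card := by simp
    _ ≤ W := by
        have := card_le_card h.sub
        rw [Nat.card_Icc, Nat.add_sub_cancel] at this
        exact_mod_cast this

/-- minor arcs -/
theorem minor_W (k U : ℕ) : ∃ B N0 : ℕ, ∀ N : ℕ, N0 ≤ N → ∀ (a b : Fin k → ℤ) (W : ℕ) (𝒟 : Finset ℕ) (C : ℕ → ℝ),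
    1 ≤ W → W ^ 16 ≤ N → Adm b W 𝒟 C →
    ∀ q : ℕ, Real.log N ^ B ≤ q → (q : ℝ) ≤ N / Real.log N ^ B →
    ∀ c : ℤ, IsCoprime c (q : ℤ) → ∀ α : ℝ, |α - c / q| ≤ 1 / (q : ℝ) ^ 2 →
    ‖∑ n ∈ Icc 1 N, ((ArithmeticFunction.vonMangoldt n : ℝ) : ℂ) * (((WW a b 𝒟 C n : ℝ) : ℂ) * ee ((n : ℝ) * α))‖ ≤
      N / Real.log N ^ U := by
  set c1 : ℕ := 2 ^ (2 * k + 2) with hc1
  set e2 : ℕ := 2 ^ (2 * (2 * k + 3)) with he2
  set C2 : ℝ := 302400 * 2 ^ e2 with hC2
  set T : ℕ := 2 * U + 17 with hT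
  set B : ℕ := e2 + 2 + 2 * T with hB
  set B' : ℕ := B + c1 + 2 * U + 20 with hB'
  have hC20 : 0 < C2 := by positivity
  have hc1pos : 0 < c1 := by positivity
  have he2pos : 0 < e2 := by positivity
  have he12 : 2 ^ (2 * (k + 1)) ≤ e2 := Nat.pow_le_pow_right (by norm_num) (by omega)
  obtain ⟨n1, h1⟩ := ev_V B' (96 * 2 ^ c1 + 6) (by have : (0 : ℝ) < 2 ^ c1 := by positivity
                                                   linarith)
  obtain ⟨n2, h2⟩ := ev_L' (1000 + 12 * Real.sqrt C2)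
  refine ⟨B, max (max n1 n2) 16, fun N hN a b W 𝒟 C hW hWN hAdm q hq1 hq2 c hcop α hα => ?_⟩
  have hNn1 : n1 ≤ N := le_trans (le_trans (le_max_left _ _) (le_max_left _ _)) hN
  have hNn2 : n2 ≤ N := le_trans (le_trans (le_max_right _ _) (le_max_left _ _)) hN
  have hN16 : 16 ≤ N := le_trans (le_max_right _ _) hN
  have hNr : (16 : ℝ) ≤ N := by exact_mod_cast hN16
  have hN0 : (0 : ℝ) < N := by linarith
  have hsC : 0 ≤ Real.sqrt C2 := Real.sqrt_nonneg _
  set ℓ := Real.log N with hℓ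
  have hℓC : 1000 + 12 * Real.sqrt C2 ≤ ℓ := h2 N hNn2
  have hℓ1 : 1000 ≤ ℓ := by linarith
  have hℓ0 : 0 < ℓ := by linarith
  have hV1 := h1 N hNn1 W hW hWN
  rw [← hℓ] at hV1
  set V := Nat.sqrt (Nat.sqrt N) with hV
  have hWr : (1 : ℝ) ≤ W := by exact_mod_cast hW
  have hW2 : (1 : ℝ) ≤ (W : ℝ) ^ 2 := one_le_pow₀ hWr
  have hWW2 : (W : ℝ) ≤ (W : ℝ) ^ 2 := by nlinarith
  have h2c : (0 : ℝ) < 2 ^ c1 := by positivity
  have hpow : ∀ j, j ≤ B' → ℓ ^ j ≤ ℓ ^ B' := fun j hj => pow_le_pow_right₀ (by linarith) hj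
  have hℓB : 1 ≤ ℓ ^ B := one_le_pow₀ (by linarith)
  have hℓB' : 1 ≤ ℓ ^ B' := one_le_pow₀ (by linarith)
  have hbig : (W : ℝ) ^ 2 * ℓ ^ B' ≤ V := by
    refine le_trans ?_ hV1
    apply mul_le_mul_of_nonneg_left _ (by positivity)
    nlinarith
  have hV0 : (1 : ℝ) ≤ V := by nlinarith
  have hVpos : (0 : ℝ) < V := by linarith
  have hVn : 1 ≤ V := by exact_mod_cast hV0
  -- consequences
  have v1 : (W : ℝ) ^ 2 * ℓ ^ B ≤ V :=
    le_trans (mul_le_mul_of_nonneg_left (hpow B (by omega)) (by positivity)) hbig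
  have v2 : 96 * 2 ^ c1 * ℓ ^ (c1 + 2 * U + 16) ≤ (V : ℝ) := by
    refine le_trans ?_ hV1
    have g1 := hpow (c1 + 2 * U + 16) (by omega)
    have g2 : (0 : ℝ) < ℓ ^ (c1 + 2 * U + 16) := by positivity
    calc 96 * 2 ^ c1 * ℓ ^ (c1 + 2 * U + 16) ≤ (96 * 2 ^ c1 + 6) * ℓ ^ B' := by
          apply mul_le_mul (by linarith) g1 g2.le (by positivity)
      _ = 1 * ((96 * 2 ^ c1 + 6) * ℓ ^ B') := by ring
      _ ≤ _ := mul_le_mul_of_nonneg_right hW2 (by positivity)
  have v3 : 6 * (W : ℝ) * ℓ ^ (U + 1) ≤ V := by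
    refine le_trans ?_ hV1
    have g1 := hpow (U + 1) (by omega)
    have g2 : (0 : ℝ) < ℓ ^ (U + 1) := by positivity
    calc 6 * (W : ℝ) * ℓ ^ (U + 1) = W * (6 * ℓ ^ (U + 1)) := by ring
      _ ≤ (W : ℝ) ^ 2 * ((96 * 2 ^ c1 + 6) * ℓ ^ B') := by
          apply mul_le_mul hWW2 _ (by positivity) (by positivity)
          apply mul_le_mul (by linarith) g1 g2.le (by positivity)
  have v4 : 2 * (W : ℝ) ^ 2 ≤ V := by
    refine le_trans ?_ v1
    have : (2 : ℝ) ≤ ℓ ^ B := by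
      have : ℓ ^ 1 ≤ ℓ ^ B := pow_le_pow_right₀ (by linarith) (by omega)
      rw [pow_one] at this
      linarith
    nlinarith
  have v4n : 2 * (W * W) ≤ V := by
    have : ((2 * (W * W) : ℕ) : ℝ) ≤ (V : ℝ) := by push_cast; nlinarith
    exact_mod_cast this
  have hWV : W ≤ V := by
    have : W ≤ W * W := Nat.le_mul_of_pos_left _ hW
    omega
  have hVB : ℓ ^ B ≤ V := by nlinarith
  have hVV : V * V ≤ Nat.sqrt N := Nat.sqrt_le _
  have hSN : Nat.sqrt N * Nat.sqrt N ≤ N := Nat.sqrt_le _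
  have hV4 : (V * V) * (V * V) ≤ N := (Nat.mul_le_mul hVV hVV).trans hSN
  have hV4r : (V : ℝ) ^ 4 ≤ N := by
    have : (((V * V) * (V * V) : ℕ) : ℝ) ≤ N := by exact_mod_cast hV4
    push_cast at this
    calc (V : ℝ) ^ 4 = _ := by ring
      _ ≤ _ := this
  have hq0 : (0 : ℝ) < q := by linarith
  have hqn : 1 ≤ q := by exact_mod_cast hq0
  have hqr : (1 : ℝ) ≤ q := by exact_mod_cast hqn
  have hqN : (q : ℝ) ≤ N := hq2.trans (div_le_self hN0.le hℓB)
  have hlq : Real.log q ≤ ℓ := Real.log_le_log hq0 hqN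
  have hlq0 : 0 ≤ Real.log q := Real.log_nonneg hqr
  set G : ℝ := N / ℓ ^ B with hG
  have hG0 : 0 ≤ G := by positivity
  set TT : ℝ := Real.sqrt C2 * (N / ℓ ^ T) with hTT
  have hTT0 : 0 ≤ TT := by positivity
  have hS1 : ∀ κ P V' : ℕ, 2 ^ (2 * κ) ≤ e2 → 1 ≤ P → 1 ≤ V' → (P : ℝ) ≤ 2 * N → Real.log V' ≤ ℓ →
      (P : ℝ) / q ≤ 2 * G → (V' : ℝ) ≤ 4 * G → S1 κ P V' α ≤ TT := by
    intro κ P V' hκ hP hV' hPN hVl hPq hV4
    refine (S1_est κ P V' hP hV' hqn hcop hα N ℓ G (by linarith) hPN hG0 hVl hlq hPq hV4 hq2).trans ?_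
    rw [hTT]
    have e3 : Real.sqrt C2 * (N / ℓ ^ T) = Real.sqrt (C2 * (N / ℓ ^ T) ^ 2) := by
      rw [Real.sqrt_mul hC20.le, Real.sqrt_sq (by positivity)]
    rw [e3]
    apply Real.sqrt_le_sqrt
    have e4 : (N / ℓ ^ T) ^ 2 = N * G * ℓ ^ (e2 + 2) := by
      rw [hG, hB, pow_add ℓ (e2 + 2) (2 * T), div_pow, ← pow_mul]
      field_simp
      ring_nf
    rw [e4]
    have g1 : (2 : ℝ) ^ (2 ^ (2 * κ)) ≤ 2 ^ e2 := pow_le_pow_right₀ (by norm_num) hκ
    have g2 : ℓ ^ (2 ^ (2 * κ) + 2) ≤ ℓ ^ (e2 + 2) := pow_le_pow_right₀ (by linarith) (by omega)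
    rw [hC2]
    apply mul_le_mul
    · exact mul_le_mul_of_nonneg_left g1 (by norm_num)
    · exact mul_le_mul_of_nonneg_left g2 (by positivity)
    · positivity
    · positivity
  -- the sequence of endpoints
  obtain ⟨y, hy0, hy1⟩ : ∃ y : ℕ → ℕ, y 0 = N ∧ ∀ i, y (i + 1) = (y i + 1) / 2 :=
    ⟨fun i => Nat.rec N (fun _ z => (z + 1) / 2) i, rfl, fun i => rfl⟩
  have hylow : ∀ i, (N : ℝ) / 2 ^ i ≤ y i := by
    intro i
    induction i with
    | zero => rw [hy0]; simp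
    | succ i ih =>
      rw [hy1]
      have h3 : y i ≤ 2 * ((y i + 1) / 2) := by omega
      have h4 : (y i : ℝ) ≤ 2 * (((y i + 1) / 2 : ℕ) : ℝ) := by exact_mod_cast h3
      rw [pow_succ]
      have h5 : (N : ℝ) / (2 ^ i * 2) = (N / 2 ^ i) / 2 := by rw [div_div]
      rw [h5]; linarith
  have hyup : ∀ i, (y i : ℝ) ≤ (N : ℝ) / 2 ^ i + 1 := by
    intro i
    induction i with
    | zero => rw [hy0]; simp
    | succ i ih =>
      rw [hy1]
      have h3 : 2 * ((y i + 1) / 2) ≤ y i + 1 := by omega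
      have h4 : 2 * (((y i + 1) / 2 : ℕ) : ℝ) ≤ y i + 1 := by exact_mod_cast h3
      rw [pow_succ]
      have h5 : (N : ℝ) / (2 ^ i * 2) = (N / 2 ^ i) / 2 := by rw [div_div]
      rw [h5]; linarith
  have hyle : ∀ i, y i ≤ N := by
    intro i
    induction i with
    | zero => rw [hy0]
    | succ i ih => rw [hy1]; omega
  set I := Nat.log 2 V with hI
  have hI1 : 2 ^ I ≤ V := Nat.pow_log_le_self 2 (by omega)
  have hI2 : V < 2 ^ (I + 1) := Nat.lt_pow_succ_log_self (by norm_num) _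
  have hIr : (V : ℝ) ≤ 2 * 2 ^ I := by
    have : V ≤ 2 * 2 ^ I := by rw [pow_succ] at hI2; omega
    exact_mod_cast this
  have hyV : ∀ i, i ≤ I → V * V * V ≤ y i := by
    intro i hi
    have h3 : (2 : ℕ) ^ i ≤ V := (Nat.pow_le_pow_right (by norm_num) hi).trans hI1
    have h3r : ((2 : ℝ) ^ i) ≤ V := by exact_mod_cast h3
    have h4 : ((V * V * V : ℕ) : ℝ) ≤ (N : ℝ) / 2 ^ i := by
      rw [le_div_iff₀ (by positivity)]
      calc ((V * V * V : ℕ) : ℝ) * 2 ^ i ≤ ((V * V * V : ℕ) : ℝ) * V := mul_le_mul_of_nonneg_left h3r (Nat.cast_nonneg _)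
        _ = (V : ℝ) ^ 4 := by push_cast; ring
        _ ≤ N := hV4r
    have h5 := h4.trans (hylow i)
    exact_mod_cast h5
  set E : ℕ → ℂ := fun n => ((ArithmeticFunction.vonMangoldt n : ℝ) : ℂ) * (((WW a b 𝒟 C n : ℝ) : ℂ) * ee ((n : ℝ) * α)) with hE
  have hlog4 : Real.log 4 ≤ 2 := by
    have h1 : Real.log 4 = 2 * Real.log 2 := by
      rw [show (4 : ℝ) = 2 ^ 2 by norm_num, Real.log_pow]; push_cast; ring
    have := Real.log_two_lt_d9
    linarith
  have hblock : ∀ i, i < I → ‖∑ n ∈ Ioc (y (i + 1)) (y i), E n‖ ≤ N / ℓ ^ (U + 2) := by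
    intro i hi
    have hyi := hyV (i + 1) (by omega)
    have hVV1 : 1 ≤ V * V := Nat.mul_pos hVn hVn
    have hVV2 : V * V ≤ V * V * V := Nat.le_mul_of_pos_right _ hVn
    have hVVW : V * V * W ≤ V * V * V := Nat.mul_le_mul_left _ hWV
    set P : ℕ := y (i + 1) with hPd
    have hP1n : 1 ≤ P := by omega
    have hP1 : (1 : ℝ) ≤ P := by exact_mod_cast hP1n
    have hPNn : P ≤ N := hyle (i + 1)
    have hPN : (P : ℝ) ≤ N := by exact_mod_cast hPNn
    have hyiN : (y i : ℝ) ≤ N := by exact_mod_cast hyle i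
    have hNq : (N : ℝ) / q ≤ G := div_le_div_of_nonneg_left hN0.le (by positivity) hq1
    have hLw : (1 + Real.log ((W * W : ℕ) : ℝ)) ^ (2 ^ (2 * k + 2)) ≤ (2 * ℓ) ^ c1 := by
      apply pow_le_pow_left₀
      · have : 0 ≤ Real.log ((W * W : ℕ) : ℝ) := Real.log_natCast_nonneg _
        linarith
      · have : Real.log ((W * W : ℕ) : ℝ) ≤ ℓ := by
          apply Real.log_le_log
          · push_cast; positivity
          · have g1 : W * W ≤ V := by omega
            have g2 : V ≤ N := by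
              have : V ≤ (V * V) * (V * V) := by
                calc V ≤ V * V := Nat.le_mul_of_pos_left _ hVn
                  _ ≤ _ := Nat.le_mul_of_pos_left _ hVV1
              omega
            exact_mod_cast g1.trans g2
        linarith
    have hT1 : S1 (k + 1) (2 * P) (V * V * W) α ≤ TT := by
      apply hS1 (k + 1) (2 * P) (V * V * W) he12 (by omega) (Nat.mul_pos (Nat.mul_pos hVn hVn) hW)
      · push_cast; linarith
      · apply Real.log_le_log
        · push_cast; positivity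
        · have : V * V * W ≤ N := by omega
          exact_mod_cast this
      · push_cast
        have : 2 * (P : ℝ) / q = 2 * (P / q) := by ring
        rw [this]
        have g1 : (P : ℝ) / q ≤ N / q := div_le_div_of_nonneg_right hPN hq0.le
        linarith
      · have g1 : ((V * V * W : ℕ) : ℝ) ≤ G := by
          rw [hG, le_div_iff₀ (by positivity)]
          calc ((V * V * W : ℕ) : ℝ) * ℓ ^ B = (V : ℝ) ^ 2 * (W * ℓ ^ B) := by push_cast; ring
            _ ≤ (V : ℝ) ^ 2 * ((W : ℝ) ^ 2 * ℓ ^ B) := by gcongr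
            _ ≤ (V : ℝ) ^ 2 * V := by gcongr
            _ ≤ (V : ℝ) ^ 4 := by nlinarith [sq_nonneg (V : ℝ), hV0, pow_pos hVpos 3]
            _ ≤ N := hV4r
        linarith
    have hT2 : ∀ M L : ℕ, 1 ≤ M → 1 ≤ L → V < 2 * M → V < 2 * L → M * L ≤ y i →
        S1 (2 * k + 3) (M * L) (L * (W * W)) α ≤ TT := by
      intro M L hM hL hM2 hL2 hML
      have hMLr : (M : ℝ) * L ≤ N := by
        have : ((M * L : ℕ) : ℝ) ≤ y i := by exact_mod_cast hML
        push_cast at this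
        linarith
      have hLV : (L : ℝ) * V ≤ 2 * N := by
        have g1 : (V : ℝ) ≤ 2 * M := by exact_mod_cast hM2.le
        have g2 : (0 : ℝ) ≤ L := Nat.cast_nonneg _
        nlinarith
      have hLW : (L : ℝ) * (W * W) * ℓ ^ B ≤ 2 * N := by
        calc (L : ℝ) * (W * W) * ℓ ^ B = L * ((W : ℝ) ^ 2 * ℓ ^ B) := by ring
          _ ≤ L * V := mul_le_mul_of_nonneg_left v1 (Nat.cast_nonneg _)
          _ ≤ _ := hLV
      apply hS1 (2 * k + 3) (M * L) (L * (W * W)) le_rfl (Nat.mul_pos hM hL) (Nat.mul_pos hL (Nat.mul_pos hW hW))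
      · push_cast; linarith
      · apply Real.log_le_log
        · push_cast
          have : (0 : ℝ) < L := by exact_mod_cast hL
          positivity
        · push_cast
          have g1 : 2 * ((L : ℝ) * (W * W)) ≤ 2 * N := by
            calc 2 * ((L : ℝ) * (W * W)) = L * (2 * (W : ℝ) ^ 2) := by ring
              _ ≤ L * V := mul_le_mul_of_nonneg_left v4 (Nat.cast_nonneg _)
              _ ≤ _ := hLV
          linarith
      · push_cast
        have g1 : (M : ℝ) * L / q ≤ N / q := div_le_div_of_nonneg_right hMLr hq0.le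
        linarith
      · push_cast
        rw [hG, mul_div_assoc', le_div_iff₀ (by positivity)]
        linarith
    have hR2 : 2 * (P : ℝ) * (24 * (P / V) * (2 * ℓ) ^ c1 + 2 * TT) ≤ (N / ℓ ^ (U + 8)) ^ 2 := by
      have g1 : 24 * ((P : ℝ) / V) * (2 * ℓ) ^ c1 ≤ 1 / 4 * (N / ℓ ^ (2 * U + 16)) := by
        have g2 : (P : ℝ) / V ≤ N / V := div_le_div_of_nonneg_right hPN hVpos.le
        calc 24 * ((P : ℝ) / V) * (2 * ℓ) ^ c1 ≤ 24 * (N / V) * (2 * ℓ) ^ c1 := by gcongr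
          _ ≤ 24 * (N / (96 * 2 ^ c1 * ℓ ^ (c1 + 2 * U + 16))) * (2 * ℓ) ^ c1 := by
              gcongr
          _ = 1 / 4 * (N / ℓ ^ (2 * U + 16)) := by
              rw [show c1 + 2 * U + 16 = c1 + (2 * U + 16) by ring, pow_add ℓ c1, mul_pow]
              field_simp
              norm_num
      have g3 : 2 * TT ≤ 1 / 4 * (N / ℓ ^ (2 * U + 16)) := by
        rw [hTT, hT, show 2 * U + 17 = (2 * U + 16) + 1 by ring, pow_succ, ← div_div]
        have g4 : Real.sqrt C2 / ℓ ≤ 1 / 12 := by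
          rw [div_le_iff₀ hℓ0]; linarith
        have g5 : 0 ≤ (N : ℝ) / ℓ ^ (2 * U + 16) := by positivity
        -- we need the sharper comparison
        have g6 : Real.sqrt C2 / ℓ * (N / ℓ ^ (2 * U + 16)) ≤ 1 / 12 * (N / ℓ ^ (2 * U + 16)) :=
          mul_le_mul_of_nonneg_right g4 g5
        have g7 : 2 * (Real.sqrt C2 * (N / ℓ ^ (2 * U + 16) / ℓ)) = 2 * (Real.sqrt C2 / ℓ * (N / ℓ ^ (2 * U + 16))) := by ring
        rw [g7]; linarith
      calc 2 * (P : ℝ) * (24 * (P / V) * (2 * ℓ) ^ c1 + 2 * TT) ≤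
            2 * N * (1 / 4 * (N / ℓ ^ (2 * U + 16)) + 1 / 4 * (N / ℓ ^ (2 * U + 16))) := by gcongr
        _ = (N / ℓ ^ (U + 8)) ^ 2 := by
            rw [div_pow, ← pow_mul, show (U + 8) * 2 = 2 * U + 16 by ring]; ring
    have h3 := block_W a hAdm α P (y i) V hP1n (by rw [hPd, hy1]; omega) (by rw [hPd, hy1]; omega) hVn (by omega)
      (by omega) v4n ((2 * ℓ) ^ c1) TT TT (N / ℓ ^ (U + 8)) (by positivity) hLw (by positivity) hTT0 hT1 hT2 hR2
    refine h3.trans ?_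
    have hLg : 1 + Real.log (4 * P) ≤ 2 * ℓ := by
      rw [Real.log_mul (by norm_num) (by linarith)]
      have := Real.log_le_log (by linarith) hPN
      linarith
    have hLg0 : 0 ≤ 1 + Real.log (4 * P) := by
      have := Real.log_nonneg (show (1 : ℝ) ≤ 4 * P by linarith)
      linarith
    have b1 : 8 * (1 + Real.log (4 * P)) ^ 5 * (N / ℓ ^ (U + 8)) ≤ 1 / 2 * (N / ℓ ^ (U + 2)) := by
      calc 8 * (1 + Real.log (4 * P)) ^ 5 * (N / ℓ ^ (U + 8)) ≤ 8 * (2 * ℓ) ^ 5 * (N / ℓ ^ (U + 8)) := by gcongr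
        _ = 256 / ℓ * (N / ℓ ^ (U + 2)) := by
            rw [show U + 8 = (U + 2) + 6 by ring, pow_add]; field_simp; ring
        _ ≤ 1 / 2 * (N / ℓ ^ (U + 2)) := by
            apply mul_le_mul_of_nonneg_right _ (by positivity)
            rw [div_le_iff₀ hℓ0]; linarith
    have b2 : 3 * (1 + Real.log (4 * P)) * TT ≤ 1 / 2 * (N / ℓ ^ (U + 2)) := by
      calc 3 * (1 + Real.log (4 * P)) * TT ≤ 3 * (2 * ℓ) * TT := by gcongr
        _ = 6 * (Real.sqrt C2 / ℓ ^ (U + 14)) * (N / ℓ ^ (U + 2)) := by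
            rw [hTT, hT, show 2 * U + 17 = (U + 2) + (U + 14) + 1 by ring, pow_succ, pow_add]; field_simp; ring
        _ ≤ 1 / 2 * (N / ℓ ^ (U + 2)) := by
            apply mul_le_mul_of_nonneg_right _ (by positivity)
            have g4 : Real.sqrt C2 / ℓ ^ (U + 14) ≤ 1 / 12 := by
              rw [div_le_iff₀ (by positivity)]
              have : ℓ ^ 1 ≤ ℓ ^ (U + 14) := pow_le_pow_right₀ (by linarith) (by omega)
              rw [pow_one] at this
              linarith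
            linarith
    linarith
  -- telescoping
  have htel : ∀ J : ℕ, J ≤ I → ‖∑ n ∈ Icc 1 N, E n‖ ≤ ‖∑ n ∈ Icc 1 (y J), E n‖ + J * (N / ℓ ^ (U + 2)) := by
    intro J
    induction J with
    | zero => intro _; rw [hy0]; simp
    | succ J ih =>
      intro hJ
      have h3 := ih (by omega)
      have h4 := hblock J (by omega)
      have h5 : ∑ n ∈ Icc 1 (y J), E n = ∑ n ∈ Icc 1 (y (J + 1)), E n + ∑ n ∈ Ioc (y (J + 1)) (y J), E n := by
        have hle : y (J + 1) ≤ y J ∨ y J = 0 := by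
          rw [hy1]; omega
        rcases hle with hle | hle
        · rw [← sum_union (by
            rw [disjoint_left]; intro n hn hn'
            rw [mem_Icc] at hn; rw [mem_Ioc] at hn'; omega)]
          congr 1
          ext n
          rw [mem_union, mem_Icc, mem_Icc, mem_Ioc]
          omega
        · exfalso
          have := hyV J (by omega)
          have : 1 ≤ V * V * V := Nat.mul_pos (Nat.mul_pos hVn hVn) hVn
          omega
      rw [h5] at h3
      have h6 := norm_add_le (∑ n ∈ Icc 1 (y (J + 1)), E n) (∑ n ∈ Ioc (y (J + 1)) (y J), E n)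
      push_cast
      linarith
  have hlast : ‖∑ n ∈ Icc 1 (y I), E n‖ ≤ (y I : ℝ) * (ℓ * W) := by
    refine (norm_sum_le _ _).trans ?_
    have h3 : ∀ n ∈ Icc 1 (y I), ‖E n‖ ≤ ℓ * W := by
      intro n hn
      rw [mem_Icc] at hn
      rw [hE]
      simp only
      rw [norm_mul, norm_mul, norm_ee, mul_one, Complex.norm_real, Complex.norm_real,
        Real.norm_of_nonneg ArithmeticFunction.vonMangoldt_nonneg, Real.norm_eq_abs]
      apply mul_le_mul _ (WW_abs a hAdm n) (abs_nonneg _) hℓ0.le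
      refine ArithmeticFunction.vonMangoldt_le_log.trans ?_
      apply Real.log_le_log (by exact_mod_cast hn.1)
      exact_mod_cast hn.2.trans (hyle I)
    refine (sum_le_sum h3).trans ?_
    rw [sum_const, Nat.card_Icc, nsmul_eq_mul, Nat.add_sub_cancel]
  have h3 := htel I le_rfl
  have hIl : (I : ℝ) ≤ 2 * ℓ := by
    have h5 := natlog_le' V
    have h6 : Real.log V ≤ ℓ := by
      apply Real.log_le_log hVpos
      have : V ≤ (V * V) * (V * V) := by
        calc V ≤ V * V := Nat.le_mul_of_pos_left _ hVn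
          _ ≤ _ := Nat.le_mul_of_pos_left _ (Nat.mul_pos hVn hVn)
      exact_mod_cast this.trans hV4
    linarith
  have hyI : (y I : ℝ) ≤ 3 * (N / V) := by
    have h4 := hyup I
    have h5 : (N : ℝ) / 2 ^ I ≤ 2 * (N / V) := by
      rw [mul_div_assoc', div_le_div_iff₀ (by positivity) (by linarith)]
      nlinarith
    have h6 : (1 : ℝ) ≤ N / V := by
      rw [le_div_iff₀ (by linarith)]
      have h7 : (V : ℝ) ≤ N := by
        have : V ≤ (V * V) * (V * V) := by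
          calc V ≤ V * V := Nat.le_mul_of_pos_left _ hVn
            _ ≤ _ := Nat.le_mul_of_pos_left _ (Nat.mul_pos hVn hVn)
        exact_mod_cast this.trans hV4
      linarith
    linarith
  have hyI2 : (y I : ℝ) * (ℓ * W) ≤ 1 / 2 * (N / ℓ ^ U) := by
    calc (y I : ℝ) * (ℓ * W) ≤ 3 * (N / V) * (ℓ * W) := mul_le_mul_of_nonneg_right hyI (by positivity)
      _ ≤ 3 * (N / (6 * (W : ℝ) * ℓ ^ (U + 1))) * (ℓ * W) := by
          gcongr
      _ = 1 / 2 * (N / ℓ ^ U) := by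
          rw [pow_succ]; field_simp; norm_num
  have h4 : (I : ℝ) * (N / ℓ ^ (U + 2)) ≤ 1 / 2 * (N / ℓ ^ U) := by
    calc (I : ℝ) * (N / ℓ ^ (U + 2)) ≤ (2 * ℓ) * (N / ℓ ^ (U + 2)) := mul_le_mul_of_nonneg_right hIl (by positivity)
      _ = (2 / ℓ) * (N / ℓ ^ U) := by rw [pow_add]; field_simp
      _ ≤ 1 / 2 * (N / ℓ ^ U) := by
          apply mul_le_mul_of_nonneg_right _ (by positivity)
          rw [div_le_iff₀ hℓ0]
          linarith
  have h5 : ‖∑ n ∈ Icc 1 N, E n‖ ≤ N / ℓ ^ U := by linarith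
  exact h5

end Pool.Agent.H76.TB
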