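import Mathlib
import Pool.Agent.H76.TB.A5
import Pool.Graph.R_seed8.H373R2.T7.LamZ2

/-! Counting roots, first moments of the divisor sums, and minor arcs for the sieve model. -/

set_option autoImplicit false

open Finset

namespace Pool.Agent.H76.TB

open Pool.Agent.H807R2.Dav (ee KK dd KK_nonneg KK_le KK_neg geo_bound norm_ee ee_add ee_zero)
open Pool.Agent.H373R2.T7 (typeI_lin KK_mono cs_norm ee_conj' vaughan_gen ev_log' ev_L' ev_root pz mem_pz Vz Vz_pos lamz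
  bonf_ind es es_le es_nonneg sum_pz_le choice sum_small_le sum_mult prod_dvd_iff Vz_inv_small prod_le_pow)

variable {k : ℕ}

lemma cnt_root (a : Fin k → ℤ) {b : Fin k → ℤ} {D : ℕ} (hsq : Squarefree D) (hD : CB b D) (m X : ℕ) :
    (((Icc 1 X).filter (fun n => (D : ℤ) ∣ Fv a b ((m * n : ℕ) : ℤ))).card : ℝ) ≤ tau D ^ k * (3 * ((X : ℝ) / D + 1)) := by
  classical
  have hD1 : 1 ≤ D := Nat.pos_of_ne_zero hsq.ne_zero
  have h1 := geo_root a b (m := m) hD1 hD 1 (X + 1) (by omega) 0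
  have e1 : ∑ n ∈ (Ico 1 (X + 1)).filter (fun n => (D : ℤ) ∣ Fv a b ((m * n : ℕ) : ℤ)), ee ((n : ℝ) * 0) =
      ((((Icc 1 X).filter (fun n => (D : ℤ) ∣ Fv a b ((m * n : ℕ) : ℤ))).card : ℝ) : ℂ) := by
    have e2 : Ico 1 (X + 1) = Icc 1 X := by ext x; rw [mem_Ico, mem_Icc]; omega
    rw [e2]
    have e3 : ∀ n ∈ (Icc 1 X).filter (fun n => (D : ℤ) ∣ Fv a b ((m * n : ℕ) : ℤ)), ee ((n : ℝ) * 0) = 1 := by
      intro n _; rw [mul_zero, ee_zero]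
    rw [sum_congr rfl e3]
    simp
  rw [e1, Complex.norm_real, Real.norm_of_nonneg (Nat.cast_nonneg _)] at h1
  refine h1.trans ?_
  have hD0 : (0 : ℝ) < D := by exact_mod_cast hD1
  have h0 : (0 : ℝ) ≤ ((X + 1 : ℕ) - (1 : ℕ) : ℝ) / D + 1 := by
    have : (0 : ℝ) ≤ ((X + 1 : ℕ) - (1 : ℕ) : ℝ) / D := by
      apply div_nonneg _ hD0.le
      push_cast; linarith [Nat.cast_nonneg (α := ℝ) X]
    linarith
  have h2 := KK_le h0 ((D : ℝ) * 0)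
  have e4 : (((X + 1 : ℕ) : ℝ) - ((1 : ℕ) : ℝ)) / D + 1 = (X : ℝ) / D + 1 := by push_cast; ring
  rw [e4] at h2 h0 ⊢
  exact mul_le_mul (card_RR_tau a hsq hD) h2 (KK_nonneg h0 _) (pow_nonneg (tau_nonneg _) _)

/-- absolute values of divisor sums along multiples of `m` -/
lemma abs_WW_sum (a : Fin k → ℤ) {b : Fin k → ℤ} {W : ℕ} {𝒟 : Finset ℕ} {C : ℕ → ℝ} (h : Adm b W 𝒟 C) (m X : ℕ) :
    ∑ n ∈ Icc 1 X, |WW a b 𝒟 C (m * n)| ≤ ∑ D ∈ 𝒟, tau D ^ k * (3 * ((X : ℝ) / D + 1)) := by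
  classical
  calc ∑ n ∈ Icc 1 X, |WW a b 𝒟 C (m * n)| ≤ ∑ n ∈ Icc 1 X, ∑ D ∈ 𝒟, (if (D : ℤ) ∣ Fv a b ((m * n : ℕ) : ℤ) then (1 : ℝ) else 0) := by
        apply sum_le_sum; intro n _
        unfold WW
        refine (abs_sum_le_sum_abs _ _).trans (sum_le_sum fun D hD => ?_)
        split_ifs
        · exact h.bd D hD
        · simp
    _ = ∑ D ∈ 𝒟, (((Icc 1 X).filter (fun n => (D : ℤ) ∣ Fv a b ((m * n : ℕ) : ℤ))).card : ℝ) := by
        rw [sum_comm]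
        apply sum_congr rfl; intro D _
        rw [← sum_filter]; simp
    _ ≤ _ := sum_le_sum fun D hD => cnt_root a (h.sq D hD) (h.cb D hD) m X

lemma tau_sum (κ W : ℕ) (𝒟 : Finset ℕ) (h : 𝒟 ⊆ Icc 1 W) :
    ∑ D ∈ 𝒟, tau D ^ κ / D ≤ (1 + Real.log W) ^ (2 ^ κ) := by
  refine le_trans ?_ (tau_moment κ W)
  apply sum_le_sum_of_subset_of_nonneg h
  intro D _ _
  exact div_nonneg (pow_nonneg (tau_nonneg _) _) (Nat.cast_nonneg _)

/-- the first moment when `W ≤ X` -/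
lemma abs_WW_sum' (a : Fin k → ℤ) {b : Fin k → ℤ} {W : ℕ} {𝒟 : Finset ℕ} {C : ℕ → ℝ} (h : Adm b W 𝒟 C) (m X : ℕ)
    (hW : W ≤ X) : ∑ n ∈ Icc 1 X, |WW a b 𝒟 C (m * n)| ≤ 6 * X * (1 + Real.log W) ^ (2 ^ k) := by
  refine (abs_WW_sum a h m X).trans ?_
  calc ∑ D ∈ 𝒟, tau D ^ k * (3 * ((X : ℝ) / D + 1)) ≤ ∑ D ∈ 𝒟, 6 * X * (tau D ^ k / D) := by
        apply sum_le_sum; intro D hD
        have hDW := mem_Icc.1 (h.sub hD)
        have hD0 : (0 : ℝ) < D := by exact_mod_cast hDW.1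
        have h1 : (1 : ℝ) ≤ (X : ℝ) / D := by
          rw [le_div_iff₀ hD0, one_mul]; exact_mod_cast hDW.2.trans hW
        have h2 := pow_nonneg (tau_nonneg D) k
        calc tau D ^ k * (3 * ((X : ℝ) / D + 1)) ≤ tau D ^ k * (6 * ((X : ℝ) / D)) :=
              mul_le_mul_of_nonneg_left (by linarith) h2
          _ = _ := by ring
    _ = 6 * X * ∑ D ∈ 𝒟, tau D ^ k / D := by rw [mul_sum]
    _ ≤ _ := mul_le_mul_of_nonneg_left (tau_sum k W 𝒟 h.sub) (by positivity)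

lemma typeI_W' (a : Fin k → ℤ) {b : Fin k → ℤ} {W : ℕ} {𝒟 : Finset ℕ} {C : ℕ → ℝ} (h : Adm b W 𝒟 C) (N m lo b' : ℕ)
    (hm : 1 ≤ m) (hmW : m * W ≤ N) (hb' : (b' : ℝ) ≤ 2 * N / m) (α : ℝ) :
    ‖∑ l ∈ Ioc lo b', ((WW a b 𝒟 C (m * l) : ℝ) : ℂ) * ee (((m * l : ℕ) : ℝ) * α)‖ ≤
      ∑ D ∈ 𝒟, tau D ^ k * KK (2 * ((2 * N : ℕ) : ℝ) / ((m * D : ℕ) : ℝ)) (((m * D : ℕ) : ℝ) * α) := by
  classical
  have hm0 : (0 : ℝ) < m := by exact_mod_cast hm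
  have e1 : ∑ l ∈ Ioc lo b', ((WW a b 𝒟 C (m * l) : ℝ) : ℂ) * ee (((m * l : ℕ) : ℝ) * α) =
      ∑ D ∈ 𝒟, ((C D : ℝ) : ℂ) * ∑ l ∈ (Ico (lo + 1) (b' + 1)).filter (fun l => (D : ℤ) ∣ Fv a b ((m * l : ℕ) : ℤ)),
        ee ((l : ℝ) * (m * α)) := by
    have e2 : Ioc lo b' = Ico (lo + 1) (b' + 1) := by ext x; rw [mem_Ioc, mem_Ico]; omega
    rw [e2]
    have e3 : ∀ l ∈ Ico (lo + 1) (b' + 1), ((WW a b 𝒟 C (m * l) : ℝ) : ℂ) * ee (((m * l : ℕ) : ℝ) * α) =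
        ∑ D ∈ 𝒟, ((C D : ℝ) : ℂ) * (if (D : ℤ) ∣ Fv a b ((m * l : ℕ) : ℤ) then ee ((l : ℝ) * (m * α)) else 0) := by
      intro l _
      unfold WW
      push_cast
      rw [sum_mul]
      apply sum_congr rfl
      intro D _
      have e4 : (m : ℝ) * l * α = (l : ℝ) * (m * α) := by ring
      rw [e4]
      split_ifs <;> simp
    rw [sum_congr rfl e3, sum_comm]
    apply sum_congr rfl
    intro D _
    rw [← mul_sum, sum_filter]
  rw [e1]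
  refine (norm_sum_le _ _).trans (sum_le_sum fun D hD => ?_)
  have hDW := mem_Icc.1 (h.sub hD)
  have hD0 : (0 : ℝ) < D := by exact_mod_cast hDW.1
  have hmD : (0 : ℝ) < ((m * D : ℕ) : ℝ) := by push_cast; positivity
  have hK0 : 0 ≤ KK (2 * ((2 * N : ℕ) : ℝ) / ((m * D : ℕ) : ℝ)) (((m * D : ℕ) : ℝ) * α) := KK_nonneg (by positivity) _
  rw [norm_mul, Complex.norm_real, Real.norm_eq_abs]
  have hin : ‖∑ l ∈ (Ico (lo + 1) (b' + 1)).filter (fun l => (D : ℤ) ∣ Fv a b ((m * l : ℕ) : ℤ)), ee ((l : ℝ) * (m * α))‖ ≤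
      tau D ^ k * KK (2 * ((2 * N : ℕ) : ℝ) / ((m * D : ℕ) : ℝ)) (((m * D : ℕ) : ℝ) * α) := by
    rcases le_or_gt (lo + 1) (b' + 1) with hle | hgt
    · refine (geo_root a b hDW.1 (h.cb D hD) _ _ hle _).trans ?_
      have e5 : (D : ℝ) * (m * α) = ((m * D : ℕ) : ℝ) * α := by push_cast; ring
      rw [e5]
      have hlen : (((b' + 1 : ℕ) : ℝ) - ((lo + 1 : ℕ) : ℝ)) / D + 1 ≤ 2 * ((2 * N : ℕ) : ℝ) / ((m * D : ℕ) : ℝ) := by
        have h2 : (0 : ℝ) ≤ (lo : ℝ) := Nat.cast_nonneg _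
        have h3 : (((b' + 1 : ℕ) : ℝ) - ((lo + 1 : ℕ) : ℝ)) ≤ 2 * N / m := by push_cast; linarith
        have h4 : ((m * D : ℕ) : ℝ) ≤ N := by
          exact_mod_cast (Nat.mul_le_mul_left m hDW.2).trans hmW
        have h5 : (1 : ℝ) ≤ N / ((m * D : ℕ) : ℝ) := by rw [le_div_iff₀ hmD]; linarith
        have h6 : (((b' + 1 : ℕ) : ℝ) - ((lo + 1 : ℕ) : ℝ)) / D ≤ 2 * N / m / D := div_le_div_of_nonneg_right h3 hD0.le
        have e6 : 2 * (N : ℝ) / m / D = 2 * (N / ((m * D : ℕ) : ℝ)) := by push_cast; rw [div_div]; ring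
        have e7 : 2 * ((2 * N : ℕ) : ℝ) / ((m * D : ℕ) : ℝ) = 4 * (N / ((m * D : ℕ) : ℝ)) := by push_cast; ring
        rw [e7]
        linarith
      have h0 : 0 ≤ (((b' + 1 : ℕ) : ℝ) - ((lo + 1 : ℕ) : ℝ)) / D + 1 := by
        have : 0 ≤ (((b' + 1 : ℕ) : ℝ) - ((lo + 1 : ℕ) : ℝ)) / D := by
          apply div_nonneg _ hD0.le
          rw [sub_nonneg]
          exact_mod_cast hle
        linarith
      apply mul_le_mul (card_RR_tau a (h.sq D hD) (h.cb D hD)) (KK_mono h0 hlen _) (KK_nonneg h0 _)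
        (pow_nonneg (tau_nonneg _) _)
    · rw [Ico_eq_empty_of_le hgt.le, filter_empty, sum_empty, norm_zero]
      exact mul_nonneg (pow_nonneg (tau_nonneg _) _) hK0
  calc |C D| * _ ≤ 1 * (tau D ^ k * KK (2 * ((2 * N : ℕ) : ℝ) / ((m * D : ℕ) : ℝ)) (((m * D : ℕ) : ℝ) * α)) :=
        mul_le_mul (h.bd D hD) hin (norm_nonneg _) (by norm_num)
    _ = _ := one_mul _

/-- the sieve model expanded -/
lemma lamz_split (z r N : ℕ) (f : ℕ → ℂ) :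
    ‖∑ n ∈ Icc 1 N, ((lamz z n : ℝ) : ℂ) * f n‖ ≤ (Vz z)⁻¹ *
      (∑ d ∈ Icc 1 ((z + 1) ^ r), ‖∑ m ∈ Icc 1 (N / d), f (d * m)‖ +
       ∑ S ∈ (pz z).powersetCard r, ∑ m ∈ Icc 1 (N / ∏ p ∈ S, p), ‖f ((∏ p ∈ S, p) * m)‖) := by
  classical
  have hV0 : 0 < (Vz z)⁻¹ := inv_pos.2 (Vz_pos z)
  set ind : ℕ → ℝ := fun n => if ∀ p ∈ pz z, ¬ p ∣ n then (1 : ℝ) else 0 with hind
  set χ : Finset ℕ → ℕ → ℝ := fun S n => if ∀ p ∈ S, p ∣ n then (1 : ℝ) else 0 with hχ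
  have hpt : ∀ n : ℕ, |ind n - ∑ j ∈ range r, (-1 : ℝ) ^ j * ∑ S ∈ (pz z).powersetCard j, χ S n| ≤
      ∑ S ∈ (pz z).powersetCard r, χ S n := by
    intro n
    have := bonf_ind (fun p n => p ∣ n) (pz z) r n
    rw [hind, hχ]
    convert this
  have hprime : ∀ j, ∀ S ∈ (pz z).powersetCard j, ∀ p ∈ S, p.Prime := fun j S hS p hp =>
    (mem_pz.1 ((mem_powersetCard.1 hS).1 hp)).2
  have hpos : ∀ j, ∀ S ∈ (pz z).powersetCard j, 1 ≤ ∏ p ∈ S, p := fun j S hS =>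
    Nat.pos_of_ne_zero (prod_ne_zero_iff.2 fun p hp => (hprime j S hS p hp).ne_zero)
  have hχd : ∀ j, ∀ S ∈ (pz z).powersetCard j, ∀ n, χ S n = if ∏ p ∈ S, p ∣ n then (1 : ℝ) else 0 := by
    intro j S hS n
    rw [hχ]
    simp only [prod_dvd_iff S (hprime j S hS)]
  have hS : ∑ n ∈ Icc 1 N, ((lamz z n : ℝ) : ℂ) * f n = (((Vz z)⁻¹ : ℝ) : ℂ) * ∑ n ∈ Icc 1 N, ((ind n : ℝ) : ℂ) * f n := by
    rw [mul_sum]
    apply sum_congr rfl
    intro n _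
    rw [hind]
    unfold lamz
    by_cases h : ∀ p ∈ pz z, ¬ p ∣ n
    · simp only [if_pos h]
      push_cast
      ring
    · simp only [if_neg h]
      push_cast
      ring
  rw [hS, norm_mul, Complex.norm_real, Real.norm_of_nonneg hV0.le]
  apply mul_le_mul_of_nonneg_left _ hV0.le
  have hsplit : ∑ n ∈ Icc 1 N, ((ind n : ℝ) : ℂ) * f n =
      ∑ j ∈ range r, (-1 : ℂ) ^ j * ∑ S ∈ (pz z).powersetCard j, ∑ m ∈ Icc 1 (N / ∏ p ∈ S, p), f ((∏ p ∈ S, p) * m) +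
      ∑ n ∈ Icc 1 N, (((ind n - ∑ j ∈ range r, (-1 : ℝ) ^ j * ∑ S ∈ (pz z).powersetCard j, χ S n : ℝ)) : ℂ) * f n := by
    have h4 : ∑ n ∈ Icc 1 N, (((∑ j ∈ range r, (-1 : ℝ) ^ j * ∑ S ∈ (pz z).powersetCard j, χ S n : ℝ)) : ℂ) * f n =
        ∑ j ∈ range r, (-1 : ℂ) ^ j * ∑ S ∈ (pz z).powersetCard j, ∑ m ∈ Icc 1 (N / ∏ p ∈ S, p), f ((∏ p ∈ S, p) * m) := by
      have h5 : ∀ j ∈ range r, ∀ S ∈ (pz z).powersetCard j, ∑ m ∈ Icc 1 (N / ∏ p ∈ S, p), f ((∏ p ∈ S, p) * m) =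
          ∑ n ∈ Icc 1 N, ((χ S n : ℝ) : ℂ) * f n := by
        intro j _ S hS
        rw [← sum_mult N _ (hpos j S hS) f, sum_filter]
        apply sum_congr rfl
        intro n _
        rw [hχd j S hS n]
        split_ifs <;> simp
      have h6 : ∑ n ∈ Icc 1 N, (((∑ j ∈ range r, (-1 : ℝ) ^ j * ∑ S ∈ (pz z).powersetCard j, χ S n : ℝ)) : ℂ) * f n =
          ∑ j ∈ range r, (-1 : ℂ) ^ j * ∑ S ∈ (pz z).powersetCard j, ∑ n ∈ Icc 1 N, ((χ S n : ℝ) : ℂ) * f n := by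
        push_cast
        simp only [sum_mul, mul_sum]
        rw [sum_comm]
        apply sum_congr rfl
        intro j _
        rw [sum_comm]
        apply sum_congr rfl
        intro S _
        apply sum_congr rfl
        intro n _
        ring
      rw [h6]
      apply sum_congr rfl
      intro j hj
      congr 1
      exact sum_congr rfl fun S hS => (h5 j hj S hS).symm
    rw [← h4, ← sum_add_distrib]
    apply sum_congr rfl
    intro n _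
    push_cast
    ring
  rw [hsplit]
  refine (norm_add_le _ _).trans (add_le_add ?_ ?_)
  · calc ‖∑ j ∈ range r, (-1 : ℂ) ^ j * ∑ S ∈ (pz z).powersetCard j, ∑ m ∈ Icc 1 (N / ∏ p ∈ S, p), f ((∏ p ∈ S, p) * m)‖ ≤
          ∑ j ∈ range r, ∑ S ∈ (pz z).powersetCard j, ‖∑ m ∈ Icc 1 (N / ∏ p ∈ S, p), f ((∏ p ∈ S, p) * m)‖ := by
          refine (norm_sum_le _ _).trans (sum_le_sum fun j _ => ?_)
          rw [norm_mul, norm_pow, norm_neg, norm_one, one_pow, one_mul]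
          exact norm_sum_le _ _
      _ ≤ ∑ j ∈ range (r + 1), ∑ S ∈ (pz z).powersetCard j, ‖∑ m ∈ Icc 1 (N / ∏ p ∈ S, p), f ((∏ p ∈ S, p) * m)‖ := by
          apply sum_le_sum_of_subset_of_nonneg (range_mono (by omega))
          intro j _ _
          exact sum_nonneg fun _ _ => norm_nonneg _
      _ ≤ _ := sum_small_le z r (fun d => ‖∑ m ∈ Icc 1 (N / d), f (d * m)‖) (fun d => norm_nonneg _)
  · calc ‖∑ n ∈ Icc 1 N, (((ind n - ∑ j ∈ range r, (-1 : ℝ) ^ j * ∑ S ∈ (pz z).powersetCard j, χ S n : ℝ)) : ℂ) * f n‖ ≤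
          ∑ n ∈ Icc 1 N, (∑ S ∈ (pz z).powersetCard r, χ S n) * ‖f n‖ := by
          refine (norm_sum_le _ _).trans (sum_le_sum fun n _ => ?_)
          rw [norm_mul, Complex.norm_real, Real.norm_eq_abs]
          exact mul_le_mul_of_nonneg_right (hpt n) (norm_nonneg _)
      _ = ∑ S ∈ (pz z).powersetCard r, ∑ m ∈ Icc 1 (N / ∏ p ∈ S, p), ‖f ((∏ p ∈ S, p) * m)‖ := by
          simp only [sum_mul]
          rw [sum_comm]
          apply sum_congr rfl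
          intro S hS
          have h6 := sum_mult N _ (hpos r S hS) (fun n => ((‖f n‖ : ℝ) : ℂ))
          have h7 : ∑ n ∈ (Icc 1 N).filter (fun n => ∏ p ∈ S, p ∣ n), ‖f n‖ = ∑ m ∈ Icc 1 (N / ∏ p ∈ S, p), ‖f ((∏ p ∈ S, p) * m)‖ := by
            exact_mod_cast h6
          rw [← h7, sum_filter]
          apply sum_congr rfl
          intro n _
          rw [hχd r S hS n]
          split_ifs <;> simp

/-- minor arcs for the sieve model -/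
theorem lamz_minor_W (k U : ℕ) : ∃ B : ℕ, ∀ E : ℕ, ∃ N0 : ℕ, ∀ N : ℕ, N0 ≤ N → ∀ z : ℕ, 1 ≤ z → (z : ℝ) ≤ Real.log N ^ E →
    ∀ (a b : Fin k → ℤ) (W : ℕ) (𝒟 : Finset ℕ) (C : ℕ → ℝ),
    1 ≤ W → W ^ 16 ≤ N → Adm b W 𝒟 C →
    ∀ q : ℕ, Real.log N ^ B ≤ q → (q : ℝ) ≤ N / Real.log N ^ B →
    ∀ c : ℤ, IsCoprime c (q : ℤ) → ∀ α : ℝ, |α - c / q| ≤ 1 / (q : ℝ) ^ 2 →
    ‖∑ n ∈ Icc 1 N, ((lamz z n : ℝ) : ℂ) * (((WW a b 𝒟 C n : ℝ) : ℂ) * ee ((n : ℝ) * α))‖ ≤ N / Real.log N ^ U := by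
  set e1 : ℕ := 2 ^ (2 * (k + 1)) with he1
  set C1 : ℝ := 302400 * 2 ^ e1 with hC1
  have hC10 : 0 < C1 := by positivity
  set B : ℕ := e1 + 2 + 2 * (U + 2) with hB
  set U' : ℕ := U + 2 ^ k + 2 with hU'
  refine ⟨B, fun E => ?_⟩
  obtain ⟨n1, h1⟩ := choice 1 E U' 16
  obtain ⟨n2, h2⟩ := ev_L' (4 + 24 * 2 ^ (2 ^ k) + 2 * Real.sqrt C1)
  obtain ⟨n3, h3⟩ := Vz_inv_small E
  obtain ⟨n4, h4⟩ := ev_V B 1 le_rfl
  refine ⟨max (max (max n1 n2) (max n3 n4)) 16, fun N hN z hz hzE a b W 𝒟 C hW hWN hAdm q hq1 hq2 c hcop α hα => ?_⟩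
  have a1 := h1 N (le_trans (le_trans (le_trans (le_max_left _ _) (le_max_left _ _)) (le_max_left _ _)) hN) z hzE
  have hL := h2 N (le_trans (le_trans (le_trans (le_max_right _ _) (le_max_left _ _)) (le_max_left _ _)) hN)
  have hV := h3 N (le_trans (le_trans (le_trans (le_max_left _ _) (le_max_right _ _)) (le_max_left _ _)) hN) z hz hzE
  have hVV := h4 N (le_trans (le_trans (le_trans (le_max_right _ _) (le_max_right _ _)) (le_max_left _ _)) hN)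
  have hN16 : 16 ≤ N := le_trans (le_max_right _ _) hN
  have hNr : (16 : ℝ) ≤ N := by exact_mod_cast hN16
  have hN0 : (0 : ℝ) < N := by linarith
  obtain ⟨r, hr1, hr2, _⟩ := a1
  have hsC : 0 ≤ Real.sqrt C1 := Real.sqrt_nonneg _
  have h2k : (0 : ℝ) < 2 ^ (2 ^ k) := by positivity
  set ℓ := Real.log N with hℓ
  have hℓ1 : 1 ≤ ℓ := by linarith
  have hℓ0 : 0 < ℓ := by linarith
  have hℓB : 1 ≤ ℓ ^ B := one_le_pow₀ hℓ1
  set V := (z + 1) ^ r with hVd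
  have hV1 : 1 ≤ V := Nat.one_le_pow _ _ (by omega)
  have hVN : V ^ 16 ≤ N := by
    have : ((V ^ 16 : ℕ) : ℝ) ≤ N := by rw [hVd]; push_cast; exact hr2
    exact_mod_cast this
  -- sizes
  have hroot : ∀ x y : ℕ, 1 ≤ x → 1 ≤ y → x ^ 16 ≤ N → y ^ 16 ≤ N → x * y ≤ N := by
    intro x y hx hy hxN hyN
    have h5 : (x * y) ^ 2 ≤ N * N := by
      calc (x * y) ^ 2 = x ^ 2 * y ^ 2 := by ring
        _ ≤ x ^ 16 * y ^ 16 := Nat.mul_le_mul (Nat.pow_le_pow_right hx (by norm_num)) (Nat.pow_le_pow_right hy (by norm_num))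
        _ ≤ _ := Nat.mul_le_mul hxN hyN
    nlinarith
  have hVW : V * W ≤ N := hroot V W hV1 hW hVN hWN
  have hWNle : W ≤ N := by
    have : W ≤ V * W := Nat.le_mul_of_pos_left _ hV1
    omega
  have hWℓ : 1 + Real.log W ≤ 2 * ℓ := by
    have h5 : Real.log W ≤ ℓ := Real.log_le_log (by exact_mod_cast hW) (by exact_mod_cast hWNle)
    linarith
  have hW0 : 0 ≤ Real.log W := Real.log_natCast_nonneg _
  have hq0 : (0 : ℝ) < q := by linarith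
  have hqn : 1 ≤ q := by exact_mod_cast hq0
  have hqN : (q : ℝ) ≤ N := hq2.trans (div_le_self hN0.le hℓB)
  have hlq : Real.log q ≤ ℓ := Real.log_le_log hq0 hqN
  have hVi : 0 < (Vz z)⁻¹ := inv_pos.2 (Vz_pos z)
  refine (lamz_split z r N _).trans ?_
  -- main part
  have hmain : ∑ d ∈ Icc 1 V, ‖∑ m ∈ Icc 1 (N / d), ((WW a b 𝒟 C (d * m) : ℝ) : ℂ) * ee (((d * m : ℕ) : ℝ) * α)‖ ≤
      Real.sqrt C1 * (N / ℓ ^ (U + 2)) := by
    have h5 : ∀ d ∈ Icc 1 V, ‖∑ m ∈ Icc 1 (N / d), ((WW a b 𝒟 C (d * m) : ℝ) : ℂ) * ee (((d * m : ℕ) : ℝ) * α)‖ ≤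
        ∑ D ∈ 𝒟, tau D ^ k * KK (2 * ((2 * N : ℕ) : ℝ) / ((d * D : ℕ) : ℝ)) (((d * D : ℕ) : ℝ) * α) := by
      intro d hd
      rw [mem_Icc] at hd
      have e2 : Icc 1 (N / d) = Ioc 0 (N / d) := by ext x; rw [mem_Icc, mem_Ioc]; omega
      rw [e2]
      apply typeI_W' a hAdm N d 0 (N / d) hd.1 ((Nat.mul_le_mul_right _ hd.2).trans hVW)
      have hd0 : (0 : ℝ) < d := by exact_mod_cast hd.1
      have h6 : ((N / d : ℕ) : ℝ) ≤ N / d := Nat.cast_div_le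
      refine h6.trans ?_
      rw [mul_div_assoc]
      have : 0 ≤ (N : ℝ) / d := by positivity
      linarith
    refine (sum_le_sum h5).trans ?_
    refine (typeI_tot W V (2 * N) 𝒟 hAdm.sub k α).trans ?_
    set G : ℝ := N / ℓ ^ B with hG
    have hG0 : 0 ≤ G := by positivity
    have hVWG : ((V * W : ℕ) : ℝ) ≤ 4 * G := by
      -- `V * W ≤ N^(1/8)`
      have h7 := hVV (V * W)
      -- direct argument with eighth powers
      have h8 : ((V * W : ℕ) : ℝ) ≤ G := by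
        rw [hG, le_div_iff₀ (by positivity)]
        have h9 := hVV V hV1 hVN
        have h10 := hVV W hW hWN
        set T := Nat.sqrt (Nat.sqrt N) with hT
        have hVr : (1 : ℝ) ≤ V := by exact_mod_cast hV1
        have hWr : (1 : ℝ) ≤ W := by exact_mod_cast hW
        have h11 : (V : ℝ) ≤ T := by
          have : (V : ℝ) ≤ (V : ℝ) ^ 2 * (1 * ℓ ^ B) := by nlinarith
          linarith
        have h12 : (W : ℝ) * ℓ ^ B ≤ T := by
          have : (W : ℝ) * ℓ ^ B ≤ (W : ℝ) ^ 2 * (1 * ℓ ^ B) := by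
            rw [one_mul]
            apply mul_le_mul_of_nonneg_right _ (by positivity)
            nlinarith
          linarith
        have h13 : (T : ℝ) * T ≤ N := by
          have g1 : T * T ≤ Nat.sqrt N := Nat.sqrt_le _
          have g2 : Nat.sqrt N ≤ N := Nat.sqrt_le_self _
          exact_mod_cast g1.trans g2
        push_cast
        calc (V : ℝ) * W * ℓ ^ B = V * (W * ℓ ^ B) := by ring
          _ ≤ T * T := mul_le_mul h11 h12 (by positivity) (Nat.cast_nonneg _)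
          _ ≤ N := h13
      linarith
    refine (S1_est (k + 1) (2 * N) (V * W) (by omega) (Nat.mul_pos hV1 hW) hqn hcop hα N ℓ G hℓ1 (by push_cast; linarith) hG0
      ?_ hlq ?_ hVWG hq2).trans ?_
    · apply Real.log_le_log
      · exact_mod_cast Nat.mul_pos hV1 hW
      · exact_mod_cast hVW
    · push_cast
      have g1 : (N : ℝ) / q ≤ G := div_le_div_of_nonneg_left hN0.le (by positivity) hq1
      have g2 : 2 * (N : ℝ) / q = 2 * (N / q) := by ring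
      rw [g2]; linarith
    · have e3 : Real.sqrt C1 * (N / ℓ ^ (U + 2)) = Real.sqrt (C1 * (N / ℓ ^ (U + 2)) ^ 2) := by
        rw [Real.sqrt_mul hC10.le, Real.sqrt_sq (by positivity)]
      rw [e3]
      apply Real.sqrt_le_sqrt
      have e4 : (N / ℓ ^ (U + 2)) ^ 2 = N * G * ℓ ^ (e1 + 2) := by
        rw [hG, hB, pow_add ℓ (e1 + 2) (2 * (U + 2)), div_pow, ← pow_mul]
        field_simp
        ring_nf
      exact le_of_eq (by rw [e4])
  -- the tail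
  have htail : ∑ S ∈ (pz z).powersetCard r, ∑ m ∈ Icc 1 (N / ∏ p ∈ S, p),
      ‖((WW a b 𝒟 C ((∏ p ∈ S, p) * m) : ℝ) : ℂ) * ee ((((∏ p ∈ S, p) * m : ℕ) : ℝ) * α)‖ ≤
      12 * N * (2 * ℓ) ^ (2 ^ k) * (1 / ℓ ^ U') := by
    have h5 : ∀ S ∈ (pz z).powersetCard r, ∑ m ∈ Icc 1 (N / ∏ p ∈ S, p),
        ‖((WW a b 𝒟 C ((∏ p ∈ S, p) * m) : ℝ) : ℂ) * ee ((((∏ p ∈ S, p) * m : ℕ) : ℝ) * α)‖ ≤
        12 * N * (2 * ℓ) ^ (2 ^ k) * ∏ p ∈ S, (1 / (p : ℝ)) := by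
      intro S hS
      have hprime : ∀ p ∈ S, p.Prime := fun p hp => (mem_pz.1 ((mem_powersetCard.1 hS).1 hp)).2
      set m := ∏ p ∈ S, p with hm
      have hm1 : 1 ≤ m := Nat.pos_of_ne_zero (prod_ne_zero_iff.2 fun p hp => (hprime p hp).ne_zero)
      have hmV : m ≤ V := prod_le_pow S z r (mem_powersetCard.1 hS).1 (mem_powersetCard.1 hS).2.le
      have hm0 : (0 : ℝ) < m := by exact_mod_cast hm1
      have e2 : ∏ p ∈ S, (1 / (p : ℝ)) = 1 / m := by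
        rw [prod_div_distrib, prod_const_one, hm]; push_cast; rfl
      rw [e2]
      have e3 : ∀ n ∈ Icc 1 (N / m), ‖((WW a b 𝒟 C (m * n) : ℝ) : ℂ) * ee (((m * n : ℕ) : ℝ) * α)‖ = |WW a b 𝒟 C (m * n)| := by
        intro n _
        rw [norm_mul, norm_ee, mul_one, Complex.norm_real, Real.norm_eq_abs]
      rw [sum_congr rfl e3]
      have hWX : W ≤ N / m := by
        rw [Nat.le_div_iff_mul_le hm1, mul_comm]
        exact (Nat.mul_le_mul_right _ hmV).trans hVW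
      refine (abs_WW_sum' a hAdm m (N / m) hWX).trans ?_
      have h6 : ((N / m : ℕ) : ℝ) ≤ N / m := Nat.cast_div_le
      have h7 : (1 + Real.log W) ^ (2 ^ k) ≤ (2 * ℓ) ^ (2 ^ k) := pow_le_pow_left₀ (by linarith) hWℓ _
      calc 6 * ((N / m : ℕ) : ℝ) * (1 + Real.log W) ^ (2 ^ k) ≤ 6 * (N / m) * (2 * ℓ) ^ (2 ^ k) := by gcongr
        _ ≤ 12 * (N / m) * (2 * ℓ) ^ (2 ^ k) := by
            have : 0 ≤ (N : ℝ) / m * (2 * ℓ) ^ (2 ^ k) := by positivity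
            nlinarith
        _ = _ := by ring
    refine (sum_le_sum h5).trans ?_
    rw [← mul_sum]
    apply mul_le_mul_of_nonneg_left _ (by positivity)
    have h6 := es_le (x := fun p => 1 / (p : ℝ)) (T := pz z) (fun p _ => by positivity) r
    unfold es at h6
    refine h6.trans ?_
    refine le_trans ?_ hr1
    apply Real.exp_le_exp.2
    have := sum_pz_le z
    push_cast
    linarith
  have hVi2 : (Vz z)⁻¹ ≤ ℓ := hV
  calc (Vz z)⁻¹ * (∑ d ∈ Icc 1 V, ‖∑ m ∈ Icc 1 (N / d), ((WW a b 𝒟 C (d * m) : ℝ) : ℂ) * ee (((d * m : ℕ) : ℝ) * α)‖ +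
        ∑ S ∈ (pz z).powersetCard r, ∑ m ∈ Icc 1 (N / ∏ p ∈ S, p),
          ‖((WW a b 𝒟 C ((∏ p ∈ S, p) * m) : ℝ) : ℂ) * ee ((((∏ p ∈ S, p) * m : ℕ) : ℝ) * α)‖) ≤
        ℓ * (Real.sqrt C1 * (N / ℓ ^ (U + 2)) + 12 * N * (2 * ℓ) ^ (2 ^ k) * (1 / ℓ ^ U')) := by
        apply mul_le_mul hVi2 (add_le_add hmain htail) _ hℓ0.le
        apply add_nonneg
        · exact sum_nonneg fun _ _ => norm_nonneg _
        · exact sum_nonneg fun _ _ => sum_nonneg fun _ _ => norm_nonneg _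
    _ = ((Real.sqrt C1 + 12 * 2 ^ (2 ^ k)) / ℓ) * (N / ℓ ^ U) := by
        rw [hU', mul_pow, show U + 2 ^ k + 2 = U + 2 + 2 ^ k by ring, pow_add ℓ (U + 2), pow_add ℓ U 2]
        field_simp
    _ ≤ 1 * (N / ℓ ^ U) := by
        apply mul_le_mul_of_nonneg_right _ (by positivity)
        rw [div_le_iff₀ hℓ0]
        linarith
    _ = _ := one_mul _

end Pool.Agent.H76.TB
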