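import Mathlib
import Pool.Agent.H76.TB.A6
import Pool.Graph.R_seed8.H373R2.T7.LamMaj

/-! Progressions to large moduli: the sieve model and the Bombieri-Vinogradov theorem with divisor weights. -/

set_option autoImplicit false

open Finset

namespace Pool.Agent.H76.TB

open Pool.Agent.H373R2.T7 (ev_log' ev_L' pz mem_pz Vz Vz_pos Vz_le_one lamz lamAP lam1 lam1_le pnt_lam
  es es_le es_nonneg sum_pz_le sieve_gen' count_sys card_small card_pz_le)

lemma phi_inv (l : ℕ) (hl : 1 ≤ l) : 1 / (Nat.totient l : ℝ) ≤ tau l / l := by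
  have h1 : 0 < Nat.totient l := Nat.totient_pos.2 hl
  have h1r : (0 : ℝ) < (Nat.totient l : ℝ) := by exact_mod_cast h1
  have hl0 : (0 : ℝ) < l := by exact_mod_cast hl
  rw [div_le_div_iff₀ h1r hl0, one_mul]
  have h2 : l ≤ l.divisors.card * Nat.totient l := by
    calc l = ∑ m ∈ l.divisors, Nat.totient m := (Nat.sum_totient l).symm
      _ ≤ ∑ _m ∈ l.divisors, Nat.totient l := by
          apply sum_le_sum; intro m hm
          exact Nat.le_of_dvd h1 (Nat.totient_dvd_of_dvd (Nat.dvd_of_mem_divisors hm))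
      _ = _ := by rw [sum_const, smul_eq_mul]
  unfold tau
  exact_mod_cast h2

lemma one_sub_sum_le (A : Finset ℕ) (x : ℕ → ℝ) (hx : ∀ p ∈ A, 0 ≤ x p ∧ x p ≤ 1) :
    1 - ∑ p ∈ A, x p ≤ ∏ p ∈ A, (1 - x p) ∧ ∏ p ∈ A, (1 - x p) ≤ 1 ∧ 0 ≤ ∏ p ∈ A, (1 - x p) := by
  induction A using Finset.induction_on with
  | empty => simp
  | insert a s ha ih =>
    obtain ⟨h1, h2, h3⟩ := ih fun p hp => hx p (mem_insert_of_mem hp)
    obtain ⟨g1, g2⟩ := hx a (mem_insert_self _ _)
    rw [sum_insert ha, prod_insert ha]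
    refine ⟨?_, ?_, ?_⟩
    · nlinarith
    · nlinarith
    · exact mul_nonneg (by linarith) h3

/-- the numbers free of small primes in a progression to an arbitrary modulus -/
lemma rough_ap' (z q c y r : ℕ) (hz : 1 ≤ z) (hq : 1 ≤ q) (hc : c.Coprime q) :
    |∑ n ∈ (Icc 1 y).filter (fun n => n ≡ c [MOD q]), lamz z n - (y : ℝ) / (Nat.totient q : ℝ)| ≤
      (Vz z)⁻¹ * (((z : ℝ) + 1) ^ r + 2 * (y / q) * Real.exp (3 * (1 + Real.log z) - r)) + y * tau q ^ 2 / q / z := by
  set T := (pz z).filter (fun p => ¬ p ∣ q) with hT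
  have hq0 : (0 : ℝ) < q := by exact_mod_cast hq
  have hz0 : (0 : ℝ) < z := by exact_mod_cast hz
  have hTz : T ⊆ pz z := filter_subset _ _
  have hV0 : 0 < (Vz z)⁻¹ := inv_pos.2 (Vz_pos z)
  -- only primes not dividing `q` matter
  have e1 : ((Icc 1 y).filter (fun n => n ≡ c [MOD q])).filter (fun n => ∀ p ∈ pz z, ¬ p ∣ n) =
      ((Icc 1 y).filter (fun n => n ≡ c [MOD q])).filter (fun n => ∀ p ∈ T, ¬ p ∣ n) := by
    apply filter_congr
    intro n hn
    rw [mem_filter] at hn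
    constructor
    · intro h p hp
      exact h p (hTz hp)
    · intro h p hp hpn
      by_cases hpq : p ∣ q
      · have h1 : p ∣ c := (hn.2.dvd_iff hpq).1 hpn
        have h2 := Nat.dvd_gcd h1 hpq
        rw [hc] at h2
        exact (mem_pz.1 hp).2.one_lt.ne' (Nat.dvd_one.1 h2)
      · exact h p (mem_filter.2 ⟨hp, hpq⟩) hpn
  have e0 : ∑ n ∈ (Icc 1 y).filter (fun n => n ≡ c [MOD q]), lamz z n =
      (Vz z)⁻¹ * ((((Icc 1 y).filter (fun n => n ≡ c [MOD q])).filter (fun n => ∀ p ∈ T, ¬ p ∣ n)).card : ℝ) := by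
    rw [← e1]
    unfold lamz
    rw [← sum_filter, sum_const, nsmul_eq_mul, mul_comm]
  rw [e0]
  have key := sieve_gen' ((Icc 1 y).filter (fun n => n ≡ c [MOD q])) (fun _ => (1 : ℝ)) (fun _ _ => zero_le_one)
    (fun p n => p ∣ n) T (fun p => 1 / (p : ℝ)) (fun p hp => by
      have hp2 : (2 : ℝ) ≤ p := by exact_mod_cast (mem_pz.1 (hTz hp)).2.two_le
      constructor
      · positivity
      · rw [div_le_one (by linarith)]; linarith) ((y : ℝ) / q) (by positivity) (fun _ => 1) r (by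
      intro S hS _
      have hSp : ∀ p ∈ S, p.Prime := fun p hp => (mem_pz.1 (hTz (hS hp))).2
      have h := count_sys (fun _ a => a = 0) y S hSp q hq (fun p hp => (mem_filter.1 (hS hp)).2) c
      have h1 : ∀ p ∈ S, (((range p).filter (fun a => a = 0)).card : ℝ) = 1 := by
        intro p hp
        have : (range p).filter (fun a => a = 0) = {0} := by
          ext a
          rw [mem_filter, mem_range, mem_singleton]
          constructor
          · rintro ⟨_, h⟩; exact h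
          · rintro rfl; exact ⟨(hSp p hp).pos, rfl⟩
        rw [this]; simp
      have h2 : ∏ p ∈ S, ((((range p).filter (fun a => a = 0)).card : ℝ) / p) = ∏ p ∈ S, (1 / (p : ℝ)) :=
        prod_congr rfl fun p hp => by rw [h1 p hp]
      rw [h2, prod_congr rfl h1, prod_const_one] at h
      have h3 : ∑ i ∈ ((Icc 1 y).filter (fun n => n ≡ c [MOD q])) with ∀ p ∈ S, p ∣ i, (1 : ℝ) =
          (((Icc 1 y).filter (fun n => n ≡ c [MOD q] ∧ ∀ p ∈ S, n % p = 0)).card : ℝ) := by
        rw [sum_const, nsmul_eq_mul, mul_one, filter_filter]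
        congr 2
        apply filter_congr
        intro n _
        simp only [Nat.dvd_iff_mod_eq_zero]
      rw [h3]
      exact h)
  have e2 : ∑ i ∈ ((Icc 1 y).filter (fun n => n ≡ c [MOD q])) with ∀ p ∈ T, ¬ p ∣ i, (1 : ℝ) =
      ((((Icc 1 y).filter (fun n => n ≡ c [MOD q])).filter (fun n => ∀ p ∈ T, ¬ p ∣ n)).card : ℝ) := by
    rw [sum_const, nsmul_eq_mul, mul_one]
  rw [e2] at key
  set cnt : ℝ := ((((Icc 1 y).filter (fun n => n ≡ c [MOD q])).filter (fun n => ∀ p ∈ T, ¬ p ∣ n)).card : ℝ) with hcnt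
  -- the error term
  have h4 : ∑ j ∈ range (r + 1), ∑ S ∈ T.powersetCard j, (1 : ℝ) ≤ ((z : ℝ) + 1) ^ r := by
    have h5 := card_small T r
    have h6 : ∑ j ∈ range (r + 1), ∑ S ∈ T.powersetCard j, (1 : ℝ) = ((∑ j ∈ range (r + 1), (T.powersetCard j).card : ℕ) : ℝ) := by
      push_cast
      apply sum_congr rfl
      intro j _
      rw [sum_const, nsmul_eq_mul, mul_one]
    rw [h6]
    refine h5.trans ?_
    have h7 : (T.card : ℝ) ≤ z := by exact_mod_cast (card_le_card hTz).trans (card_pz_le z)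
    gcongr
  have h5 : es (fun p => 1 / (p : ℝ)) T r ≤ Real.exp (3 * (1 + Real.log z) - r) := by
    refine (es_le (fun p _ => by positivity) r).trans ?_
    apply Real.exp_le_exp.2
    have h6 : ∑ p ∈ T, 1 / (p : ℝ) ≤ ∑ p ∈ pz z, 1 / (p : ℝ) :=
      sum_le_sum_of_subset_of_nonneg hTz (fun _ _ _ => by positivity)
    have := sum_pz_le z
    linarith
  have h7 : |cnt - (y : ℝ) / q * ∏ p ∈ T, (1 - 1 / (p : ℝ))| ≤
      ((z : ℝ) + 1) ^ r + 2 * (y / q) * Real.exp (3 * (1 + Real.log z) - r) := by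
    refine key.trans (add_le_add h4 ?_)
    exact mul_le_mul_of_nonneg_left h5 (by positivity)
  -- the main term
  set A := q.primeFactors.filter (fun p => ¬ p ≤ z) with hA
  have hAx : ∀ p ∈ A, 0 ≤ 1 / (p : ℝ) ∧ 1 / (p : ℝ) ≤ 1 := by
    intro p hp
    rw [hA, mem_filter] at hp
    have : (2 : ℝ) ≤ p := by exact_mod_cast (Nat.prime_of_mem_primeFactors hp.1).two_le
    constructor
    · positivity
    · rw [div_le_one (by linarith)]; linarith
  obtain ⟨hA1, hA2, hA3⟩ := one_sub_sum_le A (fun p => 1 / (p : ℝ)) hAx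
  have hAs : ∑ p ∈ A, 1 / (p : ℝ) ≤ tau q / z := by
    calc ∑ p ∈ A, 1 / (p : ℝ) ≤ ∑ _p ∈ A, 1 / (z : ℝ) := by
          apply sum_le_sum; intro p hp
          rw [hA, mem_filter] at hp
          apply one_div_le_one_div_of_le hz0
          exact_mod_cast (not_le.1 hp.2).le
      _ = A.card / z := by rw [sum_const, nsmul_eq_mul]; ring
      _ ≤ tau q / z := by
          apply div_le_div_of_nonneg_right _ hz0.le
          unfold tau
          have : A ⊆ q.divisors := by
            intro p hp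
            rw [hA, mem_filter] at hp
            exact Nat.mem_divisors.2 ⟨Nat.dvd_of_mem_primeFactors hp.1, by omega⟩
          exact_mod_cast card_le_card this
  have e3 : (Vz z)⁻¹ * ((y : ℝ) / q * ∏ p ∈ T, (1 - 1 / (p : ℝ))) = (y : ℝ) / (Nat.totient q : ℝ) * ∏ p ∈ A, (1 - 1 / (p : ℝ)) := by
    have h1 : ((Nat.totient q : ℕ) : ℝ) = q * ∏ p ∈ q.primeFactors, (1 - 1 / (p : ℝ)) := by
      have := Nat.totient_eq_mul_prod_factors q
      have h2 : (((Nat.totient q : ℕ) : ℚ) : ℝ) = ((q * ∏ p ∈ q.primeFactors, (1 - (p : ℚ)⁻¹) : ℚ) : ℝ) := by rw [this]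
      push_cast at h2
      simp only [one_div]
      exact h2
    have hB : q.primeFactors.filter (fun p => p ≤ z) = (pz z).filter (fun p => p ∣ q) := by
      ext p
      rw [mem_filter, Nat.mem_primeFactors, mem_filter, mem_pz]
      constructor
      · rintro ⟨⟨h1, h2, h3⟩, h4⟩
        exact ⟨⟨h4, h1⟩, h2⟩
      · rintro ⟨⟨h1, h2⟩, h3⟩
        exact ⟨⟨h2, h3, by omega⟩, h1⟩
    have h2 : ∏ p ∈ q.primeFactors, (1 - 1 / (p : ℝ)) =
        (∏ p ∈ (pz z).filter (fun p => p ∣ q), (1 - 1 / (p : ℝ))) * ∏ p ∈ A, (1 - 1 / (p : ℝ)) := by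
      rw [← hB, hA, prod_filter_mul_prod_filter_not]
    have h3 : Vz z = (∏ p ∈ (pz z).filter (fun p => p ∣ q), (1 - 1 / (p : ℝ))) * ∏ p ∈ T, (1 - 1 / (p : ℝ)) := by
      unfold Vz
      rw [hT, prod_filter_mul_prod_filter_not]
    have hpos : ∀ s : Finset ℕ, (∀ p ∈ s, p.Prime) → (0 : ℝ) < ∏ p ∈ s, (1 - 1 / (p : ℝ)) := by
      intro s hs
      apply prod_pos
      intro p hp
      have : (2 : ℝ) ≤ p := by exact_mod_cast (hs p hp).two_le
      rw [sub_pos, div_lt_one (by linarith)]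
      linarith
    have p1 := hpos ((pz z).filter (fun p => p ∣ q)) (fun p hp => (mem_pz.1 (mem_filter.1 hp).1).2)
    have p2 := hpos T (fun p hp => (mem_pz.1 (hTz hp)).2)
    have p3 := hpos A (fun p hp => Nat.prime_of_mem_primeFactors (mem_filter.1 hp).1)
    rw [h1, h2, h3]
    field_simp
  have h8 : |(y : ℝ) / (Nat.totient q : ℝ) * ∏ p ∈ A, (1 - 1 / (p : ℝ)) - (y : ℝ) / (Nat.totient q : ℝ)| ≤ y * tau q ^ 2 / q / z := by
    have e : (y : ℝ) / (Nat.totient q : ℝ) * ∏ p ∈ A, (1 - 1 / (p : ℝ)) - (y : ℝ) / (Nat.totient q : ℝ) =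
        -((y : ℝ) / (Nat.totient q : ℝ) * (1 - ∏ p ∈ A, (1 - 1 / (p : ℝ)))) := by ring
    rw [e, abs_neg, abs_of_nonneg (mul_nonneg (by positivity) (by linarith))]
    have g1 : (y : ℝ) / (Nat.totient q : ℝ) ≤ y * (tau q / q) := by
      rw [div_eq_mul_one_div]
      exact mul_le_mul_of_nonneg_left (phi_inv q hq) (Nat.cast_nonneg _)
    have g2 : 1 - ∏ p ∈ A, (1 - 1 / (p : ℝ)) ≤ tau q / z := by linarith
    calc (y : ℝ) / (Nat.totient q : ℝ) * (1 - ∏ p ∈ A, (1 - 1 / (p : ℝ))) ≤ (y * (tau q / q)) * (tau q / z) :=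
          mul_le_mul g1 g2 (by linarith) (mul_nonneg (Nat.cast_nonneg _) (div_nonneg (tau_nonneg _) hq0.le))
      _ = _ := by ring
  have h9 : |(Vz z)⁻¹ * cnt - (Vz z)⁻¹ * ((y : ℝ) / q * ∏ p ∈ T, (1 - 1 / (p : ℝ)))| ≤
      (Vz z)⁻¹ * (((z : ℝ) + 1) ^ r + 2 * (y / q) * Real.exp (3 * (1 + Real.log z) - r)) := by
    rw [← mul_sub, abs_mul, abs_of_pos hV0]
    exact mul_le_mul_of_nonneg_left h7 hV0.le
  rw [e3] at h9
  calc |(Vz z)⁻¹ * cnt - (y : ℝ) / (Nat.totient q : ℝ)| ≤
        |(Vz z)⁻¹ * cnt - (y : ℝ) / (Nat.totient q : ℝ) * ∏ p ∈ A, (1 - 1 / (p : ℝ))| +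
        |(y : ℝ) / (Nat.totient q : ℝ) * ∏ p ∈ A, (1 - 1 / (p : ℝ)) - (y : ℝ) / (Nat.totient q : ℝ)| := abs_sub_le _ _ _
    _ ≤ _ := add_le_add h9 h8

/-- the number of elements of a progression -/
lemma ap_card (y l c : ℕ) (hl : 1 ≤ l) : ((((Icc 1 y).filter (fun n => n ≡ c [MOD l])).card : ℕ) : ℝ) ≤ y / l + 1 := by
  have h := count_sys (fun _ _ => True) y ∅ (by simp) l hl (by simp) c
  simp only [notMem_empty, IsEmpty.forall_iff, implies_true, and_true, prod_empty, mul_one] at h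
  have := (abs_le.1 h).2
  linarith

/-- the Bombieri-Vinogradov theorem with divisor weights -/
theorem bv_tau (κ U : ℕ) : ∃ B X0 : ℕ, ∀ x : ℕ, X0 ≤ x → ∀ D : ℕ, (D : ℝ) ^ 2 * Real.log x ^ B ≤ x → ∃ Est : ℕ → ℝ,
    (∀ l, 0 ≤ Est l) ∧ (∀ l, 1 ≤ l → ∀ c, c.Coprime l → |lamAP x l c - x / (Nat.totient l : ℝ)| ≤ Est l) ∧
    ∑ l ∈ Icc 1 D, tau l ^ κ * Est l ≤ x / Real.log x ^ U := by
  set e1 : ℕ := 2 ^ (2 * κ + 1) with he1
  set e2 : ℕ := 2 ^ (κ + 1) with he2
  obtain ⟨B, X0, h0⟩ := H343E.unsmoothed (2 * U + e1 + 3)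
  obtain ⟨C, N1, hC, hpnt⟩ := pnt_lam (U + e2 + 1)
  obtain ⟨n2, h2⟩ := ev_L' (2 * ((C + 2) * 2 ^ e2) + 64 * 2 ^ e1 + 1)
  obtain ⟨n3, h3⟩ := ev_log' (U + e2 + 1) 1
  refine ⟨B, max (max ⌈X0⌉₊ N1) (max n2 (max n3 3)), fun x hx D hD => ?_⟩
  have hx0 : X0 ≤ x := (Nat.le_ceil _).trans (by exact_mod_cast le_trans (le_trans (le_max_left _ _) (le_max_left _ _)) hx)
  have hx1 : N1 ≤ x := le_trans (le_trans (le_max_right _ _) (le_max_left _ _)) hx
  have hL := h2 x (le_trans (le_trans (le_max_left _ _) (le_max_right _ _)) hx)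
  have hs := h3 x (le_trans (le_trans (le_trans (le_max_left _ _) (le_max_right _ _)) (le_max_right _ _)) hx)
  have hx3 : 3 ≤ x := le_trans (le_trans (le_trans (le_max_right _ _) (le_max_right _ _)) (le_max_right _ _)) hx
  have hxr : (3 : ℝ) ≤ x := by exact_mod_cast hx3
  have hxpos : (0 : ℝ) < x := by linarith
  set L := Real.log x with hLd
  have hCe : 0 < (C + 2) * 2 ^ e2 := by positivity
  have h2e : (0 : ℝ) < 2 ^ e1 := by positivity
  have hL1 : 1 ≤ L := by linarith
  have hL0 : 0 < L := by linarith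
  have hLB : 1 ≤ L ^ B := one_le_pow₀ hL1
  -- the worst class
  have hne : ∀ l : ℕ, 1 ≤ l → ((range l).filter (fun c => c.Coprime l)).Nonempty := by
    intro l hl
    rcases Nat.lt_or_ge 1 l with h | h
    · exact ⟨1, by rw [mem_filter, mem_range]; exact ⟨h, Nat.coprime_one_left l⟩⟩
    · have : l = 1 := by omega
      subst this
      exact ⟨0, by rw [mem_filter, mem_range]; exact ⟨by norm_num, Nat.coprime_one_right 0⟩⟩
  have hmax : ∀ l : ℕ, ∃ a : ℕ, 1 ≤ l → (a < l ∧ a.Coprime l) ∧ ∀ c, c < l → c.Coprime l →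
      |lamAP x l c - lam1 x / (Nat.totient l : ℝ)| ≤ |lamAP x l a - lam1 x / (Nat.totient l : ℝ)| := by
    intro l
    by_cases hl : 1 ≤ l
    · obtain ⟨a, ha, ha2⟩ := exists_max_image _ (fun c => |lamAP x l c - lam1 x / (Nat.totient l : ℝ)|) (hne l hl)
      rw [mem_filter, mem_range] at ha
      refine ⟨a, fun _ => ⟨ha, fun c hc hc2 => ha2 c ?_⟩⟩
      rw [mem_filter, mem_range]; exact ⟨hc, hc2⟩
    · exact ⟨0, fun h => absurd h hl⟩
  choose a ha using hmax
  set E0 : ℕ → ℝ := fun l => |lamAP x l (a l) - lam1 x / (Nat.totient l : ℝ)| with hE0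
  have hper : ∀ l c : ℕ, lamAP x l c = lamAP x l (c % l) := by
    intro l c
    unfold lamAP
    congr 1
    apply filter_congr
    intro n _
    constructor
    · intro h; exact h.trans (Nat.mod_modEq c l).symm
    · intro h; exact h.trans (Nat.mod_modEq c l)
  have hE0c : ∀ l, 1 ≤ l → ∀ c, c.Coprime l → |lamAP x l c - lam1 x / (Nat.totient l : ℝ)| ≤ E0 l := by
    intro l hl c hc
    rw [hper l c]
    apply (ha l hl).2
    · exact Nat.mod_lt _ hl
    · rw [Nat.coprime_iff_gcd_eq_one, ← Nat.gcd_rec, Nat.gcd_comm]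
      exact hc
  have hBV : ∑ l ∈ Icc 1 D, E0 l ≤ x / L ^ (2 * U + e1 + 3) := by
    have h4 := h0 x hx0 1 le_rfl D (by
      rw [le_div_iff₀ (by positivity)]
      rcases Nat.eq_zero_or_pos D with h | h
      · rw [h]; simp
      · have : (1 : ℝ) ≤ D := by exact_mod_cast h
        refine le_trans ?_ hD
        apply mul_le_mul_of_nonneg_right _ (by positivity)
        nlinarith) (by rw [le_div_iff₀ (by positivity), one_mul]; exact hD)
      (fun l => if 1 ≤ l then {a l} else ∅) ⟨by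
        intro l c hc
        split_ifs at hc with h
        · rw [mem_singleton] at hc
          rw [hc]; exact (ha l h).1
        · simp at hc, by
        intro l
        split_ifs <;> simp⟩
    rw [one_mul] at h4
    refine le_trans (le_of_eq ?_) h4
    apply sum_congr rfl
    intro l hl
    rw [mem_Icc] at hl
    rw [if_pos hl.1, sum_singleton, hE0]
    simp only
    unfold lamAP lam1 H343E.psiAP H343E.psi1
    rw [Nat.floor_natCast]
  have hPx : |lam1 x - x| ≤ (C + 2) * (x / L ^ (U + e2 + 1)) := by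
    refine (hpnt x hx1).trans ?_
    have g1 : (2 : ℝ) ≤ 2 * (x / L ^ (U + e2 + 1)) := by
      have : (1 : ℝ) ≤ x / L ^ (U + e2 + 1) := by
        rw [le_div_iff₀ (by positivity), one_mul]
        rw [one_mul] at hs
        refine hs.trans ?_
        rw [Real.sqrt_le_left hxpos.le]
        nlinarith
      linarith
    linarith
  refine ⟨fun l => E0 l + |lam1 x - x| / (Nat.totient l : ℝ), fun l => by
    have : 0 ≤ E0 l := abs_nonneg _
    positivity, ?_, ?_⟩
  · intro l hl c hc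
    have h5 := hE0c l hl c hc
    have h6 : |lam1 x / (Nat.totient l : ℝ) - x / (Nat.totient l : ℝ)| = |lam1 x - x| / (Nat.totient l : ℝ) := by
      rw [← sub_div, abs_div, abs_of_nonneg (show (0 : ℝ) ≤ (Nat.totient l : ℝ) from Nat.cast_nonneg _)]
    calc |lamAP x l c - x / (Nat.totient l : ℝ)| ≤ |lamAP x l c - lam1 x / (Nat.totient l : ℝ)| +
          |lam1 x / (Nat.totient l : ℝ) - x / (Nat.totient l : ℝ)| := abs_sub_le _ _ _
      _ ≤ _ := by rw [h6]; exact add_le_add h5 le_rfl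
  · -- weighted sums
    have hD1 : (D : ℝ) ≤ x := by
      rcases Nat.eq_zero_or_pos D with h | h
      · rw [h]; simp
      · have g1 : (1 : ℝ) ≤ D := by exact_mod_cast h
        refine le_trans ?_ hD
        nlinarith
    have hlogD : 1 + Real.log D ≤ 2 * L := by
      rcases Nat.eq_zero_or_pos D with h | h
      · rw [h]; simp; linarith
      · have := Real.log_le_log (by exact_mod_cast h) hD1
        linarith
    have hlogD0 : 0 ≤ Real.log D := Real.log_natCast_nonneg _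
    have htriv : ∀ l ∈ Icc 1 D, E0 l ≤ 8 * L * (x * (tau l / l)) := by
      intro l hl
      rw [mem_Icc] at hl
      have hl0 : (0 : ℝ) < l := by exact_mod_cast hl.1
      have hlx : (l : ℝ) ≤ x := le_trans (by exact_mod_cast hl.2) hD1
      have ht := one_le_tau hl.1
      have g1 : |lamAP x l (a l)| ≤ 2 * L * (x / l) := by
        rw [abs_of_nonneg (Pool.Agent.H373R2.T7.lamAP_nonneg x l (a l))]
        unfold lamAP
        calc ∑ n ∈ (Icc 1 x).filter (fun n => n ≡ a l [MOD l]), ArithmeticFunction.vonMangoldt n ≤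
              ∑ _n ∈ (Icc 1 x).filter (fun n => n ≡ a l [MOD l]), L := by
              apply sum_le_sum; intro n hn
              rw [mem_filter, mem_Icc] at hn
              refine ArithmeticFunction.vonMangoldt_le_log.trans ?_
              exact Real.log_le_log (by exact_mod_cast hn.1.1) (by exact_mod_cast hn.1.2)
          _ = (((Icc 1 x).filter (fun n => n ≡ a l [MOD l])).card : ℝ) * L := by rw [sum_const, nsmul_eq_mul]
          _ ≤ (x / l + 1) * L := mul_le_mul_of_nonneg_right (ap_card x l (a l) hl.1) hL0.le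
          _ ≤ (x / l + x / l) * L := by
              have : (1 : ℝ) ≤ x / l := by rw [le_div_iff₀ hl0]; linarith
              apply mul_le_mul_of_nonneg_right _ hL0.le
              linarith
          _ = _ := by ring
      have g2 : |lam1 x / (Nat.totient l : ℝ)| ≤ 6 * (x * (tau l / l)) := by
        have g3 : 0 ≤ lam1 x := sum_nonneg fun _ _ => ArithmeticFunction.vonMangoldt_nonneg
        rw [abs_of_nonneg (div_nonneg g3 (Nat.cast_nonneg _)), div_eq_mul_one_div]
        calc lam1 x * (1 / (Nat.totient l : ℝ)) ≤ (6 * x) * (tau l / l) :=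
              mul_le_mul (lam1_le x) (phi_inv l hl.1) (by positivity) (by positivity)
          _ = _ := by ring
      have g4 : (x : ℝ) / l ≤ x * (tau l / l) := by
        rw [div_eq_mul_one_div]
        apply mul_le_mul_of_nonneg_left _ hxpos.le
        exact div_le_div_of_nonneg_right ht hl0.le
      have g5 : 0 ≤ x * (tau l / l) := mul_nonneg hxpos.le (div_nonneg (tau_nonneg _) hl0.le)
      rw [hE0]
      simp only
      refine (abs_sub _ _).trans ?_
      have g6 : 2 * L * (x / l) ≤ 2 * L * (x * (tau l / l)) := mul_le_mul_of_nonneg_left g4 (by linarith)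
      nlinarith
    have hcs : (∑ l ∈ Icc 1 D, tau l ^ κ * E0 l) ^ 2 ≤ (∑ l ∈ Icc 1 D, (tau l ^ κ) ^ 2 * E0 l) * ∑ l ∈ Icc 1 D, E0 l := by
      have hE0n : ∀ l, 0 ≤ E0 l := fun l => abs_nonneg _
      have h2 := sum_mul_sq_le_sq_mul_sq (Icc 1 D) (fun l => tau l ^ κ * Real.sqrt (E0 l)) (fun l => Real.sqrt (E0 l))
      have e1 : ∀ l : ℕ, tau l ^ κ * Real.sqrt (E0 l) * Real.sqrt (E0 l) = tau l ^ κ * E0 l := by
        intro l; rw [mul_assoc, Real.mul_self_sqrt (hE0n l)]
      have e2 : ∀ l : ℕ, (tau l ^ κ * Real.sqrt (E0 l)) ^ 2 = (tau l ^ κ) ^ 2 * E0 l := by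
        intro l; rw [mul_pow, Real.sq_sqrt (hE0n l)]
      have e3 : ∀ l : ℕ, Real.sqrt (E0 l) ^ 2 = E0 l := fun l => Real.sq_sqrt (hE0n l)
      simp only [e1, e2, e3] at h2
      exact h2
    have hA : ∑ l ∈ Icc 1 D, (tau l ^ κ) ^ 2 * E0 l ≤ 8 * L * x * (2 * L) ^ e1 := by
      calc ∑ l ∈ Icc 1 D, (tau l ^ κ) ^ 2 * E0 l ≤ ∑ l ∈ Icc 1 D, 8 * L * x * (tau l ^ (2 * κ + 1) / l) := by
            apply sum_le_sum; intro l hl
            calc (tau l ^ κ) ^ 2 * E0 l ≤ (tau l ^ κ) ^ 2 * (8 * L * (x * (tau l / l))) :=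
                  mul_le_mul_of_nonneg_left (htriv l hl) (by positivity)
              _ = _ := by rw [← pow_mul, mul_comm κ 2, pow_succ]; ring
        _ = 8 * L * x * ∑ l ∈ Icc 1 D, tau l ^ (2 * κ + 1) / l := by rw [mul_sum]
        _ ≤ 8 * L * x * (2 * L) ^ e1 := by
            apply mul_le_mul_of_nonneg_left _ (by positivity)
            refine (tau_moment (2 * κ + 1) D).trans ?_
            exact pow_le_pow_left₀ (by linarith) hlogD _
    have hfirst : ∑ l ∈ Icc 1 D, tau l ^ κ * E0 l ≤ 1 / 2 * (x / L ^ U) := by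
      apply le_of_sq_le_sq _ (by positivity)
      refine hcs.trans ?_
      calc (∑ l ∈ Icc 1 D, (tau l ^ κ) ^ 2 * E0 l) * ∑ l ∈ Icc 1 D, E0 l ≤
            (8 * L * x * (2 * L) ^ e1) * (x / L ^ (2 * U + e1 + 3)) :=
            mul_le_mul hA hBV (sum_nonneg fun l _ => abs_nonneg _) (by positivity)
        _ = (8 * 2 ^ e1 / L ^ 2) * (x ^ 2 / L ^ (2 * U)) := by
            rw [mul_pow, show 2 * U + e1 + 3 = 2 * U + e1 + 1 + 2 by ring, pow_add, pow_add, pow_add]
            field_simp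
        _ ≤ (1 / 4) * (x ^ 2 / L ^ (2 * U)) := by
            apply mul_le_mul_of_nonneg_right _ (by positivity)
            rw [div_le_div_iff₀ (by positivity) (by norm_num)]
            nlinarith
        _ = (1 / 2 * (x / L ^ U)) ^ 2 := by
            rw [mul_comm 2 U, pow_mul]; ring
    have hsecond : ∑ l ∈ Icc 1 D, tau l ^ κ * (|lam1 x - x| / (Nat.totient l : ℝ)) ≤ 1 / 2 * (x / L ^ U) := by
      calc ∑ l ∈ Icc 1 D, tau l ^ κ * (|lam1 x - x| / (Nat.totient l : ℝ)) ≤
            ∑ l ∈ Icc 1 D, |lam1 x - x| * (tau l ^ (κ + 1) / l) := by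
            apply sum_le_sum; intro l hl
            rw [mem_Icc] at hl
            calc tau l ^ κ * (|lam1 x - x| / (Nat.totient l : ℝ)) = tau l ^ κ * |lam1 x - x| * (1 / (Nat.totient l : ℝ)) := by ring
              _ ≤ tau l ^ κ * |lam1 x - x| * (tau l / l) :=
                  mul_le_mul_of_nonneg_left (phi_inv l hl.1) (mul_nonneg (pow_nonneg (tau_nonneg _) _) (abs_nonneg _))
              _ = _ := by rw [pow_succ]; ring
        _ = |lam1 x - x| * ∑ l ∈ Icc 1 D, tau l ^ (κ + 1) / l := by rw [mul_sum]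
        _ ≤ ((C + 2) * (x / L ^ (U + e2 + 1))) * (2 * L) ^ e2 := by
            apply mul_le_mul hPx _ (sum_nonneg fun l _ => div_nonneg (pow_nonneg (tau_nonneg _) _) (Nat.cast_nonneg _)) (by positivity)
            refine (tau_moment (κ + 1) D).trans ?_
            exact pow_le_pow_left₀ (by linarith) hlogD _
        _ = ((C + 2) * 2 ^ e2 / L) * (x / L ^ U) := by
            rw [mul_pow, show U + e2 + 1 = U + e2 + 1 by ring, pow_add, pow_add]
            field_simp
        _ ≤ 1 / 2 * (x / L ^ U) := by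
            apply mul_le_mul_of_nonneg_right _ (by positivity)
            rw [div_le_div_iff₀ hL0 (by norm_num)]
            linarith
    calc ∑ l ∈ Icc 1 D, tau l ^ κ * (E0 l + |lam1 x - x| / (Nat.totient l : ℝ)) =
          ∑ l ∈ Icc 1 D, tau l ^ κ * E0 l + ∑ l ∈ Icc 1 D, tau l ^ κ * (|lam1 x - x| / (Nat.totient l : ℝ)) := by
          rw [← sum_add_distrib]
          exact sum_congr rfl fun l _ => by ring
      _ ≤ 1 / 2 * (x / L ^ U) + 1 / 2 * (x / L ^ U) := add_le_add hfirst hsecond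
      _ = _ := by ring

end Pool.Agent.H76.TB
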