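import Mathlib
import Pool.Agent.H76.TB.A7

/-! Major arcs: primes minus the sieve model, twisted by divisor sums, in progressions. -/

set_option autoImplicit false

open Finset

namespace Pool.Agent.H76.TB

open Pool.Agent.H373R2.T7 (ev_log' ev_L' pz mem_pz Vz Vz_pos Vz_le_one lamz lamz_nonneg lamAP lam1 lam1_le pnt_lam
  es es_le es_nonneg sum_pz_le choice Vz_inv_small lam_mult_prime)

variable {k : ℕ}

lemma reg_lcm (q W κ : ℕ) (hq : 1 ≤ q) (𝒟 : Finset ℕ) (h𝒟 : 𝒟 ⊆ Icc 1 W) (G : ℕ → ℝ) (hG : ∀ l, 0 ≤ G l) :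
    ∑ D ∈ 𝒟, tau D ^ κ * G (q.lcm D) ≤ ∑ l ∈ Icc 1 (q * W), tau l ^ (κ + 1) * G l := by
  classical
  have hmaps : ∀ D ∈ 𝒟, q.lcm D ∈ Icc 1 (q * W) := by
    intro D hD
    have h1 := mem_Icc.1 (h𝒟 hD)
    rw [mem_Icc]
    exact ⟨Nat.lcm_pos hq h1.1, (Nat.le_of_dvd (Nat.mul_pos hq h1.1) (Nat.lcm_dvd_mul _ _)).trans (Nat.mul_le_mul_left _ h1.2)⟩
  rw [← sum_fiberwise_of_maps_to hmaps]
  apply sum_le_sum
  intro l hl
  rw [mem_Icc] at hl
  have hl0 : l ≠ 0 := by omega
  calc ∑ D ∈ 𝒟.filter (fun D => q.lcm D = l), tau D ^ κ * G (q.lcm D) ≤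
        ∑ D ∈ 𝒟.filter (fun D => q.lcm D = l), tau l ^ κ * G l := by
        apply sum_le_sum; intro D hD
        rw [mem_filter] at hD
        rw [hD.2]
        apply mul_le_mul_of_nonneg_right _ (hG l)
        exact pow_le_pow_left₀ (tau_nonneg _) (tau_mono (hD.2 ▸ Nat.dvd_lcm_right _ _) hl0) _
    _ = (𝒟.filter (fun D => q.lcm D = l)).card * (tau l ^ κ * G l) := by rw [sum_const, nsmul_eq_mul]
    _ ≤ tau l * (tau l ^ κ * G l) := by
        apply mul_le_mul_of_nonneg_right _ (mul_nonneg (pow_nonneg (tau_nonneg _) _) (hG l))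
        unfold tau
        have : 𝒟.filter (fun D => q.lcm D = l) ⊆ l.divisors := by
          intro D hD
          rw [mem_filter] at hD
          exact Nat.mem_divisors.2 ⟨hD.2 ▸ Nat.dvd_lcm_right _ _, hl0⟩
        exact_mod_cast card_le_card this
    _ = _ := by rw [pow_succ]; ring

/-- classes modulo `lcm (q, D)` -/
def TD (a b : Fin k → ℤ) (q c D : ℕ) : Finset ℕ := (range (q.lcm D)).filter (fun r => r ≡ c [MOD q] ∧ (D : ℤ) ∣ Fv a b (r : ℤ))

lemma card_TD (a b : Fin k → ℤ) (q c D : ℕ) (hD : 1 ≤ D) : (TD a b q c D).card ≤ (RR a b D).card := by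
  apply card_le_card_of_injOn (fun r => r % D)
  · intro r hr
    rw [mem_coe, TD, mem_filter] at hr
    rw [mem_coe, RR, mem_filter, mem_range]
    refine ⟨Nat.mod_lt _ hD, (Fv_dvd_congr a b D ?_).1 hr.2.2⟩
    exact (Int.natCast_modEq_iff).2 (Nat.mod_modEq r D).symm
  · intro r hr r' hr' h
    rw [mem_coe, TD, mem_filter, mem_range] at hr hr'
    simp only at h
    have h1 : r ≡ r' [MOD q.lcm D] := by
      have g1 : (q : ℤ) ∣ (r' : ℤ) - r := (Nat.modEq_iff_dvd).1 (hr.2.1.trans hr'.2.1.symm)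
      have g2 : (D : ℤ) ∣ (r' : ℤ) - r := (Nat.modEq_iff_dvd).1 (show r ≡ r' [MOD D] from h)
      apply (Nat.modEq_iff_dvd).2
      rw [Int.natCast_dvd] at g1 g2 ⊢
      exact Nat.lcm_dvd g1 g2
    have h2 : r % (q.lcm D) = r' % (q.lcm D) := h1
    rwa [Nat.mod_eq_of_lt hr.1, Nat.mod_eq_of_lt hr'.1] at h2

lemma class_split (a b : Fin k → ℤ) (𝒟 : Finset ℕ) (C : ℕ → ℝ) (q c x : ℕ) (hq : 1 ≤ q) (h𝒟 : ∀ D ∈ 𝒟, 1 ≤ D) (f : ℕ → ℝ) :
    ∑ n ∈ (Icc 1 x).filter (fun n => n ≡ c [MOD q]), f n * WW a b 𝒟 C n =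
      ∑ D ∈ 𝒟, C D * ∑ r ∈ TD a b q c D, ∑ n ∈ (Icc 1 x).filter (fun n => n ≡ r [MOD q.lcm D]), f n := by
  classical
  unfold WW
  simp only [mul_sum]
  rw [sum_comm]
  apply sum_congr rfl
  intro D hD
  have hl : 0 < q.lcm D := Nat.lcm_pos hq (h𝒟 D hD)
  have e1 : ∑ n ∈ (Icc 1 x).filter (fun n => n ≡ c [MOD q]), f n * (if (D : ℤ) ∣ Fv a b (n : ℤ) then C D else 0) =
      ∑ n ∈ (Icc 1 x).filter (fun n => n ≡ c [MOD q] ∧ (D : ℤ) ∣ Fv a b (n : ℤ)), C D * f n := by
    rw [← filter_filter, sum_filter (s := (Icc 1 x).filter (fun n => n ≡ c [MOD q]))]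
    apply sum_congr rfl
    intro n _
    split_ifs
    · ring
    · simp
  rw [e1]
  have hmaps : ∀ n ∈ (Icc 1 x).filter (fun n => n ≡ c [MOD q] ∧ (D : ℤ) ∣ Fv a b (n : ℤ)), n % (q.lcm D) ∈ TD a b q c D := by
    intro n hn
    rw [mem_filter] at hn
    rw [TD, mem_filter, mem_range]
    refine ⟨Nat.mod_lt _ hl, ?_, (Fv_dvd_congr a b D ?_).1 hn.2.2⟩
    · exact ((Nat.mod_modEq n (q.lcm D)).of_dvd (Nat.dvd_lcm_left _ _)).trans hn.2.1
    · exact (Int.natCast_modEq_iff).2 ((Nat.mod_modEq n (q.lcm D)).of_dvd (Nat.dvd_lcm_right _ _)).symm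
  rw [← sum_fiberwise_of_maps_to hmaps]
  apply sum_congr rfl
  intro r hr
  rw [TD, mem_filter, mem_range] at hr
  rw [filter_filter]
  apply sum_congr _ fun _ _ => rfl
  apply filter_congr
  intro n _
  constructor
  · rintro ⟨_, h⟩
    have : n ≡ n % (q.lcm D) [MOD q.lcm D] := (Nat.mod_modEq n _).symm
    rwa [h] at this
  · intro h
    refine ⟨⟨(h.of_dvd (Nat.dvd_lcm_left _ _)).trans hr.2.1, (Fv_dvd_congr a b D ?_).2 hr.2.2⟩, ?_⟩
    · exact (Int.natCast_modEq_iff).2 (h.of_dvd (Nat.dvd_lcm_right _ _))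
    · have h2 : n % (q.lcm D) = r % (q.lcm D) := h
      rwa [Nat.mod_eq_of_lt hr.1] at h2

lemma TD_cop {a b : Fin k → ℤ} {q c D r : ℕ} (hD : CB b D) (hc : c.Coprime q) (hr : r ∈ TD a b q c D) :
    r.Coprime (q.lcm D) := by
  rw [TD, mem_filter] at hr
  have h1 : r.Coprime D := cop_of_dvd hD hr.2.2
  have h2 : r.Coprime q := by
    rw [Nat.coprime_iff_gcd_eq_one, hr.2.1.gcd_eq]
    exact hc
  exact Nat.Coprime.coprime_dvd_right (Nat.lcm_dvd_mul q D) (Nat.Coprime.mul_right h2 h1)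

theorem maj_W (k K U : ℕ) : ∃ E0 : ℕ, ∀ E : ℕ, ∃ N0 : ℕ, ∀ N : ℕ, N0 ≤ N → ∀ z : ℕ, Real.log N ^ E0 ≤ z →
    (z : ℝ) ≤ Real.log N ^ E → ∀ (a b : Fin k → ℤ) (W : ℕ) (𝒟 : Finset ℕ) (C : ℕ → ℝ),
    1 ≤ W → W ^ 16 ≤ N → Adm b W 𝒟 C → ∀ q : ℕ, 1 ≤ q → (q : ℝ) ≤ Real.log N ^ K → ∀ c y : ℕ, y ≤ N →
    |∑ n ∈ (Icc 1 y).filter (fun n => n ≡ c [MOD q]), (ArithmeticFunction.vonMangoldt n - lamz z n) * WW a b 𝒟 C n| ≤
      N / Real.log N ^ U := by
  set g1 : ℕ := 2 ^ k with hg1
  set g2 : ℕ := 2 ^ (k + 1) with hg2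
  set g3 : ℕ := 2 ^ (k + 3) with hg3
  set U2 : ℕ := U + 1 with hU2
  set U3 : ℕ := U + g2 + 3 with hU3
  set cut : ℕ := U + g1 + 4 with hcut
  set E0 : ℕ := K + U + g3 + 2 with hE0
  have hg1pos : 0 < g1 := by positivity
  have hg2pos : 0 < g2 := by positivity
  have hg3pos : 0 < g3 := by positivity
  obtain ⟨B, X0, hbv⟩ := bv_tau (k + 1) U2
  refine ⟨E0, fun E => ?_⟩
  obtain ⟨m1, h1⟩ := choice 1 E U3 16
  obtain ⟨m2, h2⟩ := ev_L' (2 * (12 * 2 ^ g1 + 2 ^ U2 + 4 * 2 ^ g2 + 2 ^ g3 + 8) + 8)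
  obtain ⟨m3, h3⟩ := Vz_inv_small E
  obtain ⟨m4, h4⟩ := ev_V (2 * K + B + cut + U + g2 + 10) (1 + 2 * 2 ^ g2) (by
    have : (0 : ℝ) < 2 ^ g2 := by positivity
    linarith)
  obtain ⟨m5, h5⟩ := ev_log' cut 1
  refine ⟨max (max (max m1 m2) (max m3 m4)) (max m5 (max (X0 ^ 2) 16)), fun N hN z hz1 hz2 a b W 𝒟 C hW hWN hAdm q hq hqK c y hy => ?_⟩
  have a1 := h1 N (le_trans (le_trans (le_trans (le_max_left _ _) (le_max_left _ _)) (le_max_left _ _)) hN) z hz2
  have hL := h2 N (le_trans (le_trans (le_trans (le_max_right _ _) (le_max_left _ _)) (le_max_left _ _)) hN)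
  have hVs := h3 N (le_trans (le_trans (le_trans (le_max_left _ _) (le_max_right _ _)) (le_max_left _ _)) hN) z
  have hVV := h4 N (le_trans (le_trans (le_trans (le_max_right _ _) (le_max_right _ _)) (le_max_left _ _)) hN)
  have hsq := h5 N (le_trans (le_trans (le_max_left _ _) (le_max_right _ _)) hN)
  have hX0 : X0 ^ 2 ≤ N := le_trans (le_trans (le_trans (le_max_left _ _) (le_max_right _ _)) (le_max_right _ _)) hN
  have hN16 : 16 ≤ N := le_trans (le_trans (le_trans (le_max_right _ _) (le_max_right _ _)) (le_max_right _ _)) hN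
  obtain ⟨r, hr1, hr2, _⟩ := a1
  have hNr : (16 : ℝ) ≤ N := by exact_mod_cast hN16
  have hN0 : (0 : ℝ) < N := by linarith
  set ℓ := Real.log N with hℓ
  have p1 : (0 : ℝ) < 2 ^ g1 := by positivity
  have p2 : (0 : ℝ) < 2 ^ g2 := by positivity
  have p3 : (0 : ℝ) < 2 ^ g3 := by positivity
  have p4 : (0 : ℝ) < 2 ^ U2 := by positivity
  have hℓ8 : 8 ≤ ℓ := by linarith
  have hℓ1 : 1 ≤ ℓ := by linarith
  have hℓ0 : 0 < ℓ := by linarith
  have hpow1 : ∀ j : ℕ, 1 ≤ ℓ ^ j := fun j => one_le_pow₀ hℓ1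
  have hz : 1 ≤ z := by
    have : (1 : ℝ) ≤ z := (hpow1 E0).trans hz1
    exact_mod_cast this
  have hz0 : (0 : ℝ) < z := by exact_mod_cast hz
  have hVi := hVs hz hz2
  have hVi0 : 0 < (Vz z)⁻¹ := inv_pos.2 (Vz_pos z)
  -- the size of `W` and of the truncation
  set T := Nat.sqrt (Nat.sqrt N) with hT
  have hTT : (T : ℝ) * T ≤ √(N : ℝ) := by
    have g1 : T * T ≤ Nat.sqrt N := Nat.sqrt_le _
    have g2 : ((T * T : ℕ) : ℝ) ≤ (Nat.sqrt N : ℝ) := by exact_mod_cast g1
    push_cast at g2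
    exact g2.trans (Real.nat_sqrt_le_real_sqrt)
  have hW1 := hVV W hW hWN
  have hWr : (1 : ℝ) ≤ W := by exact_mod_cast hW
  have hW2 : (1 : ℝ) ≤ (W : ℝ) ^ 2 := one_le_pow₀ hWr
  have hWW2 : (W : ℝ) ≤ (W : ℝ) ^ 2 := by nlinarith
  have hT1 : (1 : ℝ) ≤ T := by
    refine le_trans ?_ hW1
    have g4 := hpow1 (2 * K + B + cut + U + g2 + 10)
    have g5 : (1 : ℝ) ≤ 1 + 2 * 2 ^ g2 := by linarith
    exact one_le_mul_of_one_le_of_one_le hW2 (one_le_mul_of_one_le_of_one_le g5 g4)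
  have hTle : (T : ℝ) ≤ √(N : ℝ) := by nlinarith
  have hsN : √(N : ℝ) * √(N : ℝ) = N := Real.mul_self_sqrt hN0.le
  have hsN1 : 1 ≤ √(N : ℝ) := by nlinarith
  have hbigW : ∀ j, j ≤ 2 * K + B + cut + U + g2 + 10 → (W : ℝ) ^ 2 * ℓ ^ j ≤ T := by
    intro j hj
    refine le_trans ?_ hW1
    apply mul_le_mul_of_nonneg_left _ (by positivity)
    have g1 : ℓ ^ j ≤ ℓ ^ (2 * K + B + cut + U + g2 + 10) := pow_le_pow_right₀ hℓ1 hj
    have g2' := hpow1 (2 * K + B + cut + U + g2 + 10)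
    nlinarith
  have hWT : (W : ℝ) ≤ T := by
    have := hbigW 0 (by omega)
    rw [pow_zero, mul_one] at this
    linarith
  have hWN' : (W : ℝ) ≤ N := by nlinarith
  have hWℓ : 1 + Real.log W ≤ 2 * ℓ := by
    have h5 : Real.log W ≤ ℓ := Real.log_le_log (by linarith) hWN'
    linarith
  have hW0 : 0 ≤ Real.log W := Real.log_natCast_nonneg _
  -- trivial bound for the terms
  have hterm : ∀ n ∈ Icc 1 N, |(ArithmeticFunction.vonMangoldt n - lamz z n) * WW a b 𝒟 C n| ≤ 2 * ℓ * |WW a b 𝒟 C n| := by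
    intro n hn
    rw [mem_Icc] at hn
    rw [abs_mul]
    apply mul_le_mul_of_nonneg_right _ (abs_nonneg _)
    have g1 : |(ArithmeticFunction.vonMangoldt n : ℝ)| ≤ ℓ := by
      rw [abs_of_nonneg ArithmeticFunction.vonMangoldt_nonneg]
      refine ArithmeticFunction.vonMangoldt_le_log.trans ?_
      exact Real.log_le_log (by exact_mod_cast hn.1) (by exact_mod_cast hn.2)
    have g2 : |lamz z n| ≤ ℓ := by
      rw [abs_of_nonneg (lamz_nonneg z n)]
      unfold lamz
      split_ifs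
      · exact hVi
      · exact hℓ0.le
    refine (abs_sub _ _).trans ?_
    linarith
  by_cases hsmall : (y : ℝ) * ℓ ^ cut ≤ N
  · -- short sums
    set y' := max y W with hy'
    have hy'W : W ≤ y' := le_max_right _ _
    have hy'N : (y' : ℝ) ≤ N / ℓ ^ cut := by
      rw [le_div_iff₀ (by positivity)]
      rcases le_total y W with h | h
      · rw [hy', max_eq_right h]
        have g1 := hbigW cut (by omega)
        calc (W : ℝ) * ℓ ^ cut ≤ (W : ℝ) ^ 2 * ℓ ^ cut := mul_le_mul_of_nonneg_right hWW2 (by positivity)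
          _ ≤ T := g1
          _ ≤ N := by nlinarith
      · rw [hy', max_eq_left h]; exact hsmall
    have hy'N2 : y' ≤ N := by
      have : (y' : ℝ) ≤ N := hy'N.trans (div_le_self hN0.le (hpow1 cut))
      exact_mod_cast this
    calc |∑ n ∈ (Icc 1 y).filter (fun n => n ≡ c [MOD q]), (ArithmeticFunction.vonMangoldt n - lamz z n) * WW a b 𝒟 C n| ≤
          ∑ n ∈ (Icc 1 y).filter (fun n => n ≡ c [MOD q]), 2 * ℓ * |WW a b 𝒟 C n| := by
          refine (abs_sum_le_sum_abs _ _).trans (sum_le_sum fun n hn => hterm n ?_)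
          rw [mem_filter, mem_Icc] at hn
          rw [mem_Icc]; omega
      _ ≤ ∑ n ∈ Icc 1 y', 2 * ℓ * |WW a b 𝒟 C (1 * n)| := by
          simp only [one_mul]
          apply sum_le_sum_of_subset_of_nonneg
          · intro n hn
            rw [mem_filter, mem_Icc] at hn
            rw [mem_Icc]
            have : y ≤ y' := le_max_left _ _
            omega
          · intro n _ _
            have := abs_nonneg (WW a b 𝒟 C n)
            positivity
      _ = 2 * ℓ * ∑ n ∈ Icc 1 y', |WW a b 𝒟 C (1 * n)| := by rw [mul_sum]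
      _ ≤ 2 * ℓ * (6 * y' * (1 + Real.log W) ^ (2 ^ k)) := by
          apply mul_le_mul_of_nonneg_left (abs_WW_sum' a hAdm 1 y' hy'W) (by positivity)
      _ ≤ 2 * ℓ * (6 * (N / ℓ ^ cut) * (2 * ℓ) ^ g1) := by
          apply mul_le_mul_of_nonneg_left _ (by positivity)
          apply mul_le_mul
          · exact mul_le_mul_of_nonneg_left hy'N (by norm_num)
          · exact pow_le_pow_left₀ (by linarith) hWℓ _
          · positivity
          · positivity
      _ = (12 * 2 ^ g1 / ℓ ^ 3) * (N / ℓ ^ U) := by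
          rw [hcut, mul_pow, show U + g1 + 4 = U + g1 + 3 + 1 by ring, pow_succ, pow_add, pow_add]
          field_simp
          ring
      _ ≤ 1 * (N / ℓ ^ U) := by
          apply mul_le_mul_of_nonneg_right _ (by positivity)
          rw [div_le_one (by positivity)]
          have : ℓ ≤ ℓ ^ 3 := by nlinarith [hpow1 2]
          linarith
      _ = _ := one_mul _
  · push Not at hsmall
    have hylow : √(N : ℝ) ≤ y := by
      rw [one_mul] at hsq
      by_contra hcon
      push Not at hcon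
      have : (y : ℝ) * ℓ ^ cut ≤ √(N : ℝ) * √(N : ℝ) := by
        apply mul_le_mul hcon.le hsq (by positivity) (by positivity)
      rw [hsN] at this
      linarith
    have hy1 : (1 : ℝ) ≤ y := hsN1.trans hylow
    have hy0 : (0 : ℝ) < y := by linarith
    have hyN : (y : ℝ) ≤ N := by exact_mod_cast hy
    have hyX : X0 ≤ y := by
      have g1 : (X0 : ℝ) ≤ √(N : ℝ) := by
        apply Real.le_sqrt_of_sq_le
        exact_mod_cast hX0
      have : (X0 : ℝ) ≤ y := g1.trans hylow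
      exact_mod_cast this
    have hly1 : ℓ / 2 ≤ Real.log y := by
      have := Real.log_le_log (by linarith) hylow
      rw [Real.log_sqrt hN0.le] at this
      exact this
    have hly2 : Real.log y ≤ ℓ := Real.log_le_log hy0 hyN
    have hly0 : 0 ≤ Real.log y := by linarith
    by_cases hc : c.Coprime q
    · -- reduced classes
      have hqr : (1 : ℝ) ≤ q := by exact_mod_cast hq
      obtain ⟨Est, hE1, hE2, hE3⟩ := hbv y hyX (q * W) (by
        push_cast
        calc ((q : ℝ) * W) ^ 2 * Real.log y ^ B ≤ (ℓ ^ K * W) ^ 2 * ℓ ^ B := by gcongr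
          _ = (W : ℝ) ^ 2 * ℓ ^ (2 * K + B) := by
              rw [mul_pow, ← pow_mul, mul_comm K 2, pow_add]; ring
          _ ≤ T := hbigW _ (by omega)
          _ ≤ √(N : ℝ) := hTle
          _ ≤ y := hylow)
      have hlz := fun l hl r' hr' => rough_ap' z l r' y r hz hl hr'
      set Mz : ℕ → ℝ := fun l => (Vz z)⁻¹ * (((z : ℝ) + 1) ^ r + 2 * (y / l) * Real.exp (3 * (1 + Real.log z) - r)) +
        y * tau l ^ 2 / l / z with hMz
      have hMz0 : ∀ l, 0 ≤ Mz l := by
        intro l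
        rw [hMz]
        have := tau_nonneg l
        positivity
      have hD1 : ∀ D ∈ 𝒟, 1 ≤ D := fun D hD => (mem_Icc.1 (hAdm.sub hD)).1
      rw [class_split a b 𝒟 C q c y hq hD1]
      have hstep : |∑ D ∈ 𝒟, C D * ∑ r ∈ TD a b q c D, ∑ n ∈ (Icc 1 y).filter (fun n => n ≡ r [MOD q.lcm D]),
          (ArithmeticFunction.vonMangoldt n - lamz z n)| ≤ ∑ D ∈ 𝒟, tau D ^ k * (Est (q.lcm D) + Mz (q.lcm D)) := by
        refine (abs_sum_le_sum_abs _ _).trans (sum_le_sum fun D hD => ?_)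
        have hl : 1 ≤ q.lcm D := Nat.lcm_pos hq (hD1 D hD)
        rw [abs_mul]
        have g1 : |∑ r ∈ TD a b q c D, ∑ n ∈ (Icc 1 y).filter (fun n => n ≡ r [MOD q.lcm D]),
            (ArithmeticFunction.vonMangoldt n - lamz z n)| ≤ tau D ^ k * (Est (q.lcm D) + Mz (q.lcm D)) := by
          calc _ ≤ ∑ _r ∈ TD a b q c D, (Est (q.lcm D) + Mz (q.lcm D)) := by
                refine (abs_sum_le_sum_abs _ _).trans (sum_le_sum fun r' hr' => ?_)
                have hcop := TD_cop (hAdm.cb D hD) hc hr'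
                have g2 := hE2 (q.lcm D) hl r' hcop
                have g3 := hlz (q.lcm D) hl r' hcop
                rw [sum_sub_distrib]
                have e : (∑ n ∈ (Icc 1 y).filter (fun n => n ≡ r' [MOD q.lcm D]), ArithmeticFunction.vonMangoldt n -
                    ∑ n ∈ (Icc 1 y).filter (fun n => n ≡ r' [MOD q.lcm D]), lamz z n) =
                    (lamAP y (q.lcm D) r' - y / (Nat.totient (q.lcm D) : ℝ)) -
                    (∑ n ∈ (Icc 1 y).filter (fun n => n ≡ r' [MOD q.lcm D]), lamz z n - y / (Nat.totient (q.lcm D) : ℝ)) := by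
                  unfold lamAP; ring
                rw [e]
                exact (abs_sub _ _).trans (add_le_add g2 g3)
            _ = (TD a b q c D).card * (Est (q.lcm D) + Mz (q.lcm D)) := by rw [sum_const, nsmul_eq_mul]
            _ ≤ tau D ^ k * (Est (q.lcm D) + Mz (q.lcm D)) := by
                apply mul_le_mul_of_nonneg_right _ (add_nonneg (hE1 _) (hMz0 _))
                refine le_trans ?_ (card_RR_tau a (hAdm.sq D hD) (hAdm.cb D hD))
                exact_mod_cast card_TD a b q c D (hD1 D hD)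
        calc |C D| * _ ≤ 1 * (tau D ^ k * (Est (q.lcm D) + Mz (q.lcm D))) :=
              mul_le_mul (hAdm.bd D hD) g1 (abs_nonneg _) (by norm_num)
          _ = _ := one_mul _
      refine hstep.trans ?_
      refine (reg_lcm q W k hq 𝒟 hAdm.sub (fun l => Est l + Mz l) (fun l => add_nonneg (hE1 _) (hMz0 _))).trans ?_
      -- the four sums
      have hqW : ((q * W : ℕ) : ℝ) ≤ N := by
        push_cast
        calc (q : ℝ) * W ≤ ℓ ^ K * (W : ℝ) ^ 2 := by gcongr
          _ = (W : ℝ) ^ 2 * ℓ ^ K := by ring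
          _ ≤ T := hbigW K (by omega)
          _ ≤ N := by nlinarith
      have hqW1 : 1 ≤ q * W := Nat.mul_pos hq hW
      have hlog : 1 + Real.log ((q * W : ℕ) : ℝ) ≤ 2 * ℓ := by
        have := Real.log_le_log (by exact_mod_cast hqW1) hqW
        linarith
      have hlog0 : 0 ≤ Real.log ((q * W : ℕ) : ℝ) := Real.log_natCast_nonneg _
      have s1 : ∑ l ∈ Icc 1 (q * W), tau l ^ (k + 1) * Est l ≤ (2 ^ U2 / ℓ) * (N / ℓ ^ U) := by
        refine hE3.trans ?_
        calc (y : ℝ) / Real.log y ^ U2 ≤ N / (ℓ / 2) ^ U2 := by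
              apply div_le_div₀ hN0.le hyN (by positivity)
              exact pow_le_pow_left₀ (by positivity) hly1 _
          _ = _ := by rw [div_pow, hU2, pow_succ ℓ U]; field_simp
      have hexp : Real.exp (3 * (1 + Real.log z) - r) ≤ 1 / ℓ ^ U3 := by
        refine le_trans (le_of_eq ?_) hr1
        push_cast
        ring_nf
      have hzr : ((z : ℝ) + 1) ^ r ≤ T := by
        have g1 : ((z + 1) ^ r) ^ 16 ≤ N := by
          have : ((((z + 1) ^ r) ^ 16 : ℕ) : ℝ) ≤ N := by push_cast; exact hr2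
          exact_mod_cast this
        have w2 := hVV ((z + 1) ^ r) (Nat.one_le_pow _ _ (by omega)) g1
        have w3 : (1 : ℝ) ≤ (((z + 1) ^ r : ℕ) : ℝ) := by exact_mod_cast Nat.one_le_pow _ _ (by omega)
        have w4 := hpow1 (2 * K + B + cut + U + g2 + 10)
        have w8 : (1 : ℝ) ≤ 1 + 2 * 2 ^ g2 := by linarith
        have w6 : (1 : ℝ) ≤ (1 + 2 * 2 ^ g2) * ℓ ^ (2 * K + B + cut + U + g2 + 10) := one_le_mul_of_one_le_of_one_le w8 w4
        have w5 : (((z + 1) ^ r : ℕ) : ℝ) ≤ (((z + 1) ^ r : ℕ) : ℝ) ^ 2 * ((1 + 2 * 2 ^ g2) * ℓ ^ (2 * K + B + cut + U + g2 + 10)) := by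
          have w9 : (((z + 1) ^ r : ℕ) : ℝ) ≤ (((z + 1) ^ r : ℕ) : ℝ) ^ 2 := by nlinarith
          exact w9.trans (le_mul_of_one_le_right (by positivity) w6)
        have w7 := w5.trans w2
        push_cast at w7
        exact w7
      have s2 : ∑ l ∈ Icc 1 (q * W), tau l ^ (k + 1) * ((Vz z)⁻¹ * ((z : ℝ) + 1) ^ r) ≤ (1 / ℓ) * (N / ℓ ^ U) := by
        calc ∑ l ∈ Icc 1 (q * W), tau l ^ (k + 1) * ((Vz z)⁻¹ * ((z : ℝ) + 1) ^ r) ≤
              ∑ l ∈ Icc 1 (q * W), (tau l ^ (k + 1) / l) * (((q * W : ℕ) : ℝ) * (ℓ * T)) := by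
              apply sum_le_sum; intro l hl
              rw [mem_Icc] at hl
              have hl0 : (0 : ℝ) < l := by exact_mod_cast hl.1
              have hlq : (l : ℝ) ≤ ((q * W : ℕ) : ℝ) := by exact_mod_cast hl.2
              have g1 : (Vz z)⁻¹ * ((z : ℝ) + 1) ^ r ≤ ℓ * T := mul_le_mul hVi hzr (by positivity) hℓ0.le
              have g2 : 0 ≤ tau l ^ (k + 1) := pow_nonneg (tau_nonneg _) _
              calc tau l ^ (k + 1) * ((Vz z)⁻¹ * ((z : ℝ) + 1) ^ r) ≤ tau l ^ (k + 1) * (ℓ * T) := mul_le_mul_of_nonneg_left g1 g2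
                _ = (tau l ^ (k + 1) / l) * (l * (ℓ * T)) := by field_simp
                _ ≤ _ := by
                    apply mul_le_mul_of_nonneg_left _ (div_nonneg g2 hl0.le)
                    exact mul_le_mul_of_nonneg_right hlq (by positivity)
          _ = (∑ l ∈ Icc 1 (q * W), tau l ^ (k + 1) / l) * (((q * W : ℕ) : ℝ) * (ℓ * T)) := by rw [sum_mul]
          _ ≤ (2 * ℓ) ^ g2 * (((q * W : ℕ) : ℝ) * (ℓ * T)) := by
              apply mul_le_mul_of_nonneg_right _ (by positivity)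
              refine (tau_moment (k + 1) (q * W)).trans ?_
              exact pow_le_pow_left₀ (by linarith) hlog _
          _ ≤ (2 * ℓ) ^ g2 * ((ℓ ^ K * (W : ℝ) ^ 2) * (ℓ * T)) := by
              push_cast
              gcongr
          _ = (2 ^ g2 * ((W : ℝ) ^ 2 * ℓ ^ (g2 + K + 1))) * T := by
              rw [mul_pow, pow_add ℓ (g2 + K), pow_add ℓ g2]; ring
          _ ≤ (1 / ℓ ^ (U + 1) * T) * T := by
              apply mul_le_mul_of_nonneg_right _ (by positivity)
              rw [one_div, ← div_eq_inv_mul, le_div_iff₀ (by positivity)]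
              refine le_trans ?_ hW1
              have g3 : ℓ ^ (g2 + K + 1 + (U + 1)) ≤ ℓ ^ (2 * K + B + cut + U + g2 + 10) := pow_le_pow_right₀ hℓ1 (by omega)
              calc 2 ^ g2 * ((W : ℝ) ^ 2 * ℓ ^ (g2 + K + 1)) * ℓ ^ (U + 1) = (W : ℝ) ^ 2 * (2 ^ g2 * ℓ ^ (g2 + K + 1 + (U + 1))) := by
                    rw [pow_add ℓ (g2 + K + 1)]; ring
                _ ≤ (W : ℝ) ^ 2 * ((1 + 2 * 2 ^ g2) * ℓ ^ (2 * K + B + cut + U + g2 + 10)) := by
                    apply mul_le_mul_of_nonneg_left _ (by positivity)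
                    apply mul_le_mul (by linarith) g3 (by positivity) (by positivity)
          _ ≤ (1 / ℓ ^ (U + 1)) * N := by
              rw [mul_assoc]
              apply mul_le_mul_of_nonneg_left _ (by positivity)
              nlinarith
          _ = _ := by rw [pow_succ]; field_simp
      have s3 : ∑ l ∈ Icc 1 (q * W), tau l ^ (k + 1) * ((Vz z)⁻¹ * (2 * (y / l) * Real.exp (3 * (1 + Real.log z) - r))) ≤
          (2 * 2 ^ g2 / ℓ) * (N / ℓ ^ U) := by
        calc ∑ l ∈ Icc 1 (q * W), tau l ^ (k + 1) * ((Vz z)⁻¹ * (2 * (y / l) * Real.exp (3 * (1 + Real.log z) - r))) ≤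
              ∑ l ∈ Icc 1 (q * W), (tau l ^ (k + 1) / l) * (ℓ * (2 * N * (1 / ℓ ^ U3))) := by
              apply sum_le_sum; intro l hl
              rw [mem_Icc] at hl
              have hl0 : (0 : ℝ) < l := by exact_mod_cast hl.1
              have g2 : 0 ≤ tau l ^ (k + 1) := pow_nonneg (tau_nonneg _) _
              calc tau l ^ (k + 1) * ((Vz z)⁻¹ * (2 * (y / l) * Real.exp (3 * (1 + Real.log z) - r))) ≤
                    tau l ^ (k + 1) * (ℓ * (2 * (N / l) * (1 / ℓ ^ U3))) := by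
                    gcongr
                _ = _ := by field_simp
          _ = (∑ l ∈ Icc 1 (q * W), tau l ^ (k + 1) / l) * (ℓ * (2 * N * (1 / ℓ ^ U3))) := by rw [sum_mul]
          _ ≤ (2 * ℓ) ^ g2 * (ℓ * (2 * N * (1 / ℓ ^ U3))) := by
              apply mul_le_mul_of_nonneg_right _ (by positivity)
              refine (tau_moment (k + 1) (q * W)).trans ?_
              exact pow_le_pow_left₀ (by linarith) hlog _
          _ = (2 * 2 ^ g2 / ℓ ^ 2) * (N / ℓ ^ U) := by
              rw [hU3, mul_pow, show U + g2 + 3 = U + g2 + 2 + 1 by ring, pow_succ, pow_add, pow_add]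
              field_simp
          _ ≤ _ := by
              apply mul_le_mul_of_nonneg_right _ (by positivity)
              apply div_le_div_of_nonneg_left (by positivity) hℓ0
              nlinarith
      have s4 : ∑ l ∈ Icc 1 (q * W), tau l ^ (k + 1) * (y * tau l ^ 2 / l / z) ≤ (2 ^ g3 / ℓ) * (N / ℓ ^ U) := by
        calc ∑ l ∈ Icc 1 (q * W), tau l ^ (k + 1) * (y * tau l ^ 2 / l / z) =
              ∑ l ∈ Icc 1 (q * W), (tau l ^ (k + 3) / l) * (y / z) := by
              apply sum_congr rfl; intro l hl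
              rw [show k + 3 = k + 1 + 2 by ring, pow_add]; ring
          _ = (∑ l ∈ Icc 1 (q * W), tau l ^ (k + 3) / l) * (y / z) := by rw [sum_mul]
          _ ≤ (2 * ℓ) ^ g3 * (N / ℓ ^ E0) := by
              apply mul_le_mul _ _ (by positivity) (by positivity)
              · refine (tau_moment (k + 3) (q * W)).trans ?_
                exact pow_le_pow_left₀ (by linarith) hlog _
              · exact div_le_div₀ hN0.le hyN (by positivity) hz1
          _ = (2 ^ g3 / ℓ ^ (K + 2)) * (N / ℓ ^ U) := by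
              rw [hE0, mul_pow, show K + U + g3 + 2 = (K + 2) + U + g3 by ring, pow_add, pow_add]
              field_simp
          _ ≤ _ := by
              apply mul_le_mul_of_nonneg_right _ (by positivity)
              apply div_le_div_of_nonneg_left (by positivity) hℓ0
              have : ℓ ^ 1 ≤ ℓ ^ (K + 2) := pow_le_pow_right₀ hℓ1 (by omega)
              rwa [pow_one] at this
      have e : ∑ l ∈ Icc 1 (q * W), tau l ^ (k + 1) * (Est l + Mz l) =
          ∑ l ∈ Icc 1 (q * W), tau l ^ (k + 1) * Est l +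
          ∑ l ∈ Icc 1 (q * W), tau l ^ (k + 1) * ((Vz z)⁻¹ * ((z : ℝ) + 1) ^ r) +
          ∑ l ∈ Icc 1 (q * W), tau l ^ (k + 1) * ((Vz z)⁻¹ * (2 * (y / l) * Real.exp (3 * (1 + Real.log z) - r))) +
          ∑ l ∈ Icc 1 (q * W), tau l ^ (k + 1) * (y * tau l ^ 2 / l / z) := by
        rw [← sum_add_distrib, ← sum_add_distrib, ← sum_add_distrib]
        apply sum_congr rfl; intro l _
        rw [hMz]; ring
      rw [e]
      calc _ ≤ (2 ^ U2 / ℓ) * (N / ℓ ^ U) + (1 / ℓ) * (N / ℓ ^ U) + (2 * 2 ^ g2 / ℓ) * (N / ℓ ^ U) + (2 ^ g3 / ℓ) * (N / ℓ ^ U) := by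
            linarith
        _ = ((2 ^ U2 + 1 + 2 * 2 ^ g2 + 2 ^ g3) / ℓ) * (N / ℓ ^ U) := by ring
        _ ≤ 1 * (N / ℓ ^ U) := by
            apply mul_le_mul_of_nonneg_right _ (by positivity)
            rw [div_le_one hℓ0]
            linarith
        _ = _ := one_mul _
    · -- classes with a common factor
      obtain ⟨p, hp, hpc, hpq⟩ := Nat.Prime.not_coprime_iff_dvd.1 hc
      have hqz : (q : ℝ) ≤ z := by
        refine hqK.trans (le_trans ?_ hz1)
        exact pow_le_pow_right₀ hℓ1 (by omega)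
      have hpz : p ∈ pz z := by
        rw [mem_pz]
        refine ⟨?_, hp⟩
        have : p ≤ q := Nat.le_of_dvd hq hpq
        have h2 : q ≤ z := by exact_mod_cast hqz
        omega
      have hdiv : ∀ n ∈ (Icc 1 y).filter (fun n => n ≡ c [MOD q]), p ∣ n := by
        intro n hn
        rw [mem_filter] at hn
        exact (hn.2.dvd_iff hpq).2 hpc
      calc |∑ n ∈ (Icc 1 y).filter (fun n => n ≡ c [MOD q]), (ArithmeticFunction.vonMangoldt n - lamz z n) * WW a b 𝒟 C n| ≤
            ∑ n ∈ (Icc 1 y).filter (fun n => n ≡ c [MOD q]), ArithmeticFunction.vonMangoldt n * W := by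
            refine (abs_sum_le_sum_abs _ _).trans (sum_le_sum fun n hn => ?_)
            have g1 : lamz z n = 0 := by
              unfold lamz
              rw [if_neg]
              intro h
              exact h p hpz (hdiv n hn)
            rw [g1, sub_zero, abs_mul, abs_of_nonneg ArithmeticFunction.vonMangoldt_nonneg]
            exact mul_le_mul_of_nonneg_left (WW_abs a hAdm n) ArithmeticFunction.vonMangoldt_nonneg
        _ ≤ ∑ n ∈ (Icc 1 y).filter (fun n => p ∣ n), ArithmeticFunction.vonMangoldt n * W := by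
            apply sum_le_sum_of_subset_of_nonneg
            · intro n hn
              rw [mem_filter]
              exact ⟨(mem_filter.1 hn).1, hdiv n hn⟩
            · intro n _ _
              exact mul_nonneg ArithmeticFunction.vonMangoldt_nonneg (Nat.cast_nonneg _)
        _ = (∑ n ∈ (Icc 1 y).filter (fun n => p ∣ n), ArithmeticFunction.vonMangoldt n) * W := by rw [sum_mul]
        _ ≤ ((Nat.log 2 y + 1 : ℝ) * Real.log y) * W := mul_le_mul_of_nonneg_right (lam_mult_prime y p hp) (Nat.cast_nonneg _)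
        _ ≤ ((3 * ℓ) * ℓ) * W := by
            have g1 := natlog_le' y
            apply mul_le_mul_of_nonneg_right _ (Nat.cast_nonneg _)
            apply mul_le_mul _ hly2 hly0 (by positivity)
            linarith
        _ ≤ N / ℓ ^ U := by
            rw [le_div_iff₀ (by positivity)]
            calc 3 * ℓ * ℓ * W * ℓ ^ U ≤ ℓ * ℓ * ℓ * (W : ℝ) ^ 2 * ℓ ^ U := by
                  have : 3 * ℓ * ℓ ≤ ℓ * ℓ * ℓ := by nlinarith
                  gcongr
              _ = (W : ℝ) ^ 2 * ℓ ^ (U + 3) := by rw [pow_add]; ring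
              _ ≤ T := hbigW (U + 3) (by omega)
              _ ≤ N := by nlinarith

end Pool.Agent.H76.TB
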