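import Mathlib
import Pool.Agent.H76.TB.A8
import Pool.Graph.R_seed8.H373R2.T7.SupE2

/-! The supremum norm of the exponential sum of primes minus the model, twisted by divisor sums. -/

set_option autoImplicit false

open Finset

namespace Pool.Agent.H76.TB

open Pool.Agent.H807R2.Dav (ee norm_ee ee_add dd dd_le)
open Pool.Agent.H373R2.T7 (ev_log' ev_L' lamz abel_ee rat_twist)

theorem sup_W (k U : ℕ) : ∃ B : ℕ, ∀ E : ℕ, ∃ N0 : ℕ, ∀ N : ℕ, N0 ≤ N → ∀ z : ℕ, Real.log N ^ B ≤ z →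
    (z : ℝ) ≤ Real.log N ^ E → ∀ (a b : Fin k → ℤ) (W : ℕ) (𝒟 : Finset ℕ) (C : ℕ → ℝ),
    1 ≤ W → W ^ 16 ≤ N → Adm b W 𝒟 C → ∀ α : ℝ,
    ‖∑ n ∈ Icc 1 N, (((ArithmeticFunction.vonMangoldt n - lamz z n) * WW a b 𝒟 C n : ℝ) : ℂ) * ee ((n : ℝ) * α)‖ ≤
      N / Real.log N ^ U := by
  obtain ⟨B1, m1, hmin⟩ := minor_W k (U + 1)
  obtain ⟨B2, hlz0⟩ := lamz_minor_W k (U + 1)
  set B : ℕ := B1 + B2 + 1 with hB
  obtain ⟨B3, hmaj0⟩ := maj_W k B (2 * B + U + 1)
  refine ⟨B3 + B, fun E => ?_⟩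
  obtain ⟨m2, hlz⟩ := hlz0 E
  obtain ⟨m3, hmaj⟩ := hmaj0 E
  obtain ⟨m5, h5⟩ := ev_log' B 2
  obtain ⟨m6, h6⟩ := ev_L' 20
  refine ⟨max (max (max m1 m2) m3) (max (max m5 m6) 4), fun N hN z hz1 hz2 a b W 𝒟 C hW hWN hAdm α => ?_⟩
  have hm1 : m1 ≤ N := le_trans (le_trans (le_trans (le_max_left _ _) (le_max_left _ _)) (le_max_left _ _)) hN
  have hm2 : m2 ≤ N := le_trans (le_trans (le_trans (le_max_right _ _) (le_max_left _ _)) (le_max_left _ _)) hN
  have hm3 : m3 ≤ N := le_trans (le_trans (le_max_right _ _) (le_max_left _ _)) hN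
  have a5 := h5 N (le_trans (le_trans (le_trans (le_max_left _ _) (le_max_left _ _)) (le_max_right _ _)) hN)
  have hL := h6 N (le_trans (le_trans (le_trans (le_max_right _ _) (le_max_left _ _)) (le_max_right _ _)) hN)
  have hN4 : 4 ≤ N := le_trans (le_trans (le_max_right _ _) (le_max_right _ _)) hN
  have hNr : (4 : ℝ) ≤ N := by exact_mod_cast hN4
  have hN0 : (0 : ℝ) < N := by linarith
  set L := Real.log N with hLd
  have hL0 : 0 < L := by linarith
  have hL1 : 1 ≤ L := by linarith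
  have hLB1 : 1 ≤ L ^ B := one_le_pow₀ hL1
  have hLB0 : 0 < L ^ B := by positivity
  have hsN : √(N : ℝ) ≤ N := by
    rw [Real.sqrt_le_left (by positivity)]; nlinarith
  have h2LB : 2 * L ^ B ≤ N := a5.trans hsN
  have hzB : L ^ B ≤ z := le_trans (pow_le_pow_right₀ hL1 (by omega)) hz1
  have hzB3 : L ^ B3 ≤ z := le_trans (pow_le_pow_right₀ hL1 (by omega)) hz1
  have hz : 1 ≤ z := by
    have : (1 : ℝ) ≤ z := hLB1.trans hzB
    exact_mod_cast this
  -- Dirichlet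
  set Q : ℕ := ⌊(N : ℝ) / L ^ B⌋₊ with hQ
  have hNLB : 2 ≤ (N : ℝ) / L ^ B := by rw [le_div_iff₀ hLB0]; exact h2LB
  have hQpos : 0 < Q := by
    rw [hQ, Nat.floor_pos]
    linarith
  obtain ⟨r, hr1, hr2⟩ := Real.exists_rat_abs_sub_le_and_den_le α hQpos
  set q : ℕ := r.den with hq
  have hq1 : 1 ≤ q := r.den_pos
  have hq0 : (0 : ℝ) < q := by exact_mod_cast hq1
  have hrq : ((r : ℚ) : ℝ) = (r.num : ℝ) / q := by
    rw [hq]; exact_mod_cast (Rat.num_div_den r).symm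
  rw [hrq] at hr1
  have hcop : IsCoprime r.num (q : ℤ) := by
    rw [Int.isCoprime_iff_gcd_eq_one]
    have := r.reduced
    rw [Nat.Coprime] at this
    rw [Int.gcd]
    simpa using this
  have hqQ : (q : ℝ) ≤ N / L ^ B := by
    have h1 : (q : ℝ) ≤ Q := by exact_mod_cast hr2
    exact h1.trans (Nat.floor_le (by positivity))
  set f : ℕ → ℝ := fun n => (ArithmeticFunction.vonMangoldt n - lamz z n) * WW a b 𝒟 C n with hf
  have hsplit : ∑ n ∈ Icc 1 N, ((f n : ℝ) : ℂ) * ee ((n : ℝ) * α) =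
      ∑ n ∈ Icc 1 N, ((ArithmeticFunction.vonMangoldt n : ℝ) : ℂ) * (((WW a b 𝒟 C n : ℝ) : ℂ) * ee ((n : ℝ) * α)) -
      ∑ n ∈ Icc 1 N, ((lamz z n : ℝ) : ℂ) * (((WW a b 𝒟 C n : ℝ) : ℂ) * ee ((n : ℝ) * α)) := by
    rw [← sum_sub_distrib]
    apply sum_congr rfl
    intro n _
    rw [hf]
    push_cast
    ring
  rcases le_or_gt (L ^ B) (q : ℝ) with hqb | hqs
  · -- minor
    have hα : |α - (r.num : ℝ) / q| ≤ 1 / (q : ℝ) ^ 2 := by
      refine hr1.trans ?_
      rw [pow_two]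
      apply one_div_le_one_div_of_le (by positivity)
      apply mul_le_mul_of_nonneg_right _ hq0.le
      have h1 : (q : ℝ) ≤ Q := by exact_mod_cast hr2
      linarith
    have hB1 : L ^ B1 ≤ L ^ B := pow_le_pow_right₀ hL1 (by omega)
    have hB2 : L ^ B2 ≤ L ^ B := pow_le_pow_right₀ hL1 (by omega)
    have h1 := hmin N hm1 a b W 𝒟 C hW hWN hAdm q (hB1.trans hqb) (hqQ.trans (div_le_div_of_nonneg_left hN0.le (by positivity) hB1))
      r.num hcop α hα
    have h2 := hlz N hm2 z hz hz2 a b W 𝒟 C hW hWN hAdm q (hB2.trans hqb)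
      (hqQ.trans (div_le_div_of_nonneg_left hN0.le (by positivity) hB2)) r.num hcop α hα
    rw [hsplit]
    refine (norm_sub_le _ _).trans ((add_le_add h1 h2).trans ?_)
    rw [← hLd]
    calc (N : ℝ) / L ^ (U + 1) + N / L ^ (U + 1) = 2 / L * (N / L ^ U) := by rw [pow_succ]; field_simp; ring
      _ ≤ 1 * (N / L ^ U) := by
          apply mul_le_mul_of_nonneg_right _ (by positivity)
          rw [div_le_one hL0]; linarith
      _ = _ := one_mul _
  · -- major
    have hAP : ∀ y : ℕ, y ≤ N → ∀ c : ℕ, |∑ n ∈ (Icc 1 y).filter (fun n => n ≡ c [MOD q]), f n| ≤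
        N / L ^ (2 * B + U + 1) := by
      intro y hy c
      exact hmaj N hm3 z hzB3 hz2 a b W 𝒟 C hW hWN hAdm q hq1 hqs.le c y hy
    have hpart : ∀ y : ℕ, y ≤ N → ‖∑ n ∈ Icc 1 y, ((f n : ℝ) : ℂ) * ee (n * ((r.num : ℝ) / q))‖ ≤
        N / L ^ (B + U + 1) := by
      intro y hy
      have h1 := rat_twist f y q hq1 r.num (N / L ^ (2 * B + U + 1)) (hAP y hy)
      refine h1.trans ?_
      calc (q : ℝ) * (N / L ^ (2 * B + U + 1)) ≤ L ^ B * (N / L ^ (2 * B + U + 1)) := by gcongr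
        _ = N / L ^ (B + U + 1) := by
            have e : L ^ (2 * B + U + 1) = L ^ B * L ^ (B + U + 1) := by rw [← pow_add]; congr 1; ring
            rw [e]
            field_simp
    set γ : ℝ := α - (r.num : ℝ) / q with hγ
    have h1 := abel_ee (fun n => ((f n : ℝ) : ℂ) * ee (n * ((r.num : ℝ) / q))) γ (N / L ^ (B + U + 1)) N hpart
    have h2 : ∑ n ∈ Icc 1 N, ((f n : ℝ) : ℂ) * ee ((n : ℝ) * α) =
        ∑ n ∈ Icc 1 N, (((f n : ℝ) : ℂ) * ee (n * ((r.num : ℝ) / q))) * ee (n * γ) := by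
      apply sum_congr rfl
      intro n _
      rw [mul_assoc, ← ee_add]
      congr 2
      rw [hγ]
      ring
    rw [h2]
    refine h1.trans ?_
    have hβ : |γ| ≤ L ^ B / N := by
      refine hr1.trans ?_
      rw [div_le_div_iff₀ (by positivity) hN0, one_mul]
      have h3 : (N : ℝ) / L ^ B ≤ (Q : ℝ) + 1 := (Nat.lt_floor_add_one _).le
      rw [div_le_iff₀ hLB0] at h3
      have h4 : (1 : ℝ) ≤ q := by exact_mod_cast hq1
      have h5 : ((Q : ℝ) + 1) * L ^ B ≤ ((Q : ℝ) + 1) * L ^ B * q := le_mul_of_one_le_right (by positivity) h4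
      calc (N : ℝ) ≤ ((Q : ℝ) + 1) * L ^ B := h3
        _ ≤ ((Q : ℝ) + 1) * L ^ B * q := h5
        _ = L ^ B * (((Q : ℝ) + 1) * q) := by ring
    have h3 : (N : ℝ) * ‖ee γ - 1‖ ≤ 7 * L ^ B := by
      have h4 : ‖ee γ - 1‖ ≤ 2 * Real.pi * |γ| := by
        have := dd_le γ
        unfold dd at this
        rw [norm_sub_rev] at this
        exact this
      have h5 : |γ| * N ≤ L ^ B := by
        rw [le_div_iff₀ hN0] at hβ
        exact hβ
      have hpi : Real.pi < 3.15 := Real.pi_lt_d2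
      have h6 : 0 ≤ |γ| * N := by positivity
      calc (N : ℝ) * ‖ee γ - 1‖ ≤ N * (2 * Real.pi * |γ|) := by gcongr
        _ = 2 * Real.pi * (|γ| * N) := by ring
        _ ≤ 7 * (|γ| * N) := by
            apply mul_le_mul_of_nonneg_right _ h6
            linarith
        _ ≤ 7 * L ^ B := by linarith
    calc N / L ^ (B + U + 1) * (1 + N * ‖ee γ - 1‖) ≤ N / L ^ (B + U + 1) * (8 * L ^ B) := by
          apply mul_le_mul_of_nonneg_left _ (by positivity)
          linarith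
      _ = (8 / L) * (N / L ^ U) := by
          have e : L ^ (B + U + 1) = L ^ B * L ^ U * L := by rw [← pow_add, ← pow_succ]
          rw [e]
          field_simp
      _ ≤ 1 * (N / L ^ U) := by
          apply mul_le_mul_of_nonneg_right _ (by positivity)
          rw [div_le_one hL0]; linarith
      _ = _ := one_mul _

end Pool.Agent.H76.TB
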