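import Mathlib
import Pool.Agent.H76.TB.A9
import Pool.Graph.R_seed8.H373R2.T7.BilF

/-! The supremum norm with the values of the forms free of small primes. -/

set_option autoImplicit false

open Finset

namespace Pool.Agent.H76.TB

open Pool.Agent.H807R2.Dav (ee norm_ee ee_add)
open Pool.Agent.H373R2.T7 (ev_log' ev_L' pz mem_pz Vz Vz_pos lamz lamz_nonneg Vz_inv_small es es_le es_nonneg sum_pz_le choice
  bonf_ind orth)

variable {k : ℕ}

/-- restriction to residue classes costs a factor `M` -/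
lemma ap_sup (M : ℕ) (hM : 1 ≤ M) (N : ℕ) (f : ℕ → ℂ) (P : ℕ → Prop) [DecidablePred P] (K : ℝ)
    (hf : ∀ α : ℝ, ‖∑ n ∈ Icc 1 N, f n * ee ((n : ℝ) * α)‖ ≤ K) (α : ℝ) :
    ‖∑ n ∈ Icc 1 N, (if P (n % M) then f n else 0) * ee ((n : ℝ) * α)‖ ≤ M * K := by
  classical
  have hM0 : (0 : ℝ) < M := by exact_mod_cast hM
  have hMc : (M : ℂ) ≠ 0 := by
    have : M ≠ 0 := by omega
    exact_mod_cast this
  have h1 : ∀ n : ℕ, (if P (n % M) then (1 : ℂ) else 0) = ∑ c ∈ (range M).filter P, (M : ℂ)⁻¹ *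
      ∑ t ∈ range M, ee ((t : ℝ) * ((((n : ℤ) - (c : ℤ) : ℤ) : ℝ) / M)) := by
    intro n
    have h2 : ∀ c ∈ (range M).filter P, (M : ℂ)⁻¹ * ∑ t ∈ range M, ee ((t : ℝ) * ((((n : ℤ) - (c : ℤ) : ℤ) : ℝ) / M)) =
        if c = n % M then 1 else 0 := by
      intro c hc
      rw [mem_filter, mem_range] at hc
      rw [orth M hM]
      have h3 : ((M : ℤ) ∣ (n : ℤ) - c) ↔ c = n % M := by
        rw [← Nat.modEq_iff_dvd]
        constructor
        · intro h
          have : c % M = n % M := h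
          rwa [Nat.mod_eq_of_lt hc.1] at this
        · intro h
          show c % M = n % M
          rw [Nat.mod_eq_of_lt hc.1]; exact h
      by_cases h4 : c = n % M
      · rw [if_pos (h3.2 h4), if_pos h4, inv_mul_cancel₀ hMc]
      · rw [if_neg (fun h => h4 (h3.1 h)), if_neg h4, mul_zero]
    rw [sum_congr rfl h2, sum_ite_eq']
    by_cases hP : P (n % M)
    · rw [if_pos hP, if_pos]
      rw [mem_filter, mem_range]; exact ⟨Nat.mod_lt _ hM, hP⟩
    · rw [if_neg hP, if_neg]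
      rw [mem_filter]; exact fun h => hP h.2
  have h5 : ∑ n ∈ Icc 1 N, (if P (n % M) then f n else 0) * ee ((n : ℝ) * α) =
      ∑ c ∈ (range M).filter P, ∑ t ∈ range M, (M : ℂ)⁻¹ * ee (-((t : ℝ) * (c / M))) *
        ∑ n ∈ Icc 1 N, f n * ee ((n : ℝ) * (α + t / M)) := by
    have e1 : ∀ n ∈ Icc 1 N, (if P (n % M) then f n else 0) * ee ((n : ℝ) * α) =
       ∑ c ∈ (range M).filter P, ∑ t ∈ range M, (M : ℂ)⁻¹ * ee (-((t : ℝ) * (c / M))) * (f n * ee ((n : ℝ) * (α + t / M))) := by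
      intro n _
      have e2 : (if P (n % M) then f n else 0) = (if P (n % M) then (1 : ℂ) else 0) * f n := by split_ifs <;> simp
      rw [e2, h1 n, sum_mul, sum_mul]
      apply sum_congr rfl; intro c _
      rw [mul_sum, sum_mul, sum_mul]
      apply sum_congr rfl; intro t _
      have e3 : ee ((t : ℝ) * ((((n : ℤ) - (c : ℤ) : ℤ) : ℝ) / M)) * ee ((n : ℝ) * α) =
          ee (-((t : ℝ) * (c / M))) * ee ((n : ℝ) * (α + t / M)) := by
        rw [← ee_add, ← ee_add]; congr 1; push_cast; field_simp; ring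
      calc _ = (M : ℂ)⁻¹ * f n * (ee ((t : ℝ) * ((((n : ℤ) - (c : ℤ) : ℤ) : ℝ) / M)) * ee ((n : ℝ) * α)) := by ring
        _ = _ := by rw [e3]; ring
    rw [sum_congr rfl e1, sum_comm]
    apply sum_congr rfl; intro c _
    rw [sum_comm]
    apply sum_congr rfl; intro t _
    rw [← mul_sum]
  rw [h5]
  calc _ ≤ ∑ c ∈ (range M).filter P, ∑ t ∈ range M, (M : ℝ)⁻¹ * K := by
        refine (norm_sum_le _ _).trans (sum_le_sum fun c _ => (norm_sum_le _ _).trans (sum_le_sum fun t _ => ?_))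
        rw [norm_mul, norm_mul, norm_ee, mul_one, norm_inv, Complex.norm_natCast]
        exact mul_le_mul_of_nonneg_left (hf _) (by positivity)
    _ = ((range M).filter P).card * K := by
        rw [sum_const, sum_const, card_range, nsmul_eq_mul, nsmul_eq_mul]; field_simp
    _ ≤ M * K := by
        have hK : 0 ≤ K := (norm_nonneg _).trans (hf 0)
        apply mul_le_mul_of_nonneg_right _ hK
        have := card_filter_le (range M) P
        rw [card_range] at this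
        exact_mod_cast this

/-- the values of the forms are free of primes up to `z` -/
noncomputable def RI (a b : Fin k → ℤ) (P : Finset ℕ) (n : ℕ) : ℝ := if ∀ p ∈ P, ¬ (p : ℤ) ∣ Fv a b (n : ℤ) then 1 else 0

lemma RI_nonneg (a b : Fin k → ℤ) (P : Finset ℕ) (n : ℕ) : 0 ≤ RI a b P n := by
  unfold RI; split_ifs <;> norm_num

lemma RI_le (a b : Fin k → ℤ) (P : Finset ℕ) (n : ℕ) : RI a b P n ≤ 1 := by
  unfold RI; split_ifs <;> norm_num

/-- the small primes of `D'` -/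
def sm (z D' : ℕ) : Finset ℕ := D'.primeFactors.filter (fun p => p ≤ z)

lemma sm_eq (z : ℕ) (S : Finset ℕ) (hS : ∀ p ∈ S, p.Prime ∧ p ≤ z) (D : ℕ) (hD0 : D ≠ 0) (hD : ∀ p, p.Prime → p ∣ D → z < p) :
    sm z ((∏ p ∈ S, p) * D) = S := by
  have h0 : ∏ p ∈ S, p ≠ 0 := prod_ne_zero_iff.2 fun p hp => (hS p hp).1.ne_zero
  ext p
  unfold sm
  rw [mem_filter, Nat.mem_primeFactors]
  constructor
  · rintro ⟨⟨hp, hpd, _⟩, hpz⟩
    rcases (Nat.Prime.dvd_mul hp).1 hpd with h | h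
    · rw [Prime.dvd_finsetProd_iff hp.prime] at h
      obtain ⟨q, hq, hpq⟩ := h
      rw [(Nat.prime_dvd_prime_iff_eq hp (hS q hq).1).1 hpq]; exact hq
    · have := hD p hp h
      omega
  · intro hp
    exact ⟨⟨(hS p hp).1, (dvd_prod_of_mem _ hp).mul_right _, mul_ne_zero h0 hD0⟩, (hS p hp).2⟩

noncomputable def cw (z : ℕ) (C : ℕ → ℝ) (D' : ℕ) : ℝ := (-1 : ℝ) ^ (sm z D').card * C (D' / ∏ p ∈ sm z D', p)

lemma dvd_comb (S : Finset ℕ) (z : ℕ) (hS : ∀ p ∈ S, p.Prime ∧ p ≤ z) (D : ℕ) (hD : ∀ p, p.Prime → p ∣ D → z < p) (F : ℤ) :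
    ((((∏ p ∈ S, p) * D : ℕ) : ℤ) ∣ F) ↔ (∀ p ∈ S, (p : ℤ) ∣ F) ∧ (D : ℤ) ∣ F := by
  simp only [Int.natCast_dvd]
  constructor
  · intro h
    exact ⟨fun p hp => (((dvd_prod_of_mem (fun p => p) hp).mul_right D).trans h), (Dvd.intro_left _ rfl).trans h⟩
  · rintro ⟨h1, h2⟩
    apply Nat.Coprime.mul_dvd_of_dvd_of_dvd _ _ h2
    · apply Nat.Coprime.prod_left
      intro p hp
      rw [Nat.Prime.coprime_iff_not_dvd (hS p hp).1]
      intro h
      have := hD p (hS p hp).1 h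
      have := (hS p hp).2
      omega
    · exact Finset.prod_primes_dvd _ (fun p hp => (hS p hp).1.prime) h1

lemma tau_prod (S : Finset ℕ) (hS : ∀ p ∈ S, p.Prime) : tau (∏ p ∈ S, p) ≤ 2 ^ S.card := by
  classical
  induction S using Finset.induction_on with
  | empty => simp [tau]
  | insert p S hp ih =>
    rw [prod_insert hp, card_insert_of_notMem hp, pow_succ, mul_comm (2 ^ S.card)]
    refine (tau_mul_le _ _).trans ?_
    apply mul_le_mul _ (ih fun q hq => hS q (mem_insert_of_mem hq)) (tau_nonneg _) (by norm_num)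
    unfold tau
    rw [(hS p (mem_insert_self _ _)).divisors, card_pair (hS p (mem_insert_self _ _)).one_lt.ne]
    norm_num

section Comb
variable (z : ℕ) (Pg : Finset ℕ) (r : ℕ) (𝒟 : Finset ℕ)

def SS : Finset (Finset ℕ) := Pg.powerset.filter (fun S => S.card < r)

noncomputable def DD' : Finset ℕ := by classical exact (SS Pg r ×ˢ 𝒟).image (fun x => (∏ p ∈ x.1, p) * x.2)

end Comb

lemma SS_sum (Pg : Finset ℕ) (r : ℕ) (g : Finset ℕ → ℝ) :
    ∑ j ∈ range r, (-1 : ℝ) ^ j * ∑ S ∈ Pg.powersetCard j, g S = ∑ S ∈ SS Pg r, (-1 : ℝ) ^ S.card * g S := by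
  classical
  have hmaps : ∀ S ∈ SS Pg r, S.card ∈ range r := by
    intro S hS
    rw [SS, mem_filter] at hS
    exact mem_range.2 hS.2
  rw [← sum_fiberwise_of_maps_to hmaps]
  apply sum_congr rfl
  intro j hj
  rw [mem_range] at hj
  rw [mul_sum]
  apply sum_congr
  · ext S
    simp only [SS, mem_filter, mem_powersetCard, mem_powerset]
    constructor
    · rintro ⟨h1, h2⟩; exact ⟨⟨h1, by omega⟩, h2⟩
    · rintro ⟨⟨h1, _⟩, h2⟩; exact ⟨h1, h2⟩
  · intro S hS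
    rw [(mem_filter.1 hS).2] 

lemma WW_comb (a b : Fin k → ℤ) (z : ℕ) (Pg : Finset ℕ) (hPg : ∀ p ∈ Pg, p.Prime ∧ p ≤ z) (r : ℕ) (𝒟 : Finset ℕ) (C : ℕ → ℝ)
    (h0 : ∀ D ∈ 𝒟, D ≠ 0) (h𝒟 : ∀ D ∈ 𝒟, ∀ p, p.Prime → p ∣ D → z < p) (n : ℕ) :
    WW a b (DD' Pg r 𝒟) (cw z C) n =
      (∑ j ∈ range r, (-1 : ℝ) ^ j * ∑ S ∈ Pg.powersetCard j, if ∀ p ∈ S, (p : ℤ) ∣ Fv a b (n : ℤ) then (1 : ℝ) else 0) *
        WW a b 𝒟 C n := by
  classical
  have hSS : ∀ S ∈ SS Pg r, ∀ p ∈ S, p.Prime ∧ p ≤ z := by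
    intro S hS p hp
    rw [SS, mem_filter, mem_powerset] at hS
    exact hPg p (hS.1 hp)
  rw [SS_sum]
  unfold WW
  rw [sum_mul_sum, ← sum_product']
  unfold DD'
  rw [sum_image]
  · apply sum_congr rfl
    rintro ⟨S, D⟩ hSD
    rw [mem_product] at hSD
    have hS := hSS S hSD.1
    have hD := h𝒟 D hSD.2
    have hD0 := h0 D hSD.2
    simp only
    have e1 := sm_eq z S hS D hD0 hD
    have e2 : cw z C ((∏ p ∈ S, p) * D) = (-1 : ℝ) ^ S.card * C D := by
      unfold cw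
      rw [e1, Nat.mul_div_cancel_left]
      exact prod_pos fun p hp => (hS p hp).1.pos
    rw [e2]
    by_cases h1 : ∀ p ∈ S, (p : ℤ) ∣ Fv a b (n : ℤ)
    · by_cases h2 : (D : ℤ) ∣ Fv a b (n : ℤ)
      · rw [if_pos ((dvd_comb S z hS D hD _).2 ⟨h1, h2⟩), if_pos h1, if_pos h2]; ring
      · rw [if_neg (fun h => h2 ((dvd_comb S z hS D hD _).1 h).2), if_neg h2]; ring
    · rw [if_neg (fun h => h1 ((dvd_comb S z hS D hD _).1 h).1), if_neg h1]; ring
  · rintro ⟨S, D⟩ h ⟨S', D'⟩ h' heq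
    rw [mem_coe, mem_product] at h h'
    simp only at heq h h'
    have e1 := sm_eq z S (hSS S h.1) D (h0 D h.2) (h𝒟 D h.2)
    have e2 := sm_eq z S' (hSS S' h'.1) D' (h0 D' h'.2) (h𝒟 D' h'.2)
    have e3 : S = S' := by rw [← e1, ← e2, heq]
    subst e3
    have hpos : 0 < ∏ p ∈ S, p := prod_pos fun p hp => (hSS S h.1 p hp).1.pos
    rw [Nat.eq_of_mul_eq_mul_left hpos heq]

lemma adm_comb (b : Fin k → ℤ) (z : ℕ) (hz : 1 ≤ z) (Pg : Finset ℕ) (hPg : ∀ p ∈ Pg, p.Prime ∧ p ≤ z)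
    (hPb : ∀ p ∈ Pg, ¬ (p : ℤ) ∣ ∏ j, b j) (r : ℕ) (W : ℕ) (𝒟 : Finset ℕ) (C : ℕ → ℝ) (h : Adm b W 𝒟 C)
    (h𝒟 : ∀ D ∈ 𝒟, ∀ p, p.Prime → p ∣ D → z < p) : Adm b (z ^ r * W) (DD' Pg r 𝒟) (cw z C) := by
  classical
  have hSS : ∀ S ∈ SS Pg r, ∀ p ∈ S, p.Prime ∧ p ≤ z := by
    intro S hS p hp
    rw [SS, mem_filter, mem_powerset] at hS
    exact hPg p (hS.1 hp)
  have hmem : ∀ D' ∈ DD' Pg r 𝒟, ∃ S ∈ SS Pg r, ∃ D ∈ 𝒟, D' = (∏ p ∈ S, p) * D := by
    intro D' hD'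
    unfold DD' at hD'
    rw [mem_image] at hD'
    obtain ⟨⟨S, D⟩, hSD, rfl⟩ := hD'
    rw [mem_product] at hSD
    exact ⟨S, hSD.1, D, hSD.2, rfl⟩
  have hle : ∀ S ∈ SS Pg r, ∏ p ∈ S, p ≤ z ^ r := by
    intro S hS
    calc ∏ p ∈ S, p ≤ ∏ _p ∈ S, z := prod_le_prod' fun p hp => (hSS S hS p hp).2
      _ = z ^ S.card := prod_const _
      _ ≤ z ^ r := by
          apply Nat.pow_le_pow_right hz
          rw [SS, mem_filter] at hS
          exact hS.2.le
  refine ⟨?_, ?_, ?_, ?_⟩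
  · intro D' hD'
    obtain ⟨S, hS, D, hD, rfl⟩ := hmem D' hD'
    have h1 := mem_Icc.1 (h.sub hD)
    rw [mem_Icc]
    exact ⟨Nat.mul_pos (prod_pos fun p hp => (hSS S hS p hp).1.pos) h1.1, Nat.mul_le_mul (hle S hS) h1.2⟩
  · intro D' hD'
    obtain ⟨S, hS, D, hD, rfl⟩ := hmem D' hD'
    rw [Nat.squarefree_mul]
    · refine ⟨?_, h.sq D hD⟩
      exact Finset.squarefree_prod_of_pairwise_isCoprime (fun p hp q hq hpq => by
        exact Nat.coprime_iff_isRelPrime.1 ((Nat.coprime_primes (hSS S hS p hp).1 (hSS S hS q hq).1).2 hpq)) (fun p hp => (hSS S hS p hp).1.prime.squarefree)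
    · apply Nat.Coprime.prod_left
      intro p hp
      rw [Nat.Prime.coprime_iff_not_dvd (hSS S hS p hp).1]
      intro hd
      have := h𝒟 D hD p (hSS S hS p hp).1 hd
      have := (hSS S hS p hp).2
      omega
  · intro D' hD'
    obtain ⟨S, hS, D, hD, rfl⟩ := hmem D' hD'
    intro p hp hpd
    rcases (Nat.Prime.dvd_mul hp).1 hpd with h1 | h1
    · rw [Prime.dvd_finsetProd_iff hp.prime] at h1
      obtain ⟨q, hq, hpq⟩ := h1
      rw [(Nat.prime_dvd_prime_iff_eq hp (hSS S hS q hq).1).1 hpq]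
      rw [SS, mem_filter, mem_powerset] at hS
      exact hPb q (hS.1 hq)
    · exact h.cb D hD p hp h1
  · intro D' hD'
    obtain ⟨S, hS, D, hD, rfl⟩ := hmem D' hD'
    have e1 := sm_eq z S (hSS S hS) D (by have := (mem_Icc.1 (h.sub hD)).1; omega) (h𝒟 D hD)
    unfold cw
    rw [e1, Nat.mul_div_cancel_left _ (prod_pos fun p hp => (hSS S hS p hp).1.pos), abs_mul, abs_pow, abs_neg, abs_one, one_pow, one_mul]
    exact h.bd D hD

/-- the tail of the pure sieve, with the given weights -/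
lemma tail_comb (a b : Fin k → ℤ) (z : ℕ) (hz : 1 ≤ z) (Pg : Finset ℕ) (hPg : ∀ p ∈ Pg, p.Prime ∧ p ≤ z)
    (hPb : ∀ p ∈ Pg, ¬ (p : ℤ) ∣ ∏ j, b j) (r : ℕ) (W : ℕ) (𝒟 : Finset ℕ) (C : ℕ → ℝ) (h : Adm b W 𝒟 C)
    (h𝒟 : ∀ D ∈ 𝒟, ∀ p, p.Prime → p ∣ D → z < p) (N : ℕ) (hN : z ^ r * W ≤ N) :
    ∑ n ∈ Icc 1 N, (∑ S ∈ Pg.powersetCard r, if ∀ p ∈ S, (p : ℤ) ∣ Fv a b (n : ℤ) then (1 : ℝ) else 0) * |WW a b 𝒟 C n| ≤
      6 * N * es (fun p => 2 ^ k / p) Pg r * (1 + Real.log W) ^ (2 ^ k) := by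
  classical
  have hSS : ∀ S ∈ Pg.powersetCard r, (∀ p ∈ S, p.Prime ∧ p ≤ z) ∧ S.card = r := by
    intro S hS
    rw [mem_powersetCard] at hS
    exact ⟨fun p hp => hPg p (hS.1 hp), hS.2⟩
  calc _ ≤ ∑ n ∈ Icc 1 N, ∑ S ∈ Pg.powersetCard r, ∑ D ∈ 𝒟,
        (if (((∏ p ∈ S, p) * D : ℕ) : ℤ) ∣ Fv a b (((1 * n : ℕ)) : ℤ) then (1 : ℝ) else 0) := by
        apply sum_le_sum; intro n _
        rw [one_mul, sum_mul]
        apply sum_le_sum; intro S hS
        have h1 : |WW a b 𝒟 C n| ≤ ∑ D ∈ 𝒟, (if (D : ℤ) ∣ Fv a b (n : ℤ) then (1 : ℝ) else 0) := by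
          unfold WW
          refine (abs_sum_le_sum_abs _ _).trans (sum_le_sum fun D hD => ?_)
          split_ifs
          · exact h.bd D hD
          · rw [abs_zero]
        by_cases h2 : ∀ p ∈ S, (p : ℤ) ∣ Fv a b (n : ℤ)
        · rw [if_pos h2, one_mul]
          refine h1.trans (le_of_eq ?_)
          apply sum_congr rfl; intro D hD
          by_cases h3 : (D : ℤ) ∣ Fv a b (n : ℤ)
          · rw [if_pos h3, if_pos ((dvd_comb S z (hSS S hS).1 D (h𝒟 D hD) _).2 ⟨h2, h3⟩)]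
          · rw [if_neg h3, if_neg (fun h => h3 ((dvd_comb S z (hSS S hS).1 D (h𝒟 D hD) _).1 h).2)]
        · rw [if_neg h2, zero_mul]
          exact sum_nonneg fun D _ => by split_ifs <;> norm_num
    _ = ∑ S ∈ Pg.powersetCard r, ∑ D ∈ 𝒟, (((Icc 1 N).filter (fun n => (((∏ p ∈ S, p) * D : ℕ) : ℤ) ∣ Fv a b (((1 * n : ℕ)) : ℤ))).card : ℝ) := by
        rw [sum_comm]
        apply sum_congr rfl; intro S _
        rw [sum_comm]
        apply sum_congr rfl; intro D _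
        rw [card_filter]; push_cast; rfl
    _ ≤ ∑ S ∈ Pg.powersetCard r, ∑ D ∈ 𝒟, (6 * N * ∏ p ∈ S, ((2 : ℝ) ^ k / p)) * (tau D ^ k / D) := by
        apply sum_le_sum; intro S hS
        apply sum_le_sum; intro D hD
        have hDW := mem_Icc.1 (h.sub hD)
        have hpos : 0 < ∏ p ∈ S, p := prod_pos fun p hp => ((hSS S hS).1 p hp).1.pos
        have hle : ∏ p ∈ S, p ≤ z ^ r := by
          calc ∏ p ∈ S, p ≤ ∏ _p ∈ S, z := prod_le_prod' fun p hp => ((hSS S hS).1 p hp).2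
            _ = z ^ r := by rw [prod_const, (hSS S hS).2]
        have hDN : (∏ p ∈ S, p) * D ≤ N := (Nat.mul_le_mul hle hDW.2).trans hN
        have hsq : Squarefree ((∏ p ∈ S, p) * D) := by
          rw [Nat.squarefree_mul]
          · refine ⟨?_, h.sq D hD⟩
            exact Finset.squarefree_prod_of_pairwise_isCoprime (fun p hp q hq hpq => by
              exact Nat.coprime_iff_isRelPrime.1 ((Nat.coprime_primes ((hSS S hS).1 p hp).1 ((hSS S hS).1 q hq).1).2 hpq)) (fun p hp => ((hSS S hS).1 p hp).1.prime.squarefree)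
          · apply Nat.Coprime.prod_left
            intro p hp
            rw [Nat.Prime.coprime_iff_not_dvd ((hSS S hS).1 p hp).1]
            intro hd
            have := h𝒟 D hD p ((hSS S hS).1 p hp).1 hd
            have := ((hSS S hS).1 p hp).2
            omega
        have hcb : CB b ((∏ p ∈ S, p) * D) := by
          intro p hp hpd
          rcases (Nat.Prime.dvd_mul hp).1 hpd with h1 | h1
          · rw [Prime.dvd_finsetProd_iff hp.prime] at h1
            obtain ⟨q, hq, hpq⟩ := h1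
            rw [(Nat.prime_dvd_prime_iff_eq hp ((hSS S hS).1 q hq).1).1 hpq]
            rw [mem_powersetCard] at hS
            exact hPb q (hS.1 hq)
          · exact h.cb D hD p hp h1
        refine (cnt_root a hsq hcb 1 N).trans ?_
        have h1 : tau ((∏ p ∈ S, p) * D) ^ k ≤ (2 ^ r * tau D) ^ k := by
          apply pow_le_pow_left₀ (tau_nonneg _)
          refine (tau_mul_le _ _).trans (mul_le_mul_of_nonneg_right ?_ (tau_nonneg _))
          have := tau_prod S (fun p hp => ((hSS S hS).1 p hp).1)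
          rwa [(hSS S hS).2] at this
        have hD'0 : (0 : ℝ) < (((∏ p ∈ S, p) * D : ℕ) : ℝ) := by exact_mod_cast Nat.mul_pos hpos hDW.1
        have h2 : (1 : ℝ) ≤ (N : ℝ) / (((∏ p ∈ S, p) * D : ℕ) : ℝ) := by
          rw [le_div_iff₀ hD'0, one_mul]; exact_mod_cast hDN
        calc tau ((∏ p ∈ S, p) * D) ^ k * (3 * ((N : ℝ) / (((∏ p ∈ S, p) * D : ℕ) : ℝ) + 1)) ≤
              (2 ^ r * tau D) ^ k * (6 * ((N : ℝ) / (((∏ p ∈ S, p) * D : ℕ) : ℝ))) := by
              apply mul_le_mul h1 (by linarith) (by positivity)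
              have := tau_nonneg D
              positivity
          _ = _ := by
              have e : ∏ p ∈ S, ((2 : ℝ) ^ k / p) = (2 ^ r) ^ k / ∏ p ∈ S, (p : ℝ) := by
                rw [prod_div_distrib, prod_const, (hSS S hS).2, ← pow_mul, ← pow_mul, mul_comm k r]
              rw [e]
              push_cast
              rw [mul_pow]
              have h3 : (∏ p ∈ S, (p : ℝ)) ≠ 0 := by
                have : (0 : ℝ) < ((∏ p ∈ S, p : ℕ) : ℝ) := by exact_mod_cast hpos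
                push_cast at this
                exact this.ne'
              have h4 : (D : ℝ) ≠ 0 := by
                have : (0 : ℝ) < D := by exact_mod_cast hDW.1
                exact this.ne'
              field_simp
    _ = 6 * N * es (fun p => 2 ^ k / p) Pg r * ∑ D ∈ 𝒟, tau D ^ k / D := by
        unfold es
        have e : ∀ S ∈ Pg.powersetCard r, ∑ D ∈ 𝒟, (6 * N * ∏ p ∈ S, ((2 : ℝ) ^ k / p)) * (tau D ^ k / D) =
            (∏ p ∈ S, ((2 : ℝ) ^ k / p)) * (6 * N * ∑ D ∈ 𝒟, tau D ^ k / D) := by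
          intro S _; rw [← mul_sum]; ring
        rw [sum_congr rfl e, ← sum_mul]; ring
    _ ≤ _ := by
        apply mul_le_mul_of_nonneg_left _ (mul_nonneg (by positivity) (es_nonneg (fun p _ => by positivity) r))
        refine le_trans ?_ (tau_moment k W)
        apply sum_le_sum_of_subset_of_nonneg h.sub
        intro D _ _
        exact div_nonneg (pow_nonneg (tau_nonneg _) _) (Nat.cast_nonneg _)


theorem sup_R (k U : ℕ) : ∃ B : ℕ, ∀ E : ℕ, ∃ N0 : ℕ, ∀ N : ℕ, N0 ≤ N → ∀ z : ℕ, Real.log N ^ B ≤ z →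
    (z : ℝ) ≤ Real.log N ^ E → ∀ (a b : Fin k → ℤ) (W : ℕ) (𝒟 : Finset ℕ) (C : ℕ → ℝ),
    1 ≤ W → W ^ 32 ≤ N → Adm b W 𝒟 C → (∀ D ∈ 𝒟, ∀ p, p.Prime → p ∣ D → z < p) → (∏ j, b j) ≠ 0 →
    ((∏ j, b j).natAbs : ℝ) ≤ Real.log N → ∀ α : ℝ,
    ‖∑ n ∈ Icc 1 N, (((ArithmeticFunction.vonMangoldt n - lamz z n) * (RI a b (pz z) n * WW a b 𝒟 C n) : ℝ) : ℂ) * ee ((n : ℝ) * α)‖ ≤
      N / Real.log N ^ U := by
  classical
  obtain ⟨B, hsup⟩ := sup_W k (U + 2)
  refine ⟨B, fun E => ?_⟩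
  set U' : ℕ := U + 2 + 2 ^ k + 2 with hU'
  obtain ⟨m1, h1⟩ := hsup E
  obtain ⟨m2, h2⟩ := choice (2 ^ k) E U' 32
  obtain ⟨m3, h3⟩ := Vz_inv_small E
  obtain ⟨m4, h4⟩ := ev_L' (12 * 2 ^ (2 ^ k) + 2)
  refine ⟨max (max m1 m2) (max m3 (max m4 2)), fun N hN z hz1 hz2 a b W 𝒟 C hW hWN hAdm h𝒟 hb0 hbN α => ?_⟩
  have a1 := h1 N (le_trans (le_trans (le_max_left _ _) (le_max_left _ _)) hN) z hz1 hz2
  obtain ⟨r, hr1, hr2, _⟩ := h2 N (le_trans (le_trans (le_max_right _ _) (le_max_left _ _)) hN) z hz2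
  have a3 := h3 N (le_trans (le_trans (le_max_left _ _) (le_max_right _ _)) hN) z
  have hL := h4 N (le_trans (le_trans (le_trans (le_max_left _ _) (le_max_right _ _)) (le_max_right _ _)) hN)
  have hN2 : 2 ≤ N := le_trans (le_trans (le_trans (le_max_right _ _) (le_max_right _ _)) (le_max_right _ _)) hN
  have hNr : (2 : ℝ) ≤ N := by exact_mod_cast hN2
  have hN0 : (0 : ℝ) < N := by linarith
  set ℓ := Real.log N with hℓ
  have p1 : (0 : ℝ) < 2 ^ (2 ^ k) := by positivity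
  have hℓ2 : 2 ≤ ℓ := by linarith
  have hℓ1 : 1 ≤ ℓ := by linarith
  have hℓ0 : 0 < ℓ := by linarith
  have hz : 1 ≤ z := by
    have : (1 : ℝ) ≤ z := (one_le_pow₀ hℓ1).trans hz1
    exact_mod_cast this
  have hVi := a3 hz hz2
  have hVi0 : 0 < (Vz z)⁻¹ := inv_pos.2 (Vz_pos z)
  set Pg : Finset ℕ := (pz z).filter (fun p : ℕ => ¬ (p : ℤ) ∣ ∏ j, b j) with hPg
  set Pb : Finset ℕ := (pz z).filter (fun p : ℕ => (p : ℤ) ∣ ∏ j, b j) with hPb
  have hPg1 : ∀ p ∈ Pg, p.Prime ∧ p ≤ z := by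
    intro p hp
    rw [hPg, mem_filter, mem_pz] at hp
    exact ⟨hp.1.2, hp.1.1⟩
  have hPg2 : ∀ p ∈ Pg, ¬ (p : ℤ) ∣ ∏ j, b j := by
    intro p hp
    rw [hPg, mem_filter] at hp
    exact hp.2
  set M := ∏ p ∈ Pb, p with hM
  have hPb1 : ∀ p ∈ Pb, p.Prime := by
    intro p hp
    rw [hPb, mem_filter, mem_pz] at hp
    exact hp.1.2
  have hM1 : 1 ≤ M := prod_pos fun p hp => (hPb1 p hp).pos
  have hMb : M ∣ (∏ j, b j).natAbs := by
    apply Finset.prod_primes_dvd _ (fun p hp => (hPb1 p hp).prime)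
    intro p hp
    rw [hPb, mem_filter] at hp
    exact Int.natCast_dvd.1 hp.2
  have hMℓ : (M : ℝ) ≤ ℓ := by
    refine le_trans ?_ hbN
    have := Nat.le_of_dvd (Int.natAbs_pos.2 hb0) hMb
    exact_mod_cast this
  -- sizes
  have hx1 : (((z + 1) ^ r) ^ 32 : ℕ) ≤ N := by
    have : ((((z + 1) ^ r) ^ 32 : ℕ) : ℝ) ≤ N := by push_cast; exact hr2
    exact_mod_cast this
  have hzr : (z ^ r * W) ^ 16 ≤ N := by
    have g1 : ((z ^ r) ^ 16) * ((z ^ r) ^ 16) ≤ N := by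
      calc ((z ^ r) ^ 16) * ((z ^ r) ^ 16) = (z ^ r) ^ 32 := by rw [← pow_add]
        _ ≤ ((z + 1) ^ r) ^ 32 := Nat.pow_le_pow_left (Nat.pow_le_pow_left (by omega) _) _
        _ ≤ N := hx1
    have g2 : (W ^ 16) * (W ^ 16) ≤ N := by
      calc (W ^ 16) * (W ^ 16) = W ^ 32 := by rw [← pow_add]
        _ ≤ N := hWN
    rw [mul_pow]
    by_contra hcon
    push Not at hcon
    nlinarith [Nat.mul_lt_mul'' hcon hcon, Nat.mul_le_mul g1 g2]
  have hzrN : z ^ r * W ≤ N := by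
    refine le_trans ?_ hzr
    exact Nat.le_self_pow (by norm_num) _
  have hWN' : W ≤ N := by
    refine le_trans ?_ hWN
    exact Nat.le_self_pow (by norm_num) _
  have hWℓ : 1 + Real.log W ≤ 2 * ℓ := by
    have h5 : Real.log W ≤ ℓ := Real.log_le_log (by exact_mod_cast hW) (by exact_mod_cast hWN')
    linarith
  have hW0 : 0 ≤ Real.log W := Real.log_natCast_nonneg _
  have hAdm' := adm_comb b z hz Pg hPg1 hPg2 r W 𝒟 C hAdm h𝒟
  have hmain := a1 a b (z ^ r * W) (DD' Pg r 𝒟) (cw z C) (Nat.mul_pos (Nat.pow_pos hz) hW) hzr hAdm'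
  have hes : es (fun p => 2 ^ k / p) Pg r ≤ 1 / ℓ ^ U' := by
    refine (es_le (fun p _ => by positivity) r).trans (le_trans ?_ hr1)
    apply Real.exp_le_exp.2
    have g1 : ∑ p ∈ Pg, (2 : ℝ) ^ k / p ≤ 2 ^ k * (1 + Real.log z) := by
      calc ∑ p ∈ Pg, (2 : ℝ) ^ k / p ≤ ∑ p ∈ pz z, (2 : ℝ) ^ k / p :=
            sum_le_sum_of_subset_of_nonneg (filter_subset _ _) (fun p _ _ => by positivity)
        _ = 2 ^ k * ∑ p ∈ pz z, 1 / (p : ℝ) := by rw [mul_sum]; apply sum_congr rfl; intro p _; ring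
        _ ≤ _ := mul_le_mul_of_nonneg_left (sum_pz_le z) (by positivity)
    push_cast
    linarith
  -- the good primes
  have hgood : ∀ β : ℝ, ‖∑ n ∈ Icc 1 N, (((ArithmeticFunction.vonMangoldt n - lamz z n) * (RI a b Pg n * WW a b 𝒟 C n) : ℝ) : ℂ) * ee ((n : ℝ) * β)‖ ≤
      N / ℓ ^ (U + 1) := by
    intro β
    have e1 : ∑ n ∈ Icc 1 N, (((ArithmeticFunction.vonMangoldt n - lamz z n) * (RI a b Pg n * WW a b 𝒟 C n) : ℝ) : ℂ) * ee ((n : ℝ) * β) =
        ∑ n ∈ Icc 1 N, (((ArithmeticFunction.vonMangoldt n - lamz z n) * WW a b (DD' Pg r 𝒟) (cw z C) n : ℝ) : ℂ) * ee ((n : ℝ) * β) +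
        ∑ n ∈ Icc 1 N, (((ArithmeticFunction.vonMangoldt n - lamz z n) * (RI a b Pg n * WW a b 𝒟 C n - WW a b (DD' Pg r 𝒟) (cw z C) n) : ℝ) : ℂ) * ee ((n : ℝ) * β) := by
      rw [← sum_add_distrib]
      apply sum_congr rfl; intro n _
      push_cast; ring
    rw [e1]
    refine (norm_add_le _ _).trans ?_
    have g1 := hmain β
    have g2 : ‖∑ n ∈ Icc 1 N, (((ArithmeticFunction.vonMangoldt n - lamz z n) * (RI a b Pg n * WW a b 𝒟 C n - WW a b (DD' Pg r 𝒟) (cw z C) n) : ℝ) : ℂ) * ee ((n : ℝ) * β)‖ ≤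
        N / ℓ ^ (U + 2) := by
      calc _ ≤ ∑ n ∈ Icc 1 N, 2 * ℓ * ((∑ S ∈ Pg.powersetCard r, if ∀ p ∈ S, (p : ℤ) ∣ Fv a b (n : ℤ) then (1 : ℝ) else 0) * |WW a b 𝒟 C n|) := by
            refine (norm_sum_le _ _).trans (sum_le_sum fun n hn => ?_)
            rw [mem_Icc] at hn
            rw [norm_mul, norm_ee, mul_one, Complex.norm_real, Real.norm_eq_abs, abs_mul]
            have t1 : |(ArithmeticFunction.vonMangoldt n - lamz z n)| ≤ 2 * ℓ := by
              have t2 : |(ArithmeticFunction.vonMangoldt n : ℝ)| ≤ ℓ := by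
                rw [abs_of_nonneg ArithmeticFunction.vonMangoldt_nonneg]
                refine ArithmeticFunction.vonMangoldt_le_log.trans ?_
                exact Real.log_le_log (by exact_mod_cast hn.1) (by exact_mod_cast hn.2)
              have t3 : |lamz z n| ≤ ℓ := by
                rw [abs_of_nonneg (lamz_nonneg z n)]
                unfold lamz
                split_ifs
                · exact hVi
                · exact hℓ0.le
              refine (abs_sub _ _).trans ?_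
              linarith
            have t4 : |RI a b Pg n * WW a b 𝒟 C n - WW a b (DD' Pg r 𝒟) (cw z C) n| ≤
                (∑ S ∈ Pg.powersetCard r, if ∀ p ∈ S, (p : ℤ) ∣ Fv a b (n : ℤ) then (1 : ℝ) else 0) * |WW a b 𝒟 C n| := by
              rw [WW_comb a b z Pg hPg1 r 𝒟 C (fun D hD => by have := (mem_Icc.1 (hAdm.sub hD)).1; omega) h𝒟 n, ← sub_mul, abs_mul]
              apply mul_le_mul_of_nonneg_right _ (abs_nonneg _)
              have := bonf_ind (fun p (n : ℕ) => (p : ℤ) ∣ Fv a b (n : ℤ)) Pg r n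
              refine le_trans (le_of_eq ?_) (le_trans this (le_of_eq ?_))
              · congr 1
                congr 1
                · unfold RI
                  by_cases hh : ∀ p ∈ Pg, ¬ (p : ℤ) ∣ Fv a b (n : ℤ)
                  · rw [if_pos hh, if_pos hh]
                  · rw [if_neg hh, if_neg hh]
                · apply sum_congr rfl; intro j _
                  congr 1
                  apply sum_congr rfl; intro S _
                  by_cases hh : ∀ p ∈ S, (p : ℤ) ∣ Fv a b (n : ℤ)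
                  · rw [if_pos hh, if_pos hh]
                  · rw [if_neg hh, if_neg hh]
              · apply sum_congr rfl; intro S _
                by_cases hh : ∀ p ∈ S, (p : ℤ) ∣ Fv a b (n : ℤ)
                · rw [if_pos hh, if_pos hh]
                · rw [if_neg hh, if_neg hh]
            exact mul_le_mul t1 t4 (abs_nonneg _) (by positivity)
        _ = 2 * ℓ * ∑ n ∈ Icc 1 N, (∑ S ∈ Pg.powersetCard r, if ∀ p ∈ S, (p : ℤ) ∣ Fv a b (n : ℤ) then (1 : ℝ) else 0) * |WW a b 𝒟 C n| := by rw [mul_sum]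
        _ ≤ 2 * ℓ * (6 * N * es (fun p => 2 ^ k / p) Pg r * (1 + Real.log W) ^ (2 ^ k)) :=
            mul_le_mul_of_nonneg_left (tail_comb a b z hz Pg hPg1 hPg2 r W 𝒟 C hAdm h𝒟 N hzrN) (by positivity)
        _ ≤ 2 * ℓ * (6 * N * (1 / ℓ ^ U') * (2 * ℓ) ^ (2 ^ k)) := by
            apply mul_le_mul_of_nonneg_left _ (by positivity)
            apply mul_le_mul _ (pow_le_pow_left₀ (by linarith) hWℓ _) (by positivity) (by positivity)
            exact mul_le_mul_of_nonneg_left hes (by positivity)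
        _ = (12 * 2 ^ (2 ^ k) / ℓ) * (N / ℓ ^ (U + 2)) := by
            rw [hU', mul_pow, show U + 2 + 2 ^ k + 2 = (U + 2) + 2 ^ k + 1 + 1 by ring, pow_succ, pow_succ, pow_add ℓ (U + 2)]
            field_simp
            ring
        _ ≤ 1 * (N / ℓ ^ (U + 2)) := by
            apply mul_le_mul_of_nonneg_right _ (by positivity)
            rw [div_le_one hℓ0]
            linarith
        _ = _ := one_mul _
    calc _ ≤ N / ℓ ^ (U + 2) + N / ℓ ^ (U + 2) := add_le_add g1 g2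
      _ = (2 / ℓ) * (N / ℓ ^ (U + 1)) := by rw [show U + 2 = U + 1 + 1 by ring, pow_succ]; field_simp; ring
      _ ≤ 1 * (N / ℓ ^ (U + 1)) := by
          apply mul_le_mul_of_nonneg_right _ (by positivity)
          rw [div_le_one hℓ0]; exact hℓ2
      _ = _ := one_mul _
  -- the bad primes
  have hfin := ap_sup M hM1 N (fun n => (((ArithmeticFunction.vonMangoldt n - lamz z n) * (RI a b Pg n * WW a b 𝒟 C n) : ℝ) : ℂ))
    (fun c => ∀ p ∈ Pb, ¬ (p : ℤ) ∣ Fv a b (c : ℤ)) (N / ℓ ^ (U + 1)) hgood α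
  have e2 : ∑ n ∈ Icc 1 N, (((ArithmeticFunction.vonMangoldt n - lamz z n) * (RI a b (pz z) n * WW a b 𝒟 C n) : ℝ) : ℂ) * ee ((n : ℝ) * α) =
      ∑ n ∈ Icc 1 N, (if (∀ p ∈ Pb, ¬ (p : ℤ) ∣ Fv a b ((n % M : ℕ) : ℤ)) then
        (((ArithmeticFunction.vonMangoldt n - lamz z n) * (RI a b Pg n * WW a b 𝒟 C n) : ℝ) : ℂ) else 0) * ee ((n : ℝ) * α) := by
    apply sum_congr rfl
    intro n _
    congr 1
    have hiff : (∀ p ∈ Pb, ¬ (p : ℤ) ∣ Fv a b ((n % M : ℕ) : ℤ)) ↔ (∀ p ∈ Pb, ¬ (p : ℤ) ∣ Fv a b (n : ℤ)) := by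
      apply forall_congr'; intro p
      apply forall_congr'; intro hp
      rw [Fv_dvd_congr a b p (n := ((n % M : ℕ) : ℤ)) (n' := (n : ℤ))]
      have hpM : p ∣ M := dvd_prod_of_mem _ hp
      exact (Int.natCast_modEq_iff).2 ((Nat.mod_modEq n M).of_dvd hpM)
    by_cases hc : ∀ p ∈ Pb, ¬ (p : ℤ) ∣ Fv a b (n : ℤ)
    · rw [if_pos (hiff.2 hc)]
      congr 2
      congr 1
      unfold RI
      have : (∀ p ∈ pz z, ¬ (p : ℤ) ∣ Fv a b (n : ℤ)) ↔ (∀ p ∈ Pg, ¬ (p : ℤ) ∣ Fv a b (n : ℤ)) := by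
        constructor
        · intro h p hp; exact h p (filter_subset _ _ hp)
        · intro h p hp
          by_cases hpb : (p : ℤ) ∣ ∏ j, b j
          · exact hc p (mem_filter.2 ⟨hp, hpb⟩)
          · exact h p (mem_filter.2 ⟨hp, hpb⟩)
      by_cases h6 : ∀ p ∈ Pg, ¬ (p : ℤ) ∣ Fv a b (n : ℤ)
      · rw [if_pos h6, if_pos (this.2 h6)]
      · rw [if_neg h6, if_neg (fun h => h6 (this.1 h))]
    · rw [if_neg (fun h => hc (hiff.1 h))]
      have h6 : RI a b (pz z) n = 0 := by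
        unfold RI
        rw [if_neg]
        intro h
        exact hc fun p hp => h p (filter_subset _ _ hp)
      rw [h6]; simp
  rw [e2]
  refine hfin.trans ?_
  calc (M : ℝ) * (N / ℓ ^ (U + 1)) ≤ ℓ * (N / ℓ ^ (U + 1)) := mul_le_mul_of_nonneg_right hMℓ (by positivity)
    _ = N / ℓ ^ U := by rw [pow_succ]; field_simp

end Pool.Agent.H76.TB
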