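import Mathlib
import Pool.Agent.H76.TB.A10
import Pool.Agent.H76.VG.Lat
import Pool.Graph.R_pool_sql_team_seeded_b677cdb8.E8helper81.GB.EstA

/-! Linear equations in three variables: comparison by means of the circle method. -/

set_option autoImplicit false

open Finset

namespace Pool.Agent.H76.TB

open Pool.Agent.H807R2.Dav (ee norm_ee ee_add)
open Pool.Agent.H373R2.T7 (ev_log' ev_L' pz mem_pz Vz Vz_pos lamz lamz_nonneg Vz_inv_small)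
open Pool.Agent.H76.VG (Conv)

/-- the third variable -/
def n3 (c₁ c₂ m : ℤ) (t : ℕ × ℕ) : ℕ := (m - c₁ * t.1 - c₂ * t.2).toNat

/-- the solutions of `c₁ x + c₂ y + w = m` in `[1, X]`, given by `x` and `y` -/
def TG (c₁ c₂ m : ℤ) (X : ℕ) : Finset (ℕ × ℕ) :=
  (Icc 1 X ×ˢ Icc 1 X).filter (fun t => 1 ≤ m - c₁ * t.1 - c₂ * t.2 ∧ m - c₁ * t.1 - c₂ * t.2 ≤ X)

lemma mem_TG {c₁ c₂ m : ℤ} {X : ℕ} {t : ℕ × ℕ} : t ∈ TG c₁ c₂ m X ↔ (1 ≤ t.1 ∧ t.1 ≤ X) ∧ (1 ≤ t.2 ∧ t.2 ≤ X) ∧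
    1 ≤ m - c₁ * t.1 - c₂ * t.2 ∧ m - c₁ * t.1 - c₂ * t.2 ≤ X := by
  unfold TG
  rw [mem_filter, mem_product, mem_Icc, mem_Icc]
  tauto

lemma n3_cast {c₁ c₂ m : ℤ} {X : ℕ} {t : ℕ × ℕ} (h : t ∈ TG c₁ c₂ m X) : ((n3 c₁ c₂ m t : ℕ) : ℤ) = m - c₁ * t.1 - c₂ * t.2 := by
  rw [mem_TG] at h
  unfold n3
  exact Int.toNat_of_nonneg (by omega)

lemma n3_mem {c₁ c₂ m : ℤ} {X : ℕ} {t : ℕ × ℕ} (h : t ∈ TG c₁ c₂ m X) : n3 c₁ c₂ m t ∈ Icc 1 X := by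
  have h1 := n3_cast h
  rw [mem_TG] at h
  rw [mem_Icc]
  omega

/-- convex sets of natural numbers are intervals -/
lemma conv_ioo (A : Finset ℕ) (hA : ∀ x ∈ A, 1 ≤ x) (h : ∀ x ∈ A, ∀ y ∈ A, ∀ w, x ≤ w → w ≤ y → w ∈ A) :
    ∃ u v, ∀ w, w ∈ A ↔ w ∈ Ioo u v := by
  rcases A.eq_empty_or_nonempty with h0 | h0
  · exact ⟨0, 0, fun w => by rw [h0]; simp⟩
  · refine ⟨A.min' h0 - 1, A.max' h0 + 1, fun w => ?_⟩
    rw [mem_Ioo]
    have h1 := hA _ (A.min'_mem h0)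
    constructor
    · intro hw
      have h2 := A.min'_le w hw
      have h3 := A.le_max' w hw
      omega
    · intro hw
      exact h _ (A.min'_mem h0) _ (A.max'_mem h0) w (by omega) (by omega)

lemma lin_between (c : ℤ) (x y w : ℕ) (h1 : x ≤ w) (h2 : w ≤ y) (e l r : ℤ)
    (hx : l ≤ e - c * x ∧ e - c * x ≤ r) (hy : l ≤ e - c * y ∧ e - c * y ≤ r) : l ≤ e - c * w ∧ e - c * w ≤ r := by
  have g1 : (x : ℤ) ≤ w := by exact_mod_cast h1
  have g2 : (w : ℤ) ≤ y := by exact_mod_cast h2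
  rcases le_total 0 c with hc | hc
  · have q1 := mul_le_mul_of_nonneg_left g1 hc
    have q2 := mul_le_mul_of_nonneg_left g2 hc
    constructor <;> linarith [hx.1, hx.2, hy.1, hy.2]
  · have q1 := mul_le_mul_of_nonpos_left g1 hc
    have q2 := mul_le_mul_of_nonpos_left g2 hc
    constructor <;> linarith [hx.1, hx.2, hy.1, hy.2]

lemma TG_conv (c₁ c₂ m : ℤ) (X : ℕ) : Conv (TG c₁ c₂ m X) X := by
  classical
  refine ⟨filter_subset _ _, ?_, ?_⟩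
  · intro x
    have := conv_ioo ((Icc 1 X).filter (fun y => (x, y) ∈ TG c₁ c₂ m X)) (fun y hy => by
      rw [mem_filter, mem_Icc] at hy; exact hy.1.1) (by
      intro y hy y' hy' w h1 h2
      rw [mem_filter, mem_TG] at hy hy' ⊢
      simp only at hy hy' ⊢
      rw [mem_Icc] at hy hy' ⊢
      have := lin_between c₂ y y' w h1 h2 (m - c₁ * x) 1 X hy.2.2.2 hy'.2.2.2
      exact ⟨⟨by omega, by omega⟩, hy.2.1, ⟨by omega, by omega⟩, this⟩)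
    obtain ⟨u, v, h⟩ := this
    refine ⟨u, v, fun y => ?_⟩
    rw [← h y, mem_filter]
    constructor
    · intro hy
      refine ⟨?_, hy⟩
      rw [mem_TG] at hy
      rw [mem_Icc]; exact hy.2.1
    · exact fun hy => hy.2
  · intro y
    have := conv_ioo ((Icc 1 X).filter (fun x => (x, y) ∈ TG c₁ c₂ m X)) (fun x hx => by
      rw [mem_filter, mem_Icc] at hx; exact hx.1.1) (by
      intro x hx x' hx' w h1 h2
      rw [mem_filter, mem_TG] at hx hx' ⊢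
      simp only at hx hx' ⊢
      rw [mem_Icc] at hx hx' ⊢
      have := lin_between c₁ x x' w h1 h2 (m - c₂ * y) 1 X (by
        have := hx.2.2.2; constructor <;> linarith [this.1, this.2]) (by
        have := hx'.2.2.2; constructor <;> linarith [this.1, this.2])
      exact ⟨⟨by omega, by omega⟩, ⟨by omega, by omega⟩, hx.2.2.1, by constructor <;> linarith [this.1, this.2]⟩)
    obtain ⟨u, v, h⟩ := this
    refine ⟨u, v, fun x => ?_⟩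
    rw [← h x, mem_filter]
    constructor
    · intro hx
      refine ⟨?_, hx⟩
      rw [mem_TG] at hx
      rw [mem_Icc]; exact hx.1
    · exact fun hx => hx.2

/-- the Fourier transform -/
noncomputable def fh (X : ℕ) (u : ℕ → ℝ) (β : ℝ) : ℂ := ∑ n ∈ Icc 1 X, (u n : ℂ) * ee ((n : ℝ) * β)

lemma TG_four (X : ℕ) (c₁ c₂ m : ℤ) (R : ℕ) (hR : (|c₁| + |c₂| + 1) * X + |m| < R) (u v w : ℕ → ℝ) :
    (R : ℂ) * ((∑ t ∈ TG c₁ c₂ m X, u t.1 * v t.2 * w (n3 c₁ c₂ m t) : ℝ) : ℂ) =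
      ∑ j ∈ range R, fh X u ((j : ℝ) * (c₁ / R)) * fh X v ((j : ℝ) * (c₂ / R)) * fh X w ((j : ℝ) * (1 / R)) *
        ee ((j : ℝ) * (((-m : ℤ) : ℝ) / R)) := by
  have hR0' : (0 : ℤ) < R := by
    have h1 := abs_nonneg c₁
    have h2 := abs_nonneg c₂
    have h3 := abs_nonneg m
    have h4 : (0 : ℤ) ≤ X := Nat.cast_nonneg X
    have : 0 ≤ (|c₁| + |c₂| + 1) * X := by positivity
    omega
  have hR0 : 0 < R := by exact_mod_cast hR0'
  have h1 : ∀ j ∈ range R, fh X u ((j : ℝ) * (c₁ / R)) * fh X v ((j : ℝ) * (c₂ / R)) * fh X w ((j : ℝ) * (1 / R)) *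
        ee ((j : ℝ) * (((-m : ℤ) : ℝ) / R)) =
      ∑ a ∈ Icc 1 X, ∑ b ∈ Icc 1 X, ∑ c ∈ Icc 1 X,
        ((u a : ℂ) * (v b : ℂ) * (w c : ℂ)) * ee ((j : ℝ) * (((c₁ * a + c₂ * b + c - m : ℤ) : ℝ) / R)) := by
    intro j _
    unfold fh
    rw [sum_mul_sum, sum_mul, sum_mul]
    refine sum_congr rfl fun a _ => ?_
    rw [sum_mul, sum_mul]
    refine sum_congr rfl fun b _ => ?_
    rw [mul_sum, sum_mul]
    refine sum_congr rfl fun c _ => ?_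
    have : ee ((j : ℝ) * (((c₁ * a + c₂ * b + c - m : ℤ) : ℝ) / R)) =
        ee ((a : ℝ) * ((j : ℝ) * (c₁ / R))) * ee ((b : ℝ) * ((j : ℝ) * (c₂ / R))) * ee ((c : ℝ) * ((j : ℝ) * (1 / R))) *
          ee ((j : ℝ) * (((-m : ℤ) : ℝ) / R)) := by
      rw [← ee_add, ← ee_add, ← ee_add]; congr 1; push_cast; ring
    rw [this]; ring
  rw [sum_congr rfl h1]
  have h2 : ∑ j ∈ range R, ∑ a ∈ Icc 1 X, ∑ b ∈ Icc 1 X, ∑ c ∈ Icc 1 X,
        ((u a : ℂ) * (v b : ℂ) * (w c : ℂ)) * ee ((j : ℝ) * (((c₁ * a + c₂ * b + c - m : ℤ) : ℝ) / R)) =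
      ∑ a ∈ Icc 1 X, ∑ b ∈ Icc 1 X, ∑ c ∈ Icc 1 X, if c₁ * a + c₂ * b + c = m then (R : ℂ) * ((u a : ℂ) * (v b : ℂ) * (w c : ℂ)) else 0 := by
    rw [sum_comm]
    refine sum_congr rfl fun a ha => ?_
    rw [sum_comm]
    refine sum_congr rfl fun b hb => ?_
    rw [sum_comm]
    refine sum_congr rfl fun c hc => ?_
    rw [mem_Icc] at ha hb hc
    rw [← mul_sum, Pool.Agent.E8helper81.GB.orth R hR0 _ (by
      have ha' : ((a : ℤ)) ≤ X := by exact_mod_cast ha.2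
      have hb' : ((b : ℤ)) ≤ X := by exact_mod_cast hb.2
      have hc' : ((c : ℤ)) ≤ X := by exact_mod_cast hc.2
      have q1 : |c₁ * a| ≤ |c₁| * X := by
        rw [abs_mul, Nat.abs_cast]; exact mul_le_mul_of_nonneg_left ha' (abs_nonneg _)
      have q2 : |c₂ * b| ≤ |c₂| * X := by
        rw [abs_mul, Nat.abs_cast]; exact mul_le_mul_of_nonneg_left hb' (abs_nonneg _)
      have q3 : |(c : ℤ)| ≤ X := by rw [Nat.abs_cast]; exact hc'
      calc |c₁ * a + c₂ * b + c - m| ≤ |c₁ * a| + |c₂ * b| + |(c : ℤ)| + |m| := by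
            refine (abs_sub _ _).trans ?_
            have := abs_add_three (c₁ * a) (c₂ * b) (c : ℤ)
            linarith
        _ ≤ (|c₁| + |c₂| + 1) * X + |m| := by linarith
        _ < R := hR)]
    by_cases h : c₁ * a + c₂ * b + c = m
    · rw [if_pos h, if_pos (by linarith)]; ring
    · rw [if_neg h, if_neg (by intro h'; exact h (by linarith))]; ring
  rw [h2]
  push_cast
  rw [mul_sum, ← sum_product', ← sum_product', ← sum_filter]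
  symm
  refine sum_bij' (fun p _ => (p.1.1, p.1.2)) (fun t _ => ((t.1, t.2), n3 c₁ c₂ m t)) ?_ ?_ ?_ ?_ ?_
  · intro p hp
    rw [mem_filter, mem_product, mem_product, mem_Icc, mem_Icc, mem_Icc] at hp
    rw [mem_TG]
    dsimp only
    refine ⟨hp.1.1.1, hp.1.1.2, ?_⟩
    have h3 := hp.2
    have h4 := hp.1.2
    have : m - c₁ * p.1.1 - c₂ * p.1.2 = p.2 := by linarith
    rw [this]
    exact_mod_cast h4
  · intro t ht
    have h3 := n3_cast ht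
    have h4 := n3_mem ht
    rw [mem_TG] at ht
    rw [mem_filter, mem_product, mem_product, mem_Icc, mem_Icc]
    dsimp only
    exact ⟨⟨⟨ht.1, ht.2.1⟩, h4⟩, by rw [h3]; ring⟩
  · intro p hp
    rw [mem_filter, mem_product, mem_product, mem_Icc, mem_Icc, mem_Icc] at hp
    obtain ⟨⟨x, y⟩, w'⟩ := p
    dsimp only at hp ⊢
    simp only [Prod.mk.injEq, true_and]
    unfold n3
    dsimp only
    have : m - c₁ * x - c₂ * y = w' := by linarith [hp.2]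
    rw [this]; simp
  · intro t _
    rfl
  · intro p hp
    rw [mem_filter, mem_product, mem_product, mem_Icc, mem_Icc, mem_Icc] at hp
    obtain ⟨⟨x, y⟩, w'⟩ := p
    dsimp only at hp ⊢
    have : n3 c₁ c₂ m (x, y) = w' := by
      unfold n3
      dsimp only
      have : m - c₁ * x - c₂ * y = w' := by linarith [hp.2]
      rw [this]; simp
    rw [this]

lemma fh_pars (X R : ℕ) (c : ℤ) (hc : c ≠ 0) (hR : |c| * X < R) (u : ℕ → ℝ) :
    ∑ j ∈ range R, ‖fh X u ((j : ℝ) * (c / R))‖ ^ 2 = R * ∑ n ∈ Icc 1 X, u n ^ 2 := by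
  have hR0' : (0 : ℤ) < R := by
    have h1 := abs_nonneg c
    have h4 : (0 : ℤ) ≤ X := Nat.cast_nonneg X
    have : 0 ≤ |c| * X := by positivity
    omega
  have hR0 : 0 < R := by exact_mod_cast hR0'
  have h := Pool.Agent.E8helper81.GB.pars R hR0 (Icc 1 X) (fun n => c * (n : ℤ)) (fun n => (u n : ℂ)) (by
    intro s _ t _ hst
    have := mul_left_cancel₀ hc hst
    exact_mod_cast this) (by
    intro s hs t ht
    rw [mem_Icc] at hs ht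
    have : c * (s : ℤ) - c * t = c * (s - t) := by ring
    rw [this, abs_mul]
    have h5 : |(s : ℤ) - t| ≤ X := by rw [abs_le]; omega
    calc |c| * |(s : ℤ) - t| ≤ |c| * X := mul_le_mul_of_nonneg_left h5 (abs_nonneg _)
      _ < R := hR)
  have e1 : ∀ n, ‖(u n : ℂ)‖ ^ 2 = u n ^ 2 := by
    intro n; rw [Complex.norm_real, Real.norm_eq_abs, sq_abs]
  simp only [e1] at h
  rw [← h]
  apply sum_congr rfl; intro j _
  unfold fh
  congr 2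
  apply sum_congr rfl; intro n _
  congr 2
  push_cast; ring

lemma fh_sub (X : ℕ) (u v : ℕ → ℝ) (β : ℝ) : fh X u β - fh X v β = fh X (fun n => u n - v n) β := by
  unfold fh
  rw [← sum_sub_distrib]
  refine sum_congr rfl fun a _ => by push_cast; ring

theorem ternG (X : ℕ) (c₁ c₂ : ℤ) (hc₁ : c₁ ≠ 0) (hc₂ : c₂ ≠ 0) (m : ℤ) (u v : Fin 3 → ℕ → ℝ) (Q T : ℝ)
    (hu : ∀ r, ∑ n ∈ Icc 1 X, u r n ^ 2 ≤ Q) (hv : ∀ r, ∑ n ∈ Icc 1 X, v r n ^ 2 ≤ Q)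
    (h : ∀ r, ∀ α : ℝ, ‖fh X (fun n => u r n - v r n) α‖ ≤ T) :
    |∑ t ∈ TG c₁ c₂ m X, u 0 t.1 * u 1 t.2 * u 2 (n3 c₁ c₂ m t) - ∑ t ∈ TG c₁ c₂ m X, v 0 t.1 * v 1 t.2 * v 2 (n3 c₁ c₂ m t)| ≤
      3 * (T * Q) := by
  set R : ℕ := (((|c₁| + |c₂| + 1) * X + |m|).toNat) + 1 with hRdef
  have hR : (|c₁| + |c₂| + 1) * X + |m| < R := by
    rw [hRdef]; push_cast
    have := Int.self_le_toNat ((|c₁| + |c₂| + 1) * X + |m|)
    linarith
  have hX0 : (0 : ℤ) ≤ X := Nat.cast_nonneg X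
  have ha1 := abs_nonneg c₁
  have ha2 := abs_nonneg c₂
  have ha3 := abs_nonneg m
  have hR1 : |c₁| * X < R := by nlinarith
  have hR2 : |c₂| * X < R := by nlinarith
  have hR3 : |(1 : ℤ)| * X < R := by rw [abs_one]; nlinarith
  have hR0 : 0 < R := by omega
  have hR' : (0 : ℝ) < R := by exact_mod_cast hR0
  have hT0 : 0 ≤ T := (norm_nonneg _).trans (h 0 0)
  have c : ∀ r β, ‖fh X (u r) β - fh X (v r) β‖ ≤ T := by
    intro r β; rw [fh_sub]; exact h r β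
  have h4 : (R : ℂ) * (((∑ t ∈ TG c₁ c₂ m X, u 0 t.1 * u 1 t.2 * u 2 (n3 c₁ c₂ m t) : ℝ) : ℂ) -
      ((∑ t ∈ TG c₁ c₂ m X, v 0 t.1 * v 1 t.2 * v 2 (n3 c₁ c₂ m t) : ℝ) : ℂ)) =
      ∑ j ∈ range R, ((fh X (u 0) ((j : ℝ) * (c₁ / R)) - fh X (v 0) ((j : ℝ) * (c₁ / R))) * fh X (u 1) ((j : ℝ) * (c₂ / R)) * fh X (u 2) ((j : ℝ) * (1 / R)) +
        fh X (v 0) ((j : ℝ) * (c₁ / R)) * (fh X (u 1) ((j : ℝ) * (c₂ / R)) - fh X (v 1) ((j : ℝ) * (c₂ / R))) * fh X (u 2) ((j : ℝ) * (1 / R)) +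
        fh X (v 0) ((j : ℝ) * (c₁ / R)) * fh X (v 1) ((j : ℝ) * (c₂ / R)) * (fh X (u 2) ((j : ℝ) * (1 / R)) - fh X (v 2) ((j : ℝ) * (1 / R)))) *
        ee ((j : ℝ) * (((-m : ℤ) : ℝ) / R)) := by
    rw [mul_sub, TG_four X c₁ c₂ m R hR (u 0) (u 1) (u 2), TG_four X c₁ c₂ m R hR (v 0) (v 1) (v 2), ← sum_sub_distrib]
    refine sum_congr rfl fun j _ => by ring
  set A0 : ℕ → ℝ := fun j => ‖fh X (v 0) ((j : ℝ) * (c₁ / R))‖ with hA0
  set A1 : ℕ → ℝ := fun j => ‖fh X (u 1) ((j : ℝ) * (c₂ / R))‖ with hA1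
  set A1' : ℕ → ℝ := fun j => ‖fh X (v 1) ((j : ℝ) * (c₂ / R))‖ with hA1'
  set A2 : ℕ → ℝ := fun j => ‖fh X (u 2) ((j : ℝ) * (1 / R))‖ with hA2
  have p0 : ∑ j ∈ range R, A0 j ^ 2 ≤ R * Q := by
    rw [hA0]; simp only
    rw [fh_pars X R c₁ hc₁ hR1 (v 0)]
    exact mul_le_mul_of_nonneg_left (hv 0) hR'.le
  have p1 : ∑ j ∈ range R, A1 j ^ 2 ≤ R * Q := by
    rw [hA1]; simp only
    rw [fh_pars X R c₂ hc₂ hR2 (u 1)]
    exact mul_le_mul_of_nonneg_left (hu 1) hR'.le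
  have p1' : ∑ j ∈ range R, A1' j ^ 2 ≤ R * Q := by
    rw [hA1']; simp only
    rw [fh_pars X R c₂ hc₂ hR2 (v 1)]
    exact mul_le_mul_of_nonneg_left (hv 1) hR'.le
  have p2 : ∑ j ∈ range R, A2 j ^ 2 ≤ R * Q := by
    have := fh_pars X R 1 one_ne_zero hR3 (u 2)
    push_cast at this
    rw [hA2]; simp only
    rw [this]
    exact mul_le_mul_of_nonneg_left (hu 2) hR'.le
  have h5 : (R : ℝ) * |∑ t ∈ TG c₁ c₂ m X, u 0 t.1 * u 1 t.2 * u 2 (n3 c₁ c₂ m t) - ∑ t ∈ TG c₁ c₂ m X, v 0 t.1 * v 1 t.2 * v 2 (n3 c₁ c₂ m t)| ≤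
      ∑ j ∈ range R, T * ((A1 j ^ 2 + A2 j ^ 2) / 2 + (A0 j ^ 2 + A2 j ^ 2) / 2 + (A0 j ^ 2 + A1' j ^ 2) / 2) := by
    have e : (R : ℝ) * |∑ t ∈ TG c₁ c₂ m X, u 0 t.1 * u 1 t.2 * u 2 (n3 c₁ c₂ m t) - ∑ t ∈ TG c₁ c₂ m X, v 0 t.1 * v 1 t.2 * v 2 (n3 c₁ c₂ m t)| =
        ‖(R : ℂ) * (((∑ t ∈ TG c₁ c₂ m X, u 0 t.1 * u 1 t.2 * u 2 (n3 c₁ c₂ m t) : ℝ) : ℂ) -
      ((∑ t ∈ TG c₁ c₂ m X, v 0 t.1 * v 1 t.2 * v 2 (n3 c₁ c₂ m t) : ℝ) : ℂ))‖ := by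
      rw [norm_mul, ← Complex.ofReal_sub, Complex.norm_real, Real.norm_eq_abs, Complex.norm_natCast]
    rw [e, h4]
    refine (norm_sum_le _ _).trans (sum_le_sum fun j _ => ?_)
    rw [norm_mul, norm_ee, mul_one]
    have am : ∀ x y : ℝ, x * y ≤ (x ^ 2 + y ^ 2) / 2 := fun x y => by
      nlinarith [sq_nonneg (x - y)]
    have t1 : ‖(fh X (u 0) ((j : ℝ) * (c₁ / R)) - fh X (v 0) ((j : ℝ) * (c₁ / R))) * fh X (u 1) ((j : ℝ) * (c₂ / R)) * fh X (u 2) ((j : ℝ) * (1 / R))‖ ≤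
        T * ((A1 j ^ 2 + A2 j ^ 2) / 2) := by
      rw [norm_mul, norm_mul, mul_assoc]
      exact mul_le_mul (c 0 _) (am _ _) (by positivity) hT0
    have t2 : ‖fh X (v 0) ((j : ℝ) * (c₁ / R)) * (fh X (u 1) ((j : ℝ) * (c₂ / R)) - fh X (v 1) ((j : ℝ) * (c₂ / R))) * fh X (u 2) ((j : ℝ) * (1 / R))‖ ≤
        T * ((A0 j ^ 2 + A2 j ^ 2) / 2) := by
      rw [norm_mul, norm_mul, mul_comm ‖fh X (v 0) ((j : ℝ) * (c₁ / R))‖, mul_assoc]
      exact mul_le_mul (c 1 _) (am _ _) (by positivity) hT0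
    have t3 : ‖fh X (v 0) ((j : ℝ) * (c₁ / R)) * fh X (v 1) ((j : ℝ) * (c₂ / R)) * (fh X (u 2) ((j : ℝ) * (1 / R)) - fh X (v 2) ((j : ℝ) * (1 / R)))‖ ≤
        T * ((A0 j ^ 2 + A1' j ^ 2) / 2) := by
      rw [norm_mul, norm_mul, mul_comm]
      exact mul_le_mul (c 2 _) (am _ _) (by positivity) hT0
    refine (norm_add_le _ _).trans ?_
    refine (add_le_add (norm_add_le _ _) le_rfl).trans ?_
    linarith
  have h6 : ∑ j ∈ range R, T * ((A1 j ^ 2 + A2 j ^ 2) / 2 + (A0 j ^ 2 + A2 j ^ 2) / 2 + (A0 j ^ 2 + A1' j ^ 2) / 2) ≤ R * (3 * (T * Q)) := by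
    rw [← mul_sum]
    have e : ∑ j ∈ range R, ((A1 j ^ 2 + A2 j ^ 2) / 2 + (A0 j ^ 2 + A2 j ^ 2) / 2 + (A0 j ^ 2 + A1' j ^ 2) / 2) ≤ 3 * (R * Q) := by
      rw [sum_add_distrib, sum_add_distrib, ← sum_div, ← sum_div, ← sum_div, sum_add_distrib, sum_add_distrib, sum_add_distrib]
      linarith
    calc _ ≤ T * (3 * (R * Q)) := mul_le_mul_of_nonneg_left e hT0
      _ = _ := by ring
  exact le_of_mul_le_mul_left (h5.trans h6) hR'

variable {k : ℕ}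

/-- mean square of a divisor sum -/
lemma WW_sq (a : Fin k → ℤ) {b : Fin k → ℤ} {W : ℕ} {𝒟 : Finset ℕ} {C : ℕ → ℝ} (h : Adm b W 𝒟 C) (N : ℕ) (hW1 : 1 ≤ W) (hW : W * W ≤ N) :
    ∑ n ∈ Icc 1 N, WW a b 𝒟 C n ^ 2 ≤ 6 * N * (1 + Real.log ((W * W : ℕ) : ℝ)) ^ (2 ^ (k + 2)) := by
  classical
  have hlcm : ∀ D ∈ 𝒟, ∀ D' ∈ 𝒟, Squarefree (D.lcm D') ∧ CB b (D.lcm D') := by
    intro D hD D' hD'
    refine ⟨?_, ?_⟩
    · rw [Nat.squarefree_iff_factorization_le_one (Nat.lcm_ne_zero (h.sq D hD).ne_zero (h.sq D' hD').ne_zero)]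
      intro p
      rw [Nat.factorization_lcm (h.sq D hD).ne_zero (h.sq D' hD').ne_zero]
      exact sup_le ((h.sq D hD).natFactorization_le_one p) ((h.sq D' hD').natFactorization_le_one p)
    · intro p hp hpd
      rcases (Nat.Prime.dvd_mul hp).1 (hpd.trans (Nat.lcm_dvd_mul D D')) with h1 | h1
      · exact h.cb D hD p hp h1
      · exact h.cb D' hD' p hp h1
  set G : ℕ → ℝ := fun l => tau l ^ k * (3 * ((N : ℝ) / l + 1)) with hG
  have hG0 : ∀ l, 0 ≤ G l := by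
    intro l
    have := tau_nonneg l
    rw [hG]; positivity
  calc ∑ n ∈ Icc 1 N, WW a b 𝒟 C n ^ 2 ≤ ∑ n ∈ Icc 1 N, ∑ D ∈ 𝒟, ∑ D' ∈ 𝒟,
        (if ((D.lcm D' : ℕ) : ℤ) ∣ Fv a b ((1 * n : ℕ) : ℤ) then (1 : ℝ) else 0) := by
        apply sum_le_sum; intro n _
        have h1 : |WW a b 𝒟 C n| ≤ ∑ D ∈ 𝒟, (if (D : ℤ) ∣ Fv a b (n : ℤ) then (1 : ℝ) else 0) := by
          unfold WW
          refine (abs_sum_le_sum_abs _ _).trans (sum_le_sum fun D hD => ?_)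
          split_ifs
          · exact h.bd D hD
          · rw [abs_zero]
        rw [← sq_abs]
        calc |WW a b 𝒟 C n| ^ 2 ≤ (∑ D ∈ 𝒟, (if (D : ℤ) ∣ Fv a b (n : ℤ) then (1 : ℝ) else 0)) ^ 2 :=
              pow_le_pow_left₀ (abs_nonneg _) h1 2
          _ = ∑ D ∈ 𝒟, ∑ D' ∈ 𝒟, (if (D : ℤ) ∣ Fv a b (n : ℤ) then (1 : ℝ) else 0) * (if (D' : ℤ) ∣ Fv a b (n : ℤ) then (1 : ℝ) else 0) := by
              rw [sq, sum_mul_sum]
          _ ≤ _ := by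
              apply sum_le_sum; intro D _
              apply sum_le_sum; intro D' _
              by_cases h2 : (D : ℤ) ∣ Fv a b (n : ℤ)
              · by_cases h3 : (D' : ℤ) ∣ Fv a b (n : ℤ)
                · rw [if_pos h2, if_pos h3, if_pos]
                  · norm_num
                  · rw [one_mul]
                    rw [Int.natCast_dvd] at h2 h3 ⊢
                    exact Nat.lcm_dvd h2 h3
                · rw [if_neg h3, mul_zero]; split_ifs <;> norm_num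
              · rw [if_neg h2, zero_mul]; split_ifs <;> norm_num
    _ = ∑ D ∈ 𝒟, ∑ D' ∈ 𝒟, (((Icc 1 N).filter (fun n => ((D.lcm D' : ℕ) : ℤ) ∣ Fv a b ((1 * n : ℕ) : ℤ))).card : ℝ) := by
        rw [sum_comm]
        apply sum_congr rfl; intro D _
        rw [sum_comm]
        apply sum_congr rfl; intro D' _
        rw [card_filter]; push_cast; rfl
    _ ≤ ∑ D ∈ 𝒟, ∑ D' ∈ 𝒟, tau D ^ 0 * tau D' ^ 0 * G (D.lcm D') := by
        apply sum_le_sum; intro D hD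
        apply sum_le_sum; intro D' hD'
        rw [pow_zero, pow_zero, one_mul, one_mul]
        have := hlcm D hD D' hD'
        exact cnt_root a this.1 this.2 1 N
    _ ≤ ∑ e ∈ Icc 1 (W * W), tau e ^ (2 * 0 + 2) * G e := lcm_le 𝒟 W 0 h.sub G hG0
    _ ≤ ∑ e ∈ Icc 1 (W * W), (6 * N) * (tau e ^ (k + 2) / e) := by
        apply sum_le_sum; intro e he
        rw [mem_Icc] at he
        have he0 : (0 : ℝ) < e := by exact_mod_cast he.1
        have h1 : (1 : ℝ) ≤ (N : ℝ) / e := by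
          rw [le_div_iff₀ he0, one_mul]; exact_mod_cast he.2.trans hW
        have h2 := tau_nonneg e
        calc tau e ^ (2 * 0 + 2) * (tau e ^ k * (3 * ((N : ℝ) / e + 1))) ≤ tau e ^ (2 * 0 + 2) * (tau e ^ k * (6 * ((N : ℝ) / e))) := by
              apply mul_le_mul_of_nonneg_left _ (by positivity)
              apply mul_le_mul_of_nonneg_left _ (by positivity)
              linarith
          _ = _ := by rw [show k + 2 = k + (2 * 0 + 2) by ring, pow_add]; ring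
    _ = 6 * N * ∑ e ∈ Icc 1 (W * W), tau e ^ (k + 2) / e := by rw [mul_sum]
    _ ≤ _ := mul_le_mul_of_nonneg_left (tau_moment (k + 2) (W * W)) (by positivity)

/-- a weighted value -/
noncomputable def FL (f : ℕ → ℝ) (z : ℕ) (a b : Fin k → ℤ) (𝒟 : Finset ℕ) (C : ℕ → ℝ) (n : ℕ) : ℝ :=
  f n * (RI a b (pz z) n * WW a b 𝒟 C n)

theorem tele (k U : ℕ) (c₁ c₂ : ℤ) (hc₁ : c₁ ≠ 0) (hc₂ : c₂ ≠ 0) : ∃ B : ℕ, ∀ E : ℕ, ∃ N0 : ℕ, ∀ N : ℕ, N0 ≤ N →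
    ∀ z : ℕ, Real.log N ^ B ≤ z → (z : ℝ) ≤ Real.log N ^ E → ∀ (a b : Fin 3 → Fin k → ℤ) (W : ℕ) (𝒟 : Fin 3 → Finset ℕ)
    (C : Fin 3 → ℕ → ℝ), 1 ≤ W → W ^ 32 ≤ N → (∀ i, Adm (b i) W (𝒟 i) (C i)) → (∀ i, ∀ D ∈ 𝒟 i, ∀ p, p.Prime → p ∣ D → z < p) →
    (∀ i, (∏ j, b i j) ≠ 0) → (∀ i, ((∏ j, b i j).natAbs : ℝ) ≤ Real.log N) → ∀ m : ℤ,
    |∑ t ∈ TG c₁ c₂ m N, FL (fun n => ArithmeticFunction.vonMangoldt n) z (a 0) (b 0) (𝒟 0) (C 0) t.1 *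
        FL (fun n => ArithmeticFunction.vonMangoldt n) z (a 1) (b 1) (𝒟 1) (C 1) t.2 *
        FL (fun n => ArithmeticFunction.vonMangoldt n) z (a 2) (b 2) (𝒟 2) (C 2) (n3 c₁ c₂ m t) -
      ∑ t ∈ TG c₁ c₂ m N, FL (lamz z) z (a 0) (b 0) (𝒟 0) (C 0) t.1 * FL (lamz z) z (a 1) (b 1) (𝒟 1) (C 1) t.2 *
        FL (lamz z) z (a 2) (b 2) (𝒟 2) (C 2) (n3 c₁ c₂ m t)| ≤ N ^ 2 / Real.log N ^ U := by
  set g : ℕ := 2 ^ (k + 2) with hg
  obtain ⟨B, hsup⟩ := sup_R k (U + g + 3)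
  refine ⟨B, fun E => ?_⟩
  obtain ⟨m1, h1⟩ := hsup E
  obtain ⟨m3, h3⟩ := Vz_inv_small E
  obtain ⟨m4, h4⟩ := ev_L' (18 * 2 ^ g + 2)
  refine ⟨max (max m1 m3) (max m4 2), fun N hN z hz1 hz2 a b W 𝒟 C hW hWN hAdm h𝒟 hb0 hbN m => ?_⟩
  have a1 := h1 N (le_trans (le_trans (le_max_left _ _) (le_max_left _ _)) hN) z hz1 hz2
  have a3 := h3 N (le_trans (le_trans (le_max_right _ _) (le_max_left _ _)) hN) z
  have hL := h4 N (le_trans (le_trans (le_max_left _ _) (le_max_right _ _)) hN)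
  have hN2 : 2 ≤ N := le_trans (le_trans (le_max_right _ _) (le_max_right _ _)) hN
  have hNr : (2 : ℝ) ≤ N := by exact_mod_cast hN2
  have hN0 : (0 : ℝ) < N := by linarith
  set ℓ := Real.log N with hℓ
  have p1 : (0 : ℝ) < 2 ^ g := by positivity
  have hℓ2 : 2 ≤ ℓ := by linarith
  have hℓ1 : 1 ≤ ℓ := by linarith
  have hℓ0 : 0 < ℓ := by linarith
  have hz : 1 ≤ z := by
    have : (1 : ℝ) ≤ z := (one_le_pow₀ hℓ1).trans hz1
    exact_mod_cast this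
  have hVi := a3 hz hz2
  have hVi0 : 0 < (Vz z)⁻¹ := inv_pos.2 (Vz_pos z)
  have hWW : W * W ≤ N := by
    calc W * W = W ^ 2 := (sq W).symm
      _ ≤ W ^ 32 := Nat.pow_le_pow_right hW (by norm_num)
      _ ≤ N := hWN
  have hlog : 1 + Real.log ((W * W : ℕ) : ℝ) ≤ 2 * ℓ := by
    have h5 : Real.log ((W * W : ℕ) : ℝ) ≤ ℓ := Real.log_le_log (by exact_mod_cast Nat.mul_pos hW hW) (by exact_mod_cast hWW)
    linarith
  have hlog0 : 0 ≤ Real.log ((W * W : ℕ) : ℝ) := Real.log_natCast_nonneg _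
  have hsq : ∀ (i : Fin 3) (f : ℕ → ℝ), (∀ n ∈ Icc 1 N, 0 ≤ f n ∧ f n ≤ ℓ) →
      ∑ n ∈ Icc 1 N, FL f z (a i) (b i) (𝒟 i) (C i) n ^ 2 ≤ ℓ ^ 2 * (6 * N * (2 * ℓ) ^ g) := by
    intro i f hf
    calc ∑ n ∈ Icc 1 N, FL f z (a i) (b i) (𝒟 i) (C i) n ^ 2 ≤ ∑ n ∈ Icc 1 N, ℓ ^ 2 * WW (a i) (b i) (𝒟 i) (C i) n ^ 2 := by
          apply sum_le_sum; intro n hn
          have h6 := hf n hn
          have h7 := RI_nonneg (a i) (b i) (pz z) n
          have h8 := RI_le (a i) (b i) (pz z) n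
          unfold FL
          rw [show (f n * (RI (a i) (b i) (pz z) n * WW (a i) (b i) (𝒟 i) (C i) n)) ^ 2 =
            (f n * RI (a i) (b i) (pz z) n) ^ 2 * WW (a i) (b i) (𝒟 i) (C i) n ^ 2 by ring]
          apply mul_le_mul_of_nonneg_right _ (sq_nonneg _)
          apply pow_le_pow_left₀ (mul_nonneg h6.1 h7)
          calc f n * RI (a i) (b i) (pz z) n ≤ ℓ * 1 := mul_le_mul h6.2 h8 h7 hℓ0.le
            _ = ℓ := mul_one _
      _ = ℓ ^ 2 * ∑ n ∈ Icc 1 N, WW (a i) (b i) (𝒟 i) (C i) n ^ 2 := by rw [mul_sum]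
      _ ≤ _ := by
          apply mul_le_mul_of_nonneg_left _ (by positivity)
          refine (WW_sq (a i) (hAdm i) N hW hWW).trans ?_
          apply mul_le_mul_of_nonneg_left _ (by positivity)
          exact pow_le_pow_left₀ (by linarith) hlog _
  have key := ternG N c₁ c₂ hc₁ hc₂ m
    (fun i => FL (fun n => ArithmeticFunction.vonMangoldt n) z (a i) (b i) (𝒟 i) (C i))
    (fun i => FL (lamz z) z (a i) (b i) (𝒟 i) (C i)) (ℓ ^ 2 * (6 * N * (2 * ℓ) ^ g)) (N / ℓ ^ (U + g + 3))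
    (fun i => hsq i _ (fun n hn => by
      rw [mem_Icc] at hn
      refine ⟨ArithmeticFunction.vonMangoldt_nonneg, ArithmeticFunction.vonMangoldt_le_log.trans ?_⟩
      exact Real.log_le_log (by exact_mod_cast hn.1) (by exact_mod_cast hn.2)))
    (fun i => hsq i _ (fun n _ => by
      refine ⟨lamz_nonneg z n, ?_⟩
      unfold lamz
      split_ifs
      · exact hVi
      · exact hℓ0.le))
    (fun i α => by
      refine le_trans (le_of_eq ?_) (a1 (a i) (b i) W (𝒟 i) (C i) hW hWN (hAdm i) (h𝒟 i) (hb0 i) (hbN i) α)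
      unfold fh FL
      congr 1
      apply sum_congr rfl; intro n _
      congr 2
      ring)
  refine key.trans ?_
  calc 3 * (N / ℓ ^ (U + g + 3) * (ℓ ^ 2 * (6 * N * (2 * ℓ) ^ g))) = (18 * 2 ^ g / ℓ) * (N ^ 2 / ℓ ^ U) := by
        rw [mul_pow, pow_add, pow_add]
        field_simp
        ring
    _ ≤ 1 * (N ^ 2 / ℓ ^ U) := by
        apply mul_le_mul_of_nonneg_right _ (by positivity)
        rw [div_le_one hℓ0]; linarith
    _ = _ := one_mul _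

end Pool.Agent.H76.TB
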