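import Mathlib
import Pool.Agent.H76.TB.A11

/-! Local densities of the divisor conditions in three variables. -/

set_option autoImplicit false

open Finset

namespace Pool.Agent.H76.TB

variable {k : ℕ}

/-- the three variables -/
def nn (c₁ c₂ m : ℤ) (i : Fin 3) (x y : ℤ) : ℤ := ![x, y, m - c₁ * x - c₂ * y] i

lemma nn_congr (c₁ c₂ m : ℤ) (i : Fin 3) {q : ℤ} {x x' y y' : ℤ} (hx : x ≡ x' [ZMOD q]) (hy : y ≡ y' [ZMOD q]) :
    nn c₁ c₂ m i x y ≡ nn c₁ c₂ m i x' y' [ZMOD q] := by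
  fin_cases i
  · exact hx
  · exact hy
  · exact ((Int.ModEq.refl m).sub (hx.mul_left c₁)).sub (hy.mul_left c₂)

lemma affine_le (p : ℕ) (hp : p.Prime) (c e : ℤ) (hc : ¬ (p : ℤ) ∣ c) (P : ℤ → Prop) [DecidablePred P]
    (hP : ∀ x y : ℤ, x ≡ y [ZMOD p] → (P x ↔ P y)) :
    ((range p).filter (fun y : ℕ => P (e - c * y))).card ≤ ((range p).filter (fun n : ℕ => P (n : ℤ))).card := by
  have hp0 : (0 : ℤ) < p := by exact_mod_cast hp.pos
  apply card_le_card_of_injOn (fun y : ℕ => ((e - c * y) % p).toNat)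
  · intro y hy
    rw [mem_coe, mem_filter, mem_range] at hy
    have h1 := Int.emod_nonneg (e - c * y) hp0.ne'
    have h2 := Int.emod_lt_of_pos (e - c * y) hp0
    have h3 : ((((e - c * y) % p).toNat : ℕ) : ℤ) = (e - c * y) % p := Int.toNat_of_nonneg h1
    rw [mem_coe, mem_filter, mem_range]
    simp only
    refine ⟨by omega, ?_⟩
    rw [h3]
    exact (hP _ _ (Int.mod_modEq _ _)).2 hy.2
  · intro y hy y' hy' h
    rw [mem_coe, mem_filter, mem_range] at hy hy'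
    simp only at h
    have h1 := Int.emod_nonneg (e - c * y) hp0.ne'
    have h1' := Int.emod_nonneg (e - c * y') hp0.ne'
    have h2 : (e - c * y) % p = (e - c * y') % p := by omega
    have h3 : (p : ℤ) ∣ c * ((y' : ℤ) - y) := by
      have := Int.ModEq.dvd (show (e - c * y') ≡ (e - c * y) [ZMOD p] from h2.symm)
      have e1 : c * ((y' : ℤ) - y) = (e - c * y) - (e - c * y') := by ring
      rw [e1]; exact this
    have hp' : Prime (p : ℤ) := Nat.prime_iff_prime_int.1 hp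
    rcases hp'.dvd_or_dvd h3 with h4 | h4
    · exact absurd h4 hc
    · have h5 := Int.eq_zero_of_abs_lt_dvd h4 (by rw [abs_lt]; omega)
      omega

/-- affine substitutions preserve the number of residues -/
lemma affine_count (p : ℕ) (hp : p.Prime) (c e : ℤ) (hc : ¬ (p : ℤ) ∣ c) (P : ℤ → Prop) [DecidablePred P]
    (hP : ∀ x y : ℤ, x ≡ y [ZMOD p] → (P x ↔ P y)) :
    ((range p).filter (fun y : ℕ => P (e - c * y))).card = ((range p).filter (fun n : ℕ => P (n : ℤ))).card := by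
  have h1 := affine_le p hp c e hc P hP
  have h2 := affine_le p hp c e hc (fun x => ¬ P x) (fun x y h => not_congr (hP x y h))
  have h3 := card_filter_add_card_filter_not (s := range p) (fun y : ℕ => P (e - c * y))
  have h4 := card_filter_add_card_filter_not (s := range p) (fun n : ℕ => P (n : ℤ))
  rw [card_range] at h3 h4
  omega

section Three
variable (p : ℕ) (P : Fin 3 → ℤ → Prop) [∀ i, DecidablePred (P i)]

/-- number of residues with the property -/
def nu (i : Fin 3) : ℕ := ((range p).filter (fun n : ℕ => P i (n : ℤ))).card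

/-- number of pairs -/
def mu (c₁ c₂ m : ℤ) : ℕ := ((range p ×ˢ range p).filter (fun t => ∀ i, P i (nn c₁ c₂ m i (t.1 : ℤ) (t.2 : ℤ)))).card

lemma mu_01 (c₁ c₂ m : ℤ) : mu p P c₁ c₂ m ≤ nu p P 0 * nu p P 1 := by
  unfold mu nu
  rw [← card_product]
  apply card_le_card
  intro t ht
  rw [mem_filter, mem_product] at ht
  rw [mem_product, mem_filter, mem_filter]
  exact ⟨⟨ht.1.1, ht.2 0⟩, ⟨ht.1.2, ht.2 1⟩⟩

lemma mu_2 (c₁ c₂ m : ℤ) (h : ∀ x, P 2 x) : mu p P c₁ c₂ m = nu p P 0 * nu p P 1 := by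
  unfold mu nu
  rw [← card_product]
  congr 1
  ext t
  rw [mem_filter, mem_product, mem_product, mem_filter, mem_filter]
  constructor
  · intro ht
    exact ⟨⟨ht.1.1, ht.2 0⟩, ⟨ht.1.2, ht.2 1⟩⟩
  · rintro ⟨⟨h1, h2⟩, h3, h4⟩
    refine ⟨⟨h1, h3⟩, fun i => ?_⟩
    fin_cases i
    · exact h2
    · exact h4
    · exact h _

lemma mu_1 (hp : p.Prime) (c₁ c₂ m : ℤ) (hc : ¬ (p : ℤ) ∣ c₂) (hP : ∀ i, ∀ x y : ℤ, x ≡ y [ZMOD p] → (P i x ↔ P i y))
    (h : ∀ x, P 1 x) : mu p P c₁ c₂ m = nu p P 0 * nu p P 2 := by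
  unfold mu
  rw [card_eq_sum_card_fiberwise (f := fun t : ℕ × ℕ => t.1) (t := (range p).filter (fun n : ℕ => P 0 (n : ℤ)))]
  · have h1 : ∀ x ∈ (range p).filter (fun n : ℕ => P 0 (n : ℤ)),
        (((range p ×ˢ range p).filter (fun t => ∀ i, P i (nn c₁ c₂ m i (t.1 : ℤ) (t.2 : ℤ)))).filter (fun t => t.1 = x)).card = nu p P 2 := by
      intro x hx
      rw [mem_filter] at hx
      unfold nu
      rw [← affine_count p hp c₂ (m - c₁ * x) hc (P 2) (hP 2)]
      refine card_nbij' (fun t => t.2) (fun y => (x, y)) ?_ ?_ ?_ ?_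
      · rintro ⟨x', y⟩ ht
        simp only [coe_filter, mem_filter, mem_product, Set.mem_ofPred_eq] at ht ⊢
        obtain ⟨⟨h2, h3⟩, rfl⟩ := ht
        exact ⟨h2.2, h3 2⟩
      · intro y hy
        simp only [coe_filter, mem_filter, mem_product, Set.mem_ofPred_eq] at hy ⊢
        refine ⟨⟨⟨hx.1, hy.1⟩, fun i => ?_⟩, trivial⟩
        fin_cases i
        · exact hx.2
        · exact h _
        · exact hy.2
      · rintro ⟨x', y⟩ ht
        simp only [coe_filter, mem_filter, Set.mem_ofPred_eq] at ht ⊢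
        obtain ⟨_, rfl⟩ := ht
        rfl
      · intro y _; rfl
    rw [sum_congr rfl h1, sum_const, smul_eq_mul]
    rfl
  · intro t ht
    simp only [coe_filter, mem_product, Set.mem_ofPred_eq] at ht ⊢
    exact ⟨ht.1.1, ht.2 0⟩

lemma mu_0 (hp : p.Prime) (c₁ c₂ m : ℤ) (hc : ¬ (p : ℤ) ∣ c₁) (hP : ∀ i, ∀ x y : ℤ, x ≡ y [ZMOD p] → (P i x ↔ P i y))
    (h : ∀ x, P 0 x) : mu p P c₁ c₂ m = nu p P 1 * nu p P 2 := by
  unfold mu
  rw [card_eq_sum_card_fiberwise (f := fun t : ℕ × ℕ => t.2) (t := (range p).filter (fun n : ℕ => P 1 (n : ℤ)))]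
  · have h1 : ∀ y ∈ (range p).filter (fun n : ℕ => P 1 (n : ℤ)),
        (((range p ×ˢ range p).filter (fun t => ∀ i, P i (nn c₁ c₂ m i (t.1 : ℤ) (t.2 : ℤ)))).filter (fun t => t.2 = y)).card = nu p P 2 := by
      intro y hy
      rw [mem_filter] at hy
      unfold nu
      rw [← affine_count p hp c₁ (m - c₂ * y) hc (P 2) (hP 2)]
      refine card_nbij' (fun t => t.1) (fun x => (x, y)) ?_ ?_ ?_ ?_
      · rintro ⟨x, y'⟩ ht
        simp only [coe_filter, mem_filter, mem_product, Set.mem_ofPred_eq] at ht ⊢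
        obtain ⟨⟨h2, h3⟩, rfl⟩ := ht
        refine ⟨h2.1, ?_⟩
        have := h3 2
        have e : m - c₂ * (y' : ℤ) - c₁ * x = m - c₁ * x - c₂ * y' := by ring
        rw [e]; exact this
      · intro x hx
        simp only [coe_filter, mem_filter, mem_product, Set.mem_ofPred_eq] at hx ⊢
        refine ⟨⟨⟨hx.1, hy.1⟩, fun i => ?_⟩, trivial⟩
        fin_cases i
        · exact h _
        · exact hy.2
        · have e : m - c₂ * (y : ℤ) - c₁ * x = m - c₁ * x - c₂ * y := by ring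
          rw [e] at hx; exact hx.2
      · rintro ⟨x, y'⟩ ht
        simp only [coe_filter, mem_filter, Set.mem_ofPred_eq] at ht ⊢
        obtain ⟨_, rfl⟩ := ht
        rfl
      · intro y _; rfl
    rw [sum_congr rfl h1, sum_const, smul_eq_mul]
    rfl
  · intro t ht
    simp only [coe_filter, mem_product, Set.mem_ofPred_eq] at ht ⊢
    exact ⟨ht.1.2, ht.2 1⟩

end Three

lemma tau_prod_eq (S : Finset ℕ) (hS : ∀ p ∈ S, p.Prime) : tau (∏ p ∈ S, p) = 2 ^ S.card := by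
  classical
  induction S using Finset.induction_on with
  | empty => simp [tau]
  | insert p S hp ih =>
    have ih' := ih fun q hq => hS q (mem_insert_of_mem hq)
    have hpp := hS p (mem_insert_self _ _)
    rw [prod_insert hp, card_insert_of_notMem hp, pow_succ, mul_comm ((2 : ℝ) ^ S.card), ← ih']
    have hcop : p.Coprime (∏ q ∈ S, q) := by
      apply Nat.Coprime.prod_right
      intro q hq
      rw [Nat.coprime_primes hpp (hS q (mem_insert_of_mem hq))]
      rintro rfl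
      exact hp hq
    unfold tau
    rw [Nat.Coprime.card_divisors_mul hcop, hpp.divisors, card_pair hpp.one_lt.ne]
    push_cast; ring

lemma tau_sq {D : ℕ} (hD : Squarefree D) : tau D = 2 ^ D.primeFactors.card := by
  have := tau_prod_eq D.primeFactors (fun p hp => Nat.prime_of_mem_primeFactors hp)
  rwa [Nat.prod_primeFactors_of_squarefree hD] at this

/-- the density of the multiples of `D` among the values -/
noncomputable def rr (a b : Fin k → ℤ) (D : ℕ) : ℝ := ∏ p ∈ D.primeFactors, (((RR a b p).card : ℝ) / p)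

lemma rr_nonneg (a b : Fin k → ℤ) (D : ℕ) : 0 ≤ rr a b D := prod_nonneg fun _ _ => by positivity

lemma twok {D : ℕ} (hD : Squarefree D) : ∏ p ∈ D.primeFactors, ((2 : ℝ) ^ k / p) = tau D ^ k / D := by
  rw [prod_div_distrib, prod_const, tau_sq hD, ← pow_mul, ← pow_mul, mul_comm k]
  congr 1
  rw [← Nat.cast_prod, Nat.prod_primeFactors_of_squarefree hD]

lemma RR_prime_le (a : Fin k → ℤ) {b : Fin k → ℤ} {p : ℕ} (hp : p.Prime) (hb : ¬ (p : ℤ) ∣ ∏ j, b j) :
    ((RR a b p).card : ℝ) ≤ 2 ^ k := by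
  have h1 := card_RR_tau a (b := b) hp.prime.squarefree (D := p) (fun q hq hqp => by
    rw [(Nat.prime_dvd_prime_iff_eq hq hp).1 hqp]; exact hb)
  have h2 : tau p = 2 := by
    unfold tau
    rw [hp.divisors, card_pair hp.one_lt.ne]; norm_num
  rwa [h2] at h1

lemma rr_le (a : Fin k → ℤ) {b : Fin k → ℤ} {D : ℕ} (hD : Squarefree D) (hb : CB b D) : rr a b D ≤ tau D ^ k / D := by
  rw [← twok hD]
  unfold rr
  apply prod_le_prod
  · intro p _; positivity
  · intro p hp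
    have hpp := Nat.prime_of_mem_primeFactors hp
    apply div_le_div_of_nonneg_right _ (Nat.cast_nonneg _)
    exact RR_prime_le a hpp (hb p hpp (Nat.dvd_of_mem_primeFactors hp))

/-- the divisor conditions at `p` -/
def PD (a b : Fin 3 → Fin k → ℤ) (D : Fin 3 → ℕ) (p : ℕ) (i : Fin 3) (x : ℤ) : Prop := p ∣ D i → (p : ℤ) ∣ Fv (a i) (b i) x

instance (a b : Fin 3 → Fin k → ℤ) (D : Fin 3 → ℕ) (p : ℕ) (i : Fin 3) : DecidablePred (PD a b D p i) := by
  intro x; unfold PD; infer_instance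

lemma PD_congr (a b : Fin 3 → Fin k → ℤ) (D : Fin 3 → ℕ) (p : ℕ) (i : Fin 3) (x y : ℤ) (h : x ≡ y [ZMOD p]) :
    PD a b D p i x ↔ PD a b D p i y := by
  unfold PD
  rw [Fv_dvd_congr (a i) (b i) p h]

lemma nu_PD (a b : Fin 3 → Fin k → ℤ) (D : Fin 3 → ℕ) (p : ℕ) (i : Fin 3) :
    nu p (PD a b D p) i = if p ∣ D i then (RR (a i) (b i) p).card else p := by
  unfold nu RR
  split_ifs with h
  · congr 1
    apply filter_congr
    intro n _
    unfold PD
    exact ⟨fun g => g h, fun g _ => g⟩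
  · rw [filter_true_of_mem]
    · exact card_range p
    · intro n _
      unfold PD
      exact fun h' => absurd h' h

/-- the local factor for the divisor conditions -/
noncomputable def gp (c₁ c₂ m : ℤ) (a b : Fin 3 → Fin k → ℤ) (D : Fin 3 → ℕ) (p : ℕ) : ℝ :=
  (mu p (PD a b D p) c₁ c₂ m : ℝ) / p ^ 2

lemma gp_eq (c₁ c₂ m : ℤ) (a b : Fin 3 → Fin k → ℤ) (D : Fin 3 → ℕ) (p : ℕ) (hp : p.Prime) (h1 : ¬ (p : ℤ) ∣ c₁)
    (h2 : ¬ (p : ℤ) ∣ c₂) (h : ∃ i, ¬ p ∣ D i) :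
    gp c₁ c₂ m a b D p = ∏ i, (if p ∣ D i then ((RR (a i) (b i) p).card : ℝ) / p else 1) := by
  have hp0 : (p : ℝ) ≠ 0 := by exact_mod_cast hp.ne_zero
  have key : (mu p (PD a b D p) c₁ c₂ m : ℝ) * p = ∏ i, (nu p (PD a b D p) i : ℝ) := by
    obtain ⟨i, hi⟩ := h
    have htriv : ∀ x, PD a b D p i x := fun x hx => absurd hx hi
    have hnu : nu p (PD a b D p) i = p := by rw [nu_PD, if_neg hi]
    rw [Fin.prod_univ_three]
    fin_cases i
    · rw [mu_0 p (PD a b D p) hp c₁ c₂ m h1 (PD_congr a b D p) htriv]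
      simp only [Fin.zero_eta] at hnu
      rw [hnu]; push_cast; ring
    · rw [mu_1 p (PD a b D p) hp c₁ c₂ m h2 (PD_congr a b D p) htriv]
      simp only [Fin.mk_one] at hnu
      rw [hnu]; push_cast; ring
    · rw [mu_2 p (PD a b D p) c₁ c₂ m htriv]
      simp only [Fin.reduceFinMk] at hnu
      rw [hnu]; push_cast; ring
  have e : ∏ i, (if p ∣ D i then ((RR (a i) (b i) p).card : ℝ) / p else 1) = ∏ i, ((nu p (PD a b D p) i : ℝ) / p) := by
    apply prod_congr rfl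
    intro i _
    rw [nu_PD]
    split_ifs
    · rfl
    · rw [div_self hp0]
  rw [e, prod_div_distrib, ← key, prod_const, card_univ, Fintype.card_fin]
  unfold gp
  field_simp

lemma gp_le (c₁ c₂ m : ℤ) (a b : Fin 3 → Fin k → ℤ) (D : Fin 3 → ℕ) (p : ℕ) (hp : p.Prime) (h1 : ¬ (p : ℤ) ∣ c₁)
    (h2 : ¬ (p : ℤ) ∣ c₂) (hb : ∀ i, p ∣ D i → ¬ (p : ℤ) ∣ ∏ j, b i j) :
    gp c₁ c₂ m a b D p ≤ (if ∀ i, p ∣ D i then (p : ℝ) else 1) * ∏ i, (if p ∣ D i then (2 : ℝ) ^ k / p else 1) := by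
  have hp0 : (0 : ℝ) < p := by exact_mod_cast hp.pos
  by_cases h : ∀ i, p ∣ D i
  · rw [if_pos h, Fin.prod_univ_three, if_pos (h 0), if_pos (h 1), if_pos (h 2)]
    have g1 : (mu p (PD a b D p) c₁ c₂ m : ℝ) ≤ 2 ^ k * 2 ^ k := by
      have := mu_01 p (PD a b D p) c₁ c₂ m
      rw [nu_PD, nu_PD, if_pos (h 0), if_pos (h 1)] at this
      have g2 : (mu p (PD a b D p) c₁ c₂ m : ℝ) ≤ ((RR (a 0) (b 0) p).card : ℝ) * ((RR (a 1) (b 1) p).card : ℝ) := by exact_mod_cast this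
      exact g2.trans (mul_le_mul (RR_prime_le (a 0) hp (hb 0 (h 0))) (RR_prime_le (a 1) hp (hb 1 (h 1))) (by positivity) (by positivity))
    unfold gp
    have p2 : (1 : ℝ) ≤ 2 ^ k := one_le_pow₀ (by norm_num)
    calc (mu p (PD a b D p) c₁ c₂ m : ℝ) / p ^ 2 ≤ (2 ^ k * 2 ^ k * 2 ^ k) / p ^ 2 := by
          apply div_le_div_of_nonneg_right _ (by positivity)
          refine g1.trans ?_
          exact le_mul_of_one_le_right (by positivity) p2
      _ = _ := by field_simp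
  · rw [if_neg h, one_mul]
    push Not at h
    rw [gp_eq c₁ c₂ m a b D p hp h1 h2 h]
    apply prod_le_prod
    · intro i _; split_ifs <;> positivity
    · intro i _
      split_ifs with h3
      · apply div_le_div_of_nonneg_right _ hp0.le
        exact RR_prime_le (a i) hp (hb i h3)
      · exact le_rfl

/-- the primes of the moduli -/
def PF (D : Fin 3 → ℕ) : Finset ℕ := (D 0 * D 1 * D 2).primeFactors

lemma mem_PF {D : Fin 3 → ℕ} (hD : ∀ i, D i ≠ 0) {p : ℕ} : p ∈ PF D ↔ p.Prime ∧ ∃ i, p ∣ D i := by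
  unfold PF
  rw [Nat.mem_primeFactors]
  constructor
  · rintro ⟨hp, hpd, _⟩
    refine ⟨hp, ?_⟩
    rcases (Nat.Prime.dvd_mul hp).1 hpd with h | h
    · rcases (Nat.Prime.dvd_mul hp).1 h with h | h
      · exact ⟨0, h⟩
      · exact ⟨1, h⟩
    · exact ⟨2, h⟩
  · rintro ⟨hp, i, hi⟩
    refine ⟨hp, ?_, mul_ne_zero (mul_ne_zero (hD 0) (hD 1)) (hD 2)⟩
    fin_cases i
    · exact (hi.mul_right _).mul_right _
    · exact (hi.mul_left _).mul_right _
    · exact hi.mul_left _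

/-- product of the local factors -/
noncomputable def GG (c₁ c₂ m : ℤ) (a b : Fin 3 → Fin k → ℤ) (D : Fin 3 → ℕ) : ℝ := ∏ p ∈ PF D, gp c₁ c₂ m a b D p

lemma gp_nonneg (c₁ c₂ m : ℤ) (a b : Fin 3 → Fin k → ℤ) (D : Fin 3 → ℕ) (p : ℕ) : 0 ≤ gp c₁ c₂ m a b D p := by
  unfold gp; positivity

lemma GG_nonneg (c₁ c₂ m : ℤ) (a b : Fin 3 → Fin k → ℤ) (D : Fin 3 → ℕ) : 0 ≤ GG c₁ c₂ m a b D :=
  prod_nonneg fun _ _ => gp_nonneg _ _ _ _ _ _ _

def gcd3 (D : Fin 3 → ℕ) : ℕ := (D 0).gcd ((D 1).gcd (D 2))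

lemma gcd3_dvd (D : Fin 3 → ℕ) (i : Fin 3) : gcd3 D ∣ D i := by
  unfold gcd3
  fin_cases i
  · exact Nat.gcd_dvd_left _ _
  · exact (Nat.gcd_dvd_right _ _).trans (Nat.gcd_dvd_left _ _)
  · exact (Nat.gcd_dvd_right _ _).trans (Nat.gcd_dvd_right _ _)

lemma dvd_gcd3 {D : Fin 3 → ℕ} {p : ℕ} (h : ∀ i, p ∣ D i) : p ∣ gcd3 D :=
  Nat.dvd_gcd (h 0) (Nat.dvd_gcd (h 1) (h 2))

lemma prod_PF (D : Fin 3 → ℕ) (hD : ∀ i, D i ≠ 0) (F : Fin 3 → ℕ → ℝ) :
    ∏ p ∈ PF D, ∏ i, (if p ∣ D i then F i p else 1) = ∏ i, ∏ p ∈ (D i).primeFactors, F i p := by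
  rw [prod_comm]
  apply prod_congr rfl
  intro i _
  rw [← prod_filter]
  apply prod_congr _ fun _ _ => rfl
  ext p
  rw [mem_filter, mem_PF hD, Nat.mem_primeFactors]
  constructor
  · rintro ⟨⟨hp, _⟩, h⟩; exact ⟨hp, h, hD i⟩
  · rintro ⟨hp, h, _⟩; exact ⟨⟨hp, i, h⟩, h⟩

lemma GG_eq (c₁ c₂ m : ℤ) (a b : Fin 3 → Fin k → ℤ) (D : Fin 3 → ℕ) (hD : ∀ i, D i ≠ 0)
    (h1 : ∀ p, p.Prime → ∀ i, p ∣ D i → ¬ (p : ℤ) ∣ c₁) (h2 : ∀ p, p.Prime → ∀ i, p ∣ D i → ¬ (p : ℤ) ∣ c₂)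
    (h : gcd3 D = 1) : GG c₁ c₂ m a b D = ∏ i, rr (a i) (b i) (D i) := by
  unfold GG rr
  rw [← prod_PF D hD (fun i p => ((RR (a i) (b i) p).card : ℝ) / p)]
  apply prod_congr rfl
  intro p hp
  rw [mem_PF hD] at hp
  obtain ⟨hp, i, hi⟩ := hp
  apply gp_eq c₁ c₂ m a b D p hp (h1 p hp i hi) (h2 p hp i hi)
  by_contra hcon
  push Not at hcon
  have := dvd_gcd3 hcon
  rw [h] at this
  exact hp.one_lt.ne' (Nat.dvd_one.1 this)

lemma GG_le (c₁ c₂ m : ℤ) (a b : Fin 3 → Fin k → ℤ) (D : Fin 3 → ℕ) (hD : ∀ i, Squarefree (D i)) (hb : ∀ i, CB (b i) (D i))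
    (h1 : ∀ p, p.Prime → ∀ i, p ∣ D i → ¬ (p : ℤ) ∣ c₁) (h2 : ∀ p, p.Prime → ∀ i, p ∣ D i → ¬ (p : ℤ) ∣ c₂) :
    GG c₁ c₂ m a b D ≤ gcd3 D * ∏ i, (tau (D i) ^ k / D i) := by
  have hD0 : ∀ i, D i ≠ 0 := fun i => (hD i).ne_zero
  have hg0 : gcd3 D ≠ 0 := fun h => hD0 0 (Nat.eq_zero_of_zero_dvd (h ▸ gcd3_dvd D 0))
  calc GG c₁ c₂ m a b D ≤ ∏ p ∈ PF D, ((if ∀ i, p ∣ D i then (p : ℝ) else 1) * ∏ i, (if p ∣ D i then (2 : ℝ) ^ k / p else 1)) := by
        apply prod_le_prod (fun p _ => gp_nonneg _ _ _ _ _ _ _)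
        intro p hp
        rw [mem_PF hD0] at hp
        obtain ⟨hp, i, hi⟩ := hp
        exact gp_le c₁ c₂ m a b D p hp (h1 p hp i hi) (h2 p hp i hi) (fun i' hi' => hb i' p hp hi')
    _ = (∏ p ∈ PF D, (if ∀ i, p ∣ D i then (p : ℝ) else 1)) * ∏ i, (tau (D i) ^ k / D i) := by
        rw [prod_mul_distrib, prod_PF D hD0 (fun _ p => (2 : ℝ) ^ k / p)]
        congr 1
        apply prod_congr rfl; intro i _
        exact twok (hD i)
    _ ≤ _ := by
        apply mul_le_mul_of_nonneg_right _ (prod_nonneg fun i _ => div_nonneg (pow_nonneg (tau_nonneg _) _) (Nat.cast_nonneg _))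
        rw [← prod_filter]
        have e : (PF D).filter (fun p => ∀ i, p ∣ D i) = (gcd3 D).primeFactors := by
          ext p
          rw [mem_filter, mem_PF hD0, Nat.mem_primeFactors]
          constructor
          · rintro ⟨⟨hp, _⟩, h⟩; exact ⟨hp, dvd_gcd3 h, hg0⟩
          · rintro ⟨hp, h, _⟩
            exact ⟨⟨hp, 0, h.trans (gcd3_dvd D 0)⟩, fun i => h.trans (gcd3_dvd D i)⟩
        rw [e]
        have := Nat.le_of_dvd (Nat.pos_of_ne_zero hg0) (Nat.prod_primeFactors_dvd (gcd3 D))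
        rw [← Nat.cast_prod]
        exact_mod_cast this

/-- multiples of `e` -/
lemma mult_sum (κ W e : ℕ) (he : 1 ≤ e) (𝒟 : Finset ℕ) (h𝒟 : 𝒟 ⊆ Icc 1 W) :
    ∑ D ∈ 𝒟.filter (fun D => e ∣ D), tau D ^ κ / D ≤ (tau e ^ κ / e) * (1 + Real.log W) ^ (2 ^ κ) := by
  have he0 : (0 : ℝ) < e := by exact_mod_cast he
  calc ∑ D ∈ 𝒟.filter (fun D => e ∣ D), tau D ^ κ / D ≤ ∑ D ∈ 𝒟.filter (fun D => e ∣ D), (tau e ^ κ / e) * (tau (D / e) ^ κ / ((D / e : ℕ) : ℝ)) := by
        apply sum_le_sum; intro D hD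
        rw [mem_filter] at hD
        obtain ⟨d, rfl⟩ := hD.2
        rw [Nat.mul_div_cancel_left d he]
        push_cast
        rw [div_mul_div_comm]
        apply div_le_div_of_nonneg_right _ (by positivity)
        rw [← mul_pow]
        exact pow_le_pow_left₀ (tau_nonneg _) (tau_mul_le e d) _
    _ = (tau e ^ κ / e) * ∑ D ∈ 𝒟.filter (fun D => e ∣ D), (tau (D / e) ^ κ / ((D / e : ℕ) : ℝ)) := by rw [mul_sum]
    _ ≤ _ := by
        apply mul_le_mul_of_nonneg_left _ (div_nonneg (pow_nonneg (tau_nonneg _) _) he0.le)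
        refine le_trans ?_ (tau_moment κ W)
        have hinj : Set.InjOn (fun D => D / e) (𝒟.filter (fun D => e ∣ D) : Finset ℕ) := by
          intro D hD D' hD' h
          rw [mem_coe, mem_filter] at hD hD'
          obtain ⟨d, rfl⟩ := hD.2
          obtain ⟨d', rfl⟩ := hD'.2
          simp only [Nat.mul_div_cancel_left _ he] at h
          rw [h]
        rw [← sum_image (f := fun d : ℕ => tau d ^ κ / (d : ℝ)) hinj]
        apply sum_le_sum_of_subset_of_nonneg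
        · intro d hd
          rw [mem_image] at hd
          obtain ⟨D, hD, rfl⟩ := hd
          rw [mem_filter] at hD
          obtain ⟨d, rfl⟩ := hD.2
          have h1 := mem_Icc.1 (h𝒟 hD.1)
          rw [Nat.mul_div_cancel_left _ he, mem_Icc]
          constructor
          · rcases Nat.eq_zero_or_pos d with h | h
            · rw [h, mul_zero] at h1; omega
            · exact h
          · exact (Nat.le_mul_of_pos_left d he).trans h1.2
        · intro d _ _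
          exact div_nonneg (pow_nonneg (tau_nonneg _) _) (Nat.cast_nonneg _)

/-- the sum over the triples with a given gcd -/
lemma gcd_sum (κ W : ℕ) (𝒟 : Fin 3 → Finset ℕ) (h𝒟 : ∀ i, 𝒟 i ⊆ Icc 1 W) (y : ℝ) (hy : 1 ≤ y)
    (hg : ∀ D ∈ Fintype.piFinset 𝒟, y ≤ gcd3 D ∨ gcd3 D = 1) :
    ∑ D ∈ (Fintype.piFinset 𝒟).filter (fun D => gcd3 D ≠ 1), (gcd3 D : ℝ) * ∏ i, (tau (D i) ^ κ / D i) ≤
      (1 / y) * (1 + Real.log W) ^ (2 ^ (3 * κ) + 3 * 2 ^ κ) := by
  classical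
  set S := (Fintype.piFinset 𝒟).filter (fun D => gcd3 D ≠ 1) with hS
  have hpos : ∀ D ∈ Fintype.piFinset 𝒟, ∀ i, 1 ≤ D i := by
    intro D hD i
    rw [Fintype.mem_piFinset] at hD
    exact (mem_Icc.1 (h𝒟 i (hD i))).1
  have hgpos : ∀ D ∈ Fintype.piFinset 𝒟, 1 ≤ gcd3 D := by
    intro D hD
    apply Nat.pos_of_ne_zero
    intro h
    have := Nat.eq_zero_of_zero_dvd (h ▸ gcd3_dvd D 0)
    have := hpos D hD 0
    omega
  have hmaps : ∀ D ∈ S, gcd3 D ∈ Icc 1 W := by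
    intro D hD
    rw [hS, mem_filter] at hD
    have h1 := hD.1
    rw [Fintype.mem_piFinset] at h1
    have h2 := mem_Icc.1 (h𝒟 0 (h1 0))
    rw [mem_Icc]
    exact ⟨hgpos D hD.1, (Nat.le_of_dvd h2.1 (gcd3_dvd D 0)).trans h2.2⟩
  rw [← sum_fiberwise_of_maps_to hmaps]
  have hW0 : 0 ≤ Real.log W := Real.log_natCast_nonneg _
  calc ∑ e ∈ Icc 1 W, ∑ D ∈ S.filter (fun D => gcd3 D = e), (gcd3 D : ℝ) * ∏ i, (tau (D i) ^ κ / D i) ≤
        ∑ e ∈ Icc 1 W, (1 / y) * (tau e ^ (3 * κ) / e) * (1 + Real.log W) ^ (3 * 2 ^ κ) := by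
        apply sum_le_sum; intro e he
        rw [mem_Icc] at he
        have he0 : (0 : ℝ) < e := by exact_mod_cast he.1
        by_cases hne : (S.filter (fun D => gcd3 D = e)).Nonempty
        · obtain ⟨D₀, hD₀⟩ := hne
          rw [mem_filter, hS, mem_filter] at hD₀
          have hye : y ≤ e := by
            rcases hg D₀ hD₀.1.1 with h | h
            · rw [hD₀.2] at h; exact h
            · exact absurd h hD₀.1.2
          calc ∑ D ∈ S.filter (fun D => gcd3 D = e), (gcd3 D : ℝ) * ∏ i, (tau (D i) ^ κ / D i) =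
                ∑ D ∈ S.filter (fun D => gcd3 D = e), (e : ℝ) * ∏ i, (tau (D i) ^ κ / D i) := by
                apply sum_congr rfl; intro D hD
                rw [(mem_filter.1 hD).2]
            _ ≤ ∑ D ∈ Fintype.piFinset (fun i => (𝒟 i).filter (fun d => e ∣ d)), (e : ℝ) * ∏ i, (tau (D i) ^ κ / D i) := by
                apply sum_le_sum_of_subset_of_nonneg
                · intro D hD
                  rw [mem_filter, hS, mem_filter, Fintype.mem_piFinset] at hD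
                  rw [Fintype.mem_piFinset]
                  intro i
                  rw [mem_filter]
                  exact ⟨hD.1.1 i, hD.2 ▸ gcd3_dvd D i⟩
                · intro D _ _
                  exact mul_nonneg he0.le (prod_nonneg fun i _ => div_nonneg (pow_nonneg (tau_nonneg _) _) (Nat.cast_nonneg _))
            _ = e * ∏ i, ∑ d ∈ (𝒟 i).filter (fun d => e ∣ d), tau d ^ κ / d := by
                rw [← mul_sum, prod_univ_sum]
            _ ≤ e * ∏ _i : Fin 3, ((tau e ^ κ / e) * (1 + Real.log W) ^ (2 ^ κ)) := by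
                apply mul_le_mul_of_nonneg_left _ he0.le
                apply prod_le_prod
                · intro i _
                  exact sum_nonneg fun d _ => div_nonneg (pow_nonneg (tau_nonneg _) _) (Nat.cast_nonneg _)
                · intro i _
                  exact mult_sum κ W e he.1 (𝒟 i) (h𝒟 i)
            _ = (1 / e) * (tau e ^ (3 * κ) / e) * (1 + Real.log W) ^ (3 * 2 ^ κ) := by
                rw [prod_const, card_univ, Fintype.card_fin, mul_pow, div_pow, ← pow_mul, ← pow_mul, mul_comm κ 3, mul_comm (2 ^ κ) 3]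
                field_simp
            _ ≤ _ := by
                have := tau_nonneg e
                gcongr
        · rw [not_nonempty_iff_eq_empty] at hne
          rw [hne, sum_empty]
          have := tau_nonneg e
          positivity
    _ = (1 / y) * (∑ e ∈ Icc 1 W, tau e ^ (3 * κ) / e) * (1 + Real.log W) ^ (3 * 2 ^ κ) := by
        rw [mul_sum, sum_mul]
    _ ≤ (1 / y) * (1 + Real.log W) ^ (2 ^ (3 * κ)) * (1 + Real.log W) ^ (3 * 2 ^ κ) := by
        apply mul_le_mul_of_nonneg_right _ (by positivity)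
        apply mul_le_mul_of_nonneg_left (tau_moment _ _) (by positivity)
    _ = _ := by rw [pow_add]; ring

lemma prod_all_le (κ W : ℕ) (𝒟 : Fin 3 → Finset ℕ) (h𝒟 : ∀ i, 𝒟 i ⊆ Icc 1 W) :
    ∑ D ∈ Fintype.piFinset 𝒟, ∏ i, (tau (D i) ^ κ / D i) ≤ (1 + Real.log W) ^ (3 * 2 ^ κ) := by
  have e : ∑ D ∈ Fintype.piFinset 𝒟, ∏ i, (tau (D i) ^ κ / D i) = ∏ i, ∑ d ∈ 𝒟 i, tau d ^ κ / d := by
    rw [prod_univ_sum]
  rw [e]
  calc ∏ i, ∑ d ∈ 𝒟 i, tau d ^ κ / d ≤ ∏ _i : Fin 3, (1 + Real.log W) ^ (2 ^ κ) := by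
        apply prod_le_prod
        · intro i _
          exact sum_nonneg fun d _ => div_nonneg (pow_nonneg (tau_nonneg _) _) (Nat.cast_nonneg _)
        · intro i _
          refine le_trans ?_ (tau_moment κ W)
          apply sum_le_sum_of_subset_of_nonneg (h𝒟 i)
          intro d _ _
          exact div_nonneg (pow_nonneg (tau_nonneg _) _) (Nat.cast_nonneg _)
    _ = _ := by rw [prod_const, card_univ, Fintype.card_fin, ← pow_mul, mul_comm]

end Pool.Agent.H76.TB
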