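import Mathlib
import Pool.Agent.H76.TB.A12

/-! The model sums in three variables. -/

set_option autoImplicit false

open Finset

namespace Pool.Agent.H76.TB

open Pool.Agent.H373R2.T7 (ev_log' ev_L' pz mem_pz Vz Vz_pos lamz lamz_nonneg Vz_inv_small es es_le es_nonneg sum_pz_le choice
  sieve_gen' card_small card_pz_le)
open Pool.Agent.H76.VG (Conv Eq2 count2)

variable {k : ℕ}

/-- the bad residues -/
def BD (a b : Fin 3 → Fin k → ℤ) (p : ℕ) (i : Fin 3) (x : ℤ) : Prop := (p : ℤ) ∣ x ∨ (p : ℤ) ∣ Fv (a i) (b i) x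

instance (a b : Fin 3 → Fin k → ℤ) (p : ℕ) (i : Fin 3) : DecidablePred (BD a b p i) := by
  intro x; unfold BD; infer_instance

lemma BD_congr (a b : Fin 3 → Fin k → ℤ) (p : ℕ) (i : Fin 3) (x y : ℤ) (h : x ≡ y [ZMOD p]) : BD a b p i x ↔ BD a b p i y := by
  unfold BD
  rw [Fv_dvd_congr (a i) (b i) p h]
  have : (p : ℤ) ∣ x ↔ (p : ℤ) ∣ y := by
    rw [Int.dvd_iff_emod_eq_zero, Int.dvd_iff_emod_eq_zero]
    have : x % p = y % p := h
    rw [this]
  rw [this]

def bad (c₁ c₂ m : ℤ) (a b : Fin 3 → Fin k → ℤ) (p : ℕ) (x y : ℤ) : Prop := ∃ i, BD a b p i (nn c₁ c₂ m i x y)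

instance (c₁ c₂ m : ℤ) (a b : Fin 3 → Fin k → ℤ) (p : ℕ) (x y : ℤ) : Decidable (bad c₁ c₂ m a b p x y) := by
  unfold bad; infer_instance

lemma bad_congr (c₁ c₂ m : ℤ) (a b : Fin 3 → Fin k → ℤ) (p : ℕ) {x x' y y' : ℤ} (hx : x ≡ x' [ZMOD p]) (hy : y ≡ y' [ZMOD p]) :
    bad c₁ c₂ m a b p x y ↔ bad c₁ c₂ m a b p x' y' := by
  unfold bad
  apply exists_congr
  intro i
  exact BD_congr a b p i _ _ (nn_congr c₁ c₂ m i hx hy)

/-- number of the bad pairs of residues -/
def nb (c₁ c₂ m : ℤ) (a b : Fin 3 → Fin k → ℤ) (p : ℕ) : ℕ :=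
  ((range p ×ˢ range p).filter (fun t => bad c₁ c₂ m a b p (t.1 : ℤ) (t.2 : ℤ))).card

lemma root_le (a b : Fin k → ℤ) (p : ℕ) (hp : p.Prime) (h : ∀ j, ¬ ((p : ℤ) ∣ a j ∧ (p : ℤ) ∣ b j)) :
    ((range p).filter (fun n : ℕ => (p : ℤ) ∣ Fv a b (n : ℤ))).card ≤ k := by
  classical
  have hp' : Prime (p : ℤ) := Nat.prime_iff_prime_int.1 hp
  have h1 : (range p).filter (fun n : ℕ => (p : ℤ) ∣ Fv a b (n : ℤ)) ⊆
      univ.biUnion (fun j : Fin k => (range p).filter (fun n : ℕ => (p : ℤ) ∣ a j * n + b j)) := by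
    intro n hn
    rw [mem_filter] at hn
    unfold Fv at hn
    rw [Prime.dvd_finsetProd_iff hp'] at hn
    obtain ⟨hn1, j, hj, hn2⟩ := hn
    rw [mem_biUnion]
    exact ⟨j, hj, mem_filter.2 ⟨hn1, hn2⟩⟩
  refine (card_le_card h1).trans ?_
  refine (card_biUnion_le).trans ?_
  calc ∑ j : Fin k, ((range p).filter (fun n : ℕ => (p : ℤ) ∣ a j * n + b j)).card ≤ ∑ _j : Fin k, 1 := by
        apply sum_le_sum; intro j _
        rw [card_le_one]
        intro n hn n' hn'
        rw [mem_filter, mem_range] at hn hn'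
        have h2 : (p : ℤ) ∣ a j * ((n : ℤ) - n') := by
          have := dvd_sub hn.2 hn'.2
          have e : a j * (n : ℤ) + b j - (a j * n' + b j) = a j * ((n : ℤ) - n') := by ring
          rwa [e] at this
        rcases hp'.dvd_or_dvd h2 with h3 | h3
        · exact absurd ⟨h3, (dvd_add_right (h3.mul_right _)).1 hn.2⟩ (h j)
        · have h5 := Int.eq_zero_of_abs_lt_dvd h3 (by rw [abs_lt]; omega)
          omega
    _ = k := by simp

lemma BD_le (a b : Fin 3 → Fin k → ℤ) (p : ℕ) (hp : p.Prime) (i : Fin 3) (h : ∀ j, ¬ ((p : ℤ) ∣ a i j ∧ (p : ℤ) ∣ b i j)) :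
    ((range p).filter (fun n : ℕ => BD a b p i (n : ℤ))).card ≤ k + 1 := by
  have h1 : (range p).filter (fun n : ℕ => BD a b p i (n : ℤ)) ⊆ (range p).filter (fun n : ℕ => (p : ℤ) ∣ Fv (a i) (b i) (n : ℤ)) ∪ {0} := by
    intro n hn
    rw [mem_filter] at hn
    rw [mem_union, mem_filter, mem_singleton]
    rcases hn.2 with h2 | h2
    · right
      rw [mem_range] at hn
      have h3 : p ∣ n := by exact_mod_cast h2
      exact Nat.eq_zero_of_dvd_of_lt h3 hn.1
    · exact Or.inl ⟨hn.1, h2⟩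
  refine (card_le_card h1).trans ((card_union_le _ _).trans ?_)
  rw [card_singleton]
  have := root_le (a i) (b i) p hp h
  omega

lemma nb_le (c₁ c₂ m : ℤ) (a b : Fin 3 → Fin k → ℤ) (p : ℕ) (hp : p.Prime) (hc : ¬ ((p : ℤ) ∣ c₁ ∧ (p : ℤ) ∣ c₂))
    (h : ∀ i j, ¬ ((p : ℤ) ∣ a i j ∧ (p : ℤ) ∣ b i j)) : nb c₁ c₂ m a b p ≤ 3 * (k + 1) * p := by
  classical
  have h1 : (range p ×ˢ range p).filter (fun t => bad c₁ c₂ m a b p (t.1 : ℤ) (t.2 : ℤ)) ⊆
      univ.biUnion (fun i : Fin 3 => (range p ×ˢ range p).filter (fun t => BD a b p i (nn c₁ c₂ m i (t.1 : ℤ) (t.2 : ℤ)))) := by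
    intro t ht
    rw [mem_filter] at ht
    obtain ⟨i, hi⟩ := ht.2
    rw [mem_biUnion]
    exact ⟨i, mem_univ _, mem_filter.2 ⟨ht.1, hi⟩⟩
  have hfib : ∀ (A : ℕ × ℕ → Prop) [DecidablePred A], (∀ x, ((range p).filter (fun y => A (x, y))).card ≤ k + 1) →
      ((range p ×ˢ range p).filter A).card ≤ (k + 1) * p := by
    intro A _ hA
    have e : ((range p ×ˢ range p).filter A).card = ∑ x ∈ range p, ((range p).filter (fun y => A (x, y))).card := by
      rw [card_filter, sum_product]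
      apply sum_congr rfl; intro x _
      rw [card_filter]
    rw [e]
    calc _ ≤ ∑ _x ∈ range p, (k + 1) := sum_le_sum fun x _ => hA x
      _ = _ := by rw [sum_const, card_range, smul_eq_mul, mul_comm]
  have hfib' : ∀ (A : ℕ × ℕ → Prop) [DecidablePred A], (∀ y, ((range p).filter (fun x => A (x, y))).card ≤ k + 1) →
      ((range p ×ˢ range p).filter A).card ≤ (k + 1) * p := by
    intro A _ hA
    have e : ((range p ×ˢ range p).filter A).card = ∑ y ∈ range p, ((range p).filter (fun x => A (x, y))).card := by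
      rw [card_filter, sum_product_right]
      apply sum_congr rfl; intro x _
      rw [card_filter]
    rw [e]
    calc _ ≤ ∑ _x ∈ range p, (k + 1) := sum_le_sum fun x _ => hA x
      _ = _ := by rw [sum_const, card_range, smul_eq_mul, mul_comm]
  have hall : ∀ i : Fin 3, ((range p ×ˢ range p).filter (fun t => BD a b p i (nn c₁ c₂ m i (t.1 : ℤ) (t.2 : ℤ)))).card ≤ (k + 1) * p := by
    intro i
    have hi := BD_le a b p hp i (h i)
    fin_cases i
    · exact hfib' _ (fun y => hi)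
    · exact hfib _ (fun x => hi)
    · by_cases h2 : (p : ℤ) ∣ c₂
      · have h3 : ¬ (p : ℤ) ∣ c₁ := fun h3 => hc ⟨h3, h2⟩
        apply hfib'
        intro y
        have := affine_count p hp c₁ (m - c₂ * y) h3 (BD a b p 2) (BD_congr a b p 2)
        refine le_trans (le_of_eq ?_) (this.le.trans hi)
        congr 1
        apply filter_congr
        intro x _
        have e : nn c₁ c₂ m 2 (x : ℤ) (y : ℤ) = m - c₂ * (y : ℤ) - c₁ * x := by
          show m - c₁ * (x : ℤ) - c₂ * y = _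
          ring
        show BD a b p 2 (nn c₁ c₂ m 2 (x : ℤ) (y : ℤ)) ↔ _
        rw [e]
      · apply hfib
        intro x
        have := affine_count p hp c₂ (m - c₁ * x) h2 (BD a b p 2) (BD_congr a b p 2)
        exact this.le.trans hi
  unfold nb
  refine (card_le_card h1).trans ((card_biUnion_le).trans ?_)
  calc _ ≤ ∑ _i : Fin 3, (k + 1) * p := sum_le_sum fun i _ => hall i
    _ = _ := by simp; ring

lemma nb_sq (c₁ c₂ m : ℤ) (a b : Fin 3 → Fin k → ℤ) (p : ℕ) : nb c₁ c₂ m a b p ≤ p ^ 2 := by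
  unfold nb
  refine (card_filter_le _ _).trans ?_
  rw [card_product, card_range, sq]

/-- the combined conditions -/
def AA (c₁ c₂ m : ℤ) (a b : Fin 3 → Fin k → ℤ) (D : Fin 3 → ℕ) (z : ℕ) (p x y : ℕ) : Prop :=
  (p ≤ z ∧ bad c₁ c₂ m a b p (x : ℤ) (y : ℤ)) ∨ (z < p ∧ ∀ i, PD a b D p i (nn c₁ c₂ m i (x : ℤ) (y : ℤ)))

instance (c₁ c₂ m : ℤ) (a b : Fin 3 → Fin k → ℤ) (D : Fin 3 → ℕ) (z : ℕ) (p x y : ℕ) : Decidable (AA c₁ c₂ m a b D z p x y) := by
  unfold AA; infer_instance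

lemma sq_dvd_iff {D : ℕ} (hD : Squarefree D) (F : ℤ) : (D : ℤ) ∣ F ↔ ∀ p, p.Prime → p ∣ D → (p : ℤ) ∣ F := by
  constructor
  · intro h p _ hp
    exact (Int.natCast_dvd_natCast.2 hp).trans h
  · intro h
    rw [Int.natCast_dvd, ← Nat.prod_primeFactors_of_squarefree hD]
    apply Finset.prod_primes_dvd
    · intro p hp
      exact (Nat.prime_of_mem_primeFactors hp).prime
    · intro p hp
      exact Int.natCast_dvd.1 (h p (Nat.prime_of_mem_primeFactors hp) (Nat.dvd_of_mem_primeFactors hp))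

theorem cnt_D (c₁ c₂ m : ℤ) (X z r W : ℕ) (hz : 1 ≤ z) (a b : Fin 3 → Fin k → ℤ) (D : Fin 3 → ℕ)
    (hsq : ∀ i, Squarefree (D i)) (hDW : ∀ i, D i ≤ W) (hDz : ∀ i p, p.Prime → p ∣ D i → z < p) :
    |((((TG c₁ c₂ m X).filter (fun t => ∀ i, (D i : ℤ) ∣ Fv (a i) (b i) (nn c₁ c₂ m i (t.1 : ℤ) (t.2 : ℤ)))).filter
        (fun t => ∀ p ∈ pz z, ¬ bad c₁ c₂ m a b p (t.1 : ℤ) (t.2 : ℤ))).card : ℝ) -
      ((TG c₁ c₂ m X).card * GG c₁ c₂ m a b D) * ∏ p ∈ pz z, (1 - (nb c₁ c₂ m a b p : ℝ) / p ^ 2)| ≤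
      ((z : ℝ) + 1) ^ r * ((z : ℝ) ^ (2 * r) * W ^ 6 * (4 * X)) +
        2 * ((TG c₁ c₂ m X).card * GG c₁ c₂ m a b D) * es (fun p => (nb c₁ c₂ m a b p : ℝ) / p ^ 2) (pz z) r := by
  classical
  have hD0 : ∀ i, D i ≠ 0 := fun i => (hsq i).ne_zero
  have hPFz : ∀ p ∈ PF D, z < p := by
    intro p hp
    rw [mem_PF hD0] at hp
    obtain ⟨hp, i, hi⟩ := hp
    exact hDz i p hp hi
  have hz1 : (1 : ℝ) ≤ z := by exact_mod_cast hz
  set s := (TG c₁ c₂ m X).filter (fun t => ∀ i, (D i : ℤ) ∣ Fv (a i) (b i) (nn c₁ c₂ m i (t.1 : ℤ) (t.2 : ℤ))) with hs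
  have key := sieve_gen' s (fun _ => (1 : ℝ)) (fun _ _ => zero_le_one)
    (fun p (t : ℕ × ℕ) => bad c₁ c₂ m a b p (t.1 : ℤ) (t.2 : ℤ)) (pz z) (fun p => (nb c₁ c₂ m a b p : ℝ) / p ^ 2)
    (fun p hp => by
      rw [mem_pz] at hp
      have h0 : (0 : ℝ) < p := by exact_mod_cast hp.2.pos
      refine ⟨by positivity, ?_⟩
      rw [div_le_one (by positivity)]
      exact_mod_cast nb_sq c₁ c₂ m a b p)
    ((TG c₁ c₂ m X).card * GG c₁ c₂ m a b D) (mul_nonneg (Nat.cast_nonneg _) (GG_nonneg _ _ _ _ _ _))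
    (fun _ => (z : ℝ) ^ (2 * r) * W ^ 6 * (4 * X)) r ?_
  · have e1 : ∑ t ∈ s with ∀ p ∈ pz z, ¬ bad c₁ c₂ m a b p (t.1 : ℤ) (t.2 : ℤ), (1 : ℝ) =
        ((s.filter (fun t => ∀ p ∈ pz z, ¬ bad c₁ c₂ m a b p (t.1 : ℤ) (t.2 : ℤ))).card : ℝ) := by
      rw [sum_const, nsmul_eq_mul, mul_one]
    rw [e1] at key
    refine key.trans ?_
    apply add_le_add _ le_rfl
    have e2 : ∑ j ∈ range (r + 1), ∑ _S ∈ (pz z).powersetCard j, ((z : ℝ) ^ (2 * r) * W ^ 6 * (4 * X)) =
        ((∑ j ∈ range (r + 1), ((pz z).powersetCard j).card : ℕ) : ℝ) * ((z : ℝ) ^ (2 * r) * W ^ 6 * (4 * X)) := by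
      push_cast
      rw [sum_mul]
      apply sum_congr rfl; intro j _
      rw [sum_const, nsmul_eq_mul]
    rw [e2]
    apply mul_le_mul_of_nonneg_right _ (by positivity)
    refine (card_small (pz z) r).trans ?_
    apply pow_le_pow_left₀ (by positivity)
    have := card_pz_le z
    have : ((pz z).card : ℝ) ≤ z := by exact_mod_cast this
    linarith
  · intro S hS hSr
    have hSz : ∀ p ∈ S, p.Prime ∧ p ≤ z := by
      intro p hp
      have := mem_pz.1 (hS hp)
      exact ⟨this.2, this.1⟩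
    have hdisj : Disjoint S (PF D) := by
      rw [disjoint_left]
      intro p hp hp'
      have h1 := (hSz p hp).2
      have h2 := hPFz p hp'
      omega
    have hcount := count2 (AA c₁ c₂ m a b D z) (TG c₁ c₂ m X) (4 * X) (TG_conv c₁ c₂ m X).eq2 (S ∪ PF D) (by
      intro p hp
      rw [mem_union] at hp
      rcases hp with hp | hp
      · exact (hSz p hp).1
      · exact ((mem_PF hD0).1 hp).1) 1 le_rfl (by
      intro p hp h1
      have hpp : p.Prime := by
        rw [mem_union] at hp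
        rcases hp with hp | hp
        · exact (hSz p hp).1
        · exact ((mem_PF hD0).1 hp).1
      exact hpp.one_lt.ne' (Nat.dvd_one.1 h1)) 0 0
    -- cardinalities modulo `p`
    have hA1 : ∀ p ∈ S, ((range p ×ˢ range p).filter (fun t => AA c₁ c₂ m a b D z p t.1 t.2)).card = nb c₁ c₂ m a b p := by
      intro p hp
      have h1 := (hSz p hp).2
      unfold nb
      congr 1
      apply filter_congr
      intro t _
      unfold AA
      constructor
      · rintro (h | h)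
        · exact h.2
        · omega
      · exact fun h => Or.inl ⟨h1, h⟩
    have hA2 : ∀ p ∈ PF D, ((range p ×ˢ range p).filter (fun t => AA c₁ c₂ m a b D z p t.1 t.2)).card = mu p (PD a b D p) c₁ c₂ m := by
      intro p hp
      have h1 := hPFz p hp
      unfold mu
      congr 1
      apply filter_congr
      intro t _
      unfold AA
      constructor
      · rintro (h | h)
        · omega
        · exact h.2
      · exact fun h => Or.inr ⟨h1, h⟩
    have e1 : ∏ p ∈ S ∪ PF D, ((((range p ×ˢ range p).filter (fun t => AA c₁ c₂ m a b D z p t.1 t.2)).card : ℝ) / p ^ 2) =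
        (∏ p ∈ S, ((nb c₁ c₂ m a b p : ℝ) / p ^ 2)) * GG c₁ c₂ m a b D := by
      rw [prod_union hdisj]
      congr 1
      · apply prod_congr rfl; intro p hp; rw [hA1 p hp]
      · unfold GG gp
        apply prod_congr rfl; intro p hp; rw [hA2 p hp]
    have e2 : ∏ p ∈ S ∪ PF D, (((range p ×ˢ range p).filter (fun t => AA c₁ c₂ m a b D z p t.1 t.2)).card : ℝ) ≤
        (z : ℝ) ^ (2 * r) * W ^ 6 := by
      rw [prod_union hdisj]
      apply mul_le_mul _ _ (prod_nonneg fun _ _ => Nat.cast_nonneg _) (by positivity)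
      · calc ∏ p ∈ S, (((range p ×ˢ range p).filter (fun t => AA c₁ c₂ m a b D z p t.1 t.2)).card : ℝ) ≤ ∏ _p ∈ S, (z : ℝ) ^ 2 := by
              apply prod_le_prod (fun _ _ => Nat.cast_nonneg _)
              intro p hp
              rw [hA1 p hp]
              have h1 : (nb c₁ c₂ m a b p : ℝ) ≤ (p : ℝ) ^ 2 := by exact_mod_cast nb_sq c₁ c₂ m a b p
              have h2 : (p : ℝ) ≤ z := by exact_mod_cast (hSz p hp).2
              exact h1.trans (pow_le_pow_left₀ (Nat.cast_nonneg _) h2 2)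
          _ = (z : ℝ) ^ (2 * S.card) := by rw [prod_const, ← pow_mul]
          _ ≤ _ := pow_le_pow_right₀ hz1 (by omega)
      · calc ∏ p ∈ PF D, (((range p ×ˢ range p).filter (fun t => AA c₁ c₂ m a b D z p t.1 t.2)).card : ℝ) ≤ ∏ p ∈ PF D, (p : ℝ) ^ 2 := by
              apply prod_le_prod (fun _ _ => Nat.cast_nonneg _)
              intro p _
              have h1 := card_filter_le (range p ×ˢ range p) (fun t => AA c₁ c₂ m a b D z p t.1 t.2)
              rw [card_product, card_range, ← sq] at h1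
              exact_mod_cast h1
          _ = ((∏ p ∈ PF D, p : ℕ) : ℝ) ^ 2 := by rw [Nat.cast_prod, prod_pow]
          _ ≤ (W ^ 3 : ℝ) ^ 2 := by
              apply pow_le_pow_left₀ (Nat.cast_nonneg _)
              have h1 := Nat.le_of_dvd (Nat.pos_of_ne_zero (mul_ne_zero (mul_ne_zero (hD0 0) (hD0 1)) (hD0 2))) (Nat.prod_primeFactors_dvd (D 0 * D 1 * D 2))
              have h2 : D 0 * D 1 * D 2 ≤ W ^ 3 := by
                calc D 0 * D 1 * D 2 ≤ W * W * W := Nat.mul_le_mul (Nat.mul_le_mul (hDW 0) (hDW 1)) (hDW 2)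
                  _ = W ^ 3 := by ring
              have h3 : ∏ p ∈ PF D, p ≤ W ^ 3 := h1.trans h2
              exact_mod_cast h3
          _ = _ := by ring
    have e3 : s.filter (fun t => ∀ p ∈ S, bad c₁ c₂ m a b p (t.1 : ℤ) (t.2 : ℤ)) =
        (TG c₁ c₂ m X).filter (fun t => (t.1 ≡ 0 [MOD 1] ∧ t.2 ≡ 0 [MOD 1]) ∧ ∀ p ∈ S ∪ PF D, AA c₁ c₂ m a b D z p (t.1 % p) (t.2 % p)) := by
      rw [hs, filter_filter]
      apply filter_congr
      intro t _
      have hmx : ∀ p : ℕ, ((t.1 % p : ℕ) : ℤ) ≡ (t.1 : ℤ) [ZMOD p] := fun p => (Int.natCast_modEq_iff).2 (Nat.mod_modEq _ _)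
      have hmy : ∀ p : ℕ, ((t.2 % p : ℕ) : ℤ) ≡ (t.2 : ℤ) [ZMOD p] := fun p => (Int.natCast_modEq_iff).2 (Nat.mod_modEq _ _)
      constructor
      · rintro ⟨h1, h2⟩
        refine ⟨⟨Nat.modEq_one, Nat.modEq_one⟩, fun p hp => ?_⟩
        rw [mem_union] at hp
        rcases hp with hp | hp
        · exact Or.inl ⟨(hSz p hp).2, (bad_congr c₁ c₂ m a b p (hmx p) (hmy p)).2 (h2 p hp)⟩
        · refine Or.inr ⟨hPFz p hp, fun i hi => ?_⟩
          rw [Fv_dvd_congr (a i) (b i) p (nn_congr c₁ c₂ m i (hmx p) (hmy p))]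
          exact (Int.natCast_dvd_natCast.2 hi).trans (h1 i)
      · rintro ⟨_, h⟩
        constructor
        · intro i
          rw [sq_dvd_iff (hsq i)]
          intro p hp hpd
          have hpPF : p ∈ PF D := (mem_PF hD0).2 ⟨hp, i, hpd⟩
          rcases h p (mem_union_right _ hpPF) with h1 | h1
          · have := hPFz p hpPF
            omega
          · have h2 := h1.2 i hpd
            rwa [Fv_dvd_congr (a i) (b i) p (nn_congr c₁ c₂ m i (hmx p) (hmy p))] at h2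
        · intro p hp
          rcases h p (mem_union_left _ hp) with h1 | h1
          · exact (bad_congr c₁ c₂ m a b p (hmx p) (hmy p)).1 h1.2
          · have := (hSz p hp).2
            omega
    rw [sum_const, nsmul_eq_mul, mul_one, e3]
    rw [e1] at hcount
    have e4 : ((TG c₁ c₂ m X).card : ℝ) / ((1 : ℕ) : ℝ) ^ 2 * ((∏ p ∈ S, ((nb c₁ c₂ m a b p : ℝ) / p ^ 2)) * GG c₁ c₂ m a b D) =
        (TG c₁ c₂ m X).card * GG c₁ c₂ m a b D * ∏ p ∈ S, ((nb c₁ c₂ m a b p : ℝ) / p ^ 2) := by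
      push_cast; ring
    rw [e4] at hcount
    refine hcount.trans ?_
    exact mul_le_mul_of_nonneg_right e2 (by positivity)

end Pool.Agent.H76.TB
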