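import Mathlib
import Pool.Agent.H76.TB.A13

/-! The asymptotic formula for the model sums in three variables. -/

set_option autoImplicit false

open Finset

namespace Pool.Agent.H76.TB

open Pool.Agent.H373R2.T7 (ev_log' ev_L' pz mem_pz Vz Vz_pos lamz lamz_nonneg Vz_inv_small es es_le es_nonneg sum_pz_le choice
  sieve_gen' card_small card_pz_le)

variable {k : ℕ}

/-- divisor sums at integers -/
noncomputable def WZ (a b : Fin k → ℤ) (𝒟 : Finset ℕ) (C : ℕ → ℝ) (x : ℤ) : ℝ := ∑ D ∈ 𝒟, if (D : ℤ) ∣ Fv a b x then C D else 0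

lemma WW_WZ (a b : Fin k → ℤ) (𝒟 : Finset ℕ) (C : ℕ → ℝ) (n : ℕ) : WW a b 𝒟 C n = WZ a b 𝒟 C (n : ℤ) := rfl

lemma FL_lamz (z : ℕ) (a b : Fin k → ℤ) (𝒟 : Finset ℕ) (C : ℕ → ℝ) (n : ℕ) :
    FL (lamz z) z a b 𝒟 C n = (Vz z)⁻¹ * ((if ∀ p ∈ pz z, ¬ ((p : ℤ) ∣ (n : ℤ) ∨ (p : ℤ) ∣ Fv a b (n : ℤ)) then 1 else 0) * WZ a b 𝒟 C (n : ℤ)) := by
  unfold FL lamz RI
  rw [WW_WZ]
  by_cases h1 : ∀ p ∈ pz z, ¬ p ∣ n
  · by_cases h2 : ∀ p ∈ pz z, ¬ (p : ℤ) ∣ Fv a b (n : ℤ)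
    · rw [if_pos h1, if_pos h2, if_pos]
      intro p hp h
      rcases h with h | h
      · exact h1 p hp (by exact_mod_cast h)
      · exact h2 p hp h
    · have h3 : ¬ ∀ p ∈ pz z, ¬ ((p : ℤ) ∣ (n : ℤ) ∨ (p : ℤ) ∣ Fv a b (n : ℤ)) := fun h =>
        h2 fun p hp h' => h p hp (Or.inr h')
      rw [if_neg h2, if_neg h3]; ring
  · have h3 : ¬ ∀ p ∈ pz z, ¬ ((p : ℤ) ∣ (n : ℤ) ∨ (p : ℤ) ∣ Fv a b (n : ℤ)) := fun h =>
      h1 fun p hp h' => h p hp (Or.inl (by exact_mod_cast h'))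
    rw [if_neg h1, if_neg h3]; ring

lemma FL3 (z : ℕ) (c₁ c₂ m : ℤ) (X : ℕ) (a b : Fin 3 → Fin k → ℤ) (𝒟 : Fin 3 → Finset ℕ) (C : Fin 3 → ℕ → ℝ) (t : ℕ × ℕ)
    (ht : t ∈ TG c₁ c₂ m X) :
    FL (lamz z) z (a 0) (b 0) (𝒟 0) (C 0) t.1 * FL (lamz z) z (a 1) (b 1) (𝒟 1) (C 1) t.2 *
        FL (lamz z) z (a 2) (b 2) (𝒟 2) (C 2) (n3 c₁ c₂ m t) =
      ((Vz z)⁻¹) ^ 3 * ((if ∀ p ∈ pz z, ¬ bad c₁ c₂ m a b p (t.1 : ℤ) (t.2 : ℤ) then 1 else 0) *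
        ∏ i, WZ (a i) (b i) (𝒟 i) (C i) (nn c₁ c₂ m i (t.1 : ℤ) (t.2 : ℤ))) := by
  rw [FL_lamz, FL_lamz, FL_lamz, n3_cast ht, Fin.prod_univ_three]
  have e0 : nn c₁ c₂ m 0 (t.1 : ℤ) (t.2 : ℤ) = (t.1 : ℤ) := rfl
  have e1 : nn c₁ c₂ m 1 (t.1 : ℤ) (t.2 : ℤ) = (t.2 : ℤ) := rfl
  have e2 : nn c₁ c₂ m 2 (t.1 : ℤ) (t.2 : ℤ) = m - c₁ * t.1 - c₂ * t.2 := rfl
  rw [e0, e1, e2]
  have hiff : (∀ p ∈ pz z, ¬ bad c₁ c₂ m a b p (t.1 : ℤ) (t.2 : ℤ)) ↔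
      ((∀ p ∈ pz z, ¬ ((p : ℤ) ∣ (t.1 : ℤ) ∨ (p : ℤ) ∣ Fv (a 0) (b 0) (t.1 : ℤ))) ∧
        (∀ p ∈ pz z, ¬ ((p : ℤ) ∣ (t.2 : ℤ) ∨ (p : ℤ) ∣ Fv (a 1) (b 1) (t.2 : ℤ)))) ∧
        (∀ p ∈ pz z, ¬ ((p : ℤ) ∣ m - c₁ * t.1 - c₂ * t.2 ∨ (p : ℤ) ∣ Fv (a 2) (b 2) (m - c₁ * t.1 - c₂ * t.2))) := by
    constructor
    · intro h
      refine ⟨⟨?_, ?_⟩, ?_⟩
      · intro p hp h'
        exact h p hp ⟨0, by unfold BD; rw [e0]; exact h'⟩
      · intro p hp h'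
        exact h p hp ⟨1, by unfold BD; rw [e1]; exact h'⟩
      · intro p hp h'
        exact h p hp ⟨2, by unfold BD; rw [e2]; exact h'⟩
    · rintro ⟨⟨h0, h1⟩, h2⟩ p hp ⟨i, hi⟩
      unfold BD at hi
      fin_cases i
      · exact h0 p hp hi
      · exact h1 p hp hi
      · exact h2 p hp hi
  by_cases h0 : ∀ p ∈ pz z, ¬ ((p : ℤ) ∣ (t.1 : ℤ) ∨ (p : ℤ) ∣ Fv (a 0) (b 0) (t.1 : ℤ))
  · by_cases h1 : ∀ p ∈ pz z, ¬ ((p : ℤ) ∣ (t.2 : ℤ) ∨ (p : ℤ) ∣ Fv (a 1) (b 1) (t.2 : ℤ))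
    · by_cases h2 : ∀ p ∈ pz z, ¬ ((p : ℤ) ∣ m - c₁ * t.1 - c₂ * t.2 ∨ (p : ℤ) ∣ Fv (a 2) (b 2) (m - c₁ * t.1 - c₂ * t.2))
      · rw [if_pos h0, if_pos h1, if_pos h2, if_pos (hiff.2 ⟨⟨h0, h1⟩, h2⟩)]; ring
      · rw [if_neg h2, if_neg (fun h => h2 (hiff.1 h).2)]; ring
    · rw [if_neg h1, if_neg (fun h => h1 (hiff.1 h).1.2)]; ring
  · rw [if_neg h0, if_neg (fun h => h0 (hiff.1 h).1.1)]; ring

lemma WZ3 (c₁ c₂ m : ℤ) (a b : Fin 3 → Fin k → ℤ) (𝒟 : Fin 3 → Finset ℕ) (C : Fin 3 → ℕ → ℝ) (t : ℕ × ℕ) :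
    ∏ i, WZ (a i) (b i) (𝒟 i) (C i) (nn c₁ c₂ m i (t.1 : ℤ) (t.2 : ℤ)) =
      ∑ D ∈ Fintype.piFinset 𝒟, (∏ i, C i (D i)) *
        (if ∀ i, (D i : ℤ) ∣ Fv (a i) (b i) (nn c₁ c₂ m i (t.1 : ℤ) (t.2 : ℤ)) then (1 : ℝ) else 0) := by
  unfold WZ
  rw [prod_univ_sum]
  apply sum_congr rfl
  intro D _
  by_cases h : ∀ i, (D i : ℤ) ∣ Fv (a i) (b i) (nn c₁ c₂ m i (t.1 : ℤ) (t.2 : ℤ))
  · rw [if_pos h, mul_one]
    apply prod_congr rfl; intro i _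
    rw [if_pos (h i)]
  · rw [if_neg h, mul_zero]
    push Not at h
    obtain ⟨i, hi⟩ := h
    exact prod_eq_zero (mem_univ i) (if_neg hi)

/-- the number of the solutions with the divisor conditions -/
noncomputable def cnt (c₁ c₂ m : ℤ) (X z : ℕ) (a b : Fin 3 → Fin k → ℤ) (D : Fin 3 → ℕ) : ℝ :=
  ((((TG c₁ c₂ m X).filter (fun t => ∀ i, (D i : ℤ) ∣ Fv (a i) (b i) (nn c₁ c₂ m i (t.1 : ℤ) (t.2 : ℤ)))).filter
        (fun t => ∀ p ∈ pz z, ¬ bad c₁ c₂ m a b p (t.1 : ℤ) (t.2 : ℤ))).card : ℝ)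

lemma model_expand (z : ℕ) (c₁ c₂ m : ℤ) (X : ℕ) (a b : Fin 3 → Fin k → ℤ) (𝒟 : Fin 3 → Finset ℕ) (C : Fin 3 → ℕ → ℝ) :
    ∑ t ∈ TG c₁ c₂ m X, FL (lamz z) z (a 0) (b 0) (𝒟 0) (C 0) t.1 * FL (lamz z) z (a 1) (b 1) (𝒟 1) (C 1) t.2 *
        FL (lamz z) z (a 2) (b 2) (𝒟 2) (C 2) (n3 c₁ c₂ m t) =
      ((Vz z)⁻¹) ^ 3 * ∑ D ∈ Fintype.piFinset 𝒟, (∏ i, C i (D i)) * cnt c₁ c₂ m X z a b D := by
  rw [sum_congr rfl (fun t ht => FL3 z c₁ c₂ m X a b 𝒟 C t ht), ← mul_sum]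
  congr 1
  have e1 : ∀ t ∈ TG c₁ c₂ m X, (if ∀ p ∈ pz z, ¬ bad c₁ c₂ m a b p (t.1 : ℤ) (t.2 : ℤ) then (1 : ℝ) else 0) *
        ∏ i, WZ (a i) (b i) (𝒟 i) (C i) (nn c₁ c₂ m i (t.1 : ℤ) (t.2 : ℤ)) =
      ∑ D ∈ Fintype.piFinset 𝒟, (∏ i, C i (D i)) * (if (∀ i, (D i : ℤ) ∣ Fv (a i) (b i) (nn c₁ c₂ m i (t.1 : ℤ) (t.2 : ℤ))) ∧
        (∀ p ∈ pz z, ¬ bad c₁ c₂ m a b p (t.1 : ℤ) (t.2 : ℤ)) then (1 : ℝ) else 0) := by
    intro t _
    rw [WZ3, mul_sum]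
    apply sum_congr rfl; intro D _
    by_cases h1 : ∀ i, (D i : ℤ) ∣ Fv (a i) (b i) (nn c₁ c₂ m i (t.1 : ℤ) (t.2 : ℤ))
    · by_cases h2 : ∀ p ∈ pz z, ¬ bad c₁ c₂ m a b p (t.1 : ℤ) (t.2 : ℤ)
      · rw [if_pos h1, if_pos h2, if_pos ⟨h1, h2⟩]; ring
      · have h3 : ¬ ((∀ i, (D i : ℤ) ∣ Fv (a i) (b i) (nn c₁ c₂ m i (t.1 : ℤ) (t.2 : ℤ))) ∧
          (∀ p ∈ pz z, ¬ bad c₁ c₂ m a b p (t.1 : ℤ) (t.2 : ℤ))) := fun h => h2 h.2
        rw [if_neg h2, if_neg h3]; ring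
    · have h3 : ¬ ((∀ i, (D i : ℤ) ∣ Fv (a i) (b i) (nn c₁ c₂ m i (t.1 : ℤ) (t.2 : ℤ))) ∧
          (∀ p ∈ pz z, ¬ bad c₁ c₂ m a b p (t.1 : ℤ) (t.2 : ℤ))) := fun h => h1 h.1
      rw [if_neg h1, if_neg h3]; ring
  rw [sum_congr rfl e1, sum_comm]
  apply sum_congr rfl; intro D _
  rw [← mul_sum]
  congr 1
  unfold cnt
  rw [filter_filter, card_filter]
  push_cast
  rfl

/-- the main term -/
noncomputable def MM (c₁ c₂ m : ℤ) (X z : ℕ) (a b : Fin 3 → Fin k → ℤ) (𝒟 : Fin 3 → Finset ℕ) (C : Fin 3 → ℕ → ℝ) : ℝ :=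
  (TG c₁ c₂ m X).card * (((Vz z)⁻¹) ^ 3 * ∏ p ∈ pz z, (1 - (nb c₁ c₂ m a b p : ℝ) / p ^ 2)) *
    ∏ i, ∑ D ∈ 𝒟 i, C i D * rr (a i) (b i) D

lemma nb_full (c₁ c₂ m : ℤ) (a b : Fin 3 → Fin k → ℤ) (p : ℕ) (i : Fin 3) (j : Fin k) (h : (p : ℤ) ∣ a i j ∧ (p : ℤ) ∣ b i j) :
    nb c₁ c₂ m a b p = p ^ 2 := by
  unfold nb
  rw [filter_true_of_mem, card_product, card_range, sq]
  intro t _
  refine ⟨i, Or.inr ?_⟩
  unfold Fv
  exact ((h.1.mul_right _).add h.2).trans (dvd_prod_of_mem (fun j => a i j * _ + b i j) (mem_univ j))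

theorem mlem (k U : ℕ) (c₁ c₂ : ℤ) (hc₁ : c₁ ≠ 0) (hc₂ : c₂ ≠ 0) (hcop : IsCoprime c₁ c₂) : ∃ B : ℕ, ∀ E : ℕ, ∃ N0 : ℕ,
    ∀ N : ℕ, N0 ≤ N → ∀ z : ℕ, Real.log N ^ B ≤ z → (z : ℝ) ≤ Real.log N ^ E →
    ∀ (a b : Fin 3 → Fin k → ℤ) (W : ℕ) (𝒟 : Fin 3 → Finset ℕ)
    (C : Fin 3 → ℕ → ℝ), 1 ≤ W → W ^ 32 ≤ N → (∀ i, Adm (b i) W (𝒟 i) (C i)) → (∀ i, ∀ D ∈ 𝒟 i, ∀ p, p.Prime → p ∣ D → z < p) →
    ∀ m : ℤ, |∑ t ∈ TG c₁ c₂ m N, FL (lamz z) z (a 0) (b 0) (𝒟 0) (C 0) t.1 * FL (lamz z) z (a 1) (b 1) (𝒟 1) (C 1) t.2 *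
        FL (lamz z) z (a 2) (b 2) (𝒟 2) (C 2) (n3 c₁ c₂ m t) - MM c₁ c₂ m N z a b 𝒟 C| ≤ N ^ 2 / Real.log N ^ U := by
  classical
  set g : ℕ := 2 ^ (3 * k) + 3 * 2 ^ k with hg
  have hgpos : 0 < g := by positivity
  set B : ℕ := U + g + 4 with hB
  refine ⟨B, fun E => ?_⟩
  set U' : ℕ := U + g + 4 with hU'
  obtain ⟨m1, h1⟩ := choice (3 * (k + 1)) E U' 32
  obtain ⟨m3, h3⟩ := Vz_inv_small E
  obtain ⟨m4, h4⟩ := ev_L' (8 * 2 ^ g + 10 + |c₁| + |c₂|)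
  obtain ⟨m5, h5⟩ := ev_log' (U + 4) 4
  refine ⟨max (max m1 m3) (max m4 (max m5 2)), fun N hN z hz1 hz2 a b W 𝒟 C hW hWN hAdm h𝒟 m => ?_⟩
  obtain ⟨r, hr1, hr2, _⟩ := h1 N (le_trans (le_trans (le_max_left _ _) (le_max_left _ _)) hN) z hz2
  have a3 := h3 N (le_trans (le_trans (le_max_right _ _) (le_max_left _ _)) hN) z
  have hL := h4 N (le_trans (le_trans (le_max_left _ _) (le_max_right _ _)) hN)
  have a5 := h5 N (le_trans (le_trans (le_trans (le_max_left _ _) (le_max_right _ _)) (le_max_right _ _)) hN)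
  have hN2 : 2 ≤ N := le_trans (le_trans (le_trans (le_max_right _ _) (le_max_right _ _)) (le_max_right _ _)) hN
  have hNr : (2 : ℝ) ≤ N := by exact_mod_cast hN2
  have hN0 : (0 : ℝ) < N := by linarith
  set ℓ := Real.log N with hℓ
  have p1 : (0 : ℝ) < 2 ^ g := by positivity
  have ab1 : (0 : ℝ) ≤ |(c₁ : ℝ)| := abs_nonneg _
  have ab2 : (0 : ℝ) ≤ |(c₂ : ℝ)| := abs_nonneg _
  push_cast at hL
  have hℓ2 : 10 ≤ ℓ := by linarith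
  have hℓ1 : 1 ≤ ℓ := by linarith
  have hℓ0 : 0 < ℓ := by linarith
  have hz : 1 ≤ z := by
    have : (1 : ℝ) ≤ z := (one_le_pow₀ hℓ1).trans hz1
    exact_mod_cast this
  have hz1r : (1 : ℝ) ≤ z := by exact_mod_cast hz
  have hz0 : (0 : ℝ) < z := by linarith
  have hzℓ : ℓ ≤ z := by
    refine le_trans ?_ hz1
    calc ℓ = ℓ ^ 1 := (pow_one ℓ).symm
      _ ≤ ℓ ^ B := pow_le_pow_right₀ hℓ1 (by omega)
  have hVi := a3 hz hz2
  have hVi0 : 0 < (Vz z)⁻¹ := inv_pos.2 (Vz_pos z)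
  have hV3 : ((Vz z)⁻¹) ^ 3 ≤ ℓ ^ 3 := pow_le_pow_left₀ hVi0.le hVi 3
  -- large primes do not divide the coefficients
  have hcz : ∀ c : ℤ, c ≠ 0 → |(c : ℝ)| ≤ z → ∀ p : ℕ, z < p → ¬ (p : ℤ) ∣ c := by
    intro c hc hcz p hp hd
    have h6 := Int.le_of_dvd (abs_pos.2 hc) ((dvd_abs _ _).2 hd)
    have h7 : (|c| : ℝ) < p := by
      refine lt_of_le_of_lt hcz ?_
      exact_mod_cast hp
    have h8 : (p : ℝ) ≤ |(c : ℝ)| := by exact_mod_cast h6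
    linarith
  have hcz1 := hcz c₁ hc₁ (by linarith)
  have hcz2 := hcz c₂ hc₂ (by linarith)
  rw [model_expand]
  by_cases hdeg : ∃ p ∈ pz z, ∃ i j, (p : ℤ) ∣ a i j ∧ (p : ℤ) ∣ b i j
  · -- degenerate case
    obtain ⟨p, hp, i, j, hij⟩ := hdeg
    have hpp := (mem_pz.1 hp).2
    have e1 : ∑ D ∈ Fintype.piFinset 𝒟, (∏ i, C i (D i)) * cnt c₁ c₂ m N z a b D = 0 := by
      apply sum_eq_zero
      intro D _
      have : cnt c₁ c₂ m N z a b D = 0 := by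
        unfold cnt
        rw [filter_false_of_mem]
        · simp
        · intro t _ h
          apply h p hp
          refine ⟨i, Or.inr ?_⟩
          unfold Fv
          exact ((hij.1.mul_right _).add hij.2).trans (dvd_prod_of_mem (fun j => a i j * _ + b i j) (mem_univ j))
      rw [this, mul_zero]
    have e2 : MM c₁ c₂ m N z a b 𝒟 C = 0 := by
      unfold MM
      have hp0 : (p : ℝ) ≠ 0 := by exact_mod_cast hpp.ne_zero
      have : ∏ p ∈ pz z, (1 - (nb c₁ c₂ m a b p : ℝ) / p ^ 2) = 0 := by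
        apply prod_eq_zero hp
        rw [nb_full c₁ c₂ m a b p i j hij]
        push_cast
        rw [div_self (by positivity), sub_self]
      rw [this]; ring
    rw [e1, e2, mul_zero, sub_self, abs_zero]
    positivity
  · push Not at hdeg
    have hnb : ∀ p ∈ pz z, nb c₁ c₂ m a b p ≤ 3 * (k + 1) * p := by
      intro p hp
      have hpp := (mem_pz.1 hp).2
      apply nb_le c₁ c₂ m a b p hpp
      · rintro ⟨q1, q2⟩
        have h6 := hcop.isUnit_of_dvd' q1 q2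
        rw [Int.isUnit_iff_natAbs_eq] at h6
        simp at h6
        exact hpp.one_lt.ne' h6
      · rintro i j ⟨q1, q2⟩
        exact hdeg p hp i j q1 q2
    have hes : es (fun p => (nb c₁ c₂ m a b p : ℝ) / p ^ 2) (pz z) r ≤ 1 / ℓ ^ U' := by
      refine (es_le (fun p _ => by positivity) r).trans (le_trans ?_ hr1)
      apply Real.exp_le_exp.2
      have g1 : ∑ p ∈ pz z, (nb c₁ c₂ m a b p : ℝ) / p ^ 2 ≤ (3 * (k + 1)) * (1 + Real.log z) := by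
        calc ∑ p ∈ pz z, (nb c₁ c₂ m a b p : ℝ) / p ^ 2 ≤ ∑ p ∈ pz z, (3 * (k + 1)) * (1 / (p : ℝ)) := by
              apply sum_le_sum; intro p hp
              have hp0 : (0 : ℝ) < p := by exact_mod_cast (mem_pz.1 hp).2.pos
              have h6 : (nb c₁ c₂ m a b p : ℝ) ≤ 3 * (k + 1) * p := by exact_mod_cast hnb p hp
              rw [div_le_iff₀ (by positivity)]
              refine h6.trans (le_of_eq ?_)
              field_simp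
          _ = (3 * (k + 1)) * ∑ p ∈ pz z, 1 / (p : ℝ) := by rw [mul_sum]
          _ ≤ _ := mul_le_mul_of_nonneg_left (sum_pz_le z) (by positivity)
      push_cast
      linarith
    set T : ℝ := ((TG c₁ c₂ m N).card : ℝ) with hT
    have hT0 : 0 ≤ T := Nat.cast_nonneg _
    have hTN : T ≤ N ^ 2 := by
      have h6 : (TG c₁ c₂ m N).card ≤ N ^ 2 := by
        refine (card_filter_le _ _).trans ?_
        rw [card_product, Nat.card_Icc, sq]; simp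
      rw [hT]
      exact_mod_cast h6
    set Pz : ℝ := ∏ p ∈ pz z, (1 - (nb c₁ c₂ m a b p : ℝ) / p ^ 2) with hPz
    have hfac : ∀ p ∈ pz z, 0 ≤ 1 - (nb c₁ c₂ m a b p : ℝ) / p ^ 2 ∧ 1 - (nb c₁ c₂ m a b p : ℝ) / p ^ 2 ≤ 1 := by
      intro p hp
      have hp0 : (0 : ℝ) < p := by exact_mod_cast (mem_pz.1 hp).2.pos
      have h6 : (nb c₁ c₂ m a b p : ℝ) / p ^ 2 ≤ 1 := by
        rw [div_le_one (by positivity)]
        exact_mod_cast nb_sq c₁ c₂ m a b p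
      have h7 : 0 ≤ (nb c₁ c₂ m a b p : ℝ) / p ^ 2 := by positivity
      constructor <;> linarith
    have hPz0 : 0 ≤ Pz := prod_nonneg fun p hp => (hfac p hp).1
    have hPz1 : Pz ≤ 1 := prod_le_one (fun p hp => (hfac p hp).1) (fun p hp => (hfac p hp).2)
    have hD : ∀ D ∈ Fintype.piFinset 𝒟, (∀ i, Squarefree (D i)) ∧ (∀ i, D i ≤ W) ∧ (∀ i p, p.Prime → p ∣ D i → z < p) ∧
        (∀ i, CB (b i) (D i)) ∧ |∏ i, C i (D i)| ≤ 1 := by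
      intro D hD
      rw [Fintype.mem_piFinset] at hD
      refine ⟨fun i => (hAdm i).sq _ (hD i), fun i => (mem_Icc.1 ((hAdm i).sub (hD i))).2, fun i => h𝒟 i _ (hD i),
        fun i => (hAdm i).cb _ (hD i), ?_⟩
      rw [abs_prod]
      exact prod_le_one (fun i _ => abs_nonneg _) (fun i _ => (hAdm i).bd _ (hD i))
    have hcard : ((Fintype.piFinset 𝒟).card : ℝ) ≤ W ^ 3 := by
      rw [Fintype.card_piFinset]
      have h6 : ∏ i, (𝒟 i).card ≤ ∏ _i : Fin 3, W := by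
        apply prod_le_prod' ; intro i _
        have := card_le_card (hAdm i).sub
        rwa [Nat.card_Icc, Nat.add_sub_cancel] at this
      rw [prod_const, card_univ, Fintype.card_fin] at h6
      exact_mod_cast h6
    -- sizes
    have hlogW : 1 + Real.log W ≤ 2 * ℓ := by
      have hWN' : W ≤ N := by
        refine le_trans ?_ hWN
        exact Nat.le_self_pow (by norm_num) _
      have h5 : Real.log W ≤ ℓ := Real.log_le_log (by exact_mod_cast hW) (by exact_mod_cast hWN')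
      linarith
    have hlogW0 : 0 ≤ Real.log W := Real.log_natCast_nonneg _
    have h2ℓ : 1 ≤ 2 * ℓ := by linarith
    -- the two sums over triples
    have hone : ∀ D ∈ Fintype.piFinset 𝒟, 0 ≤ ∏ i, (tau (D i) ^ k / D i) := fun D _ =>
      prod_nonneg fun i _ => div_nonneg (pow_nonneg (tau_nonneg _) _) (Nat.cast_nonneg _)
    have hgz : ∀ D ∈ Fintype.piFinset 𝒟, (z : ℝ) ≤ gcd3 D ∨ gcd3 D = 1 := by
      intro D hD'
      by_cases h6 : gcd3 D = 1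
      · exact Or.inr h6
      · left
        obtain ⟨p, hp, hpd⟩ := Nat.exists_prime_and_dvd h6
        have h7 := (hD D hD').2.2.1 0 p hp (hpd.trans (gcd3_dvd D 0))
        have h8 : gcd3 D ≠ 0 := fun h => by
          have := Nat.eq_zero_of_zero_dvd (h ▸ gcd3_dvd D 0)
          exact ((hD D hD').1 0).ne_zero this
        have h9 := Nat.le_of_dvd (Nat.pos_of_ne_zero h8) hpd
        exact_mod_cast (h7.le.trans h9)
    have hS1 := gcd_sum k W 𝒟 (fun i => (hAdm i).sub) z hz1r hgz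
    have hS2 := prod_all_le k W 𝒟 (fun i => (hAdm i).sub)
    have hS1' : ∑ D ∈ (Fintype.piFinset 𝒟).filter (fun D => gcd3 D ≠ 1), (gcd3 D : ℝ) * ∏ i, (tau (D i) ^ k / D i) ≤ (1 / z) * (2 * ℓ) ^ g := by
      refine hS1.trans (mul_le_mul_of_nonneg_left (pow_le_pow_left₀ (by linarith) hlogW _) (by positivity))
    have hS2' : ∑ D ∈ Fintype.piFinset 𝒟, ∏ i, (tau (D i) ^ k / D i) ≤ (2 * ℓ) ^ g := by
      refine hS2.trans ((pow_le_pow_left₀ (by linarith) hlogW _).trans (pow_le_pow_right₀ h2ℓ ?_))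
      rw [hg]; exact Nat.le_add_left _ _
    have hGGle : ∀ D ∈ Fintype.piFinset 𝒟, GG c₁ c₂ m a b D ≤ gcd3 D * ∏ i, (tau (D i) ^ k / D i) := by
      intro D hD'
      obtain ⟨q1, q2, q3, q4, q5⟩ := hD D hD'
      exact GG_le c₁ c₂ m a b D q1 q4 (fun p hp i hi => hcz1 p (q3 i p hp hi)) (fun p hp i hi => hcz2 p (q3 i p hp hi))
    have hGGeq : ∀ D ∈ Fintype.piFinset 𝒟, gcd3 D = 1 → GG c₁ c₂ m a b D = ∏ i, rr (a i) (b i) (D i) := by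
      intro D hD' h6
      obtain ⟨q1, q2, q3, q4, q5⟩ := hD D hD'
      exact GG_eq c₁ c₂ m a b D (fun i => (q1 i).ne_zero) (fun p hp i hi => hcz1 p (q3 i p hp hi)) (fun p hp i hi => hcz2 p (q3 i p hp hi)) h6
    have hrr : ∀ D ∈ Fintype.piFinset 𝒟, ∏ i, rr (a i) (b i) (D i) ≤ ∏ i, (tau (D i) ^ k / D i) := by
      intro D hD'
      obtain ⟨q1, q2, q3, q4, q5⟩ := hD D hD'
      exact prod_le_prod (fun i _ => rr_nonneg _ _ _) (fun i _ => rr_le (a i) (q1 i) (q4 i))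
    have hrr0 : ∀ D : Fin 3 → ℕ, 0 ≤ ∏ i, rr (a i) (b i) (D i) := fun D => prod_nonneg fun i _ => rr_nonneg _ _ _
    have hSGG : ∑ D ∈ Fintype.piFinset 𝒟, GG c₁ c₂ m a b D ≤ 2 * (2 * ℓ) ^ g := by
      have h6 : ∑ D ∈ Fintype.piFinset 𝒟, GG c₁ c₂ m a b D ≤ ∑ D ∈ Fintype.piFinset 𝒟, ∏ i, (tau (D i) ^ k / D i) +
          ∑ D ∈ (Fintype.piFinset 𝒟).filter (fun D => gcd3 D ≠ 1), (gcd3 D : ℝ) * ∏ i, (tau (D i) ^ k / D i) := by
        rw [sum_filter, ← sum_add_distrib]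
        apply sum_le_sum; intro D hD'
        have h7 := hone D hD'
        by_cases h8 : gcd3 D = 1
        · have := hGGle D hD'
          rw [h8] at this
          rw [if_neg (by simpa using h8)]
          push_cast at this
          linarith
        · rw [if_pos h8]
          have := hGGle D hD'
          linarith
      have h7 : (1 / (z : ℝ)) * (2 * ℓ) ^ g ≤ (2 * ℓ) ^ g := by
        apply mul_le_of_le_one_left (by positivity)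
        rw [div_le_one hz0]; exact hz1r
      linarith
    have hdiff : ∑ D ∈ Fintype.piFinset 𝒟, |GG c₁ c₂ m a b D - ∏ i, rr (a i) (b i) (D i)| ≤ 2 * ((1 / z) * (2 * ℓ) ^ g) := by
      refine le_trans ?_ (mul_le_mul_of_nonneg_left hS1' (by norm_num : (0 : ℝ) ≤ 2))
      rw [mul_sum, sum_filter]
      apply sum_le_sum; intro D hD'
      by_cases h8 : gcd3 D = 1
      · rw [if_neg (by simpa using h8), hGGeq D hD' h8, sub_self, abs_zero]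
      · rw [if_pos h8]
        have h9 := hGGle D hD'
        have h10 := hrr D hD'
        have h11 := hrr0 D
        have h12 := GG_nonneg c₁ c₂ m a b D
        have h13 := hone D hD'
        have h14 : (1 : ℝ) ≤ gcd3 D := by
          rcases hgz D hD' with h | h
          · exact hz1r.trans h
          · exact absurd h h8
        have h15 : ∏ i, (tau (D i) ^ k / D i) ≤ gcd3 D * ∏ i, (tau (D i) ^ k / D i) := le_mul_of_one_le_left h13 h14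
        rw [abs_le]
        constructor <;> linarith
    -- the error for each triple
    have herr : ∀ D ∈ Fintype.piFinset 𝒟, |cnt c₁ c₂ m N z a b D - (T * GG c₁ c₂ m a b D) * Pz| ≤
        (((z : ℝ) + 1) ^ r * ((z : ℝ) ^ (2 * r) * W ^ 6 * (4 * N))) + 2 * N ^ 2 * (1 / ℓ ^ U') * GG c₁ c₂ m a b D := by
      intro D hD'
      obtain ⟨q1, q2, q3, q4, q5⟩ := hD D hD'
      have h6 := cnt_D c₁ c₂ m N z r W hz a b D q1 q2 q3
      refine h6.trans ?_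
      apply add_le_add le_rfl
      have h7 := GG_nonneg c₁ c₂ m a b D
      calc 2 * (T * GG c₁ c₂ m a b D) * es (fun p => (nb c₁ c₂ m a b p : ℝ) / p ^ 2) (pz z) r ≤
            2 * (N ^ 2 * GG c₁ c₂ m a b D) * (1 / ℓ ^ U') := by
            apply mul_le_mul _ hes (es_nonneg (fun p _ => by positivity) r) (by positivity)
            apply mul_le_mul_of_nonneg_left _ (by norm_num)
            exact mul_le_mul_of_nonneg_right hTN h7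
        _ = _ := by ring
    -- size of the first error
    have hx1 : (((z + 1) ^ r) ^ 32 : ℕ) ≤ N := by
      have : ((((z + 1) ^ r) ^ 32 : ℕ) : ℝ) ≤ N := by push_cast; exact hr2
      exact_mod_cast this
    have hroot : ((W : ℝ) ^ 9 * ((z : ℝ) + 1) ^ r * (z : ℝ) ^ (2 * r)) ≤ √(N : ℝ) := by
      apply Real.le_sqrt_of_sq_le
      set A : ℝ := ((z : ℝ) + 1) ^ r with hA
      have hA1 : 1 ≤ A := one_le_pow₀ (by linarith)
      have hzA : (z : ℝ) ^ (2 * r) ≤ A ^ 2 := by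
        rw [hA, ← pow_mul, mul_comm r 2]
        exact pow_le_pow_left₀ hz0.le (by linarith) _
      have hW1 : (1 : ℝ) ≤ W := by exact_mod_cast hW
      have hA32 : A ^ 32 ≤ N := hr2
      have hW32 : (W : ℝ) ^ 32 ≤ N := by exact_mod_cast hWN
      have h6 : ((W : ℝ) ^ 9 * A * (z : ℝ) ^ (2 * r)) ^ 2 ≤ ((W : ℝ) ^ 9 * A * A ^ 2) ^ 2 := by
        apply pow_le_pow_left₀ (by positivity)
        exact mul_le_mul_of_nonneg_left hzA (by positivity)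
      refine h6.trans ?_
      have h7 : ((W : ℝ) ^ 9 * A * A ^ 2) ^ 2 = (W : ℝ) ^ 18 * A ^ 6 := by ring
      rw [h7]
      -- `W ^ 18 * A ^ 6 ≤ N`
      have hWA : ((W : ℝ) ^ 18 * A ^ 6) ^ 32 ≤ (N : ℝ) ^ 32 := by
        calc ((W : ℝ) ^ 18 * A ^ 6) ^ 32 = ((W : ℝ) ^ 32) ^ 18 * (A ^ 32) ^ 6 := by ring
          _ ≤ (N : ℝ) ^ 18 * (N : ℝ) ^ 6 := by gcongr
          _ = (N : ℝ) ^ 24 := by ring
          _ ≤ (N : ℝ) ^ 32 := pow_le_pow_right₀ (by linarith) (by norm_num)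
      exact le_of_pow_le_pow_left₀ (by norm_num) hN0.le hWA
    have hsN : √(N : ℝ) * √(N : ℝ) = N := Real.mul_self_sqrt hN0.le
    have hsN0 : 0 ≤ √(N : ℝ) := Real.sqrt_nonneg _
    -- assembly
    have e0 : ((Vz z)⁻¹) ^ 3 * ∑ D ∈ Fintype.piFinset 𝒟, (∏ i, C i (D i)) * cnt c₁ c₂ m N z a b D - MM c₁ c₂ m N z a b 𝒟 C =
        ((Vz z)⁻¹) ^ 3 * (∑ D ∈ Fintype.piFinset 𝒟, (∏ i, C i (D i)) * (cnt c₁ c₂ m N z a b D - (T * GG c₁ c₂ m a b D) * Pz)) +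
        ((Vz z)⁻¹) ^ 3 * (T * Pz) * (∑ D ∈ Fintype.piFinset 𝒟, (∏ i, C i (D i)) * (GG c₁ c₂ m a b D - ∏ i, rr (a i) (b i) (D i))) := by
      have e1 : MM c₁ c₂ m N z a b 𝒟 C = ((Vz z)⁻¹) ^ 3 * (T * Pz) * ∑ D ∈ Fintype.piFinset 𝒟, (∏ i, C i (D i)) * ∏ i, rr (a i) (b i) (D i) := by
        unfold MM
        rw [prod_univ_sum]
        have e2 : ∀ D ∈ Fintype.piFinset 𝒟, ∏ i, (C i (D i) * rr (a i) (b i) (D i)) = (∏ i, C i (D i)) * ∏ i, rr (a i) (b i) (D i) :=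
          fun D _ => prod_mul_distrib
        rw [sum_congr rfl e2]
        ring
      rw [e1]
      have e3 : ∀ D ∈ Fintype.piFinset 𝒟, (∏ i, C i (D i)) * cnt c₁ c₂ m N z a b D =
          (∏ i, C i (D i)) * (cnt c₁ c₂ m N z a b D - (T * GG c₁ c₂ m a b D) * Pz) +
          (T * Pz) * ((∏ i, C i (D i)) * (GG c₁ c₂ m a b D - ∏ i, rr (a i) (b i) (D i))) +
          (T * Pz) * ((∏ i, C i (D i)) * ∏ i, rr (a i) (b i) (D i)) := by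
        intro D _; ring
      rw [sum_congr rfl e3, sum_add_distrib, sum_add_distrib, ← mul_sum, ← mul_sum]
      ring
    rw [e0]
    refine (abs_add_le _ _).trans ?_
    have b1 : |((Vz z)⁻¹) ^ 3 * (∑ D ∈ Fintype.piFinset 𝒟, (∏ i, C i (D i)) * (cnt c₁ c₂ m N z a b D - (T * GG c₁ c₂ m a b D) * Pz))| ≤
        ℓ ^ 3 * (√(N : ℝ) * (4 * N) + 2 * N ^ 2 * (1 / ℓ ^ U') * (2 * (2 * ℓ) ^ g)) := by
      rw [abs_mul, abs_of_nonneg (pow_nonneg hVi0.le 3)]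
      apply mul_le_mul hV3 _ (abs_nonneg _) (by positivity)
      calc |∑ D ∈ Fintype.piFinset 𝒟, (∏ i, C i (D i)) * (cnt c₁ c₂ m N z a b D - (T * GG c₁ c₂ m a b D) * Pz)| ≤
            ∑ D ∈ Fintype.piFinset 𝒟, ((((z : ℝ) + 1) ^ r * ((z : ℝ) ^ (2 * r) * W ^ 6 * (4 * N))) + 2 * N ^ 2 * (1 / ℓ ^ U') * GG c₁ c₂ m a b D) := by
            refine (abs_sum_le_sum_abs _ _).trans (sum_le_sum fun D hD' => ?_)
            rw [abs_mul]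
            calc |∏ i, C i (D i)| * |cnt c₁ c₂ m N z a b D - (T * GG c₁ c₂ m a b D) * Pz| ≤ 1 * |cnt c₁ c₂ m N z a b D - (T * GG c₁ c₂ m a b D) * Pz| :=
                  mul_le_mul_of_nonneg_right (hD D hD').2.2.2.2 (abs_nonneg _)
              _ ≤ _ := by rw [one_mul]; exact herr D hD'
        _ = (Fintype.piFinset 𝒟).card * (((z : ℝ) + 1) ^ r * ((z : ℝ) ^ (2 * r) * W ^ 6 * (4 * N))) +
            2 * N ^ 2 * (1 / ℓ ^ U') * ∑ D ∈ Fintype.piFinset 𝒟, GG c₁ c₂ m a b D := by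
            rw [sum_add_distrib, sum_const, nsmul_eq_mul, mul_sum]
        _ ≤ _ := by
            apply add_le_add
            · calc ((Fintype.piFinset 𝒟).card : ℝ) * (((z : ℝ) + 1) ^ r * ((z : ℝ) ^ (2 * r) * W ^ 6 * (4 * N))) ≤
                    W ^ 3 * (((z : ℝ) + 1) ^ r * ((z : ℝ) ^ (2 * r) * W ^ 6 * (4 * N))) := mul_le_mul_of_nonneg_right hcard (by positivity)
                _ = ((W : ℝ) ^ 9 * ((z : ℝ) + 1) ^ r * (z : ℝ) ^ (2 * r)) * (4 * N) := by ring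
                _ ≤ _ := mul_le_mul_of_nonneg_right hroot (by positivity)
            · exact mul_le_mul_of_nonneg_left hSGG (by positivity)
    have b2 : |((Vz z)⁻¹) ^ 3 * (T * Pz) * (∑ D ∈ Fintype.piFinset 𝒟, (∏ i, C i (D i)) * (GG c₁ c₂ m a b D - ∏ i, rr (a i) (b i) (D i)))| ≤
        ℓ ^ 3 * N ^ 2 * (2 * ((1 / z) * (2 * ℓ) ^ g)) := by
      rw [abs_mul, abs_of_nonneg (by positivity : 0 ≤ ((Vz z)⁻¹) ^ 3 * (T * Pz))]
      apply mul_le_mul _ _ (abs_nonneg _) (by positivity)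
      · apply mul_le_mul hV3 _ (by positivity) (by positivity)
        calc T * Pz ≤ N ^ 2 * 1 := mul_le_mul hTN hPz1 hPz0 (by positivity)
          _ = _ := mul_one _
      · refine le_trans ?_ hdiff
        refine (abs_sum_le_sum_abs _ _).trans (sum_le_sum fun D hD' => ?_)
        rw [abs_mul]
        calc |∏ i, C i (D i)| * |GG c₁ c₂ m a b D - ∏ i, rr (a i) (b i) (D i)| ≤ 1 * |GG c₁ c₂ m a b D - ∏ i, rr (a i) (b i) (D i)| :=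
              mul_le_mul_of_nonneg_right (hD D hD').2.2.2.2 (abs_nonneg _)
          _ = _ := one_mul _
    refine (add_le_add b1 b2).trans ?_
    -- final numerics
    have f2 : ℓ ^ 3 * (2 * N ^ 2 * (1 / ℓ ^ U') * (2 * (2 * ℓ) ^ g)) = (4 * 2 ^ g / ℓ) * (N ^ 2 / ℓ ^ U) := by
      rw [hU', mul_pow, show U + g + 4 = U + g + 3 + 1 by ring, pow_succ, pow_add, pow_add]
      field_simp
      ring
    have f3 : ℓ ^ 3 * N ^ 2 * (2 * ((1 / z) * (2 * ℓ) ^ g)) ≤ (2 * 2 ^ g / ℓ) * (N ^ 2 / ℓ ^ U) := by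
      calc ℓ ^ 3 * N ^ 2 * (2 * ((1 / z) * (2 * ℓ) ^ g)) ≤ ℓ ^ 3 * N ^ 2 * (2 * ((1 / ℓ ^ B) * (2 * ℓ) ^ g)) := by
            gcongr
        _ = _ := by
            rw [hB, hU', mul_pow, show U + g + 4 = U + g + 3 + 1 by ring, pow_succ, pow_add, pow_add]
            field_simp
            ring
    have f1' : ℓ ^ 3 * (√(N : ℝ) * (4 * N)) ≤ (1 / ℓ) * (N ^ 2 / ℓ ^ U) := by
      calc ℓ ^ 3 * (√(N : ℝ) * (4 * N)) = (4 * ℓ ^ (U + 4)) * √(N : ℝ) * N / (ℓ * ℓ ^ U) := by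
            rw [show U + 4 = U + 3 + 1 by ring, pow_succ, pow_add]; field_simp; ring
        _ ≤ √(N : ℝ) * √(N : ℝ) * N / (ℓ * ℓ ^ U) := by gcongr
        _ = _ := by rw [hsN]; field_simp
    have hq : 0 ≤ (N : ℝ) ^ 2 / ℓ ^ U := by positivity
    have e5 : ℓ ^ 3 * (√(N : ℝ) * (4 * N) + 2 * N ^ 2 * (1 / ℓ ^ U') * (2 * (2 * ℓ) ^ g)) + ℓ ^ 3 * N ^ 2 * (2 * ((1 / z) * (2 * ℓ) ^ g)) ≤
        ((1 + 6 * 2 ^ g) / ℓ) * (N ^ 2 / ℓ ^ U) := by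
      calc _ = ℓ ^ 3 * (√(N : ℝ) * (4 * N)) + ℓ ^ 3 * (2 * N ^ 2 * (1 / ℓ ^ U') * (2 * (2 * ℓ) ^ g)) + ℓ ^ 3 * N ^ 2 * (2 * ((1 / z) * (2 * ℓ) ^ g)) := by ring
        _ ≤ (1 / ℓ) * (N ^ 2 / ℓ ^ U) + (4 * 2 ^ g / ℓ) * (N ^ 2 / ℓ ^ U) + (2 * 2 ^ g / ℓ) * (N ^ 2 / ℓ ^ U) := by rw [f2]; linarith
        _ = _ := by ring
    refine e5.trans ?_
    apply mul_le_of_le_one_left hq
    rw [div_le_one hℓ0]
    linarith

end Pool.Agent.H76.TB
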