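import Mathlib
import Pool.Agent.H76.TB.A14
import Pool.Graph.R_seed8.H20R2.EN.FLem

/-! Sieve weights of Brun and Hooley. -/

set_option autoImplicit false

open Finset

namespace Pool.Agent.H76.TB

open Pool.Agent.Helper112.LP Pool.Agent.Helper112.LP.Kba Pool.Agent.Helper112.LP.Kbh
open Pool.Agent.H483R2.BHKD Pool.Agent.H20R2.FL

variable {k : ℕ}

section Fam
variable {J : ℕ} (F : Fin J → Finset (Finset ℕ))

/-- the moduli of a family -/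
noncomputable def famD : Finset ℕ := (Fintype.piFinset F).image (fun T => ∏ l ∈ bhU T, l)

lemma fam_sub {F : Fin J → Finset (Finset ℕ)} (hF : ∀ i, ∀ U ∈ F i, U ⊆ Gj ((i : ℕ) + 1)) {T : Fin J → Finset ℕ}
    (hT : T ∈ Fintype.piFinset F) : ∀ i, T i ⊆ Gj ((i : ℕ) + 1) := by
  rw [Fintype.mem_piFinset] at hT
  exact fun i => hF i _ (hT i)

lemma bhU_inj {T T' : Fin J → Finset ℕ} (h : ∀ i, T i ⊆ Gj ((i : ℕ) + 1)) (h' : ∀ i, T' i ⊆ Gj ((i : ℕ) + 1))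
    (hU : bhU T = bhU T') : T = T' := by
  funext i
  ext l
  have aux : ∀ T T' : Fin J → Finset ℕ, (∀ i, T i ⊆ Gj ((i : ℕ) + 1)) →
      (∀ i, T' i ⊆ Gj ((i : ℕ) + 1)) → bhU T = bhU T' → l ∈ T i → l ∈ T' i := by
    intro T T' h1 h1' hU hl
    have hlU : l ∈ bhU T' := by
      rw [← hU]; unfold bhU; exact mem_biUnion.2 ⟨i, mem_univ _, hl⟩
    unfold bhU at hlU
    obtain ⟨j, _, hj⟩ := mem_biUnion.1 hlU
    have := bh_Gj_disj (h1 i hl) (h1' j hj)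
    have hij : i = j := Fin.ext this
    rw [hij]; exact hj
  exact ⟨aux T T' h h' hU, aux T' T h' h hU.symm⟩

lemma fam_inj {F : Fin J → Finset (Finset ℕ)} (hF : ∀ i, ∀ U ∈ F i, U ⊆ Gj ((i : ℕ) + 1)) :
    Set.InjOn (fun T : Fin J → Finset ℕ => ∏ l ∈ bhU T, l) (Fintype.piFinset F : Finset _) := by
  intro T hT T' hT' h
  rw [mem_coe] at hT hT'
  simp only at h
  have h1 := fam_sub hF hT
  have h1' := fam_sub hF hT'
  apply bhU_inj h1 h1'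
  rw [← bh_primeFactors T h1, ← bh_primeFactors T' h1', h]

lemma fam_WW {F : Fin J → Finset (Finset ℕ)} (hF : ∀ i, ∀ U ∈ F i, U ⊆ Gj ((i : ℕ) + 1)) (a b : Fin k → ℤ)
    (c : Fin J → Finset ℕ → ℝ) (CC : ℕ → ℝ)
    (hCC : ∀ T ∈ Fintype.piFinset F, CC (∏ l ∈ bhU T, l) = ∏ i, c i (T i)) (n : ℕ) :
    WW a b (famD F) CC n = ∏ i, ∑ U ∈ F i, if ∀ l ∈ U, l ∣ (Fv a b (n : ℤ)).natAbs then c i U else 0 := by
  unfold WW famD
  rw [sum_image (fam_inj hF), prod_univ_sum]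
  apply sum_congr rfl
  intro T hT
  have hTG := fam_sub hF hT
  rw [Fintype.prod_ite_zero, hCC T hT]
  have hiff : (((∏ l ∈ bhU T, l : ℕ) : ℤ) ∣ Fv a b (n : ℤ)) ↔ ∀ i, ∀ l ∈ T i, l ∣ (Fv a b (n : ℤ)).natAbs := by
    rw [Int.natCast_dvd]
    exact bh_dvd T hTG _
  by_cases h : ∀ i, ∀ l ∈ T i, l ∣ (Fv a b (n : ℤ)).natAbs
  · rw [if_pos h, if_pos (hiff.2 h)]
  · rw [if_neg h, if_neg (fun h' => h (hiff.1 h'))]

lemma fam_rr {F : Fin J → Finset (Finset ℕ)} (hF : ∀ i, ∀ U ∈ F i, U ⊆ Gj ((i : ℕ) + 1)) (a b : Fin k → ℤ)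
    (c : Fin J → Finset ℕ → ℝ) (CC : ℕ → ℝ)
    (hCC : ∀ T ∈ Fintype.piFinset F, CC (∏ l ∈ bhU T, l) = ∏ i, c i (T i)) :
    ∑ D ∈ famD F, CC D * rr a b D = ∏ i, ∑ U ∈ F i, c i U * ∏ l ∈ U, (((RR a b l).card : ℝ) / l) := by
  unfold famD
  rw [sum_image (fam_inj hF), prod_univ_sum]
  apply sum_congr rfl
  intro T hT
  have hTG := fam_sub hF hT
  rw [hCC T hT, prod_mul_distrib, bh_pT_eq T hTG]
  unfold rr
  rw [bh_primeFactors T hTG]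

lemma fam_adm {F : Fin J → Finset (Finset ℕ)} (hF : ∀ i, ∀ U ∈ F i, U ⊆ Gj ((i : ℕ) + 1)) (b : Fin k → ℤ)
    (CC : ℕ → ℝ) (W β : ℕ) (hlev : ∀ T ∈ Fintype.piFinset F, ∀ i, (T i).card ≤ 2 * β + 2 * (J - 1 - (i : ℕ)) + 1)
    (hW : (2 ^ 2 ^ J) ^ (4 * β + 6) ≤ W) (hCC : ∀ D, |CC D| ≤ 1) (z : ℕ) (hz : ∀ i, ∀ U ∈ F i, ∀ p ∈ U, z < p)
    (hb : ∀ p : ℕ, p.Prime → z < p → ¬ (p : ℤ) ∣ ∏ j, b j) :
    Adm b W (famD F) CC ∧ ∀ D ∈ famD F, ∀ p, p.Prime → p ∣ D → z < p := by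
  have hmem : ∀ D ∈ famD F, ∃ T ∈ Fintype.piFinset F, D = ∏ l ∈ bhU T, l := by
    intro D hD
    unfold famD at hD
    rw [mem_image] at hD
    obtain ⟨T, hT, rfl⟩ := hD
    exact ⟨T, hT, rfl⟩
  have hpr : ∀ D ∈ famD F, ∀ p, p.Prime → p ∣ D → z < p := by
    intro D hD p hp hpd
    obtain ⟨T, hT, rfl⟩ := hmem D hD
    have hTG := fam_sub hF hT
    have h1 : p ∈ (∏ l ∈ bhU T, l).primeFactors := by
      rw [Nat.mem_primeFactors]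
      exact ⟨hp, hpd, (bh_squarefree T hTG).ne_zero⟩
    rw [bh_primeFactors T hTG] at h1
    unfold bhU at h1
    obtain ⟨i, _, hi⟩ := mem_biUnion.1 h1
    rw [Fintype.mem_piFinset] at hT
    exact hz i _ (hT i) p hi
  refine ⟨⟨?_, ?_, ?_, fun D _ => hCC D⟩, hpr⟩
  · intro D hD
    obtain ⟨T, hT, rfl⟩ := hmem D hD
    have hTG := fam_sub hF hT
    rw [mem_Icc]
    refine ⟨Nat.pos_of_ne_zero (bh_squarefree T hTG).ne_zero, ?_⟩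
    have := bh_level (b0 := 2 * β) T hTG (fun i => hlev T hT i)
    refine (this.trans (le_of_eq ?_)).trans hW
    congr 1
    ring
  · intro D hD
    obtain ⟨T, hT, rfl⟩ := hmem D hD
    exact bh_squarefree T (fam_sub hF hT)
  · intro D hD p hp hpd
    exact hb p hp (hpr D hD p hp hpd)

end Fam


/-- the pointwise inequalities -/
lemma bh_point {J : ℕ} (P : Finset ℕ) (Pi : Fin J → Finset ℕ) (bb : Fin J → ℕ) (hbe : ∀ i, Even (bb i))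
    (hU : bhU Pi = P) (fa fb : Fin k → ℤ) (n : ℕ) :
    RI fa fb P n ≤ ∏ i, (∑ U ∈ (Pi i).powerset.filter (fun U => U.card ≤ bb i),
          if ∀ l ∈ U, l ∣ (Fv fa fb (n : ℤ)).natAbs then ((-1 : ℝ)) ^ U.card else 0) ∧
    (∏ i, (∑ U ∈ (Pi i).powerset.filter (fun U => U.card ≤ bb i),
          if ∀ l ∈ U, l ∣ (Fv fa fb (n : ℤ)).natAbs then ((-1 : ℝ)) ^ U.card else 0)) - RI fa fb P n ≤
    ∑ q, (∑ U ∈ powersetCard (bb q + 1) (Pi q), if ∀ l ∈ U, l ∣ (Fv fa fb (n : ℤ)).natAbs then (1 : ℝ) else 0) *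
      ∏ i ∈ univ.erase q, (∑ U ∈ (Pi i).powerset.filter (fun U => U.card ≤ bb i),
          if ∀ l ∈ U, l ∣ (Fv fa fb (n : ℤ)).natAbs then ((-1 : ℝ)) ^ U.card else 0) := by
  classical
  have hloc := fun i => bh_local (Pi i) (bb i) (hbe i) (Fv fa fb (n : ℤ)).natAbs
  have eR : RI fa fb P n = ∏ i, (if ∀ l ∈ Pi i, ¬ l ∣ (Fv fa fb (n : ℤ)).natAbs then (1 : ℝ) else 0) := by
    unfold RI
    rw [Fintype.prod_ite_zero]
    have hiff : (∀ p ∈ P, ¬ (p : ℤ) ∣ Fv fa fb (n : ℤ)) ↔ ∀ i, ∀ l ∈ Pi i, ¬ l ∣ (Fv fa fb (n : ℤ)).natAbs := by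
      rw [all_bhU Pi (fun l => ¬ l ∣ (Fv fa fb (n : ℤ)).natAbs), hU]
      simp only [Int.natCast_dvd]
    by_cases h : ∀ i, ∀ l ∈ Pi i, ¬ l ∣ (Fv fa fb (n : ℤ)).natAbs
    · rw [if_pos h, if_pos (hiff.2 h), prod_const_one]
    · rw [if_neg h, if_neg (fun h' => h (hiff.1 h'))]
  rw [eR]
  exact ⟨prod_le_prod (fun i _ => (hloc i).1) (fun i _ => (hloc i).2.1),
    bh_prod_sub univ _ _ _ (fun i => (hloc i).1) (fun i => (hloc i).2.1) (fun i => (hloc i).2.2)⟩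

/-- products with relative errors -/
lemma dens_aux {J : ℕ} (V Tr Er : Fin J → ℝ) (v : ℝ) (hv0 : 0 < v) (b : ℕ) (hb1 : 1 ≤ b)
    (hVv : ∀ i, v ≤ V i) (hbonf : ∀ i, V i ≤ Tr i ∧ Tr i ≤ V i + Er i) (hEr0 : ∀ i, 0 ≤ Er i)
    (hErv : ∀ i : Fin J, Er i / v ≤ (1 / 2) ^ (2 * b + 2 * (J - 1 - (i : ℕ)) + 1)) :
    0 < ∏ i, V i ∧ ∏ i, V i ≤ ∏ i, Tr i ∧ ∏ i, Tr i ≤ (1 + (1 / 2) ^ b) * ∏ i, V i ∧
      ∑ q, Er q * ∏ i ∈ univ.erase q, Tr i ≤ (1 / 2) ^ b * ∏ i, Tr i := by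
  classical
  set s : ℝ := ∑ i, Er i / v with hs
  have hs0 : 0 ≤ s := sum_nonneg fun i _ => div_nonneg (hEr0 i) hv0.le
  have hErsum : s ≤ 2 / 3 * (1 / 4) ^ b :=
    le_trans (sum_le_sum fun i _ => hErv i) (tail_b b J)
  have hhb : (1 / 2 : ℝ) ^ b ≤ 1 / 2 := by
    have h2 : (1 / 2 : ℝ) ^ b ≤ (1 / 2) ^ 1 := pow_le_pow_of_le_one (by norm_num) (by norm_num) hb1
    linarith
  have hhb0 : (0 : ℝ) ≤ (1 / 2) ^ b := by positivity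
  have h4b : (1 / 4 : ℝ) ^ b ≤ 1 / 4 * (1 / 2) ^ b * 2 := by
    have h1 : (1 / 4 : ℝ) ^ b = (1 / 2) ^ b * (1 / 2) ^ b := by
      rw [← mul_pow]; norm_num
    rw [h1]
    nlinarith
  have hs1 : 2 * s ≤ (1 / 2) ^ b := by linarith
  have hs2 : s ≤ 1 / 4 := by linarith
  have hV0 : ∀ i, 0 < V i := fun i => lt_of_lt_of_le hv0 (hVv i)
  have hTr0 : ∀ i, 0 < Tr i := fun i => lt_of_lt_of_le (hV0 i) (hbonf i).1
  have hV00 : 0 ≤ ∏ i, V i := prod_nonneg fun i _ => (hV0 i).le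
  have hTr00 : 0 ≤ ∏ i, Tr i := prod_nonneg fun i _ => (hTr0 i).le
  refine ⟨prod_pos fun i _ => hV0 i, prod_le_prod (fun i _ => (hV0 i).le) fun i _ => (hbonf i).1, ?_, ?_⟩
  · have hexp : Real.exp s ≤ 1 + (1 / 2) ^ b := by
      have h1 := Real.abs_exp_sub_one_sub_id_le (x := s) (by rw [abs_of_nonneg hs0]; linarith)
      have h2 := (abs_le.1 h1).2
      nlinarith
    have h1 : ∏ i, Tr i ≤ ∏ i, V i * Real.exp (Er i / v) := by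
      refine prod_le_prod (fun i _ => (hTr0 i).le) fun i _ => ?_
      refine (hbonf i).2.trans ?_
      have h2 := Real.add_one_le_exp (Er i / v)
      have h3 : V i * (Er i / v + 1) ≤ V i * Real.exp (Er i / v) :=
        mul_le_mul_of_nonneg_left h2 (hV0 i).le
      refine le_trans ?_ h3
      have h4 : Er i ≤ V i * (Er i / v) := by
        rw [← mul_div_assoc, le_div_iff₀ hv0, mul_comm (V i)]
        exact mul_le_mul_of_nonneg_left (hVv i) (hEr0 i)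
      linarith
    rw [prod_mul_distrib, ← Real.exp_sum] at h1
    calc ∏ i, Tr i ≤ (∏ i, V i) * Real.exp s := h1
      _ ≤ (∏ i, V i) * (1 + (1 / 2) ^ b) := mul_le_mul_of_nonneg_left hexp hV00
      _ = _ := by ring
  · have hk : ∀ q, Er q * ∏ i ∈ univ.erase q, Tr i ≤ Er q / v * ∏ i, Tr i := by
      intro q
      have h1 : ∏ i, Tr i = Tr q * ∏ i ∈ univ.erase q, Tr i :=
        (mul_prod_erase univ Tr (mem_univ q)).symm
      have h2 : 0 ≤ ∏ i ∈ univ.erase q, Tr i := prod_nonneg fun i _ => (hTr0 i).le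
      rw [h1, div_mul_eq_mul_div, le_div_iff₀ hv0]
      have h3 : v ≤ Tr q := (hVv q).trans (hbonf q).1
      have h4 : Er q * (∏ i ∈ univ.erase q, Tr i) * v ≤
          Er q * (∏ i ∈ univ.erase q, Tr i) * Tr q :=
        mul_le_mul_of_nonneg_left h3 (mul_nonneg (hEr0 q) h2)
      linarith
    calc ∑ q, Er q * ∏ i ∈ univ.erase q, Tr i ≤ ∑ q, Er q / v * ∏ i, Tr i :=
          sum_le_sum fun q _ => hk q
      _ = s * ∏ i, Tr i := by rw [← sum_mul]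
      _ ≤ (1 / 2) ^ b * ∏ i, Tr i :=
          mul_le_mul_of_nonneg_right (by linarith) hTr00

lemma bh_dens {J : ℕ} (Pi : Fin J → Finset ℕ) (g : ℕ → ℝ) (x0 : ℝ) (hx00 : 0 ≤ x0) (b : ℕ) (hb1 : 1 ≤ b) (hb : 21 * x0 ≤ b)
    (hgb : ∀ i, ∀ l ∈ Pi i, 0 ≤ g l ∧ g l ≤ 1 / 2) (hgsum : ∀ i, ∑ l ∈ Pi i, g l ≤ x0) :
    0 < ∏ i, (∏ l ∈ Pi i, (1 - g l)) ∧
      ∏ i, (∏ l ∈ Pi i, (1 - g l)) ≤ ∏ i : Fin J, bhA g (2 * b + 2 * (J - 1 - (i : ℕ))) (Pi i) ∧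
      ∏ i : Fin J, bhA g (2 * b + 2 * (J - 1 - (i : ℕ))) (Pi i) ≤ (1 + (1 / 2) ^ b) * ∏ i, (∏ l ∈ Pi i, (1 - g l)) ∧
      ∑ q : Fin J, bhE g (2 * b + 2 * (J - 1 - (q : ℕ)) + 1) (Pi q) * ∏ i ∈ univ.erase q, bhA g (2 * b + 2 * (J - 1 - (i : ℕ))) (Pi i) ≤
        (1 / 2) ^ b * ∏ i : Fin J, bhA g (2 * b + 2 * (J - 1 - (i : ℕ))) (Pi i) := by
  classical
  have hgb1 : ∀ i, ∀ l ∈ Pi i, 0 ≤ g l ∧ g l ≤ 1 := fun i l hl => ⟨(hgb i l hl).1, by linarith [(hgb i l hl).2]⟩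
  have hEr0 : ∀ i : Fin J, 0 ≤ bhE g (2 * b + 2 * (J - 1 - (i : ℕ)) + 1) (Pi i) := fun i =>
    bhE_nonneg _ _ _ fun l hl => (hgb i l hl).1
  apply dens_aux (fun i => ∏ l ∈ Pi i, (1 - g l)) (fun i : Fin J => bhA g (2 * b + 2 * (J - 1 - (i : ℕ))) (Pi i))
    (fun i : Fin J => bhE g (2 * b + 2 * (J - 1 - (i : ℕ)) + 1) (Pi i)) (Real.exp (-(2 * x0))) (Real.exp_pos _) b hb1
  · intro i
    have h1 : Real.exp (-(2 * ∑ l ∈ Pi i, g l)) ≤ ∏ l ∈ Pi i, (1 - g l) := by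
      have h2 : -(2 * ∑ l ∈ Pi i, g l) = ∑ l ∈ Pi i, -(2 * g l) := by
        rw [mul_sum, ← sum_neg_distrib]
      rw [h2, Real.exp_sum]
      exact prod_le_prod (fun l _ => (Real.exp_pos _).le) fun l hl => bh_inv_ge (hgb i l hl).1 (hgb i l hl).2
    refine le_trans ?_ h1
    exact Real.exp_le_exp.2 (by linarith [hgsum i])
  · intro i
    have h := bh_bonf g (Pi i) (hgb1 i) (2 * b + 2 * (J - 1 - (i : ℕ)))
    have he : Even (2 * b + 2 * (J - 1 - (i : ℕ))) := (even_two_mul _).add (even_two_mul _)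
    rw [he.neg_one_pow, one_mul] at h
    exact ⟨by linarith [h.1], by linarith [h.2]⟩
  · exact hEr0
  · intro i
    have h1 : bhE g (2 * b + 2 * (J - 1 - (i : ℕ)) + 1) (Pi i) / Real.exp (-(2 * x0)) =
        bhE g (2 * b + 2 * (J - 1 - (i : ℕ)) + 1) (Pi i) * Real.exp (2 * x0) := by
      rw [Real.exp_neg, div_inv_eq_mul]
    rw [h1]
    have h2 : bhE g (2 * b + 2 * (J - 1 - (i : ℕ)) + 1) (Pi i) ≤
        x0 ^ (2 * b + 2 * (J - 1 - (i : ℕ)) + 1) / (2 * b + 2 * (J - 1 - (i : ℕ)) + 1).factorial := by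
      refine (bhE_le g (Pi i) (fun l hl => (hgb i l hl).1) _).trans ?_
      apply div_le_div_of_nonneg_right _ (Nat.cast_nonneg _)
      exact pow_le_pow_left₀ (sum_nonneg fun l hl => (hgb i l hl).1) (hgsum i) _
    refine le_trans (mul_le_mul_of_nonneg_right h2 (Real.exp_pos _).le) ?_
    apply tail_one x0 hx00 _ (by omega)
    refine hb.trans ?_
    have : b ≤ 2 * b + 2 * (J - 1 - (i : ℕ)) + 1 := by omega
    exact_mod_cast this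

end Pool.Agent.H76.TB
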