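import Mathlib
import Pool.Agent.H76.TB.A15

/-! Existence of the sieve weights. -/

set_option autoImplicit false

open Finset

namespace Pool.Agent.H76.TB

open Pool.Agent.Helper112.LP Pool.Agent.Helper112.LP.Kba Pool.Agent.Helper112.LP.Kbh
open Pool.Agent.H483R2.BHKD Pool.Agent.H20R2.FL

variable {k : ℕ}

section Fixed
variable {J : ℕ} (Pi : Fin J → Finset ℕ) (b : ℕ)

def lv (b : ℕ) (i : Fin J) : ℕ := 2 * b + 2 * (J - 1 - (i : ℕ))

def FY (i : Fin J) : Finset (Finset ℕ) := (Pi i).powerset.filter (fun U => U.card ≤ lv b i)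

def FE (q i : Fin J) : Finset (Finset ℕ) := if i = q then (Pi i).powersetCard (lv b i + 1) else FY Pi b i

lemma lv_even (i : Fin J) : Even (lv b i) := (even_two_mul _).add (even_two_mul _)

lemma FY_P (i : Fin J) : ∀ U ∈ FY Pi b i, U ⊆ Pi i ∧ U.card ≤ lv b i := by
  intro U hU
  unfold FY at hU
  rw [mem_filter, mem_powerset] at hU
  exact hU

lemma FE_P (q i : Fin J) : ∀ U ∈ FE Pi b q i, U ⊆ Pi i ∧ U.card ≤ lv b i + 1 := by
  intro U hU
  unfold FE at hU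
  split_ifs at hU with h
  · rw [mem_powersetCard] at hU
    exact ⟨hU.1, hU.2.le⟩
  · have := FY_P Pi b i U hU
    exact ⟨this.1, by omega⟩

noncomputable def CY (D : ℕ) : ℝ := (-1 : ℝ) ^ D.primeFactors.card

noncomputable def CE (D : ℕ) : ℝ := -(-1 : ℝ) ^ D.primeFactors.card

lemma CY_abs (D : ℕ) : |CY D| ≤ 1 := by unfold CY; simp

lemma CE_abs (D : ℕ) : |CE D| ≤ 1 := by unfold CE; simp

variable (hPG : ∀ i, Pi i ⊆ Gj ((i : ℕ) + 1))
include hPG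

lemma CY_T : ∀ T ∈ Fintype.piFinset (FY Pi b), CY (∏ l ∈ bhU T, l) = ∏ i, (-1 : ℝ) ^ (T i).card := by
  intro T hT
  have hTG := fam_sub (fun i U hU => (FY_P Pi b i U hU).1.trans (hPG i)) hT
  unfold CY
  rw [bh_primeFactors T hTG, bh_card T hTG, prod_pow_eq_pow_sum]

lemma CE_T (q : Fin J) : ∀ T ∈ Fintype.piFinset (FE Pi b q), CE (∏ l ∈ bhU T, l) =
    ∏ i, (if i = q then (1 : ℝ) else (-1 : ℝ) ^ (T i).card) := by
  intro T hT
  have hTG := fam_sub (fun i U hU => (FE_P Pi b q i U hU).1.trans (hPG i)) hT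
  have hTq : (T q).card = lv b q + 1 := by
    rw [Fintype.mem_piFinset] at hT
    have := hT q
    unfold FE at this
    rw [if_pos rfl] at this
    exact (mem_powersetCard.1 this).2
  unfold CE
  rw [bh_primeFactors T hTG, bh_card T hTG, ← prod_pow_eq_pow_sum, ← mul_prod_erase univ _ (mem_univ q),
    ← mul_prod_erase univ (fun i => if i = q then (1 : ℝ) else (-1 : ℝ) ^ (T i).card) (mem_univ q), if_pos rfl, hTq,
    pow_succ, (lv_even b q).neg_one_pow]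
  have : ∏ i ∈ univ.erase q, (if i = q then (1 : ℝ) else (-1 : ℝ) ^ (T i).card) = ∏ i ∈ univ.erase q, (-1 : ℝ) ^ (T i).card := by
    apply prod_congr rfl; intro i hi
    rw [if_neg (ne_of_mem_erase hi)]
  rw [this]; ring

lemma WY_eq (fa fb : Fin k → ℤ) (n : ℕ) : WW fa fb (famD (FY Pi b)) CY n =
    ∏ i, (∑ U ∈ (Pi i).powerset.filter (fun U => U.card ≤ lv b i),
          if ∀ l ∈ U, l ∣ (Fv fa fb (n : ℤ)).natAbs then ((-1 : ℝ)) ^ U.card else 0) :=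
  fam_WW (fun i U hU => (FY_P Pi b i U hU).1.trans (hPG i)) fa fb (fun _ U => (-1 : ℝ) ^ U.card) CY (CY_T Pi b hPG) n

lemma WE_eq (q : Fin J) (fa fb : Fin k → ℤ) (n : ℕ) : WW fa fb (famD (FE Pi b q)) CE n =
    (∑ U ∈ powersetCard (lv b q + 1) (Pi q), if ∀ l ∈ U, l ∣ (Fv fa fb (n : ℤ)).natAbs then (1 : ℝ) else 0) *
    ∏ i ∈ univ.erase q, (∑ U ∈ (Pi i).powerset.filter (fun U => U.card ≤ lv b i),
          if ∀ l ∈ U, l ∣ (Fv fa fb (n : ℤ)).natAbs then ((-1 : ℝ)) ^ U.card else 0) := by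
  rw [fam_WW (fun i U hU => (FE_P Pi b q i U hU).1.trans (hPG i)) fa fb
    (fun i U => if i = q then (1 : ℝ) else (-1 : ℝ) ^ U.card) CE (CE_T Pi b hPG q) n,
    ← mul_prod_erase univ _ (mem_univ q)]
  congr 1
  · unfold FE
    rw [if_pos rfl]
    apply sum_congr rfl; intro U _
    rw [if_pos rfl]
  · apply prod_congr rfl
    intro i hi
    have hiq := ne_of_mem_erase hi
    unfold FE
    rw [if_neg hiq]
    unfold FY
    apply sum_congr rfl; intro U _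
    rw [if_neg hiq]

lemma rY_eq (fa fb : Fin k → ℤ) : ∑ D ∈ famD (FY Pi b), CY D * rr fa fb D =
    ∏ i : Fin J, bhA (fun l => ((RR fa fb l).card : ℝ) / l) (2 * b + 2 * (J - 1 - (i : ℕ))) (Pi i) := by
  rw [fam_rr (fun i U hU => (FY_P Pi b i U hU).1.trans (hPG i)) fa fb (fun _ U => (-1 : ℝ) ^ U.card) CY (CY_T Pi b hPG)]
  rfl

lemma rE_eq (q : Fin J) (fa fb : Fin k → ℤ) : ∑ D ∈ famD (FE Pi b q), CE D * rr fa fb D =
    bhE (fun l => ((RR fa fb l).card : ℝ) / l) (2 * b + 2 * (J - 1 - (q : ℕ)) + 1) (Pi q) *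
      ∏ i ∈ univ.erase q, bhA (fun l => ((RR fa fb l).card : ℝ) / l) (2 * b + 2 * (J - 1 - (i : ℕ))) (Pi i) := by
  rw [fam_rr (fun i U hU => (FE_P Pi b q i U hU).1.trans (hPG i)) fa fb
    (fun i U => if i = q then (1 : ℝ) else (-1 : ℝ) ^ U.card) CE (CE_T Pi b hPG q),
    ← mul_prod_erase univ _ (mem_univ q)]
  congr 1
  · unfold FE bhE lv
    rw [if_pos rfl]
    apply sum_congr rfl; intro U _
    rw [if_pos rfl, one_mul]
  · apply prod_congr rfl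
    intro i hi
    have hiq := ne_of_mem_erase hi
    unfold FE
    rw [if_neg hiq]
    unfold FY bhA lv
    apply sum_congr rfl; intro U _
    rw [if_neg hiq]

end Fixed

/-- existence of the weights -/
theorem bh_weights (k : ℕ) : ∃ N1 : ℕ, 1 ≤ N1 ∧ ∀ (β J z y : ℕ) (a b : Fin k → ℤ), N1 ≤ β → N1 ≤ z → y ≤ 2 ^ 2 ^ J →
    (∀ p : ℕ, p.Prime → z < p → ¬ (p : ℤ) ∣ ∏ j, b j) →
    ∃ (𝒟Y : Finset ℕ) (𝒟E : Fin J → Finset ℕ),
      Adm b ((2 ^ 2 ^ J) ^ (4 * β + 6)) 𝒟Y CY ∧ (∀ i, Adm b ((2 ^ 2 ^ J) ^ (4 * β + 6)) (𝒟E i) CE) ∧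
      (∀ D ∈ 𝒟Y, ∀ p, p.Prime → p ∣ D → z < p) ∧ (∀ i, ∀ D ∈ 𝒟E i, ∀ p, p.Prime → p ∣ D → z < p) ∧
      (∀ n : ℕ, RI a b ((Ioc z y).filter Nat.Prime) n ≤ WW a b 𝒟Y CY n ∧
        WW a b 𝒟Y CY n - RI a b ((Ioc z y).filter Nat.Prime) n ≤ ∑ i, WW a b (𝒟E i) CE n) ∧
      0 < ∏ p ∈ (Ioc z y).filter Nat.Prime, (1 - ((RR a b p).card : ℝ) / p) ∧
      ∏ p ∈ (Ioc z y).filter Nat.Prime, (1 - ((RR a b p).card : ℝ) / p) ≤ ∑ D ∈ 𝒟Y, CY D * rr a b D ∧
      ∑ D ∈ 𝒟Y, CY D * rr a b D ≤ (1 + (1 / 2) ^ β) * ∏ p ∈ (Ioc z y).filter Nat.Prime, (1 - ((RR a b p).card : ℝ) / p) ∧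
      ∑ i, ∑ D ∈ 𝒟E i, CE D * rr a b D ≤ (1 / 2) ^ β * ∑ D ∈ 𝒟Y, CY D * rr a b D := by
  classical
  obtain ⟨CM, hCM, hM⟩ := mertens_group
  have hlog2 : 0 < Real.log 2 := Real.log_pos (by norm_num)
  have hLs : ∀ i : ℕ, ∑ l ∈ Gj (i + 1), (1 : ℝ) / l ≤ Real.log 2 + CM := by
    intro i
    have h1 := (abs_le.1 (hM (i + 1) (by omega))).2
    have h2 : CM / 2 ^ (i + 1) ≤ CM := div_le_self hCM.le (one_le_pow₀ (by norm_num))
    linarith
  obtain ⟨N, hN⟩ := exists_nat_ge (21 * (2 ^ k * (Real.log 2 + CM)))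
  refine ⟨N + 2 * 2 ^ k + 2, by omega, ?_⟩
  intro b J z y fa fb hb hz hy hfb
  have hP : ∀ p ∈ (Ioc z y).filter Nat.Prime, p.Prime ∧ z < p ∧ p < 2 ^ 2 ^ J := by
    intro p hp
    rw [mem_filter, mem_Ioc] at hp
    refine ⟨hp.2, hp.1.1, ?_⟩
    rcases lt_or_eq_of_le (hp.1.2.trans hy) with h | h
    · exact h
    · exfalso
      have h4 : 2 ∣ p := by rw [h]; exact dvd_pow_self 2 (by positivity)
      have h5 : p = 2 := ((Nat.prime_dvd_prime_iff_eq Nat.prime_two hp.2).1 h4).symm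
      have := hp.1.1
      have : 0 < 2 ^ k := by positivity
      omega
  obtain ⟨Pi, hPi⟩ : ∃ Pi : Fin J → Finset ℕ, ∀ i, Pi i = ((Ioc z y).filter Nat.Prime).filter (fun p => p ∈ Gj ((i : ℕ) + 1)) :=
    ⟨_, fun i => rfl⟩
  have hPG : ∀ i, Pi i ⊆ Gj ((i : ℕ) + 1) := fun i p hp => by
    rw [hPi, mem_filter] at hp; exact hp.2
  have hPiP : ∀ i, Pi i ⊆ (Ioc z y).filter Nat.Prime := fun i p hp => by
    rw [hPi, mem_filter] at hp; exact hp.1
  have hU : bhU Pi = (Ioc z y).filter Nat.Prime := by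
    ext p
    unfold bhU
    rw [mem_biUnion]
    constructor
    · rintro ⟨i, _, hi⟩
      exact hPiP i hi
    · intro hp
      obtain ⟨i, hi⟩ := bh_cover (hP p hp).1 (hP p hp).2.2
      exact ⟨i, mem_univ _, by rw [hPi]; exact mem_filter.2 ⟨hp, hi⟩⟩
  have hFYz : ∀ i, ∀ U ∈ FY Pi b i, ∀ p ∈ U, z < p := fun i U hU' p hp => (hP p (hPiP i ((FY_P Pi b i U hU').1 hp))).2.1
  have hFEz : ∀ q i, ∀ U ∈ FE Pi b q i, ∀ p ∈ U, z < p := fun q i U hU' p hp => (hP p (hPiP i ((FE_P Pi b q i U hU').1 hp))).2.1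
  obtain ⟨hA1, hA2⟩ := fam_adm (fun i U hU => (FY_P Pi b i U hU).1.trans (hPG i)) fb CY ((2 ^ 2 ^ J) ^ (4 * b + 6)) b (fun T hT i => by
    rw [Fintype.mem_piFinset] at hT
    have := (FY_P Pi b i _ (hT i)).2
    unfold lv at this
    omega) le_rfl CY_abs z hFYz hfb
  have hB := fun q => fam_adm (fun i U hU => (FE_P Pi b q i U hU).1.trans (hPG i)) fb CE ((2 ^ 2 ^ J) ^ (4 * b + 6)) b (fun T hT i => by
    rw [Fintype.mem_piFinset] at hT
    have := (FE_P Pi b q i _ (hT i)).2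
    unfold lv at this
    omega) le_rfl CE_abs z (hFEz q) hfb
  have hb2 : N ≤ b := by omega
  have hx0 : (0 : ℝ) ≤ 2 ^ k * (Real.log 2 + CM) := by positivity
  have hgP : ∀ p ∈ (Ioc z y).filter Nat.Prime, 0 ≤ ((RR fa fb p).card : ℝ) / p ∧ ((RR fa fb p).card : ℝ) / p ≤ 2 ^ k * (1 / (p : ℝ)) := by
    intro p hp
    obtain ⟨h1, h2, h3⟩ := hP p hp
    refine ⟨by positivity, ?_⟩
    rw [mul_one_div]
    exact div_le_div_of_nonneg_right (RR_prime_le fa h1 (hfb p h1 h2)) (Nat.cast_nonneg _)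
  have hdens := bh_dens Pi (fun l => ((RR fa fb l).card : ℝ) / l) (2 ^ k * (Real.log 2 + CM)) hx0 b (by omega)
    (hN.trans (by exact_mod_cast hb2)) (by
      intro i p hp
      have hpP := hPiP i hp
      refine ⟨(hgP p hpP).1, (hgP p hpP).2.trans ?_⟩
      have h2 : 2 * 2 ^ k ≤ p := by
        have := (hP p hpP).2.1
        omega
      have h3 : ((2 * 2 ^ k : ℕ) : ℝ) ≤ p := by exact_mod_cast h2
      push_cast at h3
      have hp0 : (0 : ℝ) < p := lt_of_lt_of_le (by positivity) h3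
      rw [mul_one_div, div_le_iff₀ hp0]
      linarith) (by
      intro i
      calc ∑ l ∈ Pi i, ((RR fa fb l).card : ℝ) / l ≤ ∑ l ∈ Pi i, (2 : ℝ) ^ k * (1 / (l : ℝ)) :=
            sum_le_sum fun l hl => (hgP l (hPiP i hl)).2
        _ = 2 ^ k * ∑ l ∈ Pi i, 1 / (l : ℝ) := by rw [mul_sum]
        _ ≤ 2 ^ k * ∑ l ∈ Gj ((i : ℕ) + 1), 1 / (l : ℝ) := by
            apply mul_le_mul_of_nonneg_left _ (by positivity)
            apply sum_le_sum_of_subset_of_nonneg (hPG i)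
            intro l _ _
            positivity
        _ ≤ 2 ^ k * (Real.log 2 + CM) := mul_le_mul_of_nonneg_left (hLs i) (by positivity))
  have hVeq : ∏ i, (∏ l ∈ Pi i, (1 - ((RR fa fb l).card : ℝ) / l)) = ∏ p ∈ (Ioc z y).filter Nat.Prime, (1 - ((RR fa fb p).card : ℝ) / p) := by
    rw [bh_pT_eq Pi hPG (fun l => 1 - ((RR fa fb l).card : ℝ) / l), hU]
  refine ⟨famD (FY Pi b), fun q => famD (FE Pi b q), hA1, fun q => (hB q).1, hA2, fun q => (hB q).2, ?_, ?_⟩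
  · intro n
    have := bh_point ((Ioc z y).filter Nat.Prime) Pi (lv b) (lv_even b) hU fa fb n
    rw [WY_eq Pi b hPG, sum_congr rfl (fun q _ => WE_eq Pi b hPG q fa fb n)]
    exact this
  · rw [rY_eq Pi b hPG, sum_congr rfl (fun q _ => rE_eq Pi b hPG q fa fb), ← hVeq]
    exact hdens

end Pool.Agent.H76.TB
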