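import Mathlib
import Pool.Agent.H76.TB.A16

/-! The fundamental lemma for the sums over primes. -/

set_option autoImplicit false

open Finset

namespace Pool.Agent.H76.TB

open Pool.Agent.Helper112.LP.Kba (bh_prod_sub)
open Pool.Agent.H373R2.T7 (ev_log' ev_L' pz mem_pz Vz Vz_pos lamz)

variable {k : ℕ}

/-- the three variables, as natural numbers -/
def nt (c₁ c₂ m : ℤ) (i : Fin 3) (t : ℕ × ℕ) : ℕ := ![t.1, t.2, n3 c₁ c₂ m t] i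

/-- sums of products with weights -/
noncomputable def TL (f : ℕ → ℝ) (z : ℕ) (c₁ c₂ m : ℤ) (N : ℕ) (a b : Fin 3 → Fin k → ℤ) (𝒟 : Fin 3 → Finset ℕ) (C : Fin 3 → ℕ → ℝ) : ℝ :=
  ∑ t ∈ TG c₁ c₂ m N, ∏ i, FL f z (a i) (b i) (𝒟 i) (C i) (nt c₁ c₂ m i t)

lemma TL_eq (f : ℕ → ℝ) (z : ℕ) (c₁ c₂ m : ℤ) (N : ℕ) (a b : Fin 3 → Fin k → ℤ) (𝒟 : Fin 3 → Finset ℕ) (C : Fin 3 → ℕ → ℝ) :
    TL f z c₁ c₂ m N a b 𝒟 C = ∑ t ∈ TG c₁ c₂ m N, FL f z (a 0) (b 0) (𝒟 0) (C 0) t.1 * FL f z (a 1) (b 1) (𝒟 1) (C 1) t.2 *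
        FL f z (a 2) (b 2) (𝒟 2) (C 2) (n3 c₁ c₂ m t) := by
  unfold TL
  apply sum_congr rfl; intro t _
  rw [Fin.prod_univ_three]
  rfl

/-- the sum over the primes with all values free of primes in a set -/
noncomputable def SL (f : ℕ → ℝ) (P : Finset ℕ) (c₁ c₂ m : ℤ) (N : ℕ) (a b : Fin 3 → Fin k → ℤ) : ℝ :=
  ∑ t ∈ TG c₁ c₂ m N, ∏ i, (f (nt c₁ c₂ m i t) * RI (a i) (b i) P (nt c₁ c₂ m i t))

/-- the local part at the small primes -/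
noncomputable def M0 (c₁ c₂ m : ℤ) (N z : ℕ) (a b : Fin 3 → Fin k → ℤ) : ℝ :=
  (TG c₁ c₂ m N).card * (((Vz z)⁻¹) ^ 3 * ∏ p ∈ pz z, (1 - (nb c₁ c₂ m a b p : ℝ) / p ^ 2))

lemma MM_eq (c₁ c₂ m : ℤ) (N z : ℕ) (a b : Fin 3 → Fin k → ℤ) (𝒟 : Fin 3 → Finset ℕ) (C : Fin 3 → ℕ → ℝ) :
    MM c₁ c₂ m N z a b 𝒟 C = M0 c₁ c₂ m N z a b * ∏ i, ∑ D ∈ 𝒟 i, C i D * rr (a i) (b i) D := rfl

lemma M0_nonneg (c₁ c₂ m : ℤ) (N z : ℕ) (a b : Fin 3 → Fin k → ℤ) : 0 ≤ M0 c₁ c₂ m N z a b := by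
  unfold M0
  have h1 : 0 < (Vz z)⁻¹ := inv_pos.2 (Vz_pos z)
  have h2 : 0 ≤ ∏ p ∈ pz z, (1 - (nb c₁ c₂ m a b p : ℝ) / p ^ 2) := by
    apply prod_nonneg; intro p hp
    have hp0 : (0 : ℝ) < p := by exact_mod_cast (mem_pz.1 hp).2.pos
    have h6 : (nb c₁ c₂ m a b p : ℝ) / p ^ 2 ≤ 1 := by
      rw [div_le_one (by positivity)]
      exact_mod_cast nb_sq c₁ c₂ m a b p
    linarith
  positivity

lemma RI_mul (a b : Fin k → ℤ) (z y : ℕ) (hzy : z ≤ y) (n : ℕ) :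
    RI a b (pz y) n = RI a b (pz z) n * RI a b ((Ioc z y).filter Nat.Prime) n := by
  unfold RI
  have hiff : (∀ p ∈ pz y, ¬ (p : ℤ) ∣ Fv a b (n : ℤ)) ↔ (∀ p ∈ pz z, ¬ (p : ℤ) ∣ Fv a b (n : ℤ)) ∧
      (∀ p ∈ (Ioc z y).filter Nat.Prime, ¬ (p : ℤ) ∣ Fv a b (n : ℤ)) := by
    constructor
    · intro h
      refine ⟨fun p hp => h p ?_, fun p hp => h p ?_⟩
      · rw [mem_pz] at hp ⊢
        exact ⟨hp.1.trans hzy, hp.2⟩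
      · rw [mem_filter, mem_Ioc] at hp
        rw [mem_pz]
        exact ⟨hp.1.2, hp.2⟩
    · rintro ⟨h1, h2⟩ p hp
      rw [mem_pz] at hp
      rcases Nat.lt_or_ge z p with h | h
      · exact h2 p (mem_filter.2 ⟨mem_Ioc.2 ⟨h, hp.1⟩, hp.2⟩)
      · exact h1 p (mem_pz.2 ⟨h, hp.2⟩)
  by_cases h1 : ∀ p ∈ pz z, ¬ (p : ℤ) ∣ Fv a b (n : ℤ)
  · by_cases h2 : ∀ p ∈ (Ioc z y).filter Nat.Prime, ¬ (p : ℤ) ∣ Fv a b (n : ℤ)
    · rw [if_pos h1, if_pos h2, if_pos (hiff.2 ⟨h1, h2⟩), mul_one]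
    · rw [if_neg h2, if_neg (fun h => h2 (hiff.1 h).2), mul_zero]
  · rw [if_neg h1, if_neg (fun h => h1 (hiff.1 h).1), zero_mul]

/-- the upper and the lower bounds, from weights -/
lemma sandwich (f : ℕ → ℝ) (hf : ∀ n, 0 ≤ f n) (z y : ℕ) (hzy : z ≤ y) (c₁ c₂ m : ℤ) (N : ℕ) (a b : Fin 3 → Fin k → ℤ) (J : ℕ)
    (𝒟Y : Fin 3 → Finset ℕ) (𝒟E : Fin 3 → Fin J → Finset ℕ)
    (hpt : ∀ i, ∀ n : ℕ, RI (a i) (b i) ((Ioc z y).filter Nat.Prime) n ≤ WW (a i) (b i) (𝒟Y i) CY n ∧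
        WW (a i) (b i) (𝒟Y i) CY n - RI (a i) (b i) ((Ioc z y).filter Nat.Prime) n ≤ ∑ q, WW (a i) (b i) (𝒟E i q) CE n) :
    SL f (pz y) c₁ c₂ m N a b ≤ TL f z c₁ c₂ m N a b 𝒟Y (fun _ => CY) ∧
    TL f z c₁ c₂ m N a b 𝒟Y (fun _ => CY) - SL f (pz y) c₁ c₂ m N a b ≤
      ∑ i₀ : Fin 3, ∑ q : Fin J, TL f z c₁ c₂ m N a b (Function.update 𝒟Y i₀ (𝒟E i₀ q)) (Function.update (fun _ => CY) i₀ CE) := by
  classical
  set F : ℕ × ℕ → ℝ := fun t => ∏ i, (f (nt c₁ c₂ m i t) * RI (a i) (b i) (pz z) (nt c₁ c₂ m i t)) with hF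
  have hF0 : ∀ t, 0 ≤ F t := fun t => prod_nonneg fun i _ => mul_nonneg (hf _) (RI_nonneg _ _ _ _)
  set R : ℕ × ℕ → Fin 3 → ℝ := fun t i => RI (a i) (b i) ((Ioc z y).filter Nat.Prime) (nt c₁ c₂ m i t) with hR
  set Y : ℕ × ℕ → Fin 3 → ℝ := fun t i => WW (a i) (b i) (𝒟Y i) CY (nt c₁ c₂ m i t) with hY
  have hS : SL f (pz y) c₁ c₂ m N a b = ∑ t ∈ TG c₁ c₂ m N, F t * ∏ i, R t i := by
    unfold SL
    apply sum_congr rfl; intro t _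
    rw [hF]; simp only
    rw [← prod_mul_distrib]
    apply prod_congr rfl; intro i _
    rw [RI_mul (a i) (b i) z y hzy]; ring
  have hT : ∀ (𝒟 : Fin 3 → Finset ℕ) (C : Fin 3 → ℕ → ℝ), TL f z c₁ c₂ m N a b 𝒟 C =
      ∑ t ∈ TG c₁ c₂ m N, F t * ∏ i, WW (a i) (b i) (𝒟 i) (C i) (nt c₁ c₂ m i t) := by
    intro 𝒟 C
    unfold TL
    apply sum_congr rfl; intro t _
    rw [hF]; simp only
    rw [← prod_mul_distrib]
    apply prod_congr rfl; intro i _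
    unfold FL; ring
  have h0 : ∀ t i, 0 ≤ R t i := fun t i => RI_nonneg _ _ _ _
  have h1 : ∀ t i, R t i ≤ Y t i := fun t i => (hpt i _).1
  constructor
  · rw [hS, hT]
    apply sum_le_sum; intro t _
    apply mul_le_mul_of_nonneg_left _ (hF0 t)
    exact prod_le_prod (fun i _ => h0 t i) (fun i _ => h1 t i)
  · rw [hS, hT, ← sum_sub_distrib]
    have e1 : ∀ i₀ : Fin 3, ∀ q : Fin J, TL f z c₁ c₂ m N a b (Function.update 𝒟Y i₀ (𝒟E i₀ q)) (Function.update (fun _ => CY) i₀ CE) =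
        ∑ t ∈ TG c₁ c₂ m N, F t * (WW (a i₀) (b i₀) (𝒟E i₀ q) CE (nt c₁ c₂ m i₀ t) * ∏ i ∈ univ.erase i₀, Y t i) := by
      intro i₀ q
      rw [hT]
      apply sum_congr rfl; intro t _
      congr 1
      rw [← mul_prod_erase univ _ (mem_univ i₀), Function.update_self, Function.update_self]
      congr 1
      apply prod_congr rfl; intro i hi
      rw [Function.update_of_ne (ne_of_mem_erase hi), Function.update_of_ne (ne_of_mem_erase hi)]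
    rw [sum_congr rfl (fun i₀ _ => sum_congr rfl fun q _ => e1 i₀ q)]
    have e2 : ∑ i₀ : Fin 3, ∑ q : Fin J, ∑ t ∈ TG c₁ c₂ m N, F t * (WW (a i₀) (b i₀) (𝒟E i₀ q) CE (nt c₁ c₂ m i₀ t) * ∏ i ∈ univ.erase i₀, Y t i) =
        ∑ t ∈ TG c₁ c₂ m N, F t * ∑ i₀ : Fin 3, (∑ q : Fin J, WW (a i₀) (b i₀) (𝒟E i₀ q) CE (nt c₁ c₂ m i₀ t)) * ∏ i ∈ univ.erase i₀, Y t i := by
      have e3 : ∀ i₀ : Fin 3, ∑ q : Fin J, ∑ t ∈ TG c₁ c₂ m N, F t * (WW (a i₀) (b i₀) (𝒟E i₀ q) CE (nt c₁ c₂ m i₀ t) * ∏ i ∈ univ.erase i₀, Y t i) =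
          ∑ t ∈ TG c₁ c₂ m N, F t * ((∑ q : Fin J, WW (a i₀) (b i₀) (𝒟E i₀ q) CE (nt c₁ c₂ m i₀ t)) * ∏ i ∈ univ.erase i₀, Y t i) := by
        intro i₀
        rw [sum_comm]
        apply sum_congr rfl; intro t _
        rw [sum_mul, mul_sum]
      rw [sum_congr rfl (fun i₀ _ => e3 i₀), sum_comm]
      apply sum_congr rfl; intro t _
      rw [mul_sum]
    rw [e2]
    apply sum_le_sum; intro t _
    rw [← mul_sub]
    apply mul_le_mul_of_nonneg_left _ (hF0 t)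
    exact bh_prod_sub univ (R t) (Y t) (fun i₀ => ∑ q : Fin J, WW (a i₀) (b i₀) (𝒟E i₀ q) CE (nt c₁ c₂ m i₀ t)) (h0 t) (h1 t)
      (fun i => (hpt i _).2)

/-- numerical lemma -/
lemma num_core (M V G δ S SY e : ℝ) (J : ℕ) (hM : 0 ≤ M) (hV : 0 ≤ V) (hδ0 : 0 ≤ δ) (hδ : δ ≤ 1 / 3) (he : 0 ≤ e)
    (h1 : V ≤ G) (h2 : G ≤ (1 + δ) ^ 3 * V) (h3 : |SY - M * G| ≤ e) (h4 : S ≤ SY) (h5 : SY - S ≤ 3 * δ * (M * G) + 3 * J * e) :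
    |S - M * V| ≤ 32 * δ * (M * V) + (1 + 3 * J) * e := by
  have hMV : 0 ≤ M * V := mul_nonneg hM hV
  have hMG : M * V ≤ M * G := mul_le_mul_of_nonneg_left h1 hM
  have hMG2 : M * G ≤ (1 + δ) ^ 3 * (M * V) := by
    calc M * G ≤ M * ((1 + δ) ^ 3 * V) := mul_le_mul_of_nonneg_left h2 hM
      _ = _ := by ring
  have hd3 : (1 + δ) ^ 3 ≤ 1 + 7 * δ := by nlinarith [mul_nonneg hδ0 hδ0, mul_nonneg (mul_nonneg hδ0 hδ0) hδ0]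
  have hMG3 : M * G ≤ (1 + 7 * δ) * (M * V) := hMG2.trans (mul_le_mul_of_nonneg_right hd3 hMV)
  have hJ : (0 : ℝ) ≤ J := Nat.cast_nonneg J
  have hJe : 0 ≤ 3 * (J : ℝ) * e := by positivity
  have hδMV : 0 ≤ δ * (M * V) := mul_nonneg hδ0 hMV
  rw [abs_le] at h3 ⊢
  constructor
  · have h6 : (1 - 3 * δ) * (M * V) ≤ (1 - 3 * δ) * (M * G) := mul_le_mul_of_nonneg_left hMG (by linarith)
    nlinarith [h3.1, h3.2]
  · nlinarith [h3.1, h3.2]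

theorem core (k A : ℕ) (c₁ c₂ : ℤ) (hc₁ : c₁ ≠ 0) (hc₂ : c₂ ≠ 0) (hcop : IsCoprime c₁ c₂) : ∃ B₀ N1 : ℕ, ∀ B : ℕ, B₀ ≤ B → ∃ N0 : ℕ,
    ∀ N : ℕ, N0 ≤ N → ∀ z : ℕ, Real.log N ^ B ≤ z → (z : ℝ) ≤ Real.log N ^ (B + 1) →
    ∀ β J y : ℕ, N1 ≤ β → y ≤ 2 ^ 2 ^ J → (2 ^ 2 ^ J) ^ (32 * (4 * β + 6)) ≤ N → z ≤ y →
    ∀ (a b : Fin 3 → Fin k → ℤ), (∀ i, (∏ j, b i j) ≠ 0) → (∀ i, ((∏ j, b i j).natAbs : ℝ) ≤ Real.log N) → ∀ m : ℤ,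
    |SL (fun n => ArithmeticFunction.vonMangoldt n) (pz y) c₁ c₂ m N a b - M0 c₁ c₂ m N z a b *
      ∏ i, ∏ p ∈ (Ioc z y).filter Nat.Prime, (1 - ((RR (a i) (b i) p).card : ℝ) / p)| ≤
      32 * (1 / 2) ^ β * (M0 c₁ c₂ m N z a b * ∏ i, ∏ p ∈ (Ioc z y).filter Nat.Prime, (1 - ((RR (a i) (b i) p).card : ℝ) / p)) +
        N ^ 2 / Real.log N ^ A := by
  classical
  obtain ⟨B1, hB1⟩ := tele k (A + 3) c₁ c₂ hc₁ hc₂
  obtain ⟨B2, hB2⟩ := mlem k (A + 3) c₁ c₂ hc₁ hc₂ hcop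
  obtain ⟨N1, hN1, hw⟩ := bh_weights k
  refine ⟨B1 + B2 + 1, N1 + 2, fun B hB => ?_⟩
  obtain ⟨m1, h1⟩ := hB1 (B + 1)
  obtain ⟨m2, h2⟩ := hB2 (B + 1)
  obtain ⟨m3, h3⟩ := ev_L' (N1 + 20)
  refine ⟨max (max m1 m2) (max m3 2), fun N hN z hz1 hz2 β J y hβ hyJ hJN hzy a b hb0 hbN m => ?_⟩
  have hL := h3 N (le_trans (le_trans (le_max_left _ _) (le_max_right _ _)) hN)
  have hN2 : 2 ≤ N := le_trans (le_trans (le_max_right _ _) (le_max_right _ _)) hN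
  have hNr : (2 : ℝ) ≤ N := by exact_mod_cast hN2
  have hN0 : (0 : ℝ) < N := by linarith
  set ℓ := Real.log N with hℓ
  have hN1r : (0 : ℝ) ≤ N1 := Nat.cast_nonneg _
  have hℓ20 : 20 ≤ ℓ := by linarith
  have hℓ1 : 1 ≤ ℓ := by linarith
  have hℓ0 : 0 < ℓ := by linarith
  have hzB1 : ℓ ^ B1 ≤ z := (pow_le_pow_right₀ hℓ1 (by omega)).trans hz1
  have hzB2 : ℓ ^ B2 ≤ z := (pow_le_pow_right₀ hℓ1 (by omega)).trans hz1
  have hzℓ : ℓ ≤ z := by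
    refine le_trans ?_ hz1
    calc ℓ = ℓ ^ 1 := (pow_one ℓ).symm
      _ ≤ ℓ ^ B := pow_le_pow_right₀ hℓ1 (by omega)
  have hN1z : N1 ≤ z := by
    have : (N1 : ℝ) ≤ z := by linarith
    exact_mod_cast this
  have a1 := h1 N (le_trans (le_trans (le_max_left _ _) (le_max_left _ _)) hN) z hzB1 hz2
  have a2 := h2 N (le_trans (le_trans (le_max_right _ _) (le_max_left _ _)) hN) z hzB2 hz2
  -- no large prime divides the constant terms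
  have hbp : ∀ i, ∀ p : ℕ, p.Prime → z < p → ¬ (p : ℤ) ∣ ∏ j, b i j := by
    intro i p _ hp hd
    have h6 : p ≤ (∏ j, b i j).natAbs := Nat.le_of_dvd (Int.natAbs_pos.2 (hb0 i)) (Int.natCast_dvd.1 hd)
    have h7 : (p : ℝ) ≤ ℓ := le_trans (by exact_mod_cast h6) (hbN i)
    have h8 : (z : ℝ) < p := by exact_mod_cast hp
    linarith
  have hwi := fun i => hw β J z y (a i) (b i) (by omega) hN1z hyJ (hbp i)
  choose 𝒟Y 𝒟E w1 w2 w3 w4 w5 w6 w7 w8 w9 using hwi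
  set W : ℕ := (2 ^ 2 ^ J) ^ (4 * β + 6) with hW
  have hW1 : 1 ≤ W := Nat.one_le_pow _ _ (by positivity)
  have hWN : W ^ 32 ≤ N := by
    rw [hW, ← pow_mul, mul_comm (4 * β + 6) 32]; exact hJN
  set Λ : ℕ → ℝ := fun n => ArithmeticFunction.vonMangoldt n with hΛ
  have hest : ∀ (𝒟 : Fin 3 → Finset ℕ) (C : Fin 3 → ℕ → ℝ), (∀ i, Adm (b i) W (𝒟 i) (C i)) →
      (∀ i, ∀ D ∈ 𝒟 i, ∀ p, p.Prime → p ∣ D → z < p) →
      |TL Λ z c₁ c₂ m N a b 𝒟 C - M0 c₁ c₂ m N z a b * ∏ i, ∑ D ∈ 𝒟 i, C i D * rr (a i) (b i) D| ≤ 2 * (N ^ 2 / ℓ ^ (A + 3)) := by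
    intro 𝒟 C hA1 hA2
    have g1 := a1 a b W 𝒟 C hW1 hWN hA1 hA2 hb0 hbN m
    have g2 := a2 a b W 𝒟 C hW1 hWN hA1 hA2 m
    rw [← MM_eq, TL_eq]
    have := abs_sub_le (∑ t ∈ TG c₁ c₂ m N, FL Λ z (a 0) (b 0) (𝒟 0) (C 0) t.1 * FL Λ z (a 1) (b 1) (𝒟 1) (C 1) t.2 *
        FL Λ z (a 2) (b 2) (𝒟 2) (C 2) (n3 c₁ c₂ m t)) (∑ t ∈ TG c₁ c₂ m N, FL (lamz z) z (a 0) (b 0) (𝒟 0) (C 0) t.1 * FL (lamz z) z (a 1) (b 1) (𝒟 1) (C 1) t.2 *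
        FL (lamz z) z (a 2) (b 2) (𝒟 2) (C 2) (n3 c₁ c₂ m t)) (MM c₁ c₂ m N z a b 𝒟 C)
    linarith
  set M : ℝ := M0 c₁ c₂ m N z a b with hM
  have hM0 : 0 ≤ M := M0_nonneg _ _ _ _ _ _ _
  set V : Fin 3 → ℝ := fun i => ∏ p ∈ (Ioc z y).filter Nat.Prime, (1 - ((RR (a i) (b i) p).card : ℝ) / p) with hV
  set G : Fin 3 → ℝ := fun i => ∑ D ∈ 𝒟Y i, CY D * rr (a i) (b i) D with hG
  set δ : ℝ := (1 / 2) ^ β with hδ
  have hδ0 : 0 ≤ δ := by positivity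
  have hδ3 : δ ≤ 1 / 3 := by
    calc δ ≤ (1 / 2) ^ 2 := pow_le_pow_of_le_one (by norm_num) (by norm_num) (by omega)
      _ ≤ 1 / 3 := by norm_num
  have hV0 : ∀ i, 0 < V i := w6
  have hVG : ∀ i, V i ≤ G i := w7
  have hGV : ∀ i, G i ≤ (1 + δ) * V i := w8
  have hG0 : ∀ i, 0 < G i := fun i => (hV0 i).trans_le (hVG i)
  have hprod1 : ∏ i, V i ≤ ∏ i, G i := prod_le_prod (fun i _ => (hV0 i).le) (fun i _ => hVG i)
  have hprod2 : ∏ i, G i ≤ (1 + δ) ^ 3 * ∏ i, V i := by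
    calc ∏ i, G i ≤ ∏ i, ((1 + δ) * V i) := prod_le_prod (fun i _ => (hG0 i).le) (fun i _ => hGV i)
      _ = _ := by rw [prod_mul_distrib, prod_const, card_univ, Fintype.card_fin]
  have hprodV : 0 ≤ ∏ i, V i := prod_nonneg fun i _ => (hV0 i).le
  obtain ⟨s1, s2⟩ := sandwich Λ (fun n => ArithmeticFunction.vonMangoldt_nonneg) z y hzy c₁ c₂ m N a b J 𝒟Y 𝒟E w5
  have t1 := hest 𝒟Y (fun _ => CY) w1 w3
  have t2 : ∀ i₀ : Fin 3, ∀ q : Fin J, TL Λ z c₁ c₂ m N a b (Function.update 𝒟Y i₀ (𝒟E i₀ q)) (Function.update (fun _ => CY) i₀ CE) ≤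
      M * ((∑ D ∈ 𝒟E i₀ q, CE D * rr (a i₀) (b i₀) D) * ∏ i ∈ univ.erase i₀, G i) + 2 * (N ^ 2 / ℓ ^ (A + 3)) := by
    intro i₀ q
    have g1 := hest (Function.update 𝒟Y i₀ (𝒟E i₀ q)) (Function.update (fun _ => CY) i₀ CE) (by
      intro i
      by_cases h : i = i₀
      · subst h; rw [Function.update_self, Function.update_self]; exact w2 i q
      · rw [Function.update_of_ne h, Function.update_of_ne h]; exact w1 i) (by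
      intro i
      by_cases h : i = i₀
      · subst h; rw [Function.update_self]; exact w4 i q
      · rw [Function.update_of_ne h]; exact w3 i)
    have e1 : ∏ i, ∑ D ∈ Function.update 𝒟Y i₀ (𝒟E i₀ q) i, Function.update (fun _ => CY) i₀ CE i D * rr (a i) (b i) D =
        (∑ D ∈ 𝒟E i₀ q, CE D * rr (a i₀) (b i₀) D) * ∏ i ∈ univ.erase i₀, G i := by
      rw [← mul_prod_erase univ _ (mem_univ i₀), Function.update_self, Function.update_self]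
      congr 1
      apply prod_congr rfl; intro i hi
      rw [Function.update_of_ne (ne_of_mem_erase hi), Function.update_of_ne (ne_of_mem_erase hi)]
    rw [e1] at g1
    have := (abs_le.1 g1).2
    linarith
  have t3 : TL Λ z c₁ c₂ m N a b 𝒟Y (fun _ => CY) - SL Λ (pz y) c₁ c₂ m N a b ≤ 3 * δ * (M * ∏ i, G i) + 3 * J * (2 * (N ^ 2 / ℓ ^ (A + 3))) := by
    refine s2.trans ?_
    calc _ ≤ ∑ i₀ : Fin 3, ∑ q : Fin J, (M * ((∑ D ∈ 𝒟E i₀ q, CE D * rr (a i₀) (b i₀) D) * ∏ i ∈ univ.erase i₀, G i) + 2 * (N ^ 2 / ℓ ^ (A + 3))) :=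
          sum_le_sum fun i₀ _ => sum_le_sum fun q _ => t2 i₀ q
      _ = ∑ i₀ : Fin 3, (M * ((∑ q : Fin J, ∑ D ∈ 𝒟E i₀ q, CE D * rr (a i₀) (b i₀) D) * ∏ i ∈ univ.erase i₀, G i) + J * (2 * (N ^ 2 / ℓ ^ (A + 3)))) := by
          apply sum_congr rfl; intro i₀ _
          rw [sum_add_distrib, sum_const, card_univ, Fintype.card_fin, nsmul_eq_mul, ← mul_sum, ← sum_mul]
      _ ≤ ∑ _i₀ : Fin 3, (δ * (M * ∏ i, G i) + J * (2 * (N ^ 2 / ℓ ^ (A + 3)))) := by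
          apply sum_le_sum; intro i₀ _
          apply add_le_add _ le_rfl
          have g1 := w9 i₀
          have g2 : 0 ≤ ∏ i ∈ univ.erase i₀, G i := prod_nonneg fun i _ => (hG0 i).le
          calc M * ((∑ q : Fin J, ∑ D ∈ 𝒟E i₀ q, CE D * rr (a i₀) (b i₀) D) * ∏ i ∈ univ.erase i₀, G i) ≤
                M * ((δ * G i₀) * ∏ i ∈ univ.erase i₀, G i) :=
                mul_le_mul_of_nonneg_left (mul_le_mul_of_nonneg_right g1 g2) hM0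
            _ = δ * (M * (G i₀ * ∏ i ∈ univ.erase i₀, G i)) := by ring
            _ = _ := by rw [mul_prod_erase univ G (mem_univ i₀)]
      _ = _ := by rw [sum_const, card_univ, Fintype.card_fin, nsmul_eq_mul]; push_cast; ring
  have he0 : 0 ≤ 2 * ((N : ℝ) ^ 2 / ℓ ^ (A + 3)) := by positivity
  have hfin := num_core M (∏ i, V i) (∏ i, G i) δ (SL Λ (pz y) c₁ c₂ m N a b) (TL Λ z c₁ c₂ m N a b 𝒟Y (fun _ => CY))
    (2 * (N ^ 2 / ℓ ^ (A + 3))) J hM0 hprodV hδ0 hδ3 he0 hprod1 hprod2 t1 s1 t3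
  refine hfin.trans (add_le_add le_rfl ?_)
  -- `J ≤ 2 log N`
  have hJℓ : (J : ℝ) ≤ 2 * ℓ := by
    have g1 : 2 ^ 2 ^ J ≤ N := by
      refine le_trans ?_ hJN
      exact Nat.le_self_pow (by positivity) _
    have g2 : ((2 ^ 2 ^ J : ℕ) : ℝ) ≤ N := by exact_mod_cast g1
    have g3 : Real.log ((2 ^ 2 ^ J : ℕ) : ℝ) ≤ ℓ := Real.log_le_log (by positivity) g2
    push_cast at g3
    rw [Real.log_pow] at g3
    have g4 : (1 : ℝ) / 2 ≤ Real.log 2 := by linarith [Real.log_two_gt_d9]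
    have g5 : (J : ℝ) ≤ 2 ^ J := by exact_mod_cast (Nat.lt_two_pow_self (n := J)).le
    push_cast at g3
    have g6 : (0 : ℝ) < 2 ^ J := by positivity
    nlinarith
  calc (1 + 3 * (J : ℝ)) * (2 * (N ^ 2 / ℓ ^ (A + 3))) ≤ (1 + 3 * (2 * ℓ)) * (2 * (N ^ 2 / ℓ ^ (A + 3))) := by
        apply mul_le_mul_of_nonneg_right _ he0
        linarith
    _ = ((2 + 12 * ℓ) / ℓ ^ 3) * (N ^ 2 / ℓ ^ A) := by
        rw [pow_add]; field_simp; ring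
    _ ≤ 1 * (N ^ 2 / ℓ ^ A) := by
        apply mul_le_mul_of_nonneg_right _ (by positivity)
        rw [div_le_one (by positivity)]
        have : 20 * 20 * ℓ ≤ ℓ ^ 3 := by nlinarith [mul_nonneg hℓ0.le hℓ0.le]
        linarith
    _ = _ := one_mul _

end Pool.Agent.H76.TB
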