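import Mathlib
import Pool.Agent.H76.TB.A17
import Pool.Agent.H76.VG.Model
import Pool.Agent.H76.PB.Pr

/-! From prime powers to primes, and the local factors at large primes. -/

set_option autoImplicit false

open Finset

namespace Pool.Agent.H76.TB

open Pool.Agent.H373R2.T7 (ev_log' ev_L' pz mem_pz Vz Vz_pos lamz)
open Pool.Agent.H76.VG (hh hh_nonneg hh_sum lp vm_split lp_nonneg vm_le)
open Pool.Agent.H76.PB (prod_diff)

variable {k : ℕ}

lemma nt_mem {c₁ c₂ m : ℤ} {N : ℕ} {t : ℕ × ℕ} (h : t ∈ TG c₁ c₂ m N) (i : Fin 3) : nt c₁ c₂ m i t ∈ Icc 1 N := by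
  have h3 := n3_mem h
  rw [mem_TG] at h
  fin_cases i
  · exact mem_Icc.2 h.1
  · exact mem_Icc.2 h.2.1
  · exact h3

lemma nt_cast {c₁ c₂ m : ℤ} {N : ℕ} {t : ℕ × ℕ} (h : t ∈ TG c₁ c₂ m N) (i : Fin 3) :
    ((nt c₁ c₂ m i t : ℕ) : ℤ) = nn c₁ c₂ m i (t.1 : ℤ) (t.2 : ℤ) := by
  have h3 := n3_cast h
  fin_cases i
  · rfl
  · rfl
  · exact h3

lemma sum_nt (c₁ c₂ m : ℤ) (hc₂ : c₂ ≠ 0) (N : ℕ) (g : ℕ → ℝ) (hg : ∀ n, 0 ≤ g n) (i : Fin 3) :
    ∑ t ∈ TG c₁ c₂ m N, g (nt c₁ c₂ m i t) ≤ N * ∑ n ∈ Icc 1 N, g n := by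
  classical
  have hN : ((Icc 1 N).card : ℝ) = N := by rw [Nat.card_Icc]; simp
  have e1 : ∑ s ∈ Icc 1 N ×ˢ Icc 1 N, g s.2 = N * ∑ n ∈ Icc 1 N, g n := by
    rw [sum_product]; simp only; rw [sum_const, nsmul_eq_mul, hN]
  have e2 : ∑ s ∈ Icc 1 N ×ˢ Icc 1 N, g s.1 = N * ∑ n ∈ Icc 1 N, g n := by
    rw [sum_product_right]; simp only; rw [sum_const, nsmul_eq_mul, hN]
  fin_cases i
  · rw [← e2]
    exact sum_le_sum_of_subset_of_nonneg (filter_subset _ _) (fun _ _ _ => hg _)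
  · rw [← e1]
    exact sum_le_sum_of_subset_of_nonneg (filter_subset _ _) (fun _ _ _ => hg _)
  · rw [← e1]
    have hinj : Set.InjOn (fun t : ℕ × ℕ => (t.1, n3 c₁ c₂ m t)) (TG c₁ c₂ m N : Finset (ℕ × ℕ)) := by
      intro t ht s hs h
      rw [mem_coe] at ht hs
      simp only [Prod.mk.injEq] at h
      have h1 := n3_cast ht
      have h2 := n3_cast hs
      rw [h.2, h2, h.1] at h1
      have h3 : c₂ * (t.2 : ℤ) = c₂ * s.2 := by linarith
      have h4 := mul_left_cancel₀ hc₂ h3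
      exact Prod.ext h.1 (by exact_mod_cast h4)
    have : ∑ t ∈ TG c₁ c₂ m N, g (n3 c₁ c₂ m t) = ∑ s ∈ (TG c₁ c₂ m N).image (fun t : ℕ × ℕ => (t.1, n3 c₁ c₂ m t)), g s.2 := by
      rw [sum_image hinj]
    show ∑ t ∈ TG c₁ c₂ m N, g (n3 c₁ c₂ m t) ≤ _
    rw [this]
    apply sum_le_sum_of_subset_of_nonneg _ (fun _ _ _ => hg _)
    intro s hs
    rw [mem_image] at hs
    obtain ⟨t, ht, rfl⟩ := hs
    rw [mem_product]
    exact ⟨mem_Icc.2 (mem_TG.1 ht).1, n3_mem ht⟩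

lemma SL_prime (P : Finset ℕ) (c₁ c₂ m : ℤ) (hc₂ : c₂ ≠ 0) (N : ℕ) (hN : 1 ≤ Real.log N) (a b : Fin 3 → Fin k → ℤ) :
    |SL (fun n => ArithmeticFunction.vonMangoldt n) P c₁ c₂ m N a b - SL lp P c₁ c₂ m N a b| ≤
      6 * (Real.log N ^ 4 * (N * √(N : ℝ))) := by
  have hN1 : 1 ≤ N := by
    by_contra h
    have : N = 0 := by omega
    rw [this] at hN
    simp at hN
    linarith
  have key : ∀ t ∈ TG c₁ c₂ m N, |∏ i, ((ArithmeticFunction.vonMangoldt (nt c₁ c₂ m i t) : ℝ) * RI (a i) (b i) P (nt c₁ c₂ m i t)) -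
      ∏ i, (lp (nt c₁ c₂ m i t) * RI (a i) (b i) P (nt c₁ c₂ m i t))| ≤ Real.log N ^ 3 * ∑ i : Fin 3, hh (nt c₁ c₂ m i t) := by
    intro t ht
    have hR0 : ∀ i : Fin 3, 0 ≤ RI (a i) (b i) P (nt c₁ c₂ m i t) := fun i => RI_nonneg _ _ _ _
    have hR1 : ∀ i : Fin 3, RI (a i) (b i) P (nt c₁ c₂ m i t) ≤ 1 := fun i => RI_le _ _ _ _
    obtain ⟨h1, h2⟩ := prod_diff (univ : Finset (Fin 3)) (fun i => (ArithmeticFunction.vonMangoldt (nt c₁ c₂ m i t) : ℝ) * RI (a i) (b i) P (nt c₁ c₂ m i t))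
      (fun i => lp (nt c₁ c₂ m i t) * RI (a i) (b i) P (nt c₁ c₂ m i t)) (Real.log N) hN
      (fun i _ => mul_nonneg (lp_nonneg _) (hR0 i))
      (fun i _ => by
        apply mul_le_mul_of_nonneg_right _ (hR0 i)
        rw [vm_split]; linarith [hh_nonneg (nt c₁ c₂ m i t)])
      (fun i _ => by
        have h3 := vm_le (nt_mem ht i)
        calc (ArithmeticFunction.vonMangoldt (nt c₁ c₂ m i t) : ℝ) * RI (a i) (b i) P (nt c₁ c₂ m i t) ≤ Real.log N * 1 :=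
              mul_le_mul h3 (hR1 i) (hR0 i) (by linarith)
          _ = _ := mul_one _)
    rw [abs_of_nonneg h1]
    refine h2.trans ?_
    rw [card_univ, Fintype.card_fin]
    apply mul_le_mul_of_nonneg_left _ (by positivity)
    apply sum_le_sum; intro i _
    rw [← sub_mul, vm_split]
    calc (lp (nt c₁ c₂ m i t) + hh (nt c₁ c₂ m i t) - lp (nt c₁ c₂ m i t)) * RI (a i) (b i) P (nt c₁ c₂ m i t) =
          hh (nt c₁ c₂ m i t) * RI (a i) (b i) P (nt c₁ c₂ m i t) := by ring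
      _ ≤ hh (nt c₁ c₂ m i t) * 1 := mul_le_mul_of_nonneg_left (hR1 i) (hh_nonneg _)
      _ = _ := mul_one _
  unfold SL
  rw [← sum_sub_distrib]
  calc _ ≤ ∑ t ∈ TG c₁ c₂ m N, Real.log N ^ 3 * ∑ i : Fin 3, hh (nt c₁ c₂ m i t) :=
        (abs_sum_le_sum_abs _ _).trans (sum_le_sum key)
    _ = Real.log N ^ 3 * ∑ i : Fin 3, ∑ t ∈ TG c₁ c₂ m N, hh (nt c₁ c₂ m i t) := by
        rw [← mul_sum, sum_comm]
    _ ≤ Real.log N ^ 3 * ∑ _i : Fin 3, (N * (2 * √(N : ℝ) * Real.log N)) := by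
        apply mul_le_mul_of_nonneg_left _ (by positivity)
        apply sum_le_sum; intro i _
        refine (sum_nt c₁ c₂ m hc₂ N hh hh_nonneg i).trans ?_
        exact mul_le_mul_of_nonneg_left (hh_sum N hN1) (Nat.cast_nonneg _)
    _ = _ := by rw [sum_const, card_univ, Fintype.card_fin, nsmul_eq_mul]; push_cast; ring

/-! ### local factors -/

lemma cnt_01 (p : ℕ) (P Q : ℤ → Prop) [DecidablePred P] [DecidablePred Q] :
    ((range p ×ˢ range p).filter (fun t => P (t.1 : ℤ) ∧ Q (t.2 : ℤ))).card =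
      ((range p).filter (fun n : ℕ => P (n : ℤ))).card * ((range p).filter (fun n : ℕ => Q (n : ℤ))).card := by
  rw [← card_product]
  congr 1
  ext t
  simp only [mem_filter, mem_product]
  tauto

lemma cnt_02 (p : ℕ) (hp : p.Prime) (c₁ c₂ m : ℤ) (hc : ¬ (p : ℤ) ∣ c₂) (P Q : ℤ → Prop) [DecidablePred P] [DecidablePred Q]
    (hQ : ∀ x y : ℤ, x ≡ y [ZMOD p] → (Q x ↔ Q y)) :
    ((range p ×ˢ range p).filter (fun t => P (t.1 : ℤ) ∧ Q (m - c₁ * t.1 - c₂ * t.2))).card =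
      ((range p).filter (fun n : ℕ => P (n : ℤ))).card * ((range p).filter (fun n : ℕ => Q (n : ℤ))).card := by
  rw [card_filter, sum_product]
  have h1 : ∀ x ∈ range p, (∑ y ∈ range p, if P (x : ℤ) ∧ Q (m - c₁ * x - c₂ * y) then 1 else 0) =
      if P (x : ℤ) then ((range p).filter (fun n : ℕ => Q (n : ℤ))).card else 0 := by
    intro x _
    by_cases h : P x
    · simp only [h, true_and, if_true]
      rw [← card_filter]; exact affine_count p hp c₂ (m - c₁ * x) hc Q hQ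
    · simp [h]
  rw [sum_congr rfl h1, ← sum_filter, sum_const, smul_eq_mul]

lemma cnt_12 (p : ℕ) (hp : p.Prime) (c₁ c₂ m : ℤ) (hc : ¬ (p : ℤ) ∣ c₁) (P Q : ℤ → Prop) [DecidablePred P] [DecidablePred Q]
    (hQ : ∀ x y : ℤ, x ≡ y [ZMOD p] → (Q x ↔ Q y)) :
    ((range p ×ˢ range p).filter (fun t => P (t.2 : ℤ) ∧ Q (m - c₁ * t.1 - c₂ * t.2))).card =
      ((range p).filter (fun n : ℕ => P (n : ℤ))).card * ((range p).filter (fun n : ℕ => Q (n : ℤ))).card := by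
  rw [card_filter, sum_product_right]
  have h1 : ∀ y ∈ range p, (∑ x ∈ range p, if P (y : ℤ) ∧ Q (m - c₁ * x - c₂ * y) then 1 else 0) =
      if P (y : ℤ) then ((range p).filter (fun n : ℕ => Q (n : ℤ))).card else 0 := by
    intro y _
    by_cases h : P y
    · simp only [h, true_and, if_true]
      rw [← card_filter]
      have := affine_count p hp c₁ (m - c₂ * y) hc Q hQ
      rw [← this]
      congr 1
      apply filter_congr
      intro x _
      have e : m - c₁ * (x : ℤ) - c₂ * y = m - c₂ * (y : ℤ) - c₁ * x := by ring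
      rw [e]
    · simp [h]
  rw [sum_congr rfl h1, ← sum_filter, sum_const, smul_eq_mul]

/-- the local factor -/
noncomputable def sg (c₁ c₂ m : ℤ) (a b : Fin 3 → Fin k → ℤ) (p : ℕ) : ℝ :=
  ((1 - 1 / (p : ℝ))⁻¹) ^ 3 * (1 - (nb c₁ c₂ m a b p : ℝ) / p ^ 2)

lemma M0_eq (c₁ c₂ m : ℤ) (N z : ℕ) (a b : Fin 3 → Fin k → ℤ) :
    M0 c₁ c₂ m N z a b = (TG c₁ c₂ m N).card * ∏ p ∈ pz z, sg c₁ c₂ m a b p := by
  unfold M0 sg Vz
  rw [prod_mul_distrib, prod_pow, prod_inv_distrib]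

/-- number of the bad residues of one variable -/
lemma kap (a b : Fin 3 → Fin k → ℤ) (p : ℕ) (hp : p.Prime) (i : Fin 3) (hb : ¬ (p : ℤ) ∣ ∏ j, b i j) :
    ((range p).filter (fun n : ℕ => BD a b p i (n : ℤ))).card = (RR (a i) (b i) p).card + 1 := by
  have e : (range p).filter (fun n : ℕ => BD a b p i (n : ℤ)) = insert 0 (RR (a i) (b i) p) := by
    ext n
    rw [mem_filter, mem_insert, RR, mem_filter, mem_range]
    unfold BD
    constructor
    · rintro ⟨h1, h2 | h2⟩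
      · left
        have h3 : p ∣ n := by exact_mod_cast h2
        exact Nat.eq_zero_of_dvd_of_lt h3 h1
      · exact Or.inr ⟨h1, h2⟩
    · rintro (h | h)
      · rw [h]; exact ⟨hp.pos, Or.inl (by simp)⟩
      · exact ⟨h.1, Or.inr h.2⟩
  rw [e, card_insert_of_notMem]
  intro h
  rw [RR, mem_filter] at h
  apply hb
  have := h.2
  unfold Fv at this
  simpa using this

lemma good_est (c₁ c₂ m : ℤ) (a b : Fin 3 → Fin k → ℤ) (p : ℕ) (hp : p.Prime) (h1 : ¬ (p : ℤ) ∣ c₁) (h2 : ¬ (p : ℤ) ∣ c₂) :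
    ∃ θ : ℝ, 0 ≤ θ ∧
      θ ≤ (((range p).filter (fun n : ℕ => BD a b p 1 (n : ℤ))).card : ℝ) * ((range p).filter (fun n : ℕ => BD a b p 2 (n : ℤ))).card ∧
      (p : ℝ) ^ 2 - nb c₁ c₂ m a b p = (p - ((range p).filter (fun n : ℕ => BD a b p 0 (n : ℤ))).card) *
        (p - ((range p).filter (fun n : ℕ => BD a b p 1 (n : ℤ))).card) -
        (p - ((range p).filter (fun n : ℕ => BD a b p 0 (n : ℤ))).card) * ((range p).filter (fun n : ℕ => BD a b p 2 (n : ℤ))).card + θ := by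
  classical
  set S := range p ×ˢ range p with hS
  have hcompl : ∀ i, (((range p).filter (fun n : ℕ => ¬ BD a b p i (n : ℤ))).card : ℝ) = p - ((range p).filter (fun n : ℕ => BD a b p i (n : ℤ))).card := by
    intro i
    have := card_filter_add_card_filter_not (s := range p) (fun n : ℕ => BD a b p i (n : ℤ))
    rw [card_range] at this
    have h3 : (((range p).filter (fun n : ℕ => BD a b p i (n : ℤ))).card : ℝ) + ((range p).filter (fun n : ℕ => ¬ BD a b p i (n : ℤ))).card = p := by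
      exact_mod_cast this
    linarith
  -- the pieces
  set G := (S.filter (fun t => ¬ bad c₁ c₂ m a b p (t.1 : ℤ) (t.2 : ℤ))).card with hG
  set A := (S.filter (fun t => ¬ BD a b p 0 (t.1 : ℤ) ∧ ¬ BD a b p 1 (t.2 : ℤ))).card with hA
  set Bb := (S.filter (fun t => ¬ BD a b p 0 (t.1 : ℤ) ∧ BD a b p 2 (m - c₁ * t.1 - c₂ * t.2))).card with hBb
  set E := (S.filter (fun t => BD a b p 1 (t.2 : ℤ) ∧ BD a b p 2 (m - c₁ * t.1 - c₂ * t.2))).card with hE
  set X := (S.filter (fun t => (¬ BD a b p 0 (t.1 : ℤ) ∧ ¬ BD a b p 1 (t.2 : ℤ)) ∧ BD a b p 2 (m - c₁ * t.1 - c₂ * t.2))).card with hX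
  set Y := (S.filter (fun t => (¬ BD a b p 0 (t.1 : ℤ) ∧ BD a b p 2 (m - c₁ * t.1 - c₂ * t.2)) ∧ BD a b p 1 (t.2 : ℤ))).card with hY
  have eA := cnt_01 p (fun x => ¬ BD a b p 0 x) (fun x => ¬ BD a b p 1 x)
  have eB := cnt_02 p hp c₁ c₂ m h2 (fun x => ¬ BD a b p 0 x) (BD a b p 2) (BD_congr a b p 2)
  have eE := cnt_12 p hp c₁ c₂ m h1 (BD a b p 1) (BD a b p 2) (BD_congr a b p 2)
  have g1 : A = G + X := by
    rw [hA, hG, hX]
    have := card_filter_add_card_filter_not (s := S.filter (fun t => ¬ BD a b p 0 (t.1 : ℤ) ∧ ¬ BD a b p 1 (t.2 : ℤ)))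
      (fun t => BD a b p 2 (m - c₁ * t.1 - c₂ * t.2))
    rw [filter_filter, filter_filter] at this
    have e : S.filter (fun t => ¬ bad c₁ c₂ m a b p (t.1 : ℤ) (t.2 : ℤ)) =
        S.filter (fun t => (¬ BD a b p 0 (t.1 : ℤ) ∧ ¬ BD a b p 1 (t.2 : ℤ)) ∧ ¬ BD a b p 2 (m - c₁ * t.1 - c₂ * t.2)) := by
      apply filter_congr
      intro t _
      unfold bad
      constructor
      · intro h
        exact ⟨⟨fun h' => h ⟨0, h'⟩, fun h' => h ⟨1, h'⟩⟩, fun h' => h ⟨2, h'⟩⟩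
      · rintro ⟨⟨g0, g1⟩, g2⟩ ⟨i, hi⟩
        fin_cases i
        · exact g0 hi
        · exact g1 hi
        · exact g2 hi
    rw [e]
    omega
  have g2 : Bb = X + Y := by
    rw [hBb, hX, hY]
    have := card_filter_add_card_filter_not (s := S.filter (fun t => ¬ BD a b p 0 (t.1 : ℤ) ∧ BD a b p 2 (m - c₁ * t.1 - c₂ * t.2)))
      (fun t => BD a b p 1 (t.2 : ℤ))
    rw [filter_filter, filter_filter] at this
    have e : S.filter (fun t => (¬ BD a b p 0 (t.1 : ℤ) ∧ ¬ BD a b p 1 (t.2 : ℤ)) ∧ BD a b p 2 (m - c₁ * t.1 - c₂ * t.2)) =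
        S.filter (fun t => (¬ BD a b p 0 (t.1 : ℤ) ∧ BD a b p 2 (m - c₁ * t.1 - c₂ * t.2)) ∧ ¬ BD a b p 1 (t.2 : ℤ)) := by
      apply filter_congr
      intro t _
      tauto
    rw [e]
    omega
  have g3 : Y ≤ E := by
    rw [hY, hE]
    apply card_le_card
    intro t ht
    rw [mem_filter] at ht ⊢
    exact ⟨ht.1, ht.2.2, ht.2.1.2⟩
  have g4 : (nb c₁ c₂ m a b p : ℝ) + G = p ^ 2 := by
    have := card_filter_add_card_filter_not (s := S) (fun t => bad c₁ c₂ m a b p (t.1 : ℤ) (t.2 : ℤ))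
    rw [hS, card_product, card_range, ← sq] at this
    unfold nb
    exact_mod_cast this
  refine ⟨Y, Nat.cast_nonneg _, ?_, ?_⟩
  · have h3 : (Y : ℝ) ≤ E := by exact_mod_cast g3
    refine h3.trans (le_of_eq ?_)
    have h4 : (E : ℝ) = (((range p).filter (fun n : ℕ => BD a b p 1 (n : ℤ))).card : ℝ) * ((range p).filter (fun n : ℕ => BD a b p 2 (n : ℤ))).card := by
      exact_mod_cast eE
    exact h4
  · have hA' : (A : ℝ) = (p - ((range p).filter (fun n : ℕ => BD a b p 0 (n : ℤ))).card) * (p - ((range p).filter (fun n : ℕ => BD a b p 1 (n : ℤ))).card) := by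
      rw [← hcompl 0, ← hcompl 1]
      exact_mod_cast eA
    have hB' : (Bb : ℝ) = (p - ((range p).filter (fun n : ℕ => BD a b p 0 (n : ℤ))).card) * ((range p).filter (fun n : ℕ => BD a b p 2 (n : ℤ))).card := by
      rw [← hcompl 0]
      exact_mod_cast eB
    have g1' : (A : ℝ) = G + X := by exact_mod_cast g1
    have g2' : (Bb : ℝ) = X + Y := by exact_mod_cast g2
    rw [← hA', ← hB']
    linarith

end Pool.Agent.H76.TB
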