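import Mathlib
import Pool.Agent.H76.TB.A18

/-! The fundamental lemma with the true local factors. -/

set_option autoImplicit false

open Finset

namespace Pool.Agent.H76.TB

open Pool.Agent.H373R2.T7 (ev_log' ev_L' pz mem_pz Vz Vz_pos lamz)
open Pool.Agent.H76.VG (hh hh_nonneg hh_sum lp vm_split lp_nonneg vm_le)

variable {k : ℕ}

lemma close_num (p K r0 r1 r2 θ g : ℝ) (hp : 2 * K + 2 ≤ p) (hK : 1 ≤ K) (h0 : 0 ≤ r0 ∧ r0 ≤ K) (h1 : 0 ≤ r1 ∧ r1 ≤ K)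
    (h2 : 0 ≤ r2 ∧ r2 ≤ K) (hθ0 : 0 ≤ θ) (hθ : θ ≤ (r1 + 1) * (r2 + 1))
    (hg : g = (p - (r0 + 1)) * (p - (r1 + 1)) - (p - (r0 + 1)) * (r2 + 1) + θ) :
    |((1 - 1 / p)⁻¹) ^ 3 * (g / p ^ 2) - (1 - r0 / p) * ((1 - r1 / p) * (1 - r2 / p))| ≤
      304 * K ^ 2 / p ^ 2 * ((1 - r0 / p) * ((1 - r1 / p) * (1 - r2 / p))) := by
  have hp4 : 4 ≤ p := by linarith
  have hp0 : 0 < p := by linarith
  have hp1 : 0 < p - 1 := by linarith
  have hne : p ≠ 0 := hp0.ne'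
  have hne1 : p - 1 ≠ 0 := hp1.ne'
  -- the factors
  have hw : ∀ r, 0 ≤ r ∧ r ≤ K → 1 / 2 ≤ 1 - r / p ∧ 1 - r / p ≤ 1 := by
    intro r hr
    have g1 : r / p ≤ 1 / 2 := by rw [div_le_iff₀ hp0]; linarith [hr.2]
    have g2 : 0 ≤ r / p := div_nonneg hr.1 hp0.le
    constructor <;> linarith
  have hv : ∀ r, 0 ≤ r ∧ r ≤ K → 0 ≤ 1 - r / (p - 1) ∧ 1 - r / (p - 1) ≤ 1 - r / p ∧ (1 - r / p) - (1 - r / (p - 1)) ≤ 2 * K / p ^ 2 := by
    intro r hr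
    have g1 : r / (p - 1) ≤ 1 := by rw [div_le_one hp1]; linarith [hr.2]
    have g2 : r / p ≤ r / (p - 1) := div_le_div_of_nonneg_left hr.1 hp1 (by linarith)
    have g3 : r / (p - 1) - r / p = r / (p * (p - 1)) := by field_simp; ring
    have g4 : r / (p * (p - 1)) ≤ 2 * K / p ^ 2 := by
      rw [div_le_div_iff₀ (by positivity) (by positivity)]
      have : r * p ^ 2 ≤ K * p ^ 2 := mul_le_mul_of_nonneg_right hr.2 (by positivity)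
      have h5 : K * p ^ 2 ≤ 2 * K * (p * (p - 1)) := by nlinarith [mul_nonneg (by linarith : (0 : ℝ) ≤ K) hp0.le]
      linarith
    refine ⟨by linarith, by linarith, by linarith⟩
  obtain ⟨w0, w0'⟩ := hw r0 h0
  obtain ⟨w1, w1'⟩ := hw r1 h1
  obtain ⟨w2, w2'⟩ := hw r2 h2
  obtain ⟨v0, v0', v0''⟩ := hv r0 h0
  obtain ⟨v1, v1', v1''⟩ := hv r1 h1
  obtain ⟨v2, v2', v2''⟩ := hv r2 h2
  set a0 := 1 - r0 / p with ha0
  set a1 := 1 - r1 / p with ha1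
  set a2 := 1 - r2 / p with ha2
  set b0 := 1 - r0 / (p - 1) with hb0
  set b1 := 1 - r1 / (p - 1) with hb1
  set b2 := 1 - r2 / (p - 1) with hb2
  have hlow : 1 / 8 ≤ a0 * (a1 * a2) := by
    have q1 : 1 / 2 * (1 / 2) ≤ a1 * a2 := mul_le_mul w1 w2 (by norm_num) (by linarith)
    have q2 : 1 / 2 * (1 / 2 * (1 / 2)) ≤ a0 * (a1 * a2) := mul_le_mul w0 q1 (by norm_num) (by linarith)
    linarith
  -- exact identity
  have e1 : ((1 - 1 / p)⁻¹) ^ 3 * (g / p ^ 2) = b0 * (b1 * b2) + (p * θ - (p - (r0 + 1)) * ((r1 + 1) * (r2 + 1))) / (p - 1) ^ 3 := by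
    rw [hg, hb0, hb1, hb2]
    have : (1 - 1 / p)⁻¹ = p / (p - 1) := by
      rw [inv_eq_one_div]
      field_simp
    rw [this]
    field_simp
    ring
  have hK1 : (r1 + 1) * (r2 + 1) ≤ (2 * K) * (2 * K) := mul_le_mul (by linarith [h1.2]) (by linarith [h2.2]) (by linarith [h2.1]) (by linarith)
  have hK0 : 0 ≤ (r1 + 1) * (r2 + 1) := mul_nonneg (by linarith [h1.1]) (by linarith [h2.1])
  have hnum : |p * θ - (p - (r0 + 1)) * ((r1 + 1) * (r2 + 1))| ≤ p * (4 * K ^ 2) := by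
    have q1 : p * θ ≤ p * ((r1 + 1) * (r2 + 1)) := mul_le_mul_of_nonneg_left hθ hp0.le
    have q2 : 0 ≤ p * θ := mul_nonneg hp0.le hθ0
    have q3 : 0 ≤ (p - (r0 + 1)) * ((r1 + 1) * (r2 + 1)) := mul_nonneg (by linarith [h0.2]) hK0
    have q4 : (p - (r0 + 1)) * ((r1 + 1) * (r2 + 1)) ≤ p * ((r1 + 1) * (r2 + 1)) :=
      mul_le_mul_of_nonneg_right (by linarith [h0.1]) hK0
    have q5 : p * ((r1 + 1) * (r2 + 1)) ≤ p * (4 * K ^ 2) := mul_le_mul_of_nonneg_left (by nlinarith) hp0.le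
    rw [abs_le]
    constructor <;> linarith
  have hfrac : |(p * θ - (p - (r0 + 1)) * ((r1 + 1) * (r2 + 1))) / (p - 1) ^ 3| ≤ 32 * K ^ 2 / p ^ 2 := by
    rw [abs_div, abs_of_pos (by positivity : 0 < (p - 1) ^ 3), div_le_div_iff₀ (by positivity) (by positivity)]
    have q1 : p ^ 3 ≤ 8 * (p - 1) ^ 3 := by
      have : p ≤ 2 * (p - 1) := by linarith
      calc p ^ 3 ≤ (2 * (p - 1)) ^ 3 := pow_le_pow_left₀ hp0.le this 3
        _ = _ := by ring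
    calc |p * θ - (p - (r0 + 1)) * ((r1 + 1) * (r2 + 1))| * p ^ 2 ≤ p * (4 * K ^ 2) * p ^ 2 := mul_le_mul_of_nonneg_right hnum (by positivity)
      _ = 4 * K ^ 2 * p ^ 3 := by ring
      _ ≤ 4 * K ^ 2 * (8 * (p - 1) ^ 3) := mul_le_mul_of_nonneg_left q1 (by positivity)
      _ = _ := by ring
  have hdiff : |b0 * (b1 * b2) - a0 * (a1 * a2)| ≤ 6 * K / p ^ 2 := by
    have hKp : 0 ≤ 2 * K / p ^ 2 := by positivity
    have q1 : b0 * (b1 * b2) ≤ a0 * (a1 * a2) :=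
      mul_le_mul v0' (mul_le_mul v1' v2' v2 (by linarith)) (mul_nonneg v1 v2) (by linarith)
    have q2 : a0 * (a1 * a2) - b0 * (b1 * b2) = (a0 - b0) * (a1 * a2) + b0 * ((a1 - b1) * a2) + b0 * (b1 * (a2 - b2)) := by ring
    have q3 : (a0 - b0) * (a1 * a2) ≤ 2 * K / p ^ 2 * 1 := by
      apply mul_le_mul v0'' _ (by positivity) hKp
      calc a1 * a2 ≤ 1 * 1 := mul_le_mul w1' w2' (by linarith) (by norm_num)
        _ = 1 := one_mul 1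
    have q4 : b0 * ((a1 - b1) * a2) ≤ 1 * (2 * K / p ^ 2 * 1) := by
      apply mul_le_mul (by linarith) _ (mul_nonneg (by linarith) (by linarith)) (by norm_num)
      exact mul_le_mul v1'' w2' (by linarith) hKp
    have q5 : b0 * (b1 * (a2 - b2)) ≤ 1 * (1 * (2 * K / p ^ 2)) := by
      apply mul_le_mul (by linarith) _ (mul_nonneg v1 (by linarith)) (by norm_num)
      exact mul_le_mul (by linarith) v2'' (by linarith) (by norm_num)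
    have q6 : 6 * K / p ^ 2 = 3 * (2 * K / p ^ 2) := by ring
    rw [abs_le]
    constructor
    · rw [q6]; linarith
    · rw [q6]; linarith
  rw [e1]
  calc |b0 * (b1 * b2) + (p * θ - (p - (r0 + 1)) * ((r1 + 1) * (r2 + 1))) / (p - 1) ^ 3 - a0 * (a1 * a2)| ≤
        |b0 * (b1 * b2) - a0 * (a1 * a2)| + |(p * θ - (p - (r0 + 1)) * ((r1 + 1) * (r2 + 1))) / (p - 1) ^ 3| := by
        refine le_trans (le_of_eq ?_) (abs_add_le _ _)
        congr 1; ring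
    _ ≤ 6 * K / p ^ 2 + 32 * K ^ 2 / p ^ 2 := add_le_add hdiff hfrac
    _ ≤ 38 * K ^ 2 / p ^ 2 := by
        rw [← add_div]
        apply div_le_div_of_nonneg_right _ (by positivity)
        nlinarith
    _ = 304 * K ^ 2 / p ^ 2 * (1 / 8) := by ring
    _ ≤ _ := mul_le_mul_of_nonneg_left hlow (by positivity)

lemma sg_close (c₁ c₂ m : ℤ) (a b : Fin 3 → Fin k → ℤ) (p : ℕ) (hp : p.Prime) (h1 : ¬ (p : ℤ) ∣ c₁) (h2 : ¬ (p : ℤ) ∣ c₂)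
    (hb : ∀ i, ¬ (p : ℤ) ∣ ∏ j, b i j) (hpk : 2 * 2 ^ k + 2 ≤ p) :
    |sg c₁ c₂ m a b p - ∏ i, (1 - ((RR (a i) (b i) p).card : ℝ) / p)| ≤
      304 * 4 ^ k / p ^ 2 * ∏ i, (1 - ((RR (a i) (b i) p).card : ℝ) / p) := by
  obtain ⟨θ, hθ0, hθ, hg⟩ := good_est c₁ c₂ m a b p hp h1 h2
  rw [kap a b p hp 1 (hb 1), kap a b p hp 2 (hb 2)] at hθ
  rw [kap a b p hp 0 (hb 0), kap a b p hp 1 (hb 1), kap a b p hp 2 (hb 2)] at hg
  push_cast at hθ hg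
  have hr : ∀ i, 0 ≤ ((RR (a i) (b i) p).card : ℝ) ∧ ((RR (a i) (b i) p).card : ℝ) ≤ 2 ^ k := fun i =>
    ⟨Nat.cast_nonneg _, RR_prime_le (a i) hp (hb i)⟩
  have hpk' : (2 : ℝ) * 2 ^ k + 2 ≤ p := by exact_mod_cast hpk
  have := close_num p (2 ^ k) _ _ _ θ _ hpk' (one_le_pow₀ (by norm_num)) (hr 0) (hr 1) (hr 2) hθ0 hθ hg
  have hp0 : (p : ℝ) ≠ 0 := by exact_mod_cast hp.ne_zero
  rw [Fin.prod_univ_three]
  unfold sg
  have e : 1 - (nb c₁ c₂ m a b p : ℝ) / p ^ 2 = ((p : ℝ) ^ 2 - nb c₁ c₂ m a b p) / p ^ 2 := by field_simp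
  rw [e]
  have e4 : ((2 : ℝ) ^ k) ^ 2 = 4 ^ k := by rw [← pow_mul, mul_comm, pow_mul]; norm_num
  rw [e4] at this
  rw [mul_assoc]
  exact this

lemma prod_close (P : Finset ℕ) (x y e : ℕ → ℝ) (hy : ∀ p ∈ P, 0 < y p) (h : ∀ p ∈ P, |x p - y p| ≤ e p * y p)
    (he0 : ∀ p ∈ P, 0 ≤ e p) (hs : ∑ p ∈ P, e p ≤ 1 / 2) :
    |∏ p ∈ P, x p - ∏ p ∈ P, y p| ≤ 2 * (∑ p ∈ P, e p) * ∏ p ∈ P, y p := by
  have hY : 0 ≤ ∏ p ∈ P, y p := prod_nonneg fun p hp => (hy p hp).le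
  have hs0 : 0 ≤ ∑ p ∈ P, e p := sum_nonneg he0
  have he1 : ∀ p ∈ P, e p ≤ 1 := by
    intro p hp
    have := single_le_sum he0 hp
    linarith
  have hx0 : ∀ p ∈ P, (1 - e p) * y p ≤ x p ∧ x p ≤ (1 + e p) * y p := by
    intro p hp
    have := abs_le.1 (h p hp)
    constructor <;> linarith [this.1, this.2]
  have hlow : (1 - ∑ p ∈ P, e p) * ∏ p ∈ P, y p ≤ ∏ p ∈ P, x p := by
    calc (1 - ∑ p ∈ P, e p) * ∏ p ∈ P, y p ≤ (∏ p ∈ P, (1 - e p)) * ∏ p ∈ P, y p :=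
          mul_le_mul_of_nonneg_right (one_sub_sum_le P e (fun p hp => ⟨he0 p hp, he1 p hp⟩)).1 hY
      _ = ∏ p ∈ P, ((1 - e p) * y p) := prod_mul_distrib.symm
      _ ≤ ∏ p ∈ P, x p := prod_le_prod (fun p hp => mul_nonneg (by linarith [he1 p hp]) (hy p hp).le) (fun p hp => (hx0 p hp).1)
  have hup : ∏ p ∈ P, x p ≤ (1 + 2 * ∑ p ∈ P, e p) * ∏ p ∈ P, y p := by
    calc ∏ p ∈ P, x p ≤ ∏ p ∈ P, (Real.exp (e p) * y p) := by
          apply prod_le_prod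
          · intro p hp
            exact le_trans (mul_nonneg (by linarith [he1 p hp]) (hy p hp).le) (hx0 p hp).1
          · intro p hp
            refine (hx0 p hp).2.trans (mul_le_mul_of_nonneg_right ?_ (hy p hp).le)
            have := Real.add_one_le_exp (e p)
            linarith
      _ = Real.exp (∑ p ∈ P, e p) * ∏ p ∈ P, y p := by rw [prod_mul_distrib, ← Real.exp_sum]
      _ ≤ _ := by
          apply mul_le_mul_of_nonneg_right _ hY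
          have h1 := Real.abs_exp_sub_one_sub_id_le (x := ∑ p ∈ P, e p) (by rw [abs_of_nonneg hs0]; linarith)
          have h2 := (abs_le.1 h1).2
          nlinarith
  rw [abs_le]
  constructor
  · nlinarith [mul_nonneg hs0 hY]
  · linarith

/-- the true main term -/
noncomputable def MT (c₁ c₂ m : ℤ) (N y : ℕ) (a b : Fin 3 → Fin k → ℤ) : ℝ :=
  (TG c₁ c₂ m N).card * ∏ p ∈ pz y, sg c₁ c₂ m a b p

lemma sg_nonneg (c₁ c₂ m : ℤ) (a b : Fin 3 → Fin k → ℤ) (p : ℕ) (hp : p.Prime) : 0 ≤ sg c₁ c₂ m a b p := by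
  unfold sg
  have hp0 : (0 : ℝ) < p := by exact_mod_cast hp.pos
  have h6 : (nb c₁ c₂ m a b p : ℝ) / p ^ 2 ≤ 1 := by
    rw [div_le_one (by positivity)]
    exact_mod_cast nb_sq c₁ c₂ m a b p
  have h7 : 1 / (p : ℝ) ≤ 1 := by rw [div_le_one hp0]; exact_mod_cast hp.one_lt.le
  exact mul_nonneg (pow_nonneg (inv_nonneg.2 (by linarith)) _) (by linarith)

lemma MT_nonneg (c₁ c₂ m : ℤ) (N y : ℕ) (a b : Fin 3 → Fin k → ℤ) : 0 ≤ MT c₁ c₂ m N y a b := by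
  unfold MT
  exact mul_nonneg (Nat.cast_nonneg _) (prod_nonneg fun p hp => sg_nonneg _ _ _ _ _ p (mem_pz.1 hp).2)

lemma pz_split (z y : ℕ) (hzy : z ≤ y) (f : ℕ → ℝ) : ∏ p ∈ pz y, f p = (∏ p ∈ pz z, f p) * ∏ p ∈ (Ioc z y).filter Nat.Prime, f p := by
  classical
  have hd : Disjoint (pz z) ((Ioc z y).filter Nat.Prime) := by
    rw [disjoint_left]
    intro p hp hp'
    rw [mem_pz] at hp
    rw [mem_filter, mem_Ioc] at hp'
    omega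
  rw [← prod_union hd]
  apply prod_congr _ fun _ _ => rfl
  ext p
  rw [mem_union, mem_pz, mem_pz, mem_filter, mem_Ioc]
  constructor
  · rintro ⟨h1, h2⟩
    rcases Nat.lt_or_ge z p with h | h
    · exact Or.inr ⟨⟨h, h1⟩, h2⟩
    · exact Or.inl ⟨h, h2⟩
  · rintro (⟨h1, h2⟩ | ⟨⟨h1, h1'⟩, h2⟩)
    · exact ⟨h1.trans hzy, h2⟩
    · exact ⟨h1', h2⟩

lemma MT_close (c₁ c₂ m : ℤ) (N z y : ℕ) (hzy : z ≤ y) (a b : Fin 3 → Fin k → ℤ)
    (hc1 : ∀ p : ℕ, z < p → ¬ (p : ℤ) ∣ c₁) (hc2 : ∀ p : ℕ, z < p → ¬ (p : ℤ) ∣ c₂)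
    (hb : ∀ i, ∀ p : ℕ, p.Prime → z < p → ¬ (p : ℤ) ∣ ∏ j, b i j) (hz : 608 * 4 ^ k ≤ z) :
    |MT c₁ c₂ m N y a b - M0 c₁ c₂ m N z a b * ∏ i, ∏ p ∈ (Ioc z y).filter Nat.Prime, (1 - ((RR (a i) (b i) p).card : ℝ) / p)| ≤
      608 * 4 ^ k / z * (M0 c₁ c₂ m N z a b * ∏ i, ∏ p ∈ (Ioc z y).filter Nat.Prime, (1 - ((RR (a i) (b i) p).card : ℝ) / p)) := by
  have h4 : 2 ^ k ≤ 4 ^ k := Nat.pow_le_pow_left (by norm_num) k
  have h1 : 1 ≤ 2 ^ k := Nat.one_le_two_pow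
  have hz0 : (0 : ℝ) < z := by
    have : 0 < z := by omega
    exact_mod_cast this
  set P := (Ioc z y).filter Nat.Prime with hP
  have hPm : ∀ p ∈ P, p.Prime ∧ z < p := by
    intro p hp
    rw [hP, mem_filter, mem_Ioc] at hp
    exact ⟨hp.2, hp.1.1⟩
  have e1 : MT c₁ c₂ m N y a b = M0 c₁ c₂ m N z a b * ∏ p ∈ P, sg c₁ c₂ m a b p := by
    unfold MT
    rw [pz_split z y hzy, M0_eq]; ring
  rw [e1, prod_comm, ← mul_sub, abs_mul, abs_of_nonneg (M0_nonneg _ _ _ _ _ _ _)]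
  have hM := M0_nonneg c₁ c₂ m N z a b
  have hyp : ∀ p ∈ P, 0 < ∏ i, (1 - ((RR (a i) (b i) p).card : ℝ) / p) := by
    intro p hp
    obtain ⟨g1, g2⟩ := hPm p hp
    apply prod_pos; intro i _
    have g3 := RR_prime_le (a i) g1 (hb i p g1 g2)
    have hp0 : (0 : ℝ) < p := by exact_mod_cast g1.pos
    have g4 : (2 : ℝ) ^ k < p := by
      have : 2 ^ k < p := by omega
      exact_mod_cast this
    rw [sub_pos, div_lt_one hp0]
    linarith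
  have hsum : ∑ p ∈ P, 304 * 4 ^ k / (p : ℝ) ^ 2 ≤ 304 * 4 ^ k / (z : ℝ) := by
    calc ∑ p ∈ P, 304 * 4 ^ k / (p : ℝ) ^ 2 ≤ ∑ p ∈ Ioc z y, 304 * 4 ^ k / (p : ℝ) ^ 2 :=
          sum_le_sum_of_subset_of_nonneg (filter_subset _ _) (fun _ _ _ => by positivity)
      _ = 304 * 4 ^ k * ∑ p ∈ Ioc z y, ((p : ℝ) ^ 2)⁻¹ := by
          rw [mul_sum]; apply sum_congr rfl; intro p _; rw [div_eq_mul_inv]
      _ ≤ 304 * 4 ^ k * (z : ℝ)⁻¹ := by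
          apply mul_le_mul_of_nonneg_left _ (by positivity)
          have h5 : (∑ i ∈ Ioc z y, ((i : ℝ) ^ 2)⁻¹) ≤ (z : ℝ)⁻¹ - (y : ℝ)⁻¹ := sum_Ioc_inv_sq_le_sub (by omega) hzy
          have h6 : 0 ≤ (y : ℝ)⁻¹ := by positivity
          linarith
      _ = _ := by rw [div_eq_mul_inv]
  have hz' : 304 * 4 ^ k / (z : ℝ) ≤ 1 / 2 := by
    rw [div_le_iff₀ hz0]
    have : ((608 * 4 ^ k : ℕ) : ℝ) ≤ z := by exact_mod_cast hz
    push_cast at this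
    linarith
  have := prod_close P (fun p => sg c₁ c₂ m a b p) (fun p => ∏ i, (1 - ((RR (a i) (b i) p).card : ℝ) / p))
    (fun p => 304 * 4 ^ k / (p : ℝ) ^ 2) hyp (fun p hp => by
      obtain ⟨g1, g2⟩ := hPm p hp
      exact sg_close c₁ c₂ m a b p g1 (hc1 p g2) (hc2 p g2) (fun i => hb i p g1 g2) (by omega))
    (fun p _ => by positivity) (hsum.trans hz')
  have hY : 0 ≤ ∏ p ∈ P, ∏ i, (1 - ((RR (a i) (b i) p).card : ℝ) / p) := prod_nonneg fun p hp => (hyp p hp).le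
  calc M0 c₁ c₂ m N z a b * |∏ p ∈ P, sg c₁ c₂ m a b p - ∏ p ∈ P, ∏ i, (1 - ((RR (a i) (b i) p).card : ℝ) / p)| ≤
        M0 c₁ c₂ m N z a b * (2 * (304 * 4 ^ k / z) * ∏ p ∈ P, ∏ i, (1 - ((RR (a i) (b i) p).card : ℝ) / p)) := by
        apply mul_le_mul_of_nonneg_left _ hM
        refine this.trans ?_
        apply mul_le_mul_of_nonneg_right _ hY
        exact mul_le_mul_of_nonneg_left hsum (by norm_num)
    _ = _ := by ring

theorem main_gen (k A : ℕ) (c₁ c₂ : ℤ) (hc₁ : c₁ ≠ 0) (hc₂ : c₂ ≠ 0) (hcop : IsCoprime c₁ c₂) : ∃ B N1 N0 : ℕ,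
    ∀ N : ℕ, N0 ≤ N → ∀ β J y : ℕ, N1 ≤ β → y ≤ 2 ^ 2 ^ J → (2 ^ 2 ^ J) ^ (32 * (4 * β + 6)) ≤ N → Real.log N ^ B ≤ y →
    ∀ (a b : Fin 3 → Fin k → ℤ), (∀ i, (∏ j, b i j) ≠ 0) → (∀ i, ((∏ j, b i j).natAbs : ℝ) ≤ Real.log N) → ∀ m : ℤ,
    |SL lp (pz y) c₁ c₂ m N a b - MT c₁ c₂ m N y a b| ≤
      (64 * (1 / 2) ^ β + 1 / Real.log N ^ A) * MT c₁ c₂ m N y a b + N ^ 2 / Real.log N ^ A := by
  obtain ⟨B₀, N1, hcore⟩ := core k (A + 1) c₁ c₂ hc₁ hc₂ hcop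
  set B : ℕ := B₀ + A + 2 with hB
  obtain ⟨m1, h1⟩ := hcore B (by omega)
  obtain ⟨m2, h2⟩ := ev_L' (1216 * 4 ^ k + 20 + |c₁| + |c₂|)
  obtain ⟨m3, h3⟩ := ev_log' (A + 5) 6
  refine ⟨B + 1, N1, max m1 (max m2 (max m3 2)), fun N hN β J y hβ hyJ hJN hy a b hb0 hbN m => ?_⟩
  have a1 := h1 N (le_trans (le_max_left _ _) hN)
  have hL := h2 N (le_trans (le_trans (le_max_left _ _) (le_max_right _ _)) hN)
  have a3 := h3 N (le_trans (le_trans (le_trans (le_max_left _ _) (le_max_right _ _)) (le_max_right _ _)) hN)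
  have hN2 : 2 ≤ N := le_trans (le_trans (le_trans (le_max_right _ _) (le_max_right _ _)) (le_max_right _ _)) hN
  have hNr : (2 : ℝ) ≤ N := by exact_mod_cast hN2
  have hN0 : (0 : ℝ) < N := by linarith
  push_cast at hL
  set ℓ := Real.log N with hℓ
  have p4 : (1 : ℝ) ≤ 4 ^ k := one_le_pow₀ (by norm_num)
  have ab1 : (0 : ℝ) ≤ |(c₁ : ℝ)| := abs_nonneg _
  have ab2 : (0 : ℝ) ≤ |(c₂ : ℝ)| := abs_nonneg _
  have hℓ20 : 20 ≤ ℓ := by linarith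
  have hℓ1 : 1 ≤ ℓ := by linarith
  have hℓ0 : 0 < ℓ := by linarith
  set z : ℕ := ⌈ℓ ^ B⌉₊ with hz
  have hz1 : ℓ ^ B ≤ z := Nat.le_ceil _
  have hz2 : (z : ℝ) ≤ ℓ ^ (B + 1) := by
    have h5 : (z : ℝ) < ℓ ^ B + 1 := Nat.ceil_lt_add_one (by positivity)
    have h6 : (1 : ℝ) ≤ ℓ ^ B := one_le_pow₀ hℓ1
    rw [pow_succ]
    nlinarith
  have hzy : z ≤ y := by
    have : (z : ℝ) ≤ y := hz2.trans hy
    exact_mod_cast this
  have hzℓ : ℓ ^ (A + 2) ≤ z := (pow_le_pow_right₀ hℓ1 (by omega)).trans hz1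
  have hzℓ1 : ℓ ≤ z := by
    refine le_trans ?_ hzℓ
    calc ℓ = ℓ ^ 1 := (pow_one ℓ).symm
      _ ≤ _ := pow_le_pow_right₀ hℓ1 (by omega)
  have hz0 : (0 : ℝ) < z := by linarith
  have hz608 : 608 * 4 ^ k ≤ z := by
    have : ((608 * 4 ^ k : ℕ) : ℝ) ≤ z := by push_cast; linarith
    exact_mod_cast this
  have hcz : ∀ c : ℤ, c ≠ 0 → |(c : ℝ)| ≤ z → ∀ p : ℕ, z < p → ¬ (p : ℤ) ∣ c := by
    intro c hc hcz p hp hd
    have h6 := Int.le_of_dvd (abs_pos.2 hc) ((dvd_abs _ _).2 hd)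
    have h7 : (|c| : ℝ) < p := by
      refine lt_of_le_of_lt hcz ?_
      exact_mod_cast hp
    have h8 : (p : ℝ) ≤ |(c : ℝ)| := by exact_mod_cast h6
    linarith
  have hbp : ∀ i, ∀ p : ℕ, p.Prime → z < p → ¬ (p : ℤ) ∣ ∏ j, b i j := by
    intro i p _ hp hd
    have h6 : p ≤ (∏ j, b i j).natAbs := Nat.le_of_dvd (Int.natAbs_pos.2 (hb0 i)) (Int.natCast_dvd.1 hd)
    have h7 : (p : ℝ) ≤ ℓ := le_trans (by exact_mod_cast h6) (hbN i)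
    have h8 : (z : ℝ) < p := by exact_mod_cast hp
    linarith
  have c1 := a1 z hz1 hz2 β J y hβ hyJ hJN hzy a b hb0 hbN m
  have c2 := MT_close c₁ c₂ m N z y hzy a b (hcz c₁ hc₁ (by linarith)) (hcz c₂ hc₂ (by linarith)) hbp hz608
  have c3 := SL_prime (pz y) c₁ c₂ m hc₂ N hℓ1 a b
  set X := M0 c₁ c₂ m N z a b * ∏ i, ∏ p ∈ (Ioc z y).filter Nat.Prime, (1 - ((RR (a i) (b i) p).card : ℝ) / p) with hX
  have hMT := MT_nonneg c₁ c₂ m N y a b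
  set T := MT c₁ c₂ m N y a b with hT
  set η : ℝ := 608 * 4 ^ k / z with hη
  have hη0 : 0 ≤ η := by positivity
  have hη1 : η ≤ (1 / 2) * (1 / ℓ ^ A) * (1 / 2) := by
    rw [hη, div_le_iff₀ hz0]
    calc 608 * 4 ^ k ≤ (1 / 2) * (1 / ℓ ^ A) * (1 / 2) * ℓ ^ (A + 2) := by
          rw [pow_add]
          have : (1 / 2) * (1 / ℓ ^ A) * (1 / 2) * (ℓ ^ A * ℓ ^ 2) = ℓ ^ 2 / 4 := by field_simp; ring
          rw [this]
          nlinarith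
      _ ≤ (1 / 2) * (1 / ℓ ^ A) * (1 / 2) * z := mul_le_mul_of_nonneg_left hzℓ (by positivity)
  have hℓA : 1 / ℓ ^ A ≤ 1 := by
    rw [div_le_one (by positivity)]; exact one_le_pow₀ hℓ1
  have hη2 : η ≤ 1 / 2 := by nlinarith
  have hX2 : X ≤ 2 * T := by
    have := (abs_le.1 c2).1
    have hX0 : 0 ≤ X ∨ X < 0 := le_or_gt 0 X
    rcases hX0 with h | h
    · nlinarith
    · linarith
  have hX0 : 0 ≤ X := by
    by_contra hneg
    push Not at hneg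
    have h6 := le_abs_self (T - X)
    have h7 : η * X ≤ 0 := mul_nonpos_of_nonneg_of_nonpos hη0 hneg.le
    linarith
  have f1 : |T - X| ≤ 2 * η * T := by
    refine c2.trans ?_
    nlinarith
  have hδ : (0 : ℝ) ≤ (1 / 2) ^ β := by positivity
  have f2 : 6 * (ℓ ^ 4 * (N * √(N : ℝ))) ≤ (1 / 2) * (N ^ 2 / ℓ ^ A) := by
    have hsN : √(N : ℝ) * √(N : ℝ) = N := Real.mul_self_sqrt hN0.le
    have hs0 : 0 ≤ √(N : ℝ) := Real.sqrt_nonneg _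
    calc 6 * (ℓ ^ 4 * (N * √(N : ℝ))) = (6 * ℓ ^ (A + 5)) * √(N : ℝ) * N / (ℓ * ℓ ^ A) := by
          rw [show A + 5 = A + 4 + 1 by ring, pow_succ, pow_add]; field_simp; ring
      _ ≤ √(N : ℝ) * √(N : ℝ) * N / (ℓ * ℓ ^ A) := by gcongr
      _ = (1 / ℓ) * (N ^ 2 / ℓ ^ A) := by rw [hsN]; field_simp
      _ ≤ _ := by
          apply mul_le_mul_of_nonneg_right _ (by positivity)
          rw [div_le_div_iff₀ hℓ0 (by norm_num)]; linarith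
  have f3 : (N : ℝ) ^ 2 / ℓ ^ (A + 1) ≤ (1 / 2) * (N ^ 2 / ℓ ^ A) := by
    rw [pow_succ]
    calc (N : ℝ) ^ 2 / (ℓ ^ A * ℓ) = (1 / ℓ) * (N ^ 2 / ℓ ^ A) := by field_simp
      _ ≤ _ := by
          apply mul_le_mul_of_nonneg_right _ (by positivity)
          rw [div_le_div_iff₀ hℓ0 (by norm_num)]; linarith
  have hA0 : 0 ≤ 1 / ℓ ^ A := by positivity
  have key : |SL lp (pz y) c₁ c₂ m N a b - T| ≤ 6 * (ℓ ^ 4 * (N * √(N : ℝ))) + (32 * (1 / 2) ^ β * X + N ^ 2 / ℓ ^ (A + 1)) + 2 * η * T := by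
    set S1 := SL (fun n => ArithmeticFunction.vonMangoldt n) (pz y) c₁ c₂ m N a b with hS1
    set S2 := SL lp (pz y) c₁ c₂ m N a b with hS2
    have g1 := abs_le.1 c3
    have g2 := abs_le.1 c1
    have g3 := abs_le.1 f1
    rw [abs_le]
    constructor <;> linarith [g1.1, g1.2, g2.1, g2.2, g3.1, g3.2]
  refine key.trans ?_
  have g4 : 32 * (1 / 2) ^ β * X ≤ 64 * (1 / 2) ^ β * T := by nlinarith
  have g5 : 2 * η * T ≤ 1 / ℓ ^ A * T := by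
    apply mul_le_mul_of_nonneg_right _ hMT
    linarith
  calc _ ≤ (1 / 2) * (N ^ 2 / ℓ ^ A) + (64 * (1 / 2) ^ β * T + (1 / 2) * (N ^ 2 / ℓ ^ A)) + 1 / ℓ ^ A * T := by linarith
    _ = _ := by ring

end Pool.Agent.H76.TB
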