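import Mathlib
import Pool.Agent.H76.TB.A19

/-! The lower bound for the main term. -/

set_option autoImplicit false

open Finset

namespace Pool.Agent.H76.TB

open Pool.Agent.H373R2.T7 (ev_log' ev_L' pz mem_pz Vz Vz_pos lamz)
open Pool.Agent.H76.VG (lp)
open Pool.Agent.Helper112.LP.Kbh (bh_inv_ge)

variable {k : ℕ}

lemma prod_low (k : ℕ) : ∃ c : ℝ, 0 < c ∧ ∀ N y : ℕ, 3 ≤ N → y ≤ N → ∀ (c₁ c₂ m : ℤ), IsCoprime c₁ c₂ → ∀ (a b : Fin 3 → Fin k → ℤ),
    (∀ p : ℕ, p.Prime → nb c₁ c₂ m a b p < p ^ 2) → c / Real.log N ^ (6 * (k + 1)) ≤ ∏ p ∈ pz y, sg c₁ c₂ m a b p := by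
  obtain ⟨C, hC⟩ := Pool.Agent.Helper256.KM.mertens_inv
  set K : ℕ := 3 * (k + 1) with hK
  set p0 : ℕ := 2 * K with hp0
  have hp00 : 0 < p0 := by omega
  have hp0r : (0 : ℝ) < p0 := by exact_mod_cast hp00
  have hbase : (1 : ℝ) / (p0 : ℝ) ^ 2 ≤ 1 := by
    rw [div_le_one (by positivity)]
    have : (1 : ℝ) ≤ p0 := by exact_mod_cast hp00
    exact one_le_pow₀ this
  refine ⟨(1 / (p0 : ℝ) ^ 2) ^ p0 * Real.exp (-(2 * K * C)), by positivity, fun N y hN hy c₁ c₂ m hcop a b hun => ?_⟩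
  have hNr : (3 : ℝ) ≤ N := by exact_mod_cast hN
  have hℓ0 : 1 < Real.log N := by
    rw [Real.lt_log_iff_exp_lt (by linarith)]
    exact lt_of_lt_of_le Real.exp_one_lt_d9 (by linarith)
  have hloc : ∀ p ∈ pz y, (if p ≤ p0 then (1 : ℝ) / (p0 : ℝ) ^ 2 else 1) * Real.exp (-(2 * (K * (1 / (p : ℝ))))) ≤ sg c₁ c₂ m a b p := by
    intro p hp
    have hpp := (mem_pz.1 hp).2
    have hp1 : (0 : ℝ) < p := by exact_mod_cast hpp.pos
    have h1p : 1 / (p : ℝ) ≤ 1 / 2 := by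
      apply div_le_div_of_nonneg_left (by norm_num) (by norm_num)
      exact_mod_cast hpp.two_le
    have h1p0 : 0 ≤ 1 / (p : ℝ) := by positivity
    have hinv : 1 ≤ ((1 - 1 / (p : ℝ))⁻¹) ^ 3 := by
      apply one_le_pow₀
      rw [one_le_inv₀ (by linarith)]
      linarith
    have hg0 : 0 ≤ 1 - (nb c₁ c₂ m a b p : ℝ) / p ^ 2 := by
      have : (nb c₁ c₂ m a b p : ℝ) / p ^ 2 ≤ 1 := by
        rw [div_le_one (by positivity)]
        exact_mod_cast nb_sq c₁ c₂ m a b p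
      linarith
    have hsg : 1 - (nb c₁ c₂ m a b p : ℝ) / p ^ 2 ≤ sg c₁ c₂ m a b p := by
      unfold sg
      exact le_mul_of_one_le_left hg0 hinv
    refine le_trans ?_ hsg
    split_ifs with h
    · have g1 : nb c₁ c₂ m a b p + 1 ≤ p ^ 2 := hun p hpp
      have g2 : (nb c₁ c₂ m a b p : ℝ) + 1 ≤ (p : ℝ) ^ 2 := by exact_mod_cast g1
      have g3 : 1 / (p : ℝ) ^ 2 ≤ 1 - (nb c₁ c₂ m a b p : ℝ) / p ^ 2 := by
        rw [le_sub_iff_add_le, ← add_div, div_le_one (by positivity)]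
        linarith
      refine le_trans ?_ g3
      calc (1 : ℝ) / (p0 : ℝ) ^ 2 * Real.exp (-(2 * (K * (1 / (p : ℝ))))) ≤ (1 : ℝ) / (p0 : ℝ) ^ 2 * 1 := by
            apply mul_le_mul_of_nonneg_left _ (by positivity)
            apply Real.exp_le_one_iff.2
            have : 0 ≤ 2 * ((K : ℝ) * (1 / (p : ℝ))) := by positivity
            linarith
        _ ≤ 1 / (p : ℝ) ^ 2 := by
            rw [mul_one]
            apply div_le_div_of_nonneg_left (by norm_num) (by positivity)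
            have : (p : ℝ) ≤ p0 := by exact_mod_cast h
            exact pow_le_pow_left₀ hp1.le this 2
    · rw [one_mul]
      have hpb : (p0 : ℝ) ≤ p := by
        have : p0 ≤ p := by omega
        exact_mod_cast this
      have hpb' : 2 * (K : ℝ) ≤ p := by
        rw [hp0] at hpb; push_cast at hpb; exact hpb
      have hx1 : (K : ℝ) * (1 / (p : ℝ)) ≤ 1 / 2 := by
        rw [mul_one_div, div_le_iff₀ hp1]; linarith
      refine (bh_inv_ge (by positivity) hx1).trans ?_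
      have g1 : nb c₁ c₂ m a b p ≤ 3 * (k + 1) * p := by
        apply nb_le c₁ c₂ m a b p hpp
        · rintro ⟨q1, q2⟩
          have h6 := hcop.isUnit_of_dvd' q1 q2
          rw [Int.isUnit_iff_natAbs_eq] at h6
          simp at h6
          exact hpp.one_lt.ne' h6
        · intro i j hij
          have := hun p hpp
          rw [nb_full c₁ c₂ m a b p i j hij] at this
          exact lt_irrefl _ this
      have g2 : (nb c₁ c₂ m a b p : ℝ) ≤ K * p := by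
        rw [hK]; exact_mod_cast g1
      have g3 : (nb c₁ c₂ m a b p : ℝ) / p ^ 2 ≤ K * (1 / (p : ℝ)) := by
        rw [div_le_iff₀ (by positivity)]
        refine g2.trans (le_of_eq ?_)
        field_simp
      linarith
  calc (1 / (p0 : ℝ) ^ 2) ^ p0 * Real.exp (-(2 * K * C)) / Real.log N ^ (6 * (k + 1)) =
        (1 / (p0 : ℝ) ^ 2) ^ p0 * Real.exp (-(2 * K * (Real.log (Real.log N) + C))) := by
        rw [show -(2 * (K : ℝ) * (Real.log (Real.log N) + C)) = -(2 * K * C) - ((6 * (k + 1) : ℕ) : ℝ) * Real.log (Real.log N) by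
          rw [hK]; push_cast; ring, Real.exp_sub, Real.exp_nat_mul, Real.exp_log (by linarith)]
        ring
    _ ≤ (1 / (p0 : ℝ) ^ 2) ^ p0 * Real.exp (-(2 * K * ∑ p ∈ pz y, 1 / (p : ℝ))) := by
        apply mul_le_mul_of_nonneg_left _ (by positivity)
        apply Real.exp_le_exp.2
        have h1 := (abs_le.1 (hC N hN)).2
        have h2 : ∑ p ∈ pz y, 1 / (p : ℝ) ≤ ∑ p ∈ (Icc 1 N).filter Nat.Prime, (1 : ℝ) / p := by
          apply sum_le_sum_of_subset_of_nonneg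
          · intro p hp
            rw [mem_pz] at hp
            rw [mem_filter, mem_Icc]
            exact ⟨⟨hp.2.one_lt.le, hp.1.trans hy⟩, hp.2⟩
          · intro p _ _; positivity
        have h3 : ∑ p ∈ pz y, 1 / (p : ℝ) ≤ Real.log (Real.log N) + C := by linarith
        have h4 : (0 : ℝ) ≤ 2 * K := by positivity
        have := mul_le_mul_of_nonneg_left h3 h4
        linarith
    _ ≤ (∏ p ∈ pz y, (if p ≤ p0 then (1 : ℝ) / (p0 : ℝ) ^ 2 else 1)) * Real.exp (-(2 * K * ∑ p ∈ pz y, 1 / (p : ℝ))) := by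
        apply mul_le_mul_of_nonneg_right _ (Real.exp_pos _).le
        rw [prod_ite, prod_const, prod_const_one, mul_one]
        apply pow_le_pow_of_le_one (by positivity) hbase
        calc ((pz y).filter (fun p => p ≤ p0)).card ≤ (Icc 1 p0).card := by
              apply card_le_card
              intro p hp
              rw [mem_filter, mem_pz] at hp
              rw [mem_Icc]
              exact ⟨hp.1.2.one_lt.le, hp.2⟩
          _ = p0 := by rw [Nat.card_Icc]; omega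
    _ = ∏ p ∈ pz y, ((if p ≤ p0 then (1 : ℝ) / (p0 : ℝ) ^ 2 else 1) * Real.exp (-(2 * (K * (1 / (p : ℝ)))))) := by
        rw [prod_mul_distrib, ← Real.exp_sum]
        congr 2
        rw [mul_sum, ← sum_neg_distrib]
        apply sum_congr rfl; intro p _
        ring
    _ ≤ _ := by
        apply prod_le_prod
        · intro p _
          split_ifs <;> positivity
        · exact hloc

theorem main_pos (k A : ℕ) (c₁ c₂ : ℤ) (hc₁ : c₁ ≠ 0) (hc₂ : c₂ ≠ 0) (hcop : IsCoprime c₁ c₂) : ∃ B N1 N0 : ℕ,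
    ∀ N : ℕ, N0 ≤ N → ∀ β J y : ℕ, N1 ≤ β → y ≤ 2 ^ 2 ^ J → (2 ^ 2 ^ J) ^ (32 * (4 * β + 6)) ≤ N → Real.log N ^ B ≤ y →
    ∀ (a b : Fin 3 → Fin k → ℤ), (∀ i, (∏ j, b i j) ≠ 0) → (∀ i, ((∏ j, b i j).natAbs : ℝ) ≤ Real.log N) → ∀ m : ℤ,
    ((N : ℝ) ^ 2 / 16 ≤ (TG c₁ c₂ m N).card) → (∀ p : ℕ, p.Prime → nb c₁ c₂ m a b p < p ^ 2) →
    |SL lp (pz y) c₁ c₂ m N a b - MT c₁ c₂ m N y a b| ≤ (64 * (1 / 2) ^ β + 1 / Real.log N ^ A) * MT c₁ c₂ m N y a b ∧
    N ^ 2 / Real.log N ^ (6 * (k + 1) + 1) ≤ MT c₁ c₂ m N y a b := by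
  obtain ⟨c, hc, hlow⟩ := prod_low k
  obtain ⟨B, N1, m1, h1⟩ := main_gen k (A + 6 * (k + 1) + 2) c₁ c₂ hc₁ hc₂ hcop
  obtain ⟨m2, h2⟩ := ev_L' (16 / c + 2)
  refine ⟨B, N1, max m1 (max m2 3), fun N hN β J y hβ hyJ hJN hy a b hb0 hbN m hTG hun => ?_⟩
  have a1 := h1 N (le_trans (le_max_left _ _) hN) β J y hβ hyJ hJN hy a b hb0 hbN m
  have hL := h2 N (le_trans (le_trans (le_max_left _ _) (le_max_right _ _)) hN)
  have hN3 : 3 ≤ N := le_trans (le_trans (le_max_right _ _) (le_max_right _ _)) hN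
  have hNr : (3 : ℝ) ≤ N := by exact_mod_cast hN3
  have hN0 : (0 : ℝ) < N := by linarith
  set ℓ := Real.log N with hℓ
  have hc16 : 0 < 16 / c := by positivity
  have hℓ2 : 2 ≤ ℓ := by linarith
  have hℓ1 : 1 ≤ ℓ := by linarith
  have hℓ0 : 0 < ℓ := by linarith
  have hyN : y ≤ N := by
    refine hyJ.trans (le_trans ?_ hJN)
    exact Nat.le_self_pow (by omega) _
  have a2 := hlow N y hN3 hyN c₁ c₂ m hcop a b hun
  have hMTlow : N ^ 2 / ℓ ^ (6 * (k + 1) + 1) ≤ MT c₁ c₂ m N y a b := by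
    unfold MT
    calc (N : ℝ) ^ 2 / ℓ ^ (6 * (k + 1) + 1) ≤ (N : ℝ) ^ 2 / 16 * (c / ℓ ^ (6 * (k + 1))) := by
          have g1 : 16 / c ≤ ℓ := by linarith
          have g2 : 16 ≤ ℓ * c := by rwa [div_le_iff₀ hc] at g1
          rw [pow_succ, div_mul_div_comm, div_le_div_iff₀ (by positivity) (by positivity)]
          calc (N : ℝ) ^ 2 * (16 * ℓ ^ (6 * (k + 1))) = 16 * (N ^ 2 * ℓ ^ (6 * (k + 1))) := by ring
            _ ≤ (ℓ * c) * (N ^ 2 * ℓ ^ (6 * (k + 1))) := mul_le_mul_of_nonneg_right g2 (by positivity)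
            _ = _ := by ring
      _ ≤ _ := mul_le_mul hTG a2 (by positivity) (Nat.cast_nonneg _)
  refine ⟨?_, hMTlow⟩
  have hMT := MT_nonneg c₁ c₂ m N y a b
  refine a1.trans ?_
  have g1 : (N : ℝ) ^ 2 / ℓ ^ (A + 6 * (k + 1) + 2) ≤ (1 / 2) * (1 / ℓ ^ A) * MT c₁ c₂ m N y a b := by
    calc (N : ℝ) ^ 2 / ℓ ^ (A + 6 * (k + 1) + 2) = (1 / ℓ) * (1 / ℓ ^ A) * (N ^ 2 / ℓ ^ (6 * (k + 1) + 1)) := by
          rw [show A + 6 * (k + 1) + 2 = A + (6 * (k + 1) + 1) + 1 by ring, pow_succ, pow_add]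
          field_simp
          ring
      _ ≤ (1 / 2) * (1 / ℓ ^ A) * MT c₁ c₂ m N y a b := by
          apply mul_le_mul _ hMTlow (by positivity) (by positivity)
          apply mul_le_mul_of_nonneg_right _ (by positivity)
          exact div_le_div_of_nonneg_left (by norm_num) (by norm_num) hℓ2
  have g2 : 1 / ℓ ^ (A + 6 * (k + 1) + 2) ≤ (1 / 2) * (1 / ℓ ^ A) := by
    calc 1 / ℓ ^ (A + 6 * (k + 1) + 2) ≤ 1 / ℓ ^ (A + 1) := by
          apply div_le_div_of_nonneg_left (by norm_num) (by positivity)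
          exact pow_le_pow_right₀ hℓ1 (by omega)
      _ = (1 / ℓ) * (1 / ℓ ^ A) := by rw [pow_succ]; field_simp
      _ ≤ _ := by
          apply mul_le_mul_of_nonneg_right _ (by positivity)
          exact div_le_div_of_nonneg_left (by norm_num) (by norm_num) hℓ2
  have g3 := mul_le_mul_of_nonneg_right g2 hMT
  nlinarith

/-- choice of the dyadic level -/
lemma dyad (y : ℕ) (hy : 2 ≤ y) : ∃ J : ℕ, y ≤ 2 ^ 2 ^ J ∧ 2 ^ 2 ^ J ≤ y ^ 2 := by
  have hex : ∃ J, y ≤ 2 ^ 2 ^ J := by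
    refine ⟨y, ?_⟩
    exact (Nat.lt_two_pow_self (n := y)).le.trans (Nat.pow_le_pow_right (by norm_num) (Nat.lt_two_pow_self (n := y)).le)
  classical
  refine ⟨Nat.find hex, Nat.find_spec hex, ?_⟩
  rcases Nat.eq_zero_or_pos (Nat.find hex) with h | h
  · rw [h]
    have : 2 ^ 2 ^ 0 = 2 := by norm_num
    rw [this]
    nlinarith
  · have h1 := Nat.find_min hex (m := Nat.find hex - 1) (by omega)
    push Not at h1
    have h2 : 2 ^ 2 ^ (Nat.find hex) = (2 ^ 2 ^ (Nat.find hex - 1)) ^ 2 := by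
      rw [← pow_mul, ← pow_succ]
      congr 2
      omega
    rw [h2]
    exact Nat.pow_le_pow_left h1.le 2

/-- the form with `y ^ (256 s) ≤ N` -/
theorem main_s (k A : ℕ) (c₁ c₂ : ℤ) (hc₁ : c₁ ≠ 0) (hc₂ : c₂ ≠ 0) (hcop : IsCoprime c₁ c₂) : ∃ B N0 : ℕ,
    ∀ N : ℕ, N0 ≤ N → ∀ s y : ℕ, B ≤ s → y ^ (256 * s) ≤ N → Real.log N ^ B ≤ y →
    ∀ (a b : Fin 3 → Fin k → ℤ), (∀ i, (∏ j, b i j) ≠ 0) → (∀ i, ((∏ j, b i j).natAbs : ℝ) ≤ Real.log N) → ∀ m : ℤ,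
    ((N : ℝ) ^ 2 / 16 ≤ (TG c₁ c₂ m N).card) → (∀ p : ℕ, p.Prime → nb c₁ c₂ m a b p < p ^ 2) →
    |SL lp (pz y) c₁ c₂ m N a b - MT c₁ c₂ m N y a b| ≤ (256 / 2 ^ s + 1 / Real.log N ^ A) * MT c₁ c₂ m N y a b ∧
    N ^ 2 / Real.log N ^ (6 * (k + 1) + 1) ≤ MT c₁ c₂ m N y a b := by
  obtain ⟨B, N1, m1, h1⟩ := main_pos k A c₁ c₂ hc₁ hc₂ hcop
  obtain ⟨m2, h2⟩ := ev_L' 2
  refine ⟨max (B + 1) (N1 + 2), max m1 m2, fun N hN s y hs hys hy a b hb0 hbN m hTG hun => ?_⟩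
  have hL := h2 N (le_trans (le_max_right _ _) hN)
  have hs1 : B + 1 ≤ s := (le_max_left _ _).trans hs
  have hs2 : N1 + 2 ≤ s := (le_max_right _ _).trans hs
  have hlog1 : 1 ≤ Real.log N := by linarith
  have hy' : Real.log N ^ B ≤ y := (pow_le_pow_right₀ hlog1 (by omega)).trans hy
  have hy2 : 2 ≤ y := by
    have : (2 : ℝ) ≤ y := by
      refine le_trans ?_ hy
      calc (2 : ℝ) ≤ Real.log N := hL
        _ = Real.log N ^ 1 := (pow_one _).symm
        _ ≤ _ := pow_le_pow_right₀ hlog1 (by omega)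
    exact_mod_cast this
  obtain ⟨J, hJ1, hJ2⟩ := dyad y hy2
  have hJN : (2 ^ 2 ^ J) ^ (32 * (4 * (s - 2) + 6)) ≤ N := by
    refine le_trans ?_ hys
    calc (2 ^ 2 ^ J) ^ (32 * (4 * (s - 2) + 6)) ≤ (y ^ 2) ^ (32 * (4 * (s - 2) + 6)) := Nat.pow_le_pow_left hJ2 _
      _ = y ^ (2 * (32 * (4 * (s - 2) + 6))) := by rw [← pow_mul]
      _ ≤ _ := Nat.pow_le_pow_right (by omega) (by omega)
  obtain ⟨g1, g2⟩ := h1 N (le_trans (le_max_left _ _) hN) (s - 2) J y (by omega) hJ1 hJN hy' a b hb0 hbN m hTG hun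
  refine ⟨?_, g2⟩
  have e : (64 : ℝ) * (1 / 2) ^ (s - 2) = 256 / 2 ^ s := by
    have : (2 : ℝ) ^ s = 2 ^ (s - 2) * 4 := by
      rw [show (4 : ℝ) = 2 ^ 2 by norm_num, ← pow_add]; congr 1; omega
    rw [this, one_div, inv_pow]
    field_simp
    norm_num
  rwa [e] at g1

end Pool.Agent.H76.TB
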