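import Mathlib
import Pool.Agent.H76.TB.A20

/-! Explicit form of the sums and of the local factors. -/

set_option autoImplicit false

open Finset

namespace Pool.Agent.H76.TB

open Pool.Agent.H373R2.T7 (ev_log' ev_L' pz mem_pz Vz Vz_pos lamz)

variable {k : ℕ}

/-- `p` divides neither `x` nor one of the values -/
def Free (a b : Fin 3 → Fin k → ℤ) (i : Fin 3) (p : ℕ) (x : ℤ) : Prop := ¬ (p : ℤ) ∣ x ∧ ∀ j, ¬ (p : ℤ) ∣ a i j * x + b i j

instance (a b : Fin 3 → Fin k → ℤ) (i : Fin 3) (p : ℕ) : DecidablePred (Free a b i p) := by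
  intro x; unfold Free; infer_instance

lemma free_iff (a b : Fin 3 → Fin k → ℤ) (i : Fin 3) (p : ℕ) (hp : p.Prime) (x : ℤ) : Free a b i p x ↔ ¬ BD a b p i x := by
  unfold Free BD Fv
  rw [Prime.dvd_finsetProd_iff (Nat.prime_iff_prime_int.1 hp)]
  constructor
  · rintro ⟨h1, h2⟩ (h | ⟨j, _, h⟩)
    · exact h1 h
    · exact h2 j h
  · intro h
    exact ⟨fun h' => h (Or.inl h'), fun j h' => h (Or.inr ⟨j, mem_univ _, h'⟩)⟩

/-- the number of the solutions of the congruence -/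
def loc3 (c₁ c₂ m : ℤ) (a b : Fin 3 → Fin k → ℤ) (p : ℕ) : ℕ :=
  ((range p ×ˢ range p).filter (fun t => Free a b 0 p (t.1 : ℤ) ∧ Free a b 1 p (t.2 : ℤ) ∧ Free a b 2 p (m - c₁ * t.1 - c₂ * t.2))).card

lemma nb_loc (c₁ c₂ m : ℤ) (a b : Fin 3 → Fin k → ℤ) (p : ℕ) (hp : p.Prime) : nb c₁ c₂ m a b p + loc3 c₁ c₂ m a b p = p ^ 2 := by
  have := card_filter_add_card_filter_not (s := range p ×ˢ range p) (fun t => bad c₁ c₂ m a b p (t.1 : ℤ) (t.2 : ℤ))
  rw [card_product, card_range, ← sq] at this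
  unfold nb loc3
  rw [← this]
  congr 2
  apply filter_congr
  intro t _
  rw [free_iff a b 0 p hp, free_iff a b 1 p hp, free_iff a b 2 p hp]
  unfold bad
  constructor
  · rintro ⟨g0, g1, g2⟩ ⟨i, hi⟩
    fin_cases i
    · exact g0 hi
    · exact g1 hi
    · exact g2 hi
  · intro h
    exact ⟨fun h' => h ⟨0, h'⟩, fun h' => h ⟨1, h'⟩, fun h' => h ⟨2, h'⟩⟩

lemma sg_loc (c₁ c₂ m : ℤ) (a b : Fin 3 → Fin k → ℤ) (p : ℕ) (hp : p.Prime) :
    sg c₁ c₂ m a b p = ((1 - 1 / (p : ℝ))⁻¹) ^ 3 * ((loc3 c₁ c₂ m a b p : ℝ) / p ^ 2) := by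
  unfold sg
  have hp0 : (p : ℝ) ≠ 0 := by exact_mod_cast hp.ne_zero
  have h1 : (nb c₁ c₂ m a b p : ℝ) + loc3 c₁ c₂ m a b p = p ^ 2 := by exact_mod_cast nb_loc c₁ c₂ m a b p hp
  congr 1
  rw [← h1]
  have h2 : (nb c₁ c₂ m a b p : ℝ) + loc3 c₁ c₂ m a b p ≠ 0 := by rw [h1]; positivity
  field_simp
  ring

/-- the solutions in primes -/
def Reps3 (c₁ c₂ m : ℤ) (N y : ℕ) (a b : Fin 3 → Fin k → ℤ) : Finset (Fin 3 → ℕ) :=
  (Fintype.piFinset fun _ : Fin 3 => range (N + 1)).filter (fun n => c₁ * n 0 + c₂ * n 1 + n 2 = m ∧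
    ∀ i, (n i).Prime ∧ ∀ q ∈ (range (y + 1)).filter Nat.Prime, ∀ j, ¬ (q : ℤ) ∣ a i j * n i + b i j)

lemma RI_eq_one (a b : Fin 3 → Fin k → ℤ) (i : Fin 3) (y n : ℕ) :
    RI (a i) (b i) (pz y) n = if (∀ q ∈ (range (y + 1)).filter Nat.Prime, ∀ j, ¬ (q : ℤ) ∣ a i j * n + b i j) then 1 else 0 := by
  unfold RI
  have hiff : (∀ p ∈ pz y, ¬ (p : ℤ) ∣ Fv (a i) (b i) (n : ℤ)) ↔
      (∀ q ∈ (range (y + 1)).filter Nat.Prime, ∀ j, ¬ (q : ℤ) ∣ a i j * n + b i j) := by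
    constructor
    · intro h q hq j hd
      rw [mem_filter, mem_range] at hq
      apply h q (mem_pz.2 ⟨by omega, hq.2⟩)
      unfold Fv
      exact hd.trans (dvd_prod_of_mem (fun j => a i j * (n : ℤ) + b i j) (mem_univ j))
    · intro h p hp hd
      rw [mem_pz] at hp
      unfold Fv at hd
      rw [Prime.dvd_finsetProd_iff (Nat.prime_iff_prime_int.1 hp.2)] at hd
      obtain ⟨j, _, hj⟩ := hd
      exact h p (mem_filter.2 ⟨mem_range.2 (by omega), hp.2⟩) j hj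
  by_cases h : ∀ p ∈ pz y, ¬ (p : ℤ) ∣ Fv (a i) (b i) (n : ℤ)
  · rw [if_pos h, if_pos (hiff.1 h)]
  · rw [if_neg h, if_neg (fun h' => h (hiff.2 h'))]

lemma SL_reps (c₁ c₂ m : ℤ) (N y : ℕ) (a b : Fin 3 → Fin k → ℤ) :
    SL Pool.Agent.H76.VG.lp (pz y) c₁ c₂ m N a b = ∑ n ∈ Reps3 c₁ c₂ m N y a b, ∏ i, Real.log (n i) := by
  unfold SL
  have e1 : ∀ t ∈ TG c₁ c₂ m N, ∏ i, (Pool.Agent.H76.VG.lp (nt c₁ c₂ m i t) * RI (a i) (b i) (pz y) (nt c₁ c₂ m i t)) =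
      if (∀ i, (nt c₁ c₂ m i t).Prime ∧ ∀ q ∈ (range (y + 1)).filter Nat.Prime, ∀ j, ¬ (q : ℤ) ∣ a i j * (nt c₁ c₂ m i t) + b i j)
        then ∏ i, Real.log (nt c₁ c₂ m i t) else 0 := by
    intro t _
    by_cases h : ∀ i, (nt c₁ c₂ m i t).Prime ∧ ∀ q ∈ (range (y + 1)).filter Nat.Prime, ∀ j, ¬ (q : ℤ) ∣ a i j * (nt c₁ c₂ m i t) + b i j
    · rw [if_pos h]
      apply prod_congr rfl; intro i _
      rw [RI_eq_one, if_pos (h i).2, mul_one]
      unfold Pool.Agent.H76.VG.lp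
      rw [if_pos (h i).1]
    · rw [if_neg h]
      push Not at h
      obtain ⟨i, hi⟩ := h
      apply prod_eq_zero (mem_univ i)
      by_cases hp : (nt c₁ c₂ m i t).Prime
      · obtain ⟨q, hq, j, hj⟩ := hi hp
        rw [RI_eq_one, if_neg, mul_zero]
        intro h'
        exact h' q hq j hj
      · unfold Pool.Agent.H76.VG.lp
        rw [if_neg hp, zero_mul]
  rw [sum_congr rfl e1, ← sum_filter]
  refine sum_bij' (fun t _ => fun i => nt c₁ c₂ m i t) (fun n _ => (n 0, n 1)) ?_ ?_ ?_ ?_ ?_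
  · intro t ht
    rw [mem_filter] at ht
    unfold Reps3
    rw [mem_filter, Fintype.mem_piFinset]
    refine ⟨fun i => ?_, ?_, ht.2⟩
    · have := mem_Icc.1 (nt_mem ht.1 i)
      rw [mem_range]; omega
    · have h0 := nt_cast ht.1 0
      have h1 := nt_cast ht.1 1
      have h2 := nt_cast ht.1 2
      rw [h0, h1, h2]
      show c₁ * (t.1 : ℤ) + c₂ * (t.2 : ℤ) + (m - c₁ * t.1 - c₂ * t.2) = m
      ring
  · intro n hn
    unfold Reps3 at hn
    rw [mem_filter, Fintype.mem_piFinset] at hn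
    obtain ⟨h1, h2, h3⟩ := hn
    have hle : ∀ i, 1 ≤ n i ∧ n i ≤ N := fun i => ⟨(h3 i).1.one_lt.le, by have := mem_range.1 (h1 i); omega⟩
    have hm : m - c₁ * (n 0 : ℤ) - c₂ * (n 1 : ℤ) = n 2 := by linarith
    have hn3 : n3 c₁ c₂ m (n 0, n 1) = n 2 := by
      unfold n3
      simp only
      rw [hm]; simp
    have hnt : ∀ i, nt c₁ c₂ m i (n 0, n 1) = n i := by
      intro i
      fin_cases i
      · rfl
      · rfl
      · exact hn3
    rw [mem_filter, mem_TG]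
    refine ⟨⟨hle 0, hle 1, ?_⟩, ?_⟩
    · simp only
      rw [hm]
      exact_mod_cast hle 2
    · intro i
      rw [hnt i]; exact h3 i
  · intro t _
    rfl
  · intro n hn
    unfold Reps3 at hn
    rw [mem_filter, Fintype.mem_piFinset] at hn
    obtain ⟨h1, h2, h3⟩ := hn
    funext i
    fin_cases i
    · rfl
    · rfl
    · show n3 c₁ c₂ m (n 0, n 1) = n 2
      unfold n3
      simp only
      have hm : m - c₁ * (n 0 : ℤ) - c₂ * (n 1 : ℤ) = n 2 := by linarith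
      rw [hm]; simp
  · intro t _
    rfl

/-- the number of the pairs for `x + y + w = N` -/
lemma TG_card (N : ℕ) (hN : 2 ≤ N) : ((TG 1 1 N N).card : ℝ) = ((N : ℝ) - 1) * (N - 2) / 2 := by
  have h1 : (TG 1 1 N N).card = ∑ x ∈ Icc 1 N, (N - 1 - x) := by
    rw [card_eq_sum_card_fiberwise (f := fun t : ℕ × ℕ => t.1) (t := Icc 1 N)]
    · apply sum_congr rfl
      intro x hx
      rw [mem_Icc] at hx
      have e : ((TG 1 1 (N : ℤ) N).filter (fun t => t.1 = x)).card = (Icc 1 (N - 1 - x)).card := by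
        refine card_nbij' (fun t => t.2) (fun y => (x, y)) ?_ ?_ ?_ ?_
        · rintro ⟨x', y⟩ ht
          simp only [coe_filter, Set.mem_ofPred_eq, mem_TG] at ht
          rw [mem_coe, mem_Icc]
          simp only at ht ⊢
          omega
        · intro y hy
          rw [mem_coe, mem_Icc] at hy
          simp only [coe_filter, Set.mem_ofPred_eq, mem_TG]
          have hy' : (y : ℤ) ≤ N - 1 - x := by omega
          refine ⟨⟨⟨hx.1, hx.2⟩, ⟨hy.1, by omega⟩, ?_, ?_⟩, trivial⟩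
          · linarith
          · have := hx.1
            push_cast
            have : (1 : ℤ) ≤ x := by exact_mod_cast hx.1
            linarith
        · rintro ⟨x', y⟩ ht
          simp only [coe_filter, Set.mem_ofPred_eq] at ht ⊢
          obtain ⟨_, rfl⟩ := ht
          rfl
        · intro y _; rfl
      rw [e, Nat.card_Icc]; omega
    · intro t ht
      rw [mem_coe, mem_TG] at ht
      exact mem_Icc.2 ht.1
  have h2 : ∀ M : ℕ, 2 ≤ M → ((∑ x ∈ Icc 1 M, (M - 1 - x) : ℕ) : ℝ) = ((M : ℝ) - 1) * (M - 2) / 2 := by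
    intro M hM
    have e : ∑ x ∈ Icc 1 M, (M - 1 - x) = ∑ x ∈ range (M - 1), x := by
      have e1 : ∑ x ∈ Icc 1 M, (M - 1 - x) = ∑ x ∈ Icc 1 (M - 1), (M - 1 - x) := by
        symm
        apply sum_subset
        · intro x hx
          rw [mem_Icc] at hx ⊢
          omega
        · intro x hx hx'
          rw [mem_Icc] at hx hx'
          omega
      rw [e1]
      refine sum_bij' (fun x _ => M - 1 - x) (fun x _ => M - 1 - x) ?_ ?_ ?_ ?_ ?_
      · intro x hx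
        rw [mem_Icc] at hx
        rw [mem_range]; omega
      · intro x hx
        rw [mem_range] at hx
        rw [mem_Icc]; omega
      · intro x hx
        rw [mem_Icc] at hx
        omega
      · intro x hx
        rw [mem_range] at hx
        omega
      · intro x _; rfl
    rw [e]
    have h3 := Finset.sum_range_id_mul_two (M - 1)
    have h4 : ((∑ x ∈ range (M - 1), x : ℕ) : ℝ) * 2 = ((M - 1 : ℕ) : ℝ) * ((M - 1 - 1 : ℕ) : ℝ) := by exact_mod_cast h3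
    have e5 : ((M - 1 : ℕ) : ℝ) = (M : ℝ) - 1 := by rw [Nat.cast_sub (by omega)]; simp
    have e6 : ((M - 1 - 1 : ℕ) : ℝ) = (M : ℝ) - 2 := by
      rw [Nat.sub_sub, Nat.cast_sub (by omega)]; norm_num
    rw [e5, e6] at h4
    linarith
  rw [h1]
  exact h2 N hN

/-- Vinogradov's theorem with rough values of linear forms -/
theorem vino (k A : ℕ) : ∃ B N0 : ℕ, ∀ N : ℕ, N0 ≤ N → ∀ s y : ℕ, B ≤ s → y ^ (256 * s) ≤ N → Real.log N ^ B ≤ y →
    ∀ (a b : Fin 3 → Fin k → ℤ), (∀ i j, b i j ≠ 0) → (∀ i, ((∏ j, b i j).natAbs : ℝ) ≤ Real.log N) →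
    (∀ p : ℕ, p.Prime → 0 < loc3 1 1 N a b p) →
    |∑ n ∈ Reps3 1 1 N N y a b, ∏ i, Real.log (n i) -
      (N : ℝ) ^ 2 / 2 * ∏ p ∈ (range (y + 1)).filter Nat.Prime, ((1 - 1 / (p : ℝ))⁻¹) ^ 3 * ((loc3 1 1 N a b p : ℝ) / p ^ 2)| ≤
      (256 / 2 ^ s + 1 / Real.log N ^ A) *
        ((N : ℝ) ^ 2 / 2 * ∏ p ∈ (range (y + 1)).filter Nat.Prime, ((1 - 1 / (p : ℝ))⁻¹) ^ 3 * ((loc3 1 1 N a b p : ℝ) / p ^ 2)) ∧
    (N : ℝ) ^ 2 / Real.log N ^ (6 * (k + 1) + 1) ≤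
      (N : ℝ) ^ 2 / 2 * ∏ p ∈ (range (y + 1)).filter Nat.Prime, ((1 - 1 / (p : ℝ))⁻¹) ^ 3 * ((loc3 1 1 N a b p : ℝ) / p ^ 2) := by
  obtain ⟨B, m1, h1⟩ := main_s k (A + 1) 1 1 one_ne_zero one_ne_zero isCoprime_one_left
  obtain ⟨m2, h2⟩ := ev_L' 4
  obtain ⟨m3, h3⟩ := ev_log' (A + 1) 12
  refine ⟨B + 9, max m1 (max m2 (max m3 16)), fun N hN s y hs hys hy a b hb hbN hloc => ?_⟩
  have hL := h2 N (le_trans (le_trans (le_max_left _ _) (le_max_right _ _)) hN)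
  have a3 := h3 N (le_trans (le_trans (le_trans (le_max_left _ _) (le_max_right _ _)) (le_max_right _ _)) hN)
  have hN16 : 16 ≤ N := le_trans (le_trans (le_trans (le_max_right _ _) (le_max_right _ _)) (le_max_right _ _)) hN
  have hNr : (16 : ℝ) ≤ N := by exact_mod_cast hN16
  have hN0 : (0 : ℝ) < N := by linarith
  have hcard := TG_card N (by omega)
  have hℓ1 : 1 ≤ Real.log N := by linarith
  obtain ⟨g1, g2⟩ := h1 N (le_trans (le_max_left _ _) hN) s y (by omega) hys ((pow_le_pow_right₀ hℓ1 (by omega)).trans hy) a b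
    (fun i => prod_ne_zero_iff.2 fun j _ => hb i j) hbN N (by rw [hcard]; nlinarith) (fun p hp => by
      have := nb_loc 1 1 N a b p hp
      have := hloc p hp
      omega)
  set ℓ := Real.log N with hℓ
  rw [SL_reps] at g1
  set S := ∑ n ∈ Reps3 1 1 N N y a b, ∏ i, Real.log (n i) with hS
  set Q := ∏ p ∈ (range (y + 1)).filter Nat.Prime, ((1 - 1 / (p : ℝ))⁻¹) ^ 3 * ((loc3 1 1 N a b p : ℝ) / p ^ 2) with hQ
  have hpz : pz y = (range (y + 1)).filter Nat.Prime := by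
    ext p
    rw [mem_pz, mem_filter, mem_range]
    constructor
    · rintro ⟨h1, h2⟩; exact ⟨by omega, h2⟩
    · rintro ⟨h1, h2⟩; exact ⟨by omega, h2⟩
  have hMT : MT 1 1 N N y a b = ((N : ℝ) - 1) * (N - 2) / 2 * Q := by
    unfold MT
    rw [hcard, hQ, hpz]
    congr 1
    apply prod_congr rfl; intro p hp
    exact sg_loc 1 1 N a b p (mem_filter.1 hp).2
  have hQ0 : 0 ≤ Q := by
    rw [hQ]
    apply prod_nonneg; intro p hp
    have hpp := (mem_filter.1 hp).2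
    have h7 : 1 / (p : ℝ) ≤ 1 := by
      rw [div_le_one (by exact_mod_cast hpp.pos)]; exact_mod_cast hpp.one_lt.le
    exact mul_nonneg (pow_nonneg (inv_nonneg.2 (by linarith)) _) (by positivity)
  rw [hMT] at g1 g2
  have hle : ((N : ℝ) - 1) * (N - 2) / 2 * Q ≤ (N : ℝ) ^ 2 / 2 * Q := mul_le_mul_of_nonneg_right (by nlinarith) hQ0
  refine ⟨?_, g2.trans hle⟩
  have hdiff : |((N : ℝ) - 1) * (N - 2) / 2 * Q - (N : ℝ) ^ 2 / 2 * Q| ≤ (3 / N) * ((N : ℝ) ^ 2 / 2 * Q) := by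
    rw [← sub_mul, abs_mul, abs_of_nonneg hQ0, ← mul_assoc]
    apply mul_le_mul_of_nonneg_right _ hQ0
    have e : 3 / (N : ℝ) * ((N : ℝ) ^ 2 / 2) = 3 * N / 2 := by field_simp
    rw [e, abs_le]
    constructor <;> nlinarith
  have hq0 : 0 ≤ (N : ℝ) ^ 2 / 2 * Q := mul_nonneg (by positivity) hQ0
  have hcoef : 0 ≤ 256 / 2 ^ s + 1 / ℓ ^ (A + 1) := by positivity
  have h3N : 3 / (N : ℝ) ≤ (1 / 4) * (1 / ℓ ^ A) := by
    have hs0 : √(N : ℝ) ≤ N := by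
      rw [Real.sqrt_le_left (by positivity)]; nlinarith
    have g5 : 12 * ℓ ^ (A + 1) ≤ N := a3.trans hs0
    have g6 : ℓ ^ A ≤ ℓ ^ (A + 1) := pow_le_pow_right₀ hℓ1 (by omega)
    have e : (1 / 4 : ℝ) * (1 / ℓ ^ A) = 1 / (4 * ℓ ^ A) := by field_simp
    rw [e, div_le_div_iff₀ hN0 (by positivity)]
    linarith
  have hA : 1 / ℓ ^ (A + 1) ≤ (1 / 4) * (1 / ℓ ^ A) := by
    have e : (1 / 4 : ℝ) * (1 / ℓ ^ A) = 1 / (ℓ ^ A * 4) := by field_simp
    rw [e, pow_succ]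
    apply div_le_div_of_nonneg_left (by norm_num) (by positivity)
    exact mul_le_mul_of_nonneg_left hL (by positivity)
  calc |S - (N : ℝ) ^ 2 / 2 * Q| ≤ |S - ((N : ℝ) - 1) * (N - 2) / 2 * Q| + |((N : ℝ) - 1) * (N - 2) / 2 * Q - (N : ℝ) ^ 2 / 2 * Q| := abs_sub_le _ _ _
    _ ≤ (256 / 2 ^ s + 1 / ℓ ^ (A + 1)) * (((N : ℝ) - 1) * (N - 2) / 2 * Q) + (3 / N) * ((N : ℝ) ^ 2 / 2 * Q) := add_le_add g1 hdiff
    _ ≤ (256 / 2 ^ s + 1 / ℓ ^ (A + 1)) * ((N : ℝ) ^ 2 / 2 * Q) + (3 / N) * ((N : ℝ) ^ 2 / 2 * Q) := by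
        apply add_le_add _ le_rfl
        exact mul_le_mul_of_nonneg_left hle hcoef
    _ = (256 / 2 ^ s + 1 / ℓ ^ (A + 1) + 3 / N) * ((N : ℝ) ^ 2 / 2 * Q) := by ring
    _ ≤ _ := by
        apply mul_le_mul_of_nonneg_right _ hq0
        have : 0 ≤ 1 / ℓ ^ A := by positivity
        linarith

end Pool.Agent.H76.TB
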