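import Mathlib
import Pool.Agent.H76.TB.A21

/-! The general equation, and almost primes. -/

set_option autoImplicit false

open Finset

namespace Pool.Agent.H76.TB

open Pool.Agent.H373R2.T7 (ev_log' ev_L' pz mem_pz Vz Vz_pos lamz)

variable {k : ℕ}

lemma MT_eq (c₁ c₂ m : ℤ) (N y : ℕ) (a b : Fin 3 → Fin k → ℤ) :
    MT c₁ c₂ m N y a b = (TG c₁ c₂ m N).card *
      ∏ p ∈ (range (y + 1)).filter Nat.Prime, ((1 - 1 / (p : ℝ))⁻¹) ^ 3 * ((loc3 c₁ c₂ m a b p : ℝ) / p ^ 2) := by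
  have hpz : pz y = (range (y + 1)).filter Nat.Prime := by
    ext p
    rw [mem_pz, mem_filter, mem_range]
    constructor
    · rintro ⟨h1, h2⟩; exact ⟨by omega, h2⟩
    · rintro ⟨h1, h2⟩; exact ⟨by omega, h2⟩
  unfold MT
  rw [hpz]
  congr 1
  apply prod_congr rfl; intro p hp
  exact sg_loc c₁ c₂ m a b p (mem_filter.1 hp).2

/-- The general ternary equation -/
theorem gen3 (k A : ℕ) (c₁ c₂ : ℤ) (hc₁ : c₁ ≠ 0) (hc₂ : c₂ ≠ 0) (hcop : IsCoprime c₁ c₂) : ∃ B N0 : ℕ, ∀ N : ℕ, N0 ≤ N →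
    ∀ s y : ℕ, B ≤ s → y ^ (256 * s) ≤ N → Real.log N ^ B ≤ y →
    ∀ (m : ℤ) (a b : Fin 3 → Fin k → ℤ), (∀ i j, b i j ≠ 0) → (∀ i, ((∏ j, b i j).natAbs : ℝ) ≤ Real.log N) →
    ((N : ℝ) ^ 2 / 16 ≤ (TG c₁ c₂ m N).card) →
    (∀ p : ℕ, p.Prime → 0 < loc3 c₁ c₂ m a b p) →
    |∑ n ∈ Reps3 c₁ c₂ m N y a b, ∏ i, Real.log (n i) - (TG c₁ c₂ m N).card *
      ∏ p ∈ (range (y + 1)).filter Nat.Prime, ((1 - 1 / (p : ℝ))⁻¹) ^ 3 * ((loc3 c₁ c₂ m a b p : ℝ) / p ^ 2)| ≤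
      (256 / 2 ^ s + 1 / Real.log N ^ A) * ((TG c₁ c₂ m N).card *
      ∏ p ∈ (range (y + 1)).filter Nat.Prime, ((1 - 1 / (p : ℝ))⁻¹) ^ 3 * ((loc3 c₁ c₂ m a b p : ℝ) / p ^ 2)) ∧
    (N : ℝ) ^ 2 / Real.log N ^ (6 * (k + 1) + 1) ≤ (TG c₁ c₂ m N).card *
      ∏ p ∈ (range (y + 1)).filter Nat.Prime, ((1 - 1 / (p : ℝ))⁻¹) ^ 3 * ((loc3 c₁ c₂ m a b p : ℝ) / p ^ 2) := by
  obtain ⟨B, m1, h1⟩ := main_s k A c₁ c₂ hc₁ hc₂ hcop
  refine ⟨B, m1, fun N hN s y hs hys hy m a b hb hbN hTG hloc => ?_⟩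
  obtain ⟨g1, g2⟩ := h1 N hN s y hs hys hy a b
    (fun i => prod_ne_zero_iff.2 fun j _ => hb i j) hbN m hTG (fun p hp => by
      have := nb_loc c₁ c₂ m a b p hp
      have := hloc p hp
      omega)
  rw [SL_reps] at g1
  rw [← MT_eq c₁ c₂ m N y a b]
  exact ⟨g1, g2⟩

/-- number with few prime factors, all large -/
lemma few (w : ℝ) (hw : 1 ≤ w) (L : ℕ) (n : ℕ) (hn : n ≠ 0) (hnL : (n : ℝ) < w ^ L) (h : ∀ q : ℕ, q.Prime → q ∣ n → w < q) :
    n.primeFactorsList.length ≤ L := by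
  by_contra hlt
  push Not at hlt
  have h1 : ∀ l : List ℕ, (∀ q ∈ l, w < (q : ℝ)) → w ^ l.length ≤ ((l.prod : ℕ) : ℝ) := by
    intro l
    induction l with
    | nil => intro _; simp
    | cons q l ih =>
      intro hl
      rw [List.length_cons, List.prod_cons, pow_succ, Nat.cast_mul, mul_comm]
      apply mul_le_mul (hl q (by simp)).le (ih fun q' hq' => hl q' (by simp [hq'])) (by positivity) (by positivity)
  have h2 := h1 n.primeFactorsList (fun q hq => h q (Nat.prime_of_mem_primeFactorsList hq) (Nat.dvd_of_mem_primeFactorsList hq))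
  rw [Nat.prod_primeFactorsList hn] at h2
  have h3 : w ^ L ≤ w ^ n.primeFactorsList.length := pow_le_pow_right₀ hw hlt.le
  linarith

/-- many solutions in primes with almost prime values -/
theorem almost3 (k : ℕ) (c₁ c₂ : ℤ) (hc₁ : c₁ ≠ 0) (hc₂ : c₂ ≠ 0) (hcop : IsCoprime c₁ c₂) : ∃ (r N0 : ℕ) (δ : ℝ), 0 < δ ∧ ∀ N : ℕ, N0 ≤ N →
    ∀ (m : ℤ) (a b : Fin 3 → Fin k → ℤ), (∀ i j, b i j ≠ 0) → (∀ i, ((∏ j, b i j).natAbs : ℝ) ≤ Real.log N) →
    (∀ i j, (a i j).natAbs ≤ N) →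
    ((N : ℝ) ^ 2 / 16 ≤ (TG c₁ c₂ m N).card) →
    (∀ p : ℕ, p.Prime → 0 < loc3 c₁ c₂ m a b p) →
    ∃ R : Finset (Fin 3 → ℕ), (∀ n ∈ R, (∀ i, 1 ≤ n i ∧ n i ≤ N) ∧ c₁ * n 0 + c₂ * n 1 + n 2 = m ∧ ∀ i, (n i).Prime ∧
      ∀ j, a i j * (n i : ℤ) + b i j ≠ 0 ∧ (a i j * (n i : ℤ) + b i j).natAbs.primeFactorsList.length ≤ r ∧
        ∀ q ∈ (a i j * (n i : ℤ) + b i j).natAbs.primeFactorsList, (N : ℝ) ^ δ < q) ∧
      (N : ℝ) ^ 2 / Real.log N ^ (6 * k + 11) ≤ R.card := by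
  classical
  obtain ⟨B, m1, h1⟩ := gen3 k 2 c₁ c₂ hc₁ hc₂ hcop
  set s : ℕ := max B 10 with hs
  obtain ⟨m2, h2⟩ := ev_L' 4
  obtain ⟨m3, h3⟩ := ev_log' (B * (256 * s) * 2 + 512 * s * 2) 1
  have hs1 : B ≤ s := le_max_left _ _
  have hs2 : 10 ≤ s := le_max_right _ _
  have hs0 : (0 : ℝ) < 256 * s := by positivity
  refine ⟨768 * s, max m1 (max m2 (max m3 16)), 1 / (256 * s), by positivity, fun N hN m a b hb hbN ha hTG hloc => ?_⟩
  have hL := h2 N (le_trans (le_trans (le_max_left _ _) (le_max_right _ _)) hN)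
  have a3 := h3 N (le_trans (le_trans (le_trans (le_max_left _ _) (le_max_right _ _)) (le_max_right _ _)) hN)
  have hN16 : 16 ≤ N := le_trans (le_trans (le_trans (le_max_right _ _) (le_max_right _ _)) (le_max_right _ _)) hN
  have hNr : (16 : ℝ) ≤ N := by exact_mod_cast hN16
  have hN0 : (0 : ℝ) < N := by linarith
  set w : ℝ := (N : ℝ) ^ (1 / (256 * (s : ℝ))) with hw
  set y : ℕ := ⌊w⌋₊ with hy
  have hw0 : 0 < w := Real.rpow_pos_of_pos hN0 _
  have hwp : w ^ (256 * s) = N := by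
    rw [hw, ← Real.rpow_natCast, ← Real.rpow_mul hN0.le]
    push_cast
    rw [one_div, inv_mul_cancel₀ hs0.ne', Real.rpow_one]
  have hw1 : 1 ≤ w := Real.one_le_rpow (by linarith) (by positivity)
  have hys : y ^ (256 * s) ≤ N := by
    have : ((y ^ (256 * s) : ℕ) : ℝ) ≤ N := by
      push_cast
      calc (y : ℝ) ^ (256 * s) ≤ w ^ (256 * s) := pow_le_pow_left₀ (by positivity) (Nat.floor_le hw0.le) _
        _ = N := hwp
    exact_mod_cast this
  set ℓ := Real.log N with hℓ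
  have hℓ1 : 1 ≤ ℓ := by linarith
  have hyl : ℓ ^ B ≤ y := by
    have h5 : ℓ ^ (B + 1) ≤ w := by
      have h6 : (ℓ ^ (B + 1)) ^ (256 * s) ≤ w ^ (256 * s) := by
        rw [hwp, ← pow_mul]
        have h7 : ℓ ^ ((B + 1) * (256 * s)) ≤ ℓ ^ (B * (256 * s) * 2 + 512 * s * 2) := pow_le_pow_right₀ hℓ1 (by nlinarith)
        have hs0 : √(N : ℝ) ≤ N := by
          rw [Real.sqrt_le_left (by positivity)]; nlinarith
        linarith
      by_contra hlt
      push Not at hlt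
      exact absurd h6 (not_le.2 (pow_lt_pow_left₀ hlt hw0.le (by positivity)))
    have h6 : w < y + 1 := Nat.lt_floor_add_one w
    have h7 : ℓ ^ B + 1 ≤ ℓ ^ (B + 1) := by
      rw [pow_succ]
      have : 1 ≤ ℓ ^ B := one_le_pow₀ hℓ1
      nlinarith
    linarith
  have hy2 : 2 ≤ y := by
    by_contra hlt
    have : y ≤ 1 := by omega
    have h6 : w < y + 1 := Nat.lt_floor_add_one w
    have h7 : (y : ℝ) ≤ 1 := by exact_mod_cast this
    have h5 : ℓ ≤ w := by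
      have h6 : ℓ ^ (256 * s) ≤ w ^ (256 * s) := by
        rw [hwp]
        have h7 : ℓ ^ (256 * s) ≤ ℓ ^ (B * (256 * s) * 2 + 512 * s * 2) := pow_le_pow_right₀ hℓ1 (by nlinarith)
        have hs0 : √(N : ℝ) ≤ N := by
          rw [Real.sqrt_le_left (by positivity)]; nlinarith
        linarith
      by_contra hlt
      push Not at hlt
      exact absurd h6 (not_le.2 (pow_lt_pow_left₀ hlt hw0.le (by positivity)))
    linarith
  obtain ⟨g1, g2⟩ := h1 N (le_trans (le_max_left _ _) hN) s y hs1 hys hyl m a b hb hbN hTG hloc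
  set M := ((TG c₁ c₂ m N).card : ℝ) *
      ∏ p ∈ (range (y + 1)).filter Nat.Prime, ((1 - 1 / (p : ℝ))⁻¹) ^ 3 * ((loc3 c₁ c₂ m a b p : ℝ) / p ^ 2) with hM
  set S := ∑ n ∈ Reps3 c₁ c₂ m N y a b, ∏ i, Real.log (n i) with hS
  have hM0 : 0 ≤ M := le_trans (by positivity) g2
  have hc : (256 : ℝ) / 2 ^ s + 1 / ℓ ^ 2 ≤ 1 / 2 := by
    have h5 : (256 : ℝ) / 2 ^ s ≤ 1 / 4 := by
      rw [div_le_div_iff₀ (by positivity) (by norm_num)]
      have : (2 : ℝ) ^ 10 ≤ 2 ^ s := pow_le_pow_right₀ (by norm_num) hs2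
      nlinarith
    have h6 : 1 / ℓ ^ 2 ≤ 1 / 4 := by
      apply div_le_div_of_nonneg_left (by norm_num) (by norm_num)
      nlinarith
    linarith
  have hSM : M / 2 ≤ S := by
    have := (abs_le.1 g1).1
    have h7 : (256 / 2 ^ s + 1 / ℓ ^ 2) * M ≤ 1 / 2 * M := mul_le_mul_of_nonneg_right hc hM0
    linarith
  have hSc : S ≤ (Reps3 c₁ c₂ m N y a b).card * ℓ ^ 3 := by
    rw [hS, ← nsmul_eq_mul]
    apply sum_le_card_nsmul
    intro n hn
    unfold Reps3 at hn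
    rw [mem_filter, Fintype.mem_piFinset] at hn
    calc ∏ i, Real.log (n i) ≤ ∏ _i : Fin 3, ℓ := by
          apply prod_le_prod
          · intro i _
            exact Real.log_natCast_nonneg _
          · intro i _
            apply Real.log_le_log
            · exact_mod_cast (hn.2.2 i).1.pos
            · have := mem_range.1 (hn.1 i)
              exact_mod_cast Nat.lt_succ_iff.1 this
      _ = ℓ ^ 3 := by simp
  refine ⟨Reps3 c₁ c₂ m N y a b, fun n hn => ?_, ?_⟩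
  · unfold Reps3 at hn
    rw [mem_filter, Fintype.mem_piFinset] at hn
    obtain ⟨b1, b2, b3⟩ := hn
    refine ⟨fun i => ⟨(b3 i).1.one_lt.le, by have := mem_range.1 (b1 i); omega⟩, b2, fun i => ⟨(b3 i).1, fun j => ?_⟩⟩
    set v := a i j * (n i : ℤ) + b i j with hv
    have hv0 : v ≠ 0 := by
      intro h0
      apply (b3 i).2 2 (mem_filter.2 ⟨mem_range.2 (by omega), Nat.prime_two⟩) j
      rw [← hv, h0]; exact dvd_zero _
    have hq : ∀ q : ℕ, q.Prime → q ∣ v.natAbs → w < q := by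
      intro q hq hqv
      have h6 : w < y + 1 := Nat.lt_floor_add_one w
      by_contra hlt
      have h7 : ¬ (y + 1 ≤ q) := by
        intro h8
        have : (y : ℝ) + 1 ≤ q := by exact_mod_cast h8
        linarith
      apply (b3 i).2 q (mem_filter.2 ⟨mem_range.2 (by omega), hq⟩) j
      rw [← hv]
      exact Int.natCast_dvd.2 hqv
    have hni : n i ≤ N := by have := mem_range.1 (b1 i); omega
    have hvN : (v.natAbs : ℝ) < w ^ (768 * s) := by
      have e : w ^ (768 * s) = (N : ℝ) ^ 3 := by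
        rw [show 768 * s = 256 * s * 3 by ring, pow_mul, hwp]
      rw [e]
      have h5 : (v.natAbs : ℝ) ≤ N * N + N := by
        have c1 : v.natAbs ≤ (a i j).natAbs * n i + (b i j).natAbs := by
          rw [hv]
          refine (Int.natAbs_add_le _ _).trans ?_
          rw [Int.natAbs_mul, Int.natAbs_natCast]
        have c2 : (b i j).natAbs ≤ (∏ j, b i j).natAbs := by
          apply Nat.le_of_dvd
          · exact Int.natAbs_pos.2 (prod_ne_zero_iff.2 fun j _ => hb i j)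
          · exact Int.natAbs_dvd_natAbs.2 (dvd_prod_of_mem (fun j => b i j) (mem_univ j))
        have c3 : ((∏ j, b i j).natAbs : ℝ) ≤ N := (hbN i).trans ((Real.log_le_sub_one_of_pos hN0).trans (by linarith))
        have c4 : (∏ j, b i j).natAbs ≤ N := by exact_mod_cast c3
        have c5 : v.natAbs ≤ N * N + N := c1.trans (Nat.add_le_add (Nat.mul_le_mul (ha i j) hni) (c2.trans c4))
        exact_mod_cast c5
      have h6 : (N : ℝ) * N + N < N ^ 3 := by nlinarith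
      linarith
    refine ⟨hv0, few w hw1 _ _ (Int.natAbs_ne_zero.2 hv0) hvN hq, fun q hqm => ?_⟩
    exact hq q (Nat.prime_of_mem_primeFactorsList hqm) (Nat.dvd_of_mem_primeFactorsList hqm)
  · have h5 : (N : ℝ) ^ 2 / ℓ ^ (6 * (k + 1) + 1) ≤ 2 * ((Reps3 c₁ c₂ m N y a b).card * ℓ ^ 3) := by linarith
    rw [div_le_iff₀ (by positivity)] at h5 ⊢
    calc (N : ℝ) ^ 2 ≤ 2 * ((Reps3 c₁ c₂ m N y a b).card * ℓ ^ 3) * ℓ ^ (6 * (k + 1) + 1) := h5
      _ = (Reps3 c₁ c₂ m N y a b).card * (2 * ℓ ^ (6 * k + 10)) := by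
          rw [show 6 * (k + 1) + 1 = (6 * k + 7) by ring, show 6 * k + 10 = 3 + (6 * k + 7) by ring, pow_add]; ring
      _ ≤ (Reps3 c₁ c₂ m N y a b).card * ℓ ^ (6 * k + 11) := by
          apply mul_le_mul_of_nonneg_left _ (by positivity)
          rw [show 6 * k + 11 = (6 * k + 10) + 1 by ring, pow_succ, mul_comm]
          apply mul_le_mul_of_nonneg_left (by linarith) (by positivity)

end Pool.Agent.H76.TB
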