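import Mathlib
import Pool.Agent.H76.TB.A22

/-! Local solubility for the shapes of the prime triplets. -/

set_option autoImplicit false

open Finset

namespace Pool.Agent.H76.TB

variable {k : ℕ}

lemma Free_congr (a b : Fin 3 → Fin k → ℤ) (i : Fin 3) (p : ℕ) {x x' : ℤ} (h : (p : ℤ) ∣ x - x') (hx : Free a b i p x') : Free a b i p x := by
  obtain ⟨h1, h2⟩ := hx
  refine ⟨fun hd => h1 ?_, fun j hd => h2 j ?_⟩
  · have := dvd_sub hd h
    rwa [sub_sub_cancel] at this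
  · have := dvd_sub hd (h.mul_left (a i j))
    have e : a i j * x + b i j - a i j * (x - x') = a i j * x' + b i j := by ring
    rwa [e] at this

lemma loc_pos (N : ℕ) (a b : Fin 3 → Fin k → ℤ) (p : ℕ)
    (h : ∃ x ∈ range p, ∃ y ∈ range p, Free a b 0 p (x : ℤ) ∧ Free a b 1 p (y : ℤ) ∧ Free a b 2 p (((N % p : ℕ) : ℤ) - x - y)) :
    0 < loc3 1 1 N a b p := by
  obtain ⟨x, hx, y, hy, h0, h1, h2⟩ := h
  unfold loc3
  rw [card_pos]
  refine ⟨(x, y), mem_filter.2 ⟨mem_product.2 ⟨hx, hy⟩, h0, h1, ?_⟩⟩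
  apply Free_congr a b 2 p _ h2
  show (p : ℤ) ∣ (N : ℤ) - 1 * x - 1 * y - (((N % p : ℕ) : ℤ) - x - y)
  have e : (N : ℤ) - 1 * x - 1 * y - (((N % p : ℕ) : ℤ) - x - y) = N - ((N % p : ℕ) : ℤ) := by ring
  rw [e]
  have := Nat.div_add_mod N p
  refine ⟨((N / p : ℕ) : ℤ), ?_⟩
  have h3 : ((p * (N / p) + N % p : ℕ) : ℤ) = N := by rw [this]
  push_cast at h3 ⊢
  linarith

/-- coefficients `1` -/
def one3 : Fin 3 → Fin 2 → ℤ := fun _ _ => 1

/-- the shift vector: `t i = true` for the shape `(p, p+2, p+6)`, `false` for `(p, p+4, p+6)` -/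
def shp (t : Fin 3 → Bool) : Fin 3 → Fin 2 → ℤ := fun i j => if j = 0 then (if t i then 2 else 4) else 6

lemma loc_big (N : ℕ) (t : Fin 3 → Bool) (p : ℕ) (hp : p.Prime) (hp11 : 11 ≤ p) : 0 < loc3 1 1 N one3 (shp t) p := by
  have h1 := nb_loc 1 1 N one3 (shp t) p hp
  have h2 := nb_le 1 1 N one3 (shp t) p hp
    (fun h => by
      have h3 : (p : ℤ) ∣ 1 := h.1
      exact hp.one_lt.ne' (Nat.dvd_one.1 (by exact_mod_cast h3))) (fun i j h => by
      have h3 : (p : ℤ) ∣ 1 := h.1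
      exact hp.one_lt.ne' (Nat.dvd_one.1 (by exact_mod_cast h3)))
  have h3 : 3 * (2 + 1) * p < p ^ 2 := by nlinarith
  omega

lemma loc_7 (N : ℕ) (t : Fin 3 → Bool) : 0 < loc3 1 1 N one3 (shp t) 7 := by
  apply loc_pos
  have h : ∀ ρ ∈ range 7, ∀ t0 t1 t2 : Bool, ∃ x ∈ range 7, ∃ y ∈ range 7, Free one3 (shp ![t0, t1, t2]) 0 7 (x : ℤ) ∧
    Free one3 (shp ![t0, t1, t2]) 1 7 (y : ℤ) ∧ Free one3 (shp ![t0, t1, t2]) 2 7 ((ρ : ℤ) - x - y) := by decide +kernel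
  have := h (N % 7) (mem_range.2 (Nat.mod_lt _ (by norm_num))) (t 0) (t 1) (t 2)
  have e : ![t 0, t 1, t 2] = t := by
    funext i; fin_cases i <;> rfl
  rw [e] at this
  exact this

lemma loc_2 (N : ℕ) (t : Fin 3 → Bool) (hN : N % 2 = 1) : 0 < loc3 1 1 N one3 (shp t) 2 := by
  apply loc_pos
  have h : ∀ t0 t1 t2 : Bool, ∃ x ∈ range 2, ∃ y ∈ range 2, Free one3 (shp ![t0, t1, t2]) 0 2 (x : ℤ) ∧
    Free one3 (shp ![t0, t1, t2]) 1 2 (y : ℤ) ∧ Free one3 (shp ![t0, t1, t2]) 2 2 (((1 : ℕ) : ℤ) - x - y) := by decide +kernel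
  have := h (t 0) (t 1) (t 2)
  have e : ![t 0, t 1, t 2] = t := by
    funext i; fin_cases i <;> rfl
  rw [e] at this
  rw [hN]
  exact this

/-- the choice of the shapes -/
lemma choose_shape (N : ℕ) (hN : N % 2 = 1) (h4 : N % 15 ≠ 4) (h8 : N % 15 ≠ 8) : ∃ t : Fin 3 → Bool, ∀ p : ℕ, p.Prime → 0 < loc3 1 1 N one3 (shp t) p := by
  have h : ∀ ρ ∈ range 15, ρ ≠ 4 → ρ ≠ 8 → ∃ t0 t1 t2 : Bool,
      (∃ x ∈ range 3, ∃ y ∈ range 3, Free one3 (shp ![t0, t1, t2]) 0 3 (x : ℤ) ∧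
        Free one3 (shp ![t0, t1, t2]) 1 3 (y : ℤ) ∧ Free one3 (shp ![t0, t1, t2]) 2 3 (((ρ % 3 : ℕ) : ℤ) - x - y)) ∧
      (∃ x ∈ range 5, ∃ y ∈ range 5, Free one3 (shp ![t0, t1, t2]) 0 5 (x : ℤ) ∧
        Free one3 (shp ![t0, t1, t2]) 1 5 (y : ℤ) ∧ Free one3 (shp ![t0, t1, t2]) 2 5 (((ρ % 5 : ℕ) : ℤ) - x - y)) := by
    decide +kernel
  obtain ⟨t0, t1, t2, g3, g5⟩ := h (N % 15) (mem_range.2 (Nat.mod_lt _ (by norm_num))) h4 h8
  rw [Nat.mod_mod_of_dvd N (by norm_num : 3 ∣ 15)] at g3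
  rw [Nat.mod_mod_of_dvd N (by norm_num : 5 ∣ 15)] at g5
  refine ⟨![t0, t1, t2], fun p hp => ?_⟩
  by_cases h11 : 11 ≤ p
  · exact loc_big N _ p hp h11
  · push Not at h11
    interval_cases p
    · exact absurd hp (by norm_num)
    · exact absurd hp (by norm_num)
    · exact loc_2 N _ hN
    · exact loc_pos N _ _ 3 g3
    · exact absurd hp (by norm_num)
    · exact loc_pos N _ _ 5 g5
    · exact absurd hp (by norm_num)
    · exact loc_7 N _
    · exact absurd hp (by norm_num)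
    · exact absurd hp (by norm_num)
    · exact absurd hp (by norm_num)

/-- the page's set -/
lemma sharp (x y z : ℕ) (h5x : 5 < x) (h5y : 5 < y) (h5z : 5 < z)
    (hx : x.Prime ∧ (x + 6).Prime ∧ ((x + 2).Prime ∨ (x + 4).Prime))
    (hy : y.Prime ∧ (y + 6).Prime ∧ ((y + 2).Prime ∨ (y + 4).Prime))
    (hz : z.Prime ∧ (z + 6).Prime ∧ ((z + 2).Prime ∨ (z + 4).Prime)) :
    (x + y + z) % 2 = 1 ∧ (x + y + z) % 15 ≠ 4 ∧ (x + y + z) % 15 ≠ 8 := by
  have key : ∀ n : ℕ, 5 < n → n.Prime → n % 2 = 1 ∧ n % 3 ≠ 0 ∧ n % 5 ≠ 0 := by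
    intro n hn hp
    refine ⟨?_, ?_, ?_⟩
    · rcases hp.eq_two_or_odd with h | h
      · omega
      · exact h
    · intro h
      have := (Nat.prime_dvd_prime_iff_eq Nat.prime_three hp).1 (Nat.dvd_of_mod_eq_zero h)
      omega
    · intro h
      have := (Nat.prime_dvd_prime_iff_eq Nat.prime_five hp).1 (Nat.dvd_of_mod_eq_zero h)
      omega
  have cls : ∀ n : ℕ, 5 < n → (n.Prime ∧ (n + 6).Prime ∧ ((n + 2).Prime ∨ (n + 4).Prime)) →
      n % 2 = 1 ∧ (n % 15 = 2 ∨ n % 15 = 11 ∨ n % 15 = 7 ∨ n % 15 = 13) := by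
    intro n hn h
    have a1 := key n hn h.1
    have a2 := key (n + 6) (by omega) h.2.1
    refine ⟨a1.1, ?_⟩
    have r15 : n % 15 < 15 := Nat.mod_lt _ (by norm_num)
    have e3 : n % 3 = n % 15 % 3 := by omega
    have e5 : n % 5 = n % 15 % 5 := by omega
    have f3 : (n + 6) % 3 = (n % 15 + 6) % 3 := by omega
    have f5 : (n + 6) % 5 = (n % 15 + 6) % 5 := by omega
    have g3 : (n + 2) % 3 = (n % 15 + 2) % 3 := by omega
    have g5 : (n + 2) % 5 = (n % 15 + 2) % 5 := by omega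
    have i3 : (n + 4) % 3 = (n % 15 + 4) % 3 := by omega
    have i5 : (n + 4) % 5 = (n % 15 + 4) % 5 := by omega
    rcases h.2.2 with h3 | h3
    · have a3 := key (n + 2) (by omega) h3
      rw [e3, e5] at a1
      rw [f3, f5] at a2
      rw [g3, g5] at a3
      generalize n % 15 = r at a1 a2 a3 r15 ⊢
      interval_cases r <;> omega
    · have a3 := key (n + 4) (by omega) h3
      rw [e3, e5] at a1
      rw [f3, f5] at a2
      rw [i3, i5] at a3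
      generalize n % 15 = r at a1 a2 a3 r15 ⊢
      interval_cases r <;> omega
  have c1 := cls x h5x hx
  have c2 := cls y h5y hy
  have c3 := cls z h5z hz
  omega

end Pool.Agent.H76.TB
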