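import Mathlib
import Pool.Agent.H76.TB.A20

/-! Model sums in one variable. -/

set_option autoImplicit false

open Finset

namespace Pool.Agent.H76.TB

open Pool.Agent.H373R2.T7 (ev_log' ev_L' pz mem_pz Vz Vz_pos lamz lamz_nonneg Vz_inv_small es es_le es_nonneg sum_pz_le choice
  sieve_gen' card_small card_pz_le count_sys)

variable {k : ℕ}

/-- the combined conditions -/
def AB (AD bd : ℕ → ℕ → Prop) (z p x : ℕ) : Prop := (p ≤ z ∧ bd p x) ∨ (z < p ∧ AD p x)

instance (AD bd : ℕ → ℕ → Prop) [∀ p x, Decidable (AD p x)] [∀ p x, Decidable (bd p x)] (z p x : ℕ) : Decidable (AB AD bd z p x) := by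
  unfold AB; infer_instance

theorem cnt_abs (X z r : ℕ) (Q : Finset ℕ) (hQ : ∀ p ∈ Q, p.Prime ∧ z < p) (AD bd : ℕ → ℕ → Prop)
    [∀ p x, Decidable (AD p x)] [∀ p x, Decidable (bd p x)] (hz : 1 ≤ z) :
    |((((Icc 1 X).filter (fun n => ∀ p ∈ Q, AD p (n % p))).filter (fun n => ∀ p ∈ pz z, ¬ bd p (n % p))).card : ℝ) -
      (X * ∏ p ∈ Q, ((((range p).filter (fun a => AD p a)).card : ℝ) / p)) * ∏ p ∈ pz z, (1 - (((range p).filter (fun a => bd p a)).card : ℝ) / p)| ≤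
      ((z : ℝ) + 1) ^ r * ((z : ℝ) ^ r * ∏ p ∈ Q, (((range p).filter (fun a => AD p a)).card : ℝ)) +
        2 * (X * ∏ p ∈ Q, ((((range p).filter (fun a => AD p a)).card : ℝ) / p)) *
          es (fun p => (((range p).filter (fun a => bd p a)).card : ℝ) / p) (pz z) r := by
  classical
  have hz1 : (1 : ℝ) ≤ z := by exact_mod_cast hz
  set s := (Icc 1 X).filter (fun n => ∀ p ∈ Q, AD p (n % p)) with hs
  have hbd : ∀ p : ℕ, ((range p).filter (fun a => bd p a)).card ≤ p := fun p => by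
    have := card_filter_le (range p) (fun a => bd p a)
    rwa [card_range] at this
  have hX0 : (0 : ℝ) ≤ X * ∏ p ∈ Q, ((((range p).filter (fun a => AD p a)).card : ℝ) / p) :=
    mul_nonneg (Nat.cast_nonneg _) (prod_nonneg fun p _ => by positivity)
  have key := sieve_gen' s (fun _ => (1 : ℝ)) (fun _ _ => zero_le_one)
    (fun p (n : ℕ) => bd p (n % p)) (pz z) (fun p => (((range p).filter (fun a => bd p a)).card : ℝ) / p)
    (fun p hp => by
      rw [mem_pz] at hp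
      have h0 : (0 : ℝ) < p := by exact_mod_cast hp.2.pos
      refine ⟨by positivity, ?_⟩
      rw [div_le_one h0]
      exact_mod_cast hbd p)
    (X * ∏ p ∈ Q, ((((range p).filter (fun a => AD p a)).card : ℝ) / p)) hX0
    (fun _ => (z : ℝ) ^ r * ∏ p ∈ Q, (((range p).filter (fun a => AD p a)).card : ℝ)) r ?_
  · have e1 : ∑ n ∈ s with ∀ p ∈ pz z, ¬ bd p (n % p), (1 : ℝ) =
        ((s.filter (fun n => ∀ p ∈ pz z, ¬ bd p (n % p))).card : ℝ) := by
      rw [sum_const, nsmul_eq_mul, mul_one]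
    rw [e1] at key
    refine key.trans ?_
    apply add_le_add _ le_rfl
    have e2 : ∑ j ∈ range (r + 1), ∑ _S ∈ (pz z).powersetCard j, ((z : ℝ) ^ r * ∏ p ∈ Q, (((range p).filter (fun a => AD p a)).card : ℝ)) =
        ((∑ j ∈ range (r + 1), ((pz z).powersetCard j).card : ℕ) : ℝ) * ((z : ℝ) ^ r * ∏ p ∈ Q, (((range p).filter (fun a => AD p a)).card : ℝ)) := by
      push_cast
      rw [sum_mul]
      apply sum_congr rfl; intro j _
      rw [sum_const, nsmul_eq_mul]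
    rw [e2]
    apply mul_le_mul_of_nonneg_right _ (mul_nonneg (by positivity) (prod_nonneg fun _ _ => Nat.cast_nonneg _))
    refine (card_small (pz z) r).trans ?_
    apply pow_le_pow_left₀ (by positivity)
    have := card_pz_le z
    have : ((pz z).card : ℝ) ≤ z := by exact_mod_cast this
    linarith
  · intro S hS hSr
    have hSz : ∀ p ∈ S, p.Prime ∧ p ≤ z := by
      intro p hp
      have := mem_pz.1 (hS hp)
      exact ⟨this.2, this.1⟩
    have hdisj : Disjoint S Q := by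
      rw [disjoint_left]
      intro p hp hp'
      have h1 := (hSz p hp).2
      have h2 := (hQ p hp').2
      omega
    have hpr : ∀ p ∈ S ∪ Q, p.Prime := by
      intro p hp
      rw [mem_union] at hp
      rcases hp with hp | hp
      · exact (hSz p hp).1
      · exact (hQ p hp).1
    have hcount := count_sys (AB AD bd z) X (S ∪ Q) hpr 1 le_rfl (by
      intro p hp h1
      exact (hpr p hp).one_lt.ne' (Nat.dvd_one.1 h1)) 0
    have hA1 : ∀ p ∈ S, ((range p).filter (fun a => AB AD bd z p a)).card = ((range p).filter (fun a => bd p a)).card := by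
      intro p hp
      have h1 := (hSz p hp).2
      congr 1
      apply filter_congr
      intro t _
      unfold AB
      constructor
      · rintro (h | h)
        · exact h.2
        · omega
      · exact fun h => Or.inl ⟨h1, h⟩
    have hA2 : ∀ p ∈ Q, ((range p).filter (fun a => AB AD bd z p a)).card = ((range p).filter (fun a => AD p a)).card := by
      intro p hp
      have h1 := (hQ p hp).2
      congr 1
      apply filter_congr
      intro t _
      unfold AB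
      constructor
      · rintro (h | h)
        · omega
        · exact h.2
      · exact fun h => Or.inr ⟨h1, h⟩
    have e1 : ∏ p ∈ S ∪ Q, ((((range p).filter (fun a => AB AD bd z p a)).card : ℝ) / p) =
        (∏ p ∈ S, ((((range p).filter (fun a => bd p a)).card : ℝ) / p)) * ∏ p ∈ Q, ((((range p).filter (fun a => AD p a)).card : ℝ) / p) := by
      rw [prod_union hdisj]
      congr 1
      · apply prod_congr rfl; intro p hp; rw [hA1 p hp]
      · apply prod_congr rfl; intro p hp; rw [hA2 p hp]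
    have e2 : ∏ p ∈ S ∪ Q, (((range p).filter (fun a => AB AD bd z p a)).card : ℝ) ≤
        (z : ℝ) ^ r * ∏ p ∈ Q, (((range p).filter (fun a => AD p a)).card : ℝ) := by
      rw [prod_union hdisj]
      apply mul_le_mul _ _ (prod_nonneg fun _ _ => Nat.cast_nonneg _) (by positivity)
      · calc ∏ p ∈ S, (((range p).filter (fun a => AB AD bd z p a)).card : ℝ) ≤ ∏ _p ∈ S, (z : ℝ) := by
              apply prod_le_prod (fun _ _ => Nat.cast_nonneg _)
              intro p hp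
              rw [hA1 p hp]
              have h1 : (((range p).filter (fun a => bd p a)).card : ℝ) ≤ p := by exact_mod_cast hbd p
              have h2 : (p : ℝ) ≤ z := by exact_mod_cast (hSz p hp).2
              exact h1.trans h2
          _ = (z : ℝ) ^ S.card := by rw [prod_const]
          _ ≤ _ := pow_le_pow_right₀ hz1 (by omega)
      · apply le_of_eq
        apply prod_congr rfl; intro p hp; rw [hA2 p hp]
    have e3 : s.filter (fun n => ∀ p ∈ S, bd p (n % p)) =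
        (Icc 1 X).filter (fun n => n ≡ 0 [MOD 1] ∧ ∀ p ∈ S ∪ Q, AB AD bd z p (n % p)) := by
      rw [hs, filter_filter]
      apply filter_congr
      intro n _
      constructor
      · rintro ⟨h1, h2⟩
        refine ⟨Nat.modEq_one, fun p hp => ?_⟩
        rw [mem_union] at hp
        rcases hp with hp | hp
        · exact Or.inl ⟨(hSz p hp).2, h2 p hp⟩
        · exact Or.inr ⟨(hQ p hp).2, h1 p hp⟩
      · rintro ⟨_, h⟩
        constructor
        · intro p hp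
          rcases h p (mem_union_right _ hp) with h1 | h1
          · have := (hQ p hp).2
            omega
          · exact h1.2
        · intro p hp
          rcases h p (mem_union_left _ hp) with h1 | h1
          · exact h1.2
          · have := (hSz p hp).2
            omega
    rw [sum_const, nsmul_eq_mul, mul_one, e3]
    rw [e1] at hcount
    have e4 : (X : ℝ) / ((1 : ℕ) : ℝ) * ((∏ p ∈ S, ((((range p).filter (fun a => bd p a)).card : ℝ) / p)) * ∏ p ∈ Q, ((((range p).filter (fun a => AD p a)).card : ℝ) / p)) =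
        X * (∏ p ∈ Q, ((((range p).filter (fun a => AD p a)).card : ℝ) / p)) * ∏ p ∈ S, ((((range p).filter (fun a => bd p a)).card : ℝ) / p) := by
      push_cast; ring
    rw [e4] at hcount
    exact hcount.trans e2

/-- the bad residues in one variable -/
def bd1 (a b : Fin k → ℤ) (p x : ℕ) : Prop := (p : ℤ) ∣ (x : ℤ) ∨ (p : ℤ) ∣ Fv a b (x : ℤ)

instance (a b : Fin k → ℤ) (p x : ℕ) : Decidable (bd1 a b p x) := by unfold bd1; infer_instance

/-- their number -/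
def nb1 (a b : Fin k → ℤ) (p : ℕ) : ℕ := ((range p).filter (fun x => bd1 a b p x)).card

lemma nb1_le (a b : Fin k → ℤ) (p : ℕ) (hp : p.Prime) (h : nb1 a b p < p) : nb1 a b p ≤ k + 1 := by
  apply BD_le (fun _ => a) (fun _ => b) p hp 0
  intro j hj
  have : nb1 a b p = p := by
    unfold nb1
    rw [filter_true_of_mem]
    · exact card_range p
    · intro n _
      right
      unfold Fv
      exact (dvd_add (hj.1.mul_right _) hj.2).trans (dvd_prod_of_mem (fun j => a j * (n : ℤ) + b j) (mem_univ j))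
  omega

lemma bd1_mod (a b : Fin k → ℤ) (p n : ℕ) : bd1 a b p (n % p) ↔ ((p : ℤ) ∣ (n : ℤ) ∨ (p : ℤ) ∣ Fv a b (n : ℤ)) :=
  BD_congr (fun _ => a) (fun _ => b) p 0 _ _ ((Int.natCast_modEq_iff).2 (Nat.mod_modEq _ _))

lemma model1 (z : ℕ) (a b : Fin k → ℤ) (𝒟 : Finset ℕ) (C : ℕ → ℝ) (N : ℕ) :
    ∑ n ∈ Icc 1 N, FL (lamz z) z a b 𝒟 C n = (Vz z)⁻¹ * ∑ D ∈ 𝒟, C D *
      ((((Icc 1 N).filter (fun n : ℕ => (D : ℤ) ∣ Fv a b (n : ℤ))).filter (fun n : ℕ => ∀ p ∈ pz z, ¬ bd1 a b p (n % p))).card : ℝ) := by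
  rw [sum_congr rfl (fun n _ => FL_lamz z a b 𝒟 C n), ← mul_sum]
  congr 1
  unfold WZ
  have e1 : ∀ n ∈ Icc 1 N, (if ∀ p ∈ pz z, ¬ ((p : ℤ) ∣ (n : ℤ) ∨ (p : ℤ) ∣ Fv a b (n : ℤ)) then (1 : ℝ) else 0) *
      ∑ D ∈ 𝒟, (if (D : ℤ) ∣ Fv a b (n : ℤ) then C D else 0) =
      ∑ D ∈ 𝒟, C D * (if (D : ℤ) ∣ Fv a b (n : ℤ) ∧ (∀ p ∈ pz z, ¬ bd1 a b p (n % p)) then (1 : ℝ) else 0) := by
    intro n _
    rw [mul_sum]
    apply sum_congr rfl; intro D _
    have hiff : (∀ p ∈ pz z, ¬ ((p : ℤ) ∣ (n : ℤ) ∨ (p : ℤ) ∣ Fv a b (n : ℤ))) ↔ (∀ p ∈ pz z, ¬ bd1 a b p (n % p)) := by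
      constructor
      · intro h p hp h'; exact h p hp ((bd1_mod a b p n).1 h')
      · intro h p hp h'; exact h p hp ((bd1_mod a b p n).2 h')
    by_cases h1 : (D : ℤ) ∣ Fv a b (n : ℤ)
    · by_cases h2 : ∀ p ∈ pz z, ¬ bd1 a b p (n % p)
      · rw [if_pos (hiff.2 h2), if_pos h1, if_pos ⟨h1, h2⟩]; ring
      · rw [if_neg (fun h => h2 (hiff.1 h)), if_pos h1, if_neg (fun h => h2 h.2)]; ring
    · have h3 : ¬ ((D : ℤ) ∣ Fv a b (n : ℤ) ∧ (∀ p ∈ pz z, ¬ bd1 a b p (n % p))) := fun h => h1 h.1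
      rw [if_neg h1, if_neg h3]; ring
  rw [sum_congr rfl e1, sum_comm]
  apply sum_congr rfl; intro D _
  rw [← mul_sum]
  congr 1
  rw [filter_filter, card_filter]
  push_cast
  rfl

/-- the model sums -/
theorem mlem1 (k U : ℕ) : ∀ E : ℕ, ∃ N0 : ℕ, ∀ N : ℕ, N0 ≤ N → ∀ z : ℕ, 1 ≤ z → (z : ℝ) ≤ Real.log N ^ E →
    ∀ (a b : Fin k → ℤ) (W : ℕ) (𝒟 : Finset ℕ) (C : ℕ → ℝ), 1 ≤ W → W ^ 32 ≤ N → Adm b W 𝒟 C →
    (∀ D ∈ 𝒟, ∀ p, p.Prime → p ∣ D → z < p) → (∀ p : ℕ, p.Prime → nb1 a b p < p) →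
    |∑ n ∈ Icc 1 N, FL (lamz z) z a b 𝒟 C n -
      (N : ℝ) * ((Vz z)⁻¹ * ∏ p ∈ pz z, (1 - (nb1 a b p : ℝ) / p)) * ∑ D ∈ 𝒟, C D * rr a b D| ≤ N / Real.log N ^ U := by
  classical
  intro E
  set g : ℕ := 2 ^ k with hg
  set U' : ℕ := U + g + 4 with hU'
  obtain ⟨m1, h1⟩ := choice (k + 1) E U' 32
  obtain ⟨m3, h3⟩ := Vz_inv_small E
  obtain ⟨m4, h4⟩ := ev_L' (4 * 2 ^ g + 10)
  obtain ⟨m5, h5⟩ := ev_log' (U + 4) 4
  refine ⟨max (max m1 m3) (max m4 (max m5 2)), fun N hN z hz hz2 a b W 𝒟 C hW hWN hAdm h𝒟 hun => ?_⟩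
  obtain ⟨r, hr1, hr2, _⟩ := h1 N (le_trans (le_trans (le_max_left _ _) (le_max_left _ _)) hN) z hz2
  have a3 := h3 N (le_trans (le_trans (le_max_right _ _) (le_max_left _ _)) hN) z
  have hL := h4 N (le_trans (le_trans (le_max_left _ _) (le_max_right _ _)) hN)
  have a5 := h5 N (le_trans (le_trans (le_trans (le_max_left _ _) (le_max_right _ _)) (le_max_right _ _)) hN)
  have hN2 : 2 ≤ N := le_trans (le_trans (le_trans (le_max_right _ _) (le_max_right _ _)) (le_max_right _ _)) hN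
  have hNr : (2 : ℝ) ≤ N := by exact_mod_cast hN2
  have hN0 : (0 : ℝ) < N := by linarith
  set ℓ := Real.log N with hℓ
  have p1 : (0 : ℝ) < 2 ^ g := by positivity
  have hℓ2 : 10 ≤ ℓ := by linarith
  have hℓ1 : 1 ≤ ℓ := by linarith
  have hℓ0 : 0 < ℓ := by linarith
  have hz1r : (1 : ℝ) ≤ z := by exact_mod_cast hz
  have hz0 : (0 : ℝ) < z := by linarith
  have hVi := a3 hz hz2
  have hVi0 : 0 < (Vz z)⁻¹ := inv_pos.2 (Vz_pos z)
  have hlogW : 1 + Real.log W ≤ 2 * ℓ := by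
    have hWN' : W ≤ N := by
      refine le_trans ?_ hWN
      exact Nat.le_self_pow (by norm_num) _
    have h5 : Real.log W ≤ ℓ := Real.log_le_log (by exact_mod_cast hW) (by exact_mod_cast hWN')
    linarith
  have hlogW0 : 0 ≤ Real.log W := Real.log_natCast_nonneg _
  rw [model1]
  set Pz : ℝ := ∏ p ∈ pz z, (1 - (nb1 a b p : ℝ) / p) with hPz
  have hes : es (fun p => (nb1 a b p : ℝ) / p) (pz z) r ≤ 1 / ℓ ^ U' := by
    refine (es_le (fun p _ => by positivity) r).trans (le_trans ?_ hr1)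
    apply Real.exp_le_exp.2
    have g1 : ∑ p ∈ pz z, (nb1 a b p : ℝ) / p ≤ (k + 1) * (1 + Real.log z) := by
      calc ∑ p ∈ pz z, (nb1 a b p : ℝ) / p ≤ ∑ p ∈ pz z, ((k : ℝ) + 1) * (1 / (p : ℝ)) := by
            apply sum_le_sum; intro p hp
            have hpp := (mem_pz.1 hp).2
            have h6 : (nb1 a b p : ℝ) ≤ k + 1 := by exact_mod_cast nb1_le a b p hpp (hun p hpp)
            rw [mul_one_div]
            exact div_le_div_of_nonneg_right h6 (Nat.cast_nonneg _)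
        _ = (k + 1) * ∑ p ∈ pz z, 1 / (p : ℝ) := by rw [mul_sum]
        _ ≤ _ := mul_le_mul_of_nonneg_left (sum_pz_le z) (by positivity)
    push_cast
    linarith
  have hD : ∀ D ∈ 𝒟, D ≠ 0 ∧ D ≤ W := fun D hD => by
    have := mem_Icc.1 (hAdm.sub hD)
    exact ⟨by omega, this.2⟩
  have hcard : (𝒟.card : ℝ) ≤ W := by
    have := card_le_card hAdm.sub
    rw [Nat.card_Icc, Nat.add_sub_cancel] at this
    exact_mod_cast this
  have hrr0 : ∀ D ∈ 𝒟, 0 ≤ rr a b D := fun D _ => rr_nonneg a b D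
  have hrr : ∑ D ∈ 𝒟, rr a b D ≤ (2 * ℓ) ^ g := by
    calc ∑ D ∈ 𝒟, rr a b D ≤ ∑ D ∈ 𝒟, tau D ^ k / D := sum_le_sum fun D hD => rr_le a (hAdm.sq D hD) (hAdm.cb D hD)
      _ ≤ ∑ D ∈ Icc 1 W, tau D ^ k / D := sum_le_sum_of_subset_of_nonneg hAdm.sub
          (fun D _ _ => div_nonneg (pow_nonneg (tau_nonneg _) _) (Nat.cast_nonneg _))
      _ ≤ (1 + Real.log W) ^ (2 ^ k) := tau_moment k W
      _ ≤ _ := pow_le_pow_left₀ (by linarith) hlogW _
  -- the error for each divisor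
  have herr : ∀ D ∈ 𝒟, |((((Icc 1 N).filter (fun n : ℕ => (D : ℤ) ∣ Fv a b (n : ℤ))).filter (fun n : ℕ => ∀ p ∈ pz z, ¬ bd1 a b p (n % p))).card : ℝ) -
      (N * rr a b D) * Pz| ≤ ((z : ℝ) + 1) ^ r * ((z : ℝ) ^ r * W) + 2 * (N * rr a b D) * (1 / ℓ ^ U') := by
    intro D hD'
    have h6 := cnt_abs N z r D.primeFactors (fun p hp => ⟨Nat.prime_of_mem_primeFactors hp,
      h𝒟 D hD' p (Nat.prime_of_mem_primeFactors hp) (Nat.dvd_of_mem_primeFactors hp)⟩) (fun p x => (p : ℤ) ∣ Fv a b (x : ℤ)) (bd1 a b) hz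
    have e1 : (Icc 1 N).filter (fun n : ℕ => ∀ p ∈ D.primeFactors, (p : ℤ) ∣ Fv a b ((n % p : ℕ) : ℤ)) =
        (Icc 1 N).filter (fun n : ℕ => (D : ℤ) ∣ Fv a b (n : ℤ)) := by
      apply filter_congr
      intro n _
      rw [sq_dvd_iff (hAdm.sq D hD')]
      constructor
      · intro h p hp hpd
        have := h p (Nat.mem_primeFactors.2 ⟨hp, hpd, (hD D hD').1⟩)
        rwa [Fv_dvd_congr a b p ((Int.natCast_modEq_iff).2 (Nat.mod_modEq n p))] at this
      · intro h p hp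
        rw [Fv_dvd_congr a b p ((Int.natCast_modEq_iff).2 (Nat.mod_modEq n p))]
        exact h p (Nat.prime_of_mem_primeFactors hp) (Nat.dvd_of_mem_primeFactors hp)
    rw [e1] at h6
    have e2 : ∏ p ∈ D.primeFactors, ((((range p).filter (fun x : ℕ => (p : ℤ) ∣ Fv a b (x : ℤ))).card : ℝ) / p) = rr a b D := rfl
    rw [e2] at h6
    refine h6.trans ?_
    apply add_le_add
    · apply mul_le_mul_of_nonneg_left _ (by positivity)
      apply mul_le_mul_of_nonneg_left _ (by positivity)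
      calc ∏ p ∈ D.primeFactors, (((range p).filter (fun x : ℕ => (p : ℤ) ∣ Fv a b (x : ℤ))).card : ℝ) ≤ ∏ p ∈ D.primeFactors, (p : ℝ) := by
            apply prod_le_prod (fun _ _ => Nat.cast_nonneg _)
            intro p _
            have := card_filter_le (range p) (fun x : ℕ => (p : ℤ) ∣ Fv a b (x : ℤ))
            rw [card_range] at this
            exact_mod_cast this
        _ = ((∏ p ∈ D.primeFactors, p : ℕ) : ℝ) := by push_cast; rfl
        _ ≤ W := by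
            have := Nat.le_of_dvd (Nat.pos_of_ne_zero (hD D hD').1) (Nat.prod_primeFactors_dvd D)
            exact_mod_cast this.trans (hD D hD').2
    · exact mul_le_mul_of_nonneg_left hes (by have := rr_nonneg a b D; positivity)
  -- size of the first error
  have hroot : ((W : ℝ) ^ 2 * ((z : ℝ) + 1) ^ r * (z : ℝ) ^ r) ≤ √(N : ℝ) := by
    apply Real.le_sqrt_of_sq_le
    set A : ℝ := ((z : ℝ) + 1) ^ r with hA
    have hA1 : 1 ≤ A := one_le_pow₀ (by linarith)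
    have hzA : (z : ℝ) ^ r ≤ A := pow_le_pow_left₀ hz0.le (by linarith) _
    have hW1 : (1 : ℝ) ≤ W := by exact_mod_cast hW
    have hA32 : A ^ 32 ≤ N := hr2
    have hW32 : (W : ℝ) ^ 32 ≤ N := by exact_mod_cast hWN
    have h6 : ((W : ℝ) ^ 2 * A * (z : ℝ) ^ r) ^ 2 ≤ ((W : ℝ) ^ 2 * A * A) ^ 2 := by
      apply pow_le_pow_left₀ (by positivity)
      exact mul_le_mul_of_nonneg_left hzA (by positivity)
    refine h6.trans ?_
    have h7 : ((W : ℝ) ^ 2 * A * A) ^ 2 = (W : ℝ) ^ 4 * A ^ 4 := by ring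
    rw [h7]
    have hWA : ((W : ℝ) ^ 4 * A ^ 4) ^ 32 ≤ (N : ℝ) ^ 32 := by
      calc ((W : ℝ) ^ 4 * A ^ 4) ^ 32 = ((W : ℝ) ^ 32) ^ 4 * (A ^ 32) ^ 4 := by ring
        _ ≤ (N : ℝ) ^ 4 * (N : ℝ) ^ 4 := by gcongr
        _ = (N : ℝ) ^ 8 := by ring
        _ ≤ (N : ℝ) ^ 32 := pow_le_pow_right₀ (by linarith) (by norm_num)
    exact le_of_pow_le_pow_left₀ (by norm_num) hN0.le hWA
  have hsN : √(N : ℝ) * √(N : ℝ) = N := Real.mul_self_sqrt hN0.le
  have hsN0 : 0 ≤ √(N : ℝ) := Real.sqrt_nonneg _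
  have e0 : (Vz z)⁻¹ * ∑ D ∈ 𝒟, C D *
      ((((Icc 1 N).filter (fun n : ℕ => (D : ℤ) ∣ Fv a b (n : ℤ))).filter (fun n : ℕ => ∀ p ∈ pz z, ¬ bd1 a b p (n % p))).card : ℝ) -
      (N : ℝ) * ((Vz z)⁻¹ * Pz) * ∑ D ∈ 𝒟, C D * rr a b D = (Vz z)⁻¹ * ∑ D ∈ 𝒟, C D *
      (((((Icc 1 N).filter (fun n : ℕ => (D : ℤ) ∣ Fv a b (n : ℤ))).filter (fun n : ℕ => ∀ p ∈ pz z, ¬ bd1 a b p (n % p))).card : ℝ) - (N * rr a b D) * Pz) := by
    have e1 : ∀ D ∈ 𝒟, C D * (((((Icc 1 N).filter (fun n : ℕ => (D : ℤ) ∣ Fv a b (n : ℤ))).filter (fun n : ℕ => ∀ p ∈ pz z, ¬ bd1 a b p (n % p))).card : ℝ) - (N * rr a b D) * Pz) =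
        C D * ((((Icc 1 N).filter (fun n : ℕ => (D : ℤ) ∣ Fv a b (n : ℤ))).filter (fun n : ℕ => ∀ p ∈ pz z, ¬ bd1 a b p (n % p))).card : ℝ) -
          (N * Pz) * (C D * rr a b D) := by intro D _; ring
    rw [sum_congr rfl e1, sum_sub_distrib, ← mul_sum]
    ring
  rw [e0, abs_mul, abs_of_pos hVi0]
  calc (Vz z)⁻¹ * |∑ D ∈ 𝒟, C D *
      (((((Icc 1 N).filter (fun n : ℕ => (D : ℤ) ∣ Fv a b (n : ℤ))).filter (fun n : ℕ => ∀ p ∈ pz z, ¬ bd1 a b p (n % p))).card : ℝ) - (N * rr a b D) * Pz)| ≤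
        ℓ * ∑ D ∈ 𝒟, (((z : ℝ) + 1) ^ r * ((z : ℝ) ^ r * W) + 2 * (N * rr a b D) * (1 / ℓ ^ U')) := by
        apply mul_le_mul hVi _ (abs_nonneg _) hℓ0.le
        refine (abs_sum_le_sum_abs _ _).trans (sum_le_sum fun D hD' => ?_)
        rw [abs_mul]
        calc _ ≤ 1 * |((((Icc 1 N).filter (fun n : ℕ => (D : ℤ) ∣ Fv a b (n : ℤ))).filter (fun n : ℕ => ∀ p ∈ pz z, ¬ bd1 a b p (n % p))).card : ℝ) - (N * rr a b D) * Pz| :=
              mul_le_mul_of_nonneg_right (hAdm.bd D hD') (abs_nonneg _)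
          _ ≤ _ := by rw [one_mul]; exact herr D hD'
    _ = ℓ * (𝒟.card * (((z : ℝ) + 1) ^ r * ((z : ℝ) ^ r * W)) + 2 * N * (1 / ℓ ^ U') * ∑ D ∈ 𝒟, rr a b D) := by
        rw [sum_add_distrib, sum_const, nsmul_eq_mul, mul_sum]
        congr 2
        apply sum_congr rfl; intro D _; ring
    _ ≤ ℓ * (√(N : ℝ) + 2 * N * (1 / ℓ ^ U') * (2 * ℓ) ^ g) := by
        apply mul_le_mul_of_nonneg_left _ hℓ0.le
        apply add_le_add
        · calc (𝒟.card : ℝ) * (((z : ℝ) + 1) ^ r * ((z : ℝ) ^ r * W)) ≤ W * (((z : ℝ) + 1) ^ r * ((z : ℝ) ^ r * W)) :=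
                mul_le_mul_of_nonneg_right hcard (by positivity)
            _ = (W : ℝ) ^ 2 * ((z : ℝ) + 1) ^ r * (z : ℝ) ^ r := by ring
            _ ≤ _ := hroot
        · exact mul_le_mul_of_nonneg_left hrr (by positivity)
    _ ≤ N / ℓ ^ U := by
        have f2 : ℓ * (2 * N * (1 / ℓ ^ U') * (2 * ℓ) ^ g) ≤ (1 / 2) * (N / ℓ ^ U) := by
          have e : ℓ * (2 * N * (1 / ℓ ^ U') * (2 * ℓ) ^ g) = (2 * 2 ^ g / ℓ ^ 3) * (N / ℓ ^ U) := by
            rw [hU', mul_pow, show U + g + 4 = U + g + 3 + 1 by ring, pow_succ, pow_add, pow_add]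
            field_simp
          rw [e]
          apply mul_le_mul_of_nonneg_right _ (by positivity)
          rw [div_le_div_iff₀ (by positivity) (by norm_num)]
          have : ℓ ≤ ℓ ^ 3 := by
            calc ℓ = ℓ ^ 1 := (pow_one _).symm
              _ ≤ _ := pow_le_pow_right₀ hℓ1 (by norm_num)
          linarith
        have f1 : ℓ * √(N : ℝ) ≤ (1 / 2) * (N / ℓ ^ U) := by
          calc ℓ * √(N : ℝ) = (4 * ℓ ^ (U + 4)) * √(N : ℝ) / (4 * ℓ ^ 3 * ℓ ^ U) := by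
                rw [show U + 4 = U + 3 + 1 by ring, pow_succ, pow_add]; field_simp
            _ ≤ √(N : ℝ) * √(N : ℝ) / (4 * ℓ ^ 3 * ℓ ^ U) := by gcongr
            _ = (1 / (4 * ℓ ^ 3)) * (N / ℓ ^ U) := by rw [hsN]; field_simp
            _ ≤ _ := by
                apply mul_le_mul_of_nonneg_right _ (by positivity)
                rw [div_le_div_iff₀ (by positivity) (by norm_num)]
                have : 1 ≤ ℓ ^ 3 := one_le_pow₀ hℓ1
                linarith
        rw [mul_add]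
        linarith

end Pool.Agent.H76.TB
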