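import Mathlib
import Pool.Agent.H76.TB.A10

/-! Minor frequencies, with the values of the forms free of small primes. -/

set_option autoImplicit false

open Finset

namespace Pool.Agent.H76.TB

open Pool.Agent.H807R2.Dav (ee norm_ee ee_add)
open Pool.Agent.H373R2.T7 (ev_log' ev_L' pz mem_pz Vz Vz_pos lamz lamz_nonneg Vz_inv_small es es_le es_nonneg sum_pz_le choice
  bonf_ind orth)

variable {k : ℕ}

/-- restriction to residue classes costs a factor `M` -/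
lemma ap_sup' (M : ℕ) (hM : 1 ≤ M) (N : ℕ) (f : ℕ → ℂ) (P : ℕ → Prop) [DecidablePred P] (K : ℝ)
    (α : ℝ) (hf : ∀ t : ℕ, t < M → ‖∑ n ∈ Icc 1 N, f n * ee ((n : ℝ) * (α + t / M))‖ ≤ K) :
    ‖∑ n ∈ Icc 1 N, (if P (n % M) then f n else 0) * ee ((n : ℝ) * α)‖ ≤ M * K := by
  classical
  have hM0 : (0 : ℝ) < M := by exact_mod_cast hM
  have hMc : (M : ℂ) ≠ 0 := by
    have : M ≠ 0 := by omega
    exact_mod_cast this
  have h1 : ∀ n : ℕ, (if P (n % M) then (1 : ℂ) else 0) = ∑ c ∈ (range M).filter P, (M : ℂ)⁻¹ *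
      ∑ t ∈ range M, ee ((t : ℝ) * ((((n : ℤ) - (c : ℤ) : ℤ) : ℝ) / M)) := by
    intro n
    have h2 : ∀ c ∈ (range M).filter P, (M : ℂ)⁻¹ * ∑ t ∈ range M, ee ((t : ℝ) * ((((n : ℤ) - (c : ℤ) : ℤ) : ℝ) / M)) =
        if c = n % M then 1 else 0 := by
      intro c hc
      rw [mem_filter, mem_range] at hc
      rw [orth M hM]
      have h3 : ((M : ℤ) ∣ (n : ℤ) - c) ↔ c = n % M := by
        rw [← Nat.modEq_iff_dvd]
        constructor
        · intro h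
          have : c % M = n % M := h
          rwa [Nat.mod_eq_of_lt hc.1] at this
        · intro h
          show c % M = n % M
          rw [Nat.mod_eq_of_lt hc.1]; exact h
      by_cases h4 : c = n % M
      · rw [if_pos (h3.2 h4), if_pos h4, inv_mul_cancel₀ hMc]
      · rw [if_neg (fun h => h4 (h3.1 h)), if_neg h4, mul_zero]
    rw [sum_congr rfl h2, sum_ite_eq']
    by_cases hP : P (n % M)
    · rw [if_pos hP, if_pos]
      rw [mem_filter, mem_range]; exact ⟨Nat.mod_lt _ hM, hP⟩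
    · rw [if_neg hP, if_neg]
      rw [mem_filter]; exact fun h => hP h.2
  have h5 : ∑ n ∈ Icc 1 N, (if P (n % M) then f n else 0) * ee ((n : ℝ) * α) =
      ∑ c ∈ (range M).filter P, ∑ t ∈ range M, (M : ℂ)⁻¹ * ee (-((t : ℝ) * (c / M))) *
        ∑ n ∈ Icc 1 N, f n * ee ((n : ℝ) * (α + t / M)) := by
    have e1 : ∀ n ∈ Icc 1 N, (if P (n % M) then f n else 0) * ee ((n : ℝ) * α) =
       ∑ c ∈ (range M).filter P, ∑ t ∈ range M, (M : ℂ)⁻¹ * ee (-((t : ℝ) * (c / M))) * (f n * ee ((n : ℝ) * (α + t / M))) := by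
      intro n _
      have e2 : (if P (n % M) then f n else 0) = (if P (n % M) then (1 : ℂ) else 0) * f n := by split_ifs <;> simp
      rw [e2, h1 n, sum_mul, sum_mul]
      apply sum_congr rfl; intro c _
      rw [mul_sum, sum_mul, sum_mul]
      apply sum_congr rfl; intro t _
      have e3 : ee ((t : ℝ) * ((((n : ℤ) - (c : ℤ) : ℤ) : ℝ) / M)) * ee ((n : ℝ) * α) =
          ee (-((t : ℝ) * (c / M))) * ee ((n : ℝ) * (α + t / M)) := by
        rw [← ee_add, ← ee_add]; congr 1; push_cast; field_simp; ring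
      calc _ = (M : ℂ)⁻¹ * f n * (ee ((t : ℝ) * ((((n : ℤ) - (c : ℤ) : ℤ) : ℝ) / M)) * ee ((n : ℝ) * α)) := by ring
        _ = _ := by rw [e3]; ring
    rw [sum_congr rfl e1, sum_comm]
    apply sum_congr rfl; intro c _
    rw [sum_comm]
    apply sum_congr rfl; intro t _
    rw [← mul_sum]
  rw [h5]
  calc _ ≤ ∑ c ∈ (range M).filter P, ∑ t ∈ range M, (M : ℝ)⁻¹ * K := by
        refine (norm_sum_le _ _).trans (sum_le_sum fun c _ => (norm_sum_le _ _).trans (sum_le_sum fun t ht => ?_))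
        rw [norm_mul, norm_mul, norm_ee, mul_one, norm_inv, Complex.norm_natCast]
        exact mul_le_mul_of_nonneg_left (hf t (mem_range.1 ht)) (by positivity)
    _ = ((range M).filter P).card * K := by
        rw [sum_const, sum_const, card_range, nsmul_eq_mul, nsmul_eq_mul]; field_simp
    _ ≤ M * K := by
        have hK : 0 ≤ K := (norm_nonneg _).trans (hf 0 (by omega))
        apply mul_le_mul_of_nonneg_right _ hK
        have := card_filter_le (range M) P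
        rw [card_range] at this
        exact_mod_cast this

/-- from weights to the values free of small primes, for one frequency -/
theorem sup_Rf (k U : ℕ) : ∀ E : ℕ, ∃ N0 : ℕ, ∀ N : ℕ, N0 ≤ N → ∀ z : ℕ, 1 ≤ z →
    (z : ℝ) ≤ Real.log N ^ E → ∀ (f : ℕ → ℝ), (∀ n ∈ Icc 1 N, |f n| ≤ 2 * Real.log N) → ∀ (a b : Fin k → ℤ) (W : ℕ) (𝒟 : Finset ℕ) (C : ℕ → ℝ),
    1 ≤ W → W ^ 32 ≤ N → Adm b W 𝒟 C → (∀ D ∈ 𝒟, ∀ p, p.Prime → p ∣ D → z < p) → (∏ j, b j) ≠ 0 →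
    ((∏ j, b j).natAbs : ℝ) ≤ Real.log N → ∀ α : ℝ,
    (∀ M : ℕ, 1 ≤ M → (M : ℝ) ≤ Real.log N → ∀ t : ℕ, t < M → ∀ (W' : ℕ) (𝒟' : Finset ℕ) (C' : ℕ → ℝ), 1 ≤ W' → W' ^ 16 ≤ N → Adm b W' 𝒟' C' →
      ‖∑ n ∈ Icc 1 N, ((f n * WW a b 𝒟' C' n : ℝ) : ℂ) * ee ((n : ℝ) * (α + t / M))‖ ≤ N / Real.log N ^ (U + 2)) →
    ‖∑ n ∈ Icc 1 N, ((f n * (RI a b (pz z) n * WW a b 𝒟 C n) : ℝ) : ℂ) * ee ((n : ℝ) * α)‖ ≤
      N / Real.log N ^ U := by
  classical
  intro E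
  set U' : ℕ := U + 2 + 2 ^ k + 2 with hU'
  obtain ⟨m2, h2⟩ := choice (2 ^ k) E U' 32
  obtain ⟨m3, h3⟩ := Vz_inv_small E
  obtain ⟨m4, h4⟩ := ev_L' (12 * 2 ^ (2 ^ k) + 2)
  refine ⟨max (max 1 m2) (max m3 (max m4 2)), fun N hN z hz hz2 f hf a b W 𝒟 C hW hWN hAdm h𝒟 hb0 hbN α hα => ?_⟩
  obtain ⟨r, hr1, hr2, _⟩ := h2 N (le_trans (le_trans (le_max_right _ _) (le_max_left _ _)) hN) z hz2
  have a3 := h3 N (le_trans (le_trans (le_max_left _ _) (le_max_right _ _)) hN) z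
  have hL := h4 N (le_trans (le_trans (le_trans (le_max_left _ _) (le_max_right _ _)) (le_max_right _ _)) hN)
  have hN2 : 2 ≤ N := le_trans (le_trans (le_trans (le_max_right _ _) (le_max_right _ _)) (le_max_right _ _)) hN
  have hNr : (2 : ℝ) ≤ N := by exact_mod_cast hN2
  have hN0 : (0 : ℝ) < N := by linarith
  set ℓ := Real.log N with hℓ
  have p1 : (0 : ℝ) < 2 ^ (2 ^ k) := by positivity
  have hℓ2 : 2 ≤ ℓ := by linarith
  have hℓ1 : 1 ≤ ℓ := by linarith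
  have hℓ0 : 0 < ℓ := by linarith
  have hVi := a3 hz hz2
  have hVi0 : 0 < (Vz z)⁻¹ := inv_pos.2 (Vz_pos z)
  set Pg : Finset ℕ := (pz z).filter (fun p : ℕ => ¬ (p : ℤ) ∣ ∏ j, b j) with hPg
  set Pb : Finset ℕ := (pz z).filter (fun p : ℕ => (p : ℤ) ∣ ∏ j, b j) with hPb
  have hPg1 : ∀ p ∈ Pg, p.Prime ∧ p ≤ z := by
    intro p hp
    rw [hPg, mem_filter, mem_pz] at hp
    exact ⟨hp.1.2, hp.1.1⟩
  have hPg2 : ∀ p ∈ Pg, ¬ (p : ℤ) ∣ ∏ j, b j := by
    intro p hp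
    rw [hPg, mem_filter] at hp
    exact hp.2
  set M := ∏ p ∈ Pb, p with hM
  have hPb1 : ∀ p ∈ Pb, p.Prime := by
    intro p hp
    rw [hPb, mem_filter, mem_pz] at hp
    exact hp.1.2
  have hM1 : 1 ≤ M := prod_pos fun p hp => (hPb1 p hp).pos
  have hMb : M ∣ (∏ j, b j).natAbs := by
    apply Finset.prod_primes_dvd _ (fun p hp => (hPb1 p hp).prime)
    intro p hp
    rw [hPb, mem_filter] at hp
    exact Int.natCast_dvd.1 hp.2
  have hMℓ : (M : ℝ) ≤ ℓ := by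
    refine le_trans ?_ hbN
    have := Nat.le_of_dvd (Int.natAbs_pos.2 hb0) hMb
    exact_mod_cast this
  -- sizes
  have hx1 : (((z + 1) ^ r) ^ 32 : ℕ) ≤ N := by
    have : ((((z + 1) ^ r) ^ 32 : ℕ) : ℝ) ≤ N := by push_cast; exact hr2
    exact_mod_cast this
  have hzr : (z ^ r * W) ^ 16 ≤ N := by
    have g1 : ((z ^ r) ^ 16) * ((z ^ r) ^ 16) ≤ N := by
      calc ((z ^ r) ^ 16) * ((z ^ r) ^ 16) = (z ^ r) ^ 32 := by rw [← pow_add]
        _ ≤ ((z + 1) ^ r) ^ 32 := Nat.pow_le_pow_left (Nat.pow_le_pow_left (by omega) _) _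
        _ ≤ N := hx1
    have g2 : (W ^ 16) * (W ^ 16) ≤ N := by
      calc (W ^ 16) * (W ^ 16) = W ^ 32 := by rw [← pow_add]
        _ ≤ N := hWN
    rw [mul_pow]
    by_contra hcon
    push Not at hcon
    nlinarith [Nat.mul_lt_mul'' hcon hcon, Nat.mul_le_mul g1 g2]
  have hzrN : z ^ r * W ≤ N := by
    refine le_trans ?_ hzr
    exact Nat.le_self_pow (by norm_num) _
  have hWN' : W ≤ N := by
    refine le_trans ?_ hWN
    exact Nat.le_self_pow (by norm_num) _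
  have hWℓ : 1 + Real.log W ≤ 2 * ℓ := by
    have h5 : Real.log W ≤ ℓ := Real.log_le_log (by exact_mod_cast hW) (by exact_mod_cast hWN')
    linarith
  have hW0 : 0 ≤ Real.log W := Real.log_natCast_nonneg _
  have hAdm' := adm_comb b z hz Pg hPg1 hPg2 r W 𝒟 C hAdm h𝒟
  have hes : es (fun p => 2 ^ k / p) Pg r ≤ 1 / ℓ ^ U' := by
    refine (es_le (fun p _ => by positivity) r).trans (le_trans ?_ hr1)
    apply Real.exp_le_exp.2
    have g1 : ∑ p ∈ Pg, (2 : ℝ) ^ k / p ≤ 2 ^ k * (1 + Real.log z) := by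
      calc ∑ p ∈ Pg, (2 : ℝ) ^ k / p ≤ ∑ p ∈ pz z, (2 : ℝ) ^ k / p :=
            sum_le_sum_of_subset_of_nonneg (filter_subset _ _) (fun p _ _ => by positivity)
        _ = 2 ^ k * ∑ p ∈ pz z, 1 / (p : ℝ) := by rw [mul_sum]; apply sum_congr rfl; intro p _; ring
        _ ≤ _ := mul_le_mul_of_nonneg_left (sum_pz_le z) (by positivity)
    push_cast
    linarith
  -- the good primes
  have hgood : ∀ t : ℕ, t < M → ‖∑ n ∈ Icc 1 N, ((f n * (RI a b Pg n * WW a b 𝒟 C n) : ℝ) : ℂ) * ee ((n : ℝ) * (α + t / M))‖ ≤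
      N / ℓ ^ (U + 1) := by
    intro t ht
    have e1 : ∑ n ∈ Icc 1 N, ((f n * (RI a b Pg n * WW a b 𝒟 C n) : ℝ) : ℂ) * ee ((n : ℝ) * (α + t / M)) =
        ∑ n ∈ Icc 1 N, ((f n * WW a b (DD' Pg r 𝒟) (cw z C) n : ℝ) : ℂ) * ee ((n : ℝ) * (α + t / M)) +
        ∑ n ∈ Icc 1 N, ((f n * (RI a b Pg n * WW a b 𝒟 C n - WW a b (DD' Pg r 𝒟) (cw z C) n) : ℝ) : ℂ) * ee ((n : ℝ) * (α + t / M)) := by
      rw [← sum_add_distrib]
      apply sum_congr rfl; intro n _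
      push_cast; ring
    rw [e1]
    refine (norm_add_le _ _).trans ?_
    have g1 := hα M hM1 hMℓ t ht (z ^ r * W) (DD' Pg r 𝒟) (cw z C) (Nat.mul_pos (Nat.pow_pos hz) hW) hzr hAdm'
    have g2 : ‖∑ n ∈ Icc 1 N, ((f n * (RI a b Pg n * WW a b 𝒟 C n - WW a b (DD' Pg r 𝒟) (cw z C) n) : ℝ) : ℂ) * ee ((n : ℝ) * (α + t / M))‖ ≤
        N / ℓ ^ (U + 2) := by
      calc _ ≤ ∑ n ∈ Icc 1 N, 2 * ℓ * ((∑ S ∈ Pg.powersetCard r, if ∀ p ∈ S, (p : ℤ) ∣ Fv a b (n : ℤ) then (1 : ℝ) else 0) * |WW a b 𝒟 C n|) := by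
            refine (norm_sum_le _ _).trans (sum_le_sum fun n hn => ?_)
            rw [mem_Icc] at hn
            rw [norm_mul, norm_ee, mul_one, Complex.norm_real, Real.norm_eq_abs, abs_mul]
            have t1 : |f n| ≤ 2 * ℓ := hf n (mem_Icc.2 hn)
            have t4 : |RI a b Pg n * WW a b 𝒟 C n - WW a b (DD' Pg r 𝒟) (cw z C) n| ≤
                (∑ S ∈ Pg.powersetCard r, if ∀ p ∈ S, (p : ℤ) ∣ Fv a b (n : ℤ) then (1 : ℝ) else 0) * |WW a b 𝒟 C n| := by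
              rw [WW_comb a b z Pg hPg1 r 𝒟 C (fun D hD => by have := (mem_Icc.1 (hAdm.sub hD)).1; omega) h𝒟 n, ← sub_mul, abs_mul]
              apply mul_le_mul_of_nonneg_right _ (abs_nonneg _)
              have := bonf_ind (fun p (n : ℕ) => (p : ℤ) ∣ Fv a b (n : ℤ)) Pg r n
              refine le_trans (le_of_eq ?_) (le_trans this (le_of_eq ?_))
              · congr 1
                congr 1
                · unfold RI
                  by_cases hh : ∀ p ∈ Pg, ¬ (p : ℤ) ∣ Fv a b (n : ℤ)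
                  · rw [if_pos hh, if_pos hh]
                  · rw [if_neg hh, if_neg hh]
                · apply sum_congr rfl; intro j _
                  congr 1
                  apply sum_congr rfl; intro S _
                  by_cases hh : ∀ p ∈ S, (p : ℤ) ∣ Fv a b (n : ℤ)
                  · rw [if_pos hh, if_pos hh]
                  · rw [if_neg hh, if_neg hh]
              · apply sum_congr rfl; intro S _
                by_cases hh : ∀ p ∈ S, (p : ℤ) ∣ Fv a b (n : ℤ)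
                · rw [if_pos hh, if_pos hh]
                · rw [if_neg hh, if_neg hh]
            exact mul_le_mul t1 t4 (abs_nonneg _) (by positivity)
        _ = 2 * ℓ * ∑ n ∈ Icc 1 N, (∑ S ∈ Pg.powersetCard r, if ∀ p ∈ S, (p : ℤ) ∣ Fv a b (n : ℤ) then (1 : ℝ) else 0) * |WW a b 𝒟 C n| := by rw [mul_sum]
        _ ≤ 2 * ℓ * (6 * N * es (fun p => 2 ^ k / p) Pg r * (1 + Real.log W) ^ (2 ^ k)) :=
            mul_le_mul_of_nonneg_left (tail_comb a b z hz Pg hPg1 hPg2 r W 𝒟 C hAdm h𝒟 N hzrN) (by positivity)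
        _ ≤ 2 * ℓ * (6 * N * (1 / ℓ ^ U') * (2 * ℓ) ^ (2 ^ k)) := by
            apply mul_le_mul_of_nonneg_left _ (by positivity)
            apply mul_le_mul _ (pow_le_pow_left₀ (by linarith) hWℓ _) (by positivity) (by positivity)
            exact mul_le_mul_of_nonneg_left hes (by positivity)
        _ = (12 * 2 ^ (2 ^ k) / ℓ) * (N / ℓ ^ (U + 2)) := by
            rw [hU', mul_pow, show U + 2 + 2 ^ k + 2 = (U + 2) + 2 ^ k + 1 + 1 by ring, pow_succ, pow_succ, pow_add ℓ (U + 2)]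
            field_simp
            ring
        _ ≤ 1 * (N / ℓ ^ (U + 2)) := by
            apply mul_le_mul_of_nonneg_right _ (by positivity)
            rw [div_le_one hℓ0]
            linarith
        _ = _ := one_mul _
    calc _ ≤ N / ℓ ^ (U + 2) + N / ℓ ^ (U + 2) := add_le_add g1 g2
      _ = (2 / ℓ) * (N / ℓ ^ (U + 1)) := by rw [show U + 2 = U + 1 + 1 by ring, pow_succ]; field_simp; ring
      _ ≤ 1 * (N / ℓ ^ (U + 1)) := by
          apply mul_le_mul_of_nonneg_right _ (by positivity)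
          rw [div_le_one hℓ0]; exact hℓ2
      _ = _ := one_mul _
  -- the bad primes
  have hfin := ap_sup' M hM1 N (fun n => ((f n * (RI a b Pg n * WW a b 𝒟 C n) : ℝ) : ℂ))
    (fun c => ∀ p ∈ Pb, ¬ (p : ℤ) ∣ Fv a b (c : ℤ)) (N / ℓ ^ (U + 1)) α hgood
  have e2 : ∑ n ∈ Icc 1 N, ((f n * (RI a b (pz z) n * WW a b 𝒟 C n) : ℝ) : ℂ) * ee ((n : ℝ) * α) =
      ∑ n ∈ Icc 1 N, (if (∀ p ∈ Pb, ¬ (p : ℤ) ∣ Fv a b ((n % M : ℕ) : ℤ)) then
        ((f n * (RI a b Pg n * WW a b 𝒟 C n) : ℝ) : ℂ) else 0) * ee ((n : ℝ) * α) := by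
    apply sum_congr rfl
    intro n _
    congr 1
    have hiff : (∀ p ∈ Pb, ¬ (p : ℤ) ∣ Fv a b ((n % M : ℕ) : ℤ)) ↔ (∀ p ∈ Pb, ¬ (p : ℤ) ∣ Fv a b (n : ℤ)) := by
      apply forall_congr'; intro p
      apply forall_congr'; intro hp
      rw [Fv_dvd_congr a b p (n := ((n % M : ℕ) : ℤ)) (n' := (n : ℤ))]
      have hpM : p ∣ M := dvd_prod_of_mem _ hp
      exact (Int.natCast_modEq_iff).2 ((Nat.mod_modEq n M).of_dvd hpM)
    by_cases hc : ∀ p ∈ Pb, ¬ (p : ℤ) ∣ Fv a b (n : ℤ)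
    · rw [if_pos (hiff.2 hc)]
      congr 2
      congr 1
      unfold RI
      have : (∀ p ∈ pz z, ¬ (p : ℤ) ∣ Fv a b (n : ℤ)) ↔ (∀ p ∈ Pg, ¬ (p : ℤ) ∣ Fv a b (n : ℤ)) := by
        constructor
        · intro h p hp; exact h p (filter_subset _ _ hp)
        · intro h p hp
          by_cases hpb : (p : ℤ) ∣ ∏ j, b j
          · exact hc p (mem_filter.2 ⟨hp, hpb⟩)
          · exact h p (mem_filter.2 ⟨hp, hpb⟩)
      by_cases h6 : ∀ p ∈ Pg, ¬ (p : ℤ) ∣ Fv a b (n : ℤ)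
      · rw [if_pos h6, if_pos (this.2 h6)]
      · rw [if_neg h6, if_neg (fun h => h6 (this.1 h))]
    · rw [if_neg (fun h => hc (hiff.1 h))]
      have h6 : RI a b (pz z) n = 0 := by
        unfold RI
        rw [if_neg]
        intro h
        exact hc fun p hp => h p (filter_subset _ _ hp)
      rw [h6]; simp
  rw [e2]
  refine hfin.trans ?_
  calc (M : ℝ) * (N / ℓ ^ (U + 1)) ≤ ℓ * (N / ℓ ^ (U + 1)) := mul_le_mul_of_nonneg_right hMℓ (by positivity)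
    _ = N / ℓ ^ U := by rw [pow_succ]; field_simp


/-- `α` is not close to a fraction with a small denominator -/
def Minor (B N : ℕ) (α : ℝ) : Prop := ∀ q : ℕ, 1 ≤ q → (q : ℝ) ≤ Real.log N ^ B → ∀ c : ℤ, Real.log N ^ B / N < |q * α - c|

lemma Minor.shift {B N : ℕ} {α : ℝ} (h : Minor (B + 1) N α) (hN : 1 ≤ Real.log N) (M t : ℕ) (hM : 1 ≤ M) (hMℓ : (M : ℝ) ≤ Real.log N) :
    Minor B N (α + t / M) := by
  intro q hq1 hq2 c
  have hM0 : (0 : ℝ) < M := by exact_mod_cast hM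
  have hN0 : (0 : ℝ) < N := by
    rcases Nat.eq_zero_or_pos N with h0 | h0
    · rw [h0] at hN; simp at hN; linarith
    · exact_mod_cast h0
  have h1 := h (q * M) (Nat.mul_pos hq1 hM) (by
    push_cast
    rw [pow_succ]
    exact mul_le_mul hq2 hMℓ hM0.le (by positivity)) (c * M - q * t)
  have e : (((q * M : ℕ) : ℝ)) * α - ((c * M - q * t : ℤ) : ℝ) = M * (q * (α + t / M) - c) := by
    push_cast; field_simp; ring
  rw [e, abs_mul, abs_of_pos hM0] at h1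
  have h2 : Real.log N ^ (B + 1) / N = Real.log N * (Real.log N ^ B / N) := by rw [pow_succ]; ring
  rw [h2] at h1
  have h3 : (M : ℝ) * |q * (α + t / M) - c| ≤ Real.log N * |q * (α + t / M) - c| := mul_le_mul_of_nonneg_right hMℓ (abs_nonneg _)
  exact lt_of_mul_lt_mul_left (h1.trans_le h3) (by linarith)

lemma Minor.mul {A B N : ℕ} {α : ℝ} (h : Minor (B + A) N α) (hN : 1 ≤ Real.log N) (m : ℕ) (hm : 1 ≤ m) (hmℓ : (m : ℝ) ≤ Real.log N ^ A) :
    Minor B N (m * α) := by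
  intro q hq1 hq2 c
  have hN0 : (0 : ℝ) < N := by
    rcases Nat.eq_zero_or_pos N with h0 | h0
    · rw [h0] at hN; simp at hN; linarith
    · exact_mod_cast h0
  have h1 := h (q * m) (Nat.mul_pos hq1 hm) (by
    push_cast
    rw [pow_add]
    exact mul_le_mul hq2 hmℓ (Nat.cast_nonneg _) (by positivity)) c
  have e : (((q * m : ℕ) : ℝ)) * α - (c : ℝ) = q * (m * α) - c := by push_cast; ring
  rw [e] at h1
  refine lt_of_le_of_lt ?_ h1
  apply div_le_div_of_nonneg_right _ hN0.le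
  exact pow_le_pow_right₀ hN (by omega)

lemma Minor.mono {B B' N : ℕ} {α : ℝ} (h : Minor B' N α) (hN : 1 ≤ Real.log N) (hB : B ≤ B') : Minor B N α := by
  intro q hq1 hq2 c
  have hN0 : (0 : ℝ) < N := by
    rcases Nat.eq_zero_or_pos N with h0 | h0
    · rw [h0] at hN; simp at hN; linarith
    · exact_mod_cast h0
  have h5 := pow_le_pow_right₀ hN hB
  refine lt_of_le_of_lt ?_ (h q hq1 (hq2.trans h5) c)
  exact div_le_div_of_nonneg_right h5 hN0.le

lemma Minor.dirichlet {B N : ℕ} {α : ℝ} (h : Minor B N α) (hN : 1 ≤ Real.log N) (h2 : 2 * Real.log N ^ B ≤ N) :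
    ∃ (q : ℕ) (c : ℤ), Real.log N ^ B ≤ q ∧ (q : ℝ) ≤ N / Real.log N ^ B ∧ IsCoprime c (q : ℤ) ∧ |α - c / q| ≤ 1 / (q : ℝ) ^ 2 := by
  set L := Real.log N with hLd
  have hLB0 : 0 < L ^ B := by positivity
  have hLB1 : 1 ≤ L ^ B := one_le_pow₀ hN
  have hN0 : (0 : ℝ) < N := by linarith
  set Q : ℕ := ⌊(N : ℝ) / L ^ B⌋₊ with hQ
  have hNLB : 2 ≤ (N : ℝ) / L ^ B := by rw [le_div_iff₀ hLB0]; exact h2
  have hQpos : 0 < Q := by
    rw [hQ, Nat.floor_pos]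
    linarith
  obtain ⟨r, hr1, hr2⟩ := Real.exists_rat_abs_sub_le_and_den_le α hQpos
  set q : ℕ := r.den with hq
  have hq1 : 1 ≤ q := r.den_pos
  have hq0 : (0 : ℝ) < q := by exact_mod_cast hq1
  have hrq : ((r : ℚ) : ℝ) = (r.num : ℝ) / q := by
    rw [hq]; exact_mod_cast (Rat.num_div_den r).symm
  rw [hrq] at hr1
  have hcop : IsCoprime r.num (q : ℤ) := by
    rw [Int.isCoprime_iff_gcd_eq_one]
    have := r.reduced
    rw [Nat.Coprime] at this
    rw [Int.gcd]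
    simpa using this
  have hqQ : (q : ℝ) ≤ N / L ^ B := by
    have h1 : (q : ℝ) ≤ Q := by exact_mod_cast hr2
    exact h1.trans (Nat.floor_le (by positivity))
  refine ⟨q, r.num, ?_, hqQ, hcop, ?_⟩
  · by_contra hlt
    push Not at hlt
    have h3 := h q hq1 hlt.le r.num
    have h4 : |(q : ℝ) * α - r.num| = q * |α - r.num / q| := by
      rw [← abs_of_pos hq0, ← abs_mul, abs_of_pos hq0]
      congr 1
      field_simp
    rw [h4] at h3
    have h5 : (q : ℝ) * |α - r.num / q| ≤ q * (1 / (((Q : ℝ) + 1) * q)) := mul_le_mul_of_nonneg_left hr1 hq0.le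
    have h6 : (q : ℝ) * (1 / (((Q : ℝ) + 1) * q)) = 1 / ((Q : ℝ) + 1) := by field_simp
    have h7 : (N : ℝ) / L ^ B < Q + 1 := Nat.lt_floor_add_one _
    have h8 : 1 / ((Q : ℝ) + 1) ≤ L ^ B / N := by
      rw [div_le_div_iff₀ (by positivity) hN0]
      rw [div_lt_iff₀ hLB0] at h7
      linarith
    linarith
  · refine hr1.trans ?_
    rw [pow_two]
    apply one_div_le_one_div_of_le (by positivity)
    apply mul_le_mul_of_nonneg_right _ hq0.le
    have h1 : (q : ℝ) ≤ Q := by exact_mod_cast hr2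
    linarith

/-- primes with weights at minor frequencies -/
theorem minor_R (k U : ℕ) : ∃ B : ℕ, ∀ E : ℕ, ∃ N0 : ℕ, ∀ N : ℕ, N0 ≤ N → ∀ z : ℕ, 1 ≤ z →
    (z : ℝ) ≤ Real.log N ^ E → ∀ (a b : Fin k → ℤ) (W : ℕ) (𝒟 : Finset ℕ) (C : ℕ → ℝ),
    1 ≤ W → W ^ 32 ≤ N → Adm b W 𝒟 C → (∀ D ∈ 𝒟, ∀ p, p.Prime → p ∣ D → z < p) → (∏ j, b j) ≠ 0 →
    ((∏ j, b j).natAbs : ℝ) ≤ Real.log N → ∀ α : ℝ, Minor B N α →
    ‖∑ n ∈ Icc 1 N, (((ArithmeticFunction.vonMangoldt n : ℝ) * (RI a b (pz z) n * WW a b 𝒟 C n) : ℝ) : ℂ) * ee ((n : ℝ) * α)‖ ≤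
      N / Real.log N ^ U := by
  obtain ⟨B, m1, h1⟩ := minor_W k (U + 2)
  refine ⟨B + 1, fun E => ?_⟩
  obtain ⟨m2, h2⟩ := sup_Rf k U E
  obtain ⟨m3, h3⟩ := ev_log' (B + 1) 2
  obtain ⟨m4, h4⟩ := ev_L' 2
  refine ⟨max (max m1 m2) (max m3 (max m4 4)), fun N hN z hz hz2 a b W 𝒟 C hW hWN hAdm h𝒟 hb0 hbN α hα => ?_⟩
  have a1 := h1 N (le_trans (le_trans (le_max_left _ _) (le_max_left _ _)) hN)
  have a2 := h2 N (le_trans (le_trans (le_max_right _ _) (le_max_left _ _)) hN) z hz hz2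
  have a3 := h3 N (le_trans (le_trans (le_max_left _ _) (le_max_right _ _)) hN)
  have hL := h4 N (le_trans (le_trans (le_trans (le_max_left _ _) (le_max_right _ _)) (le_max_right _ _)) hN)
  have hN4 : 4 ≤ N := le_trans (le_trans (le_trans (le_max_right _ _) (le_max_right _ _)) (le_max_right _ _)) hN
  have hNr : (4 : ℝ) ≤ N := by exact_mod_cast hN4
  have hsN : √(N : ℝ) ≤ N := by
    rw [Real.sqrt_le_left (by positivity)]; nlinarith
  set ℓ := Real.log N with hℓ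
  have hℓ1 : 1 ≤ ℓ := by linarith
  have hBN : 2 * ℓ ^ B ≤ N := by
    have : ℓ ^ B ≤ ℓ ^ (B + 1) := pow_le_pow_right₀ hℓ1 (by omega)
    linarith
  refine a2 (fun n => (ArithmeticFunction.vonMangoldt n : ℝ)) (fun n hn => by
    rw [mem_Icc] at hn
    rw [abs_of_nonneg ArithmeticFunction.vonMangoldt_nonneg]
    refine ArithmeticFunction.vonMangoldt_le_log.trans ?_
    have : Real.log n ≤ ℓ := Real.log_le_log (by exact_mod_cast hn.1) (by exact_mod_cast hn.2)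
    linarith) a b W 𝒟 C hW hWN hAdm h𝒟 hb0 hbN α (fun M hM hMℓ t ht W' 𝒟' C' hW' hW'N hAdm' => ?_)
  have hmin := hα.shift hℓ1 M t hM hMℓ
  obtain ⟨q, c, q1, q2, q3, q4⟩ := hmin.dirichlet hℓ1 hBN
  have := a1 a b W' 𝒟' C' hW' hW'N hAdm' q q1 q2 c q3 (α + t / M) q4
  refine le_trans (le_of_eq ?_) this
  congr 1
  apply sum_congr rfl; intro n _
  push_cast; ring

end Pool.Agent.H76.TB
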