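import Mathlib
import Pool.Agent.H76.TB.D2
import Pool.Graph.R_seed8.R485.Trans.Saw

/-! Weighted equidistribution modulo one. -/

set_option autoImplicit false

open Finset Filter

namespace Pool.Agent.H76.TB

open Pool.Agent.H469R2.NK (e norm_e e_add)
open Pool.Agent.W565.MOFS (P2 cos_sum saw_lower saw_upper re_e norm_e_sub_one)
open Pool.Agent.H807R2.Dav (ee norm_ee ee_add ee_eq)

/-- the differences of `P2`, with weights -/
theorem diff_boundw {ι : Type} (S : Finset ι) (w : ι → ℝ) (hw : ∀ n ∈ S, 0 ≤ w n) (x : ι → ℝ) (δ : ℝ) (K : ℕ) (hK : 1 ≤ K) :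
    |∑ n ∈ S, w n * (P2 (Int.fract (x n + δ)) - P2 (Int.fract (x n)))| ≤
      1 / Real.pi ^ 2 * (∑ h ∈ Icc 1 K, 2 * Real.pi * |δ| / h * ‖∑ n ∈ S, (w n : ℂ) * e (h * x n)‖ +
        2 * (∑ n ∈ S, w n) / K) := by
  set T : ℝ := ∑ n ∈ S, w n with hT
  set B : ℝ := ∑ h ∈ Icc 1 K, 2 * Real.pi * |δ| / h * ‖∑ n ∈ S, (w n : ℂ) * e (h * x n)‖ +
        2 * T / K with hB
  have hT0 : 0 ≤ T := sum_nonneg hw
  let f : ℕ → ℝ := fun h => ∑ n ∈ S, w n * (1 / (h : ℝ) ^ 2 * Real.cos (2 * Real.pi * h * (x n + δ)) -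
    1 / (h : ℝ) ^ 2 * Real.cos (2 * Real.pi * h * x n))
  have hf : HasSum f (∑ n ∈ S, w n * (Real.pi ^ 2 * P2 (Int.fract (x n + δ)) -
      Real.pi ^ 2 * P2 (Int.fract (x n)))) :=
    hasSum_sum fun n _ => ((cos_sum (x n + δ)).sub (cos_sum (x n))).mul_left (w n)
  have hf0 : f 0 = 0 := by simp [f]
  have hf1 : ∀ h : ℕ, 1 ≤ h → |f h| ≤ 2 * Real.pi * |δ| / h * ‖∑ n ∈ S, (w n : ℂ) * e (h * x n)‖ := by
    intro h hh
    have hh0 : (0 : ℝ) < h := by exact_mod_cast hh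
    have e1 : f h = 1 / (h : ℝ) ^ 2 * ((e (h * δ) - 1) * ∑ n ∈ S, (w n : ℂ) * e (h * x n)).re := by
      simp only [f]
      rw [mul_sum, Complex.re_sum, mul_sum]
      refine sum_congr rfl fun n _ => ?_
      have e2 : (e (h * δ) - 1) * ((w n : ℂ) * e (h * x n)) = (w n : ℂ) * (e (h * (x n + δ)) - e (h * x n)) := by
        rw [mul_add, e_add]; ring
      rw [e2, Complex.re_ofReal_mul, Complex.sub_re, re_e, re_e]
      ring_nf
    rw [e1, abs_mul, abs_of_pos (by positivity : (0 : ℝ) < 1 / (h : ℝ) ^ 2)]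
    have h2 : |((e (h * δ) - 1) * ∑ n ∈ S, (w n : ℂ) * e (h * x n)).re| ≤
        (2 * Real.pi * (h * |δ|)) * ‖∑ n ∈ S, (w n : ℂ) * e (h * x n)‖ := by
      refine (Complex.abs_re_le_norm _).trans ?_
      rw [norm_mul]
      refine mul_le_mul_of_nonneg_right ?_ (norm_nonneg _)
      refine (norm_e_sub_one _).trans ?_
      rw [abs_mul, abs_of_pos hh0]
    calc 1 / (h : ℝ) ^ 2 * |((e (h * δ) - 1) * ∑ n ∈ S, (w n : ℂ) * e (h * x n)).re|
        ≤ 1 / (h : ℝ) ^ 2 * ((2 * Real.pi * (h * |δ|)) * ‖∑ n ∈ S, (w n : ℂ) * e (h * x n)‖) := by gcongr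
      _ = _ := by field_simp
  have hf2 : ∀ h : ℕ, |f h| ≤ ((h : ℝ) ^ 2)⁻¹ * (2 * T) := by
    intro h
    refine (abs_sum_le_sum_abs _ _).trans ?_
    have h2 : ∀ n ∈ S, |w n * (1 / (h : ℝ) ^ 2 * Real.cos (2 * Real.pi * h * (x n + δ)) -
        1 / (h : ℝ) ^ 2 * Real.cos (2 * Real.pi * h * x n))| ≤ w n * (((h : ℝ) ^ 2)⁻¹ * 2) := by
      intro n hn
      rw [abs_mul, abs_of_nonneg (hw n hn)]
      apply mul_le_mul_of_nonneg_left _ (hw n hn)
      rw [← mul_sub, abs_mul, abs_of_nonneg (by positivity : (0 : ℝ) ≤ 1 / (h : ℝ) ^ 2), one_div]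
      refine mul_le_mul_of_nonneg_left ?_ (by positivity)
      have h3 := Real.abs_cos_le_one (2 * Real.pi * h * (x n + δ))
      have h4 := Real.abs_cos_le_one (2 * Real.pi * h * x n)
      have := abs_sub (Real.cos (2 * Real.pi * h * (x n + δ))) (Real.cos (2 * Real.pi * h * x n))
      linarith
    refine (sum_le_sum h2).trans ?_
    rw [← sum_mul, ← hT]
    apply le_of_eq; ring
  have hK0 : (0 : ℝ) < K := by exact_mod_cast hK
  have hpart : ∀ M : ℕ, |∑ h ∈ range M, f h| ≤ B := by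
    intro M
    refine (abs_sum_le_sum_abs _ _).trans ?_
    have hM : range M ⊆ insert 0 (Icc 1 K ∪ Ioc K (max K M)) := by
      intro h hh
      rw [mem_range] at hh
      rw [mem_insert, mem_union, mem_Icc, mem_Ioc]
      by_cases h1 : h = 0
      · exact Or.inl h1
      · by_cases h2 : h ≤ K
        · exact Or.inr (Or.inl ⟨by omega, h2⟩)
        · exact Or.inr (Or.inr ⟨by omega, le_max_of_le_right hh.le⟩)
    refine (sum_le_sum_of_subset_of_nonneg hM (fun _ _ _ => abs_nonneg _)).trans ?_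
    have h0 : 0 ∉ Icc 1 K ∪ Ioc K (max K M) := by
      rw [mem_union, mem_Icc, mem_Ioc]; omega
    have hdisj : Disjoint (Icc 1 K) (Ioc K (max K M)) := by
      rw [disjoint_left]
      intro a ha ha'
      rw [mem_Icc] at ha
      rw [mem_Ioc] at ha'
      omega
    rw [sum_insert h0, hf0, abs_zero, zero_add, sum_union hdisj, hB]
    refine add_le_add (sum_le_sum fun h hh => hf1 h (mem_Icc.1 hh).1) ?_
    refine (sum_le_sum fun h _ => hf2 h).trans ?_
    rw [← sum_mul]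
    have h5 := sum_Ioc_inv_sq_le_sub (α := ℝ) (k := K) (n := max K M) (by omega) (le_max_left _ _)
    have h6 : (0 : ℝ) ≤ ((max K M : ℕ) : ℝ)⁻¹ := by positivity
    calc (∑ h ∈ Ioc K (max K M), ((h : ℝ) ^ 2)⁻¹) * (2 * T)
        ≤ (K : ℝ)⁻¹ * (2 * T) := by
          refine mul_le_mul_of_nonneg_right ?_ (by positivity)
          linarith
      _ = 2 * T / K := by rw [div_eq_mul_inv]; ring
  have hlim : |∑ n ∈ S, w n * (Real.pi ^ 2 * P2 (Int.fract (x n + δ)) -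
      Real.pi ^ 2 * P2 (Int.fract (x n)))| ≤ B :=
    le_of_tendsto (hf.tendsto_sum_nat.abs) (Eventually.of_forall hpart)
  have hpi : (0 : ℝ) < Real.pi ^ 2 := by positivity
  have e3 : ∑ n ∈ S, w n * (P2 (Int.fract (x n + δ)) - P2 (Int.fract (x n))) = 1 / Real.pi ^ 2 *
      ∑ n ∈ S, w n * (Real.pi ^ 2 * P2 (Int.fract (x n + δ)) - Real.pi ^ 2 * P2 (Int.fract (x n))) := by
    rw [mul_sum]
    refine sum_congr rfl fun n _ => ?_
    field_simp
  rw [e3, abs_mul, abs_of_pos (by positivity : (0 : ℝ) < 1 / Real.pi ^ 2)]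
  exact mul_le_mul_of_nonneg_left hlim (by positivity)

/-- an Erdos-Turan type inequality for the sawtooth function, with weights -/
theorem saw_boundw {ι : Type} (S : Finset ι) (w : ι → ℝ) (hw : ∀ n ∈ S, 0 ≤ w n) (x : ι → ℝ) (K : ℕ) (hK : 1 ≤ K) (δ : ℝ) (hδ0 : 0 < δ)
    (hδ1 : δ ≤ 1) :
    |∑ n ∈ S, w n * (Int.fract (x n) - 1 / 2)| ≤
      ∑ h ∈ Icc 1 K, ‖∑ n ∈ S, (w n : ℂ) * e (h * x n)‖ / h + (∑ n ∈ S, w n) / (K * δ) + (∑ n ∈ S, w n) * δ := by
  have hK0 : (0 : ℝ) < K := by exact_mod_cast hK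
  set T : ℝ := ∑ n ∈ S, w n with hT
  have hT0 : 0 ≤ T := sum_nonneg hw
  set D : ℝ := 1 / Real.pi ^ 2 * (∑ h ∈ Icc 1 K, 2 * Real.pi * δ / h *
    ‖∑ n ∈ S, (w n : ℂ) * e (h * x n)‖ + 2 * T / K) with hD
  have hu : |∑ n ∈ S, w n * (P2 (Int.fract (x n + δ)) - P2 (Int.fract (x n)))| ≤ D := by
    have := diff_boundw S w hw x δ K hK
    rwa [abs_of_pos hδ0] at this
  have hl : |∑ n ∈ S, w n * (P2 (Int.fract (x n + -δ)) - P2 (Int.fract (x n)))| ≤ D := by
    have := diff_boundw S w hw x (-δ) K hK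
    rwa [abs_neg, abs_of_pos hδ0] at this
  have h1 : ∑ n ∈ S, w n * (Int.fract (x n) - 1 / 2) ≤ D / (2 * δ) + T * (δ / 2) := by
    have h2 : ∑ n ∈ S, w n * (Int.fract (x n) - 1 / 2) ≤
        ∑ n ∈ S, ((w n * (P2 (Int.fract (x n)) - P2 (Int.fract (x n - δ)))) / (2 * δ) + w n * (δ / 2)) :=
      sum_le_sum fun n hn => by
        have := mul_le_mul_of_nonneg_left (saw_upper (x n) δ hδ0 hδ1) (hw n hn)
        refine this.trans (le_of_eq ?_)
        ring
    rw [sum_add_distrib, ← sum_div, ← sum_mul, ← hT] at h2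
    have h3 : ∑ n ∈ S, w n * (P2 (Int.fract (x n)) - P2 (Int.fract (x n - δ))) ≤ D := by
      have h4 := (abs_le.1 hl).1
      have h5 : ∑ n ∈ S, w n * (P2 (Int.fract (x n)) - P2 (Int.fract (x n - δ))) =
          -∑ n ∈ S, w n * (P2 (Int.fract (x n + -δ)) - P2 (Int.fract (x n))) := by
        rw [← sum_neg_distrib]
        refine sum_congr rfl fun n _ => ?_
        rw [sub_eq_add_neg (x n) δ]; ring
      rw [h5]; linarith
    have h6 : (∑ n ∈ S, w n * (P2 (Int.fract (x n)) - P2 (Int.fract (x n - δ)))) / (2 * δ) ≤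
        D / (2 * δ) := by gcongr
    linarith
  have h2 : -(D / (2 * δ) + T * (δ / 2)) ≤ ∑ n ∈ S, w n * (Int.fract (x n) - 1 / 2) := by
    have h2 : ∑ n ∈ S, ((w n * (P2 (Int.fract (x n + δ)) - P2 (Int.fract (x n)))) / (2 * δ) - w n * (δ / 2)) ≤
        ∑ n ∈ S, w n * (Int.fract (x n) - 1 / 2) :=
      sum_le_sum fun n hn => by
        have := mul_le_mul_of_nonneg_left (saw_lower (x n) δ hδ0 hδ1) (hw n hn)
        refine le_trans (le_of_eq ?_) this
        ring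
    rw [sum_sub_distrib, ← sum_div, ← sum_mul, ← hT] at h2
    have h6 : -D / (2 * δ) ≤
        (∑ n ∈ S, w n * (P2 (Int.fract (x n + δ)) - P2 (Int.fract (x n)))) / (2 * δ) := by
      have := (abs_le.1 hu).1
      gcongr
    have h7 : -D / (2 * δ) = -(D / (2 * δ)) := neg_div _ _
    linarith
  have h3 : D / (2 * δ) ≤ ∑ h ∈ Icc 1 K, ‖∑ n ∈ S, (w n : ℂ) * e (h * x n)‖ / h + T / (K * δ) := by
    have hpi : 3 < Real.pi := Real.pi_gt_three
    have e1 : D / (2 * δ) = 1 / Real.pi * ∑ h ∈ Icc 1 K, ‖∑ n ∈ S, (w n : ℂ) * e (h * x n)‖ / h +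
        1 / Real.pi ^ 2 * (T / (K * δ)) := by
      rw [hD, mul_add, add_div]
      congr 1
      · rw [mul_sum, sum_div, mul_sum]
        refine sum_congr rfl fun h hh => ?_
        have : (h : ℝ) ≠ 0 := by
          have := (mem_Icc.1 hh).1
          positivity
        field_simp
      · field_simp
    rw [e1]
    have e2 : 1 / Real.pi ≤ 1 := by rw [div_le_one (by positivity)]; linarith
    have e3 : 1 / Real.pi ^ 2 ≤ 1 := by rw [div_le_one (by positivity)]; nlinarith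
    have e4 : 0 ≤ ∑ h ∈ Icc 1 K, ‖∑ n ∈ S, (w n : ℂ) * e (h * x n)‖ / h :=
      sum_nonneg fun h _ => by positivity
    have e5 : 0 ≤ T / (K * δ) := by positivity
    nlinarith
  have h4 : T * (δ / 2) ≤ T * δ := mul_le_mul_of_nonneg_left (by linarith) hT0
  rw [abs_le]
  constructor <;> linarith

/-- weighted counts in arcs -/
theorem arc_w (N : ℕ) (w : ℕ → ℝ) (hw : ∀ n ∈ Icc 1 N, 0 ≤ w n) (T : ℝ) (hT : ∑ n ∈ Icc 1 N, w n ≤ T) (α β c : ℝ) (hc0 : 0 < c) (hc1 : c ≤ 1)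
    (K : ℕ) (hK : 1 ≤ K) (δ : ℝ) (hδ0 : 0 < δ) (hδ1 : δ ≤ 1) (E : ℝ)
    (hE : ∀ h : ℕ, 1 ≤ h → h ≤ K → ‖∑ n ∈ Icc 1 N, (w n : ℂ) * ee ((n : ℝ) * (h * α))‖ ≤ E) :
    |∑ n ∈ Icc 1 N, w n * (if Int.fract (α * n + β) < c then 1 else 0) - c * ∑ n ∈ Icc 1 N, w n| ≤ 2 * (K * E + T / (K * δ) + T * δ) := by
  have hK0 : (0 : ℝ) < K := by exact_mod_cast hK
  have hE0 : 0 ≤ E := (norm_nonneg _).trans (hE 1 le_rfl hK)
  have hW0 : 0 ≤ ∑ n ∈ Icc 1 N, w n := sum_nonneg hw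
  have key : ∀ γ : ℝ, |∑ n ∈ Icc 1 N, w n * (Int.fract (α * n + γ) - 1 / 2)| ≤ K * E + T / (K * δ) + T * δ := by
    intro γ
    refine (saw_boundw (Icc 1 N) w hw (fun n => α * n + γ) K hK δ hδ0 hδ1).trans ?_
    apply add_le_add (add_le_add _ _)
    · exact mul_le_mul_of_nonneg_right hT hδ0.le
    · have : ∀ h ∈ Icc 1 K, ‖∑ n ∈ Icc 1 N, (w n : ℂ) * e (h * (α * n + γ))‖ / h ≤ E := by
        intro h hh
        rw [mem_Icc] at hh
        have h1 : (1 : ℝ) ≤ h := by exact_mod_cast hh.1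
        have h2 : ∑ n ∈ Icc 1 N, (w n : ℂ) * e (h * (α * n + γ)) = e (h * γ) * ∑ n ∈ Icc 1 N, (w n : ℂ) * ee ((n : ℝ) * (h * α)) := by
          rw [mul_sum]
          apply sum_congr rfl; intro n _
          have h3 : ee ((n : ℝ) * (h * α)) = e ((n : ℝ) * (h * α)) := ee_eq _
          rw [h3]
          have h4 : e ((h : ℝ) * (α * n + γ)) = e (h * γ) * e ((n : ℝ) * (h * α)) := by
            rw [← e_add]; congr 1; ring
          rw [h4]; ring
        rw [h2, norm_mul, norm_e, one_mul]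
        refine (div_le_self (norm_nonneg _) h1).trans (hE h hh.1 hh.2)
      calc _ ≤ ∑ _h ∈ Icc 1 K, E := sum_le_sum this
        _ = K * E := by rw [sum_const, Nat.card_Icc, nsmul_eq_mul]; simp
    · exact div_le_div_of_nonneg_right hT (by positivity)
  have hind : ∀ n : ℕ, w n * (if Int.fract (α * n + β) < c then (1 : ℝ) else 0) - c * w n =
      w n * (Int.fract (α * n + (β - c)) - 1 / 2) - w n * (Int.fract (α * n + β) - 1 / 2) := by
    intro n
    have h1 := Pool.Agent.R485.Trans.indicator_eq (α * n + β) 0 c le_rfl hc0 hc1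
    have h2 : (if (0 : ℝ) ≤ Int.fract (α * n + β) ∧ Int.fract (α * n + β) < c then (1 : ℝ) else 0) =
        (if Int.fract (α * n + β) < c then (1 : ℝ) else 0) := by
      by_cases h : Int.fract (α * n + β) < c
      · rw [if_pos h, if_pos ⟨Int.fract_nonneg _, h⟩]
      · rw [if_neg h, if_neg (fun h' => h h'.2)]
    rw [h2, sub_zero, sub_zero] at h1
    have e1 : α * (n : ℝ) + (β - c) = α * n + β - c := by ring
    rw [e1]
    linear_combination (w n) * h1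
  have e1 : ∑ n ∈ Icc 1 N, w n * (if Int.fract (α * n + β) < c then (1 : ℝ) else 0) - c * ∑ n ∈ Icc 1 N, w n =
      ∑ n ∈ Icc 1 N, w n * (Int.fract (α * n + (β - c)) - 1 / 2) - ∑ n ∈ Icc 1 N, w n * (Int.fract (α * n + β) - 1 / 2) := by
    rw [mul_sum, ← sum_sub_distrib, ← sum_sub_distrib]
    exact sum_congr rfl fun n _ => hind n
  rw [e1]
  refine (abs_sub _ _).trans ?_
  have := key (β - c)
  have := key β
  linarith

end Pool.Agent.H76.TB
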