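import Mathlib
import Pool.Agent.H76.TB.D1
import Pool.Agent.H76.TB.D3

/-! Primes with rough values in short arcs. -/

set_option autoImplicit false

open Finset

namespace Pool.Agent.H76.TB

open Pool.Agent.H807R2.Dav (ee norm_ee ee_add ee_eq)
open Pool.Agent.H373R2.T7 (ev_log' ev_L' pz mem_pz Vz Vz_pos lamz lamz_nonneg Vz_inv_small)
open Pool.Agent.H76.VG (hh hh_nonneg hh_sum vm_split lp_nonneg vm_le)
open Pool.Agent.Helper112.LP.Kbh (bh_inv_ge)

variable {k : ℕ}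

/-- the local factor in one variable -/
noncomputable def sg1 (a b : Fin k → ℤ) (p : ℕ) : ℝ := (1 - 1 / (p : ℝ))⁻¹ * (1 - (nb1 a b p : ℝ) / p)

/-- the main term -/
noncomputable def MT1 (N y : ℕ) (a b : Fin k → ℤ) : ℝ := N * ∏ p ∈ pz y, sg1 a b p

lemma M1_eq (N z : ℕ) (a b : Fin k → ℤ) : (N : ℝ) * ((Vz z)⁻¹ * ∏ p ∈ pz z, (1 - (nb1 a b p : ℝ) / p)) = MT1 N z a b := by
  unfold MT1 sg1 Vz
  rw [prod_mul_distrib, prod_inv_distrib]

lemma nb1_le_p (a b : Fin k → ℤ) (p : ℕ) : nb1 a b p ≤ p := by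
  unfold nb1
  have := card_filter_le (range p) (fun x => bd1 a b p x)
  rwa [card_range] at this

lemma sg1_nonneg (a b : Fin k → ℤ) (p : ℕ) (hp : p.Prime) : 0 ≤ sg1 a b p := by
  unfold sg1
  have hp0 : (0 : ℝ) < p := by exact_mod_cast hp.pos
  have h6 : (nb1 a b p : ℝ) / p ≤ 1 := by
    rw [div_le_one hp0]
    exact_mod_cast nb1_le_p a b p
  have h7 : 1 / (p : ℝ) ≤ 1 := by rw [div_le_one hp0]; exact_mod_cast hp.one_lt.le
  exact mul_nonneg (inv_nonneg.2 (by linarith)) (by linarith)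

lemma MT1_nonneg (N y : ℕ) (a b : Fin k → ℤ) : 0 ≤ MT1 N y a b := by
  unfold MT1
  exact mul_nonneg (Nat.cast_nonneg _) (prod_nonneg fun p hp => sg1_nonneg _ _ p (mem_pz.1 hp).2)

lemma sg1_close (a b : Fin k → ℤ) (p : ℕ) (hp : p.Prime) (hb : ¬ (p : ℤ) ∣ ∏ j, b j) (hpk : 2 * 2 ^ k + 2 ≤ p) :
    |sg1 a b p - (1 - ((RR a b p).card : ℝ) / p)| ≤ 4 * 2 ^ k / p ^ 2 * (1 - ((RR a b p).card : ℝ) / p) := by
  have h1 : nb1 a b p = (RR a b p).card + 1 := kap (fun _ => a) (fun _ => b) p hp 0 hb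
  have hr := RR_prime_le a hp hb
  have hr0 : (0 : ℝ) ≤ ((RR a b p).card : ℝ) := Nat.cast_nonneg _
  have hpk' : (2 : ℝ) * 2 ^ k + 2 ≤ p := by exact_mod_cast hpk
  have hK : (1 : ℝ) ≤ 2 ^ k := one_le_pow₀ (by norm_num)
  unfold sg1
  rw [h1]
  push_cast
  set r := ((RR a b p).card : ℝ) with hrd
  set K : ℝ := 2 ^ k with hKd
  set P : ℝ := (p : ℝ) with hP
  have hp0 : 0 < P := by linarith
  have hp1 : 0 < P - 1 := by linarith
  have e1 : (1 - 1 / P)⁻¹ * (1 - (r + 1) / P) - (1 - r / P) = -(r / (P * (P - 1))) := by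
    have : (1 - 1 / P)⁻¹ = P / (P - 1) := by
      rw [inv_eq_one_div]
      field_simp
    rw [this]
    field_simp
    ring
  rw [e1, abs_neg, abs_of_nonneg (by positivity)]
  have h2 : 1 / 2 ≤ 1 - r / P := by
    have : r / P ≤ 1 / 2 := by rw [div_le_iff₀ hp0]; linarith
    linarith
  calc r / (P * (P - 1)) ≤ 2 * K / P ^ 2 := by
        rw [div_le_div_iff₀ (by positivity) (by positivity)]
        have h3 : r * P ^ 2 ≤ K * P ^ 2 := mul_le_mul_of_nonneg_right hr (by positivity)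
        have h5 : K * P ^ 2 ≤ 2 * K * (P * (P - 1)) := by nlinarith [mul_nonneg (by linarith : (0 : ℝ) ≤ K) hp0.le]
        linarith
    _ = 4 * K / P ^ 2 * (1 / 2) := by ring
    _ ≤ _ := mul_le_mul_of_nonneg_left h2 (by positivity)

lemma MT1_close (N z y : ℕ) (hzy : z ≤ y) (a b : Fin k → ℤ)
    (hb : ∀ p : ℕ, p.Prime → z < p → ¬ (p : ℤ) ∣ ∏ j, b j) (hz : 8 * 2 ^ k ≤ z) :
    |MT1 N y a b - MT1 N z a b * ∏ p ∈ (Ioc z y).filter Nat.Prime, (1 - ((RR a b p).card : ℝ) / p)| ≤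
      8 * 2 ^ k / z * (MT1 N z a b * ∏ p ∈ (Ioc z y).filter Nat.Prime, (1 - ((RR a b p).card : ℝ) / p)) := by
  have h1 : 1 ≤ 2 ^ k := Nat.one_le_two_pow
  have hz0 : (0 : ℝ) < z := by
    have : 0 < z := by omega
    exact_mod_cast this
  set P := (Ioc z y).filter Nat.Prime with hP
  have hPm : ∀ p ∈ P, p.Prime ∧ z < p := by
    intro p hp
    rw [hP, mem_filter, mem_Ioc] at hp
    exact ⟨hp.2, hp.1.1⟩
  have e1 : MT1 N y a b = MT1 N z a b * ∏ p ∈ P, sg1 a b p := by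
    unfold MT1
    rw [pz_split z y hzy]; ring
  rw [e1, ← mul_sub, abs_mul, abs_of_nonneg (MT1_nonneg _ _ _ _)]
  have hM := MT1_nonneg N z a b
  have hyp : ∀ p ∈ P, 0 < 1 - ((RR a b p).card : ℝ) / p := by
    intro p hp
    obtain ⟨g1, g2⟩ := hPm p hp
    have g3 := RR_prime_le a g1 (hb p g1 g2)
    have hp0 : (0 : ℝ) < p := by exact_mod_cast g1.pos
    have g4 : (2 : ℝ) ^ k < p := by
      have : 2 ^ k < p := by omega
      exact_mod_cast this
    rw [sub_pos, div_lt_one hp0]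
    linarith
  have hsum : ∑ p ∈ P, 4 * 2 ^ k / (p : ℝ) ^ 2 ≤ 4 * 2 ^ k / (z : ℝ) := by
    calc ∑ p ∈ P, 4 * 2 ^ k / (p : ℝ) ^ 2 ≤ ∑ p ∈ Ioc z y, 4 * 2 ^ k / (p : ℝ) ^ 2 :=
          sum_le_sum_of_subset_of_nonneg (filter_subset _ _) (fun _ _ _ => by positivity)
      _ = 4 * 2 ^ k * ∑ p ∈ Ioc z y, ((p : ℝ) ^ 2)⁻¹ := by
          rw [mul_sum]; apply sum_congr rfl; intro p _; rw [div_eq_mul_inv]
      _ ≤ 4 * 2 ^ k * (z : ℝ)⁻¹ := by
          apply mul_le_mul_of_nonneg_left _ (by positivity)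
          have h5 : (∑ i ∈ Ioc z y, ((i : ℝ) ^ 2)⁻¹) ≤ (z : ℝ)⁻¹ - (y : ℝ)⁻¹ := sum_Ioc_inv_sq_le_sub (by omega) hzy
          have h6 : 0 ≤ (y : ℝ)⁻¹ := by positivity
          linarith
      _ = _ := by rw [div_eq_mul_inv]
  have hz' : 4 * 2 ^ k / (z : ℝ) ≤ 1 / 2 := by
    rw [div_le_iff₀ hz0]
    have : ((8 * 2 ^ k : ℕ) : ℝ) ≤ z := by exact_mod_cast hz
    push_cast at this
    linarith
  have := prod_close P (fun p => sg1 a b p) (fun p => 1 - ((RR a b p).card : ℝ) / p)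
    (fun p => 4 * 2 ^ k / (p : ℝ) ^ 2) hyp (fun p hp => by
      obtain ⟨g1, g2⟩ := hPm p hp
      exact sg1_close a b p g1 (hb p g1 g2) (by omega))
    (fun p _ => by positivity) (hsum.trans hz')
  have hY : 0 ≤ ∏ p ∈ P, (1 - ((RR a b p).card : ℝ) / p) := prod_nonneg fun p hp => (hyp p hp).le
  calc MT1 N z a b * |∏ p ∈ P, sg1 a b p - ∏ p ∈ P, (1 - ((RR a b p).card : ℝ) / p)| ≤
        MT1 N z a b * (2 * (4 * 2 ^ k / z) * ∏ p ∈ P, (1 - ((RR a b p).card : ℝ) / p)) := by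
        apply mul_le_mul_of_nonneg_left _ hM
        refine this.trans ?_
        apply mul_le_mul_of_nonneg_right _ hY
        exact mul_le_mul_of_nonneg_left hsum (by norm_num)
    _ = _ := by ring

lemma prod_low1 (k : ℕ) : ∃ c : ℝ, 0 < c ∧ ∀ N y : ℕ, 3 ≤ N → y ≤ N → ∀ (a b : Fin k → ℤ),
    (∀ p : ℕ, p.Prime → nb1 a b p < p) → c / Real.log N ^ (2 * (k + 1)) ≤ ∏ p ∈ pz y, sg1 a b p := by
  obtain ⟨C, hC⟩ := Pool.Agent.Helper256.KM.mertens_inv
  set K : ℕ := k + 1 with hK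
  set p0 : ℕ := 2 * K with hp0
  have hp00 : 0 < p0 := by omega
  have hp0r : (0 : ℝ) < p0 := by exact_mod_cast hp00
  have hbase : (1 : ℝ) / (p0 : ℝ) ≤ 1 := by
    rw [div_le_one (by positivity)]
    exact_mod_cast hp00
  refine ⟨(1 / (p0 : ℝ)) ^ p0 * Real.exp (-(2 * K * C)), by positivity, fun N y hN hy a b hun => ?_⟩
  have hNr : (3 : ℝ) ≤ N := by exact_mod_cast hN
  have hℓ0 : 1 < Real.log N := by
    rw [Real.lt_log_iff_exp_lt (by linarith)]
    exact lt_of_lt_of_le Real.exp_one_lt_d9 (by linarith)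
  have hloc : ∀ p ∈ pz y, (if p ≤ p0 then (1 : ℝ) / (p0 : ℝ) else 1) * Real.exp (-(2 * (K * (1 / (p : ℝ))))) ≤ sg1 a b p := by
    intro p hp
    have hpp := (mem_pz.1 hp).2
    have hp1 : (0 : ℝ) < p := by exact_mod_cast hpp.pos
    have h1p : 1 / (p : ℝ) ≤ 1 / 2 := by
      apply div_le_div_of_nonneg_left (by norm_num) (by norm_num)
      exact_mod_cast hpp.two_le
    have h1p0 : 0 ≤ 1 / (p : ℝ) := by positivity
    have hinv : 1 ≤ (1 - 1 / (p : ℝ))⁻¹ := by
      rw [one_le_inv₀ (by linarith)]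
      linarith
    have hg0 : 0 ≤ 1 - (nb1 a b p : ℝ) / p := by
      have : (nb1 a b p : ℝ) / p ≤ 1 := by
        rw [div_le_one (by positivity)]
        exact_mod_cast nb1_le_p a b p
      linarith
    have hsg : 1 - (nb1 a b p : ℝ) / p ≤ sg1 a b p := by
      unfold sg1
      exact le_mul_of_one_le_left hg0 hinv
    refine le_trans ?_ hsg
    split_ifs with h
    · have g1 : nb1 a b p + 1 ≤ p := hun p hpp
      have g2 : (nb1 a b p : ℝ) + 1 ≤ (p : ℝ) := by exact_mod_cast g1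
      have g3 : 1 / (p : ℝ) ≤ 1 - (nb1 a b p : ℝ) / p := by
        rw [le_sub_iff_add_le, ← add_div, div_le_one (by positivity)]
        linarith
      refine le_trans ?_ g3
      calc (1 : ℝ) / (p0 : ℝ) * Real.exp (-(2 * (K * (1 / (p : ℝ))))) ≤ (1 : ℝ) / (p0 : ℝ) * 1 := by
            apply mul_le_mul_of_nonneg_left _ (by positivity)
            apply Real.exp_le_one_iff.2
            have : 0 ≤ 2 * ((K : ℝ) * (1 / (p : ℝ))) := by positivity
            linarith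
        _ ≤ 1 / (p : ℝ) := by
            rw [mul_one]
            apply div_le_div_of_nonneg_left (by norm_num) (by positivity)
            exact_mod_cast h
    · rw [one_mul]
      have hpb : (p0 : ℝ) ≤ p := by
        have : p0 ≤ p := by omega
        exact_mod_cast this
      have hpb' : 2 * (K : ℝ) ≤ p := by
        rw [hp0] at hpb; push_cast at hpb; exact hpb
      have hx1 : (K : ℝ) * (1 / (p : ℝ)) ≤ 1 / 2 := by
        rw [mul_one_div, div_le_iff₀ hp1]; linarith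
      refine (bh_inv_ge (by positivity) hx1).trans ?_
      have g2 : (nb1 a b p : ℝ) ≤ K := by
        rw [hK]; exact_mod_cast nb1_le a b p hpp (hun p hpp)
      have g3 : (nb1 a b p : ℝ) / p ≤ K * (1 / (p : ℝ)) := by
        rw [mul_one_div]
        exact div_le_div_of_nonneg_right g2 hp1.le
      linarith
  calc (1 / (p0 : ℝ)) ^ p0 * Real.exp (-(2 * K * C)) / Real.log N ^ (2 * (k + 1)) =
        (1 / (p0 : ℝ)) ^ p0 * Real.exp (-(2 * K * (Real.log (Real.log N) + C))) := by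
        rw [show -(2 * (K : ℝ) * (Real.log (Real.log N) + C)) = -(2 * K * C) - ((2 * (k + 1) : ℕ) : ℝ) * Real.log (Real.log N) by
          rw [hK]; push_cast; ring, Real.exp_sub, Real.exp_nat_mul, Real.exp_log (by linarith)]
        ring
    _ ≤ (1 / (p0 : ℝ)) ^ p0 * Real.exp (-(2 * K * ∑ p ∈ pz y, 1 / (p : ℝ))) := by
        apply mul_le_mul_of_nonneg_left _ (by positivity)
        apply Real.exp_le_exp.2
        have h1 := (abs_le.1 (hC N hN)).2
        have h2 : ∑ p ∈ pz y, 1 / (p : ℝ) ≤ ∑ p ∈ (Icc 1 N).filter Nat.Prime, (1 : ℝ) / p := by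
          apply sum_le_sum_of_subset_of_nonneg
          · intro p hp
            rw [mem_pz] at hp
            rw [mem_filter, mem_Icc]
            exact ⟨⟨hp.2.one_lt.le, hp.1.trans hy⟩, hp.2⟩
          · intro p _ _; positivity
        have h3 : ∑ p ∈ pz y, 1 / (p : ℝ) ≤ Real.log (Real.log N) + C := by linarith
        have h4 : (0 : ℝ) ≤ 2 * K := by positivity
        have := mul_le_mul_of_nonneg_left h3 h4
        linarith
    _ ≤ (∏ p ∈ pz y, (if p ≤ p0 then (1 : ℝ) / (p0 : ℝ) else 1)) * Real.exp (-(2 * K * ∑ p ∈ pz y, 1 / (p : ℝ))) := by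
        apply mul_le_mul_of_nonneg_right _ (Real.exp_pos _).le
        rw [prod_ite, prod_const, prod_const_one, mul_one]
        apply pow_le_pow_of_le_one (by positivity) hbase
        calc ((pz y).filter (fun p => p ≤ p0)).card ≤ (Icc 1 p0).card := by
              apply card_le_card
              intro p hp
              rw [mem_filter, mem_pz] at hp
              rw [mem_Icc]
              exact ⟨hp.1.2.one_lt.le, hp.2⟩
          _ = p0 := by rw [Nat.card_Icc]; omega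
    _ = ∏ p ∈ pz y, ((if p ≤ p0 then (1 : ℝ) / (p0 : ℝ) else 1) * Real.exp (-(2 * (K * (1 / (p : ℝ)))))) := by
        rw [prod_mul_distrib, ← Real.exp_sum]
        congr 2
        rw [mul_sum, ← sum_neg_distrib]
        apply sum_congr rfl; intro p _
        ring
    _ ≤ _ := by
        apply prod_le_prod
        · intro p _
          split_ifs <;> positivity
        · exact hloc

end Pool.Agent.H76.TB
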