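import Mathlib
import Pool.Agent.H76.TB.D4

/-! Primes with rough values in short arcs: the main theorem. -/

set_option autoImplicit false

open Finset

namespace Pool.Agent.H76.TB

open Pool.Agent.H807R2.Dav (ee norm_ee ee_add ee_eq)
open Pool.Agent.H373R2.T7 (ev_log' ev_L' pz mem_pz Vz Vz_pos lamz lamz_nonneg Vz_inv_small)
open Pool.Agent.H76.VG (hh hh_nonneg hh_sum vm_split lp_nonneg vm_le)

variable {k : ℕ}

/-- the indicator function of the arc -/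
noncomputable def chi (α γ c : ℝ) (n : ℕ) : ℝ := if Int.fract (α * n + γ) < c then 1 else 0

lemma chi_nonneg (α γ c : ℝ) (n : ℕ) : 0 ≤ chi α γ c n := by unfold chi; split_ifs <;> norm_num

lemma chi_le (α γ c : ℝ) (n : ℕ) : chi α γ c n ≤ 1 := by unfold chi; split_ifs <;> norm_num

/-- sum over one variable -/
noncomputable def SU1 (f : ℕ → ℝ) (N y : ℕ) (a b : Fin k → ℤ) (g : ℕ → ℝ) : ℝ := ∑ n ∈ Icc 1 N, f n * RI a b (pz y) n * g n

lemma fin_num (c M V G δ S TYc TEc TY TE e1 e2 J : ℝ) (hc0 : 0 < c) (hc1 : c ≤ 1) (hM : 0 ≤ M) (hV : 0 ≤ V) (hδ0 : 0 ≤ δ) (hδ1 : δ ≤ 1)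
    (he1 : 0 ≤ e1) (hJ : 0 ≤ J)
    (h1 : V ≤ G) (h2 : G ≤ (1 + δ) * V) (h3 : |TY - M * G| ≤ e1) (h4 : TE ≤ δ * (M * G) + J * e1) (h5 : |TYc - c * TY| ≤ e2)
    (h6 : |TEc - c * TE| ≤ e2) (h7 : S ≤ TYc) (h8 : TYc - S ≤ TEc) :
    |S - c * (M * V)| ≤ δ * (c * (M * V)) + (1 + J) * e1 + 2 * e2 := by
  have hMV : 0 ≤ M * V := mul_nonneg hM hV
  have hMG1 : M * V ≤ M * G := mul_le_mul_of_nonneg_left h1 hM
  have hMG2 : M * G ≤ M * V + δ * (M * V) := by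
    calc M * G ≤ M * ((1 + δ) * V) := mul_le_mul_of_nonneg_left h2 hM
      _ = _ := by ring
  have he2 : 0 ≤ e2 := (abs_nonneg _).trans h5
  have hJe : 0 ≤ J * e1 := mul_nonneg hJ he1
  rw [abs_le] at h3 h5 h6 ⊢
  have a1 : c * TY ≤ c * (M * G + e1) := mul_le_mul_of_nonneg_left (by linarith [h3.2]) hc0.le
  have a2 : c * (M * G - e1) ≤ c * TY := mul_le_mul_of_nonneg_left (by linarith [h3.1]) hc0.le
  have a3 : c * TE ≤ c * (δ * (M * G) + J * e1) := mul_le_mul_of_nonneg_left h4 hc0.le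
  have a4 : c * e1 ≤ e1 := mul_le_of_le_one_left he1 hc1
  have a5 : c * (J * e1) ≤ J * e1 := mul_le_of_le_one_left hJe hc1
  have a6 : c * (M * G) ≤ c * (M * V + δ * (M * V)) := mul_le_mul_of_nonneg_left hMG2 hc0.le
  have a7 : (1 - δ) * (M * V) ≤ (1 - δ) * (M * G) := mul_le_mul_of_nonneg_left hMG1 (by linarith)
  have a8 : c * ((1 - δ) * (M * V)) ≤ c * ((1 - δ) * (M * G)) := mul_le_mul_of_nonneg_left a7 hc0.le
  constructor
  · nlinarith [h5.1, h6.2]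
  · nlinarith [h5.2]

lemma num_a (ℓ N K : ℝ) (A : ℕ) (hℓ : 40 ≤ ℓ) (hN : 0 < N) (hKlow : ℓ ^ (2 * (A + 4)) ≤ K) (hKup : K ≤ ℓ ^ (2 * (A + 4) + 1)) :
    2 * (2 * (K * ((2 * ℓ) * (N / ℓ ^ (2 * (A + 4) + A + 8))) + (N * ℓ ^ 2) / (K * (1 / ℓ ^ (A + 4))) + (N * ℓ ^ 2) * (1 / ℓ ^ (A + 4)))) ≤
      (1 / 2) * (N / ℓ ^ A) := by
  have hℓ0 : 0 < ℓ := by linarith
  obtain ⟨q, hq, hq0⟩ : ∃ q, q = ℓ ^ A ∧ 0 < q := ⟨_, rfl, by positivity⟩
  have e1 : ℓ ^ (2 * (A + 4)) = q ^ 2 * ℓ ^ 8 := by rw [hq, ← pow_mul, ← pow_add]; congr 1; ring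
  have e2 : ℓ ^ (2 * (A + 4) + 1) = q ^ 2 * ℓ ^ 9 := by rw [hq, ← pow_mul, ← pow_add]; congr 1; ring
  have e3 : ℓ ^ (2 * (A + 4) + A + 8) = q ^ 3 * ℓ ^ 16 := by rw [hq, ← pow_mul, ← pow_add]; congr 1; ring
  have e4 : ℓ ^ (A + 4) = q * ℓ ^ 4 := by rw [hq, ← pow_add]
  rw [e1] at hKlow
  rw [e2] at hKup
  rw [e3, e4, ← hq]
  have hK0 : 0 < K := lt_of_lt_of_le (by positivity) hKlow
  have g1 : K * ((2 * ℓ) * (N / (q ^ 3 * ℓ ^ 16))) ≤ (1 / 40) * (N / q) := by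
    calc K * ((2 * ℓ) * (N / (q ^ 3 * ℓ ^ 16))) ≤ (q ^ 2 * ℓ ^ 9) * ((2 * ℓ) * (N / (q ^ 3 * ℓ ^ 16))) := mul_le_mul_of_nonneg_right hKup (by positivity)
      _ = (2 / ℓ ^ 6) * (N / q) := by field_simp
      _ ≤ _ := by
          apply mul_le_mul_of_nonneg_right _ (by positivity)
          rw [div_le_div_iff₀ (by positivity) (by norm_num)]
          have : ℓ ^ 2 ≤ ℓ ^ 6 := pow_le_pow_right₀ (by linarith) (by norm_num)
          nlinarith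
  have g6 : (1 : ℝ) / ℓ ^ 2 ≤ 1 / 40 := by
    apply div_le_div_of_nonneg_left (by norm_num) (by norm_num)
    nlinarith
  have g2 : (N * ℓ ^ 2) / (K * (1 / (q * ℓ ^ 4))) ≤ (1 / 40) * (N / q) := by
    have g3 : q * ℓ ^ 4 ≤ K * (1 / (q * ℓ ^ 4)) := by
      calc q * ℓ ^ 4 = (q ^ 2 * ℓ ^ 8) * (1 / (q * ℓ ^ 4)) := by field_simp
        _ ≤ _ := mul_le_mul_of_nonneg_right hKlow (by positivity)
    calc (N * ℓ ^ 2) / (K * (1 / (q * ℓ ^ 4))) ≤ (N * ℓ ^ 2) / (q * ℓ ^ 4) := div_le_div_of_nonneg_left (by positivity) (by positivity) g3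
      _ = (1 / ℓ ^ 2) * (N / q) := by field_simp
      _ ≤ _ := mul_le_mul_of_nonneg_right g6 (by positivity)
  have g4 : (N * ℓ ^ 2) * (1 / (q * ℓ ^ 4)) ≤ (1 / 40) * (N / q) := by
    calc (N * ℓ ^ 2) * (1 / (q * ℓ ^ 4)) = (1 / ℓ ^ 2) * (N / q) := by field_simp
      _ ≤ _ := mul_le_mul_of_nonneg_right g6 (by positivity)
  have hNq : 0 ≤ N / q := by positivity
  linarith

lemma num_b (ℓ N J : ℝ) (A : ℕ) (hℓ : 40 ≤ ℓ) (hN : 0 < N) (hJ : J ≤ 2 * ℓ) :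
    (1 + J) * (2 * (N / ℓ ^ (2 * (A + 4) + A + 8))) ≤ (1 / 2) * (N / ℓ ^ A) := by
  have hℓ0 : 0 < ℓ := by linarith
  obtain ⟨q, hq, hq0⟩ : ∃ q, q = ℓ ^ A ∧ 0 < q := ⟨_, rfl, by positivity⟩
  have hq1 : 1 ≤ q := by rw [hq]; exact one_le_pow₀ (by linarith)
  have e3 : ℓ ^ (2 * (A + 4) + A + 8) = q ^ 3 * ℓ ^ 16 := by rw [hq, ← pow_mul, ← pow_add]; congr 1; ring
  rw [e3, ← hq]
  calc (1 + J) * (2 * (N / (q ^ 3 * ℓ ^ 16))) ≤ (1 + 2 * ℓ) * (2 * (N / (q ^ 3 * ℓ ^ 16))) := mul_le_mul_of_nonneg_right (by linarith) (by positivity)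
    _ = ((2 + 4 * ℓ) / (q ^ 2 * ℓ ^ 16)) * (N / q) := by field_simp; ring
    _ ≤ (1 / 2) * (N / q) := by
        apply mul_le_mul_of_nonneg_right _ (by positivity)
        rw [div_le_div_iff₀ (by positivity) (by norm_num)]
        have h1 : ℓ ^ 2 ≤ ℓ ^ 16 := pow_le_pow_right₀ (by linarith) (by norm_num)
        have h2 : 1 * ℓ ^ 16 ≤ q ^ 2 * ℓ ^ 16 := mul_le_mul_of_nonneg_right (one_le_pow₀ hq1) (by positivity)
        nlinarith

lemma num_c (T X η : ℝ) (hX : 0 ≤ X) (hη0 : 0 ≤ η) (hη : η ≤ 1 / 4) (h : |T - X| ≤ η * X) :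
    X ≤ 2 * T ∧ |T - X| ≤ 2 * η * T := by
  have h1 := (abs_le.1 h).1
  have h2 : (1 - η) * X ≤ T := by linarith
  have h3 : (3 / 4) * X ≤ (1 - η) * X := mul_le_mul_of_nonneg_right (by linarith) hX
  have h4 : X ≤ 2 * T := by linarith
  refine ⟨h4, h.trans ?_⟩
  calc η * X ≤ η * (2 * T) := mul_le_mul_of_nonneg_left h4 hη0
    _ = _ := by ring

theorem core1 (k : ℕ) : ∃ N1 : ℕ, ∀ A : ℕ, ∃ B₀ : ℕ, ∀ B : ℕ, B₀ ≤ B → ∃ N0 : ℕ, ∀ N : ℕ, N0 ≤ N → ∀ z : ℕ, Real.log N ^ B ≤ z →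
    (z : ℝ) ≤ Real.log N ^ (B + 1) → ∀ β J y : ℕ, N1 ≤ β → y ≤ 2 ^ 2 ^ J → (2 ^ 2 ^ J) ^ (32 * (4 * β + 6)) ≤ N → z ≤ y →
    ∀ (a b : Fin k → ℤ), (∏ j, b j) ≠ 0 → ((∏ j, b j).natAbs : ℝ) ≤ Real.log N → (∀ p : ℕ, p.Prime → nb1 a b p < p) →
    ∀ α : ℝ, Minor B₀ N α → ∀ γ c : ℝ, 0 < c → c ≤ 1 →
    |SU1 (fun n => ArithmeticFunction.vonMangoldt n) N y a b (chi α γ c) - c * (MT1 N z a b *
      ∏ p ∈ (Ioc z y).filter Nat.Prime, (1 - ((RR a b p).card : ℝ) / p))| ≤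
      (1 / 2) ^ β * (c * (MT1 N z a b * ∏ p ∈ (Ioc z y).filter Nat.Prime, (1 - ((RR a b p).card : ℝ) / p))) + N / Real.log N ^ A := by
  classical
  obtain ⟨N1, hN1, hw⟩ := bh_weights k
  refine ⟨N1 + 2, fun A => ?_⟩
  set A' : ℕ := A + 4 with hA'
  set U : ℕ := 2 * A' + A + 8 with hU
  obtain ⟨B1, hB1⟩ := sup_R k U
  obtain ⟨B2, hB2⟩ := minor_R k U
  refine ⟨B1 + B2 + (2 * A' + 1), fun B hB => ?_⟩
  obtain ⟨m1, h1⟩ := hB1 (B + 1)
  obtain ⟨m2, h2⟩ := hB2 (B + 1)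
  obtain ⟨m3, h3⟩ := mlem1 k U (B + 1)
  obtain ⟨m4, h4⟩ := ev_L' (N1 + 40)
  obtain ⟨m5, h5⟩ := Vz_inv_small (B + 1)
  refine ⟨max (max (max m1 m2) m3) (max (max m4 m5) 2), fun N hN z hz1 hz2 β J y hβ hyJ hJN hzy a b hb0 hbN hun α hα γ c hc0 hc1 => ?_⟩
  have hL := h4 N (le_trans (le_trans (le_trans (le_max_left _ _) (le_max_left _ _)) (le_max_right _ _)) hN)
  have a5 := h5 N (le_trans (le_trans (le_trans (le_max_right _ _) (le_max_left _ _)) (le_max_right _ _)) hN) z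
  have hN2 : 2 ≤ N := le_trans (le_trans (le_max_right _ _) (le_max_right _ _)) hN
  have hNr : (2 : ℝ) ≤ N := by exact_mod_cast hN2
  have hN0 : (0 : ℝ) < N := by linarith
  set ℓ := Real.log N with hℓ
  have hN1r : (0 : ℝ) ≤ N1 := Nat.cast_nonneg _
  have hℓ40 : 40 ≤ ℓ := by linarith
  have hℓ1 : 1 ≤ ℓ := by linarith
  have hℓ0 : 0 < ℓ := by linarith
  have hzB1 : ℓ ^ B1 ≤ z := (pow_le_pow_right₀ hℓ1 (by omega)).trans hz1
  have hzℓ : ℓ ≤ z := by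
    refine le_trans ?_ hz1
    calc ℓ = ℓ ^ 1 := (pow_one ℓ).symm
      _ ≤ ℓ ^ B := pow_le_pow_right₀ hℓ1 (by omega)
  have hN1z : N1 ≤ z := by
    have : (N1 : ℝ) ≤ z := by linarith
    exact_mod_cast this
  have hz : 1 ≤ z := by
    have : (1 : ℝ) ≤ z := by linarith
    exact_mod_cast this
  have a1 := h1 N (le_trans (le_trans (le_trans (le_max_left _ _) (le_max_left _ _)) (le_max_left _ _)) hN) z hzB1 hz2
  have a2 := h2 N (le_trans (le_trans (le_trans (le_max_right _ _) (le_max_left _ _)) (le_max_left _ _)) hN) z hz hz2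
  have a3 := h3 N (le_trans (le_trans (le_max_right _ _) (le_max_left _ _)) hN) z hz hz2
  have hVi := a5 hz hz2
  have hVi0 : 0 < (Vz z)⁻¹ := inv_pos.2 (Vz_pos z)
  have hbp : ∀ p : ℕ, p.Prime → z < p → ¬ (p : ℤ) ∣ ∏ j, b j := by
    intro p _ hp hd
    have h6 : p ≤ (∏ j, b j).natAbs := Nat.le_of_dvd (Int.natAbs_pos.2 hb0) (Int.natCast_dvd.1 hd)
    have h7 : (p : ℝ) ≤ ℓ := le_trans (by exact_mod_cast h6) hbN
    have h8 : (z : ℝ) < p := by exact_mod_cast hp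
    linarith
  obtain ⟨𝒟Y, 𝒟E, w1, w2, w3, w4, w5, w6, w7, w8, w9⟩ := hw β J z y a b (by omega) hN1z hyJ hbp
  set W : ℕ := (2 ^ 2 ^ J) ^ (4 * β + 6) with hW
  have hW1 : 1 ≤ W := Nat.one_le_pow _ _ (by positivity)
  have hWN : W ^ 32 ≤ N := by
    rw [hW, ← pow_mul, mul_comm (4 * β + 6) 32]; exact hJN
  set Λ : ℕ → ℝ := fun n => ArithmeticFunction.vonMangoldt n with hΛ
  have hΛ0 : ∀ n, 0 ≤ Λ n := fun n => ArithmeticFunction.vonMangoldt_nonneg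
  set M : ℝ := MT1 N z a b with hM
  have hM0 : 0 ≤ M := MT1_nonneg _ _ _ _
  set e1 : ℝ := 2 * (N / ℓ ^ U) with he1
  have he10 : 0 ≤ e1 := by positivity
  -- sums with weights
  have hest : ∀ (𝒟 : Finset ℕ) (C : ℕ → ℝ), Adm b W 𝒟 C → (∀ D ∈ 𝒟, ∀ p, p.Prime → p ∣ D → z < p) →
      |∑ n ∈ Icc 1 N, FL Λ z a b 𝒟 C n - M * ∑ D ∈ 𝒟, C D * rr a b D| ≤ e1 := by
    intro 𝒟 C hA1 hA2
    have g1 := a1 a b W 𝒟 C hW1 hWN hA1 hA2 hb0 hbN 0
    have g2 := a3 a b W 𝒟 C hW1 hWN hA1 hA2 hun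
    rw [M1_eq] at g2
    have g3 : ‖∑ n ∈ Icc 1 N, (((ArithmeticFunction.vonMangoldt n - lamz z n) * (RI a b (pz z) n * WW a b 𝒟 C n) : ℝ) : ℂ) * ee ((n : ℝ) * 0)‖ =
        |∑ n ∈ Icc 1 N, FL Λ z a b 𝒟 C n - ∑ n ∈ Icc 1 N, FL (lamz z) z a b 𝒟 C n| := by
      rw [← sum_sub_distrib, ← Real.norm_eq_abs, ← Complex.norm_real]
      congr 1
      push_cast
      apply sum_congr rfl; intro n _
      have : ee ((n : ℝ) * 0) = 1 := by
        rw [mul_zero, ee_eq]; simp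
      rw [this]
      unfold FL
      push_cast; ring
    rw [g3] at g1
    have := abs_sub_le (∑ n ∈ Icc 1 N, FL Λ z a b 𝒟 C n) (∑ n ∈ Icc 1 N, FL (lamz z) z a b 𝒟 C n) (M * ∑ D ∈ 𝒟, C D * rr a b D)
    rw [he1]
    linarith
  set V : ℝ := ∏ p ∈ (Ioc z y).filter Nat.Prime, (1 - ((RR a b p).card : ℝ) / p) with hV
  set G : ℝ := ∑ D ∈ 𝒟Y, CY D * rr a b D with hG
  set δ : ℝ := (1 / 2) ^ β with hδ
  have hδ0 : 0 ≤ δ := by positivity
  have hδ1 : δ ≤ 1 := pow_le_one₀ (by norm_num) (by norm_num)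
  -- the weights
  set wY : ℕ → ℝ := fun n => FL Λ z a b 𝒟Y CY n with hwY
  set wE : ℕ → ℝ := fun n => ∑ q : Fin J, FL Λ z a b (𝒟E q) CE n with hwE
  set RZ : ℕ → ℝ := fun n => Λ n * RI a b (pz z) n with hRZ
  have hRZ0 : ∀ n, 0 ≤ RZ n := fun n => mul_nonneg (hΛ0 n) (RI_nonneg _ _ _ _)
  have eY : ∀ n, wY n = RZ n * WW a b 𝒟Y CY n := by
    intro n; rw [hwY, hRZ]; unfold FL; ring
  have eE : ∀ n, wE n = RZ n * ∑ q : Fin J, WW a b (𝒟E q) CE n := by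
    intro n
    rw [hwE, hRZ]
    simp only
    rw [mul_sum]
    apply sum_congr rfl; intro q _
    unfold FL; ring
  have hRI0 : ∀ n, 0 ≤ RI a b ((Ioc z y).filter Nat.Prime) n := fun n => RI_nonneg _ _ _ _
  have hwY0 : ∀ n ∈ Icc 1 N, 0 ≤ wY n := by
    intro n _
    rw [eY]
    exact mul_nonneg (hRZ0 n) ((hRI0 n).trans (w5 n).1)
  have hwE0 : ∀ n ∈ Icc 1 N, 0 ≤ wE n := by
    intro n _
    rw [eE]
    apply mul_nonneg (hRZ0 n)
    have := (w5 n).1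
    have := (w5 n).2
    linarith
  set TY : ℝ := ∑ n ∈ Icc 1 N, wY n with hTY
  set TE : ℝ := ∑ n ∈ Icc 1 N, wE n with hTE
  have t1 : |TY - M * G| ≤ e1 := hest 𝒟Y CY w1 w3
  have t2 : TE ≤ δ * (M * G) + J * e1 := by
    have e : TE = ∑ q : Fin J, ∑ n ∈ Icc 1 N, FL Λ z a b (𝒟E q) CE n := by rw [hTE, hwE, sum_comm]
    rw [e]
    calc _ ≤ ∑ q : Fin J, (M * (∑ D ∈ 𝒟E q, CE D * rr a b D) + e1) := by
          apply sum_le_sum; intro q _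
          have := (abs_le.1 (hest (𝒟E q) CE (w2 q) (w4 q))).2
          linarith
      _ = M * (∑ q : Fin J, ∑ D ∈ 𝒟E q, CE D * rr a b D) + J * e1 := by
          rw [sum_add_distrib, sum_const, card_univ, Fintype.card_fin, nsmul_eq_mul, ← mul_sum]
      _ ≤ M * (δ * G) + J * e1 := add_le_add (mul_le_mul_of_nonneg_left w9 hM0) le_rfl
      _ = _ := by ring
  -- `J ≤ 2 log N`
  have hJℓ : (J : ℝ) ≤ 2 * ℓ := by
    have g1 : 2 ^ 2 ^ J ≤ N := by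
      refine le_trans ?_ hJN
      exact Nat.le_self_pow (by positivity) _
    have g2 : ((2 ^ 2 ^ J : ℕ) : ℝ) ≤ N := by exact_mod_cast g1
    have g3 : Real.log ((2 ^ 2 ^ J : ℕ) : ℝ) ≤ ℓ := Real.log_le_log (by positivity) g2
    push_cast at g3
    rw [Real.log_pow] at g3
    have g4 : (1 : ℝ) / 2 ≤ Real.log 2 := by linarith [Real.log_two_gt_d9]
    have g5 : (J : ℝ) ≤ 2 ^ J := by exact_mod_cast (Nat.lt_two_pow_self (n := J)).le
    push_cast at g3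
    have g6 : (0 : ℝ) < 2 ^ J := by positivity
    nlinarith
  have hJ0 : (0 : ℝ) ≤ J := Nat.cast_nonneg _
  -- trivial bounds
  have hVle : V ≤ 1 := by
    rw [hV]
    apply prod_le_one
    · intro p hp
      rw [mem_filter, mem_Ioc] at hp
      have hp0 : (0 : ℝ) < p := by exact_mod_cast hp.2.pos
      have : ((RR a b p).card : ℝ) / p ≤ 1 := by
        rw [div_le_one hp0]
        have := card_filter_le (range p) (fun n : ℕ => (p : ℤ) ∣ Fv a b (n : ℤ))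
        rw [card_range] at this
        exact_mod_cast this
      linarith
    · intro p hp
      have : (0 : ℝ) ≤ ((RR a b p).card : ℝ) / p := by positivity
      linarith
  have hMle : M ≤ N * ℓ := by
    rw [hM, ← M1_eq]
    apply mul_le_mul_of_nonneg_left _ hN0.le
    calc (Vz z)⁻¹ * ∏ p ∈ pz z, (1 - (nb1 a b p : ℝ) / p) ≤ (Vz z)⁻¹ * 1 := by
          apply mul_le_mul_of_nonneg_left _ hVi0.le
          apply prod_le_one
          · intro p hp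
            have hp0 : (0 : ℝ) < p := by exact_mod_cast (mem_pz.1 hp).2.pos
            have : (nb1 a b p : ℝ) / p ≤ 1 := by
              rw [div_le_one hp0]; exact_mod_cast nb1_le_p a b p
            linarith
          · intro p hp
            have : (0 : ℝ) ≤ (nb1 a b p : ℝ) / p := by positivity
            linarith
      _ ≤ ℓ := by rw [mul_one]; exact hVi
  have hG2 : G ≤ 2 := by
    have : G ≤ (1 + δ) * V := w8
    have h6 : (1 + δ) * V ≤ 2 * 1 := mul_le_mul (by linarith) hVle w6.le (by norm_num)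
    linarith
  have hG0 : 0 ≤ G := w6.le.trans w7
  have hMG : M * G ≤ N * ℓ * 2 := mul_le_mul hMle hG2 hG0 (by positivity)
  have hMG0 : 0 ≤ M * G := mul_nonneg hM0 hG0
  have he1N : e1 ≤ 2 * N := by
    rw [he1]
    have : (N : ℝ) / ℓ ^ U ≤ N := div_le_self hN0.le (one_le_pow₀ hℓ1)
    linarith
  have hTYle : TY ≤ N * ℓ ^ 2 := by
    have := (abs_le.1 t1).2
    nlinarith
  have hTEle : TE ≤ N * ℓ ^ 2 := by
    have h6 : δ * (M * G) ≤ N * ℓ * 2 := (mul_le_of_le_one_left hMG0 hδ1).trans hMG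
    have h7 : (J : ℝ) * e1 ≤ (2 * ℓ) * (2 * N) := mul_le_mul hJℓ he1N he10 (by positivity)
    nlinarith
  -- equidistribution
  set K : ℕ := ⌈ℓ ^ (2 * A')⌉₊ with hK
  have hK1 : 1 ≤ K := by
    rw [hK, Nat.one_le_ceil_iff]; positivity
  have hKlow : ℓ ^ (2 * A') ≤ K := Nat.le_ceil _
  have hKup : (K : ℝ) ≤ ℓ ^ (2 * A' + 1) := by
    have h5 : (K : ℝ) < ℓ ^ (2 * A') + 1 := Nat.ceil_lt_add_one (by positivity)
    have h6 : (1 : ℝ) ≤ ℓ ^ (2 * A') := one_le_pow₀ hℓ1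
    rw [pow_succ]
    nlinarith
  have hK0 : (0 : ℝ) < K := by exact_mod_cast hK1
  have hminor : ∀ h : ℕ, 1 ≤ h → h ≤ K → Minor B2 N (h * α) := by
    intro h hh1 hh2
    have h6 : Minor (B2 + (2 * A' + 1)) N α := hα.mono hℓ1 (by omega)
    apply h6.mul hℓ1 h hh1
    have : (h : ℝ) ≤ K := by exact_mod_cast hh2
    exact this.trans hKup
  have hexp : ∀ (𝒟 : Finset ℕ) (C : ℕ → ℝ), Adm b W 𝒟 C → (∀ D ∈ 𝒟, ∀ p, p.Prime → p ∣ D → z < p) →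
      ∀ h : ℕ, 1 ≤ h → h ≤ K → ‖∑ n ∈ Icc 1 N, ((FL Λ z a b 𝒟 C n : ℝ) : ℂ) * ee ((n : ℝ) * (h * α))‖ ≤ N / ℓ ^ U := by
    intro 𝒟 C hA1 hA2 h hh1 hh2
    exact a2 a b W 𝒟 C hW1 hWN hA1 hA2 hb0 hbN (h * α) (hminor h hh1 hh2)
  set δ' : ℝ := 1 / ℓ ^ A' with hδ'
  have hδ'0 : 0 < δ' := by positivity
  have hδ'1 : δ' ≤ 1 := by
    rw [hδ', div_le_one (by positivity)]; exact one_le_pow₀ hℓ1
  set e2 : ℝ := 2 * (K * ((2 * ℓ) * (N / ℓ ^ U)) + (N * ℓ ^ 2) / (K * δ') + (N * ℓ ^ 2) * δ') with he2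
  have hE0 : 0 ≤ (N : ℝ) / ℓ ^ U := by positivity
  have q1 : |∑ n ∈ Icc 1 N, wY n * chi α γ c n - c * TY| ≤ e2 := by
    apply arc_w N wY hwY0 (N * ℓ ^ 2) hTYle α γ c hc0 hc1 K hK1 δ' hδ'0 hδ'1
    intro h hh1 hh2
    have := hexp 𝒟Y CY w1 w3 h hh1 hh2
    refine this.trans ?_
    nlinarith
  have q2 : |∑ n ∈ Icc 1 N, wE n * chi α γ c n - c * TE| ≤ e2 := by
    apply arc_w N wE hwE0 (N * ℓ ^ 2) hTEle α γ c hc0 hc1 K hK1 δ' hδ'0 hδ'1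
    intro h hh1 hh2
    have e : ∑ n ∈ Icc 1 N, ((wE n : ℝ) : ℂ) * ee ((n : ℝ) * (h * α)) =
        ∑ q : Fin J, ∑ n ∈ Icc 1 N, ((FL Λ z a b (𝒟E q) CE n : ℝ) : ℂ) * ee ((n : ℝ) * (h * α)) := by
      rw [sum_comm]
      apply sum_congr rfl; intro n _
      rw [hwE]
      simp only
      push_cast
      rw [sum_mul]
    rw [e]
    calc _ ≤ ∑ _q : Fin J, (N : ℝ) / ℓ ^ U := (norm_sum_le _ _).trans (sum_le_sum fun q _ => hexp (𝒟E q) CE (w2 q) (w4 q) h hh1 hh2)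
      _ = J * (N / ℓ ^ U) := by rw [sum_const, card_univ, Fintype.card_fin, nsmul_eq_mul]
      _ ≤ _ := mul_le_mul_of_nonneg_right hJℓ hE0
  -- sandwich
  have hSeq : SU1 Λ N y a b (chi α γ c) = ∑ n ∈ Icc 1 N, RZ n * RI a b ((Ioc z y).filter Nat.Prime) n * chi α γ c n := by
    unfold SU1
    apply sum_congr rfl; intro n _
    rw [RI_mul a b z y hzy, hRZ]; ring
  have s1 : SU1 Λ N y a b (chi α γ c) ≤ ∑ n ∈ Icc 1 N, wY n * chi α γ c n := by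
    rw [hSeq]
    apply sum_le_sum; intro n _
    rw [eY]
    apply mul_le_mul_of_nonneg_right _ (chi_nonneg _ _ _ _)
    exact mul_le_mul_of_nonneg_left (w5 n).1 (hRZ0 n)
  have s2 : ∑ n ∈ Icc 1 N, wY n * chi α γ c n - SU1 Λ N y a b (chi α γ c) ≤ ∑ n ∈ Icc 1 N, wE n * chi α γ c n := by
    rw [hSeq, ← sum_sub_distrib]
    apply sum_le_sum; intro n _
    rw [eY, eE]
    have h6 : RZ n * WW a b 𝒟Y CY n * chi α γ c n - RZ n * RI a b ((Ioc z y).filter Nat.Prime) n * chi α γ c n =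
        RZ n * (WW a b 𝒟Y CY n - RI a b ((Ioc z y).filter Nat.Prime) n) * chi α γ c n := by ring
    rw [h6]
    apply mul_le_mul_of_nonneg_right _ (chi_nonneg _ _ _ _)
    exact mul_le_mul_of_nonneg_left (w5 n).2 (hRZ0 n)
  have hfin := fin_num c M V G δ _ _ _ TY TE e1 e2 J hc0 hc1 hM0 w6.le hδ0 hδ1 he10 hJ0 w7 w8 t1 t2 q1 q2 s1 s2
  refine hfin.trans ?_
  rw [add_assoc]
  apply add_le_add le_rfl
  have f1 : (1 + (J : ℝ)) * e1 ≤ (1 / 2) * (N / ℓ ^ A) := num_b ℓ N J A hℓ40 hN0 hJℓ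
  have f2 : 2 * e2 ≤ (1 / 2) * (N / ℓ ^ A) := num_a ℓ N K A hℓ40 hN0 hKlow hKup
  linarith

/-- the main theorem in one variable -/
theorem main_arc (k : ℕ) : ∃ s₀ : ℕ, ∀ A : ℕ, ∃ B N0 : ℕ, ∀ N : ℕ, N0 ≤ N → ∀ s y : ℕ, s₀ ≤ s → y ^ (256 * s) ≤ N → Real.log N ^ B ≤ y →
    ∀ (a b : Fin k → ℤ), (∀ j, b j ≠ 0) → ((∏ j, b j).natAbs : ℝ) ≤ Real.log N → (∀ p : ℕ, p.Prime → nb1 a b p < p) →
    ∀ α : ℝ, Minor B N α → ∀ γ c : ℝ, 1 / Real.log N ^ A ≤ c → c ≤ 1 →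
    |SU1 Pool.Agent.H76.VG.lp N y a b (chi α γ c) - c * MT1 N y a b| ≤ (16 / 2 ^ s + 1 / Real.log N ^ A) * (c * MT1 N y a b) ∧
    N / Real.log N ^ (2 * k + 3) ≤ MT1 N y a b := by
  obtain ⟨N1, hcore⟩ := core1 k
  obtain ⟨c₀, hc₀, hlow⟩ := prod_low1 k
  refine ⟨N1 + 2, fun A => ?_⟩
  set A2 : ℕ := 2 * A + (2 * k + 3) + 2 with hA2
  obtain ⟨B₀, hB₀⟩ := hcore A2
  set B : ℕ := B₀ + A + 4 with hB
  obtain ⟨m1, h1⟩ := hB₀ B (by omega)
  obtain ⟨m2, h2⟩ := ev_L' (8 * 2 ^ k + 40)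
  obtain ⟨m3, h3⟩ := ev_log' (A2 + 2) 8
  obtain ⟨nc, hnc⟩ := exists_nat_ge (1 / c₀)
  obtain ⟨m5, h5⟩ := ev_L' nc
  refine ⟨B + 1, max (max m1 m2) (max (max m3 m5) 3), fun N hN s y hs hys hy a b hb hbN hun α hα γ c hcA hc1 => ?_⟩
  have a1 := h1 N (le_trans (le_trans (le_max_left _ _) (le_max_left _ _)) hN)
  have hL := h2 N (le_trans (le_trans (le_max_right _ _) (le_max_left _ _)) hN)
  have a3 := h3 N (le_trans (le_trans (le_trans (le_max_left _ _) (le_max_left _ _)) (le_max_right _ _)) hN)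
  have a5 := h5 N (le_trans (le_trans (le_trans (le_max_right _ _) (le_max_left _ _)) (le_max_right _ _)) hN)
  have hN3 : 3 ≤ N := le_trans (le_trans (le_max_right _ _) (le_max_right _ _)) hN
  have hNr : (3 : ℝ) ≤ N := by exact_mod_cast hN3
  have hN0 : (0 : ℝ) < N := by linarith
  have hb0 : (∏ j, b j) ≠ 0 := prod_ne_zero_iff.2 fun j _ => hb j
  set ℓ := Real.log N with hℓ
  have p2 : (1 : ℝ) ≤ 2 ^ k := one_le_pow₀ (by norm_num)
  have hℓ40 : 40 ≤ ℓ := by linarith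
  have hℓ1 : 1 ≤ ℓ := by linarith
  have hℓ0 : 0 < ℓ := by linarith
  have hc0 : 0 < c := lt_of_lt_of_le (by positivity) hcA
  set z : ℕ := ⌈ℓ ^ B⌉₊ with hz
  have hz1 : ℓ ^ B ≤ z := Nat.le_ceil _
  have hz2 : (z : ℝ) ≤ ℓ ^ (B + 1) := by
    have h5 : (z : ℝ) < ℓ ^ B + 1 := Nat.ceil_lt_add_one (by positivity)
    have h6 : (1 : ℝ) ≤ ℓ ^ B := one_le_pow₀ hℓ1
    rw [pow_succ]
    nlinarith
  have hzy : z ≤ y := by
    have : (z : ℝ) ≤ y := hz2.trans hy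
    exact_mod_cast this
  have hzℓ : ℓ ^ (A + 2) ≤ z := (pow_le_pow_right₀ hℓ1 (by omega)).trans hz1
  have hzℓ1 : ℓ ≤ z := by
    refine le_trans ?_ hzℓ
    calc ℓ = ℓ ^ 1 := (pow_one ℓ).symm
      _ ≤ _ := pow_le_pow_right₀ hℓ1 (by omega)
  have hz0 : (0 : ℝ) < z := by linarith
  have hz8 : 8 * 2 ^ k ≤ z := by
    have : ((8 * 2 ^ k : ℕ) : ℝ) ≤ z := by push_cast; linarith
    exact_mod_cast this
  have hy2 : 2 ≤ y := by
    have h6 : (2 : ℝ) ≤ y := by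
      have : (z : ℝ) ≤ y := by exact_mod_cast hzy
      linarith
    exact_mod_cast h6
  obtain ⟨J, hJ1, hJ2⟩ := dyad y hy2
  set β : ℕ := s - 2 with hβ
  have hJN : (2 ^ 2 ^ J) ^ (32 * (4 * β + 6)) ≤ N := by
    refine le_trans ?_ hys
    calc (2 ^ 2 ^ J) ^ (32 * (4 * β + 6)) ≤ (y ^ 2) ^ (32 * (4 * β + 6)) := Nat.pow_le_pow_left hJ2 _
      _ = y ^ (2 * (32 * (4 * β + 6))) := by rw [← pow_mul]
      _ ≤ _ := Nat.pow_le_pow_right (by omega) (by omega)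
  have hyN : y ≤ N := by
    refine le_trans ?_ hys
    exact Nat.le_self_pow (by omega) _
  have hbp : ∀ p : ℕ, p.Prime → z < p → ¬ (p : ℤ) ∣ ∏ j, b j := by
    intro p _ hp hd
    have h6 : p ≤ (∏ j, b j).natAbs := Nat.le_of_dvd (Int.natAbs_pos.2 hb0) (Int.natCast_dvd.1 hd)
    have h7 : (p : ℝ) ≤ ℓ := le_trans (by exact_mod_cast h6) hbN
    have h8 : (z : ℝ) < p := by exact_mod_cast hp
    linarith
  have c1 := a1 z hz1 hz2 β J y (by omega) hJ1 hJN hzy a b hb0 hbN hun α (hα.mono hℓ1 (by omega)) γ c hc0 hc1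
  have c2 := MT1_close N z y hzy a b hbp hz8
  have c4 := hlow N y hN3 hyN a b hun
  set X := MT1 N z a b * ∏ p ∈ (Ioc z y).filter Nat.Prime, (1 - ((RR a b p).card : ℝ) / p) with hX
  set T := MT1 N y a b with hT
  have hT0 : 0 ≤ T := MT1_nonneg _ _ _ _
  have hTlow : N / ℓ ^ (2 * k + 3) ≤ T := by
    rw [hT]; unfold MT1
    calc (N : ℝ) / ℓ ^ (2 * k + 3) ≤ N * (c₀ / ℓ ^ (2 * (k + 1))) := by
          rw [show 2 * k + 3 = 2 * (k + 1) + 1 by ring, pow_succ, mul_div_assoc', div_le_div_iff₀ (by positivity) (by positivity)]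
          have g1 : 1 / c₀ ≤ ℓ := by linarith
          have g2 : 1 ≤ ℓ * c₀ := by rwa [div_le_iff₀ hc₀] at g1
          calc (N : ℝ) * ℓ ^ (2 * (k + 1)) = 1 * (N * ℓ ^ (2 * (k + 1))) := by ring
            _ ≤ (ℓ * c₀) * (N * ℓ ^ (2 * (k + 1))) := mul_le_mul_of_nonneg_right g2 (by positivity)
            _ = _ := by ring
      _ ≤ _ := mul_le_mul_of_nonneg_left c4 hN0.le
  refine ⟨?_, hTlow⟩
  set η : ℝ := 8 * 2 ^ k / z with hη
  have hη0 : 0 ≤ η := by positivity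
  have hη1 : η ≤ (1 / 4) * (1 / ℓ ^ A) := by
    rw [hη, div_le_iff₀ hz0]
    calc 8 * 2 ^ k ≤ (1 / 4) * (1 / ℓ ^ A) * ℓ ^ (A + 2) := by
          rw [pow_add]
          have : (1 / 4) * (1 / ℓ ^ A) * (ℓ ^ A * ℓ ^ 2) = ℓ ^ 2 / 4 := by field_simp
          rw [this]
          nlinarith
      _ ≤ (1 / 4) * (1 / ℓ ^ A) * z := mul_le_mul_of_nonneg_left hzℓ (by positivity)
  have hℓA : 1 / ℓ ^ A ≤ 1 := by
    rw [div_le_one (by positivity)]; exact one_le_pow₀ hℓ1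
  have hℓA0 : 0 < 1 / ℓ ^ A := by positivity
  have hη2 : η ≤ 1 / 4 := by nlinarith
  have hX0 : 0 ≤ X := by
    by_contra hneg
    push Not at hneg
    have h6 := le_abs_self (T - X)
    have h7 : η * X ≤ 0 := mul_nonpos_of_nonneg_of_nonpos hη0 hneg.le
    linarith
  obtain ⟨hX3, f1⟩ := num_c T X η hX0 hη0 hη2 c2
  -- from prime powers to primes
  have c3 : |SU1 (fun n => ArithmeticFunction.vonMangoldt n) N y a b (chi α γ c) - SU1 Pool.Agent.H76.VG.lp N y a b (chi α γ c)| ≤ 2 * √(N : ℝ) * ℓ := by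
    unfold SU1
    rw [← sum_sub_distrib]
    refine (abs_sum_le_sum_abs _ _).trans (le_trans (sum_le_sum fun n _ => ?_) (hh_sum N (by omega)))
    have e : (ArithmeticFunction.vonMangoldt n : ℝ) * RI a b (pz y) n * chi α γ c n - Pool.Agent.H76.VG.lp n * RI a b (pz y) n * chi α γ c n =
        hh n * (RI a b (pz y) n * chi α γ c n) := by rw [vm_split]; ring
    rw [e, abs_of_nonneg (mul_nonneg (hh_nonneg n) (mul_nonneg (RI_nonneg _ _ _ _) (chi_nonneg _ _ _ _)))]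
    apply mul_le_of_le_one_right (hh_nonneg n)
    exact mul_le_one₀ (RI_le _ _ _ _) (chi_nonneg _ _ _ _) (chi_le _ _ _ _)
  have f2 : 2 * √(N : ℝ) * ℓ ≤ (1 / 4) * (N / ℓ ^ (A2 - 1)) := by
    have hsN : √(N : ℝ) * √(N : ℝ) = N := Real.mul_self_sqrt hN0.le
    have hs0 : 0 ≤ √(N : ℝ) := Real.sqrt_nonneg _
    have e : A2 + 2 = (A2 - 1) + 3 := by omega
    calc 2 * √(N : ℝ) * ℓ = (8 * ℓ ^ (A2 + 2)) * √(N : ℝ) / (4 * ℓ ^ 2 * ℓ ^ (A2 - 1)) := by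
          rw [e, pow_add]; field_simp; ring
      _ ≤ √(N : ℝ) * √(N : ℝ) / (4 * ℓ ^ 2 * ℓ ^ (A2 - 1)) := by gcongr
      _ = (1 / (4 * ℓ ^ 2)) * (N / ℓ ^ (A2 - 1)) := by rw [hsN]; field_simp
      _ ≤ _ := by
          apply mul_le_mul_of_nonneg_right _ (by positivity)
          apply div_le_div_of_nonneg_left (by norm_num) (by norm_num)
          nlinarith
  have f3 : (N : ℝ) / ℓ ^ A2 ≤ (1 / 4) * (N / ℓ ^ (A2 - 1)) := by
    have e : A2 = (A2 - 1) + 1 := by omega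
    rw [e, pow_succ, Nat.add_sub_cancel]
    calc (N : ℝ) / (ℓ ^ (A2 - 1) * ℓ) = (1 / ℓ) * (N / ℓ ^ (A2 - 1)) := by field_simp
      _ ≤ _ := by
          apply mul_le_mul_of_nonneg_right _ (by positivity)
          exact div_le_div_of_nonneg_left (by norm_num) (by norm_num) (by linarith)
  have f4 : (N : ℝ) / ℓ ^ (A2 - 1) ≤ (1 / 2) * (1 / ℓ ^ A) * (c * T) := by
    have e : A2 - 1 = A + A + (2 * k + 3) + 1 := by omega
    calc (N : ℝ) / ℓ ^ (A2 - 1) = (1 / ℓ) * (1 / ℓ ^ A) * ((1 / ℓ ^ A) * (N / ℓ ^ (2 * k + 3))) := by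
          rw [e, pow_add, pow_add, pow_add, pow_one]; field_simp
      _ ≤ (1 / 2) * (1 / ℓ ^ A) * (c * T) := by
          apply mul_le_mul _ _ (by positivity) (by positivity)
          · apply mul_le_mul_of_nonneg_right _ hℓA0.le
            exact div_le_div_of_nonneg_left (by norm_num) (by norm_num) (by linarith)
          · exact mul_le_mul hcA hTlow (by positivity) hc0.le
  set δ : ℝ := (1 / 2) ^ β with hδ
  have hδ0 : 0 ≤ δ := by positivity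
  have hδs : 2 * δ ≤ 16 / 2 ^ s := by
    have : (2 : ℝ) ^ s = 2 ^ β * 4 := by
      rw [show (4 : ℝ) = 2 ^ 2 by norm_num, ← pow_add]; congr 1; omega
    rw [hδ, this, one_div, inv_pow]
    rw [le_div_iff₀ (by positivity)]
    have : (2 : ℝ) ^ β ≠ 0 := by positivity
    calc 2 * ((2 : ℝ) ^ β)⁻¹ * (2 ^ β * 4) = 8 := by field_simp; norm_num
      _ ≤ 16 := by norm_num
  have hcT : 0 ≤ c * T := mul_nonneg hc0.le hT0
  have hcX : 0 ≤ c * X := mul_nonneg hc0.le hX0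
  have hcX3 : c * X ≤ 2 * (c * T) := by nlinarith
  have f5 : |c * X - c * T| ≤ 2 * η * (c * T) := by
    rw [← mul_sub, abs_mul, abs_of_pos hc0, abs_sub_comm]
    calc c * |T - X| ≤ c * (2 * η * T) := mul_le_mul_of_nonneg_left f1 hc0.le
      _ = _ := by ring
  set SA := SU1 (fun n => ArithmeticFunction.vonMangoldt n) N y a b (chi α γ c) with hSA
  set SB := SU1 Pool.Agent.H76.VG.lp N y a b (chi α γ c) with hSB
  have key : |SB - c * T| ≤ 2 * √(N : ℝ) * ℓ + (δ * (c * X) + N / ℓ ^ A2) + 2 * η * (c * T) := by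
    have g1 := abs_le.1 c3
    have g2 := abs_le.1 c1
    have g3 := abs_le.1 f5
    rw [abs_le]
    constructor <;> linarith [g1.1, g1.2, g2.1, g2.2, g3.1, g3.2]
  have g4 : δ * (c * X) ≤ (16 / 2 ^ s) * (c * T) := by
    calc δ * (c * X) ≤ δ * (2 * (c * T)) := mul_le_mul_of_nonneg_left hcX3 hδ0
      _ = (2 * δ) * (c * T) := by ring
      _ ≤ _ := mul_le_mul_of_nonneg_right hδs hcT
  have g5 : 2 * η * (c * T) ≤ (1 / 2) * (1 / ℓ ^ A) * (c * T) := by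
    apply mul_le_mul_of_nonneg_right _ hcT
    linarith
  refine key.trans ?_
  have g6 : 0 ≤ (1 / ℓ ^ A) * (c * T) := mul_nonneg hℓA0.le hcT
  nlinarith

end Pool.Agent.H76.TB
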