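import Mathlib
import Pool.Agent.H76.TB.D5
import Pool.Agent.H76.TB.A22

/-! Primes in arcs with almost prime values. -/

set_option autoImplicit false

open Finset

namespace Pool.Agent.H76.TB

open Pool.Agent.H373R2.T7 (ev_log' ev_L' pz mem_pz Vz Vz_pos lamz lamz_nonneg Vz_inv_small)

variable {k : ℕ}

lemma den_large (α : ℝ) (hα : Irrational α) (Q : ℕ) : ∃ r : ℚ, |α - r| < 1 / (r.den : ℝ) ^ 2 ∧ Q ≤ r.den := by
  by_contra hcon
  push Not at hcon
  have hinf := Real.infinite_rat_abs_sub_lt_one_div_den_sq_of_irrational hα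
  apply hinf
  obtain ⟨K, hK⟩ := exists_nat_ge ((|α| + 1) * Q)
  have hsub : {q : ℚ | |α - q| < 1 / (q.den : ℝ) ^ 2} ⊆ (fun q : ℚ => (q.num, q.den)) ⁻¹' (((Icc (-(K : ℤ)) K) ×ˢ range Q : Finset (ℤ × ℕ)) : Set (ℤ × ℕ)) := by
    intro r hr
    have hr' : |α - r| < 1 / (r.den : ℝ) ^ 2 := hr
    have h1 := hcon r hr'
    have hd1 : (1 : ℝ) ≤ r.den := by exact_mod_cast r.den_pos
    have hd0 : (0 : ℝ) < r.den := by linarith
    have h2 : |α - r| < 1 := by
      refine lt_of_lt_of_le hr' ?_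
      rw [div_le_one (by positivity)]
      exact one_le_pow₀ hd1
    have h3 : |(r : ℝ)| ≤ |α| + 1 := by
      have : (r : ℝ) = α - (α - r) := by ring
      rw [this]
      refine (abs_sub _ _).trans ?_
      linarith
    have h4 : (r.num : ℝ) = r * r.den := by
      have : (r : ℚ) * r.den = r.num := Rat.mul_den_eq_num r
      exact_mod_cast this.symm
    have h5 : |(r.num : ℝ)| ≤ K := by
      rw [h4, abs_mul, abs_of_pos hd0]
      refine le_trans ?_ hK
      apply mul_le_mul h3 _ hd0.le (by positivity)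
      exact_mod_cast h1.le
    have h6 : |r.num| ≤ (K : ℤ) := by exact_mod_cast h5
    rw [Set.mem_preimage, mem_coe, mem_product, mem_Icc, mem_range]
    exact ⟨abs_le.1 h6, h1⟩
  apply Set.Finite.subset _ hsub
  apply Set.Finite.preimage _ (Finset.finite_toSet _)
  intro r _ r' _ h
  simp only [Prod.mk.injEq] at h
  exact Rat.ext h.1 h.2

/-- irrational numbers: infinitely many scales -/
lemma minor_irr (α : ℝ) (hα : Irrational α) (B M : ℕ) : ∃ N : ℕ, M ≤ N ∧ Minor B N α := by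
  obtain ⟨m1, h1⟩ := ev_log' B 3
  obtain ⟨r, hr1, hr2⟩ := den_large α hα (max (max M m1) 2)
  set q : ℕ := r.den with hq
  have hq2 : 2 ≤ q := (le_max_right _ _).trans hr2
  have hqM : max M m1 ≤ q := (le_max_left _ _).trans hr2
  have hqN : q ≤ q ^ 2 := Nat.le_self_pow (by norm_num) _
  refine ⟨q ^ 2, (le_max_left _ _).trans (hqM.trans hqN), ?_⟩
  have a1 := h1 (q ^ 2) ((le_max_right _ _).trans (hqM.trans hqN))
  have hqr : (2 : ℝ) ≤ q := by exact_mod_cast hq2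
  have hq0 : (0 : ℝ) < q := by linarith
  have hs : √(((q ^ 2 : ℕ) : ℝ)) = q := by
    push_cast
    exact Real.sqrt_sq hq0.le
  rw [hs] at a1
  intro q' hq'1 hq'2 c
  set L := Real.log ((q ^ 2 : ℕ) : ℝ) ^ B with hL
  have hq'0 : (0 : ℝ) < q' := by exact_mod_cast hq'1
  have hq'q : (q' : ℝ) ≤ q / 3 := by linarith
  have hlt : q' < q := by
    have : (q' : ℝ) < q := by linarith
    exact_mod_cast this
  have hrq : ((r : ℚ) : ℝ) = (r.num : ℝ) / q := by
    rw [hq]; exact_mod_cast (Rat.num_div_den r).symm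
  rw [hrq] at hr1
  have hne : (q' : ℤ) * r.num - c * q ≠ 0 := by
    intro h0
    have h2 : (q : ℤ) ∣ (q' : ℤ) * r.num := ⟨c, by linarith⟩
    have hcop : IsCoprime (q : ℤ) r.num := by
      rw [Int.isCoprime_iff_gcd_eq_one]
      have := r.reduced
      rw [Nat.Coprime] at this
      rw [Int.gcd_comm, Int.gcd]
      simpa using this
    have h3 := hcop.dvd_of_dvd_mul_right h2
    have h4 : q ∣ q' := by exact_mod_cast h3
    have := Nat.le_of_dvd hq'1 h4
    omega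
  have h5 : (1 : ℝ) ≤ |((q' : ℝ) * r.num - c * q)| := by
    have : (1 : ℤ) ≤ |(q' : ℤ) * r.num - c * q| := Int.one_le_abs hne
    exact_mod_cast this
  have h6 : 1 / (q : ℝ) ≤ |(q' : ℝ) * (r.num / q) - c| := by
    have e : (q' : ℝ) * (r.num / q) - c = ((q' : ℝ) * r.num - c * q) / q := by field_simp
    rw [e, abs_div, abs_of_pos hq0]
    exact div_le_div_of_nonneg_right h5 hq0.le
  have h7 : |(q' : ℝ) * (r.num / q) - c| ≤ |(q' : ℝ) * α - c| + q' * |α - r.num / q| := by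
    have e : (q' : ℝ) * (r.num / q) - c = ((q' : ℝ) * α - c) - q' * (α - r.num / q) := by ring
    rw [e]
    refine (abs_sub _ _).trans ?_
    rw [abs_mul, abs_of_pos hq'0]
  have h8 : (q' : ℝ) * |α - r.num / q| ≤ (q / 3) * (1 / (q : ℝ) ^ 2) := mul_le_mul hq'q hr1.le (abs_nonneg _) (by positivity)
  have h9 : ((q : ℝ) / 3) * (1 / (q : ℝ) ^ 2) = (1 / 3) * (1 / q) := by field_simp
  have h10 : L / ((q ^ 2 : ℕ) : ℝ) ≤ (1 / 3) * (1 / q) := by
    push_cast
    rw [← h9, div_eq_mul_one_div]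
    apply mul_le_mul_of_nonneg_right _ (by positivity)
    linarith
  have h11 : 0 < 1 / (q : ℝ) := by positivity
  linarith

/-- algebraic irrational numbers: all large scales -/
lemma minor_alg (α : ℝ) (hα : Irrational α) (hal : IsAlgebraic ℤ α) (B : ℕ) : ∃ N0 : ℕ, ∀ N : ℕ, N0 ≤ N → Minor B N α := by
  obtain ⟨f, f0, fa⟩ := hal
  obtain ⟨A, hA, h⟩ := Liouville.exists_pos_real_of_irrational_root hα f0 (by
    rw [Polynomial.aeval_def, ← Polynomial.eval_map] at fa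
    exact fa)
  set d := f.natDegree with hd
  obtain ⟨nA, hnA⟩ := exists_nat_ge A
  obtain ⟨m1, h1⟩ := ev_log' (B * d + B) (nA + 1)
  obtain ⟨m2, h2⟩ := ev_L' 2
  refine ⟨max (max m1 m2) 4, fun N hN q hq1 hq2 c => ?_⟩
  have a1 := h1 N (le_trans (le_trans (le_max_left _ _) (le_max_left _ _)) hN)
  have hL := h2 N (le_trans (le_trans (le_max_right _ _) (le_max_left _ _)) hN)
  have hN4 : 4 ≤ N := le_trans (le_max_right _ _) hN
  have hNr : (4 : ℝ) ≤ N := by exact_mod_cast hN4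
  have hN0 : (0 : ℝ) < N := by linarith
  have hsN : √(N : ℝ) ≤ N := by
    rw [Real.sqrt_le_left (by positivity)]; nlinarith
  set ℓ := Real.log N with hℓ
  have hℓ1 : 1 ≤ ℓ := by linarith
  have hq0 : (0 : ℝ) < q := by exact_mod_cast hq1
  have h3 := h c (q - 1)
  have e1 : (((q - 1 : ℕ) : ℝ) + 1) = q := by
    have : ((q - 1 + 1 : ℕ) : ℝ) = q := by congr 1; omega
    push_cast at this; exact this
  rw [e1] at h3
  have e2 : |(q : ℝ) * α - c| = q * |α - c / q| := by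
    rw [← abs_of_pos hq0, ← abs_mul, abs_of_pos hq0]
    congr 1
    field_simp
  rw [e2]
  have hq1r : (1 : ℝ) ≤ q := by exact_mod_cast hq1
  have h4 : (q : ℝ) ^ d ≤ ℓ ^ (B * d) := by
    rw [pow_mul]; exact pow_le_pow_left₀ hq0.le hq2 d
  have habs : 0 ≤ |α - c / q| := abs_nonneg _
  have h5 : 1 ≤ ℓ ^ (B * d) * (|α - c / q| * A) := h3.trans (mul_le_mul_of_nonneg_right h4 (by positivity))
  have h6 : 1 / (ℓ ^ (B * d) * A) ≤ |α - c / q| := by
    rw [div_le_iff₀ (by positivity)]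
    calc 1 ≤ ℓ ^ (B * d) * (|α - c / q| * A) := h5
      _ = _ := by ring
  have h7 : |α - c / q| ≤ q * |α - c / q| := le_mul_of_one_le_left habs hq1r
  refine lt_of_lt_of_le ?_ (h6.trans h7)
  rw [div_lt_div_iff₀ hN0 (by positivity), one_mul]
  have h8 : ((nA : ℝ) + 1) * ℓ ^ (B * d + B) ≤ N := by
    refine le_trans (le_of_eq ?_) (a1.trans hsN)
    push_cast; ring
  calc ℓ ^ B * (ℓ ^ (B * d) * A) = A * ℓ ^ (B * d + B) := by rw [pow_add]; ring
    _ < (nA + 1) * ℓ ^ (B * d + B) := mul_lt_mul_of_pos_right (by linarith) (by positivity)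
    _ ≤ N := h8

/-- many primes in a short arc with almost prime values -/
theorem arc_count (k : ℕ) : ∃ (r : ℕ) (δ : ℝ), 0 < δ ∧ ∀ A : ℕ, ∃ B N0 : ℕ, ∀ N : ℕ, N0 ≤ N → ∀ (a b : Fin k → ℤ), (∀ j, b j ≠ 0) →
    ((∏ j, b j).natAbs : ℝ) ≤ Real.log N → (∀ j, (a j).natAbs ≤ N) → (∀ p : ℕ, p.Prime → nb1 a b p < p) →
    ∀ α : ℝ, Minor B N α → ∀ γ : ℝ,
    ∃ R : Finset ℕ, (∀ n ∈ R, n ≤ N ∧ n.Prime ∧ Int.fract (α * n + γ) < 1 / Real.log N ^ A ∧
      ∀ j, a j * (n : ℤ) + b j ≠ 0 ∧ (a j * (n : ℤ) + b j).natAbs.primeFactorsList.length ≤ r ∧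
        ∀ q ∈ (a j * (n : ℤ) + b j).natAbs.primeFactorsList, (N : ℝ) ^ δ < q) ∧
      (N : ℝ) / Real.log N ^ (A + 2 * k + 5) ≤ R.card := by
  classical
  obtain ⟨s₀, hs₀⟩ := main_arc k
  set s : ℕ := max s₀ 10 with hs
  have hs1 : s₀ ≤ s := le_max_left _ _
  have hs2 : 10 ≤ s := le_max_right _ _
  have hs0 : (0 : ℝ) < 256 * s := by positivity
  refine ⟨768 * s, 1 / (256 * s), by positivity, fun A => ?_⟩
  obtain ⟨B, m1, h1⟩ := hs₀ (A + 1)
  obtain ⟨m2, h2⟩ := ev_L' 4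
  obtain ⟨m3, h3⟩ := ev_log' (B * (256 * s) * 2 + 512 * s * 2) 1
  refine ⟨B, max m1 (max m2 (max m3 16)), fun N hN a b hb hbN ha hun α hα γ => ?_⟩
  have hL := h2 N (le_trans (le_trans (le_max_left _ _) (le_max_right _ _)) hN)
  have a3 := h3 N (le_trans (le_trans (le_trans (le_max_left _ _) (le_max_right _ _)) (le_max_right _ _)) hN)
  have hN16 : 16 ≤ N := le_trans (le_trans (le_trans (le_max_right _ _) (le_max_right _ _)) (le_max_right _ _)) hN
  have hNr : (16 : ℝ) ≤ N := by exact_mod_cast hN16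
  have hN0 : (0 : ℝ) < N := by linarith
  set w : ℝ := (N : ℝ) ^ (1 / (256 * (s : ℝ))) with hw
  set y : ℕ := ⌊w⌋₊ with hy
  have hw0 : 0 < w := Real.rpow_pos_of_pos hN0 _
  have hwp : w ^ (256 * s) = N := by
    rw [hw, ← Real.rpow_natCast, ← Real.rpow_mul hN0.le]
    push_cast
    rw [one_div, inv_mul_cancel₀ hs0.ne', Real.rpow_one]
  have hw1 : 1 ≤ w := Real.one_le_rpow (by linarith) (by positivity)
  have hys : y ^ (256 * s) ≤ N := by
    have : ((y ^ (256 * s) : ℕ) : ℝ) ≤ N := by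
      push_cast
      calc (y : ℝ) ^ (256 * s) ≤ w ^ (256 * s) := pow_le_pow_left₀ (by positivity) (Nat.floor_le hw0.le) _
        _ = N := hwp
    exact_mod_cast this
  set ℓ := Real.log N with hℓ
  have hℓ1 : 1 ≤ ℓ := by linarith
  have hℓ0 : 0 < ℓ := by linarith
  have hbig : ∀ e : ℕ, e * (256 * s) ≤ B * (256 * s) * 2 + 512 * s * 2 → ℓ ^ e ≤ w := by
    intro e he
    have h6 : (ℓ ^ e) ^ (256 * s) ≤ w ^ (256 * s) := by
      rw [hwp, ← pow_mul]
      have h7 : ℓ ^ (e * (256 * s)) ≤ ℓ ^ (B * (256 * s) * 2 + 512 * s * 2) := pow_le_pow_right₀ hℓ1 he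
      have hs0 : √(N : ℝ) ≤ N := by
        rw [Real.sqrt_le_left (by positivity)]; nlinarith
      linarith
    by_contra hlt
    push Not at hlt
    exact absurd h6 (not_le.2 (pow_lt_pow_left₀ hlt hw0.le (by positivity)))
  have hyl : ℓ ^ B ≤ y := by
    have h5 : ℓ ^ (B + 1) ≤ w := hbig (B + 1) (by nlinarith)
    have h6 : w < y + 1 := Nat.lt_floor_add_one w
    have h7 : ℓ ^ B + 1 ≤ ℓ ^ (B + 1) := by
      rw [pow_succ]
      have : 1 ≤ ℓ ^ B := one_le_pow₀ hℓ1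
      nlinarith
    linarith
  have hy2 : 2 ≤ y := by
    by_contra hlt
    have : y ≤ 1 := by omega
    have h6 : w < y + 1 := Nat.lt_floor_add_one w
    have h7 : (y : ℝ) ≤ 1 := by exact_mod_cast this
    have h5 : ℓ ^ 1 ≤ w := hbig 1 (by nlinarith)
    rw [pow_one] at h5
    linarith
  have hcA : 1 / ℓ ^ (A + 1) ≤ 1 / ℓ ^ A := by
    apply div_le_div_of_nonneg_left (by norm_num) (by positivity)
    exact pow_le_pow_right₀ hℓ1 (by omega)
  have hcA1 : 1 / ℓ ^ A ≤ 1 := by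
    rw [div_le_one (by positivity)]; exact one_le_pow₀ hℓ1
  obtain ⟨g1, g2⟩ := h1 N (le_trans (le_max_left _ _) hN) s y hs1 hys hyl a b hb hbN hun α hα γ (1 / ℓ ^ A) hcA hcA1
  set T := MT1 N y a b with hT
  have hT0 : 0 ≤ T := MT1_nonneg _ _ _ _
  have hc : (16 : ℝ) / 2 ^ s + 1 / ℓ ^ (A + 1) ≤ 1 / 2 := by
    have h5 : (16 : ℝ) / 2 ^ s ≤ 1 / 4 := by
      rw [div_le_div_iff₀ (by positivity) (by norm_num)]
      have : (2 : ℝ) ^ 10 ≤ 2 ^ s := pow_le_pow_right₀ (by norm_num) hs2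
      nlinarith
    have h6 : 1 / ℓ ^ (A + 1) ≤ 1 / 4 := by
      apply div_le_div_of_nonneg_left (by norm_num) (by norm_num)
      calc (4 : ℝ) ≤ ℓ := hL
        _ = ℓ ^ 1 := (pow_one _).symm
        _ ≤ _ := pow_le_pow_right₀ hℓ1 (by omega)
    linarith
  set S := SU1 Pool.Agent.H76.VG.lp N y a b (chi α γ (1 / ℓ ^ A)) with hS
  have hcT : 0 ≤ (1 / ℓ ^ A) * T := by positivity
  have hST : (1 / 2) * ((1 / ℓ ^ A) * T) ≤ S := by
    have h7 := (abs_le.1 g1).1
    have h8 := mul_le_mul_of_nonneg_right hc hcT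
    linarith
  set R : Finset ℕ := (Icc 1 N).filter (fun n => n.Prime ∧ (∀ q ∈ pz y, ¬ (q : ℤ) ∣ Fv a b (n : ℤ)) ∧ Int.fract (α * n + γ) < 1 / ℓ ^ A) with hR
  have hSR : S ≤ R.card * ℓ := by
    rw [hS]; unfold SU1
    rw [← nsmul_eq_mul, ← sum_const, hR, sum_filter]
    apply sum_le_sum
    intro n hn
    rw [mem_Icc] at hn
    unfold Pool.Agent.H76.VG.lp RI chi
    by_cases h7 : n.Prime ∧ (∀ q ∈ pz y, ¬ (q : ℤ) ∣ Fv a b (n : ℤ)) ∧ Int.fract (α * n + γ) < 1 / ℓ ^ A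
    · rw [if_pos h7, if_pos h7.1, if_pos h7.2.1, if_pos h7.2.2, mul_one, mul_one]
      exact Real.log_le_log (by exact_mod_cast hn.1) (by exact_mod_cast hn.2)
    · rw [if_neg h7]
      apply le_of_eq
      by_cases h8 : n.Prime
      · by_cases h9 : ∀ q ∈ pz y, ¬ (q : ℤ) ∣ Fv a b (n : ℤ)
        · rw [if_neg (fun h => h7 ⟨h8, h9, h⟩), mul_zero]
        · rw [if_neg h9]; ring
      · rw [if_neg h8]; ring
  refine ⟨R, fun n hn => ?_, ?_⟩
  · rw [hR, mem_filter, mem_Icc] at hn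
    obtain ⟨⟨hn1, hnN⟩, hnp, hnF, hnc⟩ := hn
    refine ⟨hnN, hnp, hnc, fun j => ?_⟩
    set v := a j * (n : ℤ) + b j with hv
    have hndiv : ∀ q : ℕ, q.Prime → q ≤ y → ¬ (q : ℤ) ∣ v := by
      intro q hq hqy hd
      apply hnF q (mem_pz.2 ⟨hqy, hq⟩)
      unfold Fv
      exact hd.trans (dvd_prod_of_mem (fun j => a j * (n : ℤ) + b j) (mem_univ j))
    have hv0 : v ≠ 0 := by
      intro h0
      apply hndiv 2 Nat.prime_two hy2
      rw [h0]; exact dvd_zero _
    have hq : ∀ q : ℕ, q.Prime → q ∣ v.natAbs → w < q := by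
      intro q hq hqv
      have h6 : w < y + 1 := Nat.lt_floor_add_one w
      by_contra hlt
      have h7 : ¬ (y + 1 ≤ q) := by
        intro h8
        have : (y : ℝ) + 1 ≤ q := by exact_mod_cast h8
        linarith
      exact hndiv q hq (by omega) (Int.natCast_dvd.2 hqv)
    have hb0 : (∏ j, b j) ≠ 0 := prod_ne_zero_iff.2 fun j _ => hb j
    have hvN : (v.natAbs : ℝ) < w ^ (768 * s) := by
      have e : w ^ (768 * s) = (N : ℝ) ^ 3 := by
        rw [show 768 * s = 256 * s * 3 by ring, pow_mul, hwp]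
      rw [e]
      have h5 : (v.natAbs : ℝ) ≤ N * N + N := by
        have c1 : v.natAbs ≤ (a j).natAbs * n + (b j).natAbs := by
          rw [hv]
          refine (Int.natAbs_add_le _ _).trans ?_
          rw [Int.natAbs_mul, Int.natAbs_natCast]
        have c2 : (b j).natAbs ≤ (∏ j, b j).natAbs := by
          apply Nat.le_of_dvd
          · exact Int.natAbs_pos.2 hb0
          · exact Int.natAbs_dvd_natAbs.2 (dvd_prod_of_mem (fun j => b j) (mem_univ j))
        have c3 : ((∏ j, b j).natAbs : ℝ) ≤ N := hbN.trans ((Real.log_le_sub_one_of_pos hN0).trans (by linarith))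
        have c4 : (∏ j, b j).natAbs ≤ N := by exact_mod_cast c3
        have c5 : v.natAbs ≤ N * N + N := c1.trans (Nat.add_le_add (Nat.mul_le_mul (ha j) hnN) (c2.trans c4))
        exact_mod_cast c5
      have h6 : (N : ℝ) * N + N < N ^ 3 := by nlinarith
      linarith
    refine ⟨hv0, few w hw1 _ _ (Int.natAbs_ne_zero.2 hv0) hvN hq, fun q hqm => ?_⟩
    exact hq q (Nat.prime_of_mem_primeFactorsList hqm) (Nat.dvd_of_mem_primeFactorsList hqm)
  · have h5 : (1 / 2) * ((1 / ℓ ^ A) * (N / ℓ ^ (2 * k + 3))) ≤ R.card * ℓ := by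
      refine le_trans ?_ (hST.trans hSR)
      apply mul_le_mul_of_nonneg_left _ (by norm_num)
      exact mul_le_mul_of_nonneg_left g2 (by positivity)
    have h6 : (N : ℝ) / ℓ ^ (A + 2 * k + 5) * ℓ ≤ (1 / 2) * ((1 / ℓ ^ A) * (N / ℓ ^ (2 * k + 3))) := by
      have e : (N : ℝ) / ℓ ^ (A + 2 * k + 5) * ℓ = (1 / ℓ) * ((1 / ℓ ^ A) * (N / ℓ ^ (2 * k + 3))) := by
        have e7 : ℓ ^ (A + 2 * k + 5) = ℓ ^ A * (ℓ ^ (2 * k + 3) * (ℓ * ℓ)) := by ring
        rw [e7]
        field_simp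
      rw [e]
      apply mul_le_mul_of_nonneg_right _ (by positivity)
      exact div_le_div_of_nonneg_left (by norm_num) (by norm_num) (by linarith)
    have h7 := h6.trans h5
    exact le_of_mul_le_mul_right h7 hℓ0

end Pool.Agent.H76.TB
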