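import Mathlib
import Pool.Agent.H76.TB.A11

/-! Binary sums for almost all integers. -/

set_option autoImplicit false

open Finset

namespace Pool.Agent.H76.TB

open Pool.Agent.H807R2.Dav (ee norm_ee ee_add ee_eq)
open Pool.Agent.H373R2.T7 (ev_log' ev_L' pz mem_pz Vz Vz_pos lamz lamz_nonneg Vz_inv_small)

variable {k : ℕ}

/-- the second variable -/
def yy (e : ℤ) (n x : ℕ) : ℕ := ((n : ℤ) + e * x).toNat

/-- the range of the first variable -/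
def RX (e : ℤ) (N n : ℕ) : Finset ℕ := (Icc 1 N).filter (fun x => 1 ≤ (n : ℤ) + e * x ∧ (n : ℤ) + e * x ≤ N)

lemma mem_RX {e : ℤ} {N n x : ℕ} : x ∈ RX e N n ↔ (1 ≤ x ∧ x ≤ N) ∧ 1 ≤ (n : ℤ) + e * x ∧ (n : ℤ) + e * x ≤ N := by
  unfold RX
  rw [mem_filter, mem_Icc]

lemma yy_cast {e : ℤ} {N n x : ℕ} (h : x ∈ RX e N n) : ((yy e n x : ℕ) : ℤ) = (n : ℤ) + e * x := by
  unfold yy
  rw [mem_RX] at h
  exact Int.toNat_of_nonneg (by omega)

lemma yy_mem {e : ℤ} {N n x : ℕ} (h : x ∈ RX e N n) : yy e n x ∈ Icc 1 N := by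
  have h1 := yy_cast h
  rw [mem_RX] at h
  rw [mem_Icc]
  omega

/-- the binary sum -/
noncomputable def BS (e : ℤ) (N : ℕ) (u v : ℕ → ℝ) (n : ℕ) : ℝ := ∑ x ∈ RX e N n, u x * v (yy e n x)

lemma BS_TG (e : ℤ) (N : ℕ) (u v g : ℕ → ℝ) :
    ∑ t ∈ TG e (-1) 0 N, u t.1 * v t.2 * g (n3 e (-1) 0 t) = ∑ n ∈ Icc 1 N, g n * BS e N u v n := by
  unfold BS
  simp_rw [mul_sum]
  rw [sum_sigma' (Icc 1 N) (fun n => RX e N n) (fun n x => g n * (u x * v (yy e n x)))]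
  refine sum_bij' (fun t _ => (⟨n3 e (-1) 0 t, t.1⟩ : (_ : ℕ) × ℕ)) (fun s _ => (s.2, yy e s.1 s.2)) ?_ ?_ ?_ ?_ ?_
  · intro t ht
    have h1 := n3_cast ht
    have h2 := n3_mem ht
    rw [mem_TG] at ht
    rw [mem_sigma]
    refine ⟨h2, ?_⟩
    rw [mem_RX]
    simp only
    refine ⟨ht.1, ?_, ?_⟩
    · rw [h1]; have := ht.2.1.1; push_cast; linarith [(by exact_mod_cast this : (1 : ℤ) ≤ (t.2 : ℤ))]
    · rw [h1]; have := ht.2.1.2; push_cast; linarith [(by exact_mod_cast this : (t.2 : ℤ) ≤ (N : ℤ))]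
  · intro s hs
    rw [mem_sigma] at hs
    have h1 := yy_cast hs.2
    have h2 := mem_Icc.1 (yy_mem hs.2)
    have h3 := hs.2
    rw [mem_RX] at h3
    have h4 := mem_Icc.1 hs.1
    rw [mem_TG]
    simp only
    refine ⟨h3.1, h2, ?_, ?_⟩
    · rw [h1]; have : (1 : ℤ) ≤ (s.1 : ℤ) := by exact_mod_cast h4.1
      linarith
    · rw [h1]; have : (s.1 : ℤ) ≤ N := by exact_mod_cast h4.2
      linarith
  · intro t ht
    have h1 := n3_cast ht
    simp only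
    refine Prod.ext rfl ?_
    simp only
    unfold yy
    rw [h1]
    have : (0 - e * (t.1 : ℤ) - -1 * (t.2 : ℤ) + e * t.1) = t.2 := by ring
    rw [this]
    exact Int.toNat_natCast _
  · intro s hs
    rw [mem_sigma] at hs
    have h1 := yy_cast hs.2
    simp only
    have h2 : n3 e (-1) 0 (s.2, yy e s.1 s.2) = s.1 := by
      unfold n3
      simp only
      rw [h1]
      have : (0 - e * (s.2 : ℤ) - -1 * ((s.1 : ℤ) + e * s.2)) = s.1 := by ring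
      rw [this]
      exact Int.toNat_natCast _
    rw [h2]
  · intro t ht
    have h1 := n3_cast ht
    simp only
    have h2 : yy e (n3 e (-1) 0 t) t.1 = t.2 := by
      unfold yy
      rw [h1]
      have : (0 - e * (t.1 : ℤ) - -1 * (t.2 : ℤ) + e * t.1) = t.2 := by ring
      rw [this]
      exact Int.toNat_natCast _
    rw [h2]; ring

lemma bin_L1 (e : ℤ) (he : e ≠ 0) (N : ℕ) (u v : Fin 2 → ℕ → ℝ) (Q T : ℝ)
    (hu : ∀ r, ∑ n ∈ Icc 1 N, u r n ^ 2 ≤ Q) (hv : ∀ r, ∑ n ∈ Icc 1 N, v r n ^ 2 ≤ Q) (hNQ : (N : ℝ) ≤ Q) (hT : 0 ≤ T)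
    (h : ∀ r, ∀ α : ℝ, ‖fh N (fun n => u r n - v r n) α‖ ≤ T) :
    ∑ n ∈ Icc 1 N, |BS e N (u 0) (u 1) n - BS e N (v 0) (v 1) n| ≤ 3 * (T * Q) := by
  classical
  set d : ℕ → ℝ := fun n => BS e N (u 0) (u 1) n - BS e N (v 0) (v 1) n with hd
  set g : ℕ → ℝ := fun n => if 0 ≤ d n then 1 else -1 with hg
  have hg2 : ∀ n, g n ^ 2 = 1 := by
    intro n
    rw [hg]; simp only
    split_ifs <;> norm_num
  have hgd : ∀ n, |d n| = g n * d n := by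
    intro n
    rw [hg]; simp only
    split_ifs with h1
    · rw [abs_of_nonneg h1, one_mul]
    · rw [abs_of_neg (not_le.1 h1)]; ring
  have hgs : ∑ n ∈ Icc 1 N, g n ^ 2 ≤ Q := by
    rw [sum_congr rfl (fun n _ => hg2 n), sum_const, Nat.card_Icc, nsmul_eq_mul, mul_one]
    simpa using hNQ
  have key := ternG N e (-1) he (by norm_num) 0 (fun r => (![u 0, u 1, g] : Fin 3 → ℕ → ℝ) r) (fun r => (![v 0, v 1, g] : Fin 3 → ℕ → ℝ) r) Q T
    (by intro r; fin_cases r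
        · exact hu 0
        · exact hu 1
        · exact hgs)
    (by intro r; fin_cases r
        · exact hv 0
        · exact hv 1
        · exact hgs)
    (by intro r α; fin_cases r
        · exact h 0 α
        · exact h 1 α
        · show ‖fh N (fun n => g n - g n) α‖ ≤ T
          unfold fh
          simpa using hT)
  have k1 : ∑ t ∈ TG e (-1) 0 N, u 0 t.1 * u 1 t.2 * g (n3 e (-1) 0 t) = ∑ n ∈ Icc 1 N, g n * BS e N (u 0) (u 1) n := BS_TG e N _ _ _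
  have k2 : ∑ t ∈ TG e (-1) 0 N, v 0 t.1 * v 1 t.2 * g (n3 e (-1) 0 t) = ∑ n ∈ Icc 1 N, g n * BS e N (v 0) (v 1) n := BS_TG e N _ _ _
  have key' : |∑ t ∈ TG e (-1) 0 N, u 0 t.1 * u 1 t.2 * g (n3 e (-1) 0 t) - ∑ t ∈ TG e (-1) 0 N, v 0 t.1 * v 1 t.2 * g (n3 e (-1) 0 t)| ≤ 3 * (T * Q) := key
  rw [k1, k2, ← sum_sub_distrib] at key'
  calc ∑ n ∈ Icc 1 N, |d n| = ∑ n ∈ Icc 1 N, (g n * BS e N (u 0) (u 1) n - g n * BS e N (v 0) (v 1) n) := by
        apply sum_congr rfl; intro n _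
        rw [hgd, hd]; ring
    _ ≤ _ := (le_abs_self _).trans key'

theorem bin_tele (k U : ℕ) : ∃ B : ℕ, ∀ E : ℕ, ∃ N0 : ℕ, ∀ N : ℕ, N0 ≤ N →
    ∀ z : ℕ, Real.log N ^ B ≤ z → (z : ℝ) ≤ Real.log N ^ E → ∀ (a b : Fin 2 → Fin k → ℤ) (W : ℕ) (𝒟 : Fin 2 → Finset ℕ)
    (C : Fin 2 → ℕ → ℝ), 1 ≤ W → W ^ 32 ≤ N → (∀ i, Adm (b i) W (𝒟 i) (C i)) → (∀ i, ∀ D ∈ 𝒟 i, ∀ p, p.Prime → p ∣ D → z < p) →
    (∀ i, (∏ j, b i j) ≠ 0) → (∀ i, ((∏ j, b i j).natAbs : ℝ) ≤ Real.log N) → ∀ e : ℤ, e ≠ 0 →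
    ∑ n ∈ Icc 1 N, |BS e N (FL (fun n => ArithmeticFunction.vonMangoldt n) z (a 0) (b 0) (𝒟 0) (C 0))
        (FL (fun n => ArithmeticFunction.vonMangoldt n) z (a 1) (b 1) (𝒟 1) (C 1)) n -
      BS e N (FL (lamz z) z (a 0) (b 0) (𝒟 0) (C 0)) (FL (lamz z) z (a 1) (b 1) (𝒟 1) (C 1)) n| ≤ N ^ 2 / Real.log N ^ U := by
  set g : ℕ := 2 ^ (k + 2) with hg
  obtain ⟨B, hsup⟩ := sup_R k (U + g + 3)
  refine ⟨B, fun E => ?_⟩
  obtain ⟨m1, h1⟩ := hsup E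
  obtain ⟨m3, h3⟩ := Vz_inv_small E
  obtain ⟨m4, h4⟩ := ev_L' (18 * 2 ^ g + 2)
  refine ⟨max (max m1 m3) (max m4 2), fun N hN z hz1 hz2 a b W 𝒟 C hW hWN hAdm h𝒟 hb0 hbN e he => ?_⟩
  have a1 := h1 N (le_trans (le_trans (le_max_left _ _) (le_max_left _ _)) hN) z hz1 hz2
  have a3 := h3 N (le_trans (le_trans (le_max_right _ _) (le_max_left _ _)) hN) z
  have hL := h4 N (le_trans (le_trans (le_max_left _ _) (le_max_right _ _)) hN)
  have hN2 : 2 ≤ N := le_trans (le_trans (le_max_right _ _) (le_max_right _ _)) hN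
  have hNr : (2 : ℝ) ≤ N := by exact_mod_cast hN2
  have hN0 : (0 : ℝ) < N := by linarith
  set ℓ := Real.log N with hℓ
  have p1 : (0 : ℝ) < 2 ^ g := by positivity
  have hℓ2 : 2 ≤ ℓ := by linarith
  have hℓ1 : 1 ≤ ℓ := by linarith
  have hℓ0 : 0 < ℓ := by linarith
  have hz : 1 ≤ z := by
    have : (1 : ℝ) ≤ z := (one_le_pow₀ hℓ1).trans hz1
    exact_mod_cast this
  have hVi := a3 hz hz2
  have hVi0 : 0 < (Vz z)⁻¹ := inv_pos.2 (Vz_pos z)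
  have hWW : W * W ≤ N := by
    calc W * W = W ^ 2 := (sq W).symm
      _ ≤ W ^ 32 := Nat.pow_le_pow_right hW (by norm_num)
      _ ≤ N := hWN
  have hlog : 1 + Real.log ((W * W : ℕ) : ℝ) ≤ 2 * ℓ := by
    have h5 : Real.log ((W * W : ℕ) : ℝ) ≤ ℓ := Real.log_le_log (by exact_mod_cast Nat.mul_pos hW hW) (by exact_mod_cast hWW)
    linarith
  have hlog0 : 0 ≤ Real.log ((W * W : ℕ) : ℝ) := Real.log_natCast_nonneg _
  have hsq : ∀ (i : Fin 2) (f : ℕ → ℝ), (∀ n ∈ Icc 1 N, 0 ≤ f n ∧ f n ≤ ℓ) →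
      ∑ n ∈ Icc 1 N, FL f z (a i) (b i) (𝒟 i) (C i) n ^ 2 ≤ ℓ ^ 2 * (6 * N * (2 * ℓ) ^ g) := by
    intro i f hf
    calc ∑ n ∈ Icc 1 N, FL f z (a i) (b i) (𝒟 i) (C i) n ^ 2 ≤ ∑ n ∈ Icc 1 N, ℓ ^ 2 * WW (a i) (b i) (𝒟 i) (C i) n ^ 2 := by
          apply sum_le_sum; intro n hn
          have h6 := hf n hn
          have h7 := RI_nonneg (a i) (b i) (pz z) n
          have h8 := RI_le (a i) (b i) (pz z) n
          unfold FL
          rw [show (f n * (RI (a i) (b i) (pz z) n * WW (a i) (b i) (𝒟 i) (C i) n)) ^ 2 =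
            (f n * RI (a i) (b i) (pz z) n) ^ 2 * WW (a i) (b i) (𝒟 i) (C i) n ^ 2 by ring]
          apply mul_le_mul_of_nonneg_right _ (sq_nonneg _)
          apply pow_le_pow_left₀ (mul_nonneg h6.1 h7)
          calc f n * RI (a i) (b i) (pz z) n ≤ ℓ * 1 := mul_le_mul h6.2 h8 h7 hℓ0.le
            _ = ℓ := mul_one _
      _ = ℓ ^ 2 * ∑ n ∈ Icc 1 N, WW (a i) (b i) (𝒟 i) (C i) n ^ 2 := by rw [mul_sum]
      _ ≤ _ := by
          apply mul_le_mul_of_nonneg_left _ (by positivity)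
          refine (WW_sq (a i) (hAdm i) N hW hWW).trans ?_
          apply mul_le_mul_of_nonneg_left _ (by positivity)
          exact pow_le_pow_left₀ (by linarith) hlog _
  have key := bin_L1 e he N
    (fun i => FL (fun n => ArithmeticFunction.vonMangoldt n) z (a i) (b i) (𝒟 i) (C i))
    (fun i => FL (lamz z) z (a i) (b i) (𝒟 i) (C i)) (ℓ ^ 2 * (6 * N * (2 * ℓ) ^ g)) (N / ℓ ^ (U + g + 3))
    (fun i => hsq i _ (fun n hn => by
      rw [mem_Icc] at hn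
      refine ⟨ArithmeticFunction.vonMangoldt_nonneg, ArithmeticFunction.vonMangoldt_le_log.trans ?_⟩
      exact Real.log_le_log (by exact_mod_cast hn.1) (by exact_mod_cast hn.2)))
    (fun i => hsq i _ (fun n _ => by
      refine ⟨lamz_nonneg z n, ?_⟩
      unfold lamz
      split_ifs
      · exact hVi
      · exact hℓ0.le))
    (by
      have g1 : 1 ≤ ℓ ^ 2 := one_le_pow₀ hℓ1
      have g2 : 1 ≤ (2 * ℓ) ^ g := one_le_pow₀ (by linarith)
      have g3 : (1 : ℝ) * (6 * N * 1) ≤ ℓ ^ 2 * (6 * N * (2 * ℓ) ^ g) := by gcongr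
      linarith)
    (by positivity)
    (fun i α => by
      refine le_trans (le_of_eq ?_) (a1 (a i) (b i) W (𝒟 i) (C i) hW hWN (hAdm i) (h𝒟 i) (hb0 i) (hbN i) α)
      unfold fh FL
      congr 1
      apply sum_congr rfl; intro n _
      congr 2
      ring)
  refine key.trans ?_
  calc 3 * (N / ℓ ^ (U + g + 3) * (ℓ ^ 2 * (6 * N * (2 * ℓ) ^ g))) = (18 * 2 ^ g / ℓ) * (N ^ 2 / ℓ ^ U) := by
        rw [mul_pow, pow_add, pow_add]
        field_simp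
        ring
    _ ≤ 1 * (N ^ 2 / ℓ ^ U) := by
        apply mul_le_mul_of_nonneg_right _ (by positivity)
        rw [div_le_one hℓ0]; linarith
    _ = _ := one_mul _

end Pool.Agent.H76.TB
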