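import Mathlib
import Pool.Agent.H76.TB.A14
import Pool.Agent.H76.TB.E1

/-! Densities for pairs of moduli. -/

set_option autoImplicit false

open Finset

namespace Pool.Agent.H76.TB

open Pool.Agent.H373R2.T7 (pz mem_pz)

variable {k : ℕ}

/-- divisor conditions at `p` -/
def AD2 (e : ℤ) (n : ℕ) (a b : Fin 2 → Fin k → ℤ) (D : ℕ × ℕ) (p x : ℕ) : Prop :=
  (p ∣ D.1 → (p : ℤ) ∣ Fv (a 0) (b 0) (x : ℤ)) ∧ (p ∣ D.2 → (p : ℤ) ∣ Fv (a 1) (b 1) ((n : ℤ) + e * x))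

instance (e : ℤ) (n : ℕ) (a b : Fin 2 → Fin k → ℤ) (D : ℕ × ℕ) (p x : ℕ) : Decidable (AD2 e n a b D p x) := by
  unfold AD2; infer_instance

/-- forbidden residues at `p` -/
def bd2 (e : ℤ) (n : ℕ) (a b : Fin 2 → Fin k → ℤ) (p x : ℕ) : Prop :=
  ((p : ℤ) ∣ (x : ℤ) ∨ (p : ℤ) ∣ Fv (a 0) (b 0) (x : ℤ)) ∨
    ((p : ℤ) ∣ (n : ℤ) + e * x ∨ (p : ℤ) ∣ Fv (a 1) (b 1) ((n : ℤ) + e * x))

instance (e : ℤ) (n : ℕ) (a b : Fin 2 → Fin k → ℤ) (p x : ℕ) : Decidable (bd2 e n a b p x) := by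
  unfold bd2; infer_instance

/-- their number -/
def nb2 (e : ℤ) (n : ℕ) (a b : Fin 2 → Fin k → ℤ) (p : ℕ) : ℕ := ((range p).filter (fun x => bd2 e n a b p x)).card

/-- local densities -/
noncomputable def g2 (e : ℤ) (n : ℕ) (a b : Fin 2 → Fin k → ℤ) (D : ℕ × ℕ) (p : ℕ) : ℝ :=
  (((range p).filter (fun x => AD2 e n a b D p x)).card : ℝ) / p

/-- density of a pair of moduli -/
noncomputable def G2 (e : ℤ) (n : ℕ) (a b : Fin 2 → Fin k → ℤ) (D : ℕ × ℕ) : ℝ := ∏ p ∈ (D.1 * D.2).primeFactors, g2 e n a b D p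

/-- the resultant -/
def RS (e : ℤ) (n : ℕ) (a b : Fin 2 → Fin k → ℤ) : ℤ :=
  ∏ j : Fin k, ∏ l : Fin k, (a 0 j * a 1 l * n + a 0 j * b 1 l - e * a 1 l * b 0 j)

lemma e_unit {e : ℤ} (he : e = 1 ∨ e = -1) {p : ℕ} (hp : p.Prime) : ¬ (p : ℤ) ∣ -e := by
  intro h
  have h1 : (p : ℤ) ∣ 1 := by
    rcases he with rfl | rfl
    · simpa using h
    · simpa using h
  have h2 : p ∣ 1 := by exact_mod_cast h1
  exact hp.one_lt.ne' (Nat.dvd_one.1 h2)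

lemma card_shift {e : ℤ} (he : e = 1 ∨ e = -1) (n : ℕ) {p : ℕ} (hp : p.Prime) (P : ℤ → Prop) [DecidablePred P]
    (hP : ∀ x y : ℤ, x ≡ y [ZMOD p] → (P x ↔ P y)) :
    ((range p).filter (fun x : ℕ => P ((n : ℤ) + e * x))).card = ((range p).filter (fun x : ℕ => P (x : ℤ))).card := by
  rw [← affine_count p hp (-e) n (e_unit he hp) P hP]
  congr 1
  apply filter_congr
  intro x _
  have : (n : ℤ) - -e * x = (n : ℤ) + e * x := by ring
  rw [this]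

lemma g2_nonneg (e : ℤ) (n : ℕ) (a b : Fin 2 → Fin k → ℤ) (D : ℕ × ℕ) (p : ℕ) : 0 ≤ g2 e n a b D p := by
  unfold g2; positivity

lemma G2_nonneg (e : ℤ) (n : ℕ) (a b : Fin 2 → Fin k → ℤ) (D : ℕ × ℕ) : 0 ≤ G2 e n a b D :=
  prod_nonneg fun p _ => g2_nonneg _ _ _ _ _ _

lemma g2_one {e : ℤ} (n : ℕ) (a b : Fin 2 → Fin k → ℤ) {D : ℕ × ℕ} {p : ℕ} (h1 : p ∣ D.1) (h2 : ¬ p ∣ D.2) :
    g2 e n a b D p = ((RR (a 0) (b 0) p).card : ℝ) / p := by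
  unfold g2 RR AD2
  congr 3
  apply filter_congr
  intro x _
  exact ⟨fun h => h.1 h1, fun h => ⟨fun _ => h, fun h' => absurd h' h2⟩⟩

lemma g2_two {e : ℤ} (he : e = 1 ∨ e = -1) (n : ℕ) (a b : Fin 2 → Fin k → ℤ) {D : ℕ × ℕ} {p : ℕ} (hp : p.Prime) (h1 : ¬ p ∣ D.1) (h2 : p ∣ D.2) :
    g2 e n a b D p = ((RR (a 1) (b 1) p).card : ℝ) / p := by
  unfold g2 RR AD2
  congr 2
  rw [← card_shift he n hp (fun x => (p : ℤ) ∣ Fv (a 1) (b 1) x) (fun x y h => Fv_dvd_congr (a 1) (b 1) p h)]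
  congr 1
  apply filter_congr
  intro x _
  exact ⟨fun h => h.2 h2, fun h => ⟨fun h' => absurd h' h1, fun _ => h⟩⟩

lemma G2_eq {e : ℤ} (he : e = 1 ∨ e = -1) (n : ℕ) (a b : Fin 2 → Fin k → ℤ) {D : ℕ × ℕ} (h1 : D.1 ≠ 0) (h2 : D.2 ≠ 0)
    (hcop : D.1.Coprime D.2) : G2 e n a b D = rr (a 0) (b 0) D.1 * rr (a 1) (b 1) D.2 := by
  unfold G2 rr
  rw [Nat.primeFactors_mul h1 h2, prod_union hcop.disjoint_primeFactors]
  congr 1
  · apply prod_congr rfl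
    intro p hp
    have hpp := Nat.prime_of_mem_primeFactors hp
    have hd := Nat.dvd_of_mem_primeFactors hp
    exact g2_one n a b hd (fun h => hpp.one_lt.ne' (Nat.dvd_one.1 (hcop ▸ Nat.dvd_gcd hd h)))
  · apply prod_congr rfl
    intro p hp
    have hpp := Nat.prime_of_mem_primeFactors hp
    have hd := Nat.dvd_of_mem_primeFactors hp
    exact g2_two he n a b hpp (fun h => hpp.one_lt.ne' (Nat.dvd_one.1 (hcop ▸ Nat.dvd_gcd h hd))) hd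

lemma g2_zero {e : ℤ} (n : ℕ) (a b : Fin 2 → Fin k → ℤ) {D : ℕ × ℕ} {p : ℕ} (hp : p.Prime) (h1 : p ∣ D.1) (h2 : p ∣ D.2)
    (hR : ¬ (p : ℤ) ∣ RS e n a b) : g2 e n a b D p = 0 := by
  have hp' : Prime (p : ℤ) := Nat.prime_iff_prime_int.1 hp
  unfold g2
  have : (range p).filter (fun x => AD2 e n a b D p x) = ∅ := by
    rw [filter_eq_empty_iff]
    intro x _ h
    have g1 := h.1 h1
    have g3 := h.2 h2
    unfold Fv at g1 g3
    rw [Prime.dvd_finsetProd_iff hp'] at g1 g3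
    obtain ⟨j, _, hj⟩ := g1
    obtain ⟨l, _, hl⟩ := g3
    apply hR
    unfold RS
    have g4 : (p : ℤ) ∣ a 0 j * a 1 l * n + a 0 j * b 1 l - e * a 1 l * b 0 j := by
      have g5 : a 0 j * a 1 l * (n : ℤ) + a 0 j * b 1 l - e * a 1 l * b 0 j =
          a 0 j * (a 1 l * ((n : ℤ) + e * x) + b 1 l) - e * a 1 l * (a 0 j * x + b 0 j) := by ring
      rw [g5]
      exact dvd_sub (hl.mul_left _) (hj.mul_left _)
    exact (g4.trans (dvd_prod_of_mem (fun l => a 0 j * a 1 l * (n : ℤ) + a 0 j * b 1 l - e * a 1 l * b 0 j) (mem_univ l))).trans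
      (dvd_prod_of_mem (fun j => ∏ l : Fin k, (a 0 j * a 1 l * (n : ℤ) + a 0 j * b 1 l - e * a 1 l * b 0 j)) (mem_univ j))
  rw [this]; simp

lemma g2_le {e : ℤ} (he : e = 1 ∨ e = -1) (n : ℕ) (a b : Fin 2 → Fin k → ℤ) {D : ℕ × ℕ} {p : ℕ} (hp : p.Prime)
    (hb0 : p ∣ D.1 → ¬ (p : ℤ) ∣ ∏ j, b 0 j) (hb1 : p ∣ D.2 → ¬ (p : ℤ) ∣ ∏ j, b 1 j) (h : p ∣ D.1 ∨ p ∣ D.2) :
    g2 e n a b D p ≤ 2 ^ k / p := by
  have hp0 : (0 : ℝ) < p := by exact_mod_cast hp.pos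
  unfold g2
  apply div_le_div_of_nonneg_right _ hp0.le
  rcases h with h | h
  · refine le_trans ?_ (RR_prime_le (a 0) hp (hb0 h))
    have : ((range p).filter (fun x => AD2 e n a b D p x)).card ≤ (RR (a 0) (b 0) p).card := by
      apply card_le_card
      intro x hx
      rw [mem_filter] at hx
      unfold RR
      rw [mem_filter]
      exact ⟨hx.1, hx.2.1 h⟩
    exact_mod_cast this
  · refine le_trans ?_ (RR_prime_le (a 1) hp (hb1 h))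
    have : ((range p).filter (fun x => AD2 e n a b D p x)).card ≤ (RR (a 1) (b 1) p).card := by
      unfold RR
      rw [← card_shift he n hp (fun x => (p : ℤ) ∣ Fv (a 1) (b 1) x) (fun x y h => Fv_dvd_congr (a 1) (b 1) p h)]
      apply card_le_card
      intro x hx
      rw [mem_filter] at hx ⊢
      exact ⟨hx.1, hx.2.2 h⟩
    exact_mod_cast this

lemma G2_le {e : ℤ} (he : e = 1 ∨ e = -1) (n : ℕ) (a b : Fin 2 → Fin k → ℤ) {D : ℕ × ℕ} (h1 : Squarefree D.1) (h2 : Squarefree D.2)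
    (hb0 : CB (b 0) D.1) (hb1 : CB (b 1) D.2) :
    G2 e n a b D ≤ (tau D.1 ^ k / D.1) * (tau D.2 ^ k / D.2) * (D.1.gcd D.2 : ℝ) := by
  have hlcm : Squarefree (D.1.lcm D.2) := by
    rw [Nat.squarefree_iff_factorization_le_one (Nat.lcm_ne_zero h1.ne_zero h2.ne_zero)]
    intro p
    rw [Nat.factorization_lcm h1.ne_zero h2.ne_zero]
    exact sup_le (h1.natFactorization_le_one p) (h2.natFactorization_le_one p)
  have hpf : (D.1 * D.2).primeFactors = (D.1.lcm D.2).primeFactors := by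
    ext p
    rw [Nat.mem_primeFactors, Nat.mem_primeFactors]
    constructor
    · rintro ⟨hp, hd, _⟩
      refine ⟨hp, ?_, Nat.lcm_ne_zero h1.ne_zero h2.ne_zero⟩
      rcases (Nat.Prime.dvd_mul hp).1 hd with h | h
      · exact h.trans (Nat.dvd_lcm_left _ _)
      · exact h.trans (Nat.dvd_lcm_right _ _)
    · rintro ⟨hp, hd, _⟩
      exact ⟨hp, hd.trans (Nat.lcm_dvd_mul _ _), mul_ne_zero h1.ne_zero h2.ne_zero⟩
  have hD1 : (0 : ℝ) < D.1 := by exact_mod_cast Nat.pos_of_ne_zero h1.ne_zero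
  have hD2 : (0 : ℝ) < D.2 := by exact_mod_cast Nat.pos_of_ne_zero h2.ne_zero
  have hl0 : (0 : ℝ) < (D.1.lcm D.2 : ℕ) := by exact_mod_cast Nat.pos_of_ne_zero (Nat.lcm_ne_zero h1.ne_zero h2.ne_zero)
  calc G2 e n a b D ≤ ∏ p ∈ (D.1.lcm D.2).primeFactors, ((2 : ℝ) ^ k / p) := by
        unfold G2
        rw [hpf]
        apply prod_le_prod (fun p _ => g2_nonneg _ _ _ _ _ _)
        intro p hp
        rw [← hpf] at hp
        have hpp := Nat.prime_of_mem_primeFactors hp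
        exact g2_le he n a b hpp (fun h => hb0 p hpp h) (fun h => hb1 p hpp h)
          ((Nat.Prime.dvd_mul hpp).1 (Nat.dvd_of_mem_primeFactors hp))
    _ = tau (D.1.lcm D.2) ^ k / (D.1.lcm D.2 : ℕ) := twok hlcm
    _ ≤ (tau D.1 * tau D.2) ^ k / (D.1.lcm D.2 : ℕ) := by
        apply div_le_div_of_nonneg_right _ hl0.le
        apply pow_le_pow_left₀ (tau_nonneg _)
        exact (tau_mono (Nat.lcm_dvd_mul _ _) (mul_ne_zero h1.ne_zero h2.ne_zero)).trans (tau_mul_le _ _)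
    _ = _ := by
        have h3 : (D.1 : ℝ) * D.2 = (D.1.gcd D.2 : ℕ) * (D.1.lcm D.2 : ℕ) := by exact_mod_cast (Nat.gcd_mul_lcm D.1 D.2).symm
        rw [mul_pow, div_mul_div_comm, h3]
        have hg0 : (0 : ℝ) < (D.1.gcd D.2 : ℕ) := by exact_mod_cast Nat.gcd_pos_of_pos_left _ (Nat.pos_of_ne_zero h1.ne_zero)
        field_simp

lemma tau_prime {p : ℕ} (hp : p.Prime) : tau p = 2 := by
  unfold tau
  rw [hp.divisors, card_pair hp.one_lt.ne]; norm_num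

/-- pairs of multiples of `p` -/
lemma pair_p (κ W p : ℕ) (hp : p.Prime) (𝒟₀ 𝒟₁ : Finset ℕ) (h₀ : 𝒟₀ ⊆ Icc 1 W) (h₁ : 𝒟₁ ⊆ Icc 1 W) :
    ∑ D ∈ (𝒟₀ ×ˢ 𝒟₁).filter (fun D => p ∣ D.1 ∧ p ∣ D.2), (tau D.1 ^ κ / D.1) * (tau D.2 ^ κ / D.2) * (D.1.gcd D.2 : ℝ) ≤
      (4 ^ κ / p) * (1 + Real.log W) ^ (2 ^ (2 * κ) + 2 * 2 ^ κ) := by
  classical
  have hW0 : 0 ≤ Real.log W := Real.log_natCast_nonneg _
  have hL0 : 0 ≤ 1 + Real.log W := by linarith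
  set S := (𝒟₀ ×ˢ 𝒟₁).filter (fun D => p ∣ D.1 ∧ p ∣ D.2) with hS
  have hmem : ∀ D ∈ S, (1 ≤ D.1 ∧ D.1 ≤ W) ∧ (1 ≤ D.2 ∧ D.2 ≤ W) ∧ D.1 ∈ 𝒟₀ ∧ D.2 ∈ 𝒟₁ ∧ p ∣ D.1 ∧ p ∣ D.2 := by
    intro D hD
    rw [hS, mem_filter, mem_product] at hD
    exact ⟨mem_Icc.1 (h₀ hD.1.1), mem_Icc.1 (h₁ hD.1.2), hD.1.1, hD.1.2, hD.2.1, hD.2.2⟩
  have hmaps : ∀ D ∈ S, D.1.gcd D.2 ∈ (Icc 1 W).filter (fun G => p ∣ G) := by
    intro D hD
    obtain ⟨g1, g2, _, _, g5, g6⟩ := hmem D hD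
    rw [mem_filter, mem_Icc]
    exact ⟨⟨Nat.gcd_pos_of_pos_left _ g1.1, (Nat.gcd_le_left _ g1.1).trans g1.2⟩, Nat.dvd_gcd g5 g6⟩
  rw [← sum_fiberwise_of_maps_to hmaps]
  calc ∑ G ∈ (Icc 1 W).filter (fun G => p ∣ G), ∑ D ∈ S.filter (fun D => D.1.gcd D.2 = G), (tau D.1 ^ κ / D.1) * (tau D.2 ^ κ / D.2) * (D.1.gcd D.2 : ℝ) ≤
        ∑ G ∈ (Icc 1 W).filter (fun G => p ∣ G), (tau G ^ (2 * κ) / G) * (1 + Real.log W) ^ (2 * 2 ^ κ) := by
        apply sum_le_sum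
        intro G hG
        rw [mem_filter, mem_Icc] at hG
        have hG0 : (0 : ℝ) < G := by exact_mod_cast hG.1.1
        calc ∑ D ∈ S.filter (fun D => D.1.gcd D.2 = G), (tau D.1 ^ κ / D.1) * (tau D.2 ^ κ / D.2) * (D.1.gcd D.2 : ℝ) =
              ∑ D ∈ S.filter (fun D => D.1.gcd D.2 = G), (tau D.1 ^ κ / D.1) * (tau D.2 ^ κ / D.2) * (G : ℝ) := by
              apply sum_congr rfl; intro D hD
              rw [(mem_filter.1 hD).2]
          _ ≤ ∑ D ∈ (𝒟₀.filter (fun d => G ∣ d)) ×ˢ (𝒟₁.filter (fun d => G ∣ d)), (tau D.1 ^ κ / D.1) * (tau D.2 ^ κ / D.2) * (G : ℝ) := by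
              apply sum_le_sum_of_subset_of_nonneg
              · intro D hD
                rw [mem_filter] at hD
                obtain ⟨_, _, g3, g4, _, _⟩ := hmem D hD.1
                rw [mem_product, mem_filter, mem_filter]
                exact ⟨⟨g3, hD.2 ▸ Nat.gcd_dvd_left _ _⟩, ⟨g4, hD.2 ▸ Nat.gcd_dvd_right _ _⟩⟩
              · intro D _ _
                have := tau_nonneg D.1
                have := tau_nonneg D.2
                positivity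
          _ = ((∑ d ∈ 𝒟₀.filter (fun d => G ∣ d), tau d ^ κ / d) * (∑ d ∈ 𝒟₁.filter (fun d => G ∣ d), tau d ^ κ / d)) * G := by
              rw [← sum_mul, sum_mul_sum, ← sum_product']
          _ ≤ (((tau G ^ κ / G) * (1 + Real.log W) ^ (2 ^ κ)) * ((tau G ^ κ / G) * (1 + Real.log W) ^ (2 ^ κ))) * G := by
              apply mul_le_mul_of_nonneg_right _ hG0.le
              apply mul_le_mul (mult_sum κ W G hG.1.1 𝒟₀ h₀) (mult_sum κ W G hG.1.1 𝒟₁ h₁)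
              · exact sum_nonneg fun d _ => div_nonneg (pow_nonneg (tau_nonneg _) _) (Nat.cast_nonneg _)
              · have := tau_nonneg G
                positivity
          _ = _ := by
              rw [show 2 * κ = κ + κ by ring, pow_add, show 2 * 2 ^ κ = 2 ^ κ + 2 ^ κ by ring, pow_add]
              field_simp
    _ = (∑ G ∈ (Icc 1 W).filter (fun G => p ∣ G), (tau G ^ (2 * κ) / G)) * (1 + Real.log W) ^ (2 * 2 ^ κ) := by rw [sum_mul]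
    _ ≤ ((tau p ^ (2 * κ) / p) * (1 + Real.log W) ^ (2 ^ (2 * κ))) * (1 + Real.log W) ^ (2 * 2 ^ κ) := by
        apply mul_le_mul_of_nonneg_right _ (by positivity)
        exact mult_sum (2 * κ) W p hp.pos (Icc 1 W) (Subset.refl _)
    _ = _ := by
        rw [tau_prime hp, pow_mul, pow_add]
        norm_num
        ring

lemma pair_p2 (κ W p : ℕ) (hp : p.Prime) (𝒟₀ 𝒟₁ : Finset ℕ) (h₀ : 𝒟₀ ⊆ Icc 1 W) (h₁ : 𝒟₁ ⊆ Icc 1 W) :
    ∑ D ∈ (𝒟₀ ×ˢ 𝒟₁).filter (fun D => p ∣ D.1 ∧ p ∣ D.2), (tau D.1 ^ κ / D.1) * (tau D.2 ^ κ / D.2) ≤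
      (4 ^ κ / p ^ 2) * (1 + Real.log W) ^ (2 * 2 ^ κ) := by
  classical
  have hW0 : 0 ≤ Real.log W := Real.log_natCast_nonneg _
  have hL0 : 0 ≤ 1 + Real.log W := by linarith
  have e1 : (𝒟₀ ×ˢ 𝒟₁).filter (fun D => p ∣ D.1 ∧ p ∣ D.2) = (𝒟₀.filter (fun d => p ∣ d)) ×ˢ (𝒟₁.filter (fun d => p ∣ d)) := by
    ext D
    simp only [mem_filter, mem_product]
    tauto
  rw [e1]
  calc ∑ D ∈ (𝒟₀.filter (fun d => p ∣ d)) ×ˢ (𝒟₁.filter (fun d => p ∣ d)), (tau D.1 ^ κ / D.1) * (tau D.2 ^ κ / D.2) =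
        (∑ d ∈ 𝒟₀.filter (fun d => p ∣ d), tau d ^ κ / d) * (∑ d ∈ 𝒟₁.filter (fun d => p ∣ d), tau d ^ κ / d) := by
        rw [sum_mul_sum, ← sum_product']
    _ ≤ ((tau p ^ κ / p) * (1 + Real.log W) ^ (2 ^ κ)) * ((tau p ^ κ / p) * (1 + Real.log W) ^ (2 ^ κ)) := by
        apply mul_le_mul (mult_sum κ W p hp.pos 𝒟₀ h₀) (mult_sum κ W p hp.pos 𝒟₁ h₁)
        · exact sum_nonneg fun d _ => div_nonneg (pow_nonneg (tau_nonneg _) _) (Nat.cast_nonneg _)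
        · have := tau_nonneg p
          positivity
    _ = _ := by
        rw [tau_prime hp, show (4 : ℝ) = 2 * 2 by norm_num, mul_pow, show 2 * 2 ^ κ = 2 ^ κ + 2 ^ κ by ring, pow_add]
        ring

/-- the pairs with a common factor -/
lemma G2_sum (z W : ℕ) (hz : 1 ≤ z) {e : ℤ} (he : e = 1 ∨ e = -1) (n : ℕ) (a b : Fin 2 → Fin k → ℤ) (𝒟 : Fin 2 → Finset ℕ)
    (C : Fin 2 → ℕ → ℝ) (hAdm : ∀ i, Adm (b i) W (𝒟 i) (C i)) (h𝒟 : ∀ i, ∀ D ∈ 𝒟 i, ∀ p, p.Prime → p ∣ D → z < p)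
    (hR : RS e n a b ≠ 0) :
    ∑ D ∈ 𝒟 0 ×ˢ 𝒟 1, |G2 e n a b D - rr (a 0) (b 0) D.1 * rr (a 1) (b 1) D.2| ≤
      (4 ^ k / z) * ((((RS e n a b).natAbs.primeFactors.card : ℝ) + 1) * (1 + Real.log W) ^ (2 ^ (2 * k) + 2 * 2 ^ k)) := by
  classical
  have hW0 : 0 ≤ Real.log W := Real.log_natCast_nonneg _
  have hL0 : 1 ≤ 1 + Real.log W := by linarith
  have hz0 : (0 : ℝ) < z := by exact_mod_cast hz
  set PR := (RS e n a b).natAbs.primeFactors.filter (fun p => z < p) with hPR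
  set PW := (Ioc z W).filter Nat.Prime with hPW
  set h : ℕ × ℕ → ℝ := fun D => (tau D.1 ^ k / D.1) * (tau D.2 ^ k / D.2) with hh
  have hh0 : ∀ D, 0 ≤ h D := by
    intro D
    have := tau_nonneg D.1
    have := tau_nonneg D.2
    rw [hh]; positivity
  have hpt : ∀ D ∈ 𝒟 0 ×ˢ 𝒟 1, |G2 e n a b D - rr (a 0) (b 0) D.1 * rr (a 1) (b 1) D.2| ≤
      ∑ p ∈ PR, (if p ∣ D.1 ∧ p ∣ D.2 then h D * (D.1.gcd D.2 : ℝ) else 0) + ∑ p ∈ PW, (if p ∣ D.1 ∧ p ∣ D.2 then h D else 0) := by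
    intro D hD
    rw [mem_product] at hD
    have s1 := (hAdm 0).sq D.1 hD.1
    have s2 := (hAdm 1).sq D.2 hD.2
    have n1 : ∀ p ∈ PR, 0 ≤ (if p ∣ D.1 ∧ p ∣ D.2 then h D * (D.1.gcd D.2 : ℝ) else 0) := by
      intro p _; split_ifs
      · exact mul_nonneg (hh0 D) (Nat.cast_nonneg _)
      · exact le_rfl
    have n2 : ∀ p ∈ PW, 0 ≤ (if p ∣ D.1 ∧ p ∣ D.2 then h D else 0) := by
      intro p _; split_ifs
      · exact hh0 D
      · exact le_rfl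
    by_cases hcop : D.1.Coprime D.2
    · rw [G2_eq he n a b s1.ne_zero s2.ne_zero hcop, sub_self, abs_zero]
      exact add_nonneg (sum_nonneg n1) (sum_nonneg n2)
    · obtain ⟨q, hq, hq1, hq2⟩ := Nat.Prime.not_coprime_iff_dvd.1 hcop
      have hqz := h𝒟 0 D.1 hD.1 q hq hq1
      have hqW : q ≤ W := by
        have g1 := mem_Icc.1 ((hAdm 0).sub hD.1)
        exact (Nat.le_of_dvd (by omega) hq1).trans g1.2
      have hqPW : q ∈ PW := by rw [hPW, mem_filter, mem_Ioc]; exact ⟨⟨hqz, hqW⟩, hq⟩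
      have b1 : rr (a 0) (b 0) D.1 * rr (a 1) (b 1) D.2 ≤ ∑ p ∈ PW, (if p ∣ D.1 ∧ p ∣ D.2 then h D else 0) := by
        refine le_trans ?_ (single_le_sum n2 hqPW)
        rw [if_pos ⟨hq1, hq2⟩]
        exact mul_le_mul (rr_le (a 0) s1 ((hAdm 0).cb D.1 hD.1)) (rr_le (a 1) s2 ((hAdm 1).cb D.2 hD.2)) (rr_nonneg _ _ _)
          (div_nonneg (pow_nonneg (tau_nonneg _) _) (Nat.cast_nonneg _))
      have b2 : G2 e n a b D ≤ ∑ p ∈ PR, (if p ∣ D.1 ∧ p ∣ D.2 then h D * (D.1.gcd D.2 : ℝ) else 0) := by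
        by_cases hqR : (q : ℤ) ∣ RS e n a b
        · have hqPR : q ∈ PR := by
            rw [hPR, mem_filter, Nat.mem_primeFactors]
            exact ⟨⟨hq, Int.natCast_dvd.1 hqR, Int.natAbs_ne_zero.2 hR⟩, hqz⟩
          refine le_trans ?_ (single_le_sum n1 hqPR)
          rw [if_pos ⟨hq1, hq2⟩]
          exact G2_le he n a b s1 s2 ((hAdm 0).cb D.1 hD.1) ((hAdm 1).cb D.2 hD.2)
        · have : G2 e n a b D = 0 := by
            unfold G2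
            apply prod_eq_zero (i := q)
            · rw [Nat.mem_primeFactors]
              exact ⟨hq, hq1.mul_right _, mul_ne_zero s1.ne_zero s2.ne_zero⟩
            · exact g2_zero n a b hq hq1 hq2 hqR
          rw [this]
          exact sum_nonneg n1
      have b3 := G2_nonneg e n a b D
      have b4 : 0 ≤ rr (a 0) (b 0) D.1 * rr (a 1) (b 1) D.2 := mul_nonneg (rr_nonneg _ _ _) (rr_nonneg _ _ _)
      rw [abs_le]
      constructor <;> linarith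
  refine (sum_le_sum hpt).trans ?_
  rw [sum_add_distrib, sum_comm, sum_comm (s := 𝒟 0 ×ˢ 𝒟 1) (t := PW)]
  have t1 : ∑ p ∈ PR, ∑ D ∈ 𝒟 0 ×ˢ 𝒟 1, (if p ∣ D.1 ∧ p ∣ D.2 then h D * (D.1.gcd D.2 : ℝ) else 0) ≤
      PR.card * ((4 ^ k / z) * (1 + Real.log W) ^ (2 ^ (2 * k) + 2 * 2 ^ k)) := by
    rw [← nsmul_eq_mul, ← sum_const]
    apply sum_le_sum
    intro p hp
    rw [hPR, mem_filter, Nat.mem_primeFactors] at hp
    rw [← sum_filter]
    refine (pair_p k W p hp.1.1 (𝒟 0) (𝒟 1) (hAdm 0).sub (hAdm 1).sub).trans ?_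
    apply mul_le_mul_of_nonneg_right _ (by positivity)
    apply div_le_div_of_nonneg_left (by positivity) hz0
    exact_mod_cast hp.2.le
  have t2 : ∑ p ∈ PW, ∑ D ∈ 𝒟 0 ×ˢ 𝒟 1, (if p ∣ D.1 ∧ p ∣ D.2 then h D else 0) ≤
      (4 ^ k / z) * (1 + Real.log W) ^ (2 ^ (2 * k) + 2 * 2 ^ k) := by
    calc ∑ p ∈ PW, ∑ D ∈ 𝒟 0 ×ˢ 𝒟 1, (if p ∣ D.1 ∧ p ∣ D.2 then h D else 0) ≤
          ∑ p ∈ PW, (4 ^ k / (p : ℝ) ^ 2) * (1 + Real.log W) ^ (2 * 2 ^ k) := by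
          apply sum_le_sum
          intro p hp
          rw [hPW, mem_filter] at hp
          rw [← sum_filter]
          exact pair_p2 k W p hp.2 (𝒟 0) (𝒟 1) (hAdm 0).sub (hAdm 1).sub
      _ ≤ ∑ p ∈ Ioc z W, (4 ^ k / (p : ℝ) ^ 2) * (1 + Real.log W) ^ (2 * 2 ^ k) :=
          sum_le_sum_of_subset_of_nonneg (filter_subset _ _) (fun _ _ _ => by positivity)
      _ = 4 ^ k * (1 + Real.log W) ^ (2 * 2 ^ k) * ∑ p ∈ Ioc z W, ((p : ℝ) ^ 2)⁻¹ := by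
          rw [mul_sum]; apply sum_congr rfl; intro p _; rw [div_eq_mul_inv]; ring
      _ ≤ 4 ^ k * (1 + Real.log W) ^ (2 * 2 ^ k) * (z : ℝ)⁻¹ := by
          apply mul_le_mul_of_nonneg_left _ (by positivity)
          by_cases hzW : z ≤ W
          · have h5 : (∑ i ∈ Ioc z W, ((i : ℝ) ^ 2)⁻¹) ≤ (z : ℝ)⁻¹ - (W : ℝ)⁻¹ := sum_Ioc_inv_sq_le_sub (by omega) hzW
            have h6 : 0 ≤ (W : ℝ)⁻¹ := by positivity
            linarith
          · rw [Ioc_eq_empty (by omega), sum_empty]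
            positivity
      _ = (4 ^ k / z) * (1 + Real.log W) ^ (2 * 2 ^ k) := by rw [div_eq_mul_inv]; ring
      _ ≤ _ := by
          apply mul_le_mul_of_nonneg_left _ (by positivity)
          exact pow_le_pow_right₀ hL0 (Nat.le_add_left _ _)
  have t3 : (PR.card : ℝ) ≤ (RS e n a b).natAbs.primeFactors.card := by exact_mod_cast card_filter_le _ _
  calc _ ≤ PR.card * ((4 ^ k / z) * (1 + Real.log W) ^ (2 ^ (2 * k) + 2 * 2 ^ k)) +
        (4 ^ k / z) * (1 + Real.log W) ^ (2 ^ (2 * k) + 2 * 2 ^ k) := add_le_add t1 t2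
    _ ≤ (RS e n a b).natAbs.primeFactors.card * ((4 ^ k / z) * (1 + Real.log W) ^ (2 ^ (2 * k) + 2 * 2 ^ k)) +
        (4 ^ k / z) * (1 + Real.log W) ^ (2 ^ (2 * k) + 2 * 2 ^ k) := by
        apply add_le_add _ le_rfl
        exact mul_le_mul_of_nonneg_right t3 (by positivity)
    _ = _ := by ring

end Pool.Agent.H76.TB
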