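import Mathlib
import Pool.Agent.H76.TB.D1
import Pool.Agent.H76.TB.E2

/-! Main terms of binary sums. -/

set_option autoImplicit false

open Finset

namespace Pool.Agent.H76.TB

open Pool.Agent.H373R2.T7 (ev_log' ev_L' pz mem_pz Vz Vz_pos lamz lamz_nonneg Vz_inv_small es es_le es_nonneg sum_pz_le choice)

variable {k : ℕ}

/-- length of the range -/
def XX (e : ℤ) (N n : ℕ) : ℕ := if e = 1 then N - n else n - 1

lemma XX_le (e : ℤ) (N n : ℕ) (hn : n ≤ N) : XX e N n ≤ N := by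
  unfold XX; split_ifs <;> omega

lemma RX_eq {e : ℤ} (he : e = 1 ∨ e = -1) {N n : ℕ} (hn : n ∈ Icc 1 N) : RX e N n = Icc 1 (XX e N n) := by
  rw [mem_Icc] at hn
  ext x
  rw [mem_RX, mem_Icc]
  unfold XX
  rcases he with rfl | rfl
  · rw [if_pos rfl]; omega
  · rw [if_neg (by norm_num)]; omega

lemma shift_mod (e : ℤ) (n p x : ℕ) : (n : ℤ) + e * ((x % p : ℕ) : ℤ) ≡ (n : ℤ) + e * x [ZMOD p] :=
  (Int.ModEq.refl _).add (((Int.natCast_modEq_iff).2 (Nat.mod_modEq x p)).mul_left e)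

lemma AD2_mod (e : ℤ) (n : ℕ) (a b : Fin 2 → Fin k → ℤ) (D : ℕ × ℕ) (p x : ℕ) : AD2 e n a b D p (x % p) ↔ AD2 e n a b D p x := by
  unfold AD2
  rw [Fv_dvd_congr (a 0) (b 0) p ((Int.natCast_modEq_iff).2 (Nat.mod_modEq x p)), Fv_dvd_congr (a 1) (b 1) p (shift_mod e n p x)]

lemma dvd_congr' {p : ℕ} {x y : ℤ} (h : x ≡ y [ZMOD p]) : (p : ℤ) ∣ x ↔ (p : ℤ) ∣ y := by
  have h1 := h.dvd
  constructor
  · intro h2
    have := dvd_add h1 h2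
    rwa [sub_add_cancel] at this
  · intro h2
    have := dvd_sub h2 h1
    rwa [sub_sub_cancel] at this

lemma bd2_mod (e : ℤ) (n : ℕ) (a b : Fin 2 → Fin k → ℤ) (p x : ℕ) : bd2 e n a b p (x % p) ↔ bd2 e n a b p x := by
  unfold bd2
  rw [Fv_dvd_congr (a 0) (b 0) p ((Int.natCast_modEq_iff).2 (Nat.mod_modEq x p)), Fv_dvd_congr (a 1) (b 1) p (shift_mod e n p x),
    dvd_congr' ((Int.natCast_modEq_iff).2 (Nat.mod_modEq x p)), dvd_congr' (shift_mod e n p x)]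

lemma dvd_AD2 (e : ℤ) (n : ℕ) (a b : Fin 2 → Fin k → ℤ) {D : ℕ × ℕ} (h1 : Squarefree D.1) (h2 : Squarefree D.2) (x : ℕ) :
    (((D.1 : ℕ) : ℤ) ∣ Fv (a 0) (b 0) (x : ℤ) ∧ ((D.2 : ℕ) : ℤ) ∣ Fv (a 1) (b 1) ((n : ℤ) + e * x)) ↔
      ∀ p ∈ (D.1 * D.2).primeFactors, AD2 e n a b D p (x % p) := by
  rw [sq_dvd_iff h1, sq_dvd_iff h2]
  constructor
  · rintro ⟨g1, g3⟩ p hp
    have hpp := Nat.prime_of_mem_primeFactors hp
    rw [AD2_mod]
    exact ⟨fun h => g1 p hpp h, fun h => g3 p hpp h⟩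
  · intro h
    have h0 : D.1 * D.2 ≠ 0 := mul_ne_zero h1.ne_zero h2.ne_zero
    constructor
    · intro p hp hd
      have := h p (Nat.mem_primeFactors.2 ⟨hp, hd.mul_right _, h0⟩)
      rw [AD2_mod] at this
      exact this.1 hd
    · intro p hp hd
      have := h p (Nat.mem_primeFactors.2 ⟨hp, hd.mul_left _, h0⟩)
      rw [AD2_mod] at this
      exact this.2 hd

lemma nb2_le {e : ℤ} (he : e = 1 ∨ e = -1) (n : ℕ) (a b : Fin 2 → Fin k → ℤ) (p : ℕ) (hp : p.Prime)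
    (h : ∀ i j, IsCoprime (a i j) (b i j)) : nb2 e n a b p ≤ 2 * (k + 1) := by
  have hno : ∀ i j, ¬ ((p : ℤ) ∣ a i j ∧ (p : ℤ) ∣ b i j) := by
    intro i j hd
    have h1 : (p : ℤ) ∣ 1 := by
      obtain ⟨u, v, huv⟩ := h i j
      rw [← huv]
      exact dvd_add (hd.1.mul_left _) (hd.2.mul_left _)
    have h2 : p ∣ 1 := by exact_mod_cast h1
    exact hp.one_lt.ne' (Nat.dvd_one.1 h2)
  set P0 : ℤ → Prop := fun x => (p : ℤ) ∣ x ∨ (p : ℤ) ∣ Fv (a 0) (b 0) x with hP0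
  set P1 : ℤ → Prop := fun x => (p : ℤ) ∣ x ∨ (p : ℤ) ∣ Fv (a 1) (b 1) x with hP1
  have c0 : ((range p).filter (fun x : ℕ => P0 (x : ℤ))).card ≤ k + 1 :=
    BD_le (fun _ : Fin 3 => a 0) (fun _ => b 0) p hp 0 (fun j => hno 0 j)
  have c1 : ((range p).filter (fun x : ℕ => P1 (x : ℤ))).card ≤ k + 1 :=
    BD_le (fun _ : Fin 3 => a 1) (fun _ => b 1) p hp 0 (fun j => hno 1 j)
  have c1' : ((range p).filter (fun x : ℕ => P1 ((n : ℤ) + e * x))).card ≤ k + 1 := by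
    rw [card_shift he n hp P1 (fun x y hxy => by
      rw [hP1]; simp only
      rw [dvd_congr' hxy, Fv_dvd_congr (a 1) (b 1) p hxy])]
    exact c1
  have hsub : (range p).filter (fun x => bd2 e n a b p x) ⊆
      (range p).filter (fun x : ℕ => P0 (x : ℤ)) ∪ (range p).filter (fun x : ℕ => P1 ((n : ℤ) + e * x)) := by
    intro x hx
    rw [mem_filter] at hx
    rw [mem_union, mem_filter, mem_filter]
    rcases hx.2 with h3 | h3
    · exact Or.inl ⟨hx.1, h3⟩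
    · exact Or.inr ⟨hx.1, h3⟩
  unfold nb2
  have := (card_le_card hsub).trans (card_union_le _ _)
  omega

lemma model2 (z : ℕ) (e : ℤ) (N n : ℕ) (a b : Fin 2 → Fin k → ℤ) (𝒟 : Fin 2 → Finset ℕ) (C : Fin 2 → ℕ → ℝ)
    (hsq : ∀ i, ∀ D ∈ 𝒟 i, Squarefree D) :
    BS e N (FL (lamz z) z (a 0) (b 0) (𝒟 0) (C 0)) (FL (lamz z) z (a 1) (b 1) (𝒟 1) (C 1)) n =
      ((Vz z)⁻¹) ^ 2 * ∑ D ∈ 𝒟 0 ×ˢ 𝒟 1, (C 0 D.1 * C 1 D.2) *
        ((((RX e N n).filter (fun x => ∀ p ∈ (D.1 * D.2).primeFactors, AD2 e n a b D p (x % p))).filter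
          (fun x => ∀ p ∈ pz z, ¬ bd2 e n a b p (x % p))).card : ℝ) := by
  classical
  unfold BS
  have e1 : ∀ x ∈ RX e N n, FL (lamz z) z (a 0) (b 0) (𝒟 0) (C 0) x * FL (lamz z) z (a 1) (b 1) (𝒟 1) (C 1) (yy e n x) =
      ((Vz z)⁻¹) ^ 2 * ∑ D ∈ 𝒟 0 ×ˢ 𝒟 1, (C 0 D.1 * C 1 D.2) *
        (if (∀ p ∈ (D.1 * D.2).primeFactors, AD2 e n a b D p (x % p)) ∧ (∀ p ∈ pz z, ¬ bd2 e n a b p (x % p)) then (1 : ℝ) else 0) := by
    intro x hx
    rw [FL_lamz, FL_lamz, yy_cast hx]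
    have hiff : (∀ p ∈ pz z, ¬ bd2 e n a b p (x % p)) ↔ ((∀ p ∈ pz z, ¬ ((p : ℤ) ∣ (x : ℤ) ∨ (p : ℤ) ∣ Fv (a 0) (b 0) (x : ℤ))) ∧
        (∀ p ∈ pz z, ¬ ((p : ℤ) ∣ (n : ℤ) + e * x ∨ (p : ℤ) ∣ Fv (a 1) (b 1) ((n : ℤ) + e * x)))) := by
      constructor
      · intro h
        exact ⟨fun p hp h' => h p hp ((bd2_mod e n a b p x).2 (Or.inl h')), fun p hp h' => h p hp ((bd2_mod e n a b p x).2 (Or.inr h'))⟩
      · rintro ⟨g1, g3⟩ p hp h'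
        rcases (bd2_mod e n a b p x).1 h' with h4 | h4
        · exact g1 p hp h4
        · exact g3 p hp h4
    have hsum : WZ (a 0) (b 0) (𝒟 0) (C 0) (x : ℤ) * WZ (a 1) (b 1) (𝒟 1) (C 1) ((n : ℤ) + e * x) =
        ∑ D ∈ 𝒟 0 ×ˢ 𝒟 1, (C 0 D.1 * C 1 D.2) * (if ∀ p ∈ (D.1 * D.2).primeFactors, AD2 e n a b D p (x % p) then (1 : ℝ) else 0) := by
      unfold WZ
      rw [sum_mul_sum, ← sum_product']
      apply sum_congr rfl
      intro D hD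
      rw [mem_product] at hD
      have h4 := dvd_AD2 e n a b (hsq 0 D.1 hD.1) (hsq 1 D.2 hD.2) x
      by_cases h5 : ((D.1 : ℕ) : ℤ) ∣ Fv (a 0) (b 0) (x : ℤ)
      · by_cases h6 : ((D.2 : ℕ) : ℤ) ∣ Fv (a 1) (b 1) ((n : ℤ) + e * x)
        · rw [if_pos h5, if_pos h6, if_pos (h4.1 ⟨h5, h6⟩)]; ring
        · rw [if_neg h6, if_neg (fun h => h6 (h4.2 h).2)]; ring
      · rw [if_neg h5, if_neg (fun h => h5 (h4.2 h).1)]; ring
    by_cases h7 : ∀ p ∈ pz z, ¬ bd2 e n a b p (x % p)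
    · have h8 := hiff.1 h7
      rw [if_pos h8.1, if_pos h8.2]
      have : (Vz z)⁻¹ * (1 * WZ (a 0) (b 0) (𝒟 0) (C 0) (x : ℤ)) * ((Vz z)⁻¹ * (1 * WZ (a 1) (b 1) (𝒟 1) (C 1) ((n : ℤ) + e * x))) =
          ((Vz z)⁻¹) ^ 2 * (WZ (a 0) (b 0) (𝒟 0) (C 0) (x : ℤ) * WZ (a 1) (b 1) (𝒟 1) (C 1) ((n : ℤ) + e * x)) := by ring
      rw [this, hsum]
      congr 1
      apply sum_congr rfl; intro D _
      congr 1
      by_cases h9 : ∀ p ∈ (D.1 * D.2).primeFactors, AD2 e n a b D p (x % p)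
      · rw [if_pos h9, if_pos ⟨h9, h7⟩]
      · rw [if_neg h9, if_neg (fun h => h9 h.1)]
    · have h8 : ∀ D ∈ 𝒟 0 ×ˢ 𝒟 1, (C 0 D.1 * C 1 D.2) *
        (if (∀ p ∈ (D.1 * D.2).primeFactors, AD2 e n a b D p (x % p)) ∧ (∀ p ∈ pz z, ¬ bd2 e n a b p (x % p)) then (1 : ℝ) else 0) = 0 := by
        intro D _
        rw [if_neg (fun h => h7 h.2), mul_zero]
      rw [sum_eq_zero h8, mul_zero]
      by_cases h9 : ∀ p ∈ pz z, ¬ ((p : ℤ) ∣ (x : ℤ) ∨ (p : ℤ) ∣ Fv (a 0) (b 0) (x : ℤ))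
      · rw [if_pos h9, if_neg (fun h => h7 (hiff.2 ⟨h9, h⟩))]; ring
      · rw [if_neg h9]; ring
  rw [sum_congr rfl e1, ← mul_sum, sum_comm]
  congr 1
  apply sum_congr rfl; intro D _
  rw [← mul_sum]
  congr 1
  rw [filter_filter, card_filter]
  push_cast
  rfl

lemma omega_le (n : ℕ) (hn : n ≠ 0) : (n.primeFactors.card : ℝ) ≤ 2 * Real.log n := by
  have h1 : 2 ^ n.primeFactors.card ≤ n := by
    calc 2 ^ n.primeFactors.card = ∏ _p ∈ n.primeFactors, 2 := by rw [prod_const]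
      _ ≤ ∏ p ∈ n.primeFactors, p := prod_le_prod' fun p hp => (Nat.prime_of_mem_primeFactors hp).two_le
      _ ≤ n := Nat.le_of_dvd (Nat.pos_of_ne_zero hn) (Nat.prod_primeFactors_dvd n)
  have h2 : ((2 : ℝ) ^ n.primeFactors.card) ≤ n := by exact_mod_cast h1
  have h3 := Real.log_le_log (by positivity) h2
  rw [Real.log_pow] at h3
  have h4 : (1 : ℝ) / 2 ≤ Real.log 2 := by linarith [Real.log_two_gt_d9]
  have h5 : (0 : ℝ) ≤ n.primeFactors.card := Nat.cast_nonneg _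
  nlinarith

lemma RS_size (e : ℤ) (he : e = 1 ∨ e = -1) (N n : ℕ) (hn : n ≤ N) (hN : 2 ≤ N) (a b : Fin 2 → Fin k → ℤ)
    (ha : ∀ i j, |a i j| ≤ N) (hb : ∀ i j, |b i j| ≤ N) : (RS e n a b).natAbs ≤ (N ^ 5) ^ (k * k) := by
  have hN' : (2 : ℤ) ≤ N := by exact_mod_cast hN
  have hn' : (n : ℤ) ≤ N := by exact_mod_cast hn
  have hn0 : (0 : ℤ) ≤ n := Nat.cast_nonneg n
  have he' : |e| = 1 := by rcases he with rfl | rfl <;> norm_num
  have h1 : ∀ j l, |a 0 j * a 1 l * n + a 0 j * b 1 l - e * a 1 l * b 0 j| ≤ (N : ℤ) ^ 5 := by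
    intro j l
    have t1 : |a 0 j * a 1 l * (n : ℤ)| ≤ (N : ℤ) * N * N := by
      rw [abs_mul, abs_mul, abs_of_nonneg hn0]
      gcongr
      · exact ha 0 j
      · exact ha 1 l
    have t2 : |a 0 j * b 1 l| ≤ (N : ℤ) * N := by
      rw [abs_mul]
      gcongr
      · exact ha 0 j
      · exact hb 1 l
    have t3 : |e * a 1 l * b 0 j| ≤ (N : ℤ) * N := by
      rw [abs_mul, abs_mul, he', one_mul]
      gcongr
      · exact ha 1 l
      · exact hb 0 j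
    have t4 : |a 0 j * a 1 l * n + a 0 j * b 1 l - e * a 1 l * b 0 j| ≤ (N : ℤ) * N * N + N * N + N * N := by
      refine (abs_sub _ _).trans ?_
      have := abs_add_le (a 0 j * a 1 l * (n : ℤ)) (a 0 j * b 1 l)
      linarith
    refine t4.trans ?_
    have hNN : (4 : ℤ) ≤ (N : ℤ) * N := by nlinarith
    have hN2 : (0 : ℤ) ≤ (N : ℤ) * N * N := by positivity
    have t5 : (4 : ℤ) * (N * N * N) ≤ (N : ℤ) ^ 5 := by
      have : (N : ℤ) ^ 5 = (N * N) * (N * N * N) := by ring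
      rw [this]
      exact mul_le_mul_of_nonneg_right hNN hN2
    have t6 : (N : ℤ) * N ≤ N * N * N := by nlinarith
    linarith
  have h2 : |RS e n a b| ≤ ((N : ℤ) ^ 5) ^ (k * k) := by
    unfold RS
    rw [abs_prod]
    calc ∏ j : Fin k, |∏ l : Fin k, (a 0 j * a 1 l * (n : ℤ) + a 0 j * b 1 l - e * a 1 l * b 0 j)| ≤ ∏ _j : Fin k, ((N : ℤ) ^ 5) ^ k := by
          apply prod_le_prod (fun _ _ => abs_nonneg _)
          intro j _
          rw [abs_prod]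
          calc ∏ l : Fin k, |a 0 j * a 1 l * (n : ℤ) + a 0 j * b 1 l - e * a 1 l * b 0 j| ≤ ∏ _l : Fin k, (N : ℤ) ^ 5 :=
                prod_le_prod (fun _ _ => abs_nonneg _) (fun l _ => h1 j l)
            _ = _ := by rw [prod_const, card_univ, Fintype.card_fin]
      _ = _ := by rw [prod_const, card_univ, Fintype.card_fin, ← pow_mul]
  have h3 : (((RS e n a b).natAbs : ℕ) : ℤ) ≤ (((N ^ 5) ^ (k * k) : ℕ) : ℤ) := by
    rw [Int.natCast_natAbs]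
    push_cast
    exact h2
  exact_mod_cast h3

/-- the main factor -/
noncomputable def M2 (e : ℤ) (n z : ℕ) (a b : Fin 2 → Fin k → ℤ) : ℝ := ((Vz z)⁻¹) ^ 2 * ∏ p ∈ pz z, (1 - (nb2 e n a b p : ℝ) / p)

end Pool.Agent.H76.TB
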