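import Mathlib
import Pool.Agent.H76.TB.E3

/-! The model sums for every `n`. -/

set_option autoImplicit false

open Finset

namespace Pool.Agent.H76.TB

open Pool.Agent.H373R2.T7 (ev_log' ev_L' pz mem_pz Vz Vz_pos lamz lamz_nonneg Vz_inv_small es es_le es_nonneg sum_pz_le choice)

variable {k : ℕ}

theorem mlem2 (k U : ℕ) : ∃ B : ℕ, ∀ E : ℕ, ∃ N0 : ℕ, ∀ N : ℕ, N0 ≤ N → ∀ z : ℕ, Real.log N ^ B ≤ z → (z : ℝ) ≤ Real.log N ^ E →
    ∀ (a b : Fin 2 → Fin k → ℤ) (W : ℕ) (𝒟 : Fin 2 → Finset ℕ) (C : Fin 2 → ℕ → ℝ), 1 ≤ W → W ^ 32 ≤ N → (∀ i, Adm (b i) W (𝒟 i) (C i)) →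
    (∀ i, ∀ D ∈ 𝒟 i, ∀ p, p.Prime → p ∣ D → z < p) → (∀ i j, |a i j| ≤ N) → (∀ i j, |b i j| ≤ N) → (∀ i j, IsCoprime (a i j) (b i j)) →
    ∀ e : ℤ, (e = 1 ∨ e = -1) → ∀ n ∈ Icc 1 N, RS e n a b ≠ 0 →
    |BS e N (FL (lamz z) z (a 0) (b 0) (𝒟 0) (C 0)) (FL (lamz z) z (a 1) (b 1) (𝒟 1) (C 1)) n -
      (XX e N n * M2 e n z a b) * ((∑ D ∈ 𝒟 0, C 0 D * rr (a 0) (b 0) D) * ∑ D ∈ 𝒟 1, C 1 D * rr (a 1) (b 1) D)| ≤ N / Real.log N ^ U := by
  classical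
  set g : ℕ := 2 ^ k with hg
  set U' : ℕ := U + 2 * g + 6 with hU'
  set c : ℕ := 2 ^ (2 * k) + 2 * 2 ^ k with hc
  set K : ℕ := 4 ^ k * ((10 * (k * k) + 1) * 2 ^ c) with hK
  refine ⟨c + 1 + U + 4, fun E => ?_⟩
  obtain ⟨m1, h1⟩ := choice (2 * (k + 1)) E U' 32
  obtain ⟨m3, h3⟩ := Vz_inv_small E
  obtain ⟨m4, h4⟩ := ev_L' (16 * 2 ^ (2 * g) + 10 + 4 * K)
  obtain ⟨m5, h5⟩ := ev_log' (U + 5) 4
  refine ⟨max (max m1 m3) (max m4 (max m5 2)), fun N hN z hz1 hz2 a b W 𝒟 C hW hWN hAdm h𝒟 ha hb hco e he n hn hR => ?_⟩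
  obtain ⟨r, hr1, hr2, _⟩ := h1 N (le_trans (le_trans (le_max_left _ _) (le_max_left _ _)) hN) z hz2
  have a3 := h3 N (le_trans (le_trans (le_max_right _ _) (le_max_left _ _)) hN) z
  have hL := h4 N (le_trans (le_trans (le_max_left _ _) (le_max_right _ _)) hN)
  have a5 := h5 N (le_trans (le_trans (le_trans (le_max_left _ _) (le_max_right _ _)) (le_max_right _ _)) hN)
  have hN2 : 2 ≤ N := le_trans (le_trans (le_trans (le_max_right _ _) (le_max_right _ _)) (le_max_right _ _)) hN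
  have hNr : (2 : ℝ) ≤ N := by exact_mod_cast hN2
  have hN0 : (0 : ℝ) < N := by linarith
  set ℓ := Real.log N with hℓ
  have p1 : (0 : ℝ) < 2 ^ (2 * g) := by positivity
  have hK0 : (0 : ℝ) ≤ K := Nat.cast_nonneg _
  push_cast at hL
  have hℓ2 : 10 ≤ ℓ := by linarith
  have hℓ1 : 1 ≤ ℓ := by linarith
  have hℓ0 : 0 < ℓ := by linarith
  have hz : 1 ≤ z := by
    have : (1 : ℝ) ≤ z := (one_le_pow₀ hℓ1).trans hz1
    exact_mod_cast this
  have hz1r : (1 : ℝ) ≤ z := by exact_mod_cast hz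
  have hz0 : (0 : ℝ) < z := by linarith
  have hVi := a3 hz hz2
  have hVi0 : 0 < (Vz z)⁻¹ := inv_pos.2 (Vz_pos z)
  have hlogW : 1 + Real.log W ≤ 2 * ℓ := by
    have hWN' : W ≤ N := by
      refine le_trans ?_ hWN
      exact Nat.le_self_pow (by norm_num) _
    have h5 : Real.log W ≤ ℓ := Real.log_le_log (by exact_mod_cast hW) (by exact_mod_cast hWN')
    linarith
  have hlogW0 : 0 ≤ Real.log W := Real.log_natCast_nonneg _
  have hnN := (mem_Icc.1 hn).2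
  set X : ℕ := XX e N n with hX
  have hXN : (X : ℝ) ≤ N := by exact_mod_cast XX_le e N n hnN
  have hX0 : (0 : ℝ) ≤ X := Nat.cast_nonneg _
  set Pz : ℝ := ∏ p ∈ pz z, (1 - (nb2 e n a b p : ℝ) / p) with hPz
  have hPz0 : 0 ≤ Pz := by
    apply prod_nonneg
    intro p hp
    have hp0 : (0 : ℝ) < p := by exact_mod_cast (mem_pz.1 hp).2.pos
    have : (nb2 e n a b p : ℝ) / p ≤ 1 := by
      rw [div_le_one hp0]
      have := card_filter_le (range p) (fun x => bd2 e n a b p x)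
      rw [card_range] at this
      exact_mod_cast this
    linarith
  have hPz1 : Pz ≤ 1 := by
    apply prod_le_one
    · intro p hp
      have hp0 : (0 : ℝ) < p := by exact_mod_cast (mem_pz.1 hp).2.pos
      have : (nb2 e n a b p : ℝ) / p ≤ 1 := by
        rw [div_le_one hp0]
        have := card_filter_le (range p) (fun x => bd2 e n a b p x)
        rw [card_range] at this
        exact_mod_cast this
      linarith
    · intro p _
      have : 0 ≤ (nb2 e n a b p : ℝ) / p := by positivity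
      linarith
  have hes : es (fun p => (nb2 e n a b p : ℝ) / p) (pz z) r ≤ 1 / ℓ ^ U' := by
    refine (es_le (fun p _ => by positivity) r).trans (le_trans ?_ hr1)
    apply Real.exp_le_exp.2
    have g1 : ∑ p ∈ pz z, (nb2 e n a b p : ℝ) / p ≤ (2 * (k + 1)) * (1 + Real.log z) := by
      calc ∑ p ∈ pz z, (nb2 e n a b p : ℝ) / p ≤ ∑ p ∈ pz z, (2 * ((k : ℝ) + 1)) * (1 / (p : ℝ)) := by
            apply sum_le_sum; intro p hp
            have hpp := (mem_pz.1 hp).2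
            have h6 : (nb2 e n a b p : ℝ) ≤ 2 * (k + 1) := by exact_mod_cast nb2_le he n a b p hpp hco
            rw [mul_one_div]
            exact div_le_div_of_nonneg_right h6 (Nat.cast_nonneg _)
        _ = (2 * (k + 1)) * ∑ p ∈ pz z, 1 / (p : ℝ) := by rw [mul_sum]
        _ ≤ _ := mul_le_mul_of_nonneg_left (sum_pz_le z) (by positivity)
    push_cast
    linarith
  have hD : ∀ i, ∀ D ∈ 𝒟 i, D ≠ 0 ∧ D ≤ W := fun i D hD => by
    have := mem_Icc.1 ((hAdm i).sub hD)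
    exact ⟨by omega, this.2⟩
  have hcard : ∀ i, ((𝒟 i).card : ℝ) ≤ W := by
    intro i
    have := card_le_card (hAdm i).sub
    rw [Nat.card_Icc, Nat.add_sub_cancel] at this
    exact_mod_cast this
  have hW0 : (0 : ℝ) ≤ W := Nat.cast_nonneg _
  have hcard2 : ((𝒟 0 ×ˢ 𝒟 1).card : ℝ) ≤ W ^ 2 := by
    rw [card_product]
    push_cast
    rw [sq]
    exact mul_le_mul (hcard 0) (hcard 1) (Nat.cast_nonneg _) hW0
  have hrr : ∀ i, ∑ D ∈ 𝒟 i, rr (a i) (b i) D ≤ (2 * ℓ) ^ g := by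
    intro i
    calc ∑ D ∈ 𝒟 i, rr (a i) (b i) D ≤ ∑ D ∈ 𝒟 i, tau D ^ k / D := sum_le_sum fun D hD => rr_le (a i) ((hAdm i).sq D hD) ((hAdm i).cb D hD)
      _ ≤ ∑ D ∈ Icc 1 W, tau D ^ k / D := sum_le_sum_of_subset_of_nonneg (hAdm i).sub
          (fun D _ _ => div_nonneg (pow_nonneg (tau_nonneg _) _) (Nat.cast_nonneg _))
      _ ≤ (1 + Real.log W) ^ (2 ^ k) := tau_moment k W
      _ ≤ _ := pow_le_pow_left₀ (by linarith) hlogW _
  have hrr2 : ∑ D ∈ 𝒟 0 ×ˢ 𝒟 1, rr (a 0) (b 0) D.1 * rr (a 1) (b 1) D.2 ≤ (2 * ℓ) ^ (2 * g) := by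
    rw [sum_product' (𝒟 0) (𝒟 1) (fun x y => rr (a 0) (b 0) x * rr (a 1) (b 1) y), ← sum_mul_sum, show 2 * g = g + g by ring, pow_add]
    exact mul_le_mul (hrr 0) (hrr 1) (sum_nonneg fun D _ => rr_nonneg _ _ _) (by positivity)
  -- common factors
  have hT : ∑ D ∈ 𝒟 0 ×ˢ 𝒟 1, |G2 e n a b D - rr (a 0) (b 0) D.1 * rr (a 1) (b 1) D.2| ≤ K / ℓ ^ (U + 4) := by
    refine (G2_sum z W hz he n a b 𝒟 C hAdm h𝒟 hR).trans ?_
    have hω : ((RS e n a b).natAbs.primeFactors.card : ℝ) + 1 ≤ (10 * (k * k) + 1) * ℓ := by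
      have hR' : (RS e n a b).natAbs ≠ 0 := Int.natAbs_ne_zero.2 hR
      have t1 := omega_le _ hR'
      have t2 : (((RS e n a b).natAbs : ℕ) : ℝ) ≤ ((N : ℝ) ^ 5) ^ (k * k) := by
        exact_mod_cast RS_size e he N n hnN hN2 a b ha hb
      have t3 : Real.log (((RS e n a b).natAbs : ℕ) : ℝ) ≤ 5 * (k * k) * ℓ := by
        have t4 := Real.log_le_log (by exact_mod_cast Nat.pos_of_ne_zero hR') t2
        rw [Real.log_pow, Real.log_pow] at t4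
        push_cast at t4
        linarith
      linarith
    calc (4 ^ k / (z : ℝ)) * ((((RS e n a b).natAbs.primeFactors.card : ℝ) + 1) * (1 + Real.log W) ^ c) ≤
          (4 ^ k / (z : ℝ)) * (((10 * (k * k) + 1) * ℓ) * (2 * ℓ) ^ c) := by
          apply mul_le_mul_of_nonneg_left _ (by positivity)
          apply mul_le_mul hω (pow_le_pow_left₀ (by linarith) hlogW _) (by positivity) (by positivity)
      _ = (K * ℓ ^ (c + 1)) / z := by
          rw [hK, mul_pow]; push_cast; ring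
      _ ≤ (K * ℓ ^ (c + 1)) / ℓ ^ (c + 1 + U + 4) := by
          apply div_le_div_of_nonneg_left (by positivity) (by positivity) hz1
      _ = _ := by
          rw [show c + 1 + U + 4 = (c + 1) + (U + 4) by ring, pow_add ℓ (c + 1) (U + 4)]
          have q1 : ℓ ^ (c + 1) ≠ 0 := by positivity
          have q2 : ℓ ^ (U + 4) ≠ 0 := by positivity
          rw [mul_comm (K : ℝ), mul_div_mul_left _ _ q1]
  have hT1 : K / ℓ ^ (U + 4) ≤ 1 := by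
    rw [div_le_one (by positivity)]
    calc (K : ℝ) ≤ ℓ := by linarith
      _ = ℓ ^ 1 := (pow_one _).symm
      _ ≤ _ := pow_le_pow_right₀ hℓ1 (by omega)
  have hG : ∑ D ∈ 𝒟 0 ×ˢ 𝒟 1, G2 e n a b D ≤ 2 * (2 * ℓ) ^ (2 * g) := by
    have t1 : 1 ≤ (2 * ℓ) ^ (2 * g) := one_le_pow₀ (by linarith)
    calc ∑ D ∈ 𝒟 0 ×ˢ 𝒟 1, G2 e n a b D ≤ ∑ D ∈ 𝒟 0 ×ˢ 𝒟 1, (|G2 e n a b D - rr (a 0) (b 0) D.1 * rr (a 1) (b 1) D.2| +
          rr (a 0) (b 0) D.1 * rr (a 1) (b 1) D.2) := by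
          apply sum_le_sum; intro D _
          have := le_abs_self (G2 e n a b D - rr (a 0) (b 0) D.1 * rr (a 1) (b 1) D.2)
          linarith
      _ ≤ _ := by rw [sum_add_distrib]; linarith
  -- each pair
  have herr : ∀ D ∈ 𝒟 0 ×ˢ 𝒟 1, |((((RX e N n).filter (fun x => ∀ p ∈ (D.1 * D.2).primeFactors, AD2 e n a b D p (x % p))).filter
          (fun x => ∀ p ∈ pz z, ¬ bd2 e n a b p (x % p))).card : ℝ) - (X * G2 e n a b D) * Pz| ≤
      ((z : ℝ) + 1) ^ r * ((z : ℝ) ^ r * W ^ 2) + 2 * (N * G2 e n a b D) * (1 / ℓ ^ U') := by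
    intro D hDm
    rw [mem_product] at hDm
    have hQ : ∀ p ∈ (D.1 * D.2).primeFactors, p.Prime ∧ z < p := by
      intro p hp
      have hpp := Nat.prime_of_mem_primeFactors hp
      refine ⟨hpp, ?_⟩
      rcases (Nat.Prime.dvd_mul hpp).1 (Nat.dvd_of_mem_primeFactors hp) with h6 | h6
      · exact h𝒟 0 D.1 hDm.1 p hpp h6
      · exact h𝒟 1 D.2 hDm.2 p hpp h6
    have h6 := cnt_abs X z r (D.1 * D.2).primeFactors hQ (fun p x => AD2 e n a b D p x) (fun p x => bd2 e n a b p x) hz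
    rw [← RX_eq he hn] at h6
    have e2 : ∏ p ∈ (D.1 * D.2).primeFactors, ((((range p).filter (fun x : ℕ => AD2 e n a b D p x)).card : ℝ) / p) = G2 e n a b D := rfl
    rw [e2] at h6
    refine h6.trans ?_
    have hG0 := G2_nonneg e n a b D
    apply add_le_add
    · apply mul_le_mul_of_nonneg_left _ (by positivity)
      apply mul_le_mul_of_nonneg_left _ (by positivity)
      calc ∏ p ∈ (D.1 * D.2).primeFactors, (((range p).filter (fun x : ℕ => AD2 e n a b D p x)).card : ℝ) ≤ ∏ p ∈ (D.1 * D.2).primeFactors, (p : ℝ) := by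
            apply prod_le_prod (fun _ _ => Nat.cast_nonneg _)
            intro p _
            have := card_filter_le (range p) (fun x : ℕ => AD2 e n a b D p x)
            rw [card_range] at this
            exact_mod_cast this
        _ = ((∏ p ∈ (D.1 * D.2).primeFactors, p : ℕ) : ℝ) := by push_cast; rfl
        _ ≤ ((D.1 * D.2 : ℕ) : ℝ) := by
            have := Nat.le_of_dvd (Nat.pos_of_ne_zero (mul_ne_zero (hD 0 D.1 hDm.1).1 (hD 1 D.2 hDm.2).1)) (Nat.prod_primeFactors_dvd (D.1 * D.2))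
            exact_mod_cast this
        _ ≤ (W : ℝ) ^ 2 := by
            have t1 : D.1 * D.2 ≤ W ^ 2 := by rw [sq]; exact Nat.mul_le_mul (hD 0 D.1 hDm.1).2 (hD 1 D.2 hDm.2).2
            exact_mod_cast t1
    · calc 2 * (X * G2 e n a b D) * es (fun p => (nb2 e n a b p : ℝ) / p) (pz z) r ≤
            2 * (X * G2 e n a b D) * (1 / ℓ ^ U') := mul_le_mul_of_nonneg_left hes (by positivity)
        _ ≤ 2 * (N * G2 e n a b D) * (1 / ℓ ^ U') := by gcongr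
  have hroot : ((W : ℝ) ^ 4 * ((z : ℝ) + 1) ^ r * (z : ℝ) ^ r) ≤ √(N : ℝ) := by
    apply Real.le_sqrt_of_sq_le
    set A : ℝ := ((z : ℝ) + 1) ^ r with hA
    have hA1 : 1 ≤ A := one_le_pow₀ (by linarith)
    have hzA : (z : ℝ) ^ r ≤ A := pow_le_pow_left₀ hz0.le (by linarith) _
    have hW1 : (1 : ℝ) ≤ W := by exact_mod_cast hW
    have hA32 : A ^ 32 ≤ N := hr2
    have hW32 : (W : ℝ) ^ 32 ≤ N := by exact_mod_cast hWN
    have h6 : ((W : ℝ) ^ 4 * A * (z : ℝ) ^ r) ^ 2 ≤ ((W : ℝ) ^ 4 * A * A) ^ 2 := by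
      apply pow_le_pow_left₀ (by positivity)
      exact mul_le_mul_of_nonneg_left hzA (by positivity)
    refine h6.trans ?_
    have h7 : ((W : ℝ) ^ 4 * A * A) ^ 2 = (W : ℝ) ^ 8 * A ^ 4 := by ring
    rw [h7]
    have hWA : ((W : ℝ) ^ 8 * A ^ 4) ^ 32 ≤ (N : ℝ) ^ 32 := by
      calc ((W : ℝ) ^ 8 * A ^ 4) ^ 32 = ((W : ℝ) ^ 32) ^ 8 * (A ^ 32) ^ 4 := by ring
        _ ≤ (N : ℝ) ^ 8 * (N : ℝ) ^ 4 := by gcongr
        _ = (N : ℝ) ^ 12 := by ring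
        _ ≤ (N : ℝ) ^ 32 := pow_le_pow_right₀ (by linarith) (by norm_num)
    exact le_of_pow_le_pow_left₀ (by norm_num) hN0.le hWA
  have hsN : √(N : ℝ) * √(N : ℝ) = N := Real.mul_self_sqrt hN0.le
  have hsN0 : 0 ≤ √(N : ℝ) := Real.sqrt_nonneg _
  rw [model2 z e N n a b 𝒟 C (fun i D hD => (hAdm i).sq D hD)]
  set cn : ℕ × ℕ → ℝ := fun D => ((((RX e N n).filter (fun x => ∀ p ∈ (D.1 * D.2).primeFactors, AD2 e n a b D p (x % p))).filter
          (fun x => ∀ p ∈ pz z, ¬ bd2 e n a b p (x % p))).card : ℝ) with hcn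
  have e0 : ((Vz z)⁻¹) ^ 2 * ∑ D ∈ 𝒟 0 ×ˢ 𝒟 1, (C 0 D.1 * C 1 D.2) * cn D -
      (X * M2 e n z a b) * ((∑ D ∈ 𝒟 0, C 0 D * rr (a 0) (b 0) D) * ∑ D ∈ 𝒟 1, C 1 D * rr (a 1) (b 1) D) =
      ((Vz z)⁻¹) ^ 2 * ∑ D ∈ 𝒟 0 ×ˢ 𝒟 1, (C 0 D.1 * C 1 D.2) * ((cn D - (X * G2 e n a b D) * Pz) +
        (X * Pz) * (G2 e n a b D - rr (a 0) (b 0) D.1 * rr (a 1) (b 1) D.2)) := by
    have e1 : (∑ D ∈ 𝒟 0, C 0 D * rr (a 0) (b 0) D) * ∑ D ∈ 𝒟 1, C 1 D * rr (a 1) (b 1) D =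
        ∑ D ∈ 𝒟 0 ×ˢ 𝒟 1, (C 0 D.1 * C 1 D.2) * (rr (a 0) (b 0) D.1 * rr (a 1) (b 1) D.2) := by
      rw [sum_mul_sum, ← sum_product']
      apply sum_congr rfl; intro D _; ring
    rw [e1]
    unfold M2
    rw [← hPz]
    have e2 : (X : ℝ) * (((Vz z)⁻¹) ^ 2 * Pz) * ∑ D ∈ 𝒟 0 ×ˢ 𝒟 1, (C 0 D.1 * C 1 D.2) * (rr (a 0) (b 0) D.1 * rr (a 1) (b 1) D.2) =
        ((Vz z)⁻¹) ^ 2 * ∑ D ∈ 𝒟 0 ×ˢ 𝒟 1, (X * Pz) * ((C 0 D.1 * C 1 D.2) * (rr (a 0) (b 0) D.1 * rr (a 1) (b 1) D.2)) := by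
      rw [← mul_sum]; ring
    rw [e2, ← mul_sub, ← sum_sub_distrib]
    congr 1
    apply sum_congr rfl; intro D _; ring
  have e0' : ((Vz z)⁻¹) ^ 2 * ∑ D ∈ 𝒟 0 ×ˢ 𝒟 1, (C 0 D.1 * C 1 D.2) *
        ((((RX e N n).filter (fun x => ∀ p ∈ (D.1 * D.2).primeFactors, AD2 e n a b D p (x % p))).filter
          (fun x => ∀ p ∈ pz z, ¬ bd2 e n a b p (x % p))).card : ℝ) -
      (X * M2 e n z a b) * ((∑ D ∈ 𝒟 0, C 0 D * rr (a 0) (b 0) D) * ∑ D ∈ 𝒟 1, C 1 D * rr (a 1) (b 1) D) =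
      ((Vz z)⁻¹) ^ 2 * ∑ D ∈ 𝒟 0 ×ˢ 𝒟 1, (C 0 D.1 * C 1 D.2) * ((cn D - (X * G2 e n a b D) * Pz) +
        (X * Pz) * (G2 e n a b D - rr (a 0) (b 0) D.1 * rr (a 1) (b 1) D.2)) := e0
  rw [e0', abs_mul, abs_of_pos (pow_pos hVi0 2)]
  have hV2 : ((Vz z)⁻¹) ^ 2 ≤ ℓ ^ 2 := pow_le_pow_left₀ hVi0.le hVi 2
  calc ((Vz z)⁻¹) ^ 2 * |∑ D ∈ 𝒟 0 ×ˢ 𝒟 1, (C 0 D.1 * C 1 D.2) * ((cn D - (X * G2 e n a b D) * Pz) +
        (X * Pz) * (G2 e n a b D - rr (a 0) (b 0) D.1 * rr (a 1) (b 1) D.2))| ≤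
        ℓ ^ 2 * ∑ D ∈ 𝒟 0 ×ˢ 𝒟 1, ((((z : ℝ) + 1) ^ r * ((z : ℝ) ^ r * W ^ 2) + 2 * (N * G2 e n a b D) * (1 / ℓ ^ U')) +
          N * |G2 e n a b D - rr (a 0) (b 0) D.1 * rr (a 1) (b 1) D.2|) := by
        apply mul_le_mul hV2 _ (abs_nonneg _) (by positivity)
        refine (abs_sum_le_sum_abs _ _).trans (sum_le_sum fun D hD' => ?_)
        have hDm := mem_product.1 hD'
        rw [abs_mul, abs_mul]
        have c1 : |C 0 D.1| * |C 1 D.2| ≤ 1 := by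
          calc |C 0 D.1| * |C 1 D.2| ≤ 1 * 1 := mul_le_mul ((hAdm 0).bd D.1 hDm.1) ((hAdm 1).bd D.2 hDm.2) (abs_nonneg _) (by norm_num)
            _ = 1 := by norm_num
        calc _ ≤ 1 * |(cn D - (X * G2 e n a b D) * Pz) + (X * Pz) * (G2 e n a b D - rr (a 0) (b 0) D.1 * rr (a 1) (b 1) D.2)| :=
              mul_le_mul_of_nonneg_right c1 (abs_nonneg _)
          _ ≤ |cn D - (X * G2 e n a b D) * Pz| + |(X * Pz) * (G2 e n a b D - rr (a 0) (b 0) D.1 * rr (a 1) (b 1) D.2)| := by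
              rw [one_mul]; exact abs_add_le _ _
          _ ≤ _ := by
              apply add_le_add (herr D hD')
              rw [abs_mul, abs_of_nonneg (mul_nonneg hX0 hPz0)]
              apply mul_le_mul_of_nonneg_right _ (abs_nonneg _)
              calc (X : ℝ) * Pz ≤ N * 1 := mul_le_mul hXN hPz1 hPz0 hN0.le
                _ = N := mul_one _
    _ = ℓ ^ 2 * ((𝒟 0 ×ˢ 𝒟 1).card * (((z : ℝ) + 1) ^ r * ((z : ℝ) ^ r * W ^ 2)) + 2 * N * (1 / ℓ ^ U') * ∑ D ∈ 𝒟 0 ×ˢ 𝒟 1, G2 e n a b D +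
          N * ∑ D ∈ 𝒟 0 ×ˢ 𝒟 1, |G2 e n a b D - rr (a 0) (b 0) D.1 * rr (a 1) (b 1) D.2|) := by
        rw [sum_add_distrib, sum_add_distrib, sum_const, nsmul_eq_mul, mul_sum, mul_sum (s := 𝒟 0 ×ˢ 𝒟 1) (a := (N : ℝ))]
        congr 3
        apply sum_congr rfl; intro D _; ring
    _ ≤ ℓ ^ 2 * (√(N : ℝ) + 2 * N * (1 / ℓ ^ U') * (2 * (2 * ℓ) ^ (2 * g)) + N * (K / ℓ ^ (U + 4))) := by
        apply mul_le_mul_of_nonneg_left _ (by positivity)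
        apply add_le_add
        · apply add_le_add
          · calc ((𝒟 0 ×ˢ 𝒟 1).card : ℝ) * (((z : ℝ) + 1) ^ r * ((z : ℝ) ^ r * W ^ 2)) ≤ W ^ 2 * (((z : ℝ) + 1) ^ r * ((z : ℝ) ^ r * W ^ 2)) :=
                  mul_le_mul_of_nonneg_right hcard2 (by positivity)
              _ = (W : ℝ) ^ 4 * ((z : ℝ) + 1) ^ r * (z : ℝ) ^ r := by ring
              _ ≤ _ := hroot
          · exact mul_le_mul_of_nonneg_left hG (by positivity)
        · exact mul_le_mul_of_nonneg_left hT hN0.le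
    _ ≤ N / ℓ ^ U := by
        have f2 : ℓ ^ 2 * (2 * N * (1 / ℓ ^ U') * (2 * (2 * ℓ) ^ (2 * g))) ≤ (1 / 4) * (N / ℓ ^ U) := by
          have e : ℓ ^ 2 * (2 * N * (1 / ℓ ^ U') * (2 * (2 * ℓ) ^ (2 * g))) = (4 * 2 ^ (2 * g) / ℓ ^ 4) * (N / ℓ ^ U) := by
            rw [hU', mul_pow, show U + 2 * g + 6 = U + 2 * g + 4 + 2 by ring, pow_add ℓ (U + 2 * g + 4), pow_add ℓ (U + 2 * g), pow_add ℓ U]
            field_simp
            ring
          rw [e]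
          apply mul_le_mul_of_nonneg_right _ (by positivity)
          rw [div_le_div_iff₀ (by positivity) (by norm_num)]
          have : ℓ ≤ ℓ ^ 4 := by
            calc ℓ = ℓ ^ 1 := (pow_one _).symm
              _ ≤ _ := pow_le_pow_right₀ hℓ1 (by norm_num)
          linarith
        have f1 : ℓ ^ 2 * √(N : ℝ) ≤ (1 / 4) * (N / ℓ ^ U) := by
          calc ℓ ^ 2 * √(N : ℝ) = (4 * ℓ ^ (U + 5)) * √(N : ℝ) / (4 * ℓ ^ 3 * ℓ ^ U) := by
                rw [show U + 5 = U + 3 + 2 by ring, pow_add ℓ (U + 3), pow_add ℓ U]; field_simp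
            _ ≤ √(N : ℝ) * √(N : ℝ) / (4 * ℓ ^ 3 * ℓ ^ U) := by gcongr
            _ = (1 / (4 * ℓ ^ 3)) * (N / ℓ ^ U) := by rw [hsN]; field_simp
            _ ≤ _ := by
                apply mul_le_mul_of_nonneg_right _ (by positivity)
                rw [div_le_div_iff₀ (by positivity) (by norm_num)]
                have : 1 ≤ ℓ ^ 3 := one_le_pow₀ hℓ1
                linarith
        have f3 : ℓ ^ 2 * (N * (K / ℓ ^ (U + 4))) ≤ (1 / 4) * (N / ℓ ^ U) := by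
          have e : ℓ ^ 2 * (N * (K / ℓ ^ (U + 4))) = (K / ℓ ^ 2) * (N / ℓ ^ U) := by
            rw [show U + 4 = U + 2 + 2 by ring, pow_add ℓ (U + 2), pow_add ℓ U]
            field_simp
          rw [e]
          apply mul_le_mul_of_nonneg_right _ (by positivity)
          rw [div_le_div_iff₀ (by positivity) (by norm_num)]
          have : ℓ ≤ ℓ ^ 2 := by
            calc ℓ = ℓ ^ 1 := (pow_one _).symm
              _ ≤ _ := pow_le_pow_right₀ hℓ1 (by norm_num)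
          linarith
        have f4 : 0 ≤ (N : ℝ) / ℓ ^ U := by positivity
        rw [mul_add, mul_add]
        linarith

end Pool.Agent.H76.TB
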