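import Mathlib
import Pool.Agent.H76.TB.A17
import Pool.Agent.H76.TB.E4

/-! Binary sums: from the weights to the sifted sums. -/

set_option autoImplicit false

open Finset

namespace Pool.Agent.H76.TB

open Pool.Agent.Helper112.LP Pool.Agent.Helper112.LP.Kba Pool.Agent.Helper112.LP.Kbh
open Pool.Agent.H483R2.BHKD Pool.Agent.H20R2.FL
open Pool.Agent.H373R2.T7 (ev_log' ev_L' pz mem_pz Vz Vz_pos lamz)

variable {k : ℕ}

/-- weighted binary sums -/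
noncomputable def BL (f : ℕ → ℝ) (z : ℕ) (e : ℤ) (N n : ℕ) (a b : Fin 2 → Fin k → ℤ) (𝒟 : Fin 2 → Finset ℕ) (C : Fin 2 → ℕ → ℝ) : ℝ :=
  BS e N (FL f z (a 0) (b 0) (𝒟 0) (C 0)) (FL f z (a 1) (b 1) (𝒟 1) (C 1)) n

/-- sifted binary sums -/
noncomputable def SB (f : ℕ → ℝ) (P : Finset ℕ) (e : ℤ) (N n : ℕ) (a b : Fin 2 → Fin k → ℤ) : ℝ :=
  BS e N (fun x => f x * RI (a 0) (b 0) P x) (fun x => f x * RI (a 1) (b 1) P x) n

/-- the two variables -/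
def n2 (e : ℤ) (n x : ℕ) (i : Fin 2) : ℕ := ![x, yy e n x] i

lemma sandwich2 (f : ℕ → ℝ) (hf : ∀ n, 0 ≤ f n) (z y : ℕ) (hzy : z ≤ y) (e : ℤ) (N n : ℕ) (a b : Fin 2 → Fin k → ℤ) (J : ℕ)
    (𝒟Y : Fin 2 → Finset ℕ) (𝒟E : Fin 2 → Fin J → Finset ℕ)
    (hpt : ∀ i, ∀ n : ℕ, RI (a i) (b i) ((Ioc z y).filter Nat.Prime) n ≤ WW (a i) (b i) (𝒟Y i) CY n ∧
        WW (a i) (b i) (𝒟Y i) CY n - RI (a i) (b i) ((Ioc z y).filter Nat.Prime) n ≤ ∑ q, WW (a i) (b i) (𝒟E i q) CE n) :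
    SB f (pz y) e N n a b ≤ BL f z e N n a b 𝒟Y (fun _ => CY) ∧
    BL f z e N n a b 𝒟Y (fun _ => CY) - SB f (pz y) e N n a b ≤
      ∑ i₀ : Fin 2, ∑ q : Fin J, BL f z e N n a b (Function.update 𝒟Y i₀ (𝒟E i₀ q)) (Function.update (fun _ => CY) i₀ CE) := by
  classical
  set F : ℕ → ℝ := fun t => ∏ i, (f (n2 e n t i) * RI (a i) (b i) (pz z) (n2 e n t i)) with hF
  have hF0 : ∀ t, 0 ≤ F t := fun t => prod_nonneg fun i _ => mul_nonneg (hf _) (RI_nonneg _ _ _ _)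
  set R : ℕ → Fin 2 → ℝ := fun t i => RI (a i) (b i) ((Ioc z y).filter Nat.Prime) (n2 e n t i) with hR
  set Y : ℕ → Fin 2 → ℝ := fun t i => WW (a i) (b i) (𝒟Y i) CY (n2 e n t i) with hY
  have hS : SB f (pz y) e N n a b = ∑ t ∈ RX e N n, F t * ∏ i, R t i := by
    unfold SB BS
    apply sum_congr rfl; intro t _
    rw [hF]; simp only
    rw [← prod_mul_distrib, Fin.prod_univ_two]
    have h0 : n2 e n t 0 = t := rfl
    have h1 : n2 e n t 1 = yy e n t := rfl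
    rw [hR]; simp only
    rw [h0, h1, RI_mul (a 0) (b 0) z y hzy, RI_mul (a 1) (b 1) z y hzy]; ring
  have hT : ∀ (𝒟 : Fin 2 → Finset ℕ) (C : Fin 2 → ℕ → ℝ), BL f z e N n a b 𝒟 C =
      ∑ t ∈ RX e N n, F t * ∏ i, WW (a i) (b i) (𝒟 i) (C i) (n2 e n t i) := by
    intro 𝒟 C
    unfold BL BS
    apply sum_congr rfl; intro t _
    rw [hF]; simp only
    rw [← prod_mul_distrib, Fin.prod_univ_two]
    have h0 : n2 e n t 0 = t := rfl
    have h1 : n2 e n t 1 = yy e n t := rfl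
    rw [h0, h1]
    unfold FL; ring
  have h0 : ∀ t i, 0 ≤ R t i := fun t i => RI_nonneg _ _ _ _
  have h1 : ∀ t i, R t i ≤ Y t i := fun t i => (hpt i _).1
  constructor
  · rw [hS, hT]
    apply sum_le_sum; intro t _
    apply mul_le_mul_of_nonneg_left _ (hF0 t)
    exact prod_le_prod (fun i _ => h0 t i) (fun i _ => h1 t i)
  · rw [hS, hT, ← sum_sub_distrib]
    have e1 : ∀ i₀ : Fin 2, ∀ q : Fin J, BL f z e N n a b (Function.update 𝒟Y i₀ (𝒟E i₀ q)) (Function.update (fun _ => CY) i₀ CE) =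
        ∑ t ∈ RX e N n, F t * (WW (a i₀) (b i₀) (𝒟E i₀ q) CE (n2 e n t i₀) * ∏ i ∈ univ.erase i₀, Y t i) := by
      intro i₀ q
      rw [hT]
      apply sum_congr rfl; intro t _
      congr 1
      rw [← mul_prod_erase univ _ (mem_univ i₀), Function.update_self, Function.update_self]
      congr 1
      apply prod_congr rfl; intro i hi
      rw [Function.update_of_ne (ne_of_mem_erase hi), Function.update_of_ne (ne_of_mem_erase hi)]
    rw [sum_congr rfl (fun i₀ _ => sum_congr rfl fun q _ => e1 i₀ q)]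
    have e2 : ∑ i₀ : Fin 2, ∑ q : Fin J, ∑ t ∈ RX e N n, F t * (WW (a i₀) (b i₀) (𝒟E i₀ q) CE (n2 e n t i₀) * ∏ i ∈ univ.erase i₀, Y t i) =
        ∑ t ∈ RX e N n, F t * ∑ i₀ : Fin 2, (∑ q : Fin J, WW (a i₀) (b i₀) (𝒟E i₀ q) CE (n2 e n t i₀)) * ∏ i ∈ univ.erase i₀, Y t i := by
      have e3 : ∀ i₀ : Fin 2, ∑ q : Fin J, ∑ t ∈ RX e N n, F t * (WW (a i₀) (b i₀) (𝒟E i₀ q) CE (n2 e n t i₀) * ∏ i ∈ univ.erase i₀, Y t i) =
          ∑ t ∈ RX e N n, F t * ((∑ q : Fin J, WW (a i₀) (b i₀) (𝒟E i₀ q) CE (n2 e n t i₀)) * ∏ i ∈ univ.erase i₀, Y t i) := by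
        intro i₀
        rw [sum_comm]
        apply sum_congr rfl; intro t _
        rw [sum_mul, mul_sum]
      rw [sum_congr rfl (fun i₀ _ => e3 i₀), sum_comm]
      apply sum_congr rfl; intro t _
      rw [mul_sum]
    rw [e2]
    apply sum_le_sum; intro t _
    rw [← mul_sub]
    apply mul_le_mul_of_nonneg_left _ (hF0 t)
    exact bh_prod_sub univ (R t) (Y t) (fun i₀ => ∑ q : Fin J, WW (a i₀) (b i₀) (𝒟E i₀ q) CE (n2 e n t i₀)) (h0 t) (h1 t)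
      (fun i => (hpt i _).2)

lemma M2_nonneg (e : ℤ) (n z : ℕ) (a b : Fin 2 → Fin k → ℤ) : 0 ≤ M2 e n z a b := by
  unfold M2
  apply mul_nonneg (sq_nonneg _)
  apply prod_nonneg
  intro p hp
  have hp0 : (0 : ℝ) < p := by exact_mod_cast (mem_pz.1 hp).2.pos
  have : (nb2 e n a b p : ℝ) / p ≤ 1 := by
    rw [div_le_one hp0]
    have := card_filter_le (range p) (fun x => bd2 e n a b p x)
    rw [card_range] at this
    exact_mod_cast this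
  linarith

theorem core2 (k : ℕ) : ∃ N1 : ℕ, ∀ A : ℕ, ∃ B₀ : ℕ, ∀ B : ℕ, B₀ ≤ B → ∃ N0 : ℕ,
    ∀ N : ℕ, N0 ≤ N → ∀ z : ℕ, Real.log N ^ B ≤ z → (z : ℝ) ≤ Real.log N ^ (B + 1) →
    ∀ β J y : ℕ, N1 ≤ β → y ≤ 2 ^ 2 ^ J → (2 ^ 2 ^ J) ^ (32 * (4 * β + 6)) ≤ N → z ≤ y →
    ∀ (a b : Fin 2 → Fin k → ℤ), (∀ i, (∏ j, b i j) ≠ 0) → (∀ i, ((∏ j, b i j).natAbs : ℝ) ≤ Real.log N) →
    (∀ i j, |a i j| ≤ N) → (∀ i j, |b i j| ≤ N) → (∀ i j, IsCoprime (a i j) (b i j)) →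
    ∀ e : ℤ, (e = 1 ∨ e = -1) → ∃ ℰ : Finset ℕ, (ℰ.card : ℝ) ≤ N / Real.log N ^ A ∧ ∀ n ∈ Icc 1 N, n ∉ ℰ → RS e n a b ≠ 0 →
    |SB (fun n => ArithmeticFunction.vonMangoldt n) (pz y) e N n a b - (XX e N n * M2 e n z a b) *
      ∏ i, ∏ p ∈ (Ioc z y).filter Nat.Prime, (1 - ((RR (a i) (b i) p).card : ℝ) / p)| ≤
      32 * (1 / 2) ^ β * ((XX e N n * M2 e n z a b) * ∏ i, ∏ p ∈ (Ioc z y).filter Nat.Prime, (1 - ((RR (a i) (b i) p).card : ℝ) / p)) +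
        N / Real.log N ^ A := by
  classical
  obtain ⟨N1, hN1, hw⟩ := bh_weights k
  refine ⟨N1 + 2, fun A => ?_⟩
  obtain ⟨B1, hB1⟩ := bin_tele k (2 * A + 6)
  obtain ⟨B2, hB2⟩ := mlem2 k (A + 3)
  refine ⟨B1 + B2 + 1, fun B hB => ?_⟩
  obtain ⟨m1, h1⟩ := hB1 (B + 1)
  obtain ⟨m2, h2⟩ := hB2 (B + 1)
  obtain ⟨m3, h3⟩ := ev_L' (N1 + 20)
  refine ⟨max (max m1 m2) (max m3 2), fun N hN z hz1 hz2 β J y hβ hyJ hJN hzy a b hb0 hbN ha hbb hco e he => ?_⟩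
  have hL := h3 N (le_trans (le_trans (le_max_left _ _) (le_max_right _ _)) hN)
  have hN2 : 2 ≤ N := le_trans (le_trans (le_max_right _ _) (le_max_right _ _)) hN
  have hNr : (2 : ℝ) ≤ N := by exact_mod_cast hN2
  have hN0 : (0 : ℝ) < N := by linarith
  set ℓ := Real.log N with hℓ
  have hN1r : (0 : ℝ) ≤ N1 := Nat.cast_nonneg _
  have hℓ20 : 20 ≤ ℓ := by linarith
  have hℓ1 : 1 ≤ ℓ := by linarith
  have hℓ0 : 0 < ℓ := by linarith
  have hzB1 : ℓ ^ B1 ≤ z := (pow_le_pow_right₀ hℓ1 (by omega)).trans hz1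
  have hzB2 : ℓ ^ B2 ≤ z := (pow_le_pow_right₀ hℓ1 (by omega)).trans hz1
  have hzℓ : ℓ ≤ z := by
    refine le_trans ?_ hz1
    calc ℓ = ℓ ^ 1 := (pow_one ℓ).symm
      _ ≤ ℓ ^ B := pow_le_pow_right₀ hℓ1 (by omega)
  have hN1z : N1 ≤ z := by
    have : (N1 : ℝ) ≤ z := by linarith
    exact_mod_cast this
  have he0 : e ≠ 0 := by rcases he with rfl | rfl <;> norm_num
  have a1 := h1 N (le_trans (le_trans (le_max_left _ _) (le_max_left _ _)) hN) z hzB1 hz2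
  have a2 := h2 N (le_trans (le_trans (le_max_right _ _) (le_max_left _ _)) hN) z hzB2 hz2
  have hbp : ∀ i, ∀ p : ℕ, p.Prime → z < p → ¬ (p : ℤ) ∣ ∏ j, b i j := by
    intro i p _ hp hd
    have h6 : p ≤ (∏ j, b i j).natAbs := Nat.le_of_dvd (Int.natAbs_pos.2 (hb0 i)) (Int.natCast_dvd.1 hd)
    have h7 : (p : ℝ) ≤ ℓ := le_trans (by exact_mod_cast h6) (hbN i)
    have h8 : (z : ℝ) < p := by exact_mod_cast hp
    linarith
  have hwi := fun i => hw β J z y (a i) (b i) (by omega) hN1z hyJ (hbp i)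
  choose 𝒟Y 𝒟E w1 w2 w3 w4 w5 w6 w7 w8 w9 using hwi
  set W : ℕ := (2 ^ 2 ^ J) ^ (4 * β + 6) with hW
  have hW1 : 1 ≤ W := Nat.one_le_pow _ _ (by positivity)
  have hWN : W ^ 32 ≤ N := by
    rw [hW, ← pow_mul, mul_comm (4 * β + 6) 32]; exact hJN
  set Λ : ℕ → ℝ := fun n => ArithmeticFunction.vonMangoldt n with hΛ
  -- `J ≤ 2 log N`
  have hJℓ : (J : ℝ) ≤ 2 * ℓ := by
    have g1 : 2 ^ 2 ^ J ≤ N := by
      refine le_trans ?_ hJN
      exact Nat.le_self_pow (by positivity) _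
    have g2 : ((2 ^ 2 ^ J : ℕ) : ℝ) ≤ N := by exact_mod_cast g1
    have g3 : Real.log ((2 ^ 2 ^ J : ℕ) : ℝ) ≤ ℓ := Real.log_le_log (by positivity) g2
    push_cast at g3
    rw [Real.log_pow] at g3
    have g4 : (1 : ℝ) / 2 ≤ Real.log 2 := by linarith [Real.log_two_gt_d9]
    have g5 : (J : ℝ) ≤ 2 ^ J := by exact_mod_cast (Nat.lt_two_pow_self (n := J)).le
    push_cast at g3
    have g6 : (0 : ℝ) < 2 ^ J := by positivity
    nlinarith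
  -- the errors
  set dif : (Fin 2 → Finset ℕ) → (Fin 2 → ℕ → ℝ) → ℕ → ℝ := fun 𝒟 C n => |BL Λ z e N n a b 𝒟 C - BL (lamz z) z e N n a b 𝒟 C| with hdif
  have hdsum : ∀ (𝒟 : Fin 2 → Finset ℕ) (C : Fin 2 → ℕ → ℝ), (∀ i, Adm (b i) W (𝒟 i) (C i)) →
      (∀ i, ∀ D ∈ 𝒟 i, ∀ p, p.Prime → p ∣ D → z < p) → ∑ n ∈ Icc 1 N, dif 𝒟 C n ≤ N ^ 2 / ℓ ^ (2 * A + 6) :=
    fun 𝒟 C hA1 hA2 => a1 a b W 𝒟 C hW1 hWN hA1 hA2 hb0 hbN e he0
  have hAu : ∀ i₀ : Fin 2, ∀ q : Fin J, ∀ i, Adm (b i) W (Function.update 𝒟Y i₀ (𝒟E i₀ q) i) (Function.update (fun _ => CY) i₀ CE i) := by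
    intro i₀ q i
    by_cases h : i = i₀
    · subst h; rw [Function.update_self, Function.update_self]; exact w2 i q
    · rw [Function.update_of_ne h, Function.update_of_ne h]; exact w1 i
  have hPu : ∀ i₀ : Fin 2, ∀ q : Fin J, ∀ i, ∀ D ∈ Function.update 𝒟Y i₀ (𝒟E i₀ q) i, ∀ p, p.Prime → p ∣ D → z < p := by
    intro i₀ q i
    by_cases h : i = i₀
    · subst h; rw [Function.update_self]; exact w4 i q
    · rw [Function.update_of_ne h]; exact w3 i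
  set Err : ℕ → ℝ := fun n => dif 𝒟Y (fun _ => CY) n + ∑ i₀ : Fin 2, ∑ q : Fin J, dif (Function.update 𝒟Y i₀ (𝒟E i₀ q)) (Function.update (fun _ => CY) i₀ CE) n with hErr
  have hdif0 : ∀ 𝒟 C n, 0 ≤ dif 𝒟 C n := fun 𝒟 C n => abs_nonneg _
  have hErr0 : ∀ n, 0 ≤ Err n := fun n => add_nonneg (hdif0 _ _ _) (sum_nonneg fun _ _ => sum_nonneg fun _ _ => hdif0 _ _ _)
  have hErrsum : ∑ n ∈ Icc 1 N, Err n ≤ (1 + 2 * J) * (N ^ 2 / ℓ ^ (2 * A + 6)) := by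
    rw [hErr]
    simp only
    rw [sum_add_distrib, sum_comm]
    have t1 := hdsum 𝒟Y (fun _ => CY) w1 w3
    have t2 : ∑ i₀ : Fin 2, ∑ n ∈ Icc 1 N, ∑ q : Fin J, dif (Function.update 𝒟Y i₀ (𝒟E i₀ q)) (Function.update (fun _ => CY) i₀ CE) n ≤
        ∑ _i₀ : Fin 2, ∑ _q : Fin J, (N : ℝ) ^ 2 / ℓ ^ (2 * A + 6) := by
      apply sum_le_sum; intro i₀ _
      rw [sum_comm]
      apply sum_le_sum; intro q _
      exact hdsum _ _ (hAu i₀ q) (hPu i₀ q)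
    rw [sum_const, sum_const, card_univ, card_univ, Fintype.card_fin, Fintype.card_fin, nsmul_eq_mul, nsmul_eq_mul] at t2
    push_cast at t2
    linarith
  set ℰ : Finset ℕ := (Icc 1 N).filter (fun n => N / ℓ ^ (A + 3) < Err n) with hℰ
  refine ⟨ℰ, ?_, ?_⟩
  · have t1 : ℰ.card * (N / ℓ ^ (A + 3)) ≤ ∑ n ∈ Icc 1 N, Err n := by
      rw [← nsmul_eq_mul, ← sum_const]
      calc ∑ _n ∈ ℰ, (N : ℝ) / ℓ ^ (A + 3) ≤ ∑ n ∈ ℰ, Err n := sum_le_sum fun n hn => (mem_filter.1 hn).2.le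
        _ ≤ _ := sum_le_sum_of_subset_of_nonneg (filter_subset _ _) (fun n _ _ => hErr0 n)
    have t2 : (ℰ.card : ℝ) * (N / ℓ ^ (A + 3)) ≤ (N / ℓ ^ A) * (N / ℓ ^ (A + 3)) := by
      refine t1.trans (hErrsum.trans ?_)
      calc (1 + 2 * (J : ℝ)) * (N ^ 2 / ℓ ^ (2 * A + 6)) ≤ (ℓ ^ 3) * (N ^ 2 / ℓ ^ (2 * A + 6)) := by
            apply mul_le_mul_of_nonneg_right _ (by positivity)
            have : 20 * 20 * ℓ ≤ ℓ ^ 3 := by nlinarith [mul_nonneg hℓ0.le hℓ0.le]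
            linarith
        _ = _ := by
            rw [show 2 * A + 6 = A + (A + 3) + 3 by ring, pow_add ℓ (A + (A + 3)) 3, pow_add ℓ A (A + 3)]
            field_simp
    exact le_of_mul_le_mul_right t2 (by positivity)
  · intro n hn hnE hR
    have hErrn : Err n ≤ N / ℓ ^ (A + 3) := by
      by_contra hcon
      exact hnE (mem_filter.2 ⟨hn, not_le.1 hcon⟩)
    set X : ℝ := (XX e N n : ℝ) with hX
    set M : ℝ := X * M2 e n z a b with hM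
    have hM0 : 0 ≤ M := mul_nonneg (Nat.cast_nonneg _) (M2_nonneg _ _ _ _ _)
    have hest : ∀ (𝒟 : Fin 2 → Finset ℕ) (C : Fin 2 → ℕ → ℝ), (∀ i, Adm (b i) W (𝒟 i) (C i)) →
        (∀ i, ∀ D ∈ 𝒟 i, ∀ p, p.Prime → p ∣ D → z < p) → dif 𝒟 C n ≤ Err n →
        |BL Λ z e N n a b 𝒟 C - M * ∏ i, ∑ D ∈ 𝒟 i, C i D * rr (a i) (b i) D| ≤ 2 * (N / ℓ ^ (A + 3)) := by
      intro 𝒟 C hA1 hA2 hA3
      have g2 := a2 a b W 𝒟 C hW1 hWN hA1 hA2 ha hbb hco e he n hn hR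
      rw [Fin.prod_univ_two]
      have g3 : |BL (lamz z) z e N n a b 𝒟 C - M * ((∑ D ∈ 𝒟 0, C 0 D * rr (a 0) (b 0) D) * ∑ D ∈ 𝒟 1, C 1 D * rr (a 1) (b 1) D)| ≤ N / ℓ ^ (A + 3) := g2
      have g4 : |BL Λ z e N n a b 𝒟 C - BL (lamz z) z e N n a b 𝒟 C| ≤ N / ℓ ^ (A + 3) := hA3.trans hErrn
      have := abs_sub_le (BL Λ z e N n a b 𝒟 C) (BL (lamz z) z e N n a b 𝒟 C)
        (M * ((∑ D ∈ 𝒟 0, C 0 D * rr (a 0) (b 0) D) * ∑ D ∈ 𝒟 1, C 1 D * rr (a 1) (b 1) D))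
      linarith
    set V : Fin 2 → ℝ := fun i => ∏ p ∈ (Ioc z y).filter Nat.Prime, (1 - ((RR (a i) (b i) p).card : ℝ) / p) with hV
    set G : Fin 2 → ℝ := fun i => ∑ D ∈ 𝒟Y i, CY D * rr (a i) (b i) D with hG
    set δ : ℝ := (1 / 2) ^ β with hδ
    have hδ0 : 0 ≤ δ := by positivity
    have hδ3 : δ ≤ 1 / 3 := by
      calc δ ≤ (1 / 2) ^ 2 := pow_le_pow_of_le_one (by norm_num) (by norm_num) (by omega)
        _ ≤ 1 / 3 := by norm_num
    have hV0 : ∀ i, 0 < V i := w6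
    have hVG : ∀ i, V i ≤ G i := w7
    have hGV : ∀ i, G i ≤ (1 + δ) * V i := w8
    have hG0 : ∀ i, 0 < G i := fun i => (hV0 i).trans_le (hVG i)
    have hprod1 : ∏ i, V i ≤ ∏ i, G i := prod_le_prod (fun i _ => (hV0 i).le) (fun i _ => hVG i)
    have hprodV : 0 ≤ ∏ i, V i := prod_nonneg fun i _ => (hV0 i).le
    have hprod2 : ∏ i, G i ≤ (1 + δ) ^ 3 * ∏ i, V i := by
      calc ∏ i, G i ≤ ∏ i, ((1 + δ) * V i) := prod_le_prod (fun i _ => (hG0 i).le) (fun i _ => hGV i)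
        _ = (1 + δ) ^ 2 * ∏ i, V i := by rw [prod_mul_distrib, prod_const, card_univ, Fintype.card_fin]
        _ ≤ _ := by
            apply mul_le_mul_of_nonneg_right _ hprodV
            exact pow_le_pow_right₀ (by linarith) (by norm_num)
    obtain ⟨s1, s2⟩ := sandwich2 Λ (fun n => ArithmeticFunction.vonMangoldt_nonneg) z y hzy e N n a b J 𝒟Y 𝒟E w5
    have t1 := hest 𝒟Y (fun _ => CY) w1 w3 (by
      rw [hErr]; simp only
      have : 0 ≤ ∑ i₀ : Fin 2, ∑ q : Fin J, dif (Function.update 𝒟Y i₀ (𝒟E i₀ q)) (Function.update (fun _ => CY) i₀ CE) n :=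
        sum_nonneg fun _ _ => sum_nonneg fun _ _ => hdif0 _ _ _
      linarith)
    have t2 : ∀ i₀ : Fin 2, ∀ q : Fin J, BL Λ z e N n a b (Function.update 𝒟Y i₀ (𝒟E i₀ q)) (Function.update (fun _ => CY) i₀ CE) ≤
        M * ((∑ D ∈ 𝒟E i₀ q, CE D * rr (a i₀) (b i₀) D) * ∏ i ∈ univ.erase i₀, G i) + 2 * (N / ℓ ^ (A + 3)) := by
      intro i₀ q
      have g1 := hest (Function.update 𝒟Y i₀ (𝒟E i₀ q)) (Function.update (fun _ => CY) i₀ CE) (hAu i₀ q) (hPu i₀ q) (by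
        have q1 : dif (Function.update 𝒟Y i₀ (𝒟E i₀ q)) (Function.update (fun _ => CY) i₀ CE) n ≤
            ∑ q : Fin J, dif (Function.update 𝒟Y i₀ (𝒟E i₀ q)) (Function.update (fun _ => CY) i₀ CE) n :=
          single_le_sum (f := fun q => dif (Function.update 𝒟Y i₀ (𝒟E i₀ q)) (Function.update (fun _ => CY) i₀ CE) n)
            (fun _ _ => hdif0 _ _ _) (mem_univ q)
        have q2 : ∑ q : Fin J, dif (Function.update 𝒟Y i₀ (𝒟E i₀ q)) (Function.update (fun _ => CY) i₀ CE) n ≤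
            ∑ i₀ : Fin 2, ∑ q : Fin J, dif (Function.update 𝒟Y i₀ (𝒟E i₀ q)) (Function.update (fun _ => CY) i₀ CE) n :=
          single_le_sum (f := fun i₀ => ∑ q : Fin J, dif (Function.update 𝒟Y i₀ (𝒟E i₀ q)) (Function.update (fun _ => CY) i₀ CE) n)
            (fun _ _ => sum_nonneg fun _ _ => hdif0 _ _ _) (mem_univ i₀)
        have q3 := hdif0 𝒟Y (fun _ => CY) n
        rw [hErr]; simp only
        linarith)
      have e1 : ∏ i, ∑ D ∈ Function.update 𝒟Y i₀ (𝒟E i₀ q) i, Function.update (fun _ => CY) i₀ CE i D * rr (a i) (b i) D =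
          (∑ D ∈ 𝒟E i₀ q, CE D * rr (a i₀) (b i₀) D) * ∏ i ∈ univ.erase i₀, G i := by
        rw [← mul_prod_erase univ _ (mem_univ i₀), Function.update_self, Function.update_self]
        congr 1
        apply prod_congr rfl; intro i hi
        rw [Function.update_of_ne (ne_of_mem_erase hi), Function.update_of_ne (ne_of_mem_erase hi)]
      rw [e1] at g1
      have := (abs_le.1 g1).2
      linarith
    have hMG0 : 0 ≤ M * ∏ i, G i := mul_nonneg hM0 (prod_nonneg fun i _ => (hG0 i).le)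
    have hJ0 : (0 : ℝ) ≤ J := Nat.cast_nonneg _
    have he0' : 0 ≤ 2 * ((N : ℝ) / ℓ ^ (A + 3)) := by positivity
    have t3 : BL Λ z e N n a b 𝒟Y (fun _ => CY) - SB Λ (pz y) e N n a b ≤ 3 * δ * (M * ∏ i, G i) + 3 * J * (2 * (N / ℓ ^ (A + 3))) := by
      refine s2.trans ?_
      calc _ ≤ ∑ i₀ : Fin 2, ∑ q : Fin J, (M * ((∑ D ∈ 𝒟E i₀ q, CE D * rr (a i₀) (b i₀) D) * ∏ i ∈ univ.erase i₀, G i) + 2 * (N / ℓ ^ (A + 3))) :=
            sum_le_sum fun i₀ _ => sum_le_sum fun q _ => t2 i₀ q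
        _ = ∑ i₀ : Fin 2, (M * ((∑ q : Fin J, ∑ D ∈ 𝒟E i₀ q, CE D * rr (a i₀) (b i₀) D) * ∏ i ∈ univ.erase i₀, G i) + J * (2 * (N / ℓ ^ (A + 3)))) := by
            apply sum_congr rfl; intro i₀ _
            rw [sum_add_distrib, sum_const, card_univ, Fintype.card_fin, nsmul_eq_mul, ← mul_sum, ← sum_mul]
        _ ≤ ∑ _i₀ : Fin 2, (δ * (M * ∏ i, G i) + J * (2 * (N / ℓ ^ (A + 3)))) := by
            apply sum_le_sum; intro i₀ _
            apply add_le_add _ le_rfl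
            have g1 := w9 i₀
            have g2 : 0 ≤ ∏ i ∈ univ.erase i₀, G i := prod_nonneg fun i _ => (hG0 i).le
            calc M * ((∑ q : Fin J, ∑ D ∈ 𝒟E i₀ q, CE D * rr (a i₀) (b i₀) D) * ∏ i ∈ univ.erase i₀, G i) ≤
                  M * ((δ * G i₀) * ∏ i ∈ univ.erase i₀, G i) :=
                  mul_le_mul_of_nonneg_left (mul_le_mul_of_nonneg_right g1 g2) hM0
              _ = δ * (M * (G i₀ * ∏ i ∈ univ.erase i₀, G i)) := by ring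
              _ = _ := by rw [mul_prod_erase univ G (mem_univ i₀)]
        _ = 2 * δ * (M * ∏ i, G i) + 2 * J * (2 * (N / ℓ ^ (A + 3))) := by
            rw [sum_const, card_univ, Fintype.card_fin, nsmul_eq_mul]; push_cast; ring
        _ ≤ _ := by
            have r1 : 0 ≤ δ * (M * ∏ i, G i) := mul_nonneg hδ0 hMG0
            have r2 : 0 ≤ (J : ℝ) * (2 * (N / ℓ ^ (A + 3))) := mul_nonneg hJ0 he0'
            linarith
    have hfin := num_core M (∏ i, V i) (∏ i, G i) δ (SB Λ (pz y) e N n a b) (BL Λ z e N n a b 𝒟Y (fun _ => CY))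
      (2 * (N / ℓ ^ (A + 3))) J hM0 hprodV hδ0 hδ3 he0' hprod1 hprod2 t1 s1 t3
    refine hfin.trans (add_le_add le_rfl ?_)
    calc (1 + 3 * (J : ℝ)) * (2 * (N / ℓ ^ (A + 3))) ≤ (1 + 3 * (2 * ℓ)) * (2 * (N / ℓ ^ (A + 3))) := by
          apply mul_le_mul_of_nonneg_right _ he0'
          linarith
      _ = ((2 + 12 * ℓ) / ℓ ^ 3) * (N / ℓ ^ A) := by
          rw [pow_add]; field_simp; ring
      _ ≤ 1 * (N / ℓ ^ A) := by
          apply mul_le_mul_of_nonneg_right _ (by positivity)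
          rw [div_le_one (by positivity)]
          have : 20 * 20 * ℓ ≤ ℓ ^ 3 := by nlinarith [mul_nonneg hℓ0.le hℓ0.le]
          linarith
      _ = _ := one_mul _

end Pool.Agent.H76.TB
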