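import Mathlib
import Pool.Agent.H76.TB.D4
import Pool.Agent.H76.TB.E5

/-! Local factors of binary sums. -/

set_option autoImplicit false

open Finset

namespace Pool.Agent.H76.TB

open Pool.Agent.H373R2.T7 (ev_log' ev_L' pz mem_pz Vz Vz_pos lamz)
open Pool.Agent.Helper112.LP.Kbh (bh_inv_ge)

variable {k : ℕ}

/-- local factor -/
noncomputable def sg2 (e : ℤ) (n : ℕ) (a b : Fin 2 → Fin k → ℤ) (p : ℕ) : ℝ := ((1 - 1 / (p : ℝ))⁻¹) ^ 2 * (1 - (nb2 e n a b p : ℝ) / p)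

/-- main term -/
noncomputable def MT2 (e : ℤ) (N y n : ℕ) (a b : Fin 2 → Fin k → ℤ) : ℝ := XX e N n * ∏ p ∈ pz y, sg2 e n a b p

lemma M2_eq (e : ℤ) (N z n : ℕ) (a b : Fin 2 → Fin k → ℤ) : (XX e N n : ℝ) * M2 e n z a b = MT2 e N z n a b := by
  unfold MT2 M2 sg2 Vz
  rw [prod_mul_distrib, prod_pow, prod_inv_distrib]

lemma nb2_le_p (e : ℤ) (n : ℕ) (a b : Fin 2 → Fin k → ℤ) (p : ℕ) : nb2 e n a b p ≤ p := by
  unfold nb2
  have := card_filter_le (range p) (fun x => bd2 e n a b p x)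
  rwa [card_range] at this

lemma sg2_nonneg (e : ℤ) (n : ℕ) (a b : Fin 2 → Fin k → ℤ) (p : ℕ) (hp : p.Prime) : 0 ≤ sg2 e n a b p := by
  unfold sg2
  have hp0 : (0 : ℝ) < p := by exact_mod_cast hp.pos
  have h6 : (nb2 e n a b p : ℝ) / p ≤ 1 := by
    rw [div_le_one hp0]
    exact_mod_cast nb2_le_p e n a b p
  exact mul_nonneg (sq_nonneg _) (by linarith)

lemma MT2_nonneg (e : ℤ) (N y n : ℕ) (a b : Fin 2 → Fin k → ℤ) : 0 ≤ MT2 e N y n a b := by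
  unfold MT2
  exact mul_nonneg (Nat.cast_nonneg _) (prod_nonneg fun p hp => sg2_nonneg _ _ _ _ p (mem_pz.1 hp).2)

/-- the total resultant -/
def RT (e : ℤ) (n : ℕ) (a b : Fin 2 → Fin k → ℤ) : ℤ :=
  (n : ℤ) * (∏ l : Fin k, (a 1 l * n + b 1 l)) * (∏ j : Fin k, (a 0 j * n - e * b 0 j)) * RS e n a b

lemma nb2_large {e : ℤ} (he : e = 1 ∨ e = -1) (n : ℕ) (a b : Fin 2 → Fin k → ℤ) {p : ℕ} (hp : p.Prime)
    (hb : ∀ i, ¬ (p : ℤ) ∣ ∏ j, b i j) :
    nb2 e n a b p ≤ (RR (a 0) (b 0) p).card + (RR (a 1) (b 1) p).card + 2 ∧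
    (¬ (p : ℤ) ∣ RT e n a b → nb2 e n a b p = (RR (a 0) (b 0) p).card + (RR (a 1) (b 1) p).card + 2) := by
  classical
  have hp' : Prime (p : ℤ) := Nat.prime_iff_prime_int.1 hp
  set P0 : ℤ → Prop := fun x => (p : ℤ) ∣ x ∨ (p : ℤ) ∣ Fv (a 0) (b 0) x with hP0
  set P1 : ℤ → Prop := fun x => (p : ℤ) ∣ x ∨ (p : ℤ) ∣ Fv (a 1) (b 1) x with hP1
  have c0 : ((range p).filter (fun x : ℕ => P0 (x : ℤ))).card = (RR (a 0) (b 0) p).card + 1 :=
    kap (fun _ => a 0) (fun _ => b 0) p hp 0 (hb 0)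
  have c1 : ((range p).filter (fun x : ℕ => P1 (x : ℤ))).card = (RR (a 1) (b 1) p).card + 1 :=
    kap (fun _ => a 1) (fun _ => b 1) p hp 0 (hb 1)
  have c1' : ((range p).filter (fun x : ℕ => P1 ((n : ℤ) + e * x))).card = (RR (a 1) (b 1) p).card + 1 := by
    rw [card_shift he n hp P1 (fun x y hxy => by
      rw [hP1]; simp only
      rw [dvd_congr' hxy, Fv_dvd_congr (a 1) (b 1) p hxy])]
    exact c1
  have hU : (range p).filter (fun x => bd2 e n a b p x) =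
      (range p).filter (fun x : ℕ => P0 (x : ℤ)) ∪ (range p).filter (fun x : ℕ => P1 ((n : ℤ) + e * x)) := by
    rw [← filter_or]
    apply filter_congr
    intro x _
    rfl
  have h3 := card_union_add_card_inter ((range p).filter (fun x : ℕ => P0 (x : ℤ))) ((range p).filter (fun x : ℕ => P1 ((n : ℤ) + e * x)))
  rw [← hU, c0, c1'] at h3
  have h4 : nb2 e n a b p = ((range p).filter (fun x => bd2 e n a b p x)).card := rfl
  refine ⟨by omega, fun hR => ?_⟩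
  have hempty : (range p).filter (fun x : ℕ => P0 (x : ℤ)) ∩ (range p).filter (fun x : ℕ => P1 ((n : ℤ) + e * x)) = ∅ := by
    rw [eq_empty_iff_forall_notMem]
    intro x hx
    rw [mem_inter, mem_filter, mem_filter] at hx
    obtain ⟨⟨_, h5⟩, _, h6⟩ := hx
    apply hR
    unfold RT
    rcases h5 with h5 | h5
    · rcases h6 with h6 | h6
      · have : (p : ℤ) ∣ (n : ℤ) := (dvd_add_left (h5.mul_left e)).1 h6
        exact ((this.mul_right _).mul_right _).mul_right _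
      · unfold Fv at h6
        rw [Prime.dvd_finsetProd_iff hp'] at h6
        obtain ⟨l, _, hl⟩ := h6
        have h7 : (p : ℤ) ∣ a 1 l * n + b 1 l := by
          have e1 : a 1 l * (n : ℤ) + b 1 l = (a 1 l * ((n : ℤ) + e * x) + b 1 l) - a 1 l * e * x := by ring
          rw [e1]
          exact dvd_sub hl (h5.mul_left _)
        have h8 : (p : ℤ) ∣ ∏ l : Fin k, (a 1 l * n + b 1 l) := h7.trans (dvd_prod_of_mem (fun l => a 1 l * (n : ℤ) + b 1 l) (mem_univ l))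
        exact ((h8.mul_left _).mul_right _).mul_right _
    · rcases h6 with h6 | h6
      · unfold Fv at h5
        rw [Prime.dvd_finsetProd_iff hp'] at h5
        obtain ⟨j, _, hj⟩ := h5
        have h7 : (p : ℤ) ∣ a 0 j * n - e * b 0 j := by
          have e1 : a 0 j * (n : ℤ) - e * b 0 j = a 0 j * ((n : ℤ) + e * x) - e * (a 0 j * x + b 0 j) := by ring
          rw [e1]
          exact dvd_sub (h6.mul_left _) (hj.mul_left _)
        have h8 : (p : ℤ) ∣ ∏ j : Fin k, (a 0 j * n - e * b 0 j) := h7.trans (dvd_prod_of_mem (fun j => a 0 j * (n : ℤ) - e * b 0 j) (mem_univ j))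
        exact (h8.mul_left _).mul_right _
      · unfold Fv at h5 h6
        rw [Prime.dvd_finsetProd_iff hp'] at h5 h6
        obtain ⟨j, _, hj⟩ := h5
        obtain ⟨l, _, hl⟩ := h6
        have g4 : (p : ℤ) ∣ a 0 j * a 1 l * n + a 0 j * b 1 l - e * a 1 l * b 0 j := by
          have g5 : a 0 j * a 1 l * (n : ℤ) + a 0 j * b 1 l - e * a 1 l * b 0 j =
              a 0 j * (a 1 l * ((n : ℤ) + e * x) + b 1 l) - e * a 1 l * (a 0 j * x + b 0 j) := by ring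
          rw [g5]
          exact dvd_sub (hl.mul_left _) (hj.mul_left _)
        have g6 : (p : ℤ) ∣ RS e n a b := by
          unfold RS
          exact (g4.trans (dvd_prod_of_mem (fun l => a 0 j * a 1 l * (n : ℤ) + a 0 j * b 1 l - e * a 1 l * b 0 j) (mem_univ l))).trans
            (dvd_prod_of_mem (fun j => ∏ l : Fin k, (a 0 j * a 1 l * (n : ℤ) + a 0 j * b 1 l - e * a 1 l * b 0 j)) (mem_univ j))
        exact g6.mul_left _
  rw [hempty, card_empty] at h3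
  omega

lemma num2 (P K r0 r1 θ : ℝ) (hP : 4 * K + 4 ≤ P) (hK : 1 ≤ K) (h0 : 0 ≤ r0 ∧ r0 ≤ K) (h1 : 0 ≤ r1 ∧ r1 ≤ K) (hθ : 0 ≤ θ) :
    |((1 - 1 / P)⁻¹) ^ 2 * (1 - (r0 + r1 + 2 - θ) / P) - (1 - r0 / P) * (1 - r1 / P)| ≤
      (176 * K ^ 2 / P ^ 2 + 16 * θ / P) * ((1 - r0 / P) * (1 - r1 / P)) := by
  have hP0 : 0 < P := by linarith
  set u : ℝ := 1 / P with hu
  have hu0 : 0 < u := by positivity
  have hu8 : u ≤ 1 / 8 := by
    rw [hu, div_le_div_iff₀ hP0 (by norm_num)]; linarith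
  have hKu : K * u ≤ 1 / 4 := by
    rw [hu, mul_one_div, div_le_iff₀ hP0]; linarith
  have e1 : (r0 + r1 + 2 - θ) / P = (r0 + r1 + 2 - θ) * u := by rw [hu]; ring
  have e2 : r0 / P = r0 * u := by rw [hu]; ring
  have e3 : r1 / P = r1 * u := by rw [hu]; ring
  have e4 : 176 * K ^ 2 / P ^ 2 + 16 * θ / P = 176 * K ^ 2 * u ^ 2 + 16 * θ * u := by rw [hu]; ring
  rw [e1, e2, e3, e4]
  set v : ℝ := 1 - u with hv
  have hv0 : 1 / 2 ≤ v := by linarith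
  have hvp : 0 < v := by linarith
  have hvi : (v⁻¹) ^ 2 ≤ 4 := by
    have : v⁻¹ ≤ 2 := by
      rw [inv_le_comm₀ hvp (by norm_num)]; linarith
    calc (v⁻¹) ^ 2 ≤ 2 ^ 2 := pow_le_pow_left₀ (inv_nonneg.2 hvp.le) this 2
      _ = 4 := by norm_num
  have hr0 : r0 * u ≤ 1 / 4 := le_trans (mul_le_mul_of_nonneg_right h0.2 hu0.le) hKu
  have hr1 : r1 * u ≤ 1 / 4 := le_trans (mul_le_mul_of_nonneg_right h1.2 hu0.le) hKu
  have hq : 1 / 4 ≤ (1 - r0 * u) * (1 - r1 * u) := by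
    have t1 : 3 / 4 ≤ 1 - r0 * u := by linarith
    have t2 : 3 / 4 ≤ 1 - r1 * u := by linarith
    nlinarith
  have e5 : (v⁻¹) ^ 2 * (1 - (r0 + r1 + 2 - θ) * u) - (1 - r0 * u) * (1 - r1 * u) =
      (v⁻¹) ^ 2 * (θ * u - ((1 + 2 * (r0 + r1) + r0 * r1) * u ^ 2 - ((r0 + r1) + 2 * (r0 * r1)) * u ^ 3 + r0 * r1 * u ^ 4)) := by
    have t1 : (v⁻¹) ^ 2 * v ^ 2 = 1 := by
      rw [← mul_pow, inv_mul_cancel₀ hvp.ne', one_pow]
    have t2 : (1 - r0 * u) * (1 - r1 * u) = (v⁻¹) ^ 2 * (v ^ 2 * ((1 - r0 * u) * (1 - r1 * u))) := by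
      rw [← mul_assoc, t1, one_mul]
    rw [t2, ← mul_sub]
    congr 1
    rw [hv]; ring
  rw [e5, abs_mul, abs_of_nonneg (by positivity : 0 ≤ (v⁻¹) ^ 2)]
  have hs : 0 ≤ r0 + r1 := by linarith [h0.1, h1.1]
  have hq0 : 0 ≤ r0 * r1 := mul_nonneg h0.1 h1.1
  have hqK : r0 * r1 ≤ K ^ 2 := by
    rw [sq]; exact mul_le_mul h0.2 h1.2 h1.1 (by linarith)
  have hKK : K ≤ K ^ 2 := by nlinarith
  have hK1 : 1 ≤ K ^ 2 := by nlinarith
  have hu2 : 0 < u ^ 2 := by positivity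
  have hu3 : u ^ 3 ≤ u ^ 2 := by
    have : u ^ 3 = u ^ 2 * u := by ring
    rw [this]
    calc u ^ 2 * u ≤ u ^ 2 * 1 := mul_le_mul_of_nonneg_left (by linarith) hu2.le
      _ = _ := mul_one _
  have hu4 : u ^ 4 ≤ u ^ 2 := by
    have : u ^ 4 = u ^ 3 * u := by ring
    rw [this]
    calc u ^ 3 * u ≤ u ^ 3 * 1 := mul_le_mul_of_nonneg_left (by linarith) (by positivity)
      _ ≤ _ := by rw [mul_one]; exact hu3
  have hu30 : 0 ≤ u ^ 3 := by positivity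
  have hu40 : 0 ≤ u ^ 4 := by positivity
  have hin : |θ * u - ((1 + 2 * (r0 + r1) + r0 * r1) * u ^ 2 - ((r0 + r1) + 2 * (r0 * r1)) * u ^ 3 + r0 * r1 * u ^ 4)| ≤
      θ * u + 11 * K ^ 2 * u ^ 2 := by
    have w1 : (1 + 2 * (r0 + r1) + r0 * r1) * u ^ 2 ≤ (1 + 4 * K ^ 2 + K ^ 2) * u ^ 2 := by
      apply mul_le_mul_of_nonneg_right _ hu2.le
      linarith [h0.2, h1.2]
    have w2 : ((r0 + r1) + 2 * (r0 * r1)) * u ^ 3 ≤ (2 * K ^ 2 + 2 * K ^ 2) * u ^ 2 := by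
      apply mul_le_mul _ hu3 hu30 (by positivity)
      linarith [h0.2, h1.2]
    have w3 : r0 * r1 * u ^ 4 ≤ K ^ 2 * u ^ 2 := mul_le_mul hqK hu4 hu40 (by positivity)
    have w1' : 0 ≤ (1 + 2 * (r0 + r1) + r0 * r1) * u ^ 2 := by positivity
    have w2' : 0 ≤ ((r0 + r1) + 2 * (r0 * r1)) * u ^ 3 := by positivity
    have w3' : 0 ≤ r0 * r1 * u ^ 4 := by positivity
    have w4 : 0 ≤ θ * u := by positivity
    have w5 : u ^ 2 ≤ K ^ 2 * u ^ 2 := le_mul_of_one_le_left hu2.le hK1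
    rw [abs_le]
    constructor
    · nlinarith
    · nlinarith
  calc (v⁻¹) ^ 2 * |θ * u - ((1 + 2 * (r0 + r1) + r0 * r1) * u ^ 2 - ((r0 + r1) + 2 * (r0 * r1)) * u ^ 3 + r0 * r1 * u ^ 4)| ≤
        4 * (θ * u + 11 * K ^ 2 * u ^ 2) := mul_le_mul hvi hin (abs_nonneg _) (by norm_num)
    _ = (176 * K ^ 2 * u ^ 2 + 16 * θ * u) * (1 / 4) := by ring
    _ ≤ _ := mul_le_mul_of_nonneg_left hq (by positivity)

lemma RT_size (e : ℤ) (he : e = 1 ∨ e = -1) (N n : ℕ) (hn : n ≤ N) (hN : 2 ≤ N) (a b : Fin 2 → Fin k → ℤ)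
    (ha : ∀ i j, |a i j| ≤ N) (hb : ∀ i j, |b i j| ≤ N) : (RT e n a b).natAbs ≤ N ^ (1 + 3 * k + 3 * k + 5 * (k * k)) := by
  have hN' : (2 : ℤ) ≤ N := by exact_mod_cast hN
  have hn' : (n : ℤ) ≤ N := by exact_mod_cast hn
  have hn0 : (0 : ℤ) ≤ n := Nat.cast_nonneg n
  have he' : |e| = 1 := by rcases he with rfl | rfl <;> norm_num
  have hN3 : (N : ℤ) * N + N ≤ N ^ 3 := by
    have : (N : ℤ) ^ 3 = N * N * N := by ring
    rw [this]
    nlinarith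
  have h1 : ∀ l, |a 1 l * n + b 1 l| ≤ (N : ℤ) ^ 3 := by
    intro l
    refine (abs_add_le _ _).trans (le_trans (add_le_add ?_ (hb 1 l)) hN3)
    rw [abs_mul, abs_of_nonneg hn0]
    exact mul_le_mul (ha 1 l) hn' hn0 (by positivity)
  have h2 : ∀ j, |a 0 j * n - e * b 0 j| ≤ (N : ℤ) ^ 3 := by
    intro j
    refine (abs_sub _ _).trans (le_trans (add_le_add ?_ ?_) hN3)
    · rw [abs_mul, abs_of_nonneg hn0]
      exact mul_le_mul (ha 0 j) hn' hn0 (by positivity)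
    · rw [abs_mul, he', one_mul]; exact hb 0 j
  have h3 : (RS e n a b).natAbs ≤ (N ^ 5) ^ (k * k) := RS_size e he N n hn hN a b ha hb
  have h3' : |RS e n a b| ≤ ((N : ℤ) ^ 5) ^ (k * k) := by
    have : (((RS e n a b).natAbs : ℕ) : ℤ) ≤ (((N ^ 5) ^ (k * k) : ℕ) : ℤ) := by exact_mod_cast h3
    rw [Int.natCast_natAbs] at this
    push_cast at this
    exact this
  have h4 : |RT e n a b| ≤ (N : ℤ) ^ (1 + 3 * k + 3 * k + 5 * (k * k)) := by
    unfold RT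
    rw [abs_mul, abs_mul, abs_mul, abs_prod, abs_prod, abs_of_nonneg hn0]
    have p1 : ∏ l : Fin k, |a 1 l * n + b 1 l| ≤ ((N : ℤ) ^ 3) ^ k := by
      calc ∏ l : Fin k, |a 1 l * n + b 1 l| ≤ ∏ _l : Fin k, (N : ℤ) ^ 3 := prod_le_prod (fun _ _ => abs_nonneg _) (fun l _ => h1 l)
        _ = _ := by rw [prod_const, card_univ, Fintype.card_fin]
    have p2 : ∏ j : Fin k, |a 0 j * n - e * b 0 j| ≤ ((N : ℤ) ^ 3) ^ k := by
      calc ∏ j : Fin k, |a 0 j * n - e * b 0 j| ≤ ∏ _j : Fin k, (N : ℤ) ^ 3 := prod_le_prod (fun _ _ => abs_nonneg _) (fun l _ => h2 l)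
        _ = _ := by rw [prod_const, card_univ, Fintype.card_fin]
    have q1 : 0 ≤ ∏ l : Fin k, |a 1 l * n + b 1 l| := prod_nonneg fun _ _ => abs_nonneg _
    have q2 : 0 ≤ ∏ j : Fin k, |a 0 j * n - e * b 0 j| := prod_nonneg fun _ _ => abs_nonneg _
    calc (n : ℤ) * (∏ l : Fin k, |a 1 l * n + b 1 l|) * (∏ j : Fin k, |a 0 j * n - e * b 0 j|) * |RS e n a b| ≤
          N * ((N : ℤ) ^ 3) ^ k * ((N : ℤ) ^ 3) ^ k * ((N : ℤ) ^ 5) ^ (k * k) := by gcongr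
      _ = _ := by
          rw [← pow_mul, ← pow_mul, pow_add, pow_add, pow_add, pow_one]
  have h5 : (((RT e n a b).natAbs : ℕ) : ℤ) ≤ ((N ^ (1 + 3 * k + 3 * k + 5 * (k * k)) : ℕ) : ℤ) := by
    rw [Int.natCast_natAbs]
    push_cast
    exact h4
  exact_mod_cast h5

lemma MT2_close (e : ℤ) (he : e = 1 ∨ e = -1) (N z y n : ℕ) (hzy : z ≤ y) (a b : Fin 2 → Fin k → ℤ)
    (hb : ∀ i, ∀ p : ℕ, p.Prime → z < p → ¬ (p : ℤ) ∣ ∏ j, b i j) (hz : 4 * 2 ^ k + 4 ≤ z) (hR : RT e n a b ≠ 0) (T : ℝ)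
    (hT : ((RT e n a b).natAbs.primeFactors.card : ℝ) ≤ T) (hTz : 2 * (240 * 4 ^ k * (T + 1)) ≤ z) :
    |MT2 e N y n a b - MT2 e N z n a b * ∏ i, ∏ p ∈ (Ioc z y).filter Nat.Prime, (1 - ((RR (a i) (b i) p).card : ℝ) / p)| ≤
      2 * (240 * 4 ^ k * (T + 1) / z) * (MT2 e N z n a b * ∏ i, ∏ p ∈ (Ioc z y).filter Nat.Prime, (1 - ((RR (a i) (b i) p).card : ℝ) / p)) := by
  have hz0 : (0 : ℝ) < z := by
    have : 0 < z := by omega
    exact_mod_cast this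
  set P := (Ioc z y).filter Nat.Prime with hP
  have hPm : ∀ p ∈ P, p.Prime ∧ z < p := by
    intro p hp
    rw [hP, mem_filter, mem_Ioc] at hp
    exact ⟨hp.2, hp.1.1⟩
  have e0 : ∏ i : Fin 2, ∏ p ∈ P, (1 - ((RR (a i) (b i) p).card : ℝ) / p) =
      ∏ p ∈ P, ((1 - ((RR (a 0) (b 0) p).card : ℝ) / p) * (1 - ((RR (a 1) (b 1) p).card : ℝ) / p)) := by
    rw [Fin.prod_univ_two, prod_mul_distrib]
  have e1 : MT2 e N y n a b = MT2 e N z n a b * ∏ p ∈ P, sg2 e n a b p := by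
    unfold MT2
    rw [pz_split z y hzy]; ring
  rw [e0, e1, ← mul_sub, abs_mul, abs_of_nonneg (MT2_nonneg _ _ _ _ _ _)]
  have hM := MT2_nonneg e N z n a b
  set K : ℝ := 2 ^ k with hK
  have hK1 : 1 ≤ K := one_le_pow₀ (by norm_num)
  have hK2 : K ^ 2 = 4 ^ k := by rw [hK, ← pow_mul, mul_comm, pow_mul]; norm_num
  have hKK : K ≤ K ^ 2 := by nlinarith
  have hrho : ∀ i, ∀ p ∈ P, ((RR (a i) (b i) p).card : ℝ) ≤ K := by
    intro i p hp
    obtain ⟨g1, g2⟩ := hPm p hp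
    exact RR_prime_le (a i) g1 (hb i p g1 g2)
  have hpK : ∀ p ∈ P, 4 * K + 4 ≤ (p : ℝ) := by
    intro p hp
    have h1 : 4 * 2 ^ k + 4 ≤ p := by have := (hPm p hp).2; omega
    have h2 : ((4 * 2 ^ k + 4 : ℕ) : ℝ) ≤ p := by exact_mod_cast h1
    push_cast at h2
    exact h2
  have hyp : ∀ p ∈ P, 0 < (1 - ((RR (a 0) (b 0) p).card : ℝ) / p) * (1 - ((RR (a 1) (b 1) p).card : ℝ) / p) := by
    intro p hp
    have h1 := hpK p hp
    have hp0 : (0 : ℝ) < p := by linarith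
    apply mul_pos
    · rw [sub_pos, div_lt_one hp0]; linarith [hrho 0 p hp]
    · rw [sub_pos, div_lt_one hp0]; linarith [hrho 1 p hp]
  set ε : ℕ → ℝ := fun p => 176 * K ^ 2 / (p : ℝ) ^ 2 + (if (p : ℤ) ∣ RT e n a b then 64 * K / z else 0) with hε
  have hε0 : ∀ p ∈ P, 0 ≤ ε p := by
    intro p _
    rw [hε]; simp only
    split_ifs <;> positivity
  have hclose : ∀ p ∈ P, |sg2 e n a b p - (1 - ((RR (a 0) (b 0) p).card : ℝ) / p) * (1 - ((RR (a 1) (b 1) p).card : ℝ) / p)| ≤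
      ε p * ((1 - ((RR (a 0) (b 0) p).card : ℝ) / p) * (1 - ((RR (a 1) (b 1) p).card : ℝ) / p)) := by
    intro p hp
    obtain ⟨g1, g3⟩ := hPm p hp
    obtain ⟨q1, q2⟩ := nb2_large he n a b g1 (fun i => hb i p g1 g3)
    have hp4 := hpK p hp
    have hp0 : (0 : ℝ) < p := by linarith
    set r0 : ℝ := ((RR (a 0) (b 0) p).card : ℝ) with hr0
    set r1 : ℝ := ((RR (a 1) (b 1) p).card : ℝ) with hr1
    set θ : ℝ := r0 + r1 + 2 - nb2 e n a b p with hθ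
    have hq1 : (nb2 e n a b p : ℝ) ≤ r0 + r1 + 2 := by rw [hr0, hr1]; exact_mod_cast q1
    have hθ0 : 0 ≤ θ := by linarith
    have hnb0 : (0 : ℝ) ≤ nb2 e n a b p := Nat.cast_nonneg _
    have hr00 : 0 ≤ r0 := Nat.cast_nonneg _
    have hr10 : 0 ≤ r1 := Nat.cast_nonneg _
    have h5 := num2 p K r0 r1 θ hp4 hK1 ⟨hr00, hrho 0 p hp⟩ ⟨hr10, hrho 1 p hp⟩ hθ0
    have e2 : sg2 e n a b p = ((1 - 1 / (p : ℝ))⁻¹) ^ 2 * (1 - (r0 + r1 + 2 - θ) / p) := by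
      unfold sg2
      rw [hθ]
      congr 3
      ring
    rw [e2]
    refine h5.trans ?_
    apply mul_le_mul_of_nonneg_right _ (hyp p hp).le
    rw [hε]; simp only
    apply add_le_add le_rfl
    by_cases hd : (p : ℤ) ∣ RT e n a b
    · rw [if_pos hd]
      have h6 : θ ≤ 4 * K := by
        have := hrho 0 p hp
        have := hrho 1 p hp
        linarith
      calc 16 * θ / p ≤ 16 * (4 * K) / p := by gcongr
        _ = 64 * K / p := by ring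
        _ ≤ 64 * K / z := by
            apply div_le_div_of_nonneg_left (by positivity) hz0
            exact_mod_cast g3.le
    · rw [if_neg hd]
      have : θ = 0 := by
        rw [hθ, q2 hd, hr0, hr1]; push_cast; ring
      rw [this]; simp
  have hsum : ∑ p ∈ P, ε p ≤ 240 * 4 ^ k * (T + 1) / z := by
    rw [hε]; simp only
    rw [sum_add_distrib]
    have s1 : ∑ p ∈ P, 176 * K ^ 2 / (p : ℝ) ^ 2 ≤ 176 * K ^ 2 / z := by
      calc ∑ p ∈ P, 176 * K ^ 2 / (p : ℝ) ^ 2 ≤ ∑ p ∈ Ioc z y, 176 * K ^ 2 / (p : ℝ) ^ 2 :=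
            sum_le_sum_of_subset_of_nonneg (filter_subset _ _) (fun _ _ _ => by positivity)
        _ = 176 * K ^ 2 * ∑ p ∈ Ioc z y, ((p : ℝ) ^ 2)⁻¹ := by
            rw [mul_sum]; apply sum_congr rfl; intro p _; rw [div_eq_mul_inv]
        _ ≤ 176 * K ^ 2 * (z : ℝ)⁻¹ := by
            apply mul_le_mul_of_nonneg_left _ (by positivity)
            have h5 : (∑ i ∈ Ioc z y, ((i : ℝ) ^ 2)⁻¹) ≤ (z : ℝ)⁻¹ - (y : ℝ)⁻¹ := sum_Ioc_inv_sq_le_sub (by omega) hzy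
            have h6 : 0 ≤ (y : ℝ)⁻¹ := by positivity
            linarith
        _ = _ := by rw [div_eq_mul_inv]
    have s2 : ∑ p ∈ P, (if (p : ℤ) ∣ RT e n a b then 64 * K / (z : ℝ) else 0) ≤ T * (64 * K / z) := by
      rw [← sum_filter, sum_const, nsmul_eq_mul]
      apply mul_le_mul_of_nonneg_right _ (by positivity)
      refine le_trans ?_ hT
      have : (P.filter (fun p : ℕ => (p : ℤ) ∣ RT e n a b)).card ≤ (RT e n a b).natAbs.primeFactors.card := by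
        apply card_le_card
        intro p hp
        rw [mem_filter] at hp
        rw [Nat.mem_primeFactors]
        exact ⟨(hPm p hp.1).1, Int.natCast_dvd.1 hp.2, Int.natAbs_ne_zero.2 hR⟩
      exact_mod_cast this
    have hT0 : 0 ≤ T := le_trans (Nat.cast_nonneg _) hT
    calc ∑ p ∈ P, 176 * K ^ 2 / (p : ℝ) ^ 2 + ∑ p ∈ P, (if (p : ℤ) ∣ RT e n a b then 64 * K / (z : ℝ) else 0) ≤
          176 * K ^ 2 / z + T * (64 * K / z) := add_le_add s1 s2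
      _ = (176 * K ^ 2 + T * (64 * K)) / z := by ring
      _ ≤ _ := by
          apply div_le_div_of_nonneg_right _ hz0.le
          rw [← hK2]
          have t1 : T * (64 * K) ≤ T * (64 * K ^ 2) := mul_le_mul_of_nonneg_left (by linarith) hT0
          have t2 : 0 ≤ T * K ^ 2 := mul_nonneg hT0 (sq_nonneg _)
          have t3 : 0 ≤ K ^ 2 := sq_nonneg _
          nlinarith
  have hT2 : 240 * 4 ^ k * (T + 1) / (z : ℝ) ≤ 1 / 2 := by
    rw [div_le_iff₀ hz0]; linarith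
  have := prod_close P (fun p => sg2 e n a b p) (fun p => (1 - ((RR (a 0) (b 0) p).card : ℝ) / p) * (1 - ((RR (a 1) (b 1) p).card : ℝ) / p))
    ε hyp hclose hε0 (hsum.trans hT2)
  have hY : 0 ≤ ∏ p ∈ P, ((1 - ((RR (a 0) (b 0) p).card : ℝ) / p) * (1 - ((RR (a 1) (b 1) p).card : ℝ) / p)) := prod_nonneg fun p hp => (hyp p hp).le
  calc MT2 e N z n a b * |∏ p ∈ P, sg2 e n a b p - ∏ p ∈ P, ((1 - ((RR (a 0) (b 0) p).card : ℝ) / p) * (1 - ((RR (a 1) (b 1) p).card : ℝ) / p))| ≤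
        MT2 e N z n a b * (2 * (240 * 4 ^ k * (T + 1) / z) * ∏ p ∈ P, ((1 - ((RR (a 0) (b 0) p).card : ℝ) / p) * (1 - ((RR (a 1) (b 1) p).card : ℝ) / p))) := by
        apply mul_le_mul_of_nonneg_left _ hM
        refine this.trans ?_
        apply mul_le_mul_of_nonneg_right _ hY
        exact mul_le_mul_of_nonneg_left hsum (by norm_num)
    _ = _ := by ring

end Pool.Agent.H76.TB
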