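import Mathlib
import Pool.Agent.H76.TB.D5
import Pool.Agent.H76.TB.E6

/-! The asymptotic formula for almost all integers. -/

set_option autoImplicit false

open Finset

namespace Pool.Agent.H76.TB

open Pool.Agent.H373R2.T7 (ev_log' ev_L' pz mem_pz Vz Vz_pos lamz)
open Pool.Agent.H76.VG (hh hh_nonneg hh_sum lp vm_split lp_nonneg vm_le)
open Pool.Agent.Helper112.LP.Kbh (bh_inv_ge)

variable {k : ℕ}

lemma yy_inj {e : ℤ} (he : e = 1 ∨ e = -1) (N n : ℕ) : Set.InjOn (fun x => yy e n x) (RX e N n : Finset ℕ) := by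
  intro x hx x' hx' h
  rw [mem_coe] at hx hx'
  have h1 := yy_cast hx
  have h2 := yy_cast hx'
  simp only at h
  rw [h, h2] at h1
  rcases he with rfl | rfl
  · have : (x : ℤ) = x' := by linarith
    exact_mod_cast this
  · have : (x : ℤ) = x' := by linarith
    exact_mod_cast this

lemma SB_prime {e : ℤ} (he : e = 1 ∨ e = -1) (P : Finset ℕ) (N n : ℕ) (hN : 1 ≤ N) (a b : Fin 2 → Fin k → ℤ) :
    |SB (fun n => ArithmeticFunction.vonMangoldt n) P e N n a b - SB lp P e N n a b| ≤ 4 * √(N : ℝ) * Real.log N ^ 2 := by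
  classical
  have hℓ0 : 0 ≤ Real.log N := Real.log_natCast_nonneg _
  unfold SB BS
  rw [← sum_sub_distrib]
  have hpt : ∀ x ∈ RX e N n, |(ArithmeticFunction.vonMangoldt x : ℝ) * RI (a 0) (b 0) P x * ((ArithmeticFunction.vonMangoldt (yy e n x) : ℝ) * RI (a 1) (b 1) P (yy e n x)) -
      lp x * RI (a 0) (b 0) P x * (lp (yy e n x) * RI (a 1) (b 1) P (yy e n x))| ≤ Real.log N * hh x + Real.log N * hh (yy e n x) := by
    intro x hx
    have hx1 : x ∈ Icc 1 N := mem_Icc.2 (mem_RX.1 hx).1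
    have hy1 := yy_mem hx
    have v1 := vm_le hx1
    have v2 := vm_le hy1
    rw [vm_split] at v1 v2
    have l1 := lp_nonneg x
    have l2 := lp_nonneg (yy e n x)
    have h1 := hh_nonneg x
    have h2 := hh_nonneg (yy e n x)
    have r1 := RI_nonneg (a 0) (b 0) P x
    have r2 := RI_nonneg (a 1) (b 1) P (yy e n x)
    have r3 := RI_le (a 0) (b 0) P x
    have r4 := RI_le (a 1) (b 1) P (yy e n x)
    have e1 : (ArithmeticFunction.vonMangoldt x : ℝ) * RI (a 0) (b 0) P x * ((ArithmeticFunction.vonMangoldt (yy e n x) : ℝ) * RI (a 1) (b 1) P (yy e n x)) -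
      lp x * RI (a 0) (b 0) P x * (lp (yy e n x) * RI (a 1) (b 1) P (yy e n x)) =
        (hh x * (lp (yy e n x) + hh (yy e n x)) + lp x * hh (yy e n x)) * (RI (a 0) (b 0) P x * RI (a 1) (b 1) P (yy e n x)) := by
      rw [vm_split, vm_split]; ring
    rw [e1, abs_of_nonneg (by positivity)]
    calc (hh x * (lp (yy e n x) + hh (yy e n x)) + lp x * hh (yy e n x)) * (RI (a 0) (b 0) P x * RI (a 1) (b 1) P (yy e n x)) ≤
          (hh x * (lp (yy e n x) + hh (yy e n x)) + lp x * hh (yy e n x)) * 1 := by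
          apply mul_le_mul_of_nonneg_left _ (by positivity)
          exact mul_le_one₀ r3 r2 r4
      _ ≤ _ := by
          rw [mul_one]
          have t1 : hh x * (lp (yy e n x) + hh (yy e n x)) ≤ hh x * Real.log N := mul_le_mul_of_nonneg_left v2 h1
          have t2 : lp x * hh (yy e n x) ≤ Real.log N * hh (yy e n x) := mul_le_mul_of_nonneg_right (by linarith) h2
          linarith
  refine (abs_sum_le_sum_abs _ _).trans ((sum_le_sum hpt).trans ?_)
  rw [sum_add_distrib, ← mul_sum, ← mul_sum]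
  have hs := hh_sum N hN
  have s1 : ∑ x ∈ RX e N n, hh x ≤ 2 * √(N : ℝ) * Real.log N :=
    le_trans (sum_le_sum_of_subset_of_nonneg (filter_subset _ _) (fun _ _ _ => hh_nonneg _)) hs
  have s2 : ∑ x ∈ RX e N n, hh (yy e n x) ≤ 2 * √(N : ℝ) * Real.log N := by
    rw [← sum_image (f := hh) (yy_inj he N n)]
    refine le_trans (sum_le_sum_of_subset_of_nonneg ?_ (fun _ _ _ => hh_nonneg _)) hs
    intro y hy
    rw [mem_image] at hy
    obtain ⟨x, hx, rfl⟩ := hy
    exact yy_mem hx
  calc Real.log N * ∑ x ∈ RX e N n, hh x + Real.log N * ∑ x ∈ RX e N n, hh (yy e n x) ≤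
        Real.log N * (2 * √(N : ℝ) * Real.log N) + Real.log N * (2 * √(N : ℝ) * Real.log N) := by gcongr
    _ = _ := by ring

lemma prod_low2 (k : ℕ) : ∃ c : ℝ, 0 < c ∧ ∀ N y n : ℕ, 3 ≤ N → y ≤ N → ∀ e : ℤ, (e = 1 ∨ e = -1) → ∀ (a b : Fin 2 → Fin k → ℤ),
    (∀ i j, IsCoprime (a i j) (b i j)) →
    (∀ p : ℕ, p.Prime → nb2 e n a b p < p) → c / Real.log N ^ (4 * (k + 1)) ≤ ∏ p ∈ pz y, sg2 e n a b p := by
  obtain ⟨C, hC⟩ := Pool.Agent.Helper256.KM.mertens_inv
  set K : ℕ := 2 * (k + 1) with hK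
  set p0 : ℕ := 2 * K with hp0
  have hp00 : 0 < p0 := by omega
  have hp0r : (0 : ℝ) < p0 := by exact_mod_cast hp00
  have hbase : (1 : ℝ) / (p0 : ℝ) ≤ 1 := by
    rw [div_le_one (by positivity)]
    exact_mod_cast hp00
  refine ⟨(1 / (p0 : ℝ)) ^ p0 * Real.exp (-(2 * K * C)), by positivity, fun N y n hN hy e he a b hco hun => ?_⟩
  have hNr : (3 : ℝ) ≤ N := by exact_mod_cast hN
  have hℓ0 : 1 < Real.log N := by
    rw [Real.lt_log_iff_exp_lt (by linarith)]
    exact lt_of_lt_of_le Real.exp_one_lt_d9 (by linarith)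
  have hloc : ∀ p ∈ pz y, (if p ≤ p0 then (1 : ℝ) / (p0 : ℝ) else 1) * Real.exp (-(2 * (K * (1 / (p : ℝ))))) ≤ sg2 e n a b p := by
    intro p hp
    have hpp := (mem_pz.1 hp).2
    have hp1 : (0 : ℝ) < p := by exact_mod_cast hpp.pos
    have h1p : 1 / (p : ℝ) ≤ 1 / 2 := by
      apply div_le_div_of_nonneg_left (by norm_num) (by norm_num)
      exact_mod_cast hpp.two_le
    have h1p0 : 0 ≤ 1 / (p : ℝ) := by positivity
    have hinv : 1 ≤ ((1 - 1 / (p : ℝ))⁻¹) ^ 2 := by
      apply one_le_pow₀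
      rw [one_le_inv₀ (by linarith)]
      linarith
    have hg0 : 0 ≤ 1 - (nb2 e n a b p : ℝ) / p := by
      have : (nb2 e n a b p : ℝ) / p ≤ 1 := by
        rw [div_le_one (by positivity)]
        exact_mod_cast nb2_le_p e n a b p
      linarith
    have hsg : 1 - (nb2 e n a b p : ℝ) / p ≤ sg2 e n a b p := by
      unfold sg2
      exact le_mul_of_one_le_left hg0 hinv
    refine le_trans ?_ hsg
    split_ifs with h
    · have g1 : nb2 e n a b p + 1 ≤ p := hun p hpp
      have g2 : (nb2 e n a b p : ℝ) + 1 ≤ (p : ℝ) := by exact_mod_cast g1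
      have g3 : 1 / (p : ℝ) ≤ 1 - (nb2 e n a b p : ℝ) / p := by
        rw [le_sub_iff_add_le, ← add_div, div_le_one (by positivity)]
        linarith
      refine le_trans ?_ g3
      calc (1 : ℝ) / (p0 : ℝ) * Real.exp (-(2 * (K * (1 / (p : ℝ))))) ≤ (1 : ℝ) / (p0 : ℝ) * 1 := by
            apply mul_le_mul_of_nonneg_left _ (by positivity)
            apply Real.exp_le_one_iff.2
            have : 0 ≤ 2 * ((K : ℝ) * (1 / (p : ℝ))) := by positivity
            linarith
        _ ≤ 1 / (p : ℝ) := by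
            rw [mul_one]
            apply div_le_div_of_nonneg_left (by norm_num) (by positivity)
            exact_mod_cast h
    · rw [one_mul]
      have hpb : (p0 : ℝ) ≤ p := by
        have : p0 ≤ p := by omega
        exact_mod_cast this
      have hpb' : 2 * (K : ℝ) ≤ p := by
        rw [hp0] at hpb; push_cast at hpb; exact hpb
      have hx1 : (K : ℝ) * (1 / (p : ℝ)) ≤ 1 / 2 := by
        rw [mul_one_div, div_le_iff₀ hp1]; linarith
      refine (bh_inv_ge (by positivity) hx1).trans ?_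
      have g2 : (nb2 e n a b p : ℝ) ≤ K := by
        rw [hK]; exact_mod_cast nb2_le he n a b p hpp hco
      have g3 : (nb2 e n a b p : ℝ) / p ≤ K * (1 / (p : ℝ)) := by
        rw [mul_one_div]
        exact div_le_div_of_nonneg_right g2 hp1.le
      linarith
  calc (1 / (p0 : ℝ)) ^ p0 * Real.exp (-(2 * K * C)) / Real.log N ^ (4 * (k + 1)) =
        (1 / (p0 : ℝ)) ^ p0 * Real.exp (-(2 * K * (Real.log (Real.log N) + C))) := by
        rw [show -(2 * (K : ℝ) * (Real.log (Real.log N) + C)) = -(2 * K * C) - ((4 * (k + 1) : ℕ) : ℝ) * Real.log (Real.log N) by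
          rw [hK]; push_cast; ring, Real.exp_sub, Real.exp_nat_mul, Real.exp_log (by linarith)]
        ring
    _ ≤ (1 / (p0 : ℝ)) ^ p0 * Real.exp (-(2 * K * ∑ p ∈ pz y, 1 / (p : ℝ))) := by
        apply mul_le_mul_of_nonneg_left _ (by positivity)
        apply Real.exp_le_exp.2
        have h1 := (abs_le.1 (hC N hN)).2
        have h2 : ∑ p ∈ pz y, 1 / (p : ℝ) ≤ ∑ p ∈ (Icc 1 N).filter Nat.Prime, (1 : ℝ) / p := by
          apply sum_le_sum_of_subset_of_nonneg
          · intro p hp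
            rw [mem_pz] at hp
            rw [mem_filter, mem_Icc]
            exact ⟨⟨hp.2.one_lt.le, hp.1.trans hy⟩, hp.2⟩
          · intro p _ _; positivity
        have h3 : ∑ p ∈ pz y, 1 / (p : ℝ) ≤ Real.log (Real.log N) + C := by linarith
        have h4 : (0 : ℝ) ≤ 2 * K := by positivity
        have := mul_le_mul_of_nonneg_left h3 h4
        linarith
    _ ≤ (∏ p ∈ pz y, (if p ≤ p0 then (1 : ℝ) / (p0 : ℝ) else 1)) * Real.exp (-(2 * K * ∑ p ∈ pz y, 1 / (p : ℝ))) := by
        apply mul_le_mul_of_nonneg_right _ (Real.exp_pos _).le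
        rw [prod_ite, prod_const, prod_const_one, mul_one]
        apply pow_le_pow_of_le_one (by positivity) hbase
        calc ((pz y).filter (fun p => p ≤ p0)).card ≤ (Icc 1 p0).card := by
              apply card_le_card
              intro p hp
              rw [mem_filter, mem_pz] at hp
              rw [mem_Icc]
              exact ⟨hp.1.2.one_lt.le, hp.2⟩
          _ = p0 := by rw [Nat.card_Icc]; omega
    _ = ∏ p ∈ pz y, ((if p ≤ p0 then (1 : ℝ) / (p0 : ℝ) else 1) * Real.exp (-(2 * (K * (1 / (p : ℝ)))))) := by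
        rw [prod_mul_distrib, ← Real.exp_sum]
        congr 2
        rw [mul_sum, ← sum_neg_distrib]
        apply sum_congr rfl; intro p _
        ring
    _ ≤ _ := by
        apply prod_le_prod
        · intro p _
          split_ifs <;> positivity
        · exact hloc

/-! ### exceptional sets -/

lemma lin_zero (c d : ℤ) (hc : c ≠ 0) (N : ℕ) : ((Icc 1 N).filter (fun n : ℕ => c * (n : ℤ) + d = 0)).card ≤ 1 := by
  rw [card_le_one]
  intro n hn m hm
  rw [mem_filter] at hn hm
  have h : c * ((n : ℤ) - m) = 0 := by linarith [hn.2, hm.2]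
  rcases mul_eq_zero.1 h with h1 | h1
  · exact absurd h1 hc
  · omega

lemma RT_zero {e : ℤ} (he : e = 1 ∨ e = -1) (N : ℕ) (a b : Fin 2 → Fin k → ℤ) (ha : ∀ i j, a i j ≠ 0) :
    ((Icc 1 N).filter (fun n : ℕ => RT e n a b = 0)).card ≤ k + k + k * k := by
  classical
  have hsub : (Icc 1 N).filter (fun n : ℕ => RT e n a b = 0) ⊆
      ((univ : Finset (Fin k)).biUnion (fun l => (Icc 1 N).filter (fun n : ℕ => a 1 l * (n : ℤ) + b 1 l = 0)) ∪
        (univ : Finset (Fin k)).biUnion (fun j => (Icc 1 N).filter (fun n : ℕ => a 0 j * (n : ℤ) + -(e * b 0 j) = 0))) ∪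
      ((univ : Finset (Fin k × Fin k)).biUnion (fun q => (Icc 1 N).filter (fun n : ℕ => (a 0 q.1 * a 1 q.2) * (n : ℤ) + (a 0 q.1 * b 1 q.2 - e * a 1 q.2 * b 0 q.1) = 0))) := by
    intro n hn
    rw [mem_filter, mem_Icc] at hn
    obtain ⟨⟨hn1, hn2⟩, hz⟩ := hn
    have hmem : n ∈ Icc 1 N := mem_Icc.2 ⟨hn1, hn2⟩
    unfold RT RS at hz
    rw [mem_union, mem_union, mem_biUnion, mem_biUnion, mem_biUnion]
    rcases mul_eq_zero.1 hz with h1 | h1
    · rcases mul_eq_zero.1 h1 with h2 | h2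
      · rcases mul_eq_zero.1 h2 with h3 | h3
        · have : n = 0 := by exact_mod_cast h3
          omega
        · obtain ⟨l, _, hl⟩ := prod_eq_zero_iff.1 h3
          exact Or.inl (Or.inl ⟨l, mem_univ _, mem_filter.2 ⟨hmem, hl⟩⟩)
      · obtain ⟨j, _, hj⟩ := prod_eq_zero_iff.1 h2
        exact Or.inl (Or.inr ⟨j, mem_univ _, mem_filter.2 ⟨hmem, by linarith⟩⟩)
    · obtain ⟨j, _, hj⟩ := prod_eq_zero_iff.1 h1
      obtain ⟨l, _, hl⟩ := prod_eq_zero_iff.1 hj
      exact Or.inr ⟨(j, l), mem_univ _, mem_filter.2 ⟨hmem, by simp only; linarith⟩⟩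
  refine (card_le_card hsub).trans ((card_union_le _ _).trans (add_le_add ((card_union_le _ _).trans (add_le_add ?_ ?_)) ?_))
  · refine card_biUnion_le.trans ?_
    calc _ ≤ ∑ _l : Fin k, 1 := sum_le_sum fun l _ => lin_zero _ _ (ha 1 l) N
      _ = k := by simp
  · refine card_biUnion_le.trans ?_
    calc _ ≤ ∑ _l : Fin k, 1 := sum_le_sum fun l _ => lin_zero _ _ (ha 0 l) N
      _ = k := by simp
  · refine card_biUnion_le.trans ?_
    calc _ ≤ ∑ _q : Fin k × Fin k, 1 := sum_le_sum fun q _ => lin_zero _ _ (mul_ne_zero (ha 0 q.1) (ha 1 q.2)) N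
      _ = k * k := by simp

lemma XX_small {e : ℤ} (he : e = 1 ∨ e = -1) (N : ℕ) (T : ℝ) (hT : 0 ≤ T) :
    (((Icc 1 N).filter (fun n : ℕ => (XX e N n : ℝ) < T)).card : ℝ) ≤ T + 1 := by
  classical
  have key : ((Icc 1 N).filter (fun n : ℕ => (XX e N n : ℝ) < T)).card ≤ (Icc 1 ⌊T + 1⌋₊).card := by
    rcases he with rfl | rfl
    · apply card_le_card_of_injOn (fun n => N - n + 1)
      · intro n hn
        rw [mem_coe, mem_filter, mem_Icc] at hn
        have h1 := hn.2
        unfold XX at h1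
        rw [if_pos rfl] at h1
        rw [mem_coe, mem_Icc]
        refine ⟨Nat.le_add_left 1 _, Nat.le_floor ?_⟩
        push_cast
        linarith
      · intro n hn m hm h
        rw [mem_coe, mem_filter, mem_Icc] at hn hm
        simp only at h
        omega
    · apply card_le_card
      intro n hn
      rw [mem_filter, mem_Icc] at hn
      have h1 := hn.2
      unfold XX at h1
      rw [if_neg (by norm_num)] at h1
      rw [mem_Icc]
      refine ⟨hn.1.1, Nat.le_floor ?_⟩
      have h2 : ((n - 1 : ℕ) : ℝ) = (n : ℝ) - 1 := by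
        rw [Nat.cast_sub hn.1.1]; simp
      rw [h2] at h1
      linarith
  have h2 : ((Icc 1 ⌊T + 1⌋₊).card : ℝ) ≤ T + 1 := by
    rw [Nat.card_Icc, Nat.add_sub_cancel]
    exact Nat.floor_le (by linarith)
  exact le_trans (by exact_mod_cast key) h2

end Pool.Agent.H76.TB
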