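import Mathlib
import Pool.Agent.H76.TB.E7

/-! The main theorem on binary sums. -/

set_option autoImplicit false

open Finset

namespace Pool.Agent.H76.TB

open Pool.Agent.H373R2.T7 (ev_log' ev_L' pz mem_pz Vz Vz_pos lamz)
open Pool.Agent.H76.VG (hh hh_nonneg hh_sum lp vm_split lp_nonneg vm_le)

variable {k : ℕ}

theorem bin_main (k : ℕ) : ∃ s₀ : ℕ, ∀ A : ℕ, ∃ B N0 : ℕ, ∀ N : ℕ, N0 ≤ N → ∀ s y : ℕ, s₀ ≤ s → y ^ (256 * s) ≤ N → Real.log N ^ B ≤ y →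
    ∀ (a b : Fin 2 → Fin k → ℤ), (∀ i, (∏ j, b i j) ≠ 0) → (∀ i, ((∏ j, b i j).natAbs : ℝ) ≤ Real.log N) →
    (∀ i j, |a i j| ≤ N) → (∀ i j, a i j ≠ 0) → (∀ i j, IsCoprime (a i j) (b i j)) →
    ∀ e : ℤ, (e = 1 ∨ e = -1) → ∃ ℰ : Finset ℕ, (ℰ.card : ℝ) ≤ N / Real.log N ^ A ∧ ∀ n ∈ Icc 1 N, n ∉ ℰ →
      (∀ p : ℕ, p.Prime → nb2 e n a b p < p) →
      |SB lp (pz y) e N n a b - MT2 e N y n a b| ≤ (256 / 2 ^ s + 1 / Real.log N ^ A) * MT2 e N y n a b ∧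
      N / Real.log N ^ (A + 4 * k + 6) ≤ MT2 e N y n a b := by
  classical
  obtain ⟨c₀, hc₀, hlow⟩ := prod_low2 k
  obtain ⟨N1', hN1'⟩ := core2 k
  refine ⟨N1' + 2, fun A => ?_⟩
  set A2 : ℕ := 2 * A + (4 * k + 6) + 3 with hA2
  obtain ⟨B₀, hB₀⟩ := hN1' A2
  set Kk : ℕ := 1 + 3 * k + 3 * k + 5 * (k * k) with hKk
  set B : ℕ := B₀ + A + 6 with hB
  obtain ⟨m1, h1⟩ := hB₀ B (by omega)
  obtain ⟨m2, h2⟩ := ev_L' (480 * 4 ^ k * (2 * Kk + 1) * 4 + 8 * 2 ^ k + 40 + 4 * (k + k + k * k))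
  obtain ⟨m3, h3⟩ := ev_log' (A2 + 3) 16
  obtain ⟨nc, hnc⟩ := exists_nat_ge (1 / c₀)
  obtain ⟨m5, h5⟩ := ev_L' nc
  refine ⟨B + 1, max (max m1 m2) (max (max m3 m5) 3), fun N hN s y hs hys hy a b hb0 hbN ha ha0 hco e he => ?_⟩
  have a1 := h1 N (le_trans (le_trans (le_max_left _ _) (le_max_left _ _)) hN)
  have hL := h2 N (le_trans (le_trans (le_max_right _ _) (le_max_left _ _)) hN)
  have a3 := h3 N (le_trans (le_trans (le_trans (le_max_left _ _) (le_max_left _ _)) (le_max_right _ _)) hN)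
  have a5 := h5 N (le_trans (le_trans (le_trans (le_max_right _ _) (le_max_left _ _)) (le_max_right _ _)) hN)
  have hN3 : 3 ≤ N := le_trans (le_trans (le_max_right _ _) (le_max_right _ _)) hN
  have hNr : (3 : ℝ) ≤ N := by exact_mod_cast hN3
  have hN0 : (0 : ℝ) < N := by linarith
  set ℓ := Real.log N with hℓ
  have p1 : (1 : ℝ) ≤ 4 ^ k := one_le_pow₀ (by norm_num)
  have p2 : (1 : ℝ) ≤ 2 ^ k := one_le_pow₀ (by norm_num)
  have hKk0 : (0 : ℝ) ≤ Kk := Nat.cast_nonneg _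
  have hkk0 : (0 : ℝ) ≤ (k : ℝ) + k + k * k := by positivity
  have hbig : 0 ≤ 480 * (4 : ℝ) ^ k * (2 * Kk + 1) * 4 := by positivity
  push_cast at hL
  have hℓ40 : 40 ≤ ℓ := by linarith
  have hℓ1 : 1 ≤ ℓ := by linarith
  have hℓ0 : 0 < ℓ := by linarith
  set z : ℕ := ⌈ℓ ^ B⌉₊ with hz
  have hz1 : ℓ ^ B ≤ z := Nat.le_ceil _
  have hz2 : (z : ℝ) ≤ ℓ ^ (B + 1) := by
    have h5 : (z : ℝ) < ℓ ^ B + 1 := Nat.ceil_lt_add_one (by positivity)
    have h6 : (1 : ℝ) ≤ ℓ ^ B := one_le_pow₀ hℓ1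
    rw [pow_succ]
    nlinarith
  have hzy : z ≤ y := by
    have : (z : ℝ) ≤ y := hz2.trans hy
    exact_mod_cast this
  have hzℓ : ℓ ^ (A + 4) ≤ z := (pow_le_pow_right₀ hℓ1 (by omega)).trans hz1
  have hzℓ1 : ℓ ≤ z := by
    refine le_trans ?_ hzℓ
    calc ℓ = ℓ ^ 1 := (pow_one ℓ).symm
      _ ≤ _ := pow_le_pow_right₀ hℓ1 (by omega)
  have hz0 : (0 : ℝ) < z := by linarith
  have hz8 : 4 * 2 ^ k + 4 ≤ z := by
    have : ((4 * 2 ^ k + 4 : ℕ) : ℝ) ≤ z := by push_cast; linarith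
    exact_mod_cast this
  have hy2 : 2 ≤ y := by
    have h6 : (2 : ℝ) ≤ y := by
      have : (z : ℝ) ≤ y := by exact_mod_cast hzy
      linarith
    exact_mod_cast h6
  obtain ⟨J, hJ1, hJ2⟩ := dyad y hy2
  set β : ℕ := s - 2 with hβ
  have hJN : (2 ^ 2 ^ J) ^ (32 * (4 * β + 6)) ≤ N := by
    refine le_trans ?_ hys
    calc (2 ^ 2 ^ J) ^ (32 * (4 * β + 6)) ≤ (y ^ 2) ^ (32 * (4 * β + 6)) := Nat.pow_le_pow_left hJ2 _
      _ = y ^ (2 * (32 * (4 * β + 6))) := by rw [← pow_mul]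
      _ ≤ _ := Nat.pow_le_pow_right (by omega) (by omega)
  have hyN : y ≤ N := by
    refine le_trans ?_ hys
    exact Nat.le_self_pow (by omega) _
  have hbp : ∀ i, ∀ p : ℕ, p.Prime → z < p → ¬ (p : ℤ) ∣ ∏ j, b i j := by
    intro i p _ hp hd
    have h6 : p ≤ (∏ j, b i j).natAbs := Nat.le_of_dvd (Int.natAbs_pos.2 (hb0 i)) (Int.natCast_dvd.1 hd)
    have h7 : (p : ℝ) ≤ ℓ := le_trans (by exact_mod_cast h6) (hbN i)
    have h8 : (z : ℝ) < p := by exact_mod_cast hp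
    linarith
  have hℓN : ℓ ≤ N := by
    have := Real.log_le_sub_one_of_pos hN0
    linarith
  have hbb : ∀ i j, |b i j| ≤ N := by
    intro i j
    have h6 : (b i j).natAbs ∣ (∏ j, b i j).natAbs := Int.natAbs_dvd_natAbs.2 (dvd_prod_of_mem _ (mem_univ j))
    have h7 : (b i j).natAbs ≤ (∏ j, b i j).natAbs := Nat.le_of_dvd (Int.natAbs_pos.2 (hb0 i)) h6
    have h8 : ((b i j).natAbs : ℝ) ≤ N := le_trans (by exact_mod_cast h7) ((hbN i).trans hℓN)
    have h9 : (b i j).natAbs ≤ N := by exact_mod_cast h8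
    rw [Int.abs_eq_natAbs]
    exact_mod_cast h9
  obtain ⟨ℰ₀, hcard, hmain⟩ := a1 z hz1 hz2 β J y (by omega) hJ1 hJN hzy a b hb0 hbN ha hbb hco e he
  set ℰ₁ := (Icc 1 N).filter (fun n : ℕ => RT e n a b = 0) with hℰ₁
  set T0 : ℝ := N / ℓ ^ (A + 1) with hT0
  have hT00 : 0 ≤ T0 := by positivity
  set ℰ₂ := (Icc 1 N).filter (fun n : ℕ => (XX e N n : ℝ) < T0) with hℰ₂
  have hNA : ℓ * (1 + (k + k + k * k)) ≤ N / ℓ ^ (A + 1) := by
    have hsN : √(N : ℝ) * √(N : ℝ) = N := Real.mul_self_sqrt hN0.le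
    have hs0 : 0 ≤ √(N : ℝ) := Real.sqrt_nonneg _
    rw [le_div_iff₀ (by positivity)]
    have g1 : ℓ * (1 + (k + k + k * k)) * ℓ ^ (A + 1) ≤ ℓ * ℓ * ℓ ^ (A + 1) := by
      apply mul_le_mul_of_nonneg_right _ (by positivity)
      apply mul_le_mul_of_nonneg_left _ hℓ0.le
      linarith
    have g2 : ℓ * ℓ * ℓ ^ (A + 1) ≤ 16 * ℓ ^ (A2 + 3) := by
      have e1 : ℓ * ℓ * ℓ ^ (A + 1) = ℓ ^ (A + 3) := by ring
      rw [e1]
      have e2 : ℓ ^ (A + 3) ≤ ℓ ^ (A2 + 3) := pow_le_pow_right₀ hℓ1 (by omega)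
      have e3 : 0 ≤ ℓ ^ (A2 + 3) := by positivity
      linarith
    have g3 : 1 ≤ √(N : ℝ) := by
      rw [Real.one_le_sqrt]; linarith
    nlinarith
  refine ⟨ℰ₀ ∪ ℰ₁ ∪ ℰ₂, ?_, fun n hn hnE hun => ?_⟩
  · have g1 : ((ℰ₀ ∪ ℰ₁ ∪ ℰ₂).card : ℝ) ≤ (ℰ₀.card : ℝ) + ℰ₁.card + ℰ₂.card := by
      have := (card_union_le (ℰ₀ ∪ ℰ₁) ℰ₂).trans (Nat.add_le_add_right (card_union_le ℰ₀ ℰ₁) _)
      exact_mod_cast this
    have g2 : (ℰ₁.card : ℝ) ≤ k + k + k * k := by exact_mod_cast RT_zero he N a b ha0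
    have g3 : (ℰ₂.card : ℝ) ≤ T0 + 1 := XX_small he N T0 hT00
    have g4 : (N : ℝ) / ℓ ^ A2 ≤ T0 := by
      rw [hT0]
      apply div_le_div_of_nonneg_left hN0.le (by positivity)
      exact pow_le_pow_right₀ hℓ1 (by omega)
    have g5 : (1 : ℝ) + (k + k + k * k) ≤ T0 := by
      refine le_trans ?_ hNA
      have : (0 : ℝ) ≤ 1 + (k + k + k * k) := by positivity
      nlinarith
    have g6 : 4 * T0 ≤ N / ℓ ^ A := by
      rw [hT0, pow_succ]
      calc 4 * ((N : ℝ) / (ℓ ^ A * ℓ)) = (4 / ℓ) * (N / ℓ ^ A) := by field_simp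
        _ ≤ 1 * (N / ℓ ^ A) := by
            apply mul_le_mul_of_nonneg_right _ (by positivity)
            rw [div_le_one hℓ0]; linarith
        _ = _ := one_mul _
    linarith
  · rw [mem_union, mem_union, not_or, not_or] at hnE
    obtain ⟨⟨hnE0, hnE1⟩, hnE2⟩ := hnE
    have hR : RT e n a b ≠ 0 := fun h => hnE1 (mem_filter.2 ⟨hn, h⟩)
    have hRS : RS e n a b ≠ 0 := by
      intro h
      apply hR
      unfold RT
      rw [h, mul_zero]
    have hXT : T0 ≤ XX e N n := by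
      by_contra hcon
      exact hnE2 (mem_filter.2 ⟨hn, not_le.1 hcon⟩)
    have hnN := (mem_Icc.1 hn).2
    have hRn : (RT e n a b).natAbs ≠ 0 := Int.natAbs_ne_zero.2 hR
    have hω : ((RT e n a b).natAbs.primeFactors.card : ℝ) ≤ 2 * Kk * ℓ := by
      have t1 := omega_le _ hRn
      have t2 : (((RT e n a b).natAbs : ℕ) : ℝ) ≤ (N : ℝ) ^ Kk := by
        exact_mod_cast RT_size e he N n hnN (by omega) a b ha hbb
      have t3 := Real.log_le_log (by exact_mod_cast Nat.pos_of_ne_zero hRn) t2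
      rw [Real.log_pow] at t3
      linarith
    set η : ℝ := 2 * (240 * 4 ^ k * (2 * Kk * ℓ + 1) / z) with hη
    have hη0 : 0 ≤ η := by positivity
    have hη1 : η ≤ (1 / 4) * (1 / ℓ ^ A) := by
      rw [hη, mul_div_assoc', div_le_iff₀ hz0]
      calc 2 * (240 * 4 ^ k * (2 * Kk * ℓ + 1)) ≤ (1 / 4) * (ℓ * (480 * (4 : ℝ) ^ k * (2 * Kk + 1) * 4)) := by
            have t1 : 2 * (Kk : ℝ) * ℓ + 1 ≤ (2 * Kk + 1) * ℓ := by linarith
            have t2 : 0 ≤ 240 * (4 : ℝ) ^ k := by positivity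
            have := mul_le_mul_of_nonneg_left t1 t2
            nlinarith
        _ ≤ (1 / 4) * (ℓ * ℓ) := by
            apply mul_le_mul_of_nonneg_left _ (by norm_num)
            apply mul_le_mul_of_nonneg_left _ hℓ0.le
            linarith
        _ ≤ (1 / 4) * (1 / ℓ ^ A) * ℓ ^ (A + 4) := by
            rw [pow_add]
            have : (1 / 4) * (1 / ℓ ^ A) * (ℓ ^ A * ℓ ^ 4) = (1 / 4) * (ℓ ^ 4) := by field_simp
            rw [this]
            apply mul_le_mul_of_nonneg_left _ (by norm_num)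
            calc ℓ * ℓ = ℓ ^ 2 := by ring
              _ ≤ _ := pow_le_pow_right₀ hℓ1 (by norm_num)
        _ ≤ (1 / 4) * (1 / ℓ ^ A) * z := mul_le_mul_of_nonneg_left hzℓ (by positivity)
    have hℓA : 1 / ℓ ^ A ≤ 1 := by
      rw [div_le_one (by positivity)]; exact one_le_pow₀ hℓ1
    have hℓA0 : 0 < 1 / ℓ ^ A := by positivity
    have hη2 : η ≤ 1 / 4 := by nlinarith
    have c1 := hmain n hn hnE0 hRS
    rw [M2_eq] at c1
    have c2 := MT2_close e he N z y n hzy a b hbp hz8 hR (2 * Kk * ℓ) hω (by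
      have : η * z ≤ (1 / 4) * z := mul_le_mul_of_nonneg_right hη2 hz0.le
      rw [hη] at this
      have e3 : 2 * (240 * (4 : ℝ) ^ k * (2 * Kk * ℓ + 1) / z) * z = 2 * (240 * 4 ^ k * (2 * Kk * ℓ + 1)) := by field_simp
      rw [e3] at this
      linarith)
    have c4 := hlow N y n hN3 hyN e he a b hco hun
    set X := MT2 e N z n a b * ∏ i, ∏ p ∈ (Ioc z y).filter Nat.Prime, (1 - ((RR (a i) (b i) p).card : ℝ) / p) with hX
    set T := MT2 e N y n a b with hT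
    have hT1 : 0 ≤ T := MT2_nonneg _ _ _ _ _ _
    have hTlow : N / ℓ ^ (A + 4 * k + 6) ≤ T := by
      rw [hT]; unfold MT2
      calc (N : ℝ) / ℓ ^ (A + 4 * k + 6) ≤ (N / ℓ ^ (A + 1)) * (c₀ / ℓ ^ (4 * (k + 1))) := by
            rw [show A + 4 * k + 6 = (A + 1) + 4 * (k + 1) + 1 by ring, pow_succ, pow_add ℓ (A + 1)]
            rw [div_mul_div_comm, div_le_div_iff₀ (by positivity) (by positivity)]
            have g1 : 1 / c₀ ≤ ℓ := by linarith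
            have g2 : 1 ≤ ℓ * c₀ := by rwa [div_le_iff₀ hc₀] at g1
            calc (N : ℝ) * (ℓ ^ (A + 1) * ℓ ^ (4 * (k + 1))) = 1 * (N * (ℓ ^ (A + 1) * ℓ ^ (4 * (k + 1)))) := by ring
              _ ≤ (ℓ * c₀) * (N * (ℓ ^ (A + 1) * ℓ ^ (4 * (k + 1)))) := mul_le_mul_of_nonneg_right g2 (by positivity)
              _ = _ := by ring
        _ ≤ _ := mul_le_mul hXT c4 (by positivity) (Nat.cast_nonneg _)
    refine ⟨?_, hTlow⟩
    have hX0 : 0 ≤ X := by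
      by_contra hneg
      push Not at hneg
      have h6 := le_abs_self (T - X)
      have h7 : η * X ≤ 0 := mul_nonpos_of_nonneg_of_nonpos hη0 hneg.le
      have h8 : |T - X| ≤ η * X := c2
      linarith
    obtain ⟨hX3, f1⟩ := num_c T X η hX0 hη0 hη2 c2
    have c3 := SB_prime he (pz y) N n (by omega) a b
    have f2 : 4 * √(N : ℝ) * ℓ ^ 2 ≤ (1 / 4) * (N / ℓ ^ (A2 - 1)) := by
      have hsN : √(N : ℝ) * √(N : ℝ) = N := Real.mul_self_sqrt hN0.le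
      have hs0 : 0 ≤ √(N : ℝ) := Real.sqrt_nonneg _
      have e : A2 + 3 = (A2 - 1) + 4 := by omega
      calc 4 * √(N : ℝ) * ℓ ^ 2 = (16 * ℓ ^ (A2 + 3)) * √(N : ℝ) / (4 * ℓ ^ 2 * ℓ ^ (A2 - 1)) := by
            rw [e, pow_add]; field_simp; ring
        _ ≤ √(N : ℝ) * √(N : ℝ) / (4 * ℓ ^ 2 * ℓ ^ (A2 - 1)) := by gcongr
        _ = (1 / (4 * ℓ ^ 2)) * (N / ℓ ^ (A2 - 1)) := by rw [hsN]; field_simp
        _ ≤ _ := by
            apply mul_le_mul_of_nonneg_right _ (by positivity)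
            apply div_le_div_of_nonneg_left (by norm_num) (by norm_num)
            nlinarith
    have f3 : (N : ℝ) / ℓ ^ A2 ≤ (1 / 4) * (N / ℓ ^ (A2 - 1)) := by
      have e : A2 = (A2 - 1) + 1 := by omega
      rw [e, pow_succ, Nat.add_sub_cancel]
      calc (N : ℝ) / (ℓ ^ (A2 - 1) * ℓ) = (1 / ℓ) * (N / ℓ ^ (A2 - 1)) := by field_simp
        _ ≤ _ := by
            apply mul_le_mul_of_nonneg_right _ (by positivity)
            exact div_le_div_of_nonneg_left (by norm_num) (by norm_num) (by linarith)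
    have f4 : (N : ℝ) / ℓ ^ (A2 - 1) ≤ (1 / 2) * (1 / ℓ ^ A) * T := by
      have e : A2 - 1 = A + (A + 4 * k + 6) + 2 := by omega
      calc (N : ℝ) / ℓ ^ (A2 - 1) = (1 / ℓ ^ 2) * (1 / ℓ ^ A) * (N / ℓ ^ (A + 4 * k + 6)) := by
            rw [e, pow_add ℓ (A + (A + 4 * k + 6)) 2, pow_add ℓ A (A + 4 * k + 6)]; field_simp
        _ ≤ (1 / 2) * (1 / ℓ ^ A) * T := by
            apply mul_le_mul _ hTlow (by positivity) (by positivity)
            apply mul_le_mul_of_nonneg_right _ hℓA0.le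
            apply div_le_div_of_nonneg_left (by norm_num) (by norm_num)
            nlinarith
    set δ : ℝ := (1 / 2) ^ β with hδ
    have hδ0 : 0 ≤ δ := by positivity
    have hδs : 64 * δ = 256 / 2 ^ s := by
      have : (2 : ℝ) ^ s = 2 ^ β * 4 := by
        rw [show (4 : ℝ) = 2 ^ 2 by norm_num, ← pow_add]; congr 1; omega
      rw [hδ, this, one_div, inv_pow]
      field_simp
      norm_num
    have f5 : |X - T| ≤ 2 * η * T := by
      rw [abs_sub_comm]; exact f1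
    set SA := SB (fun n => ArithmeticFunction.vonMangoldt n) (pz y) e N n a b with hSA
    set SP := SB lp (pz y) e N n a b with hSP
    have key : |SP - T| ≤ 4 * √(N : ℝ) * ℓ ^ 2 + (32 * δ * X + N / ℓ ^ A2) + 2 * η * T := by
      have g1 := abs_le.1 c3
      have g2 := abs_le.1 c1
      have g3 := abs_le.1 f5
      rw [abs_le]
      constructor <;> linarith [g1.1, g1.2, g2.1, g2.2, g3.1, g3.2]
    have g4 : 32 * δ * X ≤ (256 / 2 ^ s) * T := by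
      rw [← hδs]
      calc 32 * δ * X ≤ 32 * δ * (2 * T) := mul_le_mul_of_nonneg_left hX3 (by positivity)
        _ = _ := by ring
    have g5 : 2 * η * T ≤ (1 / 2) * (1 / ℓ ^ A) * T := by
      apply mul_le_mul_of_nonneg_right _ hT1
      linarith
    refine key.trans ?_
    rw [add_mul]
    set w : ℝ := (1 / ℓ ^ A) * T with hw
    have g6 : 0 ≤ w := mul_nonneg hℓA0.le hT1
    have f4' : (N : ℝ) / ℓ ^ (A2 - 1) ≤ (1 / 2) * w := f4.trans (le_of_eq (by rw [hw]; ring))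
    have g5' : 2 * η * T ≤ (1 / 2) * w := g5.trans (le_of_eq (by rw [hw]; ring))
    linarith

end Pool.Agent.H76.TB
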