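import Mathlib
import Pool.Agent.H76.TB.A22
import Pool.Agent.H76.TB.E8

/-! Almost prime companions of the two primes. -/

set_option autoImplicit false

open Finset

namespace Pool.Agent.H76.TB

open Pool.Agent.H373R2.T7 (ev_log' ev_L' pz mem_pz Vz Vz_pos lamz)

variable {k : ℕ}

lemma RI_one (a b : Fin k → ℤ) (P : Finset ℕ) (n : ℕ) (h : RI a b P n = 1) : ∀ p ∈ P, ¬ (p : ℤ) ∣ Fv a b (n : ℤ) := by
  unfold RI at h
  by_contra hcon
  rw [if_neg hcon] at h
  norm_num at h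

lemma RI_zero (a b : Fin k → ℤ) (P : Finset ℕ) (n : ℕ) (h : RI a b P n ≠ 1) : RI a b P n = 0 := by
  unfold RI at h ⊢
  by_cases hh : ∀ p ∈ P, ¬ (p : ℤ) ∣ Fv a b (n : ℤ)
  · rw [if_pos hh] at h
    exact absurd rfl h
  · rw [if_neg hh]

/-- rough values are almost primes -/
lemma rough_ap (a b : Fin k → ℤ) (N x y L : ℕ) (w : ℝ) (hN : 3 ≤ N) (hx : x ≤ N) (ha : ∀ j, |a j| ≤ N) (hb : ∀ j, |b j| ≤ N)
    (hw : 1 ≤ w) (hwy : w < y + 1) (hy2 : 2 ≤ y) (hL : (N : ℝ) ^ 3 ≤ w ^ L) (h : ∀ p ∈ pz y, ¬ (p : ℤ) ∣ Fv a b (x : ℤ)) (j : Fin k) :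
    a j * (x : ℤ) + b j ≠ 0 ∧ (a j * (x : ℤ) + b j).natAbs.primeFactorsList.length ≤ L ∧
      ∀ q ∈ (a j * (x : ℤ) + b j).natAbs.primeFactorsList, w < q := by
  set v := a j * (x : ℤ) + b j with hv
  have hvF : ∀ p : ℕ, (p : ℤ) ∣ v → (p : ℤ) ∣ Fv a b (x : ℤ) := by
    intro p hp
    unfold Fv
    exact hp.trans (dvd_prod_of_mem (fun j => a j * (x : ℤ) + b j) (mem_univ j))
  have hv0 : v ≠ 0 := by
    intro h0
    apply h 2 (mem_pz.2 ⟨by omega, Nat.prime_two⟩)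
    apply hvF
    rw [h0]; exact dvd_zero _
  have hq : ∀ q : ℕ, q.Prime → q ∣ v.natAbs → w < q := by
    intro q hq hqv
    by_contra hlt
    have h7 : ¬ (y + 1 ≤ q) := by
      intro h8
      have : (y : ℝ) + 1 ≤ q := by exact_mod_cast h8
      linarith
    exact h q (mem_pz.2 ⟨by omega, hq⟩) (hvF q (Int.natCast_dvd.2 hqv))
  have hNr : (3 : ℝ) ≤ N := by exact_mod_cast hN
  have hvN : (v.natAbs : ℝ) < w ^ L := by
    have c5 : v.natAbs ≤ N * N + N := by
      have c1 : |v| ≤ (N : ℤ) * N + N := by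
        rw [hv]
        refine (abs_add_le _ _).trans (add_le_add ?_ (hb j))
        rw [abs_mul]
        have hx0 : (0 : ℤ) ≤ x := Nat.cast_nonneg x
        rw [abs_of_nonneg hx0]
        exact mul_le_mul (ha j) (by exact_mod_cast hx) hx0 (by positivity)
      have c2 : ((v.natAbs : ℕ) : ℤ) ≤ ((N * N + N : ℕ) : ℤ) := by
        rw [Int.natCast_natAbs]; push_cast; exact c1
      exact_mod_cast c2
    have c6 : (v.natAbs : ℝ) ≤ N * N + N := by exact_mod_cast c5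
    have h6 : (N : ℝ) * N + N < N ^ 3 := by nlinarith
    linarith
  refine ⟨hv0, few w hw _ _ (Int.natAbs_ne_zero.2 hv0) hvN hq, fun q hqm => ?_⟩
  exact hq q (Nat.prime_of_mem_primeFactorsList hqm) (Nat.dvd_of_mem_primeFactorsList hqm)

theorem almost2 (k : ℕ) : ∃ (r : ℕ) (δ : ℝ), 0 < δ ∧ ∀ A : ℕ, ∃ N0 : ℕ, ∀ N : ℕ, N0 ≤ N →
    ∀ (a b : Fin 2 → Fin k → ℤ), (∀ i, (∏ j, b i j) ≠ 0) → (∀ i, ((∏ j, b i j).natAbs : ℝ) ≤ Real.log N) →
    (∀ i j, |a i j| ≤ N) → (∀ i j, a i j ≠ 0) → (∀ i j, IsCoprime (a i j) (b i j)) →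
    ∀ e : ℤ, (e = 1 ∨ e = -1) → ∃ ℰ : Finset ℕ, (ℰ.card : ℝ) ≤ N / Real.log N ^ A ∧ ∀ n ∈ Icc 1 N, n ∉ ℰ →
      (∀ p : ℕ, p.Prime → nb2 e n a b p < p) →
      ∃ R : Finset ℕ, N / Real.log N ^ (A + 4 * k + 10) ≤ R.card ∧ ∀ x ∈ R, x.Prime ∧ x ≤ N ∧ ∃ x' : ℕ, x'.Prime ∧ x' ≤ N ∧ (x' : ℤ) = n + e * x ∧
        (∀ j, a 0 j * (x : ℤ) + b 0 j ≠ 0 ∧ (a 0 j * (x : ℤ) + b 0 j).natAbs.primeFactorsList.length ≤ r ∧
          ∀ q ∈ (a 0 j * (x : ℤ) + b 0 j).natAbs.primeFactorsList, (N : ℝ) ^ δ < q) ∧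
        (∀ j, a 1 j * (x' : ℤ) + b 1 j ≠ 0 ∧ (a 1 j * (x' : ℤ) + b 1 j).natAbs.primeFactorsList.length ≤ r ∧
          ∀ q ∈ (a 1 j * (x' : ℤ) + b 1 j).natAbs.primeFactorsList, (N : ℝ) ^ δ < q) := by
  classical
  obtain ⟨s₀, h⟩ := bin_main k
  set s : ℕ := max s₀ 10 with hs
  have hs1 : s₀ ≤ s := le_max_left _ _
  have hs2 : 10 ≤ s := le_max_right _ _
  have hs0 : (0 : ℝ) < 256 * s := by positivity
  refine ⟨768 * s, 1 / (256 * s), by positivity, fun A => ?_⟩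
  obtain ⟨B, m1, h1⟩ := h (A + 1)
  obtain ⟨m2, h2⟩ := ev_L' 4
  obtain ⟨m3, h3⟩ := ev_log' (B * (256 * s) * 2 + 512 * s * 2) 1
  refine ⟨max m1 (max m2 (max m3 16)), fun N hN a b hb hbN ha ha0 hco e he => ?_⟩
  have hL := h2 N (le_trans (le_trans (le_max_left _ _) (le_max_right _ _)) hN)
  have a3 := h3 N (le_trans (le_trans (le_trans (le_max_left _ _) (le_max_right _ _)) (le_max_right _ _)) hN)
  have hN16 : 16 ≤ N := le_trans (le_trans (le_trans (le_max_right _ _) (le_max_right _ _)) (le_max_right _ _)) hN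
  have hNr : (16 : ℝ) ≤ N := by exact_mod_cast hN16
  have hN0 : (0 : ℝ) < N := by linarith
  set w : ℝ := (N : ℝ) ^ (1 / (256 * (s : ℝ))) with hw
  set y : ℕ := ⌊w⌋₊ with hy
  have hw0 : 0 < w := Real.rpow_pos_of_pos hN0 _
  have hwp : w ^ (256 * s) = N := by
    rw [hw, ← Real.rpow_natCast, ← Real.rpow_mul hN0.le]
    push_cast
    rw [one_div, inv_mul_cancel₀ hs0.ne', Real.rpow_one]
  have hw1 : 1 ≤ w := Real.one_le_rpow (by linarith) (by positivity)
  have hys : y ^ (256 * s) ≤ N := by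
    have : ((y ^ (256 * s) : ℕ) : ℝ) ≤ N := by
      push_cast
      calc (y : ℝ) ^ (256 * s) ≤ w ^ (256 * s) := pow_le_pow_left₀ (by positivity) (Nat.floor_le hw0.le) _
        _ = N := hwp
    exact_mod_cast this
  set ℓ := Real.log N with hℓ
  have hℓ1 : 1 ≤ ℓ := by linarith
  have hℓ0 : 0 < ℓ := by linarith
  have hyl : ℓ ^ B ≤ y := by
    have h5 : ℓ ^ (B + 1) ≤ w := by
      have h6 : (ℓ ^ (B + 1)) ^ (256 * s) ≤ w ^ (256 * s) := by
        rw [hwp, ← pow_mul]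
        have h7 : ℓ ^ ((B + 1) * (256 * s)) ≤ ℓ ^ (B * (256 * s) * 2 + 512 * s * 2) := pow_le_pow_right₀ hℓ1 (by nlinarith)
        have hs0 : √(N : ℝ) ≤ N := by
          rw [Real.sqrt_le_left (by positivity)]; nlinarith
        linarith
      by_contra hlt
      push Not at hlt
      exact absurd h6 (not_le.2 (pow_lt_pow_left₀ hlt hw0.le (by positivity)))
    have h6 : w < y + 1 := Nat.lt_floor_add_one w
    have h7 : ℓ ^ B + 1 ≤ ℓ ^ (B + 1) := by
      rw [pow_succ]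
      have : 1 ≤ ℓ ^ B := one_le_pow₀ hℓ1
      nlinarith
    linarith
  have hwy : w < y + 1 := Nat.lt_floor_add_one w
  have hy2 : 2 ≤ y := by
    by_contra hlt
    have : y ≤ 1 := by omega
    have h7 : (y : ℝ) ≤ 1 := by exact_mod_cast this
    have h5 : ℓ ≤ w := by
      have h6 : ℓ ^ (256 * s) ≤ w ^ (256 * s) := by
        rw [hwp]
        have h7 : ℓ ^ (256 * s) ≤ ℓ ^ (B * (256 * s) * 2 + 512 * s * 2) := pow_le_pow_right₀ hℓ1 (by nlinarith)
        have hs0 : √(N : ℝ) ≤ N := by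
          rw [Real.sqrt_le_left (by positivity)]; nlinarith
        linarith
      by_contra hlt
      push Not at hlt
      exact absurd h6 (not_le.2 (pow_lt_pow_left₀ hlt hw0.le (by positivity)))
    linarith
  have hℓN : ℓ ≤ N := by
    have := Real.log_le_sub_one_of_pos hN0
    linarith
  have hbb : ∀ i j, |b i j| ≤ N := by
    intro i j
    have h6 : (b i j).natAbs ∣ (∏ j, b i j).natAbs := Int.natAbs_dvd_natAbs.2 (dvd_prod_of_mem _ (mem_univ j))
    have h7 : (b i j).natAbs ≤ (∏ j, b i j).natAbs := Nat.le_of_dvd (Int.natAbs_pos.2 (hb i)) h6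
    have h8 : ((b i j).natAbs : ℝ) ≤ N := le_trans (by exact_mod_cast h7) ((hbN i).trans hℓN)
    have h9 : (b i j).natAbs ≤ N := by exact_mod_cast h8
    rw [Int.abs_eq_natAbs]
    exact_mod_cast h9
  obtain ⟨ℰ, hcard, hmain⟩ := h1 N (le_trans (le_max_left _ _) hN) s y hs1 hys hyl a b hb hbN ha ha0 hco e he
  refine ⟨ℰ, ?_, fun n hn hnE hun => ?_⟩
  · refine hcard.trans ?_
    apply div_le_div_of_nonneg_left hN0.le (by positivity)
    exact pow_le_pow_right₀ hℓ1 (by omega)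
  · obtain ⟨g1, g2⟩ := hmain n hn hnE hun
    set M := MT2 e N y n a b with hM
    set S := SB Pool.Agent.H76.VG.lp (pz y) e N n a b with hS
    have hM0 : 0 ≤ M := MT2_nonneg _ _ _ _ _ _
    have hc : (256 : ℝ) / 2 ^ s + 1 / ℓ ^ (A + 1) ≤ 1 / 2 := by
      have h5 : (256 : ℝ) / 2 ^ s ≤ 1 / 4 := by
        rw [div_le_div_iff₀ (by positivity) (by norm_num)]
        have : (2 : ℝ) ^ 10 ≤ 2 ^ s := pow_le_pow_right₀ (by norm_num) hs2
        nlinarith
      have h6 : 1 / ℓ ^ (A + 1) ≤ 1 / 4 := by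
        apply div_le_div_of_nonneg_left (by norm_num) (by norm_num)
        calc (4 : ℝ) ≤ ℓ := hL
          _ = ℓ ^ 1 := (pow_one _).symm
          _ ≤ _ := pow_le_pow_right₀ hℓ1 (by omega)
      linarith
    have hSM : M / 2 ≤ S := by
      have := (abs_le.1 g1).1
      have h7 : (256 / 2 ^ s + 1 / ℓ ^ (A + 1)) * M ≤ 1 / 2 * M := mul_le_mul_of_nonneg_right hc hM0
      linarith
    set R : Finset ℕ := (RX e N n).filter (fun x => x.Prime ∧ (yy e n x).Prime ∧ RI (a 0) (b 0) (pz y) x = 1 ∧ RI (a 1) (b 1) (pz y) (yy e n x) = 1) with hR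
    have hSc : S ≤ R.card * ℓ ^ 2 := by
      rw [hS]
      unfold SB BS
      have e1 : ∑ x ∈ RX e N n, Pool.Agent.H76.VG.lp x * RI (a 0) (b 0) (pz y) x * (Pool.Agent.H76.VG.lp (yy e n x) * RI (a 1) (b 1) (pz y) (yy e n x)) ≤
          ∑ x ∈ RX e N n, (if x.Prime ∧ (yy e n x).Prime ∧ RI (a 0) (b 0) (pz y) x = 1 ∧ RI (a 1) (b 1) (pz y) (yy e n x) = 1 then ℓ ^ 2 else 0) := by
        apply sum_le_sum
        intro x hx
        have hx1 := (mem_RX.1 hx).1
        have hy1 := mem_Icc.1 (yy_mem hx)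
        by_cases c1 : x.Prime
        · by_cases c2 : (yy e n x).Prime
          · by_cases c3 : RI (a 0) (b 0) (pz y) x = 1
            · by_cases c4 : RI (a 1) (b 1) (pz y) (yy e n x) = 1
              · rw [if_pos ⟨c1, c2, c3, c4⟩, c3, c4, mul_one, mul_one]
                unfold Pool.Agent.H76.VG.lp
                rw [if_pos c1, if_pos c2, sq]
                apply mul_le_mul
                · exact Real.log_le_log (by exact_mod_cast hx1.1) (by exact_mod_cast hx1.2)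
                · exact Real.log_le_log (by exact_mod_cast hy1.1) (by exact_mod_cast hy1.2)
                · exact Real.log_natCast_nonneg _
                · exact hℓ0.le
              · have : RI (a 1) (b 1) (pz y) (yy e n x) = 0 := RI_zero _ _ _ _ c4
                rw [if_neg (fun h => c4 h.2.2.2), this]; simp
            · have : RI (a 0) (b 0) (pz y) x = 0 := RI_zero _ _ _ _ c3
              rw [if_neg (fun h => c3 h.2.2.1), this]; simp
          · have : Pool.Agent.H76.VG.lp (yy e n x) = 0 := by unfold Pool.Agent.H76.VG.lp; rw [if_neg c2]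
            rw [this, if_neg (fun h => c2 h.2.1)]; simp
        · have : Pool.Agent.H76.VG.lp x = 0 := by unfold Pool.Agent.H76.VG.lp; rw [if_neg c1]
          rw [this, if_neg (fun h => c1 h.1)]; simp
      refine e1.trans (le_of_eq ?_)
      rw [← sum_filter, sum_const, nsmul_eq_mul]
    refine ⟨R, ?_, fun x hx => ?_⟩
    · have h5 : (N : ℝ) / ℓ ^ (A + 1 + 4 * k + 6) ≤ 2 * (R.card * ℓ ^ 2) := by linarith
      rw [div_le_iff₀ (by positivity)] at h5 ⊢
      calc (N : ℝ) ≤ 2 * (R.card * ℓ ^ 2) * ℓ ^ (A + 1 + 4 * k + 6) := h5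
        _ = R.card * (2 * ℓ ^ (A + 4 * k + 9)) := by
            rw [show A + 4 * k + 9 = 2 + (A + 1 + 4 * k + 6) by ring, pow_add]; ring
        _ ≤ R.card * ℓ ^ (A + 4 * k + 10) := by
            apply mul_le_mul_of_nonneg_left _ (by positivity)
            rw [show A + 4 * k + 10 = (A + 4 * k + 9) + 1 by ring, pow_succ ℓ (A + 4 * k + 9), mul_comm]
            apply mul_le_mul_of_nonneg_left (by linarith) (by positivity)
    · rw [hR, mem_filter] at hx
      obtain ⟨hx0, hx1, hx2, hx3, hx4⟩ := hx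
      have hxN := (mem_RX.1 hx0).1
      have hyN := mem_Icc.1 (yy_mem hx0)
      have hL3 : (N : ℝ) ^ 3 ≤ w ^ (768 * s) := by
        rw [show 768 * s = 256 * s * 3 by ring, pow_mul, hwp]
      refine ⟨hx1, hxN.2, yy e n x, hx2, hyN.2, yy_cast hx0, fun j => ?_, fun j => ?_⟩
      · exact rough_ap (a 0) (b 0) N x y (768 * s) w (by omega) hxN.2 (ha 0) (hbb 0) hw1 hwy hy2 hL3 (RI_one _ _ _ _ hx3) j
      · exact rough_ap (a 1) (b 1) N (yy e n x) y (768 * s) w (by omega) hyN.2 (ha 1) (hbb 1) hw1 hwy hy2 hL3 (RI_one _ _ _ _ hx4) j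

end Pool.Agent.H76.TB
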